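import Pool.Agent.TBirX.Def
import Pool.Agent.TBirN.Ad
import Pool.Agent.TBirK.RgA

/-!
# The adjoint

As TBirN/Ad.lean (`Dt.pstar`, `Dp.pstar`, `Nj.pstar`, `wj_pstar_iff`); `tg (pstar phi) z = conj (tg phi z)`, the segments are conjugated.
-/

set_option autoImplicit false

open MeasureTheory Complex Set Filter Topology Metric AddCircle
open scoped ComplexConjugate InnerProductSpace ENNReal

namespace Pool.Agent.TBirX

open Pool.Agent.TBir Pool.Agent.TBirG Pool.Agent.TBirC Pool.Agent.TBirJ Pool.Agent.TBirK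
open Pool.Agent.TBirN
open Pool.Agent.TBirP (E qT)

variable {phi : ℂ → ℂ} {F : Finset ℂ} {u v : ℂ → ℂ}

private theorem ad_seg {a b w : ℂ} (h : w ∈ segment ℝ (conj a) (conj b)) :
    conj w ∈ segment ℝ a b := by
  obtain ⟨r, s, hr, hs, hrs, rfl⟩ := h
  refine ⟨r, s, hr, hs, hrs, ?_⟩
  simp

private theorem ad_inj {z z' : ℂ} (hz : ‖z‖ = 1) (hz' : ‖z'‖ = 1)
    (h : pstar phi z = pstar phi z') : phi z = phi z' := by
  rw [TBirP.AdjQ.on hz, TBirP.AdjQ.on hz'] at h
  exact (starRingEnd ℂ).injective h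

private theorem ad_fun {t : ℂ} (ht : ‖t‖ = 1) :
    (fun y : ℝ => pstar phi (t * E y)) = fun y : ℝ => conj (phi (t * E y)) := by
  funext y
  have h5 : ‖t * E y‖ = 1 := by
    rw [norm_mul, ht, one_mul, E]
    exact Complex.norm_exp_ofReal_mul_I _
  exact TBirP.AdjQ.on h5

private theorem ad_tg {t : ℂ} (ht : ‖t‖ = 1) : tg (pstar phi) t = conj (tg phi t) := by
  unfold tg
  rw [ad_fun ht]
  have h : deriv (fun y : ℝ => star (phi (t * E y))) 0 = star (deriv (fun y : ℝ => phi (t * E y)) 0) :=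
    deriv.star
  exact h

/-- transfer of winding numbers near `q` -/
private theorem ad_freq {q : ℂ} {p r : ℤ → Prop} (hpr : ∀ n, p n → r (-n))
    (h : ∃ᶠ l in 𝓝 (conj q), ∃ n, p n ∧ Wj (pstar phi) F l n) :
    ∃ᶠ l in 𝓝 q, ∃ n, r n ∧ Wj phi F l n := by
  have h1 : Tendsto (fun z : ℂ => conj z) (𝓝 (conj q)) (𝓝 q) := by
    have h2 := Complex.continuous_conj.tendsto (conj q)
    rwa [Complex.conj_conj] at h2
  refine h1.frequently (h.mono ?_)
  rintro l ⟨n, hn, hw⟩
  refine ⟨-n, hpr n hn, ?_⟩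
  rw [← wj_pstar_iff, Complex.conj_conj]
  exact hw

private theorem ad_ev {q : ℂ} {p r : ℤ → Prop} (hpr : ∀ n, p (-n) → r n)
    (h : ∀ᶠ l in 𝓝 (conj q), ∀ n, Wj (pstar phi) F l n → p n) :
    ∀ᶠ l in 𝓝 q, ∀ n, Wj phi F l n → r n := by
  have h1 : Tendsto (fun z : ℂ => conj z) (𝓝 q) (𝓝 (conj q)) :=
    Complex.continuous_conj.tendsto q
  filter_upwards [h1.eventually h] with l hl n hn
  refine hpr n (hl (-n) ?_)
  rw [wj_pstar_iff, neg_neg]
  exact hn

private theorem ad_ev' {q : ℂ} {p r : ℤ → Prop} (hpr : ∀ n, p (-n) → r n)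
    (h : ∀ᶠ l in 𝓝 (conj q), ∀ n, Wj phi F l n → p n) :
    ∀ᶠ l in 𝓝 q, ∀ n, Wj (pstar phi) F l n → r n := by
  have h1 : Tendsto (fun z : ℂ => conj z) (𝓝 q) (𝓝 (conj q)) :=
    Complex.continuous_conj.tendsto q
  filter_upwards [h1.eventually h] with l hl n hn
  refine hpr n (hl (-n) ?_)
  rw [← wj_pstar_iff, Complex.conj_conj]
  exact hn

private theorem ad_val {z q : ℂ} (hz : ‖z‖ = 1) : pstar phi z = q ↔ phi z = conj q := by
  rw [TBirP.AdjQ.on hz]
  constructor
  · rintro rfl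
    rw [Complex.conj_conj]
  · intro h
    rw [h, Complex.conj_conj]

private theorem ad_ne {a q : ℂ} (h : conj q ≠ a) : q ≠ conj a := by
  rintro rfl
  exact h (Complex.conj_conj a)

private theorem ad_im {a b : ℂ} (h : (conj a * b).im ≠ 0) : (conj (conj a) * conj b).im ≠ 0 := by
  rw [← map_mul, Complex.conj_im]
  exact neg_ne_zero.2 h

private theorem Sn.pstar {t q : ℂ} (h : Sn phi F u v t (conj q)) :
    Sn (pstar phi) F (fun t => conj (u t)) (fun t => conj (v t)) t q := by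
  refine ⟨fun z hz hzF hc => h.1 z hz hzF ((ad_val hz).1 hc), fun t' ht' hne hc => ?_⟩
  exact h.2 t' ht' hne (ad_seg hc)

private theorem Xb.pstar {t0 t1 q : ℂ} (hq : q ∈ segment ℝ (conj (u t0)) (conj (v t0)))
    (h : Xb phi F u v t0 t1 (conj q)) :
    Xb (pstar phi) F (fun t => conj (u t)) (fun t => conj (v t)) t0 t1 q where
  f0 := h.f0
  mem := hq
  nu := ad_ne h.nu
  nv := ad_ne h.nv
  n1 := h.n1
  f1 := h.f1
  val := (ad_val h.n1).2 h.val
  only := fun z hz hzF hc => h.only z hz hzF ((ad_val hz).1 hc)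
  seg := fun t ht hne hc => h.seg t ht hne (ad_seg hc)
  trans := by
    rw [← map_sub, ad_tg h.n1]
    exact ad_im h.trans

private theorem Xs.pstar {t0 t1 q : ℂ} (hq : q ∈ segment ℝ (conj (u t0)) (conj (v t0)))
    (h : Xs phi F u v t0 t1 (conj q)) :
    Xs (pstar phi) F (fun t => conj (u t)) (fun t => conj (v t)) t0 t1 q where
  f0 := h.f0
  f1 := h.f1
  ne := h.ne
  mem0 := hq
  nu0 := ad_ne h.nu0
  nv0 := ad_ne h.nv0
  mem1 := by
    obtain ⟨r, s, hr, hs, hrs, h1⟩ := h.mem1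
    refine ⟨r, s, hr, hs, hrs, ?_⟩
    have h2 := congrArg (starRingEnd ℂ) h1
    rw [Complex.conj_conj] at h2
    rw [← h2]
    simp
  nu1 := ad_ne h.nu1
  nv1 := ad_ne h.nv1
  only := fun z hz hzF hc => h.only z hz hzF ((ad_val hz).1 hc)
  seg := fun t ht hne hne' hc => h.seg t ht hne hne' (ad_seg hc)
  trans := by
    rw [← map_sub, ← map_sub]
    exact ad_im h.trans

theorem XCross.pstar (h : XCross phi F u v) :
    XCross (pstar phi) F (fun t => conj (u t)) (fun t => conj (v t)) := by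
  refine ⟨h.toRegC.pstar, fun t ht q hq => ?_, fun z1 hz1 hF1 z2 hz2 hF2 hne heq => ?_⟩
  · rcases h.seg t ht (conj q) (ad_seg hq) with h1 | ⟨h1, h2⟩
    · exact Or.inl h1.pstar
    · refine Or.inr ⟨?_, ?_⟩
      · rcases h1 with ⟨t1, h1⟩ | ⟨t1, h1⟩
        · exact Or.inl ⟨t1, h1.pstar hq⟩
        · exact Or.inr ⟨t1, h1.pstar hq⟩
      · rcases h2 with h2 | h2
        · refine Or.inr (ad_ev' (p := fun n => 0 ≤ n) (r := fun n => n ≤ 0) (fun n hn => ?_) h2)
          show n ≤ 0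
          have : 0 ≤ -n := hn
          omega
        · refine Or.inl (ad_ev' (p := fun n => n ≤ 0) (r := fun n => 0 ≤ n) (fun n hn => ?_) h2)
          show 0 ≤ n
          have : -n ≤ 0 := hn
          omega
  · have n1 : ‖z1‖ = 1 := mem_sphere_zero_iff_norm.1 hz1
    have n2 : ‖z2‖ = 1 := mem_sphere_zero_iff_norm.1 hz2
    rcases h.mult z1 hz1 hF1 z2 hz2 hF2 hne (ad_inj n1 n2 heq) with ⟨hd, hdp⟩ | ⟨w, hw⟩ |
      ⟨k, x, hk, hx1, hx2⟩
    · refine Or.inl ⟨hd.pstar, fun h1 h2 => (hdp ?_ ?_).pstar⟩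
      · rw [TBirP.AdjQ.on n1] at h2
        exact ad_freq (p := fun n => 0 < n) (r := fun n => n < 0) (fun n hn => by
          show -n < 0
          have : 0 < n := hn
          omega) h2
      · rw [TBirP.AdjQ.on n1] at h1
        exact ad_freq (p := fun n => n < 0) (r := fun n => 0 < n) (fun n hn => by
          show 0 < -n
          have : n < 0 := hn
          omega) h1
    · refine Or.inr (Or.inl ⟨conj w, fun z hz hzF hzq => ?_⟩)
      have n3 : ‖z‖ = 1 := mem_sphere_zero_iff_norm.1 hz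
      obtain ⟨h0, h1⟩ := hw z hz hzF (ad_inj n3 n1 hzq)
      refine ⟨TBirP.AdjQ.ana n3 h0, ?_⟩
      have h2 := (TBirP.pstar_loc n3 h0).2
      rw [h2, Complex.conj_conj]
      have h3 : w * (I * -conj (z * deriv phi z)) = conj (conj w * (I * (z * deriv phi z))) := by
        rw [map_mul (starRingEnd ℂ) (conj w), map_mul (starRingEnd ℂ) I, Complex.conj_conj,
          Complex.conj_I]
        ring
      rw [h3, Complex.conj_re]
      exact h1
    · refine Or.inr (Or.inr ⟨k, -(x + k), ?_, fun h1 => ?_, fun h1 => ?_⟩)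
      · rw [TBirP.AdjQ.on n1]
        exact hk.pstar
      · rw [TBirP.AdjQ.on n1] at h1
        have h2 := hx2 (ad_ev (p := fun n => 0 ≤ n) (r := fun n => n ≤ 0) (fun n hn => by
          show n ≤ 0
          have : 0 ≤ -n := hn
          omega) h1)
        omega
      · rw [TBirP.AdjQ.on n1] at h1
        have h2 := hx1 (ad_ev (p := fun n => n ≤ 0) (r := fun n => 0 ≤ n) (fun n hn => by
          show 0 ≤ n
          have : -n ≤ 0 := hn
          omega) h1)
        omega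

end Pool.Agent.TBirX
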