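import Pool.Agent.TBirX.Ss
import Pool.Agent.TBirJ.Trj
import Pool.Agent.TBirJ.Loj
import Pool.Agent.TBirK.Smk
import Pool.Agent.TBirK.RgR

/-!
# The jumps along a segment

Fix `P`. At the points `q` of the segment with `Sn` there is a jump (`seg_sides`, `0 ≤ m` by `D.nn`, `Sides.jmp`), near `q` all jumps are equal to it (`Jmp.near`); near the other points (finitely many, `RegC.cross`) all jumps on the segment are equal by `hk`. So the jumps are locally constant on the segment without a finite set and across it: constant `k` (the segment is connected; as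
`const_ofK` in TBirK/Cok.lean). `Lc`: `phi z` is near `u t` or `v t` for `z` near `t`, `z ≠ t`. `Lj`: near `t` there are points `z` of the circle with a jump at `phi z` (without partner, not on a segment: `sides_reg`, `rg_nn`, `RegC.cross`), so the constant of the hypothesis is `k`.
-/

set_option autoImplicit false

open MeasureTheory Complex Set Filter Topology Metric AddCircle
open scoped ComplexConjugate InnerProductSpace ENNReal

namespace Pool.Agent.TBirX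

open Pool.Agent.TBir Pool.Agent.TBirG Pool.Agent.TBirC Pool.Agent.TBirJ Pool.Agent.TBirK
open Pool.Agent.TBirN
open Pool.Agent.TBirP (E qT)

/-- A perfect set has points near each of its points, outside a finite set. -/
private theorem ch_perf {S : Set ℂ} (hS : Preperfect S) {T : Set ℂ} (hT : T.Finite) {q : ℂ} (hq : q ∈ S)
    {U : Set ℂ} (hU : U ∈ 𝓝 q) : ∃ y ∈ U, y ≠ q ∧ y ∈ S ∧ y ∉ T := by
  have h1 : AccPt q (𝓟 S) := hS q hq
  rw [accPt_iff_frequently] at h1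
  have h2 : ∀ᶠ y in 𝓝 q, y ∉ T \ {q} := by
    have h3 : IsClosed (T \ {q}) := (hT.subset sdiff_subset).isClosed
    exact h3.isOpen_compl.mem_nhds fun h4 => h4.2 rfl
  obtain ⟨y, ⟨⟨h3, h4⟩, h5⟩, h6⟩ := ((h1.and_eventually h2).and_eventually hU).exists
  exact ⟨y, h6, h3, h4, fun h7 => h5 ⟨h7, h3⟩⟩

private theorem ch_circle : Preperfect (sphere (0 : ℂ) 1) := by
  refine (isPreconnected_sphere (E := ℂ) ?_ 0 1).preperfect_of_nontrivial ?_
  · rw [Complex.rank_real_complex]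
    exact Nat.one_lt_ofNat
  · refine ⟨1, ?_, -1, ?_, ?_⟩
    · rw [mem_sphere_zero_iff_norm, norm_one]
    · rw [mem_sphere_zero_iff_norm, norm_neg, norm_one]
    · norm_num

private theorem ch_arg {t : ℂ} (ht : ‖t‖ = 1) : Tendsto (fun z : ℂ => arg (z / t)) (𝓝 t) (𝓝 0) := by
  have ht0 : t ≠ 0 := by
    rintro rfl
    rw [norm_zero] at ht
    exact zero_ne_one ht
  have h1 : ContinuousAt arg (t / t) := by
    rw [div_self ht0]
    exact continuousAt_arg (by simp)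
  have h2 : ContinuousAt (fun z : ℂ => z / t) t := by fun_prop
  have h3 : ContinuousAt (fun z : ℂ => arg (z / t)) t :=
    ContinuousAt.comp (f := fun z : ℂ => z / t) (g := arg) h1 h2
  have h4 := h3.tendsto
  rwa [div_self ht0, arg_one] at h4

private theorem ch_arg_eq {t z : ℂ} (ht : ‖t‖ = 1) (hz : ‖z‖ = 1) :
    t * E (arg (z / t)) = z := by
  have ht0 : t ≠ 0 := by
    rintro rfl
    rw [norm_zero] at ht
    exact zero_ne_one ht
  have h4 : ‖z / t‖ = 1 := by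
    rw [norm_div, ht, hz, div_one]
  have h5 := Complex.norm_mul_exp_arg_mul_I (z / t)
  rw [h4, ofReal_one, one_mul] at h5
  unfold E
  rw [h5, mul_div_cancel₀ _ ht0]

private theorem ch_near {phi : ℂ → ℂ} {F : Finset ℂ} {u v : ℂ → ℂ} (h : Cv phi F u v) {t : ℂ}
    (ht : t ∈ F) {eps : ℝ} (heps : 0 < eps) : ∃ s > 0, ∀ z ∈ ball t s, ‖z‖ = 1 → z ≠ t →
      dist (phi z) (u t) < eps ∨ dist (phi z) (v t) < eps := by
  have htn := h.circ t ht
  have h1 := (h.lim_left t ht).eventually (ball_mem_nhds _ heps)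
  have h2 := (h.lim_right t ht).eventually (ball_mem_nhds _ heps)
  rw [eventually_nhdsWithin_iff] at h1 h2
  obtain ⟨d, hd, h3⟩ := Metric.eventually_nhds_iff_ball.1 (h1.and h2)
  have h4 := (ch_arg htn).eventually (ball_mem_nhds 0 hd)
  obtain ⟨s, hs, h5⟩ := Metric.eventually_nhds_iff_ball.1 h4
  refine ⟨s, hs, fun z hz hz1 hzt => ?_⟩
  have h6 : arg (z / t) ∈ ball (0 : ℝ) d := h5 z hz
  have h7 := ch_arg_eq htn hz1
  rcases lt_trichotomy (arg (z / t)) 0 with h8 | h8 | h8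
  · left
    have h6' : -arg (z / t) ∈ ball (0 : ℝ) d := by
      rw [mem_ball, dist_zero_right] at h6 ⊢
      rwa [norm_neg]
    have h9 := (h3 _ h6').1 (show (0 : ℝ) < -arg (z / t) by linarith)
    rw [neg_neg, h7] at h9
    exact h9
  · exfalso
    apply hzt
    rw [h8] at h7
    rw [← h7]
    simp [E]
  · right
    have h9 := (h3 _ h6).2 h8
    rw [h7] at h9
    exact h9

/-- Jumps from sides. -/
private theorem ch_jmp {phi : ℂ → ℂ} {K : Set ℂ} (D : Dk phi K) {P : Op} (hP2 : P * P = P)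
    (hP : P * Tp phi = Tp phi * P) {q : ℂ} {m : ℤ} (hm : Sides phi K q m) :
    ∃ c, Jmp phi K P q c := by
  have h0 : 0 ≤ m := by
    obtain ⟨A, B, -, -, -, hB, -, hcB, -⟩ := hm
    obtain ⟨l, hl⟩ := closure_nonempty_iff.1 ⟨q, hcB⟩
    exact D.nn l m (hB l hl)
  obtain ⟨k, rfl⟩ := Int.eq_ofNat_of_zero_le h0
  exact Sides.jmp D.hb D.closed D.off D.dense hP2 hP hm

/-- Points of the circle with a jump near every point of the circle. -/
private theorem ch_pt {phi : ℂ → ℂ} {F : Finset ℂ} {u v : ℂ → ℂ} (D : Dk phi (Gam phi F u v))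
    (h : RegC phi F u v) {P : Op} (hP2 : P * P = P) (hP : P * Tp phi = Tp phi * P) {t : ℂ}
    (ht : t ∈ sphere (0 : ℂ) 1) {U : Set ℂ} (hU : U ∈ 𝓝 t) :
    ∃ z ∈ U, z ≠ t ∧ ‖z‖ = 1 ∧ ∃ c, Jmp phi (Gam phi F u v) P (phi z) c := by
  have hc := h.toPwC.cv
  obtain ⟨Q, hQ⟩ : ∃ Q : Set ℂ, Q = {z : ℂ | z ∈ sphere (0 : ℂ) 1 ∧ z ∉ F ∧
    ∃ z' ∈ sphere (0 : ℂ) 1, z' ∉ F ∧ phi z' = phi z ∧ z' ≠ z} := ⟨_, rfl⟩
  have hQf : Q.Finite := by
    rw [hQ]
    exact rg_nn h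
  obtain ⟨B, hB⟩ : ∃ B : Set ℂ, B = ⋃ t ∈ F, ⋃ q ∈ {q : ℂ | q ∈ segment ℝ (u t) (v t) ∧
    ((∃ z ∈ sphere (0 : ℂ) 1, z ∉ F ∧ phi z = q) ∨
      ∃ t' ∈ F, t' ≠ t ∧ q ∈ segment ℝ (u t') (v t'))},
        {z : ℂ | z ∈ sphere (0 : ℂ) 1 ∧ z ∉ F ∧ phi z = q} := ⟨_, rfl⟩
  have hBfin : B.Finite := by
    rw [hB]
    exact F.finite_toSet.biUnion fun t ht => (h.cross t ht).biUnion fun q _ => cv_level hc q
  have hT : ((F : Set ℂ) ∪ (Q ∪ B)).Finite := F.finite_toSet.union (Set.Finite.union hQf hBfin)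
  obtain ⟨z, hzU, hzt, hz, hzT⟩ := ch_perf ch_circle hT ht hU
  have hzF : z ∉ F := fun h2 => hzT (Or.inl h2)
  have hzQ : z ∉ Q := fun h2 => hzT (Or.inr (Or.inl h2))
  have hzB : z ∉ B := fun h2 => hzT (Or.inr (Or.inr h2))
  have hz1 : ‖z‖ = 1 := mem_sphere_zero_iff_norm.1 hz
  obtain ⟨m, hm⟩ : ∃ m : ℤ, Sides phi (Gam phi F u v) (phi z) m := by
    refine sides_reg h.toPwC hz1 hzF (fun t ht hq => ?_) ?_ ?_
    · apply hzB
      rw [hB, mem_iUnion₂]
      refine ⟨t, ht, ?_⟩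
      rw [mem_iUnion₂]
      exact ⟨phi z, ⟨hq, Or.inl ⟨z, hz, hzF, rfl⟩⟩, hz, hzF, rfl⟩
    · intro z' hz' hzF' hq
      by_contra hne
      apply hzQ
      rw [hQ]
      exact ⟨hz, hzF, z', mem_sphere_zero_iff_norm.2 hz', hzF', hq, hne⟩
    · filter_upwards [hQf.isClosed.isOpen_compl.mem_nhds hzQ] with z1 h1 hz1 hz1F z' hz' hzF' hq
      by_contra hne
      apply h1
      rw [hQ]
      exact ⟨mem_sphere_zero_iff_norm.2 hz1, hz1F, z', mem_sphere_zero_iff_norm.2 hz', hzF', hq, hne⟩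
  exact ⟨z, hzU, hzt, hz1, ch_jmp D hP2 hP hm⟩

/-- One constant for the segment. -/
private theorem ch_const {phi : ℂ → ℂ} {F : Finset ℂ} {u v : ℂ → ℂ} {t : ℂ}
    (D : Dk phi (Gam phi F u v)) (h : RegC phi F u v) (ht : t ∈ F) (hu : Sn phi F u v t (u t))
    (hk : ∀ q ∈ segment ℝ (u t) (v t), ¬ Sn phi F u v t q →
      Lk phi (Gam phi F u v) (segment ℝ (u t) (v t)) q)
    {P : Op} (hP2 : P * P = P) (hP : P * Tp phi = Tp phi * P) :
    ∃ k : ℂ, ∀ q ∈ segment ℝ (u t) (v t), Sn phi F u v t q → Jmp phi (Gam phi F u v) P q k := by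
  classical
  have hj : ∀ q ∈ segment ℝ (u t) (v t), Sn phi F u v t q → ∃ c, Jmp phi (Gam phi F u v) P q c := by
    intro q hq hn
    obtain ⟨m, hm⟩ := seg_sides h ht hq hn
    exact ch_jmp D hP2 hP hm
  by_cases huv : u t = v t
  · obtain ⟨c, hc⟩ := hj (u t) (left_mem_segment ℝ _ _) hu
    refine ⟨c, fun q hq _ => ?_⟩
    rw [← huv, segment_same, mem_singleton_iff] at hq
    rw [hq]
    exact hc
  obtain ⟨S, hS⟩ : ∃ S : Set ℂ, S = segment ℝ (u t) (v t) := ⟨_, rfl⟩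
  rw [← hS] at hk hj ⊢
  have hpre : IsPreconnected S := by
    rw [hS]
    exact (convex_segment _ _).isPreconnected
  have huS : u t ∈ S := by
    rw [hS]
    exact left_mem_segment ℝ _ _
  have hperf : Preperfect S := by
    refine hpre.preperfect_of_nontrivial ⟨u t, huS, v t, ?_, huv⟩
    rw [hS]
    exact right_mem_segment ℝ _ _
  have hfin : {q : ℂ | q ∈ S ∧ ¬ Sn phi F u v t q}.Finite := by
    refine (h.cross t ht).subset ?_
    rintro q ⟨hq, hn⟩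
    rw [hS] at hq
    refine ⟨hq, ?_⟩
    unfold Sn at hn
    rw [not_and_or] at hn
    rcases hn with hn | hn
    · push Not at hn
      obtain ⟨z, hz, hzF, he⟩ := hn
      exact Or.inl ⟨z, mem_sphere_zero_iff_norm.2 hz, hzF, he⟩
    · push Not at hn
      exact Or.inr hn
  -- points with a jump near every point of the segment
  have hpt : ∀ q ∈ S, ∀ U ∈ 𝓝 q, ∃ y ∈ U, y ≠ q ∧ y ∈ S ∧ Sn phi F u v t y := by
    intro q hq U hU
    obtain ⟨y, h1, h2, h3, h4⟩ := ch_perf hperf hfin hq hU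
    refine ⟨y, h1, h2, h3, ?_⟩
    by_contra h5
    exact h4 ⟨h3, h5⟩
  obtain ⟨V, hV⟩ : ∃ V : ℂ → Set ℂ, V = fun k => {q | ∃ ρ > 0, ∀ l ∈ ball q ρ, l ≠ q →
      l ∈ S → ∀ c', Jmp phi (Gam phi F u v) P l c' → c' = k} := ⟨_, rfl⟩
  have hVo : ∀ k, IsOpen (V k) := by
    intro k
    rw [Metric.isOpen_iff, hV]
    rintro z ⟨ρ, hρ, h⟩
    refine ⟨ρ / 2, half_pos hρ, fun w hw => ?_⟩
    by_cases hwz : w = z
    · rw [hwz]
      exact ⟨ρ, hρ, h⟩
    · refine ⟨min (ρ / 2) (dist w z), lt_min (half_pos hρ) (dist_pos.2 hwz),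
        fun z1 hz1 _ => h z1 ?_ ?_⟩
      · have h1 := (mem_ball.1 hz1).trans_le (min_le_left _ _)
        rw [mem_ball] at hw ⊢
        linarith [dist_triangle z1 w z]
      · rintro rfl
        have h1 := (mem_ball.1 hz1).trans_le (min_le_right _ _)
        rw [dist_comm] at h1
        exact lt_irrefl _ h1
  have hcov0 : ∀ q ∈ S, ∃ k, q ∈ V k := by
    intro q hq
    obtain ⟨k, hk'⟩ : ∃ k : ℂ, ∀ᶠ l in 𝓝[≠] q, l ∈ S → ∀ c',
        Jmp phi (Gam phi F u v) P l c' → c' = k := by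
      by_cases hn : Sn phi F u v t q
      · obtain ⟨c, hc⟩ := hj q hq hn
        exact ⟨c, ((Jmp.near hP hc).filter_mono nhdsWithin_le_nhds).mono fun l hl _ => hl⟩
      · exact hk q hq hn P hP2 hP
    rw [eventually_nhdsWithin_iff] at hk'
    obtain ⟨s, hs, h1⟩ := Metric.eventually_nhds_iff_ball.1 hk'
    refine ⟨k, ?_⟩
    rw [hV]
    exact ⟨s, hs, fun l hl hne hlS => h1 l hl hne hlS⟩
  have hdisj : ∀ q ∈ S, ∀ k k', q ∈ V k → q ∈ V k' → k = k' := by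
    intro q hq k k' h0 h1
    rw [hV] at h0 h1
    obtain ⟨ρ0, hρ0, h0⟩ := h0
    obtain ⟨ρ1, hρ1, h1⟩ := h1
    obtain ⟨y, hy, hne, hyS, hyn⟩ := hpt q hq _ (ball_mem_nhds q (lt_min hρ0 hρ1))
    obtain ⟨c', hc'⟩ := hj y hyS hyn
    have e0 := h0 y (ball_subset_ball (min_le_left _ _) hy) hne hyS c' hc'
    have e1 := h1 y (ball_subset_ball (min_le_right _ _) hy) hne hyS c' hc'
    exact e0.symm.trans e1
  obtain ⟨k, hk0⟩ := hcov0 (u t) huS
  have hall : S ⊆ V k := by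
    intro z hz
    by_contra hzk
    obtain ⟨k1, hk1⟩ := hcov0 z hz
    have hne : k1 ≠ k := by
      rintro rfl
      exact hzk hk1
    obtain ⟨w, hw, hw1, hw2⟩ := hpre (V k) (⋃ k' ∈ {k' : ℂ | k' ≠ k}, V k') (hVo k)
      (isOpen_biUnion fun k' _ => hVo k') (fun w hw => by
        obtain ⟨k2, hk2⟩ := hcov0 w hw
        by_cases h2 : k2 = k
        · left
          rw [h2] at hk2
          exact hk2
        · right
          exact mem_iUnion₂.2 ⟨k2, h2, hk2⟩)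
      ⟨u t, huS, hk0⟩ ⟨z, hz, mem_iUnion₂.2 ⟨k1, hne, hk1⟩⟩
    obtain ⟨k3, hk3, hw3⟩ := mem_iUnion₂.1 hw2
    exact hk3 (hdisj w hw k3 k hw3 hw1)
  refine ⟨k, fun q hq hn => ?_⟩
  obtain ⟨c, hc⟩ := hj q hq hn
  have hqk := hall hq
  rw [hV] at hqk
  obtain ⟨ρ, hρ, h1⟩ := hqk
  obtain ⟨y, ⟨hy1, hy2⟩, hne, hyS, hyn⟩ := hpt q hq _
    (Filter.inter_mem (ball_mem_nhds q hρ) (Jmp.near hP hc))
  obtain ⟨c', hc'⟩ := hj y hyS hyn
  have e0 := h1 y hy1 hne hyS c' hc'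
  have e1 : c' = c := hy2 c' hc'
  rw [← e0, e1]
  exact hc

theorem seg_lc {phi : ℂ → ℂ} {F : Finset ℂ} {u v : ℂ → ℂ} {t : ℂ} (D : Dk phi (Gam phi F u v))
    (h : RegC phi F u v) (ht : t ∈ F) (hu : Sn phi F u v t (u t)) (hv : Sn phi F u v t (v t))
    (hk : ∀ q ∈ segment ℝ (u t) (v t), ¬ Sn phi F u v t q →
      Lk phi (Gam phi F u v) (segment ℝ (u t) (v t)) q) :
    Lc phi (Gam phi F u v) t ∧ ∀ q ∈ segment ℝ (u t) (v t), Sn phi F u v t q →
      Lj phi (Gam phi F u v) t q := by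
  have hlc : ∀ P : Op, P * P = P → P * Tp phi = Tp phi * P → ∃ k : ℂ,
      (∀ᶠ z in 𝓝[≠] t, ‖z‖ = 1 → ∀ c', Jmp phi (Gam phi F u v) P (phi z) c' → c' = k) ∧
      ∀ q ∈ segment ℝ (u t) (v t), Sn phi F u v t q → Jmp phi (Gam phi F u v) P q k := by
    intro P hP2 hP
    obtain ⟨k, hk1⟩ := ch_const D h ht hu hk hP2 hP
    refine ⟨k, ?_, hk1⟩
    obtain ⟨e1, he1, h1⟩ := Metric.eventually_nhds_iff_ball.1
      (Jmp.near hP (hk1 (u t) (left_mem_segment ℝ _ _) hu))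
    obtain ⟨e2, he2, h2⟩ := Metric.eventually_nhds_iff_ball.1
      (Jmp.near hP (hk1 (v t) (right_mem_segment ℝ _ _) hv))
    obtain ⟨s, hs, h3⟩ := ch_near h.toPwC.cv ht (lt_min he1 he2)
    rw [eventually_nhdsWithin_iff]
    filter_upwards [ball_mem_nhds t hs] with z1 hz1 hne hn1 c' hc'
    rcases h3 z1 hz1 hn1 hne with h5 | h5
    · exact h1 _ (mem_ball.2 (h5.trans_le (min_le_left _ _))) c' hc'
    · exact h2 _ (mem_ball.2 (h5.trans_le (min_le_right _ _))) c' hc'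
  refine ⟨fun P hP2 hP => ?_, fun q hq hn P hP2 hP k hk2 => ?_⟩
  · obtain ⟨k, h1, -⟩ := hlc P hP2 hP
    exact ⟨k, h1⟩
  · obtain ⟨k0, h1, h2⟩ := hlc P hP2 hP
    rw [eventually_nhdsWithin_iff] at h1 hk2
    obtain ⟨z, ⟨hz1, hz2⟩, hne, hn1, c', hc'⟩ := ch_pt D h hP2 hP
      (mem_sphere_zero_iff_norm.2 (h.circ t ht)) (Filter.inter_mem h1 hk2)
    have e0 : c' = k0 := hz1 hne hn1 c' hc'
    have e1 : c' = k := hz2 hne hn1 c' hc'
    rw [← e1, e0]
    exact h2 q hq hn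

end Pool.Agent.TBirX
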