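import Pool.Agent.TBirX.Def

/-!
# A limit of quotients

`|N l - N q| ≤ min eps (2 C d) ≤ eps ^ (1 / 8) (2 C d) ^ (7 / 8)`, divided by `|W l| ≥ c d ^ (3 / 5)`; `|N q| |W l - W q| / (|W l| |W q|) ≤ C d * eps d ^ (2 / 5) / (c ^ 2 d ^ (6 / 5))`; `d` is bounded. `mf_lim`: the norm of `mf a` is at most the essential supremum of `|a|`.
-/

set_option autoImplicit false

open MeasureTheory Complex Set Filter Topology Metric AddCircle
open scoped ComplexConjugate InnerProductSpace ENNReal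

namespace Pool.Agent.TBirX

open Pool.Agent.TBir Pool.Agent.TBirG Pool.Agent.TBirC Pool.Agent.TBirJ Pool.Agent.TBirK
open Pool.Agent.TBirN
open Pool.Agent.TBirP (E qT)

private theorem cl_pt {N N0 W W0 : ℂ} {p q m c C δ eps : ℝ} (hc : 0 < c) (hC : 0 ≤ C) (hp : 0 < p)
    (hpm : p ≤ m) (hq : 0 < q) (hδ0 : 0 ≤ δ) (heps : 0 < eps) (h1 : ‖N‖ ≤ C * p ^ 5)
    (h1' : ‖N0‖ ≤ C * p ^ 5)
    (h2 : ‖N - N0‖ ≤ eps / 2 * (c * q ^ 3)) (h3 : c * p ^ 3 ≤ ‖W‖) (h3' : c * p ^ 3 ≤ ‖W0‖)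
    (h4 : ‖W - W0‖ ≤ δ * p ^ 2) (hq2 : 2 * C * q ^ 2 ≤ eps / 2 * c)
    (hδ : C * m * δ ≤ eps / 2 * c ^ 2) : ‖N / W - N0 / W0‖ ≤ eps := by
  have hcp : 0 < c * p ^ 3 := by positivity
  have hW : 0 < ‖W‖ := lt_of_lt_of_le hcp h3
  have hW0 : 0 < ‖W0‖ := lt_of_lt_of_le hcp h3'
  have hWn : W ≠ 0 := norm_pos_iff.1 hW
  have hW0n : W0 ≠ 0 := norm_pos_iff.1 hW0
  have e1 : N / W - N0 / W0 = (N - N0) / W + N0 * (W0 - W) / (W * W0) := by
    field_simp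
    ring
  have b1 : ‖(N - N0) / W‖ ≤ eps / 2 := by
    rw [norm_div, div_le_iff₀ hW]
    refine le_trans ?_ (mul_le_mul_of_nonneg_left h3 (by positivity))
    rcases le_total p q with h | h
    · have h5 : ‖N - N0‖ ≤ 2 * (C * p ^ 5) := by
        refine (norm_sub_le _ _).trans ?_
        linarith
      refine h5.trans ?_
      have h6 : 2 * C * p ^ 2 ≤ eps / 2 * c := by
        refine le_trans ?_ hq2
        have : p ^ 2 ≤ q ^ 2 := pow_le_pow_left₀ hp.le h 2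
        nlinarith
      have h7 : 0 < p ^ 3 := by positivity
      calc 2 * (C * p ^ 5) = 2 * C * p ^ 2 * p ^ 3 := by ring
        _ ≤ eps / 2 * c * p ^ 3 := mul_le_mul_of_nonneg_right h6 h7.le
        _ = eps / 2 * (c * p ^ 3) := by ring
    · refine h2.trans ?_
      have h7 : q ^ 3 ≤ p ^ 3 := pow_le_pow_left₀ hq.le h 3
      have h8 : c * q ^ 3 ≤ c * p ^ 3 := mul_le_mul_of_nonneg_left h7 hc.le
      exact mul_le_mul_of_nonneg_left h8 (by positivity)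
  have b2 : ‖N0 * (W0 - W) / (W * W0)‖ ≤ eps / 2 := by
    rw [norm_div, norm_mul, norm_mul, div_le_iff₀ (mul_pos hW hW0)]
    have h5 : ‖W0 - W‖ ≤ δ * p ^ 2 := by rw [norm_sub_rev]; exact h4
    have h6 : (c * p ^ 3) * (c * p ^ 3) ≤ ‖W‖ * ‖W0‖ := mul_le_mul h3 h3' hcp.le hW.le
    refine le_trans ?_ (mul_le_mul_of_nonneg_left h6 (by positivity))
    have h7 : ‖N0‖ * ‖W0 - W‖ ≤ C * p ^ 5 * (δ * p ^ 2) :=
      mul_le_mul h1' h5 (norm_nonneg _) (by positivity)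
    refine h7.trans ?_
    have h8 : C * p * δ ≤ eps / 2 * c ^ 2 := by
      refine le_trans ?_ hδ
      exact mul_le_mul_of_nonneg_right (mul_le_mul_of_nonneg_left hpm hC) hδ0
    calc C * p ^ 5 * (δ * p ^ 2) = C * p * δ * p ^ 6 := by ring
      _ ≤ eps / 2 * c ^ 2 * p ^ 6 := mul_le_mul_of_nonneg_right h8 (by positivity)
      _ = eps / 2 * (c * p ^ 3 * (c * p ^ 3)) := by ring
  rw [e1]
  refine (norm_add_le _ _).trans ?_
  linarith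

theorem cl_lim {f : Filter ℂ} {N W : ℂ → UnitAddCircle → ℂ} {N0 W0 : UnitAddCircle → ℂ}
    {d : UnitAddCircle → ℝ} {c C M : ℝ} (hc : 0 < c) (hd : ∀ y, 0 ≤ d y ∧ d y ≤ M)
    (h1 : ∀ᶠ l in f, ∀ᵐ y ∂mu0, ‖N l y‖ ≤ C * d y) (h1' : ∀ᵐ y ∂mu0, ‖N0 y‖ ≤ C * d y)
    (h2 : ∀ eps > 0, ∀ᶠ l in f, ∀ᵐ y ∂mu0, ‖N l y - N0 y‖ ≤ eps)
    (h3 : ∀ᶠ l in f, ∀ᵐ y ∂mu0, c * d y ^ ((3 : ℝ) / 5) ≤ ‖W l y‖)
    (h3' : ∀ᵐ y ∂mu0, c * d y ^ ((3 : ℝ) / 5) ≤ ‖W0 y‖)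
    (h4 : ∀ eps > 0, ∀ᶠ l in f, ∀ᵐ y ∂mu0, ‖W l y - W0 y‖ ≤ eps * d y ^ ((2 : ℝ) / 5))
    {eps : ℝ} (heps : 0 < eps) : ∀ᶠ l in f, ∀ᵐ y ∂mu0, ‖N l y / W l y - N0 y / W0 y‖ ≤ eps := by
  have hM : 0 ≤ M := (hd 0).1.trans (hd 0).2
  set m : ℝ := M ^ ((1 : ℝ) / 5) with hm
  have hm0 : 0 ≤ m := Real.rpow_nonneg hM _
  set q : ℝ := Real.sqrt (eps / 2 * c / (2 * (|C| + 1))) with hq
  have hC1 : 0 < |C| + 1 := by positivity
  have hq0 : 0 < q := Real.sqrt_pos.2 (by positivity)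
  have hq2 : 2 * |C| * q ^ 2 ≤ eps / 2 * c := by
    rw [hq, Real.sq_sqrt (by positivity)]
    have : 2 * |C| * (eps / 2 * c / (2 * (|C| + 1))) = eps / 2 * c * (|C| / (|C| + 1)) := by
      field_simp
    rw [this]
    have h5 : |C| / (|C| + 1) ≤ 1 := by
      rw [div_le_one hC1]
      linarith
    have h6 : 0 ≤ eps / 2 * c := by positivity
    exact mul_le_of_le_one_right h6 h5
  set δ : ℝ := eps / 2 * c ^ 2 / (|C| * m + 1) with hδd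
  have hCm : 0 < |C| * m + 1 := by positivity
  have hδ0 : 0 < δ := by positivity
  have hδ : |C| * m * δ ≤ eps / 2 * c ^ 2 := by
    have : |C| * m * δ = eps / 2 * c ^ 2 * (|C| * m / (|C| * m + 1)) := by
      rw [hδd]
      field_simp
    rw [this]
    have h5 : |C| * m / (|C| * m + 1) ≤ 1 := by
      rw [div_le_one hCm]
      linarith
    have h6 : 0 ≤ eps / 2 * c ^ 2 := by positivity
    exact mul_le_of_le_one_right h6 h5
  filter_upwards [h1, h2 (eps / 2 * (c * q ^ 3)) (by positivity), h3, h4 δ hδ0] with l g1 g2 g3 g4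
  filter_upwards [g1, h1', g2, g3, h3', g4] with y k1 k1' k2 k3 k3' k4
  obtain ⟨hdy0, hdyM⟩ := hd y
  have hCle : C * d y ≤ |C| * d y := mul_le_mul_of_nonneg_right (le_abs_self C) hdy0
  rcases hdy0.eq_or_lt with h0 | h0
  · rw [← h0] at k1 k1'
    rw [mul_zero] at k1 k1'
    have e1 : N l y = 0 := norm_le_zero_iff.1 k1
    have e2 : N0 y = 0 := norm_le_zero_iff.1 k1'
    rw [e1, e2, zero_div, zero_div, sub_zero, norm_zero]
    exact heps.le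
  · obtain ⟨p, hp⟩ : ∃ p : ℝ, p = d y ^ ((1 : ℝ) / 5) := ⟨_, rfl⟩
    have hp0 : 0 < p := hp ▸ Real.rpow_pos_of_pos h0 _
    have e5 : d y = p ^ 5 := by
      rw [hp, ← Real.rpow_natCast, ← Real.rpow_mul h0.le]
      norm_num
    have e3 : d y ^ ((3 : ℝ) / 5) = p ^ 3 := by
      rw [hp, ← Real.rpow_natCast, ← Real.rpow_mul h0.le]
      norm_num
    have e2 : d y ^ ((2 : ℝ) / 5) = p ^ 2 := by
      rw [hp, ← Real.rpow_natCast, ← Real.rpow_mul h0.le]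
      norm_num
    have hpm : p ≤ m := by
      rw [hp, hm]
      exact Real.rpow_le_rpow hdy0 hdyM (by norm_num)
    rw [e3] at k3 k3'
    rw [e2] at k4
    have j1 := k1.trans hCle
    have j1' := k1'.trans hCle
    rw [e5] at j1 j1'
    exact cl_pt hc (abs_nonneg C) hp0 hpm hq0 hδ0.le heps j1 j1' k2 k3 k3' k4 hq2 hδ

theorem mf_lim {f : Filter ℂ} {a : ℂ → UnitAddCircle → ℂ} {a0 : UnitAddCircle → ℂ}
    (h0 : MemLp a0 ∞ mu0) (h1 : ∀ᶠ l in f, MemLp (a l) ∞ mu0)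
    (h2 : ∀ eps > 0, ∀ᶠ l in f, ∀ᵐ y ∂mu0, ‖a l y - a0 y‖ ≤ eps) :
    Tendsto (fun l => mf (a l)) f (𝓝 (mf a0)) := by
  rw [Metric.tendsto_nhds]
  intro eps heps
  filter_upwards [h1, h2 (eps / 2) (half_pos heps)] with l g1 g2
  rw [dist_eq_norm, ← mf_sub g1 h0]
  exact lt_of_le_of_lt (norm_mf_le (half_pos heps).le g2) (half_lt_self heps)

end Pool.Agent.TBirX
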