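import Pool.Agent.TBirN.Ld
import Pool.Agent.TBirN.RgD
import Pool.Agent.TBirN.Fn

/-!
# Piecewise `C^1` symbols whose completed curve is normal: definitions

`Xb`, `Xs`: a segment crosses a branch, a segment crosses a segment. `XCross`: the class of the theorem.

`pwP`, `pwM`, `eta`, `bet`, `kap`, `ks`: the functions of a jump. `Fam`: a family of normalised functionals which is concentrated at a point `t` of the circle. `Fct`: a factor of the symbol. `Xd`: the data at a crossing point. `Rx`: the rectangle rule. `Cs`: the geometry at a crossing point of two curves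
`K1`, `K2`. `Lk`: constant jumps along `K1`. `Cy`: the hypotheses of the abstract theorem.
-/

set_option autoImplicit false

open MeasureTheory Complex Set Filter Topology Metric AddCircle
open scoped ComplexConjugate InnerProductSpace ENNReal

namespace Pool.Agent.TBirX

open Pool.Agent.TBir Pool.Agent.TBirG Pool.Agent.TBirC Pool.Agent.TBirJ Pool.Agent.TBirK
open Pool.Agent.TBirN
open Pool.Agent.TBirP (E qT)

/-! ### The class -/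

/-- The point `q` of the segment of `t` is not a value and not on another segment. -/
def Sn (phi : ℂ → ℂ) (F : Finset ℂ) (u v : ℂ → ℂ) (t q : ℂ) : Prop :=
  (∀ z : ℂ, ‖z‖ = 1 → z ∉ F → phi z ≠ q) ∧ ∀ t' ∈ F, t' ≠ t → q ∉ segment ℝ (u t') (v t')

/-- The segment of `t0` crosses the curve at `q = phi t1` transversally. -/
structure Xb (phi : ℂ → ℂ) (F : Finset ℂ) (u v : ℂ → ℂ) (t0 t1 q : ℂ) : Prop where
  f0 : t0 ∈ F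
  mem : q ∈ segment ℝ (u t0) (v t0)
  nu : q ≠ u t0
  nv : q ≠ v t0
  n1 : ‖t1‖ = 1
  f1 : t1 ∉ F
  val : phi t1 = q
  only : ∀ z : ℂ, ‖z‖ = 1 → z ∉ F → phi z = q → z = t1
  seg : ∀ t ∈ F, t ≠ t0 → q ∉ segment ℝ (u t) (v t)
  trans : (conj (v t0 - u t0) * tg phi t1).im ≠ 0

/-- The segments of `t0` and `t1` cross at `q`. -/
structure Xs (phi : ℂ → ℂ) (F : Finset ℂ) (u v : ℂ → ℂ) (t0 t1 q : ℂ) : Prop where
  f0 : t0 ∈ F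
  f1 : t1 ∈ F
  ne : t0 ≠ t1
  mem0 : q ∈ segment ℝ (u t0) (v t0)
  nu0 : q ≠ u t0
  nv0 : q ≠ v t0
  mem1 : q ∈ segment ℝ (u t1) (v t1)
  nu1 : q ≠ u t1
  nv1 : q ≠ v t1
  only : ∀ z : ℂ, ‖z‖ = 1 → z ∉ F → phi z ≠ q
  seg : ∀ t ∈ F, t ≠ t0 → t ≠ t1 → q ∉ segment ℝ (u t) (v t)
  trans : (conj (v t0 - u t0) * (v t1 - u t1)).im ≠ 0

/-- The class of the theorem. A point of a segment is not a value and not on another segment, or it is a transversal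
crossing point of the segment with the curve or with another segment, and winding numbers of both signs do not occur near it
(`seg`). Multiple values (`mult`) as in `NCross`. -/
structure XCross (phi : ℂ → ℂ) (F : Finset ℂ) (u v : ℂ → ℂ) : Prop extends RegC phi F u v where
  seg : ∀ t ∈ F, ∀ q ∈ segment ℝ (u t) (v t), Sn phi F u v t q ∨
    (((∃ t1, Xb phi F u v t t1 q) ∨ ∃ t1, Xs phi F u v t t1 q) ∧
      ((∀ᶠ l in 𝓝 q, ∀ n, Wj phi F l n → 0 ≤ n) ∨ ∀ᶠ l in 𝓝 q, ∀ n, Wj phi F l n → n ≤ 0))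
  mult : ∀ z1 ∈ sphere (0 : ℂ) 1, z1 ∉ F → ∀ z2 ∈ sphere (0 : ℂ) 1, z2 ∉ F → z1 ≠ z2 →
    phi z1 = phi z2 → (Dt phi F z1 z2 ∧ ((∃ᶠ l in 𝓝 (phi z1), ∃ n, n < 0 ∧ Wj phi F l n) →
      (∃ᶠ l in 𝓝 (phi z1), ∃ n, 0 < n ∧ Wj phi F l n) → Dp phi F z1 z2)) ∨
    (∃ w : ℂ, ∀ z ∈ sphere (0 : ℂ) 1, z ∉ F → phi z = phi z1 →
      AnalyticAt ℂ phi z ∧ 0 < (conj w * (I * (z * deriv phi z))).re) ∨
    ∃ (k : ℕ) (x : ℤ), Nj phi F (phi z1) k x ∧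
      ((∀ᶠ l in 𝓝 (phi z1), ∀ n, Wj phi F l n → 0 ≤ n) → 0 ≤ x) ∧
      ((∀ᶠ l in 𝓝 (phi z1), ∀ n, Wj phi F l n → n ≤ 0) → x + k ≤ 0)

/-! ### The functions of a jump -/

open Classical in
/-- `(1 - conj t z) ^ b`. -/
noncomputable def pwP (t b : ℂ) : CT :=
  if h : Continuous (fun y : UnitAddCircle => (1 - conj t * e y) ^ b) then ⟨_, h⟩ else 0

open Classical in
/-- `(1 - t conj z) ^ b`. -/
noncomputable def pwM (t b : ℂ) : CT :=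
  if h : Continuous (fun y : UnitAddCircle => (1 - t * conj (e y)) ^ b) then ⟨_, h⟩ else 0

/-- `(- conj t z) ^ b`, a function with a jump at `t`. -/
noncomputable def eta (t b : ℂ) (y : UnitAddCircle) : ℂ := (-(conj t * e y)) ^ b

/-- The exponent of the jump: `exp (- 2 pi I bet) = (v - l) / (u - l)`, the real part is `1 / 2` on the segment. -/
noncomputable def bet (u v l : ℂ) : ℂ := 1 / 2 + I / (2 * Real.pi) * log (-((v - l) / (u - l)))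

open Classical in
/-- `(1 - conj t z) ^ (conj b - 1)`, for `1 / 2 < re b`. -/
noncomputable def kap (t b : ℂ) : Hardy :=
  if h : MemLp (fun y : UnitAddCircle => (1 - conj t * e y) ^ (conj b - 1)) 2 mu0 then
    proj (h.toLp _) else 0

/-- The normalised vector. -/
noncomputable def kn1 (t b : ℂ) : Hardy := ((‖kap t b‖⁻¹ : ℝ) : ℂ) • kap t b

/-- The normalised functional. -/
noncomputable def ks (t b : ℂ) : Hardy →L[ℂ] ℂ := innerSL ℂ (kn1 t b)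

/-! ### Families and factors -/

/-- Normalised functionals `N l` with the vectors `nv l` (for `l ∉ K` near `q` with `ins l`), concentrated at `t`; `tc`: smallness of
`N l ∘ B` in one direction of the half plane `re (a (l - q)) < 0` implies smallness in all directions. -/
structure Fam (K : Set ℂ) (q t a : ℂ) (N : ℂ → (Hardy →L[ℂ] ℂ)) (nv : ℂ → Hardy) (ins : ℂ → Prop) :
    Prop where
  n : ‖t‖ = 1
  a0 : a ≠ 0
  rep : ∀ l f, inner ℂ (nv l) f = N l f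
  unit : ∀ᶠ l in 𝓝 q, l ∉ K → ins l → ‖nv l‖ = 1
  conc : ∀ (psi : CT) (s : UnitAddCircle), e s = t → ∀ eps > 0, ∀ᶠ l in 𝓝 q, l ∉ K → ins l →
    ‖mul psi (incl (nv l)) - psi s • incl (nv l)‖ ≤ eps
  tc : ∀ (B : Op) (A : Set ℂ) (η0 : ℂ) (ρ : ℝ), A ⊆ Kᶜ → 0 < ρ → (a * η0).re < 0 →
    (∀ᶠ s : ℝ in 𝓝[>] 0, ∀ η ∈ ball η0 ρ, q + s * η ∈ A) →
    Tendsto (fun l => ‖(N l).comp B‖) (𝓝[A] q) (𝓝 0) → ∀ η1 : ℂ, (a * η1).re < 0 →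
    (∀ᶠ s : ℝ in 𝓝[>] 0, q + s * η1 ∉ K) →
    Tendsto (fun s : ℝ => ‖(N (q + s * η1)).comp B‖) (𝓝[>] 0) (𝓝 0)
  side : ∀ kap > 0, ∀ᶠ l in 𝓝 q, l ∉ K → (kap * ‖l - q‖ < (a * (l - q)).re → ¬ ins l) ∧
    (kap * ‖l - q‖ < -(a * (l - q)).re → ins l)

/-- A factor `m l` of the symbol with `o l * m l = p l`, `o l` conjugate analytic, `p l` analytic. -/
structure Fct (K : Set ℂ) (q t a : ℂ) (m : ℂ → UnitAddCircle → ℂ) (o p : ℂ → CT)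
    (N : ℂ → (Hardy →L[ℂ] ℂ)) (nv : ℂ → Hardy) (ins : ℂ → Prop) : Prop where
  fam : Fam K q t a N nv ins
  bm : ∀ᶠ l in 𝓝 q, l ∉ K → MemLp (m l) ∞ mu0
  om : ∀ᶠ l in 𝓝 q, l ∉ K → ∀ᵐ y ∂mu0, o l y * m l y = p l y
  minus : ∀ᶠ l in 𝓝 q, Minus (o l)
  plus : ∀ᶠ l in 𝓝 q, Plus (p l)
  lim : Tendsto o (𝓝 q) (𝓝 (o q))
  nz : ∀ y, e y ≠ t → o q y ≠ 0
  van : ∀ᶠ l in 𝓝 q, l ∉ K → ins l → ∀ h : Hardy, N l (TM (mf (m l)) h) = 0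

/-- The data at a crossing point: `phi - l = b l * z ^ x * m1 l * m2 l`, `b l = ell l + C l * (o1 l * o2 l)`. -/
structure Xd (phi : ℂ → ℂ) (K : Set ℂ) (q t1 t2 a1 a2 : ℂ) (x : ℤ)
    (m1 m2 : ℂ → UnitAddCircle → ℂ) (o1 o2 p1 p2 : ℂ → CT) (N1 N2 : ℂ → (Hardy →L[ℂ] ℂ))
    (n1 n2 : ℂ → Hardy) (i1 i2 : ℂ → Prop) (ell : ℂ → CT) (C : ℂ → Op2) : Prop where
  f1 : Fct K q t1 a1 m1 o1 p1 N1 n1 i1
  f2 : Fct K q t2 a2 m2 o2 p2 N2 n2 i2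
  ne : t1 ≠ t2
  tr : (a1 * conj a2).im ≠ 0
  minus : ∀ᶠ l in 𝓝 q, Minus (ell l)
  inv : ∃ ell' : CT, Minus ell' ∧ ell q * ell' = 1
  cm : ∀ l, Cm (C l)
  lim1 : Tendsto ell (𝓝[Kᶜ] q) (𝓝 (ell q))
  lim2 : Tendsto C (𝓝[Kᶜ] q) (𝓝 (C q))
  unit : IsUnit (TM (mul (ell q) + C q * mul (o1 q * o2 q)))
  eq : ∀ᶠ l in 𝓝 q, l ∉ K → mf (fun y => phi (e y) - l) =
    (mul (ell l) + C l * mul (o1 l * o2 l)) * mf fun y => e y ^ x * (m1 l y * m2 l y)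
  num : ∀ᶠ l in 𝓝 q, l ∉ K → ∀ k1 k2 : ℤ, ((i1 l ∧ k1 = 1) ∨ (¬ i1 l ∧ k1 = 0)) →
    ((i2 l ∧ k2 = 1) ∨ (¬ i2 l ∧ k2 = 0)) → Ix phi l (x + k1 + k2)

/-! ### The rectangle rule and constant jumps -/

/-- The rectangle rule at `q`. -/
def Rx (phi : ℂ → ℂ) (K : Set ℂ) (q a1 a2 : ℂ) : Prop :=
  ∀ P : Op, P * P = P → P * Tp phi = Tp phi * P → ∀ kap r0 : ℝ, 0 < kap → 0 < r0 →
    (∀ s1 s2 : ℝ, (s1 = 1 ∨ s1 = -1) → (s2 = 1 ∨ s2 = -1) →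
      ∀ r : ℝ, 0 < r → r ≤ r0 → Sx a1 a2 q kap r s1 s2 ⊆ Kᶜ ∧ (Sx a1 a2 q kap r s1 s2).Nonempty) →
    ∃ (x : ℤ) (r : ℝ) (tau : ℝ → ℝ → ℂ), 0 < r ∧ r ≤ r0 ∧
      (∀ s1 s2 : ℝ, (s1 = 1 ∨ s1 = -1) → (s2 = 1 ∨ s2 = -1) → ∀ l ∈ Sx a1 a2 q kap r s1 s2,
        ∃ n : ℕ, (n : ℤ) = x + ii s1 + ii s2 ∧ Ix phi l n ∧ TrJ phi P l n (tau s1 s2)) ∧
      tau (-1) (-1) - tau 1 (-1) - tau (-1) 1 + tau 1 1 = 0

/-- The geometry at a crossing point `q` of the curves `K1`, `K2`. -/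
def Cs (K K1 K2 : Set ℂ) (q a1 a2 : ℂ) : Prop :=
  ∃ kap0 > 0, ∀ kap : ℝ, 0 < kap → kap ≤ kap0 → ∃ r0 > 0, ∀ r : ℝ, 0 < r → r ≤ r0 →
    (∀ s1 s2 : ℝ, (s1 = 1 ∨ s1 = -1) → (s2 = 1 ∨ s2 = -1) →
      Sx a1 a2 q kap r s1 s2 ⊆ Kᶜ ∧ (Sx a1 a2 q kap r s1 s2).Nonempty) ∧
    (∀ᶠ l in 𝓝[≠] q, l ∈ K1 → ∃ (A B : Set ℂ) (s : ℝ), (s = 1 ∨ s = -1) ∧ IsPreconnected A ∧
      IsPreconnected B ∧ A ⊆ Kᶜ ∧ B ⊆ Kᶜ ∧ l ∈ closure A ∧ l ∈ closure B ∧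
      (A ∩ Sx a1 a2 q kap r (-1) s).Nonempty ∧ (B ∩ Sx a1 a2 q kap r 1 s).Nonempty) ∧
    ∀ᶠ l in 𝓝[≠] q, l ∈ K2 → ∃ (A B : Set ℂ) (s : ℝ), (s = 1 ∨ s = -1) ∧ IsPreconnected A ∧
      IsPreconnected B ∧ A ⊆ Kᶜ ∧ B ⊆ Kᶜ ∧ l ∈ closure A ∧ l ∈ closure B ∧
      (A ∩ Sx a1 a2 q kap r s (-1)).Nonempty ∧ (B ∩ Sx a1 a2 q kap r s 1).Nonempty

/-- The jumps of idempotents which commute with `T_phi` are constant along `K1` near `q`. -/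
def Lk (phi : ℂ → ℂ) (K K1 : Set ℂ) (q : ℂ) : Prop :=
  ∀ P : Op, P * P = P → P * Tp phi = Tp phi * P → ∃ k : ℂ, ∀ᶠ l in 𝓝[≠] q, l ∈ K1 →
    ∀ c', Jmp phi K P l c' → c' = k

/-- The jump at `q` is the constant jump near the point `t` of the circle. -/
def Lj (phi : ℂ → ℂ) (K : Set ℂ) (t q : ℂ) : Prop :=
  ∀ P : Op, P * P = P → P * Tp phi = Tp phi * P → ∀ k : ℂ, (∀ᶠ z in 𝓝[≠] t, ‖z‖ = 1 →
    ∀ c', Jmp phi K P (phi z) c' → c' = k) → Jmp phi K P q k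

/-- The hypotheses of the abstract theorem. -/
structure Cy (phi : ℂ → ℂ) (K : Set ℂ) : Prop extends Dk phi K where
  sim : {z : ℂ | ‖z‖ = 1 ∧ ¬ LinkOn phi K z {phi z} (phi z) (phi z)}.Finite
  lc : ∀ t : ℂ, ‖t‖ = 1 → Lc phi K t
  cov : {q : ℂ | q ∈ K ∧ ¬ ∃ t, ‖t‖ = 1 ∧ Lj phi K t q}.Finite

end Pool.Agent.TBirX
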