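import Pool.Agent.TBirX.Def
import Pool.Agent.TBirN.Fb

/-!
# The approximate root near a point of the curve

As in TBirN/Fb.lean (one point instead of two): nearest point, `g l = t (1 - s)`.
-/

set_option autoImplicit false

open MeasureTheory Complex Set Filter Topology Metric AddCircle
open scoped ComplexConjugate InnerProductSpace ENNReal

namespace Pool.Agent.TBirX

open Pool.Agent.TBir Pool.Agent.TBirG Pool.Agent.TBirC Pool.Agent.TBirJ Pool.Agent.TBirK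
open Pool.Agent.TBirN
open Pool.Agent.TBirP (E qT)

variable {phi : ℂ → ℂ} {F : Finset ℂ} {u v : ℂ → ℂ} {z0 : ℂ}

private theorem dg_norm_E (x : ℝ) : ‖E x‖ = 1 := by
  unfold E
  exact Complex.norm_exp_ofReal_mul_I x

private theorem dg_E_add (x y : ℝ) : E (x + y) = E x * E y := by
  unfold E
  rw [← Complex.exp_add]
  push_cast
  rw [add_mul]

private theorem dg_E_cont : Continuous E := by
  unfold E
  fun_prop

private theorem dg_E_strict (x : ℝ) : HasStrictDerivAt E (I * E x) x := by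
  have h1 : HasStrictDerivAt (fun y : ℝ => ((y : ℂ) * I)) (1 * I) x :=
    (Complex.ofRealCLM.hasStrictFDerivAt.hasStrictDerivAt (x := x)).mul_const I
  have h2 := h1.cexp
  unfold E
  refine h2.congr_deriv ?_
  ring

private theorem dg_arg {z : ℂ} (hz : ‖z‖ = 1) : E (arg z) = z := by
  unfold E
  have h := Complex.norm_mul_exp_arg_mul_I z
  rw [hz] at h
  simpa using h

private theorem dg_inv {z0 : ℂ} {x0 : ℝ} (h0 : E x0 = z0) {δ : ℝ} (hδ : 0 < δ) :
    ∃ d : ℝ, 0 < d ∧ ∀ z : ℂ, ‖z‖ = 1 → ‖z - z0‖ < d → ∃ y : ℝ, |y - x0| < δ ∧ E y = z := by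
  have hz0 : ‖z0‖ = 1 := by rw [← h0]; exact dg_norm_E x0
  have hne : z0 ≠ 0 := by
    intro h
    rw [h, norm_zero] at hz0
    exact zero_ne_one hz0
  have h1 : ContinuousAt (fun z : ℂ => arg (z / z0)) z0 := by
    have h2 : ContinuousAt arg (z0 / z0) := by
      rw [div_self hne]
      exact Complex.continuousAt_arg Complex.one_mem_slitPlane
    exact ContinuousAt.comp (g := arg) (f := fun z : ℂ => z / z0) h2 (by fun_prop)
  rw [Metric.continuousAt_iff] at h1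
  obtain ⟨d, hd, h⟩ := h1 δ hδ
  refine ⟨d, hd, fun z hz hzz => ⟨x0 + arg (z / z0), ?_, ?_⟩⟩
  · have h3 := h (x := z) (by rw [dist_eq_norm]; exact hzz)
    rw [div_self hne, arg_one, Real.dist_eq, sub_zero] at h3
    rw [add_sub_cancel_left]
    exact h3
  · have h4 : ‖z / z0‖ = 1 := by rw [norm_div, hz, hz0, div_one]
    rw [dg_E_add, dg_arg h4, h0]
    field_simp

private theorem dg_bdd (h : PwC phi F u v) : ∃ B : ℝ, 0 ≤ B ∧ ∀ z : ℂ, ‖z‖ = 1 → ‖phi z‖ ≤ B := by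
  have h1 : ∀ x : ℝ, ∃ t ∈ 𝓝 x, ∃ B : ℝ, ∀ y ∈ t, ‖phi (E y)‖ ≤ B := by
    intro x
    by_cases hx : E x ∈ F
    · obtain ⟨hl, -⟩ := h.left _ hx
      obtain ⟨hr, -⟩ := h.right _ hx
      have el := hl.norm.eventually_le_const (lt_add_one ‖u (E x)‖)
      have er := hr.norm.eventually_le_const (lt_add_one ‖v (E x)‖)
      rw [eventually_iff, mem_nhdsGT_iff_exists_Ioo_subset] at el er
      obtain ⟨a, ha, ha'⟩ := el
      obtain ⟨b, hb, hb'⟩ := er
      have ha0 : (0 : ℝ) < a := ha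
      have hb0 : (0 : ℝ) < b := hb
      refine ⟨Ioo (x - a) (x + b), Ioo_mem_nhds (by linarith) (by linarith),
        max (max (‖u (E x)‖ + 1) (‖v (E x)‖ + 1)) ‖phi (E x)‖, ?_⟩
      intro y hy
      rcases lt_trichotomy y x with hyx | hyx | hyx
      · have h2 := ha' (show x - y ∈ Ioo 0 a from ⟨by linarith, by linarith [hy.1]⟩)
        have h3 : E x * E (-1 * (x - y)) = E y := by
          rw [← dg_E_add]
          ring_nf
        simp only [mem_ofPred_eq, h3] at h2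
        exact le_max_of_le_left (le_max_of_le_left h2)
      · rw [hyx]
        exact le_max_right _ _
      · have h2 := hb' (show y - x ∈ Ioo 0 b from ⟨by linarith, by linarith [hy.2]⟩)
        have h3 : E x * E (1 * (y - x)) = E y := by
          rw [← dg_E_add]
          ring_nf
        simp only [mem_ofPred_eq, h3] at h2
        exact le_max_of_le_left (le_max_of_le_right h2)
    · obtain ⟨hd, -, -⟩ := h.reg x hx
      have h2 := hd.continuousAt.norm.eventually_le_const (lt_add_one ‖phi (E x)‖)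
      exact ⟨_, h2, ‖phi (E x)‖ + 1, fun y hy => hy⟩
  have h2 : ∃ B : ℝ, ∀ y ∈ Icc (-Real.pi) Real.pi, ‖phi (E y)‖ ≤ B := by
    refine isCompact_Icc.induction_on (p := fun S : Set ℝ => ∃ B : ℝ, ∀ y ∈ S, ‖phi (E y)‖ ≤ B)
      ⟨0, fun y hy => absurd hy (notMem_empty y)⟩ ?_ ?_ ?_
    · rintro s t hst ⟨B, hB⟩
      exact ⟨B, fun y hy => hB y (hst hy)⟩
    · rintro s t ⟨B, hB⟩ ⟨C, hC⟩
      refine ⟨max B C, ?_⟩
      rintro y (hy | hy)
      · exact le_max_of_le_left (hB y hy)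
      · exact le_max_of_le_right (hC y hy)
    · intro x _
      obtain ⟨t, ht, B, hB⟩ := h1 x
      exact ⟨t, mem_nhdsWithin_of_mem_nhds ht, B, hB⟩
  obtain ⟨B, hB⟩ := h2
  refine ⟨max B 0, le_max_right _ _, fun z hz => ?_⟩
  have h3 := hB (arg z) ⟨(Complex.neg_pi_lt_arg z).le, Complex.arg_le_pi z⟩
  rw [dg_arg hz] at h3
  exact le_max_of_le_left h3

private theorem dg_strict (h : PwC phi F u v) {x0 : ℝ} (hF : E x0 ∉ F) :
    HasStrictDerivAt (fun y : ℝ => phi (E y)) (deriv (fun y : ℝ => phi (E y)) x0) x0 := by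
  have h1 : ∀ᶠ y in 𝓝 x0, E y ∉ F := by
    have h2 : IsClosed (F : Set ℂ) := F.finite_toSet.isClosed
    exact dg_E_cont.continuousAt.eventually (h2.isOpen_compl.mem_nhds hF)
  refine hasStrictDerivAt_of_hasDerivAt_of_continuousAt ?_ (h.reg x0 hF).2.2
  filter_upwards [h1] with y hy
  exact (h.reg y hy).1.hasDerivAt

private theorem dg_lo {f : ℝ → ℂ} {f' : ℂ} {x0 : ℝ} (h : HasStrictDerivAt f f' x0) {e : ℝ} (he : 0 < e) :
    ∃ δ : ℝ, 0 < δ ∧ ∀ y τ : ℝ, |y - x0| < δ → |τ - x0| < δ →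
      ‖f y - f τ - ((y - τ : ℝ) : ℂ) * f'‖ ≤ e * |y - τ| := by
  have h1 := hasStrictFDerivAt_iff_isLittleO.1 h.hasStrictFDerivAt
  have h2 := h1.def he
  rw [Metric.eventually_nhds_iff] at h2
  obtain ⟨δ, hδ, h3⟩ := h2
  refine ⟨δ, hδ, fun y τ hy hτ => ?_⟩
  have h4 := h3 (y := (y, τ)) (by
    rw [Prod.dist_eq, Real.dist_eq, Real.dist_eq]
    exact max_lt hy hτ)
  have h5 : ((y - τ : ℝ) : ℂ) * f' = (ContinuousLinearMap.toSpanSingleton ℝ f') (y - τ) := by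
    rw [ContinuousLinearMap.toSpanSingleton_apply, Complex.real_smul]
  rw [h5]
  simpa only [Real.norm_eq_abs] using h4

private theorem dg_near (h : PwC phi F u v) {x0 : ℝ} (h0 : E x0 = z0) (hzF : z0 ∉ F) {e : ℝ} (he : 0 < e) :
    ∃ δ : ℝ, 0 < δ ∧ ∀ y τ : ℝ, |y - x0| < δ → |τ - x0| < δ →
      ‖phi (E y) - phi (E τ) - deriv (fun y : ℝ => phi (E y)) x0 / (I * z0) * (E y - E τ)‖ ≤ e * ‖E y - E τ‖ := by
  have hz0 : ‖z0‖ = 1 := by rw [← h0]; exact dg_norm_E x0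
  have hne : z0 ≠ 0 := by
    intro h
    rw [h, norm_zero] at hz0
    exact zero_ne_one hz0
  have hx0 : E x0 ∉ F := by rw [h0]; exact hzF
  have hs := dg_strict h hx0
  generalize deriv (fun y : ℝ => phi (E y)) x0 = D at hs ⊢
  have hG : HasStrictDerivAt (fun y : ℝ => phi (E y) - D / (I * z0) * E y) 0 x0 := by
    refine (hs.sub ((dg_E_strict x0).const_mul (D / (I * z0)))).congr_deriv ?_
    rw [h0, div_mul_cancel₀ _ (mul_ne_zero I_ne_zero hne), sub_self]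
  obtain ⟨d1, hd1, k1⟩ := dg_lo hG (e := e / 2) (by positivity)
  obtain ⟨d2, hd2, k2⟩ := dg_lo (dg_E_strict x0) (e := 1 / 2) (by norm_num)
  refine ⟨min d1 d2, lt_min hd1 hd2, fun y τ hy hτ => ?_⟩
  have a1 := k1 y τ (lt_of_lt_of_le hy (min_le_left _ _)) (lt_of_lt_of_le hτ (min_le_left _ _))
  have a2 := k2 y τ (lt_of_lt_of_le hy (min_le_right _ _)) (lt_of_lt_of_le hτ (min_le_right _ _))
  rw [mul_zero, sub_zero] at a1
  have a3 : ‖((y - τ : ℝ) : ℂ) * (I * E x0)‖ = |y - τ| := by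
    rw [norm_mul, norm_mul, Complex.norm_I, dg_norm_E, Complex.norm_real, Real.norm_eq_abs]
    ring
  have a4 : |y - τ| ≤ ‖E y - E τ‖ + 1 / 2 * |y - τ| := by
    calc |y - τ| = ‖((y - τ : ℝ) : ℂ) * (I * E x0)‖ := a3.symm
      _ = ‖(E y - E τ) - (E y - E τ - ((y - τ : ℝ) : ℂ) * (I * E x0))‖ := by
          congr 1
          ring
      _ ≤ ‖E y - E τ‖ + ‖E y - E τ - ((y - τ : ℝ) : ℂ) * (I * E x0)‖ := norm_sub_le _ _
      _ ≤ _ := by linarith
  have a5 : phi (E y) - phi (E τ) - D / (I * z0) * (E y - E τ) =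
      (phi (E y) - D / (I * z0) * E y) - (phi (E τ) - D / (I * z0) * E τ) := by ring
  rw [a5]
  refine a1.trans ?_
  nlinarith

private theorem dg_ex (h : PwC phi F u v) {x0 : ℝ} (h0 : E x0 = z0) (hzF : z0 ∉ F) {eps : ℝ}
    (heps : 0 < eps) :
    ∃ δ : ℝ, 0 < δ ∧ ∀ τ s : ℝ, |τ - x0| ≤ δ → s ≠ 0 → |s| ≤ δ →
      E τ * (1 - s) ∈ ball z0 eps ∧ |s| < 1 / 2 ∧ ∀ z ∈ sphere (0 : ℂ) 1, z ≠ z0 →
        ‖(phi z - (phi (E τ) + I * s * deriv (fun y : ℝ => phi (E y)) τ)) / (z - E τ * (1 - s)) -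
          (phi z - phi z0) / (z - z0)‖ ≤ eps := by
  have hz0 : ‖z0‖ = 1 := by rw [← h0]; exact dg_norm_E x0
  have hne : z0 ≠ 0 := by
    intro h
    rw [h, norm_zero] at hz0
    exact zero_ne_one hz0
  have hx0 : E x0 ∉ F := by rw [h0]; exact hzF
  obtain ⟨B, hB0, hB⟩ := dg_bdd h
  have hcc : ContinuousAt (fun y : ℝ => phi (E y)) x0 := (h.reg x0 hx0).1.continuousAt
  have hDc : ContinuousAt (deriv fun y : ℝ => phi (E y)) x0 := (h.reg x0 hx0).2.2
  obtain ⟨d1, hd1, near⟩ := dg_near h h0 hzF (e := eps / 8) (by positivity)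
  generalize (deriv fun y : ℝ => phi (E y)) = D at near hDc ⊢
  obtain ⟨d, hd, k3⟩ := dg_inv h0 hd1
  have hη : ∃ η : ℝ, 0 < η ∧ η ≤ d / 2 ∧ η ≤ eps / 2 ∧ 2 * B * η * (2 / d * (1 / d)) + η * (2 / d) ≤ eps := by
    refine ⟨min (min (d / 2) (eps / 2)) (eps / (4 * B / d ^ 2 + 2 / d + 1)), ?_, ?_, ?_, ?_⟩
    · positivity
    · exact (min_le_left _ _).trans (min_le_left _ _)
    · exact (min_le_left _ _).trans (min_le_right _ _)
    · set K : ℝ := 4 * B / d ^ 2 + 2 / d + 1 with hK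
      have hK0 : 0 < K := by positivity
      set η : ℝ := min (min (d / 2) (eps / 2)) (eps / K)
      have h1 : η ≤ eps / K := min_le_right _ _
      have h2 : 0 ≤ η := by positivity
      calc 2 * B * η * (2 / d * (1 / d)) + η * (2 / d) = η * (4 * B / d ^ 2 + 2 / d) := by
            field_simp
            ring
        _ ≤ η * K := by
            apply mul_le_mul_of_nonneg_left _ h2
            rw [hK]
            linarith
        _ ≤ eps / K * K := by gcongr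
        _ = eps := by field_simp
  obtain ⟨η, hη0, hη1, hη2, hη3⟩ := hη
  have ev : ∀ᶠ q : ℝ × ℝ in 𝓝 (x0, 0), |q.1 - x0| < d1 ∧ ‖D q.1 - D x0 * E q.1 / z0‖ < eps / 8 ∧
      ‖E q.1 * (1 - q.2) - z0‖ < η ∧ ‖phi (E q.1) + I * q.2 * D q.1 - phi z0‖ < η ∧ |q.2| < 1 / 2 := by
    have hE : ContinuousAt (fun q : ℝ × ℝ => E q.1) (x0, 0) :=
      (dg_E_cont.comp continuous_fst).continuousAt
    have hc : ContinuousAt (fun q : ℝ × ℝ => phi (E q.1)) (x0, 0) :=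
      ContinuousAt.comp (g := fun y : ℝ => phi (E y)) (f := Prod.fst) hcc continuousAt_fst
    have hDD : ContinuousAt (fun q : ℝ × ℝ => D q.1) (x0, 0) :=
      ContinuousAt.comp (g := D) (f := Prod.fst) hDc continuousAt_fst
    have c1 : ContinuousAt (fun q : ℝ × ℝ => |q.1 - x0|) (x0, 0) := by fun_prop
    have c2 : ContinuousAt (fun q : ℝ × ℝ => ‖D q.1 - D x0 * E q.1 / z0‖) (x0, 0) :=
      (hDD.sub ((continuousAt_const.mul hE).div_const z0)).norm
    have hs : ContinuousAt (fun q : ℝ × ℝ => ((q.2 : ℝ) : ℂ)) (x0, 0) := by fun_prop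
    have c3 : ContinuousAt (fun q : ℝ × ℝ => ‖E q.1 * (1 - q.2) - z0‖) (x0, 0) :=
      ((hE.mul (continuousAt_const.sub hs)).sub continuousAt_const).norm
    have c4 : ContinuousAt (fun q : ℝ × ℝ => ‖phi (E q.1) + I * q.2 * D q.1 - phi z0‖) (x0, 0) :=
      ((hc.add ((continuousAt_const.mul hs).mul hDD)).sub continuousAt_const).norm
    have c5 : ContinuousAt (fun q : ℝ × ℝ => |q.2|) (x0, 0) := by fun_prop
    have f1 := Tendsto.eventually_lt_const (show |x0 - x0| < d1 by simpa using hd1) c1.tendsto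
    have f2 := Tendsto.eventually_lt_const (show ‖D x0 - D x0 * E x0 / z0‖ < eps / 8 by
      rw [h0, mul_div_assoc, div_self hne, mul_one, sub_self, norm_zero]
      positivity) c2.tendsto
    have f3 := Tendsto.eventually_lt_const (show ‖E x0 * (1 - ((0 : ℝ) : ℂ)) - z0‖ < η by
      rw [h0]
      simpa using hη0) c3.tendsto
    have f4 := Tendsto.eventually_lt_const (show ‖phi (E x0) + I * ((0 : ℝ) : ℂ) * D x0 - phi z0‖ < η by
      rw [h0]
      simpa using hη0) c4.tendsto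
    have f5 := Tendsto.eventually_lt_const (show |(0 : ℝ)| < 1 / 2 by simp) c5.tendsto
    filter_upwards [f1, f2, f3, f4, f5] with q g1 g2 g3 g4 g5
    exact ⟨g1, g2, g3, g4, g5⟩
  rw [Metric.eventually_nhds_iff] at ev
  obtain ⟨r, hr, ev⟩ := ev
  refine ⟨r / 2, by positivity, fun τ s hτ hs0 hs => ?_⟩
  obtain ⟨g1, g2, g3, g4, g5⟩ := ev (y := (τ, s)) (by
    rw [Prod.dist_eq, Real.dist_eq, Real.dist_eq, sub_zero]
    exact max_lt (by linarith) (by linarith))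
  simp only at g1 g2 g3 g4 g5
  refine ⟨by rw [mem_ball, dist_eq_norm]; linarith, g5, fun z hz hzz => ?_⟩
  have hz1 : ‖z‖ = 1 := by simpa using hz
  have hzz' : z - z0 ≠ 0 := sub_ne_zero.2 hzz
  set t : ℂ := E τ with ht
  set g : ℂ := t * (1 - s) with hg
  set l : ℂ := phi t + I * s * D τ with hl
  have hgs : |s| ≤ ‖z - g‖ := by
    have b1 := abs_norm_sub_norm_le z g
    have b2 : ‖g‖ = 1 - s := by
      rw [hg, norm_mul, ht, dg_norm_E, one_mul]
      have b3 : ((1 : ℂ) - s) = ((1 - s : ℝ) : ℂ) := by push_cast; ring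
      rw [b3, Complex.norm_real, Real.norm_eq_abs, abs_of_pos]
      have := (abs_lt.1 g5).2
      linarith
    rw [hz1, b2] at b1
    calc |s| = |1 - (1 - s)| := by ring_nf
      _ ≤ _ := b1
  have hs0' : 0 < |s| := abs_pos.2 hs0
  have hzg : 0 < ‖z - g‖ := lt_of_lt_of_le hs0' hgs
  have hzg' : z - g ≠ 0 := norm_pos_iff.1 hzg
  by_cases hzd : ‖z - z0‖ < d
  · obtain ⟨y, hy, rfl⟩ := k3 z hz1 hzd
    have n1 := near y τ hy g1
    have n2 := near y x0 hy (by simpa using hd1)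
    rw [h0] at n2
    rw [← ht] at n1
    set p : ℂ := D x0 / (I * z0) with hp
    have b1 : ‖E y - t‖ ≤ 2 * ‖E y - g‖ := by
      have b2 : E y - t = (E y - g) - t * s := by rw [hg]; ring
      calc ‖E y - t‖ = ‖(E y - g) - t * s‖ := by rw [b2]
        _ ≤ ‖E y - g‖ + ‖t * s‖ := norm_sub_le _ _
        _ = ‖E y - g‖ + |s| := by
            rw [norm_mul, ht, dg_norm_E, one_mul, Complex.norm_real, Real.norm_eq_abs]
        _ ≤ _ := by linarith
    have hps : p * (s * t) = - (I * s * (D x0 * t / z0)) := by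
      rw [hp]
      have hI : (I : ℂ) ≠ 0 := I_ne_zero
      field_simp
      rw [I_sq]
      ring
    have b3 : phi (E y) - l = p * (E y - g) + ((phi (E y) - phi t - p * (E y - t)) +
        -(I * s * (D τ - D x0 * t / z0))) := by
      rw [hl]
      have b4 : p * (E y - g) = p * (E y - t) + p * (s * t) := by rw [hg]; ring
      rw [b4, hps]
      ring
    have b5 : (phi (E y) - l) / (E y - g) - p = ((phi (E y) - phi t - p * (E y - t)) +
        -(I * s * (D τ - D x0 * t / z0))) / (E y - g) := by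
      rw [b3]
      field_simp
      ring
    have b6 : ‖(phi (E y) - l) / (E y - g) - p‖ ≤ 3 / 8 * eps := by
      rw [b5, norm_div, div_le_iff₀ hzg]
      calc ‖(phi (E y) - phi t - p * (E y - t)) + -(I * s * (D τ - D x0 * t / z0))‖
          ≤ ‖phi (E y) - phi t - p * (E y - t)‖ + ‖-(I * s * (D τ - D x0 * t / z0))‖ :=
            norm_add_le _ _
        _ = ‖phi (E y) - phi t - p * (E y - t)‖ + |s| * ‖D τ - D x0 * t / z0‖ := by
            rw [norm_neg, norm_mul, norm_mul, Complex.norm_I, one_mul, Complex.norm_real,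
              Real.norm_eq_abs]
        _ ≤ eps / 8 * (2 * ‖E y - g‖) + ‖E y - g‖ * (eps / 8) := by
            refine add_le_add (n1.trans (by gcongr)) ?_
            exact mul_le_mul hgs g2.le (norm_nonneg _) (norm_nonneg _)
        _ = 3 / 8 * eps * ‖E y - g‖ := by ring
    have b7 : ‖(phi (E y) - phi z0) / (E y - z0) - p‖ ≤ eps / 8 := by
      have b8 : (phi (E y) - phi z0) / (E y - z0) - p =
          (phi (E y) - phi z0 - p * (E y - z0)) / (E y - z0) := by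
        field_simp
      rw [b8, norm_div, div_le_iff₀ (norm_pos_iff.2 hzz')]
      exact n2
    calc ‖(phi (E y) - l) / (E y - g) - (phi (E y) - phi z0) / (E y - z0)‖
        = ‖((phi (E y) - l) / (E y - g) - p) - ((phi (E y) - phi z0) / (E y - z0) - p)‖ := by
          congr 1
          ring
      _ ≤ ‖(phi (E y) - l) / (E y - g) - p‖ + ‖(phi (E y) - phi z0) / (E y - z0) - p‖ :=
          norm_sub_le _ _
      _ ≤ eps := by linarith
  · push Not at hzd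
    have b1 : d / 2 ≤ ‖z - g‖ := by
      have b2 : ‖z - z0‖ ≤ ‖z - g‖ + ‖g - z0‖ := by
        calc ‖z - z0‖ = ‖(z - g) + (g - z0)‖ := by congr 1; ring
          _ ≤ _ := norm_add_le _ _
      linarith
    have b3 : (phi z - l) / (z - g) - (phi z - phi z0) / (z - z0) =
        (phi z - phi z0) * (g - z0) * (1 / (z - g) * (1 / (z - z0))) - (l - phi z0) * (1 / (z - g)) := by
      field_simp
      ring
    rw [b3]
    have b4 : ‖1 / (z - g)‖ ≤ 2 / d := by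
      rw [norm_div, norm_one, div_le_div_iff₀ hzg hd]
      linarith
    have b5 : ‖1 / (z - z0)‖ ≤ 1 / d := by
      rw [norm_div, norm_one]
      exact one_div_le_one_div_of_le hd hzd
    have b6 : ‖phi z - phi z0‖ ≤ 2 * B := by
      calc ‖phi z - phi z0‖ ≤ ‖phi z‖ + ‖phi z0‖ := norm_sub_le _ _
        _ ≤ 2 * B := by linarith [hB z hz1, hB z0 hz0]
    calc ‖(phi z - phi z0) * (g - z0) * (1 / (z - g) * (1 / (z - z0))) - (l - phi z0) * (1 / (z - g))‖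
        ≤ ‖(phi z - phi z0) * (g - z0) * (1 / (z - g) * (1 / (z - z0)))‖ +
          ‖(l - phi z0) * (1 / (z - g))‖ := norm_sub_le _ _
      _ = ‖phi z - phi z0‖ * ‖g - z0‖ * (‖1 / (z - g)‖ * ‖1 / (z - z0)‖) +
          ‖l - phi z0‖ * ‖1 / (z - g)‖ := by
          simp only [norm_mul]
      _ ≤ 2 * B * η * (2 / d * (1 / d)) + η * (2 / d) := by
          gcongr
      _ ≤ eps := hη3

private theorem dg_sel (h : PwC phi F u v) {x0 : ℝ} {z0 : ℂ} (h0 : E x0 = z0) (hzF : z0 ∉ F) :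
    ∃ C ρ : ℝ, 0 < C ∧ 0 < ρ ∧ ∀ l : ℂ, ‖l - phi z0‖ < ρ → l ∉ phi '' (sphere 0 1 \ F) →
      ∃ τ s : ℝ, s ≠ 0 ∧ |τ - x0| ≤ C * ‖l - phi z0‖ ∧ |s| ≤ C * ‖l - phi z0‖ ∧
        l = phi (E τ) + I * s * deriv (fun y : ℝ => phi (E y)) τ := by
  have hx0 : E x0 ∉ F := by rw [h0]; exact hzF
  have hst := dg_strict h hx0
  have hDne := (h.reg x0 hx0).2.1
  have hDc : ContinuousAt (deriv fun y : ℝ => phi (E y)) x0 := (h.reg x0 hx0).2.2
  have hder : ∀ y : ℝ, E y ∉ F → HasDerivAt (fun y : ℝ => phi (E y)) (deriv (fun y : ℝ => phi (E y)) y) y :=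
    fun y hy => (h.reg y hy).1.hasDerivAt
  generalize (deriv fun y : ℝ => phi (E y)) = D at hst hDne hDc hder ⊢
  have hD0 : 0 < ‖D x0‖ := norm_pos_iff.2 hDne
  obtain ⟨d1, hd1, k1⟩ := dg_lo hst (e := ‖D x0‖ / 2) (by positivity)
  have ev1 : ∀ᶠ y in 𝓝 x0, E y ∉ F := by
    have h2 : IsClosed (F : Set ℂ) := F.finite_toSet.isClosed
    exact dg_E_cont.continuousAt.eventually (h2.isOpen_compl.mem_nhds hx0)
  have ev2 : ∀ᶠ y in 𝓝 x0, ‖D x0‖ / 2 < ‖D y‖ :=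
    hDc.norm.tendsto.eventually_const_lt (by linarith)
  obtain ⟨r1, hr1, ev⟩ := Metric.eventually_nhds_iff.1 (ev1.and ev2)
  have hr : ∃ r : ℝ, 0 < r ∧ r < d1 ∧ r < r1 :=
    ⟨min (d1 / 2) (r1 / 2), by positivity,
      lt_of_le_of_lt (min_le_left _ _) (by linarith),
      lt_of_le_of_lt (min_le_right _ _) (by linarith)⟩
  obtain ⟨r, hr0, hrd, hrr⟩ := hr
  have hlow : ∀ y : ℝ, |y - x0| ≤ r → ‖D x0‖ / 2 * |y - x0| ≤ ‖phi (E y) - phi z0‖ := by
    intro y hy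
    have a1 := k1 y x0 (lt_of_le_of_lt hy hrd) (by simpa using hd1)
    rw [h0] at a1
    have a2 : ‖((y - x0 : ℝ) : ℂ) * D x0‖ = |y - x0| * ‖D x0‖ := by
      rw [norm_mul, Complex.norm_real, Real.norm_eq_abs]
    have a3 : ‖((y - x0 : ℝ) : ℂ) * D x0‖ ≤ ‖phi (E y) - phi z0‖ +
        ‖phi (E y) - phi z0 - ((y - x0 : ℝ) : ℂ) * D x0‖ := by
      calc ‖((y - x0 : ℝ) : ℂ) * D x0‖ = ‖(phi (E y) - phi z0) -
            (phi (E y) - phi z0 - ((y - x0 : ℝ) : ℂ) * D x0)‖ := by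
            congr 1
            ring
        _ ≤ _ := norm_sub_le _ _
    rw [a2] at a3
    linarith
  refine ⟨4 / ‖D x0‖, ‖D x0‖ / 2 * r / 2, by positivity, by positivity, fun l hl1 hlF => ?_⟩
  have hIcc : ∀ y ∈ Icc (x0 - r) (x0 + r), |y - x0| ≤ r := fun y hy =>
    abs_le.2 ⟨by linarith [hy.1], by linarith [hy.2]⟩
  have hFy : ∀ y ∈ Icc (x0 - r) (x0 + r), E y ∉ F ∧ ‖D x0‖ / 2 < ‖D y‖ := fun y hy =>
    ev (y := y) (by
      rw [Real.dist_eq]
      exact lt_of_le_of_lt (hIcc y hy) hrr)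
  have hcont : ContinuousOn (fun y : ℝ => ‖phi (E y) - l‖ ^ 2) (Icc (x0 - r) (x0 + r)) := by
    intro y hy
    have a1 := (hder y (hFy y hy).1).continuousAt
    exact ((a1.sub continuousAt_const).norm.pow 2).continuousWithinAt
  have hmem : x0 ∈ Icc (x0 - r) (x0 + r) := ⟨by linarith, by linarith⟩
  obtain ⟨τ, hτ, hmin⟩ := isCompact_Icc.exists_isMinOn ⟨x0, hmem⟩ hcont
  have hτ1 : ‖phi (E τ) - l‖ ≤ ‖l - phi z0‖ := by
    have a1 := hmin hmem
    simp only [mem_ofPred_eq, h0] at a1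
    rw [norm_sub_rev (phi z0) l] at a1
    exact le_of_sq_le_sq a1 (norm_nonneg _)
  have hτ3 : ‖phi (E τ) - phi z0‖ ≤ 2 * ‖l - phi z0‖ := by
    calc ‖phi (E τ) - phi z0‖ = ‖(phi (E τ) - l) + (l - phi z0)‖ := by congr 1; ring
      _ ≤ ‖phi (E τ) - l‖ + ‖l - phi z0‖ := norm_add_le _ _
      _ ≤ _ := by linarith
  have hlowτ := hlow τ (hIcc τ hτ)
  have hτr : |τ - x0| ≠ r := by
    intro hτe
    rw [hτe] at hlowτ
    linarith
  have hτ2 : |τ - x0| < r := lt_of_le_of_ne (hIcc τ hτ) hτr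
  have hloc : IsLocalMin (fun y : ℝ => ‖phi (E y) - l‖ ^ 2) τ := by
    have a1 : Icc (x0 - r) (x0 + r) ∈ 𝓝 τ :=
      Icc_mem_nhds (by linarith [(abs_lt.1 hτ2).1]) (by linarith [(abs_lt.1 hτ2).2])
    exact hmin.isLocalMin a1
  have hd := ((hder τ (hFy τ hτ).1).sub_const l).norm_sq
  have h1 := hloc.hasDerivAt_eq_zero hd
  have hDτ : 0 < ‖D τ‖ := lt_trans (by positivity) (hFy τ hτ).2
  have hDτ' : D τ ≠ 0 := norm_pos_iff.1 hDτ
  set q : ℂ := (l - phi (E τ)) / D τ with hq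
  have hq1 : l - phi (E τ) = q * D τ := by rw [hq]; field_simp
  have hre : q.re = 0 := by
    rw [Complex.inner] at h1
    have a1 : phi (E τ) - l = -(q * D τ) := by rw [← hq1]; ring
    have a0 : D τ * (starRingEnd ℂ) (phi (E τ) - l) = -((starRingEnd ℂ) q * (‖D τ‖ : ℂ) ^ 2) := by
      rw [a1, map_neg, map_mul, ← Complex.mul_conj']
      ring
    rw [a0, neg_re] at h1
    have a2 : ((starRingEnd ℂ) q * (‖D τ‖ : ℂ) ^ 2).re = q.re * ‖D τ‖ ^ 2 := by
      rw [← ofReal_pow, re_mul_ofReal, conj_re]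
    rw [a2] at h1
    have a3 : ‖D τ‖ ^ 2 ≠ 0 := by positivity
    have a4 : q.re * ‖D τ‖ ^ 2 = 0 := by linarith
    rcases mul_eq_zero.1 a4 with a5 | a5
    · exact a5
    · exact absurd a5 a3
  have hqI : q = I * (q.im : ℂ) := by
    apply Complex.ext
    · rw [hre]
      simp
    · simp
  have hleq : l = phi (E τ) + I * (q.im : ℂ) * D τ := by
    rw [← hqI, ← hq1]
    ring
  refine ⟨τ, q.im, ?_, ?_, ?_, hleq⟩
  · intro hs
    apply hlF
    refine ⟨E τ, ⟨?_, (hFy τ hτ).1⟩, ?_⟩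
    · rw [mem_sphere_zero_iff_norm]
      exact dg_norm_E τ
    · rw [hleq, hs]
      simp
  · rw [div_mul_eq_mul_div, le_div_iff₀ hD0]
    linarith
  · have a1 : |q.im| ≤ ‖q‖ := Complex.abs_im_le_norm q
    refine a1.trans ?_
    rw [hq, norm_div, norm_sub_rev, div_mul_eq_mul_div, div_le_div_iff₀ hDτ hD0]
    have a2 := (hFy τ hτ).2
    have a3 : 0 ≤ ‖l - phi z0‖ := norm_nonneg _
    calc ‖phi (E τ) - l‖ * ‖D x0‖ ≤ ‖l - phi z0‖ * ‖D x0‖ := by gcongr
      _ ≤ ‖l - phi z0‖ * (4 * ‖D τ‖) := by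
          apply mul_le_mul_of_nonneg_left _ a3
          linarith
      _ = 4 * ‖l - phi z0‖ * ‖D τ‖ := by ring

private theorem dg_norm_g (t : ℝ) {s : ℝ} (hs : |s| < 1 / 2) : ‖E t * (1 - s)‖ = 1 - s := by
  rw [norm_mul, dg_norm_E, one_mul]
  have b3 : ((1 : ℂ) - s) = ((1 - s : ℝ) : ℂ) := by push_cast; ring
  rw [b3, Complex.norm_real, Real.norm_eq_abs, abs_of_pos]
  have := (abs_lt.1 hs).2
  linarith

private theorem dg_asy (h : PwC phi F u v) {x0 : ℝ} {z0 : ℂ} (h0 : E x0 = z0) (hzF : z0 ∉ F) {e : ℝ}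
    (he : 0 < e) : ∃ δ : ℝ, 0 < δ ∧ ∀ τ s : ℝ, |τ - x0| < δ →
      ‖E τ * (1 - s) - z0 * (1 + I / deriv (fun y : ℝ => phi (E y)) x0 *
        (phi (E τ) + I * s * deriv (fun y : ℝ => phi (E y)) τ - phi z0))‖ ≤ e * (|τ - x0| + |s|) := by
  have hx0 : E x0 ∉ F := by rw [h0]; exact hzF
  have hz0 : ‖z0‖ = 1 := by rw [← h0]; exact dg_norm_E x0
  have hst := dg_strict h hx0
  have hDne := (h.reg x0 hx0).2.1
  have hDc : ContinuousAt (deriv fun y : ℝ => phi (E y)) x0 := (h.reg x0 hx0).2.2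
  generalize (deriv fun y : ℝ => phi (E y)) = D at hst hDne hDc ⊢
  have hD0 : 0 < ‖D x0‖ := norm_pos_iff.2 hDne
  have he' : 0 < e / (1 + 1 / ‖D x0‖) := by positivity
  obtain ⟨e', he'eq⟩ : ∃ e' : ℝ, e' = e / (1 + 1 / ‖D x0‖) := ⟨_, rfl⟩
  rw [← he'eq] at he'
  obtain ⟨d1, hd1, k1⟩ := dg_lo hst he'
  obtain ⟨d2, hd2, k2⟩ := dg_lo (dg_E_strict x0) he'
  have ev1 : ∀ᶠ y in 𝓝 x0, ‖E y - z0‖ < e' := by
    have h2 : ContinuousAt (fun y : ℝ => ‖E y - z0‖) x0 := by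
      exact (dg_E_cont.continuousAt.sub continuousAt_const).norm
    exact h2.tendsto.eventually_lt_const (by rw [h0, sub_self, norm_zero]; exact he')
  have ev2 : ∀ᶠ y in 𝓝 x0, ‖D y - D x0‖ < e' := by
    have h2 : ContinuousAt (fun y : ℝ => ‖D y - D x0‖) x0 := (hDc.sub continuousAt_const).norm
    exact h2.tendsto.eventually_lt_const (by rw [sub_self, norm_zero]; exact he')
  obtain ⟨d3, hd3, ev⟩ := Metric.eventually_nhds_iff.1 (ev1.and ev2)
  refine ⟨min (min d1 d2) d3, by positivity, fun τ s hτ => ?_⟩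
  have a1 := k1 τ x0 (lt_of_lt_of_le hτ ((min_le_left _ _).trans (min_le_left _ _))) (by simpa using hd1)
  have a2 := k2 τ x0 (lt_of_lt_of_le hτ ((min_le_left _ _).trans (min_le_right _ _))) (by simpa using hd2)
  obtain ⟨a3, a4⟩ := ev (y := τ) (by
    rw [Real.dist_eq]
    exact lt_of_lt_of_le hτ (min_le_right _ _))
  rw [h0] at a1 a2
  set σ : ℝ := τ - x0 with hσ
  have key : E τ * (1 - s) - z0 * (1 + I / D x0 * (phi (E τ) + I * s * D τ - phi z0)) =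
      (E τ - z0 - (σ : ℂ) * (I * z0)) - s * (E τ - z0) -
        z0 * (I / D x0) * ((phi (E τ) - phi z0 - (σ : ℂ) * D x0) + I * s * (D τ - D x0)) := by
    field_simp
    ring_nf
    rw [I_sq]
    ring
  rw [key]
  have n1 : ‖z0 * (I / D x0)‖ = 1 / ‖D x0‖ := by
    rw [norm_mul, hz0, norm_div, norm_I, one_mul]
  calc ‖(E τ - z0 - (σ : ℂ) * (I * z0)) - s * (E τ - z0) -
        z0 * (I / D x0) * ((phi (E τ) - phi z0 - (σ : ℂ) * D x0) + I * s * (D τ - D x0))‖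
      ≤ ‖(E τ - z0 - (σ : ℂ) * (I * z0)) - s * (E τ - z0)‖ +
        ‖z0 * (I / D x0) * ((phi (E τ) - phi z0 - (σ : ℂ) * D x0) + I * s * (D τ - D x0))‖ := norm_sub_le _ _
    _ ≤ (‖E τ - z0 - (σ : ℂ) * (I * z0)‖ + ‖(s : ℂ) * (E τ - z0)‖) +
        1 / ‖D x0‖ * (‖phi (E τ) - phi z0 - (σ : ℂ) * D x0‖ + ‖I * s * (D τ - D x0)‖) := by
        refine add_le_add (norm_sub_le _ _) ?_
        rw [norm_mul, n1]
        gcongr
        exact norm_add_le _ _
    _ = (‖E τ - z0 - (σ : ℂ) * (I * z0)‖ + |s| * ‖E τ - z0‖) +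
        1 / ‖D x0‖ * (‖phi (E τ) - phi z0 - (σ : ℂ) * D x0‖ + |s| * ‖D τ - D x0‖) := by
        rw [norm_mul, norm_mul, norm_mul, norm_I, one_mul, Complex.norm_real, Real.norm_eq_abs]
    _ ≤ (e' * |σ| + |s| * e') + 1 / ‖D x0‖ * (e' * |σ| + |s| * e') := by
        gcongr
    _ = e' * (1 + 1 / ‖D x0‖) * (|σ| + |s|) := by ring
    _ = e * (|σ| + |s|) := by
        rw [he'eq]
        field_simp

private theorem dg_pt (h : PwC phi F u v) {x0 : ℝ} {z0 : ℂ} (h0 : E x0 = z0) (hzF : z0 ∉ F) :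
    ∃ g : ℂ → ℂ, (∀ᶠ l in 𝓝 (phi z0), l ∉ phi '' (sphere 0 1 \ F) → ‖g l‖ ≠ 1) ∧
      (∀ eps > 0, ∀ᶠ l in 𝓝 (phi z0), l ∉ phi '' (sphere 0 1 \ F) →
        ‖g l - z0 * (1 + I / deriv (fun y : ℝ => phi (E y)) x0 * (l - phi z0))‖ ≤ eps * ‖l - phi z0‖) ∧
      ∀ eps > 0, ∀ᶠ l in 𝓝 (phi z0), l ∉ phi '' (sphere 0 1 \ F) → ∀ z ∈ sphere (0 : ℂ) 1, z ≠ z0 →
        ‖(phi z - l) / (z - g l) - (phi z - phi z0) / (z - z0)‖ ≤ eps := by
  classical
  obtain ⟨C, ρ, hC, hρ, hsel⟩ := dg_sel h h0 hzF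
  have key : ∀ l : ℂ, ∃ ts : ℝ × ℝ, ‖l - phi z0‖ < ρ → l ∉ phi '' (sphere 0 1 \ F) →
      ts.2 ≠ 0 ∧ |ts.1 - x0| ≤ C * ‖l - phi z0‖ ∧ |ts.2| ≤ C * ‖l - phi z0‖ ∧
        l = phi (E ts.1) + I * ts.2 * deriv (fun y : ℝ => phi (E y)) ts.1 := by
    intro l
    by_cases hl : ‖l - phi z0‖ < ρ ∧ l ∉ phi '' (sphere 0 1 \ F)
    · obtain ⟨τ, s, h1, h2, h3, h4⟩ := hsel l hl.1 hl.2
      exact ⟨(τ, s), fun _ _ => ⟨h1, h2, h3, h4⟩⟩
    · exact ⟨(0, 0), fun h1 h2 => absurd ⟨h1, h2⟩ hl⟩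
  choose ts hts using key
  have hball : ∀ {r : ℝ}, 0 < r → ∀ᶠ l in 𝓝 (phi z0), ‖l - phi z0‖ < r := fun {r} hr => by
    filter_upwards [Metric.ball_mem_nhds (phi z0) hr] with l hl
    rwa [mem_ball, dist_eq_norm] at hl
  refine ⟨fun l => E (ts l).1 * (1 - ((ts l).2 : ℂ)), ?_, ?_, ?_⟩
  · filter_upwards [hball hρ, hball (show 0 < 1 / (4 * C) by positivity)] with l h1 h2 hl
    obtain ⟨b1, b2, b3, b4⟩ := hts l h1 hl
    have b5 : |(ts l).2| < 1 / 2 := by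
      have b6 : C * ‖l - phi z0‖ < C * (1 / (4 * C)) := by gcongr
      have b7 : C * (1 / (4 * C)) = 1 / 4 := by field_simp
      linarith
    rw [dg_norm_g _ b5]
    intro b6
    apply b1
    linarith
  · intro eps heps
    obtain ⟨δ, hδ, k⟩ := dg_asy h h0 hzF (e := eps / (2 * C)) (by positivity)
    filter_upwards [hball hρ, hball (show 0 < δ / C by positivity)] with l h1 h2 hl
    obtain ⟨b1, b2, b3, b4⟩ := hts l h1 hl
    have b5 : |(ts l).1 - x0| < δ := by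
      refine lt_of_le_of_lt b2 ?_
      rw [mul_comm]
      exact (lt_div_iff₀ hC).1 h2
    have b6 := k (ts l).1 (ts l).2 b5
    rw [← b4] at b6
    refine b6.trans ?_
    calc eps / (2 * C) * (|(ts l).1 - x0| + |(ts l).2|)
        ≤ eps / (2 * C) * (C * ‖l - phi z0‖ + C * ‖l - phi z0‖) := by gcongr
      _ = eps * ‖l - phi z0‖ := by
          field_simp
          ring
  · intro eps heps
    obtain ⟨δ, hδ, k⟩ := dg_ex h h0 hzF heps
    filter_upwards [hball hρ, hball (show 0 < δ / C by positivity)] with l h1 h2 hl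
    obtain ⟨b1, b2, b3, b4⟩ := hts l h1 hl
    have b5 : C * ‖l - phi z0‖ ≤ δ := by
      rw [mul_comm]
      exact ((lt_div_iff₀ hC).1 h2).le
    obtain ⟨c1, c2, c3⟩ := k (ts l).1 (ts l).2 (b2.trans b5) b1 (b3.trans b5)
    rw [← b4] at c3
    exact c3

private theorem dg_tg (h : PwC phi F u v) {z : ℂ} (hz : ‖z‖ = 1) (hzF : z ∉ F) :
    ∃ x0 : ℝ, E x0 = z ∧ tg phi z = deriv (fun y : ℝ => phi (E y)) x0 ∧ tg phi z ≠ 0 ∧
      HasDerivAt (fun x : ℝ => phi (z * E x)) (tg phi z) 0 := by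
  obtain ⟨x0, hx0⟩ := EskA.exists_E hz
  obtain ⟨hd, hD0, -⟩ := h.reg x0 (by rw [hx0]; exact hzF)
  have hD : HasDerivAt (fun x : ℝ => phi (z * E x)) (deriv (fun y : ℝ => phi (E y)) x0) 0 := by
    have h1 : HasDerivAt (fun y : ℝ => phi (E y)) (deriv (fun y : ℝ => phi (E y)) x0) (x0 + 0) := by
      rw [add_zero]
      exact hd.hasDerivAt
    have h2 := h1.comp_const_add x0 0
    refine h2.congr_of_eventuallyEq (Filter.Eventually.of_forall fun x => ?_)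
    simp only
    rw [EskA.E_add, hx0]
  have h3 : tg phi z = deriv (fun y : ℝ => phi (E y)) x0 := hD.deriv
  exact ⟨x0, hx0, h3, by rw [h3]; exact hD0, by rw [h3]; exact hD⟩

theorem xg {phi : ℂ → ℂ} {F : Finset ℂ} {u v : ℂ → ℂ} {t : ℂ} (h : PwC phi F u v) (ht : ‖t‖ = 1)
    (hF : t ∉ F) : ∃ g : ℂ → ℂ, (∀ᶠ l in 𝓝 (phi t), l ∉ Gam phi F u v → ‖g l‖ ≠ 1) ∧
      (∀ eps > 0, ∀ᶠ l in 𝓝 (phi t), l ∉ Gam phi F u v →
        ‖g l - t * (1 + I / tg phi t * (l - phi t))‖ ≤ eps * ‖l - phi t‖) ∧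
      ∀ eps > 0, ∀ᶠ l in 𝓝 (phi t), l ∉ Gam phi F u v → ∀ z ∈ sphere (0 : ℂ) 1, z ∉ F → z ≠ t →
        ‖(phi z - l) / (z - g l) - (phi z - phi t) / (z - t)‖ ≤ eps := by
  obtain ⟨x1, hx1, e1, -, -⟩ := dg_tg h ht hF
  obtain ⟨g, o1, l1, f1⟩ := dg_pt h hx1 hF
  rw [← e1] at l1
  have hK : ∀ l, l ∉ Gam phi F u v → l ∉ phi '' (sphere 0 1 \ F) := fun l hl h1 => hl (Or.inl h1)
  refine ⟨g, ?_, ?_, ?_⟩
  · filter_upwards [o1] with l k1 hl
    exact k1 (hK l hl)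
  · intro eps heps
    filter_upwards [l1 eps heps] with l k1 hl
    exact k1 (hK l hl)
  · intro eps heps
    filter_upwards [f1 eps heps] with l k1 hl z hz _ hzt
    exact k1 (hK l hl) z hz hzt

end Pool.Agent.TBirX
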