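import Pool.Agent.TBirX.Def

/-!
# The exponent of a jump

`- ((v - l) / (u - l))` is not `0` near a point `q` of the open segment, and a positive real number at `q`: `(v - q) / (u - q)` is negative. `bet_re`: the logarithm is real there. `bet_lin`: `re bet - 1 / 2 = - im (log (- ((v - l) / (u - l)))) / (2 pi)`; with `l = u + s (v - u)`, `s` near a point of `(0, 1)`, it is
`- arg ((1 - s) / s) / (2 pi)`, `arg (1 - s) = - im s / |1 - s| + ..`, so it is comparable with `im s`, and `re (I / (v - u) * (l - q)) = - im s`.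
-/

set_option autoImplicit false

open MeasureTheory Complex Set Filter Topology Metric AddCircle
open scoped ComplexConjugate InnerProductSpace ENNReal

namespace Pool.Agent.TBirX

open Pool.Agent.TBir Pool.Agent.TBirG Pool.Agent.TBirC Pool.Agent.TBirJ Pool.Agent.TBirK
open Pool.Agent.TBirN
open Pool.Agent.TBirP (E qT)

variable {u v q : ℂ}

private theorem Pb_re (u v l : ℂ) :
    (bet u v l).re = 1 / 2 - arg (-((v - l) / (u - l))) / (2 * Real.pi) := by
  unfold bet
  have h1 : (I / (2 * (Real.pi : ℂ)) : ℂ) = ((1 / (2 * Real.pi) : ℝ) : ℂ) * I := by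
    push_cast
    ring
  have h2 : ((1 / 2 : ℂ)).re = 1 / 2 := by norm_num
  rw [h1, Complex.add_re, mul_assoc, Complex.re_ofReal_mul, Complex.I_mul_re, Complex.log_im, h2]
  ring

private theorem Pb_seg (hq : q ∈ segment ℝ u v) (h1 : q ≠ u) (h2 : q ≠ v) :
    v - u ≠ 0 ∧ ∃ b : ℝ, 0 < b ∧ b < 1 ∧ q - u = b * (v - u) := by
  obtain ⟨a, b, ha, hb, hab, hq⟩ := hq
  have hq' : q - u = b * (v - u) := by
    have h3 : a = 1 - b := by linarith
    rw [← hq, h3, Complex.real_smul, Complex.real_smul]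
    push_cast
    ring
  refine ⟨?_, b, ?_, ?_, hq'⟩
  · intro h
    rw [h, mul_zero] at hq'
    exact h1 (sub_eq_zero.1 hq')
  · rcases hb.lt_or_eq with h | h
    · exact h
    · exfalso
      rw [← h] at hq'
      simp only [Complex.ofReal_zero, zero_mul] at hq'
      exact h1 (sub_eq_zero.1 hq')
  · by_contra h
    have h3 : b = 1 := by linarith [not_lt.1 h]
    rw [h3] at hq'
    simp only [Complex.ofReal_one, one_mul] at hq'
    exact h2 (sub_left_injective hq')

private theorem Pb_w {l s : ℂ} (hD : v - u ≠ 0) (hs : l - u = s * (v - u)) :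
    -((v - l) / (u - l)) = (1 - s) / s := by
  have h1 : v - l = (1 - s) * (v - u) := by linear_combination -hs
  have h2 : u - l = -(s * (v - u)) := by linear_combination -hs
  rw [h1, h2, div_neg, neg_neg, mul_div_mul_right _ _ hD]

theorem bet_re (hq : q ∈ segment ℝ u v) (h1 : q ≠ u) (h2 : q ≠ v) : (bet u v q).re = 1 / 2 := by
  obtain ⟨hD, b, hb0, hb1, hb⟩ := Pb_seg hq h1 h2
  have h3 : (1 - (b : ℂ)) / (b : ℂ) = (((1 - b) / b : ℝ) : ℂ) := by push_cast; ring
  rw [Pb_re, Pb_w hD hb, h3, Complex.arg_ofReal_of_nonneg (div_nonneg (by linarith) hb0.le)]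
  ring

theorem bet_diff (hq : q ∈ segment ℝ u v) (h1 : q ≠ u) (h2 : q ≠ v) :
    ∀ᶠ l in 𝓝 q, DifferentiableAt ℂ (bet u v) l := by
  obtain ⟨hD, b, hb0, hb1, hb⟩ := Pb_seg hq h1 h2
  have huq : u - q ≠ 0 := sub_ne_zero.2 h1.symm
  have hc : ContinuousAt (fun l : ℂ => -((v - l) / (u - l))) q :=
    ((continuousAt_const.sub continuousAt_id).div (continuousAt_const.sub continuousAt_id) huq).neg
  have h3 : (1 - (b : ℂ)) / (b : ℂ) = (((1 - b) / b : ℝ) : ℂ) := by push_cast; ring
  have hw : -((v - q) / (u - q)) ∈ slitPlane := by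
    rw [Pb_w hD hb, h3]
    exact Complex.ofReal_mem_slitPlane.2 (div_pos (by linarith) hb0)
  have h4 : ∀ᶠ l in 𝓝 q, -((v - l) / (u - l)) ∈ slitPlane :=
    hc.eventually (Complex.isOpen_slitPlane.mem_nhds hw)
  have h5 : ∀ᶠ l in 𝓝 q, u - l ≠ 0 :=
    (continuousAt_const.sub continuousAt_id).eventually_ne huq
  filter_upwards [h4, h5] with l hl1 hl2
  unfold bet
  have h6 : DifferentiableAt ℂ (fun l : ℂ => -((v - l) / (u - l))) l :=
    (((differentiableAt_const v).sub differentiableAt_id).div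
      ((differentiableAt_const u).sub differentiableAt_id) hl2).neg
  exact ((h6.clog hl1).const_mul _).const_add _

theorem bet_exp {l : ℂ} (h1 : l ≠ u) (h2 : l ≠ v) :
    exp (-(2 * Real.pi * I * bet u v l)) = (v - l) / (u - l) := by
  have hw : -((v - l) / (u - l)) ≠ 0 :=
    neg_ne_zero.2 (div_ne_zero (sub_ne_zero.2 h2.symm) (sub_ne_zero.2 h1.symm))
  have hpi : (Real.pi : ℂ) ≠ 0 := by exact_mod_cast Real.pi_ne_zero
  have h3 : -(2 * Real.pi * I * bet u v l) =
      -(Real.pi * I) + log (-((v - l) / (u - l))) := by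
    unfold bet
    have h4 : (2 * (Real.pi : ℂ) * I) * (I / (2 * Real.pi) * log (-((v - l) / (u - l)))) =
        - log (-((v - l) / (u - l))) := by
      have h5 : (2 * (Real.pi : ℂ) * I) * (I / (2 * Real.pi)) = -1 := by
        field_simp
        rw [Complex.I_sq]
      rw [← mul_assoc, h5]
      ring
    rw [mul_add, h4]
    ring
  rw [h3, Complex.exp_add, Complex.exp_log hw, Complex.exp_neg, Complex.exp_pi_mul_I]
  norm_num

theorem bet_bd (u v l : ℂ) : 0 ≤ (bet u v l).re ∧ (bet u v l).re < 1 := by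
  rw [Pb_re]
  have hpi := Real.pi_pos
  have h1 := Complex.arg_le_pi (-((v - l) / (u - l)))
  have h2 := Complex.neg_pi_lt_arg (-((v - l) / (u - l)))
  constructor
  · have h3 : arg (-((v - l) / (u - l))) / (2 * Real.pi) ≤ 1 / 2 := by
      rw [div_le_iff₀ (by positivity)]
      linarith
    linarith
  · have h3 : -(1 / 2) < arg (-((v - l) / (u - l))) / (2 * Real.pi) := by
      rw [lt_div_iff₀ (by positivity)]
      linarith
    linarith

theorem bet_ne {l : ℂ} (h : l ∉ segment ℝ u v) : (bet u v l).re ≠ 1 / 2 := by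
  intro h1
  rw [Pb_re] at h1
  have hpi := Real.pi_pos
  have h2 : arg (-((v - l) / (u - l))) = 0 := by
    have h3 : arg (-((v - l) / (u - l))) / (2 * Real.pi) = 0 := by linarith
    rcases div_eq_zero_iff.1 h3 with h4 | h4
    · exact h4
    · exfalso
      linarith
  have hul : u - l ≠ 0 := by
    intro h3
    apply h
    rw [← sub_eq_zero.1 h3]
    exact left_mem_segment ℝ u v
  obtain ⟨h3, h4⟩ := Complex.arg_eq_zero_iff.1 h2
  set r : ℝ := (-((v - l) / (u - l))).re with hr
  have h5 : -((v - l) / (u - l)) = (r : ℂ) := by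
    apply Complex.ext
    · rw [Complex.ofReal_re]
    · rw [Complex.ofReal_im]
      exact h4
  have h6 : -(v - l) = r * (u - l) := by
    rw [← h5]
    field_simp
  apply h
  have hr1 : (1 + r) ≠ 0 := by positivity
  have hr2 : (1 + (r : ℂ)) ≠ 0 := by exact_mod_cast hr1
  refine ⟨r / (1 + r), 1 / (1 + r), by positivity, by positivity, by field_simp; ring, ?_⟩
  rw [Complex.real_smul, Complex.real_smul]
  push_cast
  field_simp
  linear_combination -h6

theorem bet_lin (hq : q ∈ segment ℝ u v) (h1 : q ≠ u) (h2 : q ≠ v) : ∃ c C : ℝ, 0 < c ∧ 0 < C ∧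
    ∀ᶠ l in 𝓝 q, (1 / 2 < (bet u v l).re ↔ (I / (v - u) * (l - q)).re < 0) ∧
      ((I / (v - u) * (l - q)).re < 0 →
        c * -(I / (v - u) * (l - q)).re ≤ (bet u v l).re - 1 / 2 ∧
        (bet u v l).re - 1 / 2 ≤ C * -(I / (v - u) * (l - q)).re) := by
  obtain ⟨hD, b, hb0, hb1, hb⟩ := Pb_seg hq h1 h2
  have hpi := Real.pi_pos
  set m : ℝ := b * (1 - b) with hm
  have hm0 : 0 < m := mul_pos hb0 (by linarith)
  have hf : Tendsto (fun l : ℂ => (l - u) / (v - u)) (𝓝 q) (𝓝 (b : ℂ)) := by
    have h3 : (q - u) / (v - u) = (b : ℂ) := by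
      rw [hb, mul_div_assoc, div_self hD, mul_one]
    rw [← h3]
    exact ((continuous_id.sub continuous_const).div_const (v - u)).tendsto q
  have hbc : (b : ℂ) ≠ 0 := by exact_mod_cast hb0.ne'
  have hg : Tendsto (fun s : ℂ => ‖s‖ * ‖1 - s‖) (𝓝 (b : ℂ)) (𝓝 m) := by
    have h3 : ‖(b : ℂ)‖ * ‖1 - (b : ℂ)‖ = m := by
      have h4 : (1 - (b : ℂ)) = ((1 - b : ℝ) : ℂ) := by push_cast; ring
      rw [h4, Complex.norm_real, Complex.norm_real, Real.norm_of_nonneg hb0.le,
        Real.norm_of_nonneg (by linarith)]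
    rw [← h3]
    exact (continuous_norm.mul (continuous_const.sub continuous_id).norm).tendsto _
  have hk : Tendsto (fun s : ℂ => ((1 - s) / s).re) (𝓝 (b : ℂ)) (𝓝 ((1 - b) / b)) := by
    have h3 : ((1 - (b : ℂ)) / (b : ℂ)).re = (1 - b) / b := by
      have h4 : (1 - (b : ℂ)) / (b : ℂ) = (((1 - b) / b : ℝ) : ℂ) := by push_cast; ring
      rw [h4, Complex.ofReal_re]
    rw [← h3]
    exact (Complex.continuous_re.continuousAt.comp
      ((continuousAt_const.sub continuousAt_id).div continuousAt_id hbc))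
  refine ⟨1 / (4 * Real.pi * m), 1 / (2 * m), by positivity, by positivity, ?_⟩
  have hgl := (hg.comp hf).eventually (lt_mem_nhds (show m / 2 < m by linarith))
  have hgu := (hg.comp hf).eventually (gt_mem_nhds (show m < 2 * m by linarith))
  have hkl := (hk.comp hf).eventually (lt_mem_nhds (show 0 < (1 - b) / b from
    div_pos (by linarith) hb0))
  filter_upwards [hgl, hgu, hkl] with l hl1 hl2 hl3
  simp only [Function.comp_apply] at hl1 hl2 hl3
  set s : ℂ := (l - u) / (v - u) with hs
  have hsl : l - u = s * (v - u) := by rw [hs, div_mul_cancel₀ _ hD]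
  have hsn : 0 < ‖s‖ * ‖1 - s‖ := by linarith
  have hs0 : s ≠ 0 := by
    intro h3
    rw [h3] at hsn
    simp at hsn
  have hs1 : 1 - s ≠ 0 := by
    intro h3
    rw [h3] at hsn
    simp at hsn
  have hre : (I / (v - u) * (l - q)).re = -s.im := by
    have h3 : I / (v - u) * (l - q) = I * (s - b) := by
      have h4 : l - q = (s - b) * (v - u) := by linear_combination hsl - hb
      rw [h4]
      field_simp
    rw [h3, Complex.I_mul_re, Complex.sub_im, Complex.ofReal_im, sub_zero]
  have hwe : -((v - l) / (u - l)) = (1 - s) / s := Pb_w hD hsl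
  set w : ℂ := (1 - s) / s with hw
  have hwim : w.im = -s.im / ‖s‖ ^ 2 := by
    have h3 : w = s⁻¹ - 1 := by
      rw [hw]
      field_simp
    rw [h3, Complex.sub_im, Complex.inv_im, Complex.one_im, sub_zero, Complex.normSq_eq_norm_sq]
  have hwn : ‖w‖ = ‖1 - s‖ / ‖s‖ := by rw [hw, norm_div]
  have hsp : 0 < ‖s‖ := norm_pos_iff.2 hs0
  have hsp1 : 0 < ‖1 - s‖ := norm_pos_iff.2 hs1
  have hsin : Real.sin (-arg w) = s.im / (‖s‖ * ‖1 - s‖) := by
    rw [Real.sin_neg, Complex.sin_arg, hwim, hwn]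
    field_simp
  have hbr : (bet u v l).re = 1 / 2 - arg w / (2 * Real.pi) := by
    rw [Pb_re, hwe]
  rw [hre, hbr]
  have hiff : arg w < 0 ↔ 0 < s.im := by
    rw [Complex.arg_neg_iff, hwim]
    constructor
    · intro h3
      have h4 : -s.im < 0 := by
        by_contra h5
        exact absurd h3 (not_lt.2 (div_nonneg (not_lt.1 h5) (by positivity)))
      linarith
    · intro h3
      exact div_neg_of_neg_of_pos (by linarith) (by positivity)
  refine ⟨?_, ?_⟩
  · constructor
    · intro h3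
      have h4 : arg w / (2 * Real.pi) < 0 := by linarith
      have h5 : arg w < 0 := by
        by_contra h6
        exact absurd h4 (not_lt.2 (div_nonneg (not_lt.1 h6) (by positivity)))
      have := hiff.1 h5
      linarith
    · intro h3
      have h4 : arg w < 0 := hiff.2 (by linarith)
      have h5 : arg w / (2 * Real.pi) < 0 := div_neg_of_neg_of_pos h4 (by positivity)
      linarith
  · intro h3
    have hi : 0 < s.im := by linarith
    have ha : arg w < 0 := hiff.2 hi
    have hab : |arg w| ≤ Real.pi / 2 := Complex.abs_arg_le_pi_div_two_iff.2 hl3.le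
    have hth0 : 0 ≤ -arg w := by linarith
    have hth1 : -arg w ≤ Real.pi / 2 := by
      rw [abs_of_neg ha] at hab
      exact hab
    have hlo : s.im / (‖s‖ * ‖1 - s‖) ≤ -arg w := by
      rw [← hsin]
      exact Real.sin_le hth0
    have hup : 2 / Real.pi * (-arg w) ≤ s.im / (‖s‖ * ‖1 - s‖) := by
      rw [← hsin]
      exact Real.mul_le_sin hth0 hth1
    have e1 : (1 : ℝ) / 2 - arg w / (2 * Real.pi) - 1 / 2 = (-arg w) / (2 * Real.pi) := by ring
    rw [e1, neg_neg]
    constructor
    · have h4 : s.im / (2 * m) ≤ s.im / (‖s‖ * ‖1 - s‖) :=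
        div_le_div_of_nonneg_left hi.le hsn hl2.le
      have h5 : 1 / (4 * Real.pi * m) * s.im = (s.im / (2 * m)) / (2 * Real.pi) := by
        field_simp
        ring
      rw [h5]
      gcongr
      exact h4.trans hlo
    · have h4 : s.im / (‖s‖ * ‖1 - s‖) ≤ s.im / (m / 2) :=
        div_le_div_of_nonneg_left hi.le (by positivity) hl1.le
      have h5 : 1 / (2 * m) * s.im = (Real.pi / 2 * (s.im / (m / 2))) / (2 * Real.pi) := by
        field_simp
      rw [h5]
      gcongr
      have h6 := hup.trans h4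
      have h7 : -arg w = Real.pi / 2 * (2 / Real.pi * (-arg w)) := by
        field_simp
      rw [h7]
      gcongr

end Pool.Agent.TBirX
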