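import Pool.Agent.TBirX.Def
import Pool.Agent.TBirK.Wjk

/-!
# Winding numbers of products

`Wj f F 0 n`: `f = z ^ n * exp h` off `F`. `wm_mul`: if `f` has equal one-sided limits at `t`, then `exp` of the jump of `h` is `1` and `|im jump| < pi`, so the jump is `0`. `wm_eta`: `h = b log (- conj t z)` with the limits `± I pi b`, the jump is `- 2 pi I b`; if `k = 1`: `- conj t z exp ((b - 1) log (- conj t z))`. `wm_lin`: `z exp (log (1 - w / z))` or
`- w exp (log (1 - z / w))`. `wm_pert`: `|f|` is bounded below, `g = f exp (log (g / f))`, the jumps of the imaginary part of `h` are at most `pi - δ'`.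
-/

set_option autoImplicit false

open MeasureTheory Complex Set Filter Topology Metric AddCircle
open scoped ComplexConjugate InnerProductSpace ENNReal

namespace Pool.Agent.TBirX

open Pool.Agent.TBir Pool.Agent.TBirG Pool.Agent.TBirC Pool.Agent.TBirJ Pool.Agent.TBirK
open Pool.Agent.TBirN
open Pool.Agent.TBirP (E qT)

variable {F : Finset ℂ} {f g : ℂ → ℂ} {n m : ℤ}

open Pool.Agent.TBirJ.WjA

private theorem Wm_argE {x : ℝ} (h1 : -Real.pi < x) (h2 : x ≤ Real.pi) : arg (E x) = x := by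
  unfold E
  rw [Complex.exp_mul_I]
  exact Complex.arg_cos_add_sin_mul_I ⟨h1, h2⟩

private theorem Wm_logE {x : ℝ} (h1 : -Real.pi < x) (h2 : x ≤ Real.pi) : log (E x) = x * I := by
  unfold E
  rw [Complex.log_exp]
  · simpa using h1
  · simpa using h2

private theorem Wm_small : ∀ᶠ x : ℝ in 𝓝[>] 0, 0 < x ∧ x < Real.pi := by
  have h1 : ∀ᶠ x : ℝ in 𝓝[>] 0, x < Real.pi :=
    mem_nhdsWithin_of_mem_nhds (Iio_mem_nhds Real.pi_pos)
  have h2 : ∀ᶠ x : ℝ in 𝓝[>] 0, 0 < x := eventually_mem_nhdsWithin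
  exact h2.and h1

private theorem Wm_ne1 {x : ℝ} (h1 : -Real.pi < x) (h2 : x ≤ Real.pi) (h0 : x ≠ 0) : E x ≠ 1 := by
  intro h
  have h3 := Wm_argE h1 h2
  rw [h, Complex.arg_one] at h3
  exact h0 h3.symm

private theorem Wm_t0 {t : ℂ} (ht : ‖t‖ = 1) : t ≠ 0 := by
  rintro rfl
  simp at ht

private theorem Wm_notin (F : Finset ℂ) {t : ℂ} (ht : ‖t‖ = 1) (s : ℝ → ℝ) (hs : Tendsto (fun x : ℝ => t * E (s x)) (𝓝[>] 0) (𝓝 t))
    (h1 : ∀ x, 0 < x → x < Real.pi → E (s x) ≠ 1) : ∀ᶠ x : ℝ in 𝓝[>] 0, t * E (s x) ∉ F := by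
  have h2 : ∀ t' ∈ F, ∀ᶠ x : ℝ in 𝓝[>] 0, t * E (s x) ≠ t' := by
    intro t' _
    by_cases h : t' = t
    · rw [h]
      filter_upwards [Wm_small] with x hx h3
      apply h1 x hx.1 hx.2
      have h4 : t * E (s x) = t * 1 := by rw [h3, mul_one]
      exact mul_left_cancel₀ (Wm_t0 ht) h4
    · exact hs.eventually_ne (Ne.symm h)
  have h3 := (Filter.eventually_all_finset F).2 h2
  filter_upwards [h3] with x hx hmem
  exact hx _ hmem rfl

private theorem Wm_notR (F : Finset ℂ) {t : ℂ} (ht : ‖t‖ = 1) : ∀ᶠ x : ℝ in 𝓝[>] 0, t * E x ∉ F :=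
  Wm_notin F ht (fun x => x) (tend_R t) fun x h0 h1 => Wm_ne1 (by linarith [Real.pi_pos]) h1.le h0.ne'

private theorem Wm_notL (F : Finset ℂ) {t : ℂ} (ht : ‖t‖ = 1) : ∀ᶠ x : ℝ in 𝓝[>] 0, t * E (-x) ∉ F :=
  Wm_notin F ht (fun x => -x) (tend_L t) fun x h0 h1 => Wm_ne1 (by linarith) (by linarith) (by linarith)

/-- The limit of `z ^ n * exp (h z)` along a curve. -/
private theorem Wm_lim {t a : ℂ} (ht : ‖t‖ = 1) {h : ℂ → ℂ} {s : ℝ → ℝ} (hs : Tendsto (fun x : ℝ => t * E (s x)) (𝓝[>] 0) (𝓝 t))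
    (ha : Tendsto (fun x : ℝ => h (t * E (s x))) (𝓝[>] 0) (𝓝 a)) (n : ℤ) :
    Tendsto (fun x : ℝ => (t * E (s x)) ^ n * exp (h (t * E (s x)))) (𝓝[>] 0) (𝓝 (t ^ n * exp a)) :=
  (hs.zpow₀ n (Or.inl (Wm_t0 ht))).mul ((Complex.continuous_exp.tendsto a).comp ha)

private theorem Wm_jump {t : ℂ} (ht : ‖t‖ = 1) {h : ℂ → ℂ} {a b c : ℂ} (he : ∀ z ∈ sphere (0 : ℂ) 1, z ∉ F → f z - 0 = z ^ n * exp (h z))
    (ha : Tendsto (fun x : ℝ => h (t * E (-x))) (𝓝[>] 0) (𝓝 a)) (hb : Tendsto (fun x : ℝ => h (t * E x)) (𝓝[>] 0) (𝓝 b))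
    (hab : |(b - a).im| < Real.pi) (hL : Tendsto (fun x : ℝ => f (t * E (-x))) (𝓝[>] 0) (𝓝 c))
    (hR : Tendsto (fun x : ℝ => f (t * E x)) (𝓝[>] 0) (𝓝 c)) : b = a := by
  have h1 : Tendsto (fun x : ℝ => f (t * E (-x))) (𝓝[>] 0) (𝓝 (t ^ n * exp a)) := by
    refine (Wm_lim (s := fun x => -x) ht (tend_L t) ha n).congr' ?_
    filter_upwards [Wm_notL F ht] with x hx
    rw [← he _ (mem_sph ht _) hx, sub_zero]
  have h2 : Tendsto (fun x : ℝ => f (t * E x)) (𝓝[>] 0) (𝓝 (t ^ n * exp b)) := by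
    refine (Wm_lim (s := fun x => x) ht (tend_R t) hb n).congr' ?_
    filter_upwards [Wm_notR F ht] with x hx
    rw [← he _ (mem_sph ht _) hx, sub_zero]
  have h3 : t ^ n * exp b = t ^ n * exp a := by
    rw [tendsto_nhds_unique h1 hL, tendsto_nhds_unique h2 hR]
  have h4 := mul_left_cancel₀ (zpow_ne_zero n (Wm_t0 ht)) h3
  obtain ⟨k, hk⟩ := Complex.exp_eq_exp_iff_exists_int.1 h4
  have h5 : (b - a).im = k * (2 * Real.pi) := by
    rw [hk]
    simp
  rw [h5, abs_mul, abs_of_pos (by positivity : (0 : ℝ) < 2 * Real.pi)] at hab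
  have h6 : |(k : ℝ)| < 1 := by
    by_contra hc
    push Not at hc
    nlinarith [Real.pi_pos]
  have h7 : k = 0 := by
    rw [← Int.cast_abs] at h6
    have h8 : |k| < 1 := by exact_mod_cast h6
    exact Int.abs_lt_one_iff.1 h8
  rw [hk, h7]
  simp

theorem wm_mul (hF : ∀ t ∈ F, ‖t‖ = 1) (hf : Wj f F 0 n) (hg : Wj g F 0 m)
    (hd : ∀ t ∈ F, ∃ a : ℂ, a ≠ 0 ∧
      ((Tendsto (fun x : ℝ => f (t * E (-x))) (𝓝[>] 0) (𝓝 a) ∧
        Tendsto (fun x : ℝ => f (t * E x)) (𝓝[>] 0) (𝓝 a)) ∨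
      (Tendsto (fun x : ℝ => g (t * E (-x))) (𝓝[>] 0) (𝓝 a) ∧
        Tendsto (fun x : ℝ => g (t * E x)) (𝓝[>] 0) (𝓝 a)))) :
    Wj (fun z => f z * g z) F 0 (n + m) := by
  obtain ⟨h1, hc1, hl1, he1⟩ := hf
  obtain ⟨h2, hc2, hl2, he2⟩ := hg
  refine ⟨fun z => h1 z + h2 z, hc1.add hc2, fun t ht => ?_, fun z hz hzF => ?_⟩
  · obtain ⟨a1, b1, ha1, hb1, hab1⟩ := hl1 t ht
    obtain ⟨a2, b2, ha2, hb2, hab2⟩ := hl2 t ht
    refine ⟨a1 + a2, b1 + b2, ha1.add ha2, hb1.add hb2, ?_⟩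
    obtain ⟨a, -, h | h⟩ := hd t ht
    · have h3 := Wm_jump (hF t ht) he1 ha1 hb1 hab1 h.1 h.2
      rw [h3, add_sub_add_left_eq_sub]
      exact hab2
    · have h3 := Wm_jump (hF t ht) he2 ha2 hb2 hab2 h.1 h.2
      rw [h3, add_sub_add_right_eq_sub]
      exact hab1
  · have hz0 : z ≠ 0 := Wm_t0 (mem_sphere_zero_iff_norm.1 hz)
    have e1 := he1 z hz hzF
    have e2 := he2 z hz hzF
    simp only [sub_zero] at e1 e2 ⊢
    rw [e1, e2, zpow_add₀ hz0, Complex.exp_add]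
    ring

theorem wm_pow (F : Finset ℂ) (n : ℤ) : Wj (fun z => z ^ n) F 0 n := by
  refine ⟨fun _ => 0, continuousOn_const, fun t _ => ⟨0, 0, tendsto_const_nhds, tendsto_const_nhds, ?_⟩,
    fun z _ _ => ?_⟩
  · simpa using Real.pi_pos
  · simp

/-- The points `- conj t z`. -/
private theorem Wm_slit {t z : ℂ} (ht : ‖t‖ = 1) (hz : ‖z‖ = 1) (hne : z ≠ t) : -(conj t * z) ∈ slitPlane := by
  have h0 : ‖-(conj t * z)‖ = 1 := by rw [norm_neg, norm_mul, RCLike.norm_conj, ht, hz, one_mul]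
  rw [Complex.mem_slitPlane_iff_arg]
  refine ⟨fun h => hne ?_, fun h => ?_⟩
  · rw [Complex.arg_eq_pi_iff] at h
    have h1 : -(conj t * z) = -1 := by
      have h2 : -(conj t * z) = (((-(conj t * z)).re : ℝ) : ℂ) := by
        apply Complex.ext
        · rw [ofReal_re]
        · rw [h.2, ofReal_im]
      have h3 : |(-(conj t * z)).re| = 1 := by
        rw [h2, Complex.norm_real] at h0
        exact h0
      rw [abs_of_neg h.1] at h3
      rw [h2]
      have h4 : (-(conj t * z)).re = -1 := by linarith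
      rw [h4]
      simp
    have h5 : conj t * z = 1 := neg_injective h1
    have h6 : t * conj t = 1 := by
      rw [Complex.mul_conj, Complex.normSq_eq_norm_sq, ht]
      simp
    calc z = t * conj t * z := by rw [h6, one_mul]
      _ = t * (conj t * z) := mul_assoc _ _ _
      _ = t := by rw [h5, mul_one]
  · rw [h, norm_zero] at h0
    exact zero_ne_one h0

private theorem Wm_ct {t : ℂ} (ht : ‖t‖ = 1) : conj t * t = 1 := by
  rw [mul_comm, Complex.mul_conj, Complex.normSq_eq_norm_sq, ht]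
  simp

/-- The one-sided limits of `log (- conj t z)` at `t`. -/
private theorem Wm_etaL {t : ℂ} (ht : ‖t‖ = 1) :
    Tendsto (fun x : ℝ => log (-(conj t * (t * E (-x))))) (𝓝[>] 0) (𝓝 (Real.pi * I)) := by
  have h1 : Tendsto (fun x : ℝ => ((Real.pi - x : ℝ) : ℂ) * I) (𝓝[>] 0) (𝓝 (Real.pi * I)) := by
    have h2 : Continuous fun x : ℝ => ((Real.pi - x : ℝ) : ℂ) * I := by fun_prop
    have h3 := h2.tendsto 0
    rw [sub_zero] at h3
    exact h3.mono_left nhdsWithin_le_nhds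
  refine h1.congr' ?_
  filter_upwards [Wm_small] with x hx
  have h4 : -(conj t * (t * E (-x))) = E (Real.pi - x) := by
    rw [← mul_assoc, Wm_ct ht, one_mul]
    unfold E
    rw [← neg_one_mul, ← Complex.exp_pi_mul_I, ← Complex.exp_add]
    congr 1
    push_cast
    ring
  rw [h4, Wm_logE (by linarith) (by linarith)]

private theorem Wm_etaR {t : ℂ} (ht : ‖t‖ = 1) :
    Tendsto (fun x : ℝ => log (-(conj t * (t * E x)))) (𝓝[>] 0) (𝓝 (-(Real.pi * I))) := by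
  have h1 : Tendsto (fun x : ℝ => ((x - Real.pi : ℝ) : ℂ) * I) (𝓝[>] 0) (𝓝 (-(Real.pi * I))) := by
    have h2 : Continuous fun x : ℝ => ((x - Real.pi : ℝ) : ℂ) * I := by fun_prop
    have h3 := h2.tendsto 0
    have h5 : ((0 - Real.pi : ℝ) : ℂ) * I = -(Real.pi * I) := by
      push_cast
      ring
    rw [h5] at h3
    exact h3.mono_left nhdsWithin_le_nhds
  refine h1.congr' ?_
  filter_upwards [Wm_small] with x hx
  have h4 : -(conj t * (t * E x)) = E (x - Real.pi) := by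
    rw [← mul_assoc, Wm_ct ht, one_mul]
    unfold E
    have h6 : (-1 : ℂ) = exp (-(Real.pi * I)) := by
      rw [Complex.exp_neg, Complex.exp_pi_mul_I]
      norm_num
    rw [← neg_one_mul, h6, ← Complex.exp_add]
    congr 1
    push_cast
    ring
  rw [h4, Wm_logE (by linarith [hx.1]) (by linarith [hx.2])]

private theorem Wm_eta (hF : ∀ t ∈ F, ‖t‖ = 1) {t β C : ℂ} (ht : t ∈ F) (hβ : |β.re| < 1 / 2) :
    ContinuousOn (fun z => β * log (-(conj t * z)) + C) (sphere 0 1 \ F) ∧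
    ∀ t' ∈ F, ∃ a b : ℂ, Tendsto (fun x : ℝ => β * log (-(conj t * (t' * E (-x)))) + C) (𝓝[>] 0) (𝓝 a) ∧
      Tendsto (fun x : ℝ => β * log (-(conj t * (t' * E x))) + C) (𝓝[>] 0) (𝓝 b) ∧ |(b - a).im| < Real.pi := by
  have hc : ∀ z : ℂ, ‖z‖ = 1 → z ≠ t → ContinuousAt (fun z => β * log (-(conj t * z)) + C) z := by
    intro z hz hzt
    have h1 : ContinuousAt (fun z : ℂ => -(conj t * z)) z := by fun_prop
    exact ((h1.clog (Wm_slit (hF t ht) hz hzt)).const_mul β).add continuousAt_const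
  refine ⟨fun z hz => ?_, fun t' ht' => ?_⟩
  · refine (hc z (mem_sphere_zero_iff_norm.1 hz.1) ?_).continuousWithinAt
    rintro rfl
    exact hz.2 ht
  · by_cases h : t' = t
    · subst h
      refine ⟨β * (Real.pi * I) + C, β * (-(Real.pi * I)) + C,
        ((Wm_etaL (hF t' ht)).const_mul β).add_const C, ((Wm_etaR (hF t' ht)).const_mul β).add_const C, ?_⟩
      have h1 : (β * (-(Real.pi * I)) + C - (β * (Real.pi * I) + C)).im = -(2 * Real.pi * β.re) := by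
        simp
        ring
      rw [h1, abs_neg, abs_mul, abs_of_pos (by positivity : (0 : ℝ) < 2 * Real.pi)]
      nlinarith [Real.pi_pos]
    · have h1 := hc t' (hF t' ht') h
      refine ⟨_, _, h1.tendsto.comp (tend_L t'), h1.tendsto.comp (tend_R t'), ?_⟩
      rw [sub_self, Complex.zero_im, abs_zero]
      exact Real.pi_pos

theorem wm_eta (hF : ∀ t ∈ F, ‖t‖ = 1) {t b : ℂ} (ht : t ∈ F) {k : ℤ}
    (h : (k = 1 ∧ 1 / 2 < b.re ∧ b.re < 3 / 2) ∨ (k = 0 ∧ |b.re| < 1 / 2)) :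
    Wj (fun z => (-(conj t * z)) ^ b) F 0 k := by
  have hw : ∀ z ∈ sphere (0 : ℂ) 1, z ∉ F → -(conj t * z) ≠ 0 := by
    intro z hz hzF
    refine Complex.slitPlane_ne_zero (Wm_slit (hF t ht) (mem_sphere_zero_iff_norm.1 hz) ?_)
    rintro rfl
    exact hzF ht
  rcases h with ⟨rfl, h1, h2⟩ | ⟨rfl, h1⟩
  · have hβ : |(b - 1).re| < 1 / 2 := by
      rw [Complex.sub_re, Complex.one_re, abs_lt]
      constructor <;> linarith
    obtain ⟨hc, hl⟩ := Wm_eta hF (C := log (-conj t)) ht hβ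
    refine ⟨_, hc, hl, fun z hz hzF => ?_⟩
    have h3 := hw z hz hzF
    have h4 : -conj t ≠ 0 := by
      rw [neg_ne_zero]
      intro h5
      have h6 := Wm_ct (hF t ht)
      rw [h5, zero_mul] at h6
      exact zero_ne_one h6
    simp only [sub_zero]
    rw [Complex.cpow_def_of_ne_zero h3, Complex.exp_add, Complex.exp_log h4, zpow_one]
    have h7 : exp (log (-(conj t * z)) * b) = -(conj t * z) * exp ((b - 1) * log (-(conj t * z))) := by
      have h8 : log (-(conj t * z)) * b = log (-(conj t * z)) + (b - 1) * log (-(conj t * z)) := by ring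
      rw [h8, Complex.exp_add, Complex.exp_log h3]
    rw [h7]
    ring
  · obtain ⟨hc, hl⟩ := Wm_eta hF (C := 0) ht h1
    refine ⟨_, hc, hl, fun z hz hzF => ?_⟩
    simp only [sub_zero]
    rw [Complex.cpow_def_of_ne_zero (hw z hz hzF), add_zero, zpow_zero, one_mul, mul_comm]

private theorem Wm_cont {h : ℂ → ℂ} (hF : ∀ t ∈ F, ‖t‖ = 1) (hc : ∀ z : ℂ, ‖z‖ = 1 → ContinuousAt h z)
    (he : ∀ z ∈ sphere (0 : ℂ) 1, z ∉ F → f z - 0 = z ^ n * exp (h z)) : Wj f F 0 n := by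
  refine ⟨h, fun z hz => (hc z (mem_sphere_zero_iff_norm.1 hz.1)).continuousWithinAt, fun t ht => ?_, he⟩
  have h1 := hc t (hF t ht)
  refine ⟨_, _, h1.tendsto.comp (tend_L t), h1.tendsto.comp (tend_R t), ?_⟩
  rw [sub_self, Complex.zero_im, abs_zero]
  exact Real.pi_pos

private theorem Wm_one {s : ℂ} (hs : ‖s‖ < 1) : 1 - s ∈ slitPlane := by
  left
  rw [Complex.sub_re, Complex.one_re]
  have := Complex.re_le_norm s
  linarith

theorem wm_lin (hF : ∀ t ∈ F, ‖t‖ = 1) {w : ℂ} {k : ℤ}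
    (h : (k = 1 ∧ ‖w‖ < 1) ∨ (k = 0 ∧ 1 < ‖w‖)) : Wj (fun z => z - w) F 0 k := by
  rcases h with ⟨rfl, h1⟩ | ⟨rfl, h1⟩
  · have hs : ∀ z : ℂ, ‖z‖ = 1 → 1 - w / z ∈ slitPlane := by
      intro z hz
      apply Wm_one
      rw [norm_div, hz, div_one]
      exact h1
    refine Wm_cont (h := fun z => log (1 - w / z)) hF (fun z hz => ?_) fun z hz hzF => ?_
    · have hz0 := Wm_t0 hz
      have h2 : ContinuousAt (fun z : ℂ => 1 - w / z) z :=
        continuousAt_const.sub (continuousAt_const.div continuousAt_id hz0)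
      exact h2.clog (hs z hz)
    · have hz1 := mem_sphere_zero_iff_norm.1 hz
      have hz0 := Wm_t0 hz1
      rw [Complex.exp_log (Complex.slitPlane_ne_zero (hs z hz1)), zpow_one, sub_zero]
      field_simp
  · have hw0 : w ≠ 0 := by
      rintro rfl
      rw [norm_zero] at h1
      linarith
    have hs : ∀ z : ℂ, ‖z‖ = 1 → 1 - z / w ∈ slitPlane := by
      intro z hz
      apply Wm_one
      rw [norm_div, hz, div_lt_one (by linarith)]
      exact h1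
    refine Wm_cont (h := fun z => log (-w) + log (1 - z / w)) hF (fun z hz => ?_) fun z hz hzF => ?_
    · have h2 : ContinuousAt (fun z : ℂ => 1 - z / w) z := by fun_prop
      exact continuousAt_const.add (h2.clog (hs z hz))
    · have hz1 := mem_sphere_zero_iff_norm.1 hz
      rw [Complex.exp_add, Complex.exp_log (neg_ne_zero.2 hw0),
        Complex.exp_log (Complex.slitPlane_ne_zero (hs z hz1)), zpow_zero, one_mul, sub_zero]
      field_simp
      ring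

/-- A function with one-sided limits is bounded. -/
private theorem Wm_bdd {h : ℂ → ℂ} (hF : ∀ t ∈ F, ‖t‖ = 1) (hc : ContinuousOn h (sphere 0 1 \ F))
    (hl : ∀ t ∈ F, ∃ a b : ℂ, Tendsto (fun x : ℝ => h (t * E (-x))) (𝓝[>] 0) (𝓝 a) ∧
      Tendsto (fun x : ℝ => h (t * E x)) (𝓝[>] 0) (𝓝 b)) : ∃ M : ℝ, ∀ z ∈ sphere (0 : ℂ) 1, z ∉ F → ‖h z‖ ≤ M := by
  classical
  choose! a b ha hb using hl
  obtain ⟨r, hr⟩ := exists_rad hF
  obtain ⟨kap, hkap⟩ : ∃ kap : ℂ → ℂ, kap = fun t => b t - a t := ⟨_, rfl⟩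
  obtain ⟨g, hg, hgG, -⟩ := ext_cont hF
    (G := fun z => h z - ∑ t ∈ F, kap t * (ch r t z : ℂ)) (hc.sub (sum_cont hF hr kap)) (by
      intro t ht
      obtain ⟨c, hc1, hc2⟩ := sum_lim hF hr kap ht
      refine ⟨(a t + b t) / 2 - c, ?_, ?_⟩
      · have h1 := (ha t ht).sub hc1
        have h2 : a t - (c - kap t / 2) = (a t + b t) / 2 - c := by
          rw [hkap]
          ring
        rw [h2] at h1
        exact h1
      · have h1 := (hb t ht).sub hc2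
        have h2 : b t - (c + kap t / 2) = (a t + b t) / 2 - c := by
          rw [hkap]
          ring
        rw [h2] at h1
        exact h1)
  obtain ⟨M, hM⟩ := (isCompact_sphere (0 : ℂ) 1).exists_bound_of_continuousOn hg
  refine ⟨M + ∑ t ∈ F, ‖kap t‖, fun z hz hzF => ?_⟩
  have h1 := hgG z hz hzF
  have h2 : h z = g z + ∑ t ∈ F, kap t * (ch r t z : ℂ) := by
    rw [h1]
    ring
  rw [h2]
  refine (norm_add_le _ _).trans (add_le_add (hM z hz) ?_)
  refine (norm_sum_le _ _).trans (Finset.sum_le_sum fun t _ => ?_)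
  rw [norm_mul, Complex.norm_real, Real.norm_eq_abs]
  calc ‖kap t‖ * |ch r t z| ≤ ‖kap t‖ * 1 :=
        mul_le_mul_of_nonneg_left ((ch_abs hr.1 z).trans (by norm_num)) (norm_nonneg _)
    _ = ‖kap t‖ := mul_one _

private theorem Wm_log {s : ℂ} {ρ : ℝ} (hs : ‖s - 1‖ ≤ ρ) (hρ : ρ ≤ 1 / 2) : s ∈ slitPlane ∧ ‖log s‖ ≤ 3 / 2 * ρ := by
  have h1 : ‖s - 1‖ ≤ 1 / 2 := hs.trans hρ
  constructor
  · left
    have h2 := Complex.abs_re_le_norm (s - 1)
    rw [Complex.sub_re, Complex.one_re] at h2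
    have h3 := (abs_le.1 (h2.trans h1)).1
    linarith
  · have h2 := Complex.norm_log_one_add_half_le_self h1
    rw [add_sub_cancel] at h2
    linarith

theorem wm_pert (hF : ∀ t ∈ F, ‖t‖ = 1) (hf : Wj f F 0 n) : ∃ δ > 0, ∀ g : ℂ → ℂ,
    ContinuousOn g (sphere 0 1 \ F) →
    (∀ t ∈ F, ∃ a b : ℂ, Tendsto (fun x : ℝ => g (t * E (-x))) (𝓝[>] 0) (𝓝 a) ∧
      Tendsto (fun x : ℝ => g (t * E x)) (𝓝[>] 0) (𝓝 b)) →
    (∀ z ∈ sphere (0 : ℂ) 1, z ∉ F → ‖g z - f z‖ ≤ δ) → Wj g F 0 n := by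
  obtain ⟨h, hc, hl, he⟩ := hf
  obtain ⟨M, hM⟩ := Wm_bdd hF hc fun t ht => by
    obtain ⟨a, b, ha, hb, -⟩ := hl t ht
    exact ⟨a, b, ha, hb⟩
  choose! a b ha hb hab using hl
  obtain ⟨d, hd0, hd⟩ : ∃ d : ℝ, 0 < d ∧ ∀ t ∈ F, d < Real.pi - |(b t - a t).im| := by
    have h1 : ∀ᶠ d : ℝ in 𝓝[>] 0, ∀ t ∈ F, d < Real.pi - |(b t - a t).im| :=
      (Filter.eventually_all_finset F).2 fun t ht =>
        mem_nhdsWithin_of_mem_nhds (Iio_mem_nhds (sub_pos.2 (hab t ht)))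
    have h2 : ∀ᶠ d : ℝ in 𝓝[>] 0, 0 < d := eventually_mem_nhdsWithin
    obtain ⟨d, hd⟩ := (h2.and h1).exists
    exact ⟨d, hd.1, hd.2⟩
  obtain ⟨ρ, hρ⟩ : ∃ ρ : ℝ, ρ = min (1 / 2) (d / 3) := ⟨_, rfl⟩
  have hρ0 : 0 < ρ := by
    rw [hρ]
    exact lt_min (by norm_num) (by linarith)
  have hρ1 : ρ ≤ 1 / 2 := by
    rw [hρ]
    exact min_le_left _ _
  have hρ2 : ρ ≤ d / 3 := by
    rw [hρ]
    exact min_le_right _ _
  have hlow : ∀ z ∈ sphere (0 : ℂ) 1, z ∉ F → Real.exp (-M) ≤ ‖z ^ n * exp (h z)‖ := by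
    intro z hz hzF
    rw [norm_mul, norm_zpow, mem_sphere_zero_iff_norm.1 hz, one_zpow, one_mul, Complex.norm_exp]
    apply Real.exp_le_exp.2
    have h1 := (abs_le.1 (Complex.abs_re_le_norm (h z))).1
    have h2 := hM z hz hzF
    linarith
  refine ⟨Real.exp (-M) * ρ, by positivity, fun g hg hgl hgf => ?_⟩
  have hq : ∀ z ∈ sphere (0 : ℂ) 1, z ∉ F → ‖g z / (z ^ n * exp (h z)) - 1‖ ≤ ρ := by
    intro z hz hzF
    have h1 := hlow z hz hzF
    have h2 := hgf z hz hzF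
    have h3 := he z hz hzF
    rw [sub_zero] at h3
    rw [h3] at h2
    have h4 : 0 < ‖z ^ n * exp (h z)‖ := lt_of_lt_of_le (Real.exp_pos _) h1
    have h5 : z ^ n * exp (h z) ≠ 0 := norm_pos_iff.1 h4
    rw [div_sub_one h5, norm_div, div_le_iff₀ h4]
    calc ‖g z - z ^ n * exp (h z)‖ ≤ Real.exp (-M) * ρ := h2
      _ ≤ ‖z ^ n * exp (h z)‖ * ρ := mul_le_mul_of_nonneg_right h1 hρ0.le
      _ = ρ * ‖z ^ n * exp (h z)‖ := mul_comm _ _
  have hlim : ∀ t ∈ F, ∀ (s : ℝ → ℝ) (c w : ℂ), Tendsto (fun x : ℝ => t * E (s x)) (𝓝[>] 0) (𝓝 t) →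
      (∀ᶠ x : ℝ in 𝓝[>] 0, t * E (s x) ∉ F) → Tendsto (fun x : ℝ => h (t * E (s x))) (𝓝[>] 0) (𝓝 c) →
      Tendsto (fun x : ℝ => g (t * E (s x))) (𝓝[>] 0) (𝓝 w) →
      ‖log (w / (t ^ n * exp c))‖ ≤ 3 / 2 * ρ ∧
      Tendsto (fun x : ℝ => log (g (t * E (s x)) / ((t * E (s x)) ^ n * exp (h (t * E (s x)))))) (𝓝[>] 0)
        (𝓝 (log (w / (t ^ n * exp c)))) := by
    intro t ht s c w hs hnF hh hgw
    have h1 := Wm_lim (hF t ht) hs hh n
    have h2 : t ^ n * exp c ≠ 0 := mul_ne_zero (zpow_ne_zero n (Wm_t0 (hF t ht))) (Complex.exp_ne_zero c)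
    have h3 := hgw.div h1 h2
    have h4 : ‖w / (t ^ n * exp c) - 1‖ ≤ ρ := by
      refine le_of_tendsto (h3.sub_const 1).norm ?_
      filter_upwards [hnF] with x hx
      exact hq _ (mem_sph (hF t ht) _) hx
    obtain ⟨h5, h6⟩ := Wm_log h4 hρ1
    exact ⟨h6, h3.clog h5⟩
  refine ⟨fun z => h z + log (g z / (z ^ n * exp (h z))), ?_, fun t ht => ?_, fun z hz hzF => ?_⟩
  · refine hc.add (ContinuousOn.clog (hg.div ?_ fun z hz => ?_) fun z hz => ?_)
    · refine ContinuousOn.mul (fun z hz => ?_) (Complex.continuous_exp.comp_continuousOn hc)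
      exact (continuousAt_zpow₀ z n (Or.inl (Wm_t0 (mem_sphere_zero_iff_norm.1 hz.1)))).continuousWithinAt
    · exact mul_ne_zero (zpow_ne_zero n (Wm_t0 (mem_sphere_zero_iff_norm.1 hz.1))) (Complex.exp_ne_zero _)
    · exact (Wm_log (hq z hz.1 hz.2) hρ1).1
  · obtain ⟨wa, wb, hwa, hwb⟩ := hgl t ht
    obtain ⟨h1, h2⟩ := hlim t ht (fun x => -x) (a t) wa (tend_L t) (Wm_notL F (hF t ht)) (ha t ht) hwa
    obtain ⟨h3, h4⟩ := hlim t ht (fun x => x) (b t) wb (tend_R t) (Wm_notR F (hF t ht)) (hb t ht) hwb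
    refine ⟨_, _, (ha t ht).add h2, (hb t ht).add h4, ?_⟩
    have h5 : b t + log (wb / (t ^ n * exp (b t))) - (a t + log (wa / (t ^ n * exp (a t)))) =
        (b t - a t) + (log (wb / (t ^ n * exp (b t))) - log (wa / (t ^ n * exp (a t)))) := by ring
    rw [h5, Complex.add_im]
    have h6 := Complex.abs_im_le_norm (log (wb / (t ^ n * exp (b t))) - log (wa / (t ^ n * exp (a t))))
    have h7 := norm_sub_le (log (wb / (t ^ n * exp (b t)))) (log (wa / (t ^ n * exp (a t))))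
    have h8 := abs_add_le (b t - a t).im
      (log (wb / (t ^ n * exp (b t))) - log (wa / (t ^ n * exp (a t)))).im
    have h9 := hd t ht
    linarith
  · rw [sub_zero]
    have h5 : z ^ n * exp (h z) ≠ 0 :=
      mul_ne_zero (zpow_ne_zero n (Wm_t0 (mem_sphere_zero_iff_norm.1 hz))) (Complex.exp_ne_zero _)
    have h6 : g z / (z ^ n * exp (h z)) ≠ 0 := Complex.slitPlane_ne_zero (Wm_log (hq z hz hzF) hρ1).1
    rw [Complex.exp_add, Complex.exp_log h6, ← mul_assoc, mul_div_cancel₀ _ h5]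

end Pool.Agent.TBirX
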