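import Pool.Agent.TBirX.Jb
import Pool.Agent.TBirX.Wm
import Pool.Agent.TBirX.Pb
import Pool.Agent.TBirK.Wjk

/-!
# The numbers at a crossing point

`num_sb`, `num_ss`: the clause `num` for a crossing of a segment with a branch, and for a crossing of two segments: the factors `z ^ x`, `eta`, `z - g l`, `b l` have the winding numbers `x`, `k1`, `k2`, `0`.
-/

set_option autoImplicit false

open MeasureTheory Complex Set Filter Topology Metric AddCircle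
open scoped ComplexConjugate InnerProductSpace ENNReal

namespace Pool.Agent.TBirX

open Pool.Agent.TBir Pool.Agent.TBirG Pool.Agent.TBirC Pool.Agent.TBirJ Pool.Agent.TBirK
open Pool.Agent.TBirN
open Pool.Agent.TBirP (E qT)

variable {phi : ℂ → ℂ} {F : Finset ℂ} {u v : ℂ → ℂ}

private theorem dn_cE : Continuous E := by
  unfold E
  fun_prop

private theorem dn_E_ne {y : ℝ} (h0 : y ≠ 0) (h1 : |y| < 2 * Real.pi) : E y ≠ 1 := by
  intro h
  unfold E at h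
  obtain ⟨n, hn⟩ := Complex.exp_eq_one_iff.1 h
  have h2 : (y : ℂ) = n * (2 * Real.pi) := by
    refine mul_right_cancel₀ Complex.I_ne_zero ?_
    rw [hn]
    ring
  have h3 : y = n * (2 * Real.pi) := by exact_mod_cast h2
  have hn0 : n ≠ 0 := by
    rintro rfl
    apply h0
    rw [h3]
    simp
  have h4 : (1 : ℝ) ≤ |(n : ℝ)| := by exact_mod_cast Int.one_le_abs hn0
  have hpi : 0 < 2 * Real.pi := by positivity
  rw [h3, abs_mul, abs_of_pos hpi] at h1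
  nlinarith

private theorem dn_not_F {t : ℂ} (ht : ‖t‖ = 1) {s : ℝ} (hs : s = 1 ∨ s = -1) (F : Finset ℂ) :
    ∀ᶠ x : ℝ in 𝓝[>] 0, t * E (s * x) ∉ F := by
  classical
  have ht0 : t ≠ 0 := norm_pos_iff.1 (by rw [ht]; exact one_pos)
  have hc : Continuous fun x : ℝ => t * E (s * x) :=
    continuous_const.mul (dn_cE.comp (continuous_const.mul continuous_id))
  have h1 : ∀ᶠ x : ℝ in 𝓝 0, t * E (s * x) ∈ ((F.erase t : Finset ℂ) : Set ℂ)ᶜ := by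
    refine hc.continuousAt.eventually_mem
      ((F.erase t).finite_toSet.isClosed.isOpen_compl.mem_nhds ?_)
    intro h
    have h2 : t * E (s * 0) = t := by simp [E]
    rw [h2] at h
    exact (Finset.notMem_erase t F) h
  have h2 : ∀ᶠ x : ℝ in 𝓝[>] 0, x < 2 * Real.pi :=
    nhdsWithin_le_nhds (Iio_mem_nhds (by positivity))
  filter_upwards [nhdsWithin_le_nhds h1, h2, self_mem_nhdsWithin] with x h3 h4 h5 h6
  rw [mem_Ioi] at h5
  apply h3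
  rw [Finset.mem_coe, Finset.mem_erase]
  refine ⟨fun h7 => ?_, h6⟩
  have h8 : E (s * x) = 1 := by
    apply mul_left_cancel₀ ht0
    rw [h7, mul_one]
  refine dn_E_ne ?_ ?_ h8
  · rcases hs with rfl | rfl
    · rw [one_mul]
      exact h5.ne'
    · rw [neg_one_mul]
      exact neg_ne_zero.2 h5.ne'
  · rcases hs with rfl | rfl
    · rwa [one_mul, abs_of_pos h5]
    · rwa [neg_one_mul, abs_neg, abs_of_pos h5]

private theorem dn_FR {t : ℂ} (ht : ‖t‖ = 1) (F : Finset ℂ) :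
    ∀ᶠ x : ℝ in 𝓝[>] 0, t * E x ∉ F := by
  have := dn_not_F ht (Or.inl rfl) F
  simpa only [one_mul] using this

private theorem dn_FL {t : ℂ} (ht : ‖t‖ = 1) (F : Finset ℂ) :
    ∀ᶠ x : ℝ in 𝓝[>] 0, t * E (-x) ∉ F := by
  have := dn_not_F ht (Or.inr rfl) F
  simpa only [neg_one_mul] using this

private theorem dn_mem {t : ℂ} (ht : ‖t‖ = 1) (x : ℝ) : t * E x ∈ sphere (0 : ℂ) 1 := by
  rw [mem_sphere_zero_iff_norm, norm_mul, ht, one_mul]
  unfold E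
  exact Complex.norm_exp_ofReal_mul_I _

private theorem dn_R (t : ℂ) : Tendsto (fun x : ℝ => t * E x) (𝓝[>] 0) (𝓝 t) := by
  have hc : Continuous fun x : ℝ => t * E x := continuous_const.mul dn_cE
  have h4 := hc.tendsto 0
  have h5 : t * E 0 = t := by simp [E]
  rw [h5] at h4
  exact h4.mono_left nhdsWithin_le_nhds

private theorem dn_L (t : ℂ) : Tendsto (fun x : ℝ => t * E (-x)) (𝓝[>] 0) (𝓝 t) := by
  have hc : Continuous fun x : ℝ => t * E (-x) := continuous_const.mul (dn_cE.comp continuous_neg)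
  have h4 := hc.tendsto 0
  have h5 : t * E (-0) = t := by simp [E]
  rw [h5] at h4
  exact h4.mono_left nhdsWithin_le_nhds

/-- Equal one-sided limits, not zero. -/
private def Tw (f : ℂ → ℂ) (t : ℂ) : Prop :=
  ∃ a : ℂ, a ≠ 0 ∧ Tendsto (fun x : ℝ => f (t * E (-x))) (𝓝[>] 0) (𝓝 a) ∧
    Tendsto (fun x : ℝ => f (t * E x)) (𝓝[>] 0) (𝓝 a)

private theorem Tw.of_cont {f : ℂ → ℂ} {t : ℂ} (h : ContinuousAt f t) (h0 : f t ≠ 0) : Tw f t :=
  ⟨f t, h0, h.tendsto.comp (dn_L t), h.tendsto.comp (dn_R t)⟩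

private theorem Tw.mul {f g : ℂ → ℂ} {t : ℂ} (h1 : Tw f t) (h2 : Tw g t) :
    Tw (fun z => f z * g z) t := by
  obtain ⟨a, ha, h3, h4⟩ := h1
  obtain ⟨b, hb, h5, h6⟩ := h2
  exact ⟨a * b, mul_ne_zero ha hb, h3.mul h5, h4.mul h6⟩

private theorem dn_mul (hF : ∀ t ∈ F, ‖t‖ = 1) {f g : ℂ → ℂ} {n m : ℤ} (hf : Wj f F 0 n)
    (hg : Wj g F 0 m) (hd : ∀ t ∈ F, Tw f t ∨ Tw g t) : Wj (fun z => f z * g z) F 0 (n + m) := by
  refine wm_mul hF hf hg fun t ht => ?_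
  rcases hd t ht with ⟨a, ha, h1⟩ | ⟨a, ha, h1⟩
  · exact ⟨a, ha, Or.inl h1⟩
  · exact ⟨a, ha, Or.inr h1⟩

private theorem dn_pow {t : ℂ} (ht : ‖t‖ = 1) (n : ℤ) : Tw (fun z => z ^ n) t := by
  have ht0 : t ≠ 0 := norm_pos_iff.1 (by rw [ht]; exact one_pos)
  exact Tw.of_cont (continuousAt_zpow₀ t n (Or.inl ht0)) (zpow_ne_zero n ht0)

/-- Division by a function with a winding number. -/
private theorem dn_div (h : PwC phi F u v) {l : ℂ} {m : ℤ} {D b : ℂ → ℂ} (hD : Wj D F 0 m)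
    (he : ∀ z ∈ sphere (0 : ℂ) 1, z ∉ F → phi z - l = D z * b z) :
    ContinuousOn b (sphere 0 1 \ F) ∧ ∀ t ∈ F, ∃ a c : ℂ,
      Tendsto (fun x : ℝ => b (t * E (-x))) (𝓝[>] 0) (𝓝 a) ∧
      Tendsto (fun x : ℝ => b (t * E x)) (𝓝[>] 0) (𝓝 c) := by
  obtain ⟨k, hk, hk2, hk3⟩ := hD
  have key : ∀ z ∈ sphere (0 : ℂ) 1, z ∉ F → b z = (phi z - l) * (z ^ (-m) * exp (-k z)) := by
    intro z hz hzF
    have hz0 : z ≠ 0 := by
      rintro rfl
      rw [mem_sphere_zero_iff_norm, norm_zero] at hz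
      exact zero_ne_one hz
    have h1 := hk3 z hz hzF
    rw [sub_zero] at h1
    rw [he z hz hzF, h1, zpow_neg, exp_neg]
    have h2 : z ^ m ≠ 0 := zpow_ne_zero m hz0
    have h3 := Complex.exp_ne_zero (k z)
    field_simp
  constructor
  · have h1 : ContinuousOn (fun z => (phi z - l) * (z ^ (-m) * exp (-k z))) (sphere 0 1 \ F) := by
      refine (h.cv.cont.sub continuousOn_const).mul (ContinuousOn.mul ?_ ?_)
      · intro z hz
        have hz0 : z ≠ 0 := by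
          rintro rfl
          have := hz.1
          rw [mem_sphere_zero_iff_norm, norm_zero] at this
          exact zero_ne_one this
        exact (continuousAt_zpow₀ z (-m) (Or.inl hz0)).continuousWithinAt
      · exact Complex.continuous_exp.comp_continuousOn hk.neg
    exact h1.congr fun z hz => key z hz.1 hz.2
  · intro t ht
    have htn := h.circ t ht
    have ht0 : t ≠ 0 := norm_pos_iff.1 (by rw [htn]; exact one_pos)
    obtain ⟨a, c, ha, hc, -⟩ := hk2 t ht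
    refine ⟨(u t - l) * (t ^ (-m) * exp (-a)), (v t - l) * (t ^ (-m) * exp (-c)), ?_, ?_⟩
    · have h1 : Tendsto (fun x : ℝ => (phi (t * E (-x)) - l) *
          ((t * E (-x)) ^ (-m) * exp (-k (t * E (-x))))) (𝓝[>] 0)
          (𝓝 ((u t - l) * (t ^ (-m) * exp (-a)))) :=
        ((h.cv.lim_left t ht).sub_const l).mul
          (((dn_L t).zpow₀ (-m) (Or.inl ht0)).mul ((Complex.continuous_exp.tendsto _).comp ha.neg))
      refine h1.congr' ?_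
      filter_upwards [dn_FL htn F] with x hx
      exact (key _ (dn_mem htn _) hx).symm
    · have h1 : Tendsto (fun x : ℝ => (phi (t * E x) - l) *
          ((t * E x) ^ (-m) * exp (-k (t * E x)))) (𝓝[>] 0)
          (𝓝 ((v t - l) * (t ^ (-m) * exp (-c)))) :=
        ((h.cv.lim_right t ht).sub_const l).mul
          (((dn_R t).zpow₀ (-m) (Or.inl ht0)).mul ((Complex.continuous_exp.tendsto _).comp hc.neg))
      refine h1.congr' ?_
      filter_upwards [dn_FR htn F] with x hx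
      exact (key _ (dn_mem htn _) hx).symm

private theorem dn_core (h : PwC phi F u v) {l : ℂ} {x k1 k2 : ℤ} {A B b b0 : ℂ → ℂ} {δ : ℝ}
    (hpert : ∀ g : ℂ → ℂ, ContinuousOn g (sphere 0 1 \ F) →
      (∀ t ∈ F, ∃ a b : ℂ, Tendsto (fun x : ℝ => g (t * E (-x))) (𝓝[>] 0) (𝓝 a) ∧
        Tendsto (fun x : ℝ => g (t * E x)) (𝓝[>] 0) (𝓝 b)) →
      (∀ z ∈ sphere (0 : ℂ) 1, z ∉ F → ‖g z - b0 z‖ ≤ δ) → Wj g F 0 0)
    (hA : Wj A F 0 k1) (hB : Wj B F 0 k2) (hAB : ∀ t ∈ F, Tw A t ∨ Tw B t)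
    (hAb : ∀ t ∈ F, Tw A t ∨ Tw b t) (hBb : ∀ t ∈ F, Tw B t ∨ (Tw A t ∧ Tw b t))
    (hbq : ∀ z ∈ sphere (0 : ℂ) 1, z ∉ F → ‖b z - b0 z‖ ≤ δ)
    (he : ∀ z ∈ sphere (0 : ℂ) 1, z ∉ F → phi z - l = z ^ x * (A z * B z) * b z) :
    Ix phi l (x + k1 + k2) := by
  have hF := h.circ
  have w1 : Wj (fun z => z ^ x * (A z * B z)) F 0 (x + (k1 + k2)) :=
    dn_mul hF (wm_pow F x) (dn_mul hF hA hB hAB) fun t ht => Or.inl (dn_pow (hF t ht) x)
  obtain ⟨hb1, hb2⟩ := dn_div h w1 he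
  have hb : Wj b F 0 0 := hpert b hb1 hb2 hbq
  have w2 : Wj (fun z => A z * b z) F 0 (k1 + 0) := dn_mul hF hA hb hAb
  have w3 : Wj (fun z => B z * (A z * b z)) F 0 (k2 + (k1 + 0)) :=
    dn_mul hF hB w2 fun t ht => (hBb t ht).imp_right fun k => k.1.mul k.2
  have w4 : Wj (fun z => z ^ x * (B z * (A z * b z))) F 0 (x + (k2 + (k1 + 0))) :=
    dn_mul hF (wm_pow F x) w3 fun t ht => Or.inl (dn_pow (hF t ht) x)
  have e1 : x + (k2 + (k1 + 0)) = x + k1 + k2 := by ring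
  rw [e1] at w4
  obtain ⟨k, hk, hk2, hk3⟩ := w4
  refine wj_ix h.cv ⟨k, hk, hk2, fun z hz hzF => ?_⟩
  have h1 := hk3 z hz hzF
  rw [sub_zero] at h1
  rw [he z hz hzF, ← h1]
  ring

private theorem dn_slit {t0 t : ℂ} (h0 : ‖t0‖ = 1) (ht : ‖t‖ = 1) (hne : t ≠ t0) :
    -(conj t0 * t) ∈ slitPlane := by
  rw [mem_slitPlane_iff]
  by_contra hcon
  rw [not_or, not_lt, not_not] at hcon
  obtain ⟨h1, h2⟩ := hcon
  rw [neg_re] at h1
  rw [neg_im, neg_eq_zero] at h2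
  have h3 : ‖conj t0 * t‖ = 1 := by rw [norm_mul, Complex.norm_conj, h0, ht, one_mul]
  have h4 : conj t0 * t = ((conj t0 * t).re : ℂ) := by
    apply Complex.ext
    · simp
    · rw [ofReal_im]
      exact h2
  rw [h4, Complex.norm_real, Real.norm_eq_abs, abs_of_nonneg (by linarith)] at h3
  rw [h3, ofReal_one] at h4
  apply hne
  have h5 : t0 * conj t0 = 1 := by
    rw [Complex.mul_conj, Complex.normSq_eq_norm_sq, h0]
    norm_num
  calc t = t0 * conj t0 * t := by rw [h5, one_mul]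
    _ = t0 * (conj t0 * t) := by ring
    _ = t0 := by rw [h4, mul_one]

private theorem dn_eta0 {t0 z : ℂ} (h0 : ‖t0‖ = 1) (hz : ‖z‖ = 1) (β : ℂ) :
    (-(conj t0 * z)) ^ β ≠ 0 := by
  have h1 : -(conj t0 * z) ≠ 0 := by
    rw [← norm_pos_iff, norm_neg, norm_mul, Complex.norm_conj, h0, hz]
    norm_num
  rw [Complex.cpow_def_of_ne_zero h1]
  exact Complex.exp_ne_zero _

private theorem dn_eta_cont {t0 t : ℂ} (h0 : ‖t0‖ = 1) (ht : ‖t‖ = 1) (hne : t ≠ t0) (β : ℂ) :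
    ContinuousAt (fun z => (-(conj t0 * z)) ^ β) t := by
  have h1 : ContinuousAt (fun z : ℂ => -(conj t0 * z)) t := by fun_prop
  exact ContinuousAt.comp (f := fun z : ℂ => -(conj t0 * z)) (g := fun w : ℂ => w ^ β)
    (continuousAt_cpow_const (dn_slit h0 ht hne)) h1

private theorem dn_eta {t0 t : ℂ} (h0 : ‖t0‖ = 1) (ht : ‖t‖ = 1) (hne : t ≠ t0) (β : ℂ) :
    Tw (fun z => (-(conj t0 * z)) ^ β) t :=
  Tw.of_cont (dn_eta_cont h0 ht hne β) (dn_eta0 h0 ht β)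

/-- The number of the jump factor. -/
private theorem dn_k (hF : ∀ t ∈ F, ‖t‖ = 1) {t q l : ℂ} (ht : t ∈ F)
    (hl : l ∉ Gam phi F u v)
    (hlin : 1 / 2 < (bet (u t) (v t) l).re ↔ (I / (v t - u t) * (l - q)).re < 0) {k : ℤ}
    (hk : ((I / (v t - u t) * (l - q)).re < 0 ∧ k = 1) ∨
      (¬ (I / (v t - u t) * (l - q)).re < 0 ∧ k = 0)) :
    Wj (fun z => (-(conj t * z)) ^ bet (u t) (v t) l) F 0 k := by
  obtain ⟨h1, h2⟩ := bet_bd (u t) (v t) l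
  have h3 : (bet (u t) (v t) l).re ≠ 1 / 2 := by
    refine bet_ne fun h4 => hl ?_
    exact Or.inr (mem_iUnion₂.2 ⟨t, ht, h4⟩)
  refine wm_eta hF ht ?_
  rcases hk with ⟨h4, h5⟩ | ⟨h4, h5⟩
  · exact Or.inl ⟨h5, hlin.2 h4, by linarith⟩
  · refine Or.inr ⟨h5, ?_⟩
    rw [abs_of_nonneg h1]
    exact lt_of_le_of_ne (not_lt.1 fun h6 => h4 (hlin.1 h6)) h3

/-- The limits of `b` at a jump. -/
private theorem dn_J {t l : ℂ} (ht : ‖t‖ = 1) {b R : ℂ → ℂ}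
    (hJ : Tendsto (fun y : ℝ => Jq phi u v t l (t * E (-y))) (𝓝[>] 0) (𝓝 (Jv u v t l)) ∧
      Tendsto (fun y : ℝ => Jq phi u v t l (t * E y)) (𝓝[>] 0) (𝓝 (Jv u v t l)))
    (hJ0 : Jv u v t l ≠ 0) (hR : ContinuousAt R t) (hR0 : R t ≠ 0)
    (he : ∀ z ∈ sphere (0 : ℂ) 1, z ∉ F →
      phi z - l = (-(conj t * z)) ^ bet (u t) (v t) l * (R z * b z)) : Tw b t := by
  have hR1 : ∀ᶠ z in 𝓝 t, R z ≠ 0 := hR.eventually_ne hR0
  have key : ∀ z ∈ sphere (0 : ℂ) 1, z ∉ F → R z ≠ 0 → Jq phi u v t l z / R z = b z := by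
    intro z hz hzF hz0
    have h1 := dn_eta0 ht (mem_sphere_zero_iff_norm.1 hz) (bet (u t) (v t) l)
    unfold Jq
    rw [he z hz hzF]
    field_simp
  refine ⟨Jv u v t l / R t, div_ne_zero hJ0 hR0, ?_, ?_⟩
  · refine (hJ.1.div (hR.tendsto.comp (dn_L t)) hR0).congr' ?_
    filter_upwards [dn_FL ht F, (dn_L t).eventually hR1] with x h1 h2
    exact key _ (dn_mem ht _) h1 h2
  · refine (hJ.2.div (hR.tendsto.comp (dn_R t)) hR0).congr' ?_
    filter_upwards [dn_FR ht F, (dn_R t).eventually hR1] with x h1 h2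
    exact key _ (dn_mem ht _) h1 h2

theorem num_sb {t0 t1 q : ℂ} (h : PwC phi F u v) (hx : Xb phi F u v t0 t1 q) {x : ℤ} {g : ℂ → ℂ}
    {b : ℂ → ℂ → ℂ} (off : ∀ᶠ l in 𝓝 q, l ∉ Gam phi F u v → ‖g l‖ ≠ 1) (h0 : Wj (b q) F 0 0)
    (hb : ∀ eps > 0, ∀ᶠ l in 𝓝 q, l ∉ Gam phi F u v → ∀ z ∈ sphere (0 : ℂ) 1, z ∉ F →
      ‖b l z - b q z‖ ≤ eps)
    (he : ∀ᶠ l in 𝓝 q, l ∉ Gam phi F u v → ∀ z ∈ sphere (0 : ℂ) 1, z ∉ F →
      phi z - l = z ^ x * ((-(conj t0 * z)) ^ bet (u t0) (v t0) l * (z - g l)) * b l z) :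
    ∀ᶠ l in 𝓝 q, l ∉ Gam phi F u v → ∀ k1 k2 : ℤ,
      (((I / (v t0 - u t0) * (l - q)).re < 0 ∧ k1 = 1) ∨
        (¬ (I / (v t0 - u t0) * (l - q)).re < 0 ∧ k1 = 0)) →
      ((‖g l‖ < 1 ∧ k2 = 1) ∨ (¬ ‖g l‖ < 1 ∧ k2 = 0)) → Ix phi l (x + k1 + k2) := by
  have hF := h.circ
  have n0 := hF t0 hx.f0
  obtain ⟨δ, hδ, hpert⟩ := wm_pert hF h0
  obtain ⟨c, C, -, -, hlin⟩ := bet_lin hx.mem hx.nu hx.nv
  obtain ⟨hJc, hJ0⟩ := jb_val hx.mem hx.nu hx.nv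
  filter_upwards [off, hb δ hδ, he, hlin, jb_tend h hx.f0 hx.mem hx.nu hx.nv,
    hJc.eventually_ne hJ0] with l g1 g2 g3 g4 g5 g6 hl k1 k2 hk1 hk2
  have hg1 := g1 hl
  have hA : Wj (fun z => (-(conj t0 * z)) ^ bet (u t0) (v t0) l) F 0 k1 :=
    dn_k hF hx.f0 hl g4.1 hk1
  have hB : Wj (fun z => z - g l) F 0 k2 := by
    refine wm_lin hF ?_
    rcases hk2 with ⟨h1, h2⟩ | ⟨h1, h2⟩
    · exact Or.inl ⟨h2, h1⟩
    · exact Or.inr ⟨h2, lt_of_le_of_ne (not_lt.1 h1) hg1.symm⟩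
  have hBt : ∀ t : ℂ, ‖t‖ = 1 → Tw (fun z => z - g l) t := by
    intro t ht
    refine Tw.of_cont (by fun_prop) (sub_ne_zero.2 ?_)
    rintro rfl
    exact hg1 ht
  have hbt : Tw (b l) t0 := by
    refine dn_J (F := F) n0 g5 g6 (R := fun z => z ^ x * (z - g l)) ?_ ?_ fun z hz hzF => ?_
    · have ht0 : t0 ≠ 0 := norm_pos_iff.1 (by rw [n0]; exact one_pos)
      exact (continuousAt_zpow₀ t0 x (Or.inl ht0)).mul (by fun_prop)
    · have ht0 : t0 ≠ 0 := norm_pos_iff.1 (by rw [n0]; exact one_pos)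
      refine mul_ne_zero (zpow_ne_zero x ht0) (sub_ne_zero.2 ?_)
      rintro h1
      rw [← h1] at hg1
      exact hg1 n0
    · rw [g3 hl z hz hzF]
      ring
  refine dn_core h hpert hA hB (fun t ht => Or.inr (hBt t (hF t ht))) (fun t ht => ?_)
    (fun t ht => Or.inl (hBt t (hF t ht))) (g2 hl) (g3 hl)
  by_cases htt : t = t0
  · right
    rw [htt]
    exact hbt
  · exact Or.inl (dn_eta n0 (hF t ht) htt _)

theorem num_ss {t0 t1 q : ℂ} (h : PwC phi F u v) (hx : Xs phi F u v t0 t1 q) {x : ℤ}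
    {b : ℂ → ℂ → ℂ} (h0 : Wj (b q) F 0 0)
    (hb : ∀ eps > 0, ∀ᶠ l in 𝓝 q, l ∉ Gam phi F u v → ∀ z ∈ sphere (0 : ℂ) 1, z ∉ F →
      ‖b l z - b q z‖ ≤ eps)
    (he : ∀ᶠ l in 𝓝 q, l ∉ Gam phi F u v → ∀ z ∈ sphere (0 : ℂ) 1, z ∉ F →
      phi z - l = z ^ x * ((-(conj t0 * z)) ^ bet (u t0) (v t0) l *
        (-(conj t1 * z)) ^ bet (u t1) (v t1) l) * b l z) :
    ∀ᶠ l in 𝓝 q, l ∉ Gam phi F u v → ∀ k1 k2 : ℤ,
      (((I / (v t0 - u t0) * (l - q)).re < 0 ∧ k1 = 1) ∨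
        (¬ (I / (v t0 - u t0) * (l - q)).re < 0 ∧ k1 = 0)) →
      (((I / (v t1 - u t1) * (l - q)).re < 0 ∧ k2 = 1) ∨
        (¬ (I / (v t1 - u t1) * (l - q)).re < 0 ∧ k2 = 0)) → Ix phi l (x + k1 + k2) := by
  have hF := h.circ
  have n0 := hF t0 hx.f0
  have n1 := hF t1 hx.f1
  have z0 : t0 ≠ 0 := norm_pos_iff.1 (by rw [n0]; exact one_pos)
  have z1 : t1 ≠ 0 := norm_pos_iff.1 (by rw [n1]; exact one_pos)
  obtain ⟨δ, hδ, hpert⟩ := wm_pert hF h0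
  obtain ⟨c0, C0, -, -, hlin0⟩ := bet_lin hx.mem0 hx.nu0 hx.nv0
  obtain ⟨c1, C1, -, -, hlin1⟩ := bet_lin hx.mem1 hx.nu1 hx.nv1
  obtain ⟨hJc0, hJ00⟩ := jb_val hx.mem0 hx.nu0 hx.nv0
  obtain ⟨hJc1, hJ01⟩ := jb_val hx.mem1 hx.nu1 hx.nv1
  filter_upwards [hb δ hδ, he, hlin0, hlin1, jb_tend h hx.f0 hx.mem0 hx.nu0 hx.nv0,
    jb_tend h hx.f1 hx.mem1 hx.nu1 hx.nv1, hJc0.eventually_ne hJ00, hJc1.eventually_ne hJ01]
    with l g2 g3 g4 g5 g6 g7 g8 g9 hl k1 k2 hk1 hk2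
  have hA : Wj (fun z => (-(conj t0 * z)) ^ bet (u t0) (v t0) l) F 0 k1 :=
    dn_k hF hx.f0 hl g4.1 hk1
  have hB : Wj (fun z => (-(conj t1 * z)) ^ bet (u t1) (v t1) l) F 0 k2 :=
    dn_k hF hx.f1 hl g5.1 hk2
  have hb0 : Tw (b l) t0 := by
    refine dn_J (F := F) n0 g6 g8 (R := fun z => z ^ x * (-(conj t1 * z)) ^ bet (u t1) (v t1) l) ?_ ?_
      fun z hz hzF => ?_
    · exact (continuousAt_zpow₀ t0 x (Or.inl z0)).mul (dn_eta_cont n1 n0 hx.ne _)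
    · exact mul_ne_zero (zpow_ne_zero x z0) (dn_eta0 n1 n0 _)
    · rw [g3 hl z hz hzF]
      ring
  have hb1 : Tw (b l) t1 := by
    refine dn_J (F := F) n1 g7 g9 (R := fun z => z ^ x * (-(conj t0 * z)) ^ bet (u t0) (v t0) l) ?_ ?_
      fun z hz hzF => ?_
    · exact (continuousAt_zpow₀ t1 x (Or.inl z1)).mul (dn_eta_cont n0 n1 hx.ne.symm _)
    · exact mul_ne_zero (zpow_ne_zero x z1) (dn_eta0 n0 n1 _)
    · rw [g3 hl z hz hzF]
      ring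
  refine dn_core h hpert hA hB (fun t ht => ?_) (fun t ht => ?_) (fun t ht => ?_) (g2 hl) (g3 hl)
  · by_cases htt : t = t0
    · right
      rw [htt]
      exact dn_eta n1 n0 hx.ne _
    · exact Or.inl (dn_eta n0 (hF t ht) htt _)
  · by_cases htt : t = t0
    · right
      rw [htt]
      exact hb0
    · exact Or.inl (dn_eta n0 (hF t ht) htt _)
  · by_cases htt : t = t1
    · right
      rw [htt]
      exact ⟨dn_eta n0 n1 hx.ne.symm _, hb1⟩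
    · exact Or.inl (dn_eta n1 (hF t ht) htt _)

end Pool.Agent.TBirX
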