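import Pool.Agent.TBirX.Def
import Pool.Agent.TBirN.Rc

/-!
# The factor of a branch

`conc`: the normalised kernels `kn w`, `w → t`, are concentrated at `t`: `|kn w| ^ 2` is the Poisson kernel. `tc`: `ray` in TBirN/Rc.lean (private there, copy it). `side`: `‖t (1 + w)‖ ^ 2 = 1 + 2 re w + |w| ^ 2`. `van`: `en w (TM (mf (fun y => e y - w)) h) = 0` (`TM (mf ..) = T (fourier 1 - w)`).
-/

set_option autoImplicit false

open MeasureTheory Complex Set Filter Topology Metric AddCircle
open scoped ComplexConjugate InnerProductSpace ENNReal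

namespace Pool.Agent.TBirX

open Pool.Agent.TBir Pool.Agent.TBirG Pool.Agent.TBirC Pool.Agent.TBirJ Pool.Agent.TBirK
open Pool.Agent.TBirN
open Pool.Agent.TBirP (E qT)

variable {K : Set ℂ}

/-! ### Concentration of the normalised kernels -/

private theorem fb_shift {w : ℂ} (hw : ‖w‖ < 1) :
    conj w • mul (fourier 1) (incl (kn w)) =
      incl (kn w) - (Real.sqrt (1 - ‖w‖ ^ 2) : ℂ) • incl (mono 0) := by
  have h1 : mul (fourier 1) (incl (kn w)) = incl (S (kn w)) :=
    (incl_T (plus_fourier (by norm_num)) (kn w)).symm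
  have h3 : conj w • incl (S (kn w)) = incl (conj w • S (kn w)) := (incl.map_smul _ _).symm
  have h4 : (Real.sqrt (1 - ‖w‖ ^ 2) : ℂ) • incl (mono 0) =
      incl ((Real.sqrt (1 - ‖w‖ ^ 2) : ℂ) • mono 0) := (incl.map_smul _ _).symm
  rw [h1, h3, h4, ← map_sub]
  congr 1
  refine ext_co fun n => ?_
  have h2 : co (kn w - (Real.sqrt (1 - ‖w‖ ^ 2) : ℂ) • mono 0) n =
      co (kn w) n - (Real.sqrt (1 - ‖w‖ ^ 2) : ℂ) * co (mono 0) n := by
    rw [← coL_apply, map_sub, map_smul, smul_eq_mul, coL_apply, coL_apply]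
  rw [h2, co_smul, kr_co_kn hw, co_mono]
  cases n with
  | zero =>
    rw [co_S_zero, if_pos rfl]
    ring
  | succ n =>
    rw [co_S_succ, kr_co_kn hw, if_neg (Nat.succ_ne_zero n)]
    ring

/-- The defect. -/
private noncomputable def dd (psi : CT) (s : UnitAddCircle) (w : ℂ) : L2 :=
  mul psi (incl (kn w)) - psi s • incl (kn w)

private theorem norm_incl_kn {w : ℂ} (hw : ‖w‖ < 1) : ‖incl (kn w)‖ = 1 := by
  have h : ‖incl (kn w)‖ = ‖kn w‖ := rfl
  rw [h, norm_kn hw]

private theorem dd_le (psi : CT) (s : UnitAddCircle) {w : ℂ} (hw : ‖w‖ < 1) :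
    ‖dd psi s w‖ ≤ 2 * ‖psi‖ := by
  have h1 : ‖mul psi (incl (kn w))‖ ≤ ‖psi‖ := by
    refine ((mul psi).le_opNorm _).trans ?_
    rw [norm_incl_kn hw, mul_one]
    exact norm_mul_symbol_le psi
  have h2 : ‖psi s • incl (kn w)‖ ≤ ‖psi‖ := by
    rw [norm_smul, norm_incl_kn hw, mul_one]
    exact psi.norm_coe_le_norm s
  unfold dd
  refine (norm_sub_le _ _).trans ?_
  linarith

private theorem dd_add (psi chi : CT) (s : UnitAddCircle) (w : ℂ) :
    dd (psi + chi) s w = dd psi s w + dd chi s w := by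
  unfold dd
  rw [mul_add_symbol, ContinuousMap.add_apply, add_smul, add_apply]
  abel

private theorem dd_smul (c : ℂ) (psi : CT) (s : UnitAddCircle) (w : ℂ) :
    dd (c • psi) s w = c • dd psi s w := by
  unfold dd
  rw [mul_smul_symbol, ContinuousMap.smul_apply, smul_apply, smul_sub, smul_smul, smul_eq_mul]

/-- Concentration for `psi`. -/
private def Cc (s : UnitAddCircle) (psi : CT) : Prop :=
  Tendsto (fun w => ‖dd psi s w‖) (𝓝[ball 0 1] (e s)) (𝓝 0)

private theorem cc_add {s : UnitAddCircle} {psi chi : CT} (h1 : Cc s psi) (h2 : Cc s chi) :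
    Cc s (psi + chi) := by
  have h3 := h1.add h2
  rw [add_zero] at h3
  refine squeeze_zero (fun w => norm_nonneg _) (fun w => ?_) h3
  rw [dd_add]
  exact norm_add_le _ _

private theorem cc_smul {s : UnitAddCircle} {psi : CT} (c : ℂ) (h1 : Cc s psi) :
    Cc s (c • psi) := by
  have h3 := h1.const_mul ‖c‖
  rw [mul_zero] at h3
  refine h3.congr fun w => ?_
  rw [dd_smul, norm_smul]

private theorem cc_mul {s : UnitAddCircle} {psi chi : CT} (h1 : Cc s psi) (h2 : Cc s chi) :
    Cc s (psi * chi) := by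
  have h3 := (h2.const_mul ‖mul psi‖).add (h1.const_mul ‖chi s‖)
  rw [mul_zero, mul_zero, add_zero] at h3
  refine squeeze_zero (fun w => norm_nonneg _) (fun w => ?_) h3
  have h4 : dd (psi * chi) s w = mul psi (dd chi s w) + chi s • dd psi s w := by
    unfold dd
    rw [mul_mul_symbol, ContinuousMap.mul_apply, ContinuousLinearMap.comp_apply, map_sub, map_smul,
      smul_sub, smul_smul, mul_comm (psi s)]
    abel
  rw [h4]
  refine (norm_add_le _ _).trans (add_le_add ((mul psi).le_opNorm _) ?_)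
  rw [norm_smul]

private theorem cc_one (s : UnitAddCircle) : Cc s (fourier 1) := by
  have ht : ‖e s‖ = 1 := norm_e s
  have ht0 : e s ≠ 0 := fun h => by rw [h, norm_zero] at ht; exact zero_ne_one ht
  have hcc : conj (e s) * e s = 1 := by
    rw [Complex.conj_mul', ht]
    norm_num
  -- the bound
  have h1 : ∀ᶠ w in 𝓝[ball 0 1] (e s), ‖dd (fourier 1) s w‖ ≤
      ‖(conj w)⁻¹ - e s‖ + ‖(conj w)⁻¹‖ * Real.sqrt (1 - ‖w‖ ^ 2) := by
    have h0 : ∀ᶠ w in 𝓝[ball 0 1] (e s), w ≠ 0 :=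
      (eventually_ne_nhds ht0).filter_mono nhdsWithin_le_nhds
    filter_upwards [h0, self_mem_nhdsWithin] with w hw0 hw
    have hw1 : ‖w‖ < 1 := mem_ball_zero_iff.1 hw
    have hc0 : conj w ≠ 0 := (map_ne_zero _).2 hw0
    have h2 := fb_shift hw1
    have h3 : mul (fourier 1) (incl (kn w)) =
        (conj w)⁻¹ • (incl (kn w) - (Real.sqrt (1 - ‖w‖ ^ 2) : ℂ) • incl (mono 0)) := by
      rw [← h2, smul_smul, inv_mul_cancel₀ hc0, one_smul]
    have h4 : dd (fourier 1) s w = ((conj w)⁻¹ - e s) • incl (kn w) -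
        ((conj w)⁻¹ * (Real.sqrt (1 - ‖w‖ ^ 2) : ℂ)) • incl (mono 0) := by
      unfold dd
      rw [h3, fourier_one_apply, smul_sub, smul_smul, sub_smul]
      abel
    rw [h4]
    refine (norm_sub_le _ _).trans (add_le_add ?_ ?_)
    · rw [norm_smul, norm_incl_kn hw1, mul_one]
    · rw [norm_smul, norm_mul, Complex.norm_real, Real.norm_of_nonneg (Real.sqrt_nonneg _)]
      have h5 : ‖incl (mono 0)‖ ≤ 1 := (norm_mono 0).le
      have h6 : 0 ≤ ‖(conj w)⁻¹‖ * Real.sqrt (1 - ‖w‖ ^ 2) := by positivity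
      nlinarith
  have h2 : Tendsto (fun w : ℂ => ‖(conj w)⁻¹ - e s‖ + ‖(conj w)⁻¹‖ * Real.sqrt (1 - ‖w‖ ^ 2))
      (𝓝[ball 0 1] (e s)) (𝓝 0) := by
    have h3 : ContinuousAt (fun w : ℂ => ‖(conj w)⁻¹ - e s‖ +
        ‖(conj w)⁻¹‖ * Real.sqrt (1 - ‖w‖ ^ 2)) (e s) := by
      have hi : ContinuousAt (fun w : ℂ => (conj w)⁻¹) (e s) :=
        (Complex.continuous_conj.continuousAt).inv₀ ((map_ne_zero _).2 ht0)
      have hq : ContinuousAt (fun w : ℂ => Real.sqrt (1 - ‖w‖ ^ 2)) (e s) := by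
        apply Real.continuous_sqrt.continuousAt.comp
        fun_prop
      exact ((hi.sub continuousAt_const).norm).add (hi.norm.mul hq)
    have h4 := h3.tendsto
    have h5 : (conj (e s))⁻¹ = e s := by
      rw [inv_eq_iff_eq_inv]
      exact eq_inv_of_mul_eq_one_left hcc
    simp only [ht, h5, sub_self, norm_zero, one_pow, Real.sqrt_zero, mul_zero, add_zero] at h4
    exact h4.mono_left nhdsWithin_le_nhds
  exact squeeze_zero' (Eventually.of_forall fun w => norm_nonneg _) h1 h2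

private theorem cc_neg (s : UnitAddCircle) : Cc s (fourier (-1)) := by
  have h1 := (cc_one s).const_mul (‖conj (e s)‖ * ‖mul (fourier (-1) : CT)‖)
  rw [mul_zero] at h1
  refine squeeze_zero (fun w => norm_nonneg _) (fun w => ?_) h1
  have hcc : conj (e s) * e s = 1 := by
    rw [Complex.conj_mul', norm_e s]
    norm_num
  have h2 : (fourier (-1) : CT) s = conj (e s) := by
    rw [fourier_neg, fourier_one_apply]
  have h3 : (fourier (-1) * fourier 1 : CT) = 1 := by
    ext y
    rw [ContinuousMap.mul_apply, ContinuousMap.one_apply, fourier_neg, fourier_one_apply,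
      Complex.conj_mul', norm_e y]
    norm_num
  have h4 : mul (fourier (-1)) (mul (fourier 1) (incl (kn w))) = incl (kn w) := by
    have h5 := mul_mul_symbol (fourier (-1)) (fourier 1)
    rw [h3, mul_one_symbol] at h5
    exact (congrArg (fun A : L2 →L[ℂ] L2 => A (incl (kn w))) h5).symm
  have h5 : dd (fourier (-1)) s w = -(conj (e s) • mul (fourier (-1)) (dd (fourier 1) s w)) := by
    unfold dd
    rw [h2, map_sub, map_smul, h4, fourier_one_apply, smul_sub, smul_smul, hcc, one_smul]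
    abel
  rw [h5, norm_neg, norm_smul, mul_assoc]
  exact mul_le_mul_of_nonneg_left ((mul _).le_opNorm _) (norm_nonneg _)

private theorem cc_fourier (s : UnitAddCircle) (n : ℤ) : Cc s (fourier n) := by
  have h0 : Cc s (fourier 0) := by
    have h1 : ∀ w, dd (fourier 0) s w = 0 := by
      intro w
      have h2 : (fourier 0 : CT) = 1 := by
        ext y
        rw [fourier_zero, ContinuousMap.one_apply]
      unfold dd
      rw [h2, mul_one_symbol, ContinuousMap.one_apply, one_smul]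
      exact sub_self _
    refine (tendsto_const_nhds (x := (0 : ℝ))).congr fun w => ?_
    rw [h1, norm_zero]
  have hadd : ∀ a b : ℤ, (fourier (a + b) : CT) = fourier a * fourier b := by
    intro a b
    ext y
    rw [ContinuousMap.mul_apply, fourier_add]
  induction n using Int.induction_on with
  | zero => exact h0
  | succ n ih =>
    rw [hadd]
    exact cc_mul ih (cc_one s)
  | pred n ih =>
    rw [sub_eq_add_neg, hadd]
    exact cc_mul ih (cc_neg s)

private theorem cc_all (s : UnitAddCircle) (psi : CT) : Cc s psi := by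
  have hspan : ∀ chi ∈ Submodule.span ℂ (Set.range (fourier (T := (1 : ℝ)))), Cc s chi := by
    intro chi hchi
    induction hchi using Submodule.span_induction with
    | mem x hx =>
      obtain ⟨n, rfl⟩ := hx
      exact cc_fourier s n
    | zero =>
      have h := cc_smul (0 : ℂ) (cc_fourier s 0)
      have h0 : (0 : ℂ) • (fourier 0 : CT) = 0 := by
        ext y
        simp
      rw [h0] at h
      exact h
    | add x y _ _ hx hy => exact cc_add hx hy
    | smul c x _ hx => exact cc_smul c hx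
  have hd : psi ∈ (Submodule.span ℂ (Set.range (fourier (T := (1 : ℝ))))).topologicalClosure := by
    rw [span_fourier_closure_eq_top]
    exact Submodule.mem_top
  rw [← SetLike.mem_coe, Submodule.topologicalClosure_coe, Metric.mem_closure_iff] at hd
  unfold Cc
  rw [Metric.tendsto_nhds]
  intro eps heps
  obtain ⟨chi, hchi, hdist⟩ := hd (eps / 4) (by positivity)
  have h1 := (Metric.tendsto_nhds.1 (hspan chi hchi)) (eps / 2) (half_pos heps)
  filter_upwards [h1, self_mem_nhdsWithin] with w hw hw1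
  rw [dist_zero_right, norm_norm] at hw ⊢
  have h2 : dd psi s w = dd (psi - chi) s w + dd chi s w := by
    rw [← dd_add, sub_add_cancel]
  have h3 := dd_le (psi - chi) s (mem_ball_zero_iff.1 hw1)
  rw [dist_eq_norm] at hdist
  rw [h2]
  refine (norm_add_le _ _).trans_lt ?_
  linarith

/-! ### Rays (as in TBirN/Rc) -/

private theorem near {g : ℂ → ℂ} {t a q : ℂ} (ht : ‖t‖ = 1)
    (hlim : ∀ eps > 0, ∀ᶠ l in 𝓝 q, l ∉ K → ‖g l - t * (1 + a * (l - q))‖ ≤ eps * ‖l - q‖)
    {c C : ℝ} (hc : 0 < c) (hC : 0 < C) {eps : ℝ} (heps : 0 < eps) :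
    ∀ᶠ s : ℝ in 𝓝[>] 0, ∀ η : ℂ, ‖η‖ ≤ C → (a * η).re ≤ -c → q + s * η ∉ K →
      ‖g (q + s * η)‖ < 1 ∧ ‖en (g (q + s * η)) - en (t * (1 + s * (a * η)))‖ ≤ eps := by
  obtain ⟨δ, hδ, h1⟩ := en_near heps
  have h2 := hlim (δ * c / (2 * C)) (by positivity)
  obtain ⟨ρ, hρ, h3⟩ := Metric.eventually_nhds_iff_ball.1 h2
  have hsm : ∀ (b d : ℝ), 0 < d → ∀ᶠ s : ℝ in 𝓝[>] 0, s * b < d := by
    intro b d hd
    have h4 : Tendsto (fun s : ℝ => s * b) (𝓝[>] 0) (𝓝 (0 * b)) :=
      (tendsto_id.mono_left nhdsWithin_le_nhds).mul_const b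
    rw [zero_mul] at h4
    exact h4.eventually_lt_const hd
  filter_upwards [hsm C ρ hρ, hsm ((‖a‖ * C) ^ 2) c hc, hsm c 1 one_pos, self_mem_nhdsWithin]
    with s h4 h5 h6 hs η hη hre hK
  have hs0 : 0 < s := hs
  have h10 : ‖(s : ℂ) * η‖ ≤ s * C := by
    rw [norm_mul, Complex.norm_real, Real.norm_of_nonneg hs0.le]
    exact mul_le_mul_of_nonneg_left hη hs0.le
  have h7 : q + s * η ∈ ball q ρ := by
    rw [mem_ball, dist_eq_norm, add_sub_cancel_left]
    exact h10.trans_lt h4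
  have h8 := h3 _ h7 hK
  rw [add_sub_cancel_left] at h8
  have h9 : t * (1 + a * (s * η)) = t * (1 + s * (a * η)) := by ring
  rw [h9] at h8
  have hz : ‖a * η‖ ≤ ‖a‖ * C := by
    rw [norm_mul]
    exact mul_le_mul_of_nonneg_left hη (norm_nonneg a)
  have h11 : ‖t * (1 + s * (a * η))‖ ≤ 1 - s * c / 2 := by
    rw [norm_mul, ht, one_mul]
    have h12 : ‖1 + (s : ℂ) * (a * η)‖ ^ 2 = 1 + 2 * (s * (a * η).re) + s ^ 2 * ‖a * η‖ ^ 2 := by
      rw [← Complex.normSq_eq_norm_sq, ← Complex.normSq_eq_norm_sq, Complex.normSq_apply,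
        Complex.normSq_apply]
      simp only [Complex.add_re, Complex.one_re, Complex.add_im, Complex.one_im,
        Complex.re_ofReal_mul, Complex.im_ofReal_mul]
      ring
    have h13 : s ^ 2 * ‖a * η‖ ^ 2 ≤ s * c := by
      have h14 : ‖a * η‖ ^ 2 ≤ (‖a‖ * C) ^ 2 := pow_le_pow_left₀ (norm_nonneg _) hz 2
      nlinarith [mul_pos hs0 hs0]
    have h15 : s * (a * η).re ≤ s * (-c) := mul_le_mul_of_nonneg_left hre hs0.le
    have h16 : ‖1 + (s : ℂ) * (a * η)‖ ^ 2 ≤ (1 - s * c / 2) ^ 2 := by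
      rw [h12]
      nlinarith [mul_pos hs0 hc]
    exact (sq_le_sq₀ (norm_nonneg _) (by linarith)).1 h16
  have h12 : ‖t * (1 + s * (a * η))‖ < 1 := by
    have := mul_pos hs0 hc
    linarith
  refine h1 _ _ h12 ?_
  refine h8.trans ?_
  have h13 : δ * c / (2 * C) * ‖(s : ℂ) * η‖ ≤ δ * c / (2 * C) * (s * C) :=
    mul_le_mul_of_nonneg_left h10 (by positivity)
  have h14 : δ * c / (2 * C) * (s * C) = δ * (s * c / 2) := by
    field_simp
  rw [h14] at h13
  refine h13.trans (mul_le_mul_of_nonneg_left ?_ hδ.le)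
  linarith

private theorem ray {A : Set ℂ} {g : ℂ → ℂ} {t a q : ℂ} {B : Op} (ht : ‖t‖ = 1) (ha : a ≠ 0)
    (hlim : ∀ eps > 0, ∀ᶠ l in 𝓝 q, l ∉ K → ‖g l - t * (1 + a * (l - q))‖ ≤ eps * ‖l - q‖)
    (hA : A ⊆ Kᶜ) {η0 : ℂ} {ρ : ℝ} (hρ : 0 < ρ) (hre : (a * η0).re < 0)
    (hin : ∀ᶠ s : ℝ in 𝓝[>] 0, ∀ η ∈ ball η0 ρ, q + s * η ∈ A)
    (hB : Tendsto (fun l => ‖(en (g l)).comp B‖) (𝓝[A] q) (𝓝 0)) {η1 : ℂ} (h1 : (a * η1).re < 0)
    (hK : ∀ᶠ s : ℝ in 𝓝[>] 0, q + s * η1 ∉ K) :
    Tendsto (fun s : ℝ => ‖(en (g (q + s * η1))).comp B‖) (𝓝[>] 0) (𝓝 0) := by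
  have hap : 0 < ‖a‖ := norm_pos_iff.2 ha
  obtain ⟨c, hc⟩ : ∃ c : ℝ, c = -(a * η0).re / 2 := ⟨_, rfl⟩
  have hc0 : 0 < c := by rw [hc]; linarith
  obtain ⟨ρ1, hρ1⟩ : ∃ r : ℝ, r = min ρ (c / ‖a‖) := ⟨_, rfl⟩
  have hρ10 : 0 < ρ1 := by rw [hρ1]; exact lt_min hρ (div_pos hc0 hap)
  have hsm : ∀ (b d : ℝ), 0 < d → ∀ᶠ s : ℝ in 𝓝[>] 0, s * b < d := by
    intro b d hd
    have h4 : Tendsto (fun s : ℝ => s * b) (𝓝[>] 0) (𝓝 (0 * b)) :=
      (tendsto_id.mono_left nhdsWithin_le_nhds).mul_const b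
    rw [zero_mul] at h4
    exact h4.eventually_lt_const hd
  -- from `z` to `η`
  have hz : ∀ z ∈ ball (-(a * η0)) (ρ1 * ‖a‖), -z / a ∈ ball η0 ρ ∧ a * (-z / a) = -z ∧
      c ≤ z.re ∧ ‖-z / a‖ ≤ ‖η0‖ + ρ1 := by
    intro z hz
    rw [mem_ball, dist_eq_norm, sub_neg_eq_add] at hz
    have h2 : a * (-z / a) = -z := mul_div_cancel₀ _ ha
    have h3 : -z / a - η0 = -(z + a * η0) / a := by
      field_simp
      ring
    have h4 : ‖-z / a - η0‖ < ρ1 := by
      rw [h3, norm_div, norm_neg, div_lt_iff₀ hap]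
      exact hz
    refine ⟨?_, h2, ?_, ?_⟩
    · rw [mem_ball, dist_eq_norm]
      exact h4.trans_le (by rw [hρ1]; exact min_le_left _ _)
    · have h5 : (z + a * η0).re ≥ -(ρ1 * ‖a‖) := by
        have := Complex.abs_re_le_norm (z + a * η0)
        have h6 := neg_abs_le (z + a * η0).re
        linarith
      have h6 : ρ1 * ‖a‖ ≤ c := by
        have : ρ1 ≤ c / ‖a‖ := by rw [hρ1]; exact min_le_right _ _
        rwa [le_div_iff₀ hap] at this
      rw [Complex.add_re] at h5
      have h7 : (a * η0).re = -2 * c := by rw [hc]; ring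
      linarith
    · have h5 : -z / a = η0 + (-z / a - η0) := by ring
      rw [h5]
      exact (norm_add_le _ _).trans (by linarith)
  have hC : 0 < ‖η0‖ + ρ1 := by
    have := norm_nonneg η0
    linarith
  have hcomp : ∀ w w' : ℂ, ‖(en w').comp B‖ ≤ ‖(en w).comp B‖ + ‖en w - en w'‖ * ‖B‖ := by
    intro w w'
    have h2 : (en w').comp B = (en w).comp B - (en w - en w').comp B := by
      ext u
      simp only [ContinuousLinearMap.comp_apply, sub_apply]
      ring
    rw [h2]
    exact (norm_sub_le _ _).trans (add_le_add le_rfl (ContinuousLinearMap.opNorm_comp_le _ _))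
  have hBB : 0 < ‖B‖ + 1 := by
    have := norm_nonneg B
    linarith
  have two := two_op (B := B) ht (z0 := -(a * η0)) (rho := ρ1 * ‖a‖) (mul_pos hρ10 hap)
    (fun z hz' => hc0.trans_le (hz z hz').2.2.1) (by
      intro eps heps
      have e1 := near (K := K) ht hlim hc0 hC (eps := eps / 2 / (‖B‖ + 1)) (by positivity)
      have e2 : ∀ᶠ l in 𝓝[A] q, ‖(en (g l)).comp B‖ < eps / 2 :=
        hB.eventually_lt_const (half_pos heps)
      rw [eventually_nhdsWithin_iff] at e2
      obtain ⟨ρ2, hρ2, e3⟩ := Metric.eventually_nhds_iff_ball.1 e2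
      filter_upwards [e1, hin, hsm (‖η0‖ + ρ1) ρ2 hρ2, self_mem_nhdsWithin] with s h2 h3 h4 hs z hz'
      have hs0 : 0 < s := hs
      obtain ⟨h5, h6, h7, h8⟩ := hz z hz'
      have h9 := h3 _ h5
      have h10 := h2 (-z / a) h8 (by rw [h6, Complex.neg_re]; linarith) (hA h9)
      have h11 : q + s * (-z / a) ∈ ball q ρ2 := by
        rw [mem_ball, dist_eq_norm, add_sub_cancel_left, norm_mul, Complex.norm_real,
          Real.norm_of_nonneg hs0.le]
        exact (mul_le_mul_of_nonneg_left h8 hs0.le).trans_lt h4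
      have h12 := e3 _ h11 h9
      have h13 : t * (1 - s * z) = t * (1 + s * (a * (-z / a))) := by
        rw [h6]
        ring
      rw [h13]
      refine (hcomp (g (q + s * (-z / a))) _).trans ?_
      have h14 : ‖en (g (q + s * (-z / a))) - en (t * (1 + s * (a * (-z / a))))‖ * ‖B‖ ≤
          eps / 2 / (‖B‖ + 1) * (‖B‖ + 1) :=
        mul_le_mul h10.2 (by linarith) (norm_nonneg _) (by positivity)
      rw [div_mul_cancel₀ _ hBB.ne'] at h14
      linarith)
    (z1 := -(a * η1)) (by rw [Complex.neg_re]; linarith)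
  rw [Metric.tendsto_nhds]
  intro eps heps
  have e1 := near (K := K) ht hlim (c := -(a * η1).re) (by linarith) (C := ‖η1‖ + 1)
    (by have := norm_nonneg η1; linarith) (eps := eps / 2 / (‖B‖ + 1)) (by positivity)
  have e2 : ∀ᶠ s : ℝ in 𝓝[>] 0, ‖(en (t * (1 - s * (-(a * η1))))).comp B‖ < eps / 2 :=
    two.eventually_lt_const (half_pos heps)
  filter_upwards [e1, e2, hK] with s h2 h3 h4
  have h5 := (h2 η1 (by linarith) (by linarith) h4).2
  rw [dist_zero_right, norm_norm]
  have h13 : t * (1 - s * (-(a * η1))) = t * (1 + s * (a * η1)) := by ring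
  rw [h13] at h3
  refine (hcomp (t * (1 + s * (a * η1))) _).trans_lt ?_
  rw [norm_sub_rev]
  have h14 : ‖en (g (q + s * η1)) - en (t * (1 + s * (a * η1)))‖ * ‖B‖ ≤
      eps / 2 / (‖B‖ + 1) * (‖B‖ + 1) :=
    mul_le_mul h5 (by linarith) (norm_nonneg _) (by positivity)
  rw [div_mul_cancel₀ _ hBB.ne'] at h14
  linarith

/-! ### The factor -/

theorem fct_b {K : Set ℂ} {t a q : ℂ} {g : ℂ → ℂ} (ht : ‖t‖ = 1) (ha : a ≠ 0)
    (off : ∀ᶠ l in 𝓝 q, l ∉ K → ‖g l‖ ≠ 1)
    (lim : ∀ eps > 0, ∀ᶠ l in 𝓝 q, l ∉ K → ‖g l - t * (1 + a * (l - q))‖ ≤ eps * ‖l - q‖) :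
    Fct K q t a (fun l y => e y - g l) (fun _ => 1) (fun l => fourier 1 - algebraMap ℂ CT (g l))
      (fun l => en (g l)) (fun l => kn (g l)) (fun l => ‖g l‖ < 1) := by
  have hct : ∀ w : ℂ, (fun y : UnitAddCircle => e y - w) =
      fun y => (fourier 1 - algebraMap ℂ CT w : CT) y := by
    intro w
    funext y
    rw [ContinuousMap.sub_apply, fourier_one_apply]
    rfl
  refine ⟨⟨ht, ha, fun l f => inner_kn (g l) f, ?_, ?_, ?_, ?_⟩, ?_, ?_, ?_, ?_, ?_, ?_, ?_⟩
  · exact Eventually.of_forall fun l _ hl => norm_kn hl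
  · -- concentration
    intro psi s hs eps heps
    subst hs
    have h1 := (Metric.tendsto_nhds.1 (cc_all s psi)) eps heps
    rw [eventually_nhdsWithin_iff] at h1
    obtain ⟨δ, hδ, h2⟩ := Metric.eventually_nhds_iff.1 h1
    have hap : 0 < ‖a‖ + 1 := by
      have := norm_nonneg a
      linarith
    filter_upwards [lim 1 one_pos, Metric.ball_mem_nhds q (div_pos hδ hap)] with l h3 h4 hK hl
    have h5 := h3 hK
    have h6 : dist (g l) (e s) < δ := by
      rw [dist_eq_norm]
      have h7 : g l - e s = (g l - e s * (1 + a * (l - q))) + e s * (a * (l - q)) := by ring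
      rw [h7]
      refine (norm_add_le _ _).trans_lt ?_
      rw [norm_mul, ht, one_mul, norm_mul]
      rw [mem_ball, dist_eq_norm, lt_div_iff₀ hap] at h4
      nlinarith [norm_nonneg (l - q)]
    have h8 := h2 h6 (mem_ball_zero_iff.2 hl)
    rw [dist_zero_right, norm_norm] at h8
    exact h8.le
  · -- rays
    intro B A η0 ρ hA hρ hre hin hB η1 h1 hK
    exact ray ht ha lim hA hρ hre hin hB h1 hK
  · -- sides
    intro kap hkap
    have hap : 0 ≤ ‖a‖ := norm_nonneg a
    have hδ : 0 < kap / (‖a‖ ^ 2 + 1 + kap ^ 2) := by positivity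
    filter_upwards [lim (kap / 4) (by positivity), Metric.ball_mem_nhds q hδ] with l h1 h2 hK
    have h3 := h1 hK
    rw [mem_ball, dist_eq_norm, lt_div_iff₀ (by positivity)] at h2
    obtain ⟨d, hd⟩ : ∃ d, d = ‖l - q‖ := ⟨_, rfl⟩
    have hd0 : 0 ≤ d := by rw [hd]; exact norm_nonneg _
    obtain ⟨w, hw⟩ : ∃ w, w = a * (l - q) := ⟨_, rfl⟩
    have hwn : ‖w‖ = ‖a‖ * d := by rw [hw, norm_mul, hd]
    rw [← hd] at h2 h3 ⊢
    rw [← hw] at h3 ⊢
    have e1 : ‖t * (1 + w)‖ = ‖1 + w‖ := by rw [norm_mul, ht, one_mul]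
    have e2 : ‖1 + w‖ ^ 2 = 1 + 2 * w.re + ‖w‖ ^ 2 := by
      rw [← Complex.normSq_eq_norm_sq, ← Complex.normSq_eq_norm_sq, Complex.normSq_apply,
        Complex.normSq_apply]
      simp only [Complex.add_re, Complex.one_re, Complex.add_im, Complex.one_im]
      ring
    have e3 : ‖g l‖ ≤ ‖1 + w‖ + kap / 4 * d := by
      have h4 : g l = t * (1 + w) + (g l - t * (1 + w)) := by ring
      rw [← e1]
      calc ‖g l‖ = ‖t * (1 + w) + (g l - t * (1 + w))‖ := by rw [← h4]
        _ ≤ _ := (norm_add_le _ _).trans (add_le_add le_rfl h3)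
    have e4 : ‖1 + w‖ ≤ ‖g l‖ + kap / 4 * d := by
      have h4 : t * (1 + w) = g l - (g l - t * (1 + w)) := by ring
      rw [← e1]
      calc ‖t * (1 + w)‖ = ‖g l - (g l - t * (1 + w))‖ := by rw [← h4]
        _ ≤ _ := (norm_sub_le _ _).trans (add_le_add le_rfl h3)
    refine ⟨fun h4 h5 => ?_, fun h4 => ?_⟩
    · -- outside
      have h6 : 1 + w.re ≤ ‖1 + w‖ := by
        have := Complex.re_le_norm (1 + w)
        rwa [Complex.add_re, Complex.one_re] at this
      nlinarith
    · -- inside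
      have hdp : 0 < d := by
        rcases hd0.lt_or_eq with h | h
        · exact h
        · exfalso
          have h5 : ‖w‖ = 0 := by rw [hwn, ← h, mul_zero]
          rw [norm_eq_zero] at h5
          rw [h5, ← h] at h4
          simp at h4
      have h6 : ‖1 + w‖ ≤ 1 - kap * d / 2 := by
        have h7 : kap * d ≤ 1 := by
          by_contra hcon
          push Not at hcon
          have h8 : kap * (d * (‖a‖ ^ 2 + 1 + kap ^ 2)) < kap * kap := mul_lt_mul_of_pos_left h2 hkap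
          have h9 : 1 * (‖a‖ ^ 2 + 1 + kap ^ 2) < kap * d * (‖a‖ ^ 2 + 1 + kap ^ 2) :=
            mul_lt_mul_of_pos_right hcon (by positivity)
          nlinarith [sq_nonneg ‖a‖]
        have h8 : ‖w‖ ^ 2 ≤ kap * d := by
          rw [hwn, mul_pow]
          have h9 : ‖a‖ ^ 2 * d ≤ kap := by nlinarith
          nlinarith
        have h9 : ‖1 + w‖ ^ 2 ≤ (1 - kap * d / 2) ^ 2 := by
          rw [e2]
          nlinarith [mul_pos hkap hdp]
        exact (sq_le_sq₀ (norm_nonneg _) (by linarith)).1 h9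
      have h7 := mul_pos hkap hdp
      linarith
  · refine Eventually.of_forall fun l _ => ?_
    have h := memLp_ct (fourier 1 - algebraMap ℂ CT (g l))
    rw [← hct] at h
    exact h
  · refine Eventually.of_forall fun l _ => Eventually.of_forall fun y => ?_
    have h := congrFun (hct (g l)) y
    change (1 : ℂ) * (e y - g l) = _
    rw [one_mul]
    exact h
  · refine Eventually.of_forall fun l => ?_
    have h := minus_algebraMap 1
    rw [map_one] at h
    exact h
  · exact Eventually.of_forall fun l => (plus_fourier (by norm_num)).sub (plus_algebraMap _)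
  · exact tendsto_const_nhds
  · exact fun y _ => one_ne_zero
  · refine Eventually.of_forall fun l _ hl h => ?_
    have h1 : TM (mf fun y => e y - g l) = S - g l • (1 : Hardy →L[ℂ] Hardy) := by
      rw [hct, mf_ct, TM_mul]
      have h2 : (fourier 1 - algebraMap ℂ CT (g l) : CT) = fourier 1 + (-(g l)) • (1 : CT) := by
        ext y
        rw [ContinuousMap.sub_apply, ContinuousMap.add_apply, ContinuousMap.smul_apply,
          ContinuousMap.one_apply, smul_eq_mul, mul_one, sub_eq_add_neg]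
        rfl
      refine ContinuousLinearMap.ext fun f => ?_
      have h3 : T (fourier 1 + (-(g l)) • (1 : CT)) f =
          proj (mul (fourier 1 + (-(g l)) • (1 : CT)) (incl f)) := rfl
      have h4 : (S - g l • (1 : Hardy →L[ℂ] Hardy)) f = S f - g l • f := rfl
      rw [h2, h3, h4, mul_add_symbol, mul_smul_symbol, mul_one_symbol, add_apply, map_add]
      have h5 : ((-(g l)) • ContinuousLinearMap.id ℂ L2) (incl f) = (-(g l)) • incl f := rfl
      have h6 : proj (incl f) = f := proj_incl f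
      have h7 : proj (mul (fourier 1) (incl f)) = S f := rfl
      rw [h5, map_smul, h6, h7, neg_smul, sub_eq_add_neg]
    rw [h1, kr_en_apply, ev_S_sub hl, sub_self, zero_mul, mul_zero]

end Pool.Agent.TBirX
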