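import Pool.Agent.TBirX.Def
import Pool.Agent.TBirN.Tc

/-!
# Two constants for an analytic family of functionals

As `two_op` in TBirN/Tc.lean: `l = q - s z / a`, `z` in the right half plane, `G z = sqrt s * Λ (q - s z / a) (B f)` for `f` in the unit ball is analytic (for `s` small, `z` in a bounded set), at most `C' / sqrt (re z)`, and at most `C' eps` for `z` near `- a η0`. A chain of discs from `- a η0` to `- a η1` (`small_disc`).
-/

set_option autoImplicit false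

open MeasureTheory Complex Set Filter Topology Metric AddCircle
open scoped ComplexConjugate InnerProductSpace ENNReal

namespace Pool.Agent.TBirX

open Pool.Agent.TBir Pool.Agent.TBirG Pool.Agent.TBirC Pool.Agent.TBirJ Pool.Agent.TBirK
open Pool.Agent.TBirN
open Pool.Agent.TBirP (E qT)

/-- Uniform smallness near a point of the half plane. -/
private def Un (Λ : ℂ → (Hardy →L[ℂ] ℂ)) (B : Op) (q η : ℂ) (r : ℝ) : Prop :=
  ∀ eps > 0, ∀ᶠ s : ℝ in 𝓝[>] 0, ∀ η' ∈ ball η r,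
    ‖(Λ (q + s * η')).comp B‖ ≤ eps * ‖Λ (q + s * η')‖

private theorem tf_bd {Λ : ℂ → (Hardy →L[ℂ] ℂ)} {q a : ℂ} {R c C : ℝ}
    (hn : ∀ l ∈ ball q R, (a * (l - q)).re < 0 → c ≤ ‖Λ l‖ ^ 2 * -(a * (l - q)).re ∧
      ‖Λ l‖ ^ 2 * -(a * (l - q)).re ≤ C) {s : ℝ} (hs : 0 < s) {y : ℂ} (hy : s * ‖y‖ < R)
    {α β : ℝ} (hα : 0 < α) (h1 : α ≤ -(a * y).re) (h2 : -(a * y).re ≤ β) :
    q + s * y ∈ ball q R ∧ (a * (q + s * y - q)).re < 0 ∧
      ‖Λ (q + s * y)‖ * Real.sqrt s ≤ Real.sqrt ((|C| + 1) / α) ∧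
      Real.sqrt (c / β) ≤ ‖Λ (q + s * y)‖ * Real.sqrt s := by
  have hm : q + s * y ∈ ball q R := by
    rw [mem_ball, dist_eq_norm, add_sub_cancel_left, norm_mul, Complex.norm_real,
      Real.norm_of_nonneg hs.le]
    exact hy
  have e : (a * (q + s * y - q)).re = s * (a * y).re := by
    have : a * (q + s * y - q) = (s : ℂ) * (a * y) := by ring
    rw [this, Complex.re_ofReal_mul]
  have hneg : (a * (q + s * y - q)).re < 0 := by
    rw [e]
    exact mul_neg_of_pos_of_neg hs (by linarith)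
  have hβ : 0 < β := by linarith
  obtain ⟨h3, h4⟩ := hn _ hm hneg
  rw [e] at h3 h4
  have hsq : (‖Λ (q + s * y)‖ * Real.sqrt s) ^ 2 = ‖Λ (q + s * y)‖ ^ 2 * s := by
    rw [mul_pow, Real.sq_sqrt hs.le]
  have hN : 0 ≤ ‖Λ (q + s * y)‖ ^ 2 * s := by positivity
  refine ⟨hm, hneg, ?_, ?_⟩
  · apply Real.le_sqrt_of_sq_le
    rw [hsq, le_div_iff₀ hα]
    have h5 := mul_le_mul_of_nonneg_left h1 hN
    have h6 := le_abs_self C
    nlinarith
  · rw [Real.sqrt_le_iff]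
    refine ⟨by positivity, ?_⟩
    rw [hsq, div_le_iff₀ hβ]
    have h5 := mul_le_mul_of_nonneg_left h2 hN
    nlinarith

private theorem Un.prop {Λ : ℂ → (Hardy →L[ℂ] ℂ)} {q a : ℂ} (ha : a ≠ 0) {R c C : ℝ} (hR : 0 < R)
    (hc : 0 < c) (hd : ∀ f, DifferentiableOn ℂ (fun l => Λ l f) {l | l ∈ ball q R ∧ (a * (l - q)).re < 0})
    (hn : ∀ l ∈ ball q R, (a * (l - q)).re < 0 → c ≤ ‖Λ l‖ ^ 2 * -(a * (l - q)).re ∧
      ‖Λ l‖ ^ 2 * -(a * (l - q)).re ≤ C) {B : Op} {η : ℂ} (hη : (a * η).re < 0) {r : ℝ}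
    (hr : 0 < r) (h : Un Λ B q η r) : Un Λ B q η (-(a * η).re / (4 * ‖a‖)) := by
  have han : 0 < ‖a‖ := norm_pos_iff.2 ha
  obtain ⟨T, hTd⟩ : ∃ T : ℝ, T = -(a * η).re / (2 * ‖a‖) := ⟨_, rfl⟩
  have hT : 0 < T := by
    rw [hTd]
    exact div_pos (by linarith) (by positivity)
  have hTa : ‖a‖ * T * 2 = -(a * η).re := by
    rw [hTd]
    field_simp
  obtain ⟨L, hLd⟩ : ∃ L : ℝ, L = ‖η‖ + T := ⟨_, rfl⟩
  have hL : 0 < L := by rw [hLd]; positivity
  have hre : ∀ y ∈ ball η T, ‖a‖ * T ≤ -(a * y).re ∧ -(a * y).re ≤ ‖a‖ * L ∧ ‖y‖ ≤ L := by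
    intro y hy
    rw [mem_ball, dist_eq_norm] at hy
    have h1 := Complex.abs_re_le_norm (a * (y - η))
    rw [mul_sub, Complex.sub_re, ← mul_sub, norm_mul] at h1
    have h2 := le_abs_self ((a * y).re - (a * η).re)
    have h3 : ‖y‖ ≤ ‖η‖ + ‖y - η‖ := by
      have := norm_add_le η (y - η)
      rwa [add_sub_cancel] at this
    have h4 := Complex.abs_re_le_norm (a * y)
    rw [norm_mul] at h4
    have h5 := neg_abs_le (a * y).re
    have h6 : ‖a‖ * ‖y - η‖ ≤ ‖a‖ * T := mul_le_mul_of_nonneg_left hy.le han.le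
    have h7 : ‖a‖ * ‖y‖ ≤ ‖a‖ * L := mul_le_mul_of_nonneg_left (by linarith) han.le
    exact ⟨by linarith, by linarith, by linarith⟩
  have haT : 0 < ‖a‖ * T := by positivity
  have haL : 0 < ‖a‖ * L := by positivity
  obtain ⟨S1, hS1d⟩ : ∃ S1 : ℝ, S1 = Real.sqrt ((|C| + 1) / (‖a‖ * T)) := ⟨_, rfl⟩
  have hS1 : 0 < S1 := by
    rw [hS1d]
    exact Real.sqrt_pos.2 (by positivity)
  obtain ⟨S2, hS2d⟩ : ∃ S2 : ℝ, S2 = Real.sqrt (c / (‖a‖ * L)) := ⟨_, rfl⟩
  have hS2 : 0 < S2 := by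
    rw [hS2d]
    exact Real.sqrt_pos.2 (by positivity)
  intro eps heps
  obtain ⟨δ, hδ, hsd⟩ := small_disc (R := T) (rho := min r (T / 2)) (lt_min hr (by positivity))
    ((min_le_right _ _).trans_lt (by linarith)) (M := (‖B‖ + 1) * S1) (by positivity)
    (eps := eps * S2) (by positivity)
  have h2 : ∀ᶠ s : ℝ in 𝓝[>] 0, s ∈ Ioo 0 (R / L) := Ioo_mem_nhdsGT (by positivity)
  filter_upwards [h (δ / S1) (by positivity), h2] with s hs hs2 z' hz'
  have hs0 : 0 < s := hs2.1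
  have hsL : s * L < R := by
    have := hs2.2
    rwa [lt_div_iff₀ hL] at this
  have hb : ∀ y ∈ ball η T, q + s * y ∈ ball q R ∧ (a * (q + s * y - q)).re < 0 ∧
      ‖Λ (q + s * y)‖ * Real.sqrt s ≤ S1 ∧ S2 ≤ ‖Λ (q + s * y)‖ * Real.sqrt s := by
    intro y hy
    obtain ⟨h3, h4, h5⟩ := hre y hy
    have h6 : s * ‖y‖ < R := (mul_le_mul_of_nonneg_left h5 hs0.le).trans_lt hsL
    rw [hS1d, hS2d]
    exact tf_bd hn hs0 h6 haT h3 h4
  have hss : 0 < Real.sqrt s := Real.sqrt_pos.2 hs0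
  refine ContinuousLinearMap.opNorm_le_of_unit_norm (by positivity) fun f hf => ?_
  have hGn : ∀ y, ‖(Real.sqrt s : ℂ) * Λ (q + s * y) (B f)‖ =
      Real.sqrt s * ‖((Λ (q + s * y)).comp B) f‖ := by
    intro y
    rw [norm_mul, Complex.norm_real, Real.norm_of_nonneg (Real.sqrt_nonneg _)]
    rfl
  have hG : ∀ y, Real.sqrt s * ‖((Λ (q + s * y)).comp B) f‖ ≤
      Real.sqrt s * ‖(Λ (q + s * y)).comp B‖ := by
    intro y
    have h4 := ((Λ (q + s * y)).comp B).le_opNorm f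
    rw [hf, mul_one] at h4
    exact mul_le_mul_of_nonneg_left h4 hss.le
  have key := hsd η (fun y => (Real.sqrt s : ℂ) * Λ (q + s * y) (B f)) (by
      refine DifferentiableOn.const_mul ?_ _
      refine DifferentiableOn.comp (hd (B f)) (by fun_prop) ?_
      intro y hy
      exact ⟨(hb y hy).1, (hb y hy).2.1⟩) (by
      intro y hy
      rw [hGn]
      refine (hG y).trans ?_
      have h3 := (Λ (q + s * y)).opNorm_comp_le B
      have h4 := (hb y hy).2.2.1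
      calc Real.sqrt s * ‖(Λ (q + s * y)).comp B‖ ≤ Real.sqrt s * (‖Λ (q + s * y)‖ * ‖B‖) :=
            mul_le_mul_of_nonneg_left h3 hss.le
        _ = ‖B‖ * (‖Λ (q + s * y)‖ * Real.sqrt s) := by ring
        _ ≤ (‖B‖ + 1) * S1 := mul_le_mul (by linarith) h4 (by positivity) (by positivity)) (by
      intro y hy
      rw [hGn]
      have hy1 : y ∈ ball η T := ball_subset_ball ((min_le_right _ _).trans (by linarith)) hy
      refine (hG y).trans ?_
      have h3 := hs y (ball_subset_ball (min_le_left _ _) hy)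
      have h4 := (hb y hy1).2.2.1
      calc Real.sqrt s * ‖(Λ (q + s * y)).comp B‖ ≤ Real.sqrt s * (δ / S1 * ‖Λ (q + s * y)‖) :=
            mul_le_mul_of_nonneg_left h3 hss.le
        _ = δ / S1 * (‖Λ (q + s * y)‖ * Real.sqrt s) := by ring
        _ ≤ δ / S1 * S1 := mul_le_mul_of_nonneg_left h4 (by positivity)
        _ = δ := div_mul_cancel₀ _ hS1.ne') z' (by
      have e : T / 2 = -(a * η).re / (4 * ‖a‖) := by rw [hTd]; ring
      rw [e]
      exact hz')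
  rw [hGn] at key
  have hz1 : z' ∈ ball η T := by
    have e : -(a * η).re / (4 * ‖a‖) = T / 2 := by rw [hTd]; ring
    rw [e] at hz'
    exact ball_subset_ball (by linarith) hz'
  have h3 := (hb z' hz1).2.2.2
  have h4 : Real.sqrt s * ‖((Λ (q + s * z')).comp B) f‖ ≤
      Real.sqrt s * (eps * ‖Λ (q + s * z')‖) := by
    refine key.trans ?_
    have h5 := mul_le_mul_of_nonneg_left h3 heps.le
    linarith
  exact le_of_mul_le_mul_left h4 hss

theorem two_fam {Λ : ℂ → (Hardy →L[ℂ] ℂ)} {q a : ℂ} (ha : a ≠ 0) {R c C : ℝ} (hR : 0 < R)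
    (hc : 0 < c) (hd : ∀ f, DifferentiableOn ℂ (fun l => Λ l f) {l | l ∈ ball q R ∧ (a * (l - q)).re < 0})
    (hn : ∀ l ∈ ball q R, (a * (l - q)).re < 0 → c ≤ ‖Λ l‖ ^ 2 * -(a * (l - q)).re ∧
      ‖Λ l‖ ^ 2 * -(a * (l - q)).re ≤ C) {B : Op} {η0 : ℂ} {ρ : ℝ} (hρ : 0 < ρ)
    (h0 : ∀ η ∈ ball η0 ρ, (a * η).re < 0)
    (h : ∀ eps > 0, ∀ᶠ s : ℝ in 𝓝[>] 0, ∀ η ∈ ball η0 ρ,
      ‖(Λ (q + s * η)).comp B‖ ≤ eps * ‖Λ (q + s * η)‖) {η1 : ℂ} (h1 : (a * η1).re < 0) :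
    Tendsto (fun s : ℝ => ‖(Λ (q + s * η1)).comp B‖ / ‖Λ (q + s * η1)‖) (𝓝[>] 0) (𝓝 0) := by
  have hz0 : (a * η0).re < 0 := h0 η0 (mem_ball_self hρ)
  have han : 0 < ‖a‖ := norm_pos_iff.2 ha
  obtain ⟨m, hm, hm0, hm1⟩ : ∃ m : ℝ, 0 < m ∧ m ≤ -(a * η0).re ∧ m ≤ -(a * η1).re :=
    ⟨min (-(a * η0).re) (-(a * η1).re), lt_min (by linarith) (by linarith), min_le_left _ _,
      min_le_right _ _⟩
  obtain ⟨N, hN⟩ := exists_nat_gt (8 * ‖a‖ * ‖η1 - η0‖ / m)
  have hN0 : (0 : ℝ) < N := lt_of_le_of_lt (by positivity) hN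
  obtain ⟨p, hp⟩ : ∃ p : ℕ → ℂ, ∀ n, p n = η0 + ((n / N : ℝ) : ℂ) * (η1 - η0) :=
    ⟨_, fun _ => rfl⟩
  have hpre : ∀ n ≤ N, m ≤ -(a * p n).re := by
    intro n hn
    have h2 : (n : ℝ) / N ≤ 1 := by
      rw [div_le_one hN0]
      exact_mod_cast hn
    have h3 : (0 : ℝ) ≤ (n : ℝ) / N := by positivity
    have e : a * p n = a * η0 + ((n / N : ℝ) : ℂ) * (a * η1 - a * η0) := by
      rw [hp]
      ring
    rw [e]
    simp only [Complex.add_re, Complex.re_ofReal_mul, Complex.sub_re]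
    nlinarith
  have hstep : ∀ n, dist (p (n + 1)) (p n) ≤ m / (8 * ‖a‖) := by
    intro n
    rw [dist_eq_norm, hp, hp]
    have e : η0 + (((n + 1 : ℕ) / N : ℝ) : ℂ) * (η1 - η0) - (η0 + ((n / N : ℝ) : ℂ) * (η1 - η0)) =
        ((1 / N : ℝ) : ℂ) * (η1 - η0) := by
      push_cast
      ring
    rw [e, norm_mul, Complex.norm_real, Real.norm_of_nonneg (by positivity)]
    rw [div_lt_iff₀ hm] at hN
    rw [one_div_mul_eq_div, div_le_iff₀ hN0, div_mul_eq_mul_div, le_div_iff₀ (by positivity)]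
    linarith
  have hall : ∀ n ≤ N, ∃ r > 0, Un Λ B q (p n) r := by
    intro n
    induction n with
    | zero =>
      intro _
      have e : p 0 = η0 := by rw [hp]; simp
      rw [e]
      exact ⟨ρ, hρ, h⟩
    | succ n ih =>
      intro hn2
      obtain ⟨r, hr, h2⟩ := ih (by omega)
      have h3 := hpre n (by omega)
      have h4 := h2.prop ha hR hc hd hn (by linarith) hr
      refine ⟨m / (8 * ‖a‖), by positivity, fun eps heps => ?_⟩
      filter_upwards [h4 eps heps] with s hs z hz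
      refine hs z ?_
      rw [mem_ball] at hz ⊢
      have h5 := dist_triangle z (p (n + 1)) (p n)
      have h6 := hstep n
      have h7 : m / (8 * ‖a‖) + m / (8 * ‖a‖) ≤ -(a * p n).re / (4 * ‖a‖) := by
        have : m / (8 * ‖a‖) + m / (8 * ‖a‖) = m / (4 * ‖a‖) := by
          field_simp
          norm_num
        rw [this]
        exact div_le_div_of_nonneg_right h3 (by positivity)
      linarith
  obtain ⟨r, hr, h2⟩ := hall N le_rfl
  have e : p N = η1 := by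
    rw [hp, div_self hN0.ne']
    simp
  rw [e] at h2
  rw [Metric.tendsto_nhds]
  intro eps heps
  filter_upwards [h2 (eps / 2) (by positivity)] with s hs
  have h3 := hs η1 (mem_ball_self hr)
  rw [dist_zero_right, Real.norm_of_nonneg (by positivity)]
  rcases (norm_nonneg (Λ (q + s * η1))).eq_or_lt with h4 | h4
  · rw [← h4, div_zero]
    exact heps
  · rw [div_lt_iff₀ h4]
    nlinarith

end Pool.Agent.TBirX
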