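import Pool.Agent.TBirX.Kn
import Pool.Agent.TBirX.Pb
import Pool.Agent.TBirX.Tf

/-!
# The factor of a jump

`a = I / (v - u)`, `ins l` is `re (a (l - q)) < 0`, equivalent to `1 / 2 < re (bet u v l)` near `q` (`bet_lin`). `conc`: `kap_conc`, `bet` is continuous at `q`. `tc`: `two_fam` for `Λ l = innerSL (kap t (bet u v l))` (`kap_ana` and `bet_diff`, `kap_norm`, `bet_lin`), `ks = Λ / ‖Λ‖`; the set `A` gives the hypothesis on a smaller ball around `η0`.
`side`: clear. `van`: `kap_van`.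
-/

set_option autoImplicit false

open MeasureTheory Complex Set Filter Topology Metric AddCircle
open scoped ComplexConjugate InnerProductSpace ENNReal

namespace Pool.Agent.TBirX

open Pool.Agent.TBir Pool.Agent.TBirG Pool.Agent.TBirC Pool.Agent.TBirJ Pool.Agent.TBirK
open Pool.Agent.TBirN
open Pool.Agent.TBirP (E qT)

private theorem fs_ae (t : ℂ) : ∀ᵐ y ∂mu0, e y ≠ t := by
  rw [ae_iff]
  apply PsiAux.null
  have h : {y : UnitAddCircle | ¬ e y ≠ t}.Subsingleton := by
    intro y hy z hz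
    have hy' : e y = t := not_not.1 hy
    have hz' : e z = t := not_not.1 hz
    exact PsiAux.e_inj (hy'.trans hz'.symm)
  exact h.finite

private theorem fs_inner (t b : ℂ) (f : Hardy) :
    ks t b f = ((‖kap t b‖⁻¹ : ℝ) : ℂ) * inner ℂ (kap t b) f := by
  unfold ks kn1
  rw [innerSL_apply_apply, inner_smul_left, conj_ofReal]

private theorem fs_comp (t b : ℂ) (B : Op) : ‖(ks t b).comp B‖ =
    ‖(innerSL ℂ (kap t b)).comp B‖ / ‖innerSL ℂ (kap t b)‖ := by
  have h : (ks t b).comp B = ((‖kap t b‖⁻¹ : ℝ) : ℂ) • (innerSL ℂ (kap t b)).comp B := by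
    ext f
    simp only [ContinuousLinearMap.comp_apply, ContinuousLinearMap.smul_apply, smul_eq_mul,
      fs_inner, innerSL_apply_apply]
  rw [h, norm_smul, innerSL_apply_norm, norm_real, norm_inv, norm_norm, div_eq_inv_mul]

private theorem fs_norm {t b : ℂ} (h : kap t b ≠ 0) : ‖kn1 t b‖ = 1 := by
  unfold kn1
  rw [norm_smul, norm_real, norm_inv, norm_norm]
  exact inv_mul_cancel₀ (norm_ne_zero_iff.2 h)

private theorem fs_conc {t b : ℂ} {psi : CT} {z : ℂ} {eps : ℝ}
    (h : ‖mul psi (incl (kap t b)) - z • incl (kap t b)‖ ≤ eps * ‖kap t b‖) (h0 : kap t b ≠ 0) :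
    ‖mul psi (incl (kn1 t b)) - z • incl (kn1 t b)‖ ≤ eps := by
  have h1 : mul psi (incl (kn1 t b)) - z • incl (kn1 t b) =
      ((‖kap t b‖⁻¹ : ℝ) : ℂ) • (mul psi (incl (kap t b)) - z • incl (kap t b)) := by
    unfold kn1
    rw [map_smul, map_smul, smul_sub, smul_comm z]
  have h2 : 0 < ‖kap t b‖ := norm_pos_iff.2 h0
  rw [h1, norm_smul, norm_real, norm_inv, norm_norm, inv_mul_le_iff₀ h2, mul_comm]
  exact h

/-- The bounds for the norms. -/
private theorem fs_bd {t u v q : ℂ} (ht : ‖t‖ = 1) (hq : q ∈ segment ℝ u v) (h1 : q ≠ u)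
    (h2 : q ≠ v) : ∃ R c C : ℝ, 0 < R ∧ 0 < c ∧
    (∀ l ∈ ball q R, DifferentiableAt ℂ (bet u v) l ∧
      ((I / (v - u) * (l - q)).re < 0 ↔ 1 / 2 < (bet u v l).re)) ∧
    (∀ l ∈ ball q R, (I / (v - u) * (l - q)).re < 0 →
      c ≤ ‖kap t (bet u v l)‖ ^ 2 * -(I / (v - u) * (l - q)).re ∧
        ‖kap t (bet u v l)‖ ^ 2 * -(I / (v - u) * (l - q)).re ≤ C) := by
  obtain ⟨c2, C2, hc2, hC2, hlin⟩ := bet_lin hq h1 h2
  obtain ⟨c1, C1, hc1, hC1, hn⟩ := kap_norm ht (|(bet u v q).im| + 1)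
  have hd := bet_diff hq h1 h2
  have hcont : Tendsto (bet u v) (𝓝 q) (𝓝 (bet u v q)) := hd.self_of_nhds.continuousAt
  have hre : ∀ᶠ l in 𝓝 q, (bet u v l).re < 3 / 4 := by
    have h3 : Tendsto (fun l => (bet u v l).re) (𝓝 q) (𝓝 (bet u v q).re) :=
      (continuous_re.tendsto _).comp hcont
    rw [bet_re hq h1 h2] at h3
    exact h3.eventually (Iio_mem_nhds (by norm_num))
  have him : ∀ᶠ l in 𝓝 q, |(bet u v l).im| < |(bet u v q).im| + 1 := by
    have h3 : Tendsto (fun l => |(bet u v l).im|) (𝓝 q) (𝓝 |(bet u v q).im|) :=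
      ((continuous_abs.comp continuous_im).tendsto _).comp hcont
    exact h3.eventually (Iio_mem_nhds (by linarith))
  obtain ⟨R, hR, hall⟩ := Metric.eventually_nhds_iff_ball.1 (((hd.and hlin).and hre).and him)
  refine ⟨R, c1 / C2, C1 / c2, hR, by positivity, fun l hl => ?_, fun l hl hneg => ?_⟩
  · obtain ⟨⟨⟨g1, g2, -⟩, -⟩, -⟩ := hall l hl
    exact ⟨g1, g2.symm⟩
  · obtain ⟨⟨⟨g1, g2, g3⟩, g4⟩, g5⟩ := hall l hl
    obtain ⟨g6, g7⟩ := g3 hneg
    obtain ⟨g8, g9⟩ := hn (bet u v l) (g2.2 hneg) g4.le g5.le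
    have hx : 0 < -(I / (v - u) * (l - q)).re := by linarith
    have hk : 0 ≤ ‖kap t (bet u v l)‖ ^ 2 := by positivity
    constructor
    · rw [div_le_iff₀ hC2]
      calc c1 ≤ ‖kap t (bet u v l)‖ ^ 2 * ((bet u v l).re - 1 / 2) := g8
        _ ≤ ‖kap t (bet u v l)‖ ^ 2 * (C2 * -(I / (v - u) * (l - q)).re) := by gcongr
        _ = ‖kap t (bet u v l)‖ ^ 2 * -(I / (v - u) * (l - q)).re * C2 := by ring
    · rw [le_div_iff₀ hc2]
      calc ‖kap t (bet u v l)‖ ^ 2 * -(I / (v - u) * (l - q)).re * c2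
          = ‖kap t (bet u v l)‖ ^ 2 * (c2 * -(I / (v - u) * (l - q)).re) := by ring
        _ ≤ ‖kap t (bet u v l)‖ ^ 2 * ((bet u v l).re - 1 / 2) := by gcongr
        _ ≤ C1 := g9

private theorem fs_fam (K : Set ℂ) {t u v q : ℂ} (ht : ‖t‖ = 1) (hq : q ∈ segment ℝ u v)
    (h1 : q ≠ u) (h2 : q ≠ v) : Fam K q t (I / (v - u)) (fun l => ks t (bet u v l))
      (fun l => kn1 t (bet u v l)) (fun l => (I / (v - u) * (l - q)).re < 0) := by
  obtain ⟨R, c, C, hR, hc, hball, hnorm⟩ := fs_bd ht hq h1 h2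
  have hcont : Tendsto (bet u v) (𝓝 q) (𝓝 (bet u v q)) :=
    (hball q (mem_ball_self hR)).1.continuousAt
  have huv : v - u ≠ 0 := by
    intro h
    rw [sub_eq_zero.1 h, segment_same] at hq
    exact h1 hq
  have hkap : ∀ l ∈ ball q R, (I / (v - u) * (l - q)).re < 0 → kap t (bet u v l) ≠ 0 := by
    intro l hl hneg h0
    have h3 := (hnorm l hl hneg).1
    rw [h0, norm_zero] at h3
    norm_num at h3
    linarith
  have hballR : ∀ᶠ l in 𝓝 q, l ∈ ball q R := ball_mem_nhds _ hR
  refine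
    { n := ht
      a0 := div_ne_zero I_ne_zero huv
      rep := fun l f => ?_
      unit := ?_
      conc := ?_
      tc := ?_
      side := ?_ }
  · rfl
  · filter_upwards [hballR] with l hl _ hins
    exact fs_norm (hkap l hl hins)
  · intro psi s hs eps heps
    obtain ⟨δ, hδ, hδ'⟩ := kap_conc ht (|(bet u v q).im| + 1) psi hs heps
    have hre : ∀ᶠ l in 𝓝 q, (bet u v l).re < 1 / 2 + δ := by
      have h3 : Tendsto (fun l => (bet u v l).re) (𝓝 q) (𝓝 (bet u v q).re) :=
        (continuous_re.tendsto _).comp hcont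
      rw [bet_re hq h1 h2] at h3
      exact h3.eventually (Iio_mem_nhds (by linarith))
    have him : ∀ᶠ l in 𝓝 q, |(bet u v l).im| < |(bet u v q).im| + 1 := by
      have h3 : Tendsto (fun l => |(bet u v l).im|) (𝓝 q) (𝓝 |(bet u v q).im|) :=
        ((continuous_abs.comp continuous_im).tendsto _).comp hcont
      exact h3.eventually (Iio_mem_nhds (by linarith))
    filter_upwards [hballR, hre, him] with l hl g1 g2 _ hins
    exact fs_conc (hδ' _ ((hball l hl).2.1 hins) g1 g2.le) (hkap l hl hins)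
  · intro B A η0 ρ hA hρ hη0 hev hT η1 hη1 _
    have hopen : IsOpen {η : ℂ | (I / (v - u) * η).re < 0} :=
      isOpen_lt (by fun_prop) continuous_const
    obtain ⟨ρ1, hρ1, hρ1'⟩ := Metric.isOpen_iff.1 hopen η0 hη0
    have key := two_fam (Λ := fun l => innerSL ℂ (kap t (bet u v l))) (q := q)
      (a := I / (v - u)) (div_ne_zero I_ne_zero huv) (R := R) (c := c) (C := C) hR hc ?_ ?_
      (B := B) (η0 := η0) (ρ := min ρ ρ1) (lt_min hρ hρ1) ?_ ?_ hη1
    · refine key.congr fun s => ?_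
      exact (fs_comp t (bet u v (q + s * η1)) B).symm
    · intro f
      have h3 := kap_ana ht f
      have h4 : DifferentiableOn ℂ (bet u v)
          {l | l ∈ ball q R ∧ (I / (v - u) * (l - q)).re < 0} :=
        fun l hl => (hball l hl.1).1.differentiableWithinAt
      exact h3.comp h4 fun l hl => (hball l hl.1).2.1 hl.2
    · intro l hl hneg
      simp only [innerSL_apply_norm]
      exact hnorm l hl hneg
    · intro η hη
      exact hρ1' (ball_subset_ball (min_le_right _ _) hη)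
    · intro eps heps
      have h3 : ∀ᶠ l in 𝓝[A] q, ‖(ks t (bet u v l)).comp B‖ < eps := by
        have := hT.eventually (Iio_mem_nhds heps)
        exact this
      rw [eventually_nhdsWithin_iff] at h3
      obtain ⟨r, hr, hr'⟩ := Metric.eventually_nhds_iff_ball.1 h3
      have h4 : ∀ᶠ s : ℝ in 𝓝[>] 0, s < r / (‖η0‖ + ρ) :=
        mem_nhdsWithin_of_mem_nhds (Iio_mem_nhds (by positivity))
      filter_upwards [hev, h4, self_mem_nhdsWithin] with s g1 g2 g3 η hη
      have hs : (0 : ℝ) < s := g3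
      have hη' : η ∈ ball η0 ρ := ball_subset_ball (min_le_left _ _) hη
      have hηn : ‖η‖ < ‖η0‖ + ρ := by
        have h5 : ‖η - η0‖ < ρ := by rwa [← dist_eq_norm]
        calc ‖η‖ = ‖η0 + (η - η0)‖ := by rw [add_sub_cancel]
          _ ≤ ‖η0‖ + ‖η - η0‖ := norm_add_le _ _
          _ < ‖η0‖ + ρ := by linarith
      have hin : q + s * η ∈ ball q r := by
        rw [mem_ball, dist_eq_norm, add_sub_cancel_left, norm_mul, norm_real,
          Real.norm_of_nonneg hs.le]
        have h5 : s * (‖η0‖ + ρ) < r := by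
          rwa [lt_div_iff₀ (by positivity)] at g2
        have h6 : s * ‖η‖ ≤ s * (‖η0‖ + ρ) := by gcongr
        linarith
      have h7 := hr' _ hin (g1 η hη')
      rw [fs_comp] at h7
      rcases (norm_nonneg (innerSL ℂ (kap t (bet u v (q + s * η))))).eq_or_lt with h8 | h8
      · rw [← h8, mul_zero]
        have h9 : innerSL ℂ (kap t (bet u v (q + s * η))) = 0 := norm_eq_zero.1 h8.symm
        rw [h9, ContinuousLinearMap.zero_comp, norm_zero]
      · rw [div_lt_iff₀ h8] at h7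
        exact h7.le
  · intro kap' _
    refine Eventually.of_forall fun l _ => ⟨fun h3 h4 => ?_, fun h3 => ?_⟩
    · have h5 : 0 ≤ kap' * ‖l - q‖ := by positivity
      linarith
    · have h5 : 0 ≤ kap' * ‖l - q‖ := by positivity
      linarith

theorem fct_s (K : Set ℂ) {t u v q : ℂ} (ht : ‖t‖ = 1) (hq : q ∈ segment ℝ u v) (h1 : q ≠ u)
    (h2 : q ≠ v) : Fct K q t (I / (v - u)) (fun l => eta t (bet u v l))
      (fun l => pwM t (bet u v l)) (fun l => pwP t (bet u v l)) (fun l => ks t (bet u v l))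
      (fun l => kn1 t (bet u v l)) (fun l => (I / (v - u) * (l - q)).re < 0) := by
  obtain ⟨R, c, C, hR, hc, hball, hnorm⟩ := fs_bd ht hq h1 h2
  have hcont : Tendsto (bet u v) (𝓝 q) (𝓝 (bet u v q)) :=
    (hball q (mem_ball_self hR)).1.continuousAt
  have hballR : ∀ᶠ l in 𝓝 q, l ∈ ball q R := ball_mem_nhds _ hR
  have hq0 : 0 < (bet u v q).re := by
    rw [bet_re hq h1 h2]
    norm_num
  have hpos : ∀ᶠ l in 𝓝 q, 0 < (bet u v l).re := by
    have h3 : Tendsto (fun l => (bet u v l).re) (𝓝 q) (𝓝 (bet u v q).re) :=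
      (continuous_re.tendsto _).comp hcont
    exact h3.eventually (Ioi_mem_nhds hq0)
  refine
    { fam := fs_fam K ht hq h1 h2
      bm := Eventually.of_forall fun l _ => eta_memLp ht _
      om := ?_
      minus := ?_
      plus := ?_
      lim := ?_
      nz := fun y hy => pwM_ne ht hq0 hy
      van := ?_ }
  · filter_upwards [hpos] with l hl _
    filter_upwards [fs_ae t] with y hy
    exact pwM_eta ht hl hy
  · filter_upwards [hpos] with l hl
    exact pwM_minus ht hl
  · filter_upwards [hpos] with l hl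
    exact pwP_plus ht hl
  · exact (pwM_tendsto ht hq0).tendsto.comp hcont
  · filter_upwards [hballR] with l hl _ hins h
    rw [fs_inner, kap_van ht ((hball l hl).2.1 hins) h, mul_zero]

end Pool.Agent.TBirX
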