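import Pool.Agent.TBirX.Pw

/-!
# The functions of a jump, estimates

`pwM_low`: `|pwM t b y| = |1 - w| ^ (re b) * exp (- im b * arg)`, `w = conj t (e y)`, `|1 - w| = ‖e y - t‖`. `pwM_diff`:
`pwM t b y = (1 - w) ^ (2 / 5) * pwM t (b - 2 / 5) y` and `b ↦ pwM t (b - 2 / 5)` is continuous at `b0` for the uniform norm.
-/

set_option autoImplicit false

open MeasureTheory Complex Set Filter Topology Metric AddCircle
open scoped ComplexConjugate InnerProductSpace ENNReal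

namespace Pool.Agent.TBirX

open Pool.Agent.TBir Pool.Agent.TBirG Pool.Agent.TBirC Pool.Agent.TBirJ Pool.Agent.TBirK
open Pool.Agent.TBirN
open Pool.Agent.TBirP (E qT)

theorem pwM_base (t : ℂ) (y : UnitAddCircle) : ‖1 - t * conj (e y)‖ = ‖e y - t‖ := by
  have h0 : ‖e y‖ = 1 := Circle.norm_coe _
  have h1 : e y * conj (e y) = 1 := by
    rw [Complex.mul_conj, Complex.normSq_eq_norm_sq, h0]
    simp
  have h2 : 1 - t * conj (e y) = (e y - t) * conj (e y) := by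
    rw [sub_mul, h1]
  rw [h2, norm_mul, RCLike.norm_conj, h0, mul_one]

theorem pwM_low {t b0 : ℂ} (ht : ‖t‖ = 1) (hb : b0.re = 1 / 2) : ∃ c > 0, ∀ᶠ b in 𝓝 b0,
    ∀ y : UnitAddCircle, c * ‖e y - t‖ ^ ((3 : ℝ) / 5) ≤ ‖pwM t b y‖ := by
  set M : ℝ := |b0.im| + 1 with hM
  have hM0 : 0 < M := by positivity
  refine ⟨1 / 2 * Real.exp (-(Real.pi * M)), by positivity, ?_⟩
  have e1 : ∀ᶠ b : ℂ in 𝓝 b0, 0 < b.re :=
    (continuous_re.tendsto b0).eventually (lt_mem_nhds (by rw [hb]; norm_num))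
  have e2 : ∀ᶠ b : ℂ in 𝓝 b0, b.re < 3 / 5 :=
    (continuous_re.tendsto b0).eventually (gt_mem_nhds (by rw [hb]; norm_num))
  have e3 : ∀ᶠ b : ℂ in 𝓝 b0, |b.im| < M :=
    ((continuous_abs.comp continuous_im).tendsto b0).eventually
      (gt_mem_nhds (by show |b0.im| < M; rw [hM]; linarith))
  filter_upwards [e1, e2, e3] with b h1 h2 h3 y
  rw [pwM_apply ht h1, ← pwM_base t y]
  have hw2 : ‖1 - t * conj (e y)‖ ≤ 2 := by
    have h0 : ‖e y‖ = 1 := Circle.norm_coe _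
    calc ‖1 - t * conj (e y)‖ ≤ ‖(1 : ℂ)‖ + ‖t * conj (e y)‖ := norm_sub_le _ _
      _ = 2 := by
        rw [norm_mul, RCLike.norm_conj, h0, ht, norm_one]
        norm_num
  generalize 1 - t * conj (e y) = w at hw2 ⊢
  by_cases hw0 : w = 0
  · rw [hw0, norm_zero, Real.zero_rpow (by norm_num), mul_zero]
    exact norm_nonneg _
  · have hr : 0 < ‖w‖ := norm_pos_iff.2 hw0
    rw [Complex.norm_cpow_of_ne_zero hw0]
    have k1 : ‖w‖ ^ b.re = ‖w‖ ^ ((3 : ℝ) / 5) * ‖w‖ ^ (b.re - 3 / 5) := by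
      rw [← Real.rpow_add hr]
      congr 1
      ring
    have k2 : (1 : ℝ) / 2 ≤ ‖w‖ ^ (b.re - 3 / 5) := by
      calc (1 : ℝ) / 2 = 2 ^ (-1 : ℝ) := by
            rw [Real.rpow_neg_one]
            norm_num
        _ ≤ 2 ^ (b.re - 3 / 5) :=
          Real.rpow_le_rpow_of_exponent_le (by norm_num) (by linarith)
        _ ≤ ‖w‖ ^ (b.re - 3 / 5) := Real.rpow_le_rpow_of_nonpos hr hw2 (by linarith)
    have k3 : Real.exp (arg w * b.im) ≤ Real.exp (Real.pi * M) := by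
      apply Real.exp_le_exp.2
      calc arg w * b.im ≤ |arg w * b.im| := le_abs_self _
        _ = |arg w| * |b.im| := abs_mul _ _
        _ ≤ Real.pi * M :=
          mul_le_mul (Complex.abs_arg_le_pi w) h3.le (abs_nonneg _) Real.pi_pos.le
    rw [le_div_iff₀ (Real.exp_pos _), k1]
    have k4 : Real.exp (-(Real.pi * M)) * Real.exp (arg w * b.im) ≤ 1 := by
      rw [Real.exp_neg, inv_mul_le_iff₀ (Real.exp_pos _), mul_one]
      exact k3
    have k5 : 0 < ‖w‖ ^ ((3 : ℝ) / 5) := Real.rpow_pos_of_pos hr _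
    calc 1 / 2 * Real.exp (-(Real.pi * M)) * ‖w‖ ^ ((3 : ℝ) / 5) * Real.exp (arg w * b.im)
        = (Real.exp (-(Real.pi * M)) * Real.exp (arg w * b.im)) *
          (1 / 2 * ‖w‖ ^ ((3 : ℝ) / 5)) := by ring
      _ ≤ 1 * (1 / 2 * ‖w‖ ^ ((3 : ℝ) / 5)) := mul_le_mul_of_nonneg_right k4 (by positivity)
      _ = ‖w‖ ^ ((3 : ℝ) / 5) * (1 / 2) := by ring
      _ ≤ ‖w‖ ^ ((3 : ℝ) / 5) * ‖w‖ ^ (b.re - 3 / 5) := mul_le_mul_of_nonneg_left k2 k5.le

theorem pwM_diff {t b0 : ℂ} (ht : ‖t‖ = 1) (hb : b0.re = 1 / 2) {eps : ℝ} (heps : 0 < eps) :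
    ∀ᶠ b in 𝓝 b0, ∀ y : UnitAddCircle,
      ‖pwM t b y - pwM t b0 y‖ ≤ eps * ‖e y - t‖ ^ ((2 : ℝ) / 5) := by
  have hre : ∀ b : ℂ, (b - ((2 / 5 : ℝ) : ℂ)).re = b.re - 2 / 5 := fun b => by
    rw [sub_re, ofReal_re]
  have h1 : ContinuousAt (pwM t) (b0 - ((2 / 5 : ℝ) : ℂ)) :=
    pwM_tendsto ht (by rw [hre, hb]; norm_num)
  have h2 : Tendsto (fun b : ℂ => pwM t (b - ((2 / 5 : ℝ) : ℂ))) (𝓝 b0)
      (𝓝 (pwM t (b0 - ((2 / 5 : ℝ) : ℂ)))) :=
    h1.tendsto.comp ((continuous_sub_right _).tendsto b0)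
  have h3 := (Metric.tendsto_nhds.1 h2) eps heps
  have e1 : ∀ᶠ b : ℂ in 𝓝 b0, 2 / 5 < b.re :=
    (continuous_re.tendsto b0).eventually (lt_mem_nhds (by rw [hb]; norm_num))
  filter_upwards [h3, e1] with b h3 h4 y
  have h5 : ‖pwM t (b - ((2 / 5 : ℝ) : ℂ)) y - pwM t (b0 - ((2 / 5 : ℝ) : ℂ)) y‖ ≤ eps := by
    rw [← ContinuousMap.sub_apply]
    refine (ContinuousMap.norm_coe_le_norm _ y).trans ?_
    rw [← dist_eq_norm]
    exact h3.le
  have key : ∀ b : ℂ, 2 / 5 < b.re → pwM t b y =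
      (1 - t * conj (e y)) ^ ((2 / 5 : ℝ) : ℂ) * pwM t (b - ((2 / 5 : ℝ) : ℂ)) y := by
    intro b hb
    rw [pwM_apply ht (by linarith), pwM_apply ht (by rw [hre]; linarith)]
    by_cases hw0 : 1 - t * conj (e y) = 0
    · have hb0 : b ≠ 0 := by
        intro h
        rw [h, zero_re] at hb
        norm_num at hb
      have hc0 : ((2 / 5 : ℝ) : ℂ) ≠ 0 := by
        rw [Ne, ofReal_eq_zero]
        norm_num
      rw [hw0, Complex.zero_cpow hb0, Complex.zero_cpow hc0, zero_mul]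
    · rw [← Complex.cpow_add _ _ hw0, add_sub_cancel]
  rw [key b h4, key b0 (by rw [hb]; norm_num), ← mul_sub, norm_mul, Complex.norm_cpow_real,
    pwM_base, mul_comm]
  exact mul_le_mul_of_nonneg_right h5 (Real.rpow_nonneg (norm_nonneg _) _)

end Pool.Agent.TBirX
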