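import Pool.Agent.TBirX.Jb
import Pool.Agent.TBirX.Pe
import Pool.Agent.TBirX.Wm
import Pool.Agent.TBirX.Cl
import Pool.Agent.TBirX.Dg
import Pool.Agent.TBirX.Fs
import Pool.Agent.TBirX.Fb

/-!
# The data at a crossing of a segment and a branch

`g` from `xg` (`t = t1`), `bet = bet (u t0) (v t0) l`, `b l z = (phi z - l) / (z ^ x (z - g l) eta) = Jq l z / (z ^ x (z - g l))`. The function `b q` with `x = 0`, continuous at `t1` with the value `D / (i t1) / eta`, has no zeros off `F`, the quotient of its one-sided limits is in the slit plane at the points of `F` other than `t0` (`seg`) and `1` at `t0` (`jb_tend`): `normal_form`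
gives `x` and `b q = exp (g + sum kap ch)`, `|im kap| < pi`, so `TM (mf (b q))` is a unit (`isUnit_expJ`). Let `ell l` be the constant `b l (t0) = Jv l / (t0 ^ x (t0 - g l))`, `C l = mf (fun y => (b l (e y) - ell l) / pwM t0 bet (e y))`. `|b l z - ell l| ≤ c |z - t0|` (`jb_lip` near `t0`; elsewhere `b l` is bounded, because it is uniformly near `b q`: `xg`),
`b l → b q` uniformly (near `t0` by `jb_uni`, elsewhere by `xg`), so `C l → C q` (`cl_lim`, `mf_lim`, `pwM_low`, `pwM_diff`, `d y = ‖e y - t0‖`). `eq`: both sides are `mf` of the same function almost everywhere. `num`: `Wj phi F l (x + k1 + k2)` and `wj_ix`: `wm_pert` (`b l` near `b q`, which has the number `0`), `wm_eta` (`bet_bd`, `bet_ne`, `bet_lin`), `wm_lin`, `wm_mul`, `wm_pow` (TBirX/Wm.lean). `f1`: `fct_s`, `f2`: `fct_b`. `tr`: `trans` (see `Cg.alg` in TBirN/Cg.lean).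
-/

set_option autoImplicit false

open MeasureTheory Complex Set Filter Topology Metric AddCircle
open scoped ComplexConjugate InnerProductSpace ENNReal

namespace Pool.Agent.TBirX

open Pool.Agent.TBir Pool.Agent.TBirG Pool.Agent.TBirC Pool.Agent.TBirJ Pool.Agent.TBirK
open Pool.Agent.TBirN
open Pool.Agent.TBirP (E qT)

open Pool.Agent.TBirJ.WjA Pool.Agent.TBirK.EskA

/-- Powers of points of the circle. -/
private theorem xd_zpow (x : ℤ) {z t : ℂ} (hz : ‖z‖ = 1) (ht : ‖t‖ = 1) :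
    ‖z ^ x - t ^ x‖ ≤ |(x : ℝ)| * ‖z - t‖ := by
  have hz0 : z ≠ 0 := by
    rintro rfl
    simp at hz
  have ht0 : t ≠ 0 := by
    rintro rfl
    simp at ht
  have hnat : ∀ n : ℕ, ‖z ^ n - t ^ n‖ ≤ n * ‖z - t‖ := by
    intro n
    induction n with
    | zero => simp
    | succ n ih =>
      have e1 : z ^ (n + 1) - t ^ (n + 1) = (z ^ n - t ^ n) * z + t ^ n * (z - t) := by ring
      rw [e1]
      refine (norm_add_le _ _).trans ?_
      rw [norm_mul, norm_mul, hz, norm_pow, ht, one_pow, one_mul, mul_one]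
      push_cast
      linarith
  obtain ⟨n, rfl | rfl⟩ := x.eq_nat_or_neg
  · have := hnat n
    simpa using this
  · have h1 := hnat n
    have e1 : z ^ (-(n : ℤ)) - t ^ (-(n : ℤ)) = -((z ^ n - t ^ n) / (z ^ n * t ^ n)) := by
      rw [zpow_neg, zpow_neg, zpow_natCast, zpow_natCast]
      have : z ^ n ≠ 0 := pow_ne_zero n hz0
      have : t ^ n ≠ 0 := pow_ne_zero n ht0
      field_simp
      ring
    rw [e1, norm_neg, norm_div, norm_mul, norm_pow, norm_pow, hz, ht]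
    simpa using h1

private theorem xd_log {w : ℂ} (hw : ‖w‖ = 1) : ‖Complex.log w‖ ≤ Real.pi := by
  have h1 : Complex.log w = (arg w : ℂ) * I := by
    apply Complex.ext
    · rw [Complex.log_re, hw, Real.log_one]
      simp
    · rw [Complex.log_im]
      simp
  rw [h1, norm_mul, Complex.norm_I, mul_one, Complex.norm_real, Real.norm_eq_abs]
  exact Complex.abs_arg_le_pi w

private theorem xd_pow {w : ℂ} (hw : ‖w‖ = 1) (b : ℂ) : w ^ b ≠ 0 ∧
    ‖(w ^ b)⁻¹‖ ≤ Real.exp (Real.pi * ‖b‖) := by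
  have h0 : w ≠ 0 := by
    rintro rfl
    simp at hw
  have h1 : w ^ b = exp (Complex.log w * b) := cpow_def_of_ne_zero h0 b
  have h2 : ‖Complex.log w * b‖ ≤ Real.pi * ‖b‖ := by
    rw [norm_mul]
    exact mul_le_mul_of_nonneg_right (xd_log hw) (norm_nonneg _)
  refine ⟨by rw [h1]; exact exp_ne_zero _, ?_⟩
  rw [h1, ← Complex.exp_neg, Complex.norm_exp]
  apply Real.exp_le_exp.2
  refine (le_abs_self _).trans ((Complex.abs_re_le_norm _).trans ?_)
  rw [norm_neg]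
  exact h2

private theorem xd_rat {w : ℂ} (hw : ‖w‖ = 1) {b c : ℂ} (h : Real.pi * ‖c - b‖ ≤ 1) :
    ‖(w ^ b)⁻¹ * w ^ c - 1‖ ≤ 2 * (Real.pi * ‖c - b‖) := by
  have h0 : w ≠ 0 := by
    rintro rfl
    simp at hw
  have h1 : (w ^ b)⁻¹ * w ^ c = exp (Complex.log w * (c - b)) := by
    rw [cpow_def_of_ne_zero h0, cpow_def_of_ne_zero h0, ← Complex.exp_neg, ← Complex.exp_add]
    congr 1
    ring
  have h2 : ‖Complex.log w * (c - b)‖ ≤ Real.pi * ‖c - b‖ := by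
    rw [norm_mul]
    exact mul_le_mul_of_nonneg_right (xd_log hw) (norm_nonneg _)
  rw [h1]
  exact (Complex.norm_exp_sub_one_le (h2.trans h)).trans (by linarith)

private theorem xd_nw {t z : ℂ} (ht : ‖t‖ = 1) (hz : ‖z‖ = 1) : ‖-(conj t * z)‖ = 1 := by
  rw [norm_neg, norm_mul, RCLike.norm_conj, ht, hz, one_mul]

private theorem xd_slit {t z : ℂ} (ht : ‖t‖ = 1) (hz : ‖z‖ = 1) (hne : z ≠ t) :
    -(conj t * z) ∈ slitPlane := by
  rw [mem_slitPlane_iff]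
  by_contra hcon
  push Not at hcon
  obtain ⟨h1, h2⟩ := hcon
  have hw := xd_nw ht hz
  obtain ⟨w, hwd⟩ : ∃ w, w = -(conj t * z) := ⟨_, rfl⟩
  rw [← hwd] at h1 h2 hw
  have h3 : w.re * w.re + w.im * w.im = 1 := by
    rw [← Complex.normSq_apply, Complex.normSq_eq_norm_sq, hw, one_pow]
  rw [h2, mul_zero, add_zero] at h3
  have h4 : w.re = -1 := by nlinarith
  have h5 : w = -1 := Complex.ext (by simpa using h4) (by simpa using h2)
  have h6 : conj t * z = 1 := by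
    rw [hwd] at h5
    linear_combination -h5
  apply hne
  have h7 : t * conj t = 1 := by
    rw [Complex.mul_conj, Complex.normSq_eq_norm_sq, ht]
    simp
  calc z = (t * conj t) * z := by rw [h7, one_mul]
    _ = t * (conj t * z) := by ring
    _ = t := by rw [h6, mul_one]

private theorem xd_etac {t : ℂ} (ht : ‖t‖ = 1) (b : ℂ) :
    ContinuousOn (fun z : ℂ => (-(conj t * z)) ^ b) (sphere 0 1 \ {t}) := by
  refine ContinuousOn.cpow (by fun_prop) continuousOn_const fun z hz => ?_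
  exact xd_slit ht (mem_sphere_zero_iff_norm.1 hz.1) fun h => hz.2 (mem_singleton_iff.2 h)

private theorem xd_etal {t s : ℂ} (ht : ‖t‖ = 1) (hs : ‖s‖ = 1) (hne : s ≠ t) (b : ℂ) {f : ℝ → ℂ}
    (hf : Tendsto f (𝓝[>] 0) (𝓝 s)) :
    Tendsto (fun x => (-(conj t * f x)) ^ b) (𝓝[>] 0) (𝓝 ((-(conj t * s)) ^ b)) := by
  have h1 : Tendsto (fun x => -(conj t * f x)) (𝓝[>] 0) (𝓝 (-(conj t * s))) :=
    (hf.const_mul _).neg
  exact (continuousAt_cpow_const (xd_slit ht hs hne)).tendsto.comp h1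

variable {phi : ℂ → ℂ} {F : Finset ℂ} {u v : ℂ → ℂ} {t0 t1 q : ℂ}

/-- The normal form of the symbol at `q`. -/
private theorem xd_nf (h : PwC phi F u v) (hx : Xb phi F u v t0 t1 q) :
    ∃ (x : ℤ) (f : ℂ → ℂ) (M : ℝ), 0 ≤ M ∧
      ContinuousOn f (sphere 0 1 \ F) ∧ (∀ z ∈ sphere (0 : ℂ) 1, z ∉ F → ‖f z‖ ≤ M) ∧
      Wj f F 0 0 ∧ IsUnit (TM (mf fun y => f (e y))) ∧
      ∀ z ∈ sphere (0 : ℂ) 1, z ∉ F → z ≠ t1 →
        f z = Jq phi u v t0 q z / (z ^ x * (z - t1)) := by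
  classical
  have hcv := h.cv
  have ht0 : ‖t0‖ = 1 := h.circ t0 hx.f0
  have ht1 := hx.n1
  have h10 : t1 ≠ 0 := fun h => by
    rw [h, norm_zero] at ht1
    exact zero_ne_one ht1
  obtain ⟨x0, hx0⟩ := exists_E ht1
  obtain ⟨hd, hD0, -⟩ := h.reg x0 (by rw [hx0]; exact hx.f1)
  obtain ⟨D, hDdef⟩ : ∃ D : ℂ, D = deriv (fun y : ℝ => phi (E y)) x0 := ⟨_, rfl⟩
  have hD1 : HasDerivAt (fun y : ℝ => phi (E y)) D x0 := by
    rw [hDdef]
    exact hd.hasDerivAt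
  have hD : HasDerivAt (fun x : ℝ => phi (t1 * E x)) D 0 := by
    have h1 : HasDerivAt (fun y : ℝ => phi (E y)) D (x0 + 0) := by rw [add_zero]; exact hD1
    have h2 := h1.comp_const_add x0 0
    refine h2.congr_of_eventuallyEq (Filter.Eventually.of_forall fun x => ?_)
    simp only
    rw [E_add, hx0]
  obtain ⟨p, hp⟩ : ∃ p : ℂ, p = D / (t1 * I) := ⟨_, rfl⟩
  have hp0 : p ≠ 0 := by
    rw [hp]
    refine div_ne_zero ?_ (mul_ne_zero h10 I_ne_zero)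
    rw [hDdef]
    exact hD0
  obtain ⟨b, hb⟩ : ∃ b : ℂ, b = bet (u t0) (v t0) q := ⟨_, rfl⟩
  have hpc : ContinuousOn (psi phi t1 p) (sphere 0 1 \ F) := by
    rw [hp]
    exact psi_cont ht1 hcv.cont hD
  have htn : ∀ t ∈ F, t ≠ t1 := fun t ht h1 => hx.f1 (h1 ▸ ht)
  have hn0 : ∀ z ∈ sphere (0 : ℂ) 1, (-(conj t0 * z)) ^ b ≠ 0 := fun z hz =>
    (xd_pow (xd_nw ht0 (mem_sphere_zero_iff_norm.1 hz)) b).1
  have hJc : ContinuousOn (fun z => psi phi t1 p z / (-(conj t0 * z)) ^ b) (sphere 0 1 \ F) := by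
    refine hpc.div ((xd_etac ht0 b).mono fun z hz => ⟨hz.1, fun h1 => hz.2 ?_⟩)
      fun z hz => hn0 z hz.1
    rw [mem_singleton_iff.1 h1]
    exact hx.f0
  have hJ0 : ∀ z ∈ sphere (0 : ℂ) 1, z ∉ F → psi phi t1 p z / (-(conj t0 * z)) ^ b ≠ 0 := by
    intro z hz hzF
    refine div_ne_zero ?_ (hn0 z hz)
    by_cases hz1 : z = t1
    · rw [hz1, psi_eq]
      exact hp0
    · rw [psi_ne hz1, hx.val]
      refine div_ne_zero (sub_ne_zero.2 fun h1 => hz1 ?_) (sub_ne_zero.2 hz1)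
      exact hx.only z (mem_sphere_zero_iff_norm.1 hz) hzF h1
  obtain ⟨r, hr⟩ := exists_rad h.circ
  obtain ⟨hv1, hv2⟩ := jb_val (u := u) (v := v) (t := t0) hx.mem hx.nu hx.nv
  obtain ⟨hj1, hj2⟩ := (jb_tend h hx.f0 hx.mem hx.nu hx.nv).self_of_nhds
  have h01 : t0 - t1 ≠ 0 := sub_ne_zero.2 (htn t0 hx.f0)
  have hseg := fun t ht (hne : t ≠ t0) => ne_seg (hx.seg t ht hne)
  obtain ⟨kap, hkap⟩ : ∃ kap : ℂ → ℂ, kap = fun t => if t = t0 then 0 else
      Complex.log ((v t - q) / (u t - q)) := ⟨_, rfl⟩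
  have hkim : ∀ t ∈ F, |(kap t).im| < Real.pi := by
    intro t ht
    rw [hkap]
    simp only
    split_ifs with h1
    · simp [Real.pi_pos]
    · exact WjA.log_im (hx.seg t ht h1)
  have hlim0 : ∀ f : ℝ → ℂ, Tendsto f (𝓝[>] 0) (𝓝 t0) →
      Tendsto (fun y => Jq phi u v t0 q (f y)) (𝓝[>] 0) (𝓝 (Jv u v t0 q)) →
      Tendsto (fun y => psi phi t1 p (f y) / (-(conj t0 * f y)) ^ b) (𝓝[>] 0)
        (𝓝 (Jv u v t0 q / (t0 - t1))) := by
    intro f hf hJ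
    refine (hJ.div (hf.sub_const t1) h01).congr' ?_
    filter_upwards [hf.eventually_ne (htn t0 hx.f0)] with y hy
    simp only [Pi.div_apply]
    rw [psi_ne hy, hx.val]
    unfold Jq
    rw [← hb, div_right_comm]
  have hlim1 : ∀ (f : ℝ → ℂ) (t a : ℂ), t ∈ F → t ≠ t0 → Tendsto f (𝓝[>] 0) (𝓝 t) →
      Tendsto (fun y => phi (f y)) (𝓝[>] 0) (𝓝 a) →
      Tendsto (fun y => psi phi t1 p (f y) / (-(conj t0 * f y)) ^ b) (𝓝[>] 0)
        (𝓝 ((a - q) / (t - t1) / (-(conj t0 * t)) ^ b)) := by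
    intro f t a ht hne hf ha
    have h1 := psi_lim (p := p) (htn t ht) hf ha
    rw [hx.val] at h1
    exact h1.div (xd_etal ht0 (h.circ t ht) hne b hf)
      (hn0 t (mem_sphere_zero_iff_norm.2 (h.circ t ht)))
  obtain ⟨n, g, hg, hng⟩ := normal_form h.circ hr
    (psi := fun z => psi phi t1 p z / (-(conj t0 * z)) ^ b) hJc hJ0
    (a := fun t => if t = t0 then Jv u v t0 q / (t0 - t1) else
      (u t - q) / (t - t1) / (-(conj t0 * t)) ^ b)
    (b := fun t => if t = t0 then Jv u v t0 q / (t0 - t1) else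
      (v t - q) / (t - t1) / (-(conj t0 * t)) ^ b)
    (kap := kap) (fun t ht => by
      split_ifs with h1
      · rw [h1]
        exact hlim0 _ (tend_L t0) hj1
      · exact hlim1 _ t (u t) ht h1 (tend_L t) (hcv.lim_left t ht))
    (fun t ht => by
      split_ifs with h1
      · rw [h1]
        exact hlim0 _ (tend_R t0) hj2
      · exact hlim1 _ t (v t) ht h1 (tend_R t) (hcv.lim_right t ht))
    (fun t ht => by
      split_ifs with h1
      · exact div_ne_zero hv2 h01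
      · exact div_ne_zero (div_ne_zero (hseg t ht h1).1 (sub_ne_zero.2 (htn t ht)))
          (hn0 t (mem_sphere_zero_iff_norm.2 (h.circ t ht))))
    (fun t ht => by
      split_ifs with h1
      · exact div_ne_zero hv2 h01
      · exact div_ne_zero (div_ne_zero (hseg t ht h1).2 (sub_ne_zero.2 (htn t ht)))
          (hn0 t (mem_sphere_zero_iff_norm.2 (h.circ t ht))))
    (fun t ht => by
      rw [hkap]
      simp only
      split_ifs with h1
      · rw [Complex.exp_zero, div_self (div_ne_zero hv2 h01)]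
      · rw [div_div_div_cancel_right₀ (hn0 t (mem_sphere_zero_iff_norm.2 (h.circ t ht))),
          div_div_div_cancel_right₀ (sub_ne_zero.2 (htn t ht))]
        exact Complex.exp_log (div_ne_zero (hseg t ht h1).2 (hseg t ht h1).1))
  obtain ⟨G, hG⟩ := (isCompact_sphere (0 : ℂ) 1).exists_bound_of_continuousOn hg
  have hSc := sum_cont h.circ hr kap
  refine ⟨n, fun z => exp (g z + ∑ t ∈ F, kap t * (ch r t z : ℂ)),
    Real.exp (G + ∑ t ∈ F, ‖kap t‖ * (1 / 2)), (Real.exp_pos _).le,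
    ((hg.mono sdiff_subset).add hSc).cexp, ?_, ?_, ?_, ?_⟩
  · intro z hz hzF
    rw [Complex.norm_exp]
    apply Real.exp_le_exp.2
    refine (le_abs_self _).trans ((Complex.abs_re_le_norm _).trans ((norm_add_le _ _).trans ?_))
    refine add_le_add (hG z hz) ((norm_sum_le _ _).trans (Finset.sum_le_sum fun t ht => ?_))
    rw [norm_mul, Complex.norm_real, Real.norm_eq_abs]
    exact mul_le_mul_of_nonneg_left (ch_abs hr.1 z) (norm_nonneg _)
  · refine ⟨fun z => g z + ∑ t ∈ F, kap t * (ch r t z : ℂ),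
      (hg.mono sdiff_subset).add hSc, fun t ht => ?_, fun z hz hzF => by
        rw [sub_zero, zpow_zero, one_mul]⟩
    obtain ⟨c, hc1, hc2⟩ := sum_lim h.circ hr kap ht
    have hgt : ∀ f : ℝ → ℝ, Tendsto (fun x : ℝ => t * E (f x)) (𝓝[>] 0) (𝓝 t) →
        Tendsto (fun x : ℝ => g (t * E (f x))) (𝓝[>] 0) (𝓝 (g t)) := by
      intro f hf
      refine (hg t (mem_sphere_zero_iff_norm.2 (h.circ t ht))).tendsto.comp
        (tendsto_nhdsWithin_iff.2 ⟨hf, ?_⟩)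
      exact Filter.Eventually.of_forall fun x => mem_sph (h.circ t ht) _
    refine ⟨g t + (c - kap t / 2), g t + (c + kap t / 2), (hgt (fun x => -x) (tend_L t)).add hc1,
      (hgt (fun x => x) (tend_R t)).add hc2, ?_⟩
    have h1 : g t + (c + kap t / 2) - (g t + (c - kap t / 2)) = kap t := by ring
    rw [h1]
    exact hkim t ht
  · exact isUnit_expJ h.circ hr hg hkim
  · intro z hz hzF hz1
    have h2 := hng z hz hzF
    have hz0 : z ≠ 0 := fun h0 => by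
      rw [h0] at hz
      simp at hz
    simp only at h2 ⊢
    rw [psi_ne hz1, hx.val] at h2
    unfold Jq
    rw [← hb]
    have h3 : z ^ n ≠ 0 := zpow_ne_zero n hz0
    have h4 : exp (g z + ∑ t ∈ F, kap t * (ch r t z : ℂ)) =
        (phi z - q) / (z - t1) / (-(conj t0 * z)) ^ b / z ^ n := by
      rw [h2, mul_div_cancel_left₀ _ h3]
    rw [h4]
    have h5 := sub_ne_zero.2 hz1
    have h6 := hn0 z hz
    field_simp

private theorem xd_zn {z : ℂ} (hz : z ∈ sphere (0 : ℂ) 1) : z ≠ 0 := by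
  rintro rfl
  simp at hz

private theorem xd_zg {z g : ℂ} (hz : z ∈ sphere (0 : ℂ) 1) (hg : ‖g‖ ≠ 1) : z - g ≠ 0 := by
  intro h
  apply hg
  rw [← sub_eq_zero.1 h]
  exact mem_sphere_zero_iff_norm.1 hz

private theorem xd_cont (h : PwC phi F u v) (hf0 : t0 ∈ F) {x : ℤ} {g l : ℂ} (hg : ‖g‖ ≠ 1) :
    ContinuousOn (fun z => Jq phi u v t0 l z / (z ^ x * (z - g))) (sphere 0 1 \ F) := by
  have ht0 := h.circ t0 hf0
  unfold Jq
  refine ContinuousOn.div (ContinuousOn.div (h.cv.cont.sub continuousOn_const) ?_ ?_) ?_ ?_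
  · refine (xd_etac ht0 _).mono fun z hz => ⟨hz.1, fun h1 => hz.2 ?_⟩
    rw [mem_singleton_iff.1 h1]
    exact hf0
  · intro z hz
    exact (xd_pow (xd_nw ht0 (mem_sphere_zero_iff_norm.1 hz.1)) _).1
  · refine ContinuousOn.mul ?_ (by fun_prop)
    intro z hz
    exact (continuousAt_zpow₀ z x (Or.inl (xd_zn hz.1))).continuousWithinAt
  · intro z hz
    exact mul_ne_zero (zpow_ne_zero x (xd_zn hz.1)) (xd_zg hz.1 hg)

private theorem xd_lim0 (ht0 : ‖t0‖ = 1) {x : ℤ} {g l J : ℂ} (hg : ‖g‖ ≠ 1) {f : ℝ → ℂ}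
    (hf : Tendsto f (𝓝[>] 0) (𝓝 t0))
    (hJ : Tendsto (fun y => Jq phi u v t0 l (f y)) (𝓝[>] 0) (𝓝 J)) :
    Tendsto (fun y => Jq phi u v t0 l (f y) / (f y ^ x * (f y - g))) (𝓝[>] 0)
      (𝓝 (J / (t0 ^ x * (t0 - g)))) := by
  have h1 := mem_sphere_zero_iff_norm.2 ht0
  have h2 := xd_zn h1
  refine hJ.div ?_ (mul_ne_zero (zpow_ne_zero x h2) (xd_zg h1 hg))
  exact ((continuousAt_zpow₀ t0 x (Or.inl h2)).tendsto.comp hf).mul (hf.sub_const g)

private theorem xd_lim1 (ht0 : ‖t0‖ = 1) {x : ℤ} {g l t a : ℂ} (hg : ‖g‖ ≠ 1) (ht : ‖t‖ = 1)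
    (hne : t ≠ t0) {f : ℝ → ℂ} (hf : Tendsto f (𝓝[>] 0) (𝓝 t))
    (ha : Tendsto (fun y => phi (f y)) (𝓝[>] 0) (𝓝 a)) :
    Tendsto (fun y => Jq phi u v t0 l (f y) / (f y ^ x * (f y - g))) (𝓝[>] 0)
      (𝓝 ((a - l) / (-(conj t0 * t)) ^ bet (u t0) (v t0) l / (t ^ x * (t - g)))) := by
  have h1 := mem_sphere_zero_iff_norm.2 ht
  have h2 := xd_zn h1
  unfold Jq
  refine Tendsto.div (Tendsto.div (ha.sub_const l) (xd_etal ht0 ht hne _ hf) ?_) ?_
    (mul_ne_zero (zpow_ne_zero x h2) (xd_zg h1 hg))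
  · exact (xd_pow (xd_nw ht0 ht) _).1
  · exact ((continuousAt_zpow₀ t x (Or.inl h2)).tendsto.comp hf).mul (hf.sub_const g)

/-- The winding number. -/
private theorem xd_num (h : PwC phi F u v) (hx : Xb phi F u v t0 t1 q) (x : ℤ) {f : ℂ → ℂ}
    (hfc : ContinuousOn f (sphere 0 1 \ F)) (hfW : Wj f F 0 0) :
    ∃ δ > 0, ∀ᶠ l in 𝓝 q, ∀ g : ℂ, l ∉ Gam phi F u v → ‖g‖ ≠ 1 →
    (∀ z ∈ sphere (0 : ℂ) 1, z ∉ F → z ≠ t1 →
      ‖Jq phi u v t0 l z / (z ^ x * (z - g)) - f z‖ ≤ δ) →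
    ∀ k1 k2 : ℤ, (((I / (v t0 - u t0) * (l - q)).re < 0 ∧ k1 = 1) ∨
      (¬ (I / (v t0 - u t0) * (l - q)).re < 0 ∧ k1 = 0)) →
    ((‖g‖ < 1 ∧ k2 = 1) ∨ (¬ ‖g‖ < 1 ∧ k2 = 0)) → Ix phi l (x + k1 + k2) := by
  have ht0 := h.circ t0 hx.f0
  obtain ⟨δ, hδ, hpert⟩ := wm_pert h.circ hfW
  obtain ⟨hv1, hv2⟩ := jb_val (u := u) (v := v) (t := t0) hx.mem hx.nu hx.nv
  obtain ⟨c, C, hc, hC, hlin⟩ := bet_lin hx.mem hx.nu hx.nv
  refine ⟨δ, hδ, ?_⟩
  filter_upwards [hv1.eventually_ne hv2, jb_tend h hx.f0 hx.mem hx.nu hx.nv, hlin] with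
    l hl1 hl2 hl3 g hlK hg hz k1 k2 hk1 hk2
  have hBc := xd_cont (x := x) (l := l) h hx.f0 hg
  have hmem : t1 ∈ sphere (0 : ℂ) 1 \ (F : Set ℂ) :=
    ⟨mem_sphere_zero_iff_norm.2 hx.n1, hx.f1⟩
  have hzt : ∀ z ∈ sphere (0 : ℂ) 1, z ∉ F →
      ‖Jq phi u v t0 l z / (z ^ x * (z - g)) - f z‖ ≤ δ := by
    intro z hz' hzF
    by_cases h1 : z = t1
    · rw [h1]
      have hoF : ∀ᶠ y : ℝ in 𝓝[>] 0, t1 * E y ∉ (F : Set ℂ) :=
        (tend_R t1).eventually (F.finite_toSet.isClosed.isOpen_compl.mem_nhds hx.f1)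
      have hne : ∀ᶠ y : ℝ in 𝓝[>] 0, t1 * E y ≠ t1 := by
        have h2 := (hasDeriv_E t1).eventually_ne (c := t1)
          (mul_ne_zero (xd_zn hmem.1) I_ne_zero)
        exact h2.filter_mono (nhdsWithin_mono _ fun y (hy : 0 < y) => hy.ne')
      have l1 : Tendsto (fun y : ℝ => t1 * E y) (𝓝[>] 0) (𝓝[sphere 0 1 \ F] t1) := by
        refine tendsto_nhdsWithin_iff.2 ⟨tend_R t1, ?_⟩
        filter_upwards [hoF] with y hy
        exact ⟨mem_sph hx.n1 y, hy⟩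
      have l2 := (((hBc t1 hmem).sub (hfc t1 hmem)).norm).tendsto.comp l1
      refine le_of_tendsto l2 ?_
      filter_upwards [hoF, hne] with y hy hy'
      exact hz _ (mem_sph hx.n1 y) hy hy'
    · exact hz z hz' hzF h1
  have hzp : ∀ {t : ℂ} {f : ℝ → ℂ}, ‖t‖ = 1 → Tendsto f (𝓝[>] 0) (𝓝 t) →
      Tendsto (fun y => f y ^ x) (𝓝[>] 0) (𝓝 (t ^ x)) := fun ht hf =>
    (continuousAt_zpow₀ _ x (Or.inl (xd_zn (mem_sphere_zero_iff_norm.2 ht)))).tendsto.comp hf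
  have hB : Wj (fun z => Jq phi u v t0 l z / (z ^ x * (z - g))) F 0 0 := by
    refine hpert _ hBc (fun t ht => ?_) hzt
    by_cases h1 : t = t0
    · rw [h1]
      exact ⟨_, _, xd_lim0 ht0 hg (tend_L t0) hl2.1, xd_lim0 ht0 hg (tend_R t0) hl2.2⟩
    · exact ⟨_, _, xd_lim1 ht0 hg (h.circ t ht) h1 (tend_L t) (h.cv.lim_left t ht),
        xd_lim1 ht0 hg (h.circ t ht) h1 (tend_R t) (h.cv.lim_right t ht)⟩
  have hk2' : (k2 = 1 ∧ ‖g‖ < 1) ∨ (k2 = 0 ∧ 1 < ‖g‖) := by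
    rcases hk2 with ⟨a1, a2⟩ | ⟨a1, a2⟩
    · exact Or.inl ⟨a2, a1⟩
    · exact Or.inr ⟨a2, lt_of_le_of_ne (not_lt.1 a1) (Ne.symm hg)⟩
  obtain ⟨hb0, hb1⟩ := bet_bd (u t0) (v t0) l
  have hbn : (bet (u t0) (v t0) l).re ≠ 1 / 2 := bet_ne fun h1 =>
    hlK (Or.inr (mem_iUnion₂.2 ⟨t0, hx.f0, h1⟩))
  have hk1' : (k1 = 1 ∧ 1 / 2 < (bet (u t0) (v t0) l).re ∧ (bet (u t0) (v t0) l).re < 3 / 2) ∨
      (k1 = 0 ∧ |(bet (u t0) (v t0) l).re| < 1 / 2) := by
    rcases hk1 with ⟨a1, a2⟩ | ⟨a1, a2⟩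
    · exact Or.inl ⟨a2, hl3.1.2 a1, by linarith⟩
    · refine Or.inr ⟨a2, ?_⟩
      rw [abs_of_nonneg hb0]
      exact lt_of_le_of_ne (not_lt.1 fun h1 => a1 (hl3.1.1 h1)) hbn
  have w1 : Wj (fun z => z ^ x * (z - g)) F 0 (x + k2) :=
    wm_mul h.circ (wm_pow F x) (wm_lin h.circ hk2') fun t ht =>
      ⟨t ^ x, zpow_ne_zero x (xd_zn (mem_sphere_zero_iff_norm.2 (h.circ t ht))),
        Or.inl ⟨hzp (h.circ t ht) (tend_L t), hzp (h.circ t ht) (tend_R t)⟩⟩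
  have w2 : Wj (fun z => (z ^ x * (z - g)) * (-(conj t0 * z)) ^ bet (u t0) (v t0) l) F 0
      (x + k2 + k1) :=
    wm_mul h.circ w1 (wm_eta h.circ hx.f0 hk1') fun t ht =>
      ⟨t ^ x * (t - g), mul_ne_zero
        (zpow_ne_zero x (xd_zn (mem_sphere_zero_iff_norm.2 (h.circ t ht))))
        (xd_zg (mem_sphere_zero_iff_norm.2 (h.circ t ht)) hg),
        Or.inl ⟨(hzp (h.circ t ht) (tend_L t)).mul ((tend_L t).sub_const g),
          (hzp (h.circ t ht) (tend_R t)).mul ((tend_R t).sub_const g)⟩⟩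
  have w3 : Wj (fun z => ((z ^ x * (z - g)) * (-(conj t0 * z)) ^ bet (u t0) (v t0) l) *
      (Jq phi u v t0 l z / (z ^ x * (z - g)))) F 0 (x + k2 + k1 + 0) := by
    refine wm_mul h.circ w2 hB fun t ht => ?_
    have a1 := mem_sphere_zero_iff_norm.2 (h.circ t ht)
    by_cases h1 : t = t0
    · rw [h1] at a1 ⊢
      exact ⟨Jv u v t0 l / (t0 ^ x * (t0 - g)),
        div_ne_zero hl1 (mul_ne_zero (zpow_ne_zero x (xd_zn a1)) (xd_zg a1 hg)),
        Or.inr ⟨xd_lim0 ht0 hg (tend_L t0) hl2.1, xd_lim0 ht0 hg (tend_R t0) hl2.2⟩⟩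
    · exact ⟨t ^ x * (t - g) * (-(conj t0 * t)) ^ bet (u t0) (v t0) l,
        mul_ne_zero (mul_ne_zero (zpow_ne_zero x (xd_zn a1)) (xd_zg a1 hg))
          (xd_pow (xd_nw ht0 (h.circ t ht)) _).1,
        Or.inl ⟨((hzp (h.circ t ht) (tend_L t)).mul ((tend_L t).sub_const g)).mul
            (xd_etal ht0 (h.circ t ht) h1 _ (tend_L t)),
          ((hzp (h.circ t ht) (tend_R t)).mul ((tend_R t).sub_const g)).mul
            (xd_etal ht0 (h.circ t ht) h1 _ (tend_R t))⟩⟩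
  have w4 : Wj phi F l (x + k1 + k2) := by
    obtain ⟨H, hH1, hH2, hH3⟩ := w3
    refine ⟨H, hH1, hH2, fun z hz hzF => ?_⟩
    have h5 := hH3 z hz hzF
    rw [sub_zero] at h5
    have e1 : x + k1 + k2 = x + k2 + k1 + 0 := by ring
    rw [e1, ← h5]
    have a1 := zpow_ne_zero x (xd_zn hz)
    have a2 := xd_zg hz hg
    have a3 := (xd_pow (xd_nw ht0 (mem_sphere_zero_iff_norm.1 hz)) (bet (u t0) (v t0) l)).1
    beta_reduce
    unfold Jq
    generalize (-(conj t0 * z)) ^ bet (u t0) (v t0) l = P at a3 ⊢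
    field_simp
  exact Pool.Agent.TBirK.wj_ix h.cv w4

/-- Uniform convergence. -/
private theorem xd_U (h : PwC phi F u v) (hx : Xb phi F u v t0 t1 q) {x : ℤ} {f : ℂ → ℂ} {M : ℝ}
    (hM : 0 ≤ M) (hfM : ∀ z ∈ sphere (0 : ℂ) 1, z ∉ F → ‖f z‖ ≤ M)
    (hfe : ∀ z ∈ sphere (0 : ℂ) 1, z ∉ F → z ≠ t1 →
      f z = Jq phi u v t0 q z / (z ^ x * (z - t1)))
    {g : ℂ → ℂ} {S : Set ℂ} (hg : ∀ eps > 0, ∀ᶠ l in 𝓝 q, l ∈ S → ∀ z ∈ sphere (0 : ℂ) 1,
      z ∉ F → z ≠ t1 → ‖(phi z - l) / (z - g l) - (phi z - q) / (z - t1)‖ ≤ eps)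
    {eps : ℝ} (heps : 0 < eps) :
    ∀ᶠ l in 𝓝 q, l ∈ S → ∀ z ∈ sphere (0 : ℂ) 1, z ∉ F → z ≠ t1 →
      ‖Jq phi u v t0 l z / (z ^ x * (z - g l)) - f z‖ ≤ eps := by
  have ht0 := h.circ t0 hx.f0
  obtain ⟨b, hb⟩ : ∃ b : ℂ, b = bet (u t0) (v t0) q := ⟨_, rfl⟩
  obtain ⟨E0, hE0⟩ : ∃ E0 : ℝ, E0 = Real.exp (Real.pi * ‖b‖) := ⟨_, rfl⟩
  have hE0p : 0 < E0 := by
    rw [hE0]
    exact Real.exp_pos _
  have hpi := Real.pi_pos
  have hcont : ContinuousAt (bet (u t0) (v t0)) q :=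
    (bet_diff hx.mem hx.nu hx.nv).self_of_nhds.continuousAt
  obtain ⟨ρ, hρ⟩ : ∃ ρ : ℝ, ρ = min (1 / (2 * Real.pi)) (eps / (4 * Real.pi * (M + 1))) :=
    ⟨_, rfl⟩
  have hρ0 : 0 < ρ := by
    rw [hρ]
    exact lt_min (by positivity) (by positivity)
  have h1 := hg (eps / (4 * E0)) (by positivity)
  have h2 : ∀ᶠ l in 𝓝 q, ‖b - bet (u t0) (v t0) l‖ < ρ := by
    have h3 := hcont.tendsto.eventually (Metric.ball_mem_nhds _ hρ0)
    filter_upwards [h3] with l hl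
    rw [hb, norm_sub_rev, ← dist_eq_norm]
    exact hl
  filter_upwards [h1, h2] with l hl1 hl2 hlS z hz hzF hz1
  obtain ⟨b', hb'⟩ : ∃ b' : ℂ, b' = bet (u t0) (v t0) l := ⟨_, rfl⟩
  rw [← hb'] at hl2
  have h3 := hl1 hlS z hz hzF hz1
  have hzn := mem_sphere_zero_iff_norm.1 hz
  obtain ⟨w, hw⟩ : ∃ w : ℂ, w = -(conj t0 * z) := ⟨_, rfl⟩
  have hwn : ‖w‖ = 1 := by
    rw [hw]
    exact xd_nw ht0 hzn
  obtain ⟨hP0, hP1⟩ := xd_pow hwn b
  rw [← hE0] at hP1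
  have hρ1 : ρ * (2 * Real.pi) ≤ 1 := by
    have h4 : ρ ≤ 1 / (2 * Real.pi) := by
      rw [hρ]
      exact min_le_left _ _
    rwa [le_div_iff₀ (by positivity)] at h4
  have hρ2 : ρ * (4 * Real.pi * (M + 1)) ≤ eps := by
    have h4 : ρ ≤ eps / (4 * Real.pi * (M + 1)) := by
      rw [hρ]
      exact min_le_right _ _
    rwa [le_div_iff₀ (by positivity)] at h4
  have hdd : 0 ≤ ‖b - b'‖ := norm_nonneg _
  have h5 : Real.pi * ‖b - b'‖ ≤ Real.pi * ρ := by gcongr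
  have hr := xd_rat hwn (b := b') (c := b) (by nlinarith)
  obtain ⟨r, hrd⟩ : ∃ r : ℂ, r = (w ^ b')⁻¹ * w ^ b := ⟨_, rfl⟩
  rw [← hrd] at hr
  have hr1 : ‖r - 1‖ ≤ 2 * (Real.pi * ρ) := hr.trans (by linarith)
  have hr2 : ‖r‖ ≤ 2 := by
    calc ‖r‖ = ‖(r - 1) + 1‖ := by rw [sub_add_cancel]
      _ ≤ ‖r - 1‖ + ‖(1 : ℂ)‖ := norm_add_le _ _
      _ ≤ 2 := by
        rw [norm_one]
        linarith
  have hzx : ‖(z ^ x)⁻¹‖ = 1 := by rw [norm_inv, norm_zpow, hzn, one_zpow, inv_one]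
  have key : Jq phi u v t0 l z / (z ^ x * (z - g l)) - f z =
      (z ^ x)⁻¹ * ((w ^ b)⁻¹ * (((phi z - l) / (z - g l) - (phi z - q) / (z - t1)) * r)) +
        f z * (r - 1) := by
    rw [hfe z hz hzF hz1, hrd]
    unfold Jq
    rw [← hw, ← hb, ← hb']
    have h6 : (w ^ b)⁻¹ * w ^ b = 1 := inv_mul_cancel₀ hP0
    simp only [div_eq_mul_inv, mul_inv]
    linear_combination (-((phi z - l) * (z - g l)⁻¹ * (w ^ b')⁻¹ * (z ^ x)⁻¹)) * h6
  rw [key]
  have h7 := hfM z hz hzF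
  calc ‖_‖ ≤ ‖(z ^ x)⁻¹ * ((w ^ b)⁻¹ * (((phi z - l) / (z - g l) -
        (phi z - q) / (z - t1)) * r))‖ + ‖f z * (r - 1)‖ := norm_add_le _ _
    _ = ‖(w ^ b)⁻¹‖ * (‖(phi z - l) / (z - g l) - (phi z - q) / (z - t1)‖ * ‖r‖) +
        ‖f z‖ * ‖r - 1‖ := by
        rw [norm_mul, norm_mul, norm_mul, norm_mul, hzx, one_mul]
    _ ≤ E0 * (eps / (4 * E0) * 2) + M * (2 * (Real.pi * ρ)) := by gcongr
    _ ≤ eps := by
        have h8 : E0 * (eps / (4 * E0) * 2) = eps / 2 := by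
          field_simp
          norm_num
        have h9 : M * (2 * (Real.pi * ρ)) ≤ eps / 2 := by nlinarith [mul_pos hpi hρ0]
        linarith

/-- The Lipschitz estimate. -/
private theorem xd_L (h : PwC phi F u v) (hx : Xb phi F u v t0 t1 q) {x : ℤ} {M : ℝ}
    (hM : 0 ≤ M) {g : ℂ → ℂ} {S : Set ℂ}
    (hgl : ∀ eps > 0, ∀ᶠ l in 𝓝 q, l ∈ S → ‖g l - t1‖ ≤ eps)
    (hb : ∀ᶠ l in 𝓝 q, l ∈ S → ∀ z ∈ sphere (0 : ℂ) 1, z ∉ F → z ≠ t1 →
      ‖Jq phi u v t0 l z / (z ^ x * (z - g l))‖ ≤ M) :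
    ∃ C > 0, ∀ᶠ l in 𝓝 q, l ∈ S → ∀ z ∈ sphere (0 : ℂ) 1, z ∉ F → z ≠ t1 →
      ‖Jq phi u v t0 l z / (z ^ x * (z - g l)) - Jv u v t0 l / (t0 ^ x * (t0 - g l))‖ ≤
        C * ‖z - t0‖ := by
  have ht0 := h.circ t0 hx.f0
  have ht1 := hx.n1
  have hne : t0 - t1 ≠ 0 := sub_ne_zero.2 fun h1 => hx.f1 (h1 ▸ hx.f0)
  obtain ⟨d, hd⟩ : ∃ d : ℝ, d = ‖t0 - t1‖ / 4 := ⟨_, rfl⟩
  have hd0 : 0 < d := by
    rw [hd]
    exact div_pos (norm_pos_iff.2 hne) (by norm_num)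
  have hd1 : d ≤ 1 / 2 := by
    have h1 := norm_sub_le t0 t1
    rw [ht0, ht1] at h1
    rw [hd]
    linarith
  obtain ⟨hv1, hv2⟩ := jb_val (u := u) (v := v) (t := t0) hx.mem hx.nu hx.nv
  obtain ⟨C1, hC1, hlip⟩ := jb_lip h hx.f0 hx.mem hx.nu hx.nv
  obtain ⟨V, hV⟩ : ∃ V : ℝ, V = ‖Jv u v t0 q‖ + 1 := ⟨_, rfl⟩
  have hV0 : 0 < V := by
    rw [hV]
    positivity
  have hVe : ∀ᶠ l in 𝓝 q, ‖Jv u v t0 l‖ < V :=
    hv1.norm.tendsto.eventually_lt_const (by rw [hV]; linarith)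
  obtain ⟨X, hX⟩ : ∃ X : ℝ, X = |(x : ℝ)| := ⟨_, rfl⟩
  have hX0 : 0 ≤ X := by
    rw [hX]
    exact abs_nonneg _
  refine ⟨C1 / (2 * d) + V * (3 * X + 1) / (4 * d ^ 2) + (M + V / (2 * d)) / d, by positivity, ?_⟩
  filter_upwards [hlip, hVe, hgl d hd0, hb] with l hl1 hl2 hl3 hl4 hlS z hz hzF hz1
  have hzn := mem_sphere_zero_iff_norm.1 hz
  have hgn := hl3 hlS
  have hJ := hl1 z hz hzF
  have hB := hl4 hlS z hz hzF hz1
  have ha0 : 2 * d ≤ ‖t0 ^ x * (t0 - g l)‖ := by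
    rw [norm_mul, norm_zpow, ht0, one_zpow, one_mul]
    have h1 : ‖t0 - t1‖ ≤ ‖t0 - g l‖ + ‖g l - t1‖ := by
      have := norm_add_le (t0 - g l) (g l - t1)
      rwa [sub_add_sub_cancel] at this
    have h2 : ‖t0 - t1‖ = 4 * d := by
      rw [hd]
      ring
    linarith
  have ha00 : t0 ^ x * (t0 - g l) ≠ 0 := norm_pos_iff.1 (by linarith)
  have hcl : ‖Jv u v t0 l / (t0 ^ x * (t0 - g l))‖ ≤ V / (2 * d) := by
    rw [norm_div]
    exact div_le_div₀ hV0.le hl2.le (by positivity) ha0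
  have hzt : 0 ≤ ‖z - t0‖ := norm_nonneg _
  rcases le_or_gt ‖z - t0‖ d with hc | hc
  · have ha : 2 * d ≤ ‖z ^ x * (z - g l)‖ := by
      rw [norm_mul, norm_zpow, hzn, one_zpow, one_mul]
      have h1 : ‖t0 - t1‖ ≤ ‖z - t0‖ + ‖z - g l‖ + ‖g l - t1‖ := by
        have h2 : t0 - t1 = -(z - t0) + (z - g l) + (g l - t1) := by ring
        rw [h2]
        refine (norm_add_le _ _).trans (add_le_add ((norm_add_le _ _).trans ?_) le_rfl)
        rw [norm_neg]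
      have h2 : ‖t0 - t1‖ = 4 * d := by
        rw [hd]
        ring
      linarith
    have haa : z ^ x * (z - g l) ≠ 0 := norm_pos_iff.1 (by linarith)
    obtain ⟨a, had⟩ : ∃ a : ℂ, a = z ^ x * (z - g l) := ⟨_, rfl⟩
    obtain ⟨a', had'⟩ : ∃ a' : ℂ, a' = t0 ^ x * (t0 - g l) := ⟨_, rfl⟩
    have hdiff : ‖a' - a‖ ≤ (3 * X + 1) * ‖z - t0‖ := by
      have h1 : a' - a = -((z ^ x - t0 ^ x) * (t0 - g l)) - z ^ x * (z - t0) := by
        rw [had, had']
        ring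
      have h2 := xd_zpow x hzn ht0
      rw [← hX] at h2
      have h3 : ‖t0 - g l‖ ≤ 3 := by
        have h4 : t0 - g l = t0 - (g l - t1) - t1 := by ring
        rw [h4]
        refine (norm_sub_le _ _).trans ?_
        have := norm_sub_le t0 (g l - t1)
        rw [ht1]
        rw [ht0] at this
        linarith
      rw [h1]
      refine (norm_sub_le _ _).trans ?_
      rw [norm_neg, norm_mul, norm_mul, norm_zpow, hzn, one_zpow, one_mul]
      have h5 : ‖z ^ x - t0 ^ x‖ * ‖t0 - g l‖ ≤ (X * ‖z - t0‖) * 3 :=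
        mul_le_mul h2 h3 (norm_nonneg _) (by positivity)
      linarith
    rw [← had] at ha haa ⊢
    rw [← had'] at ha0 ha00 ⊢
    have key : Jq phi u v t0 l z / a - Jv u v t0 l / a' =
        (Jq phi u v t0 l z - Jv u v t0 l) / a + Jv u v t0 l * (a' - a) / (a * a') := by
      field_simp
      ring
    rw [key]
    have g1 : ‖(Jq phi u v t0 l z - Jv u v t0 l) / a‖ ≤ C1 * ‖z - t0‖ / (2 * d) := by
      rw [norm_div]
      exact div_le_div₀ (by positivity) hJ (by positivity) ha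
    have g2 : ‖Jv u v t0 l * (a' - a) / (a * a')‖ ≤
        V * ((3 * X + 1) * ‖z - t0‖) / (2 * d * (2 * d)) := by
      rw [norm_div, norm_mul, norm_mul]
      exact div_le_div₀ (by positivity) (mul_le_mul hl2.le hdiff (norm_nonneg _) hV0.le)
        (by positivity) (mul_le_mul ha ha0 (by positivity) (norm_nonneg _))
    have g3 : 0 ≤ (M + V / (2 * d)) / d * ‖z - t0‖ := by positivity
    have g4 : (C1 / (2 * d) + V * (3 * X + 1) / (4 * d ^ 2) + (M + V / (2 * d)) / d) *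
        ‖z - t0‖ = C1 * ‖z - t0‖ / (2 * d) + V * ((3 * X + 1) * ‖z - t0‖) / (2 * d * (2 * d)) +
          (M + V / (2 * d)) / d * ‖z - t0‖ := by
      ring
    rw [g4]
    refine (norm_add_le _ _).trans ?_
    linarith
  · have g1 : (M + V / (2 * d)) ≤ (M + V / (2 * d)) / d * ‖z - t0‖ := by
      rw [div_mul_eq_mul_div, le_div_iff₀ hd0]
      exact mul_le_mul_of_nonneg_left hc.le (by positivity)
    have g2 : 0 ≤ (C1 / (2 * d) + V * (3 * X + 1) / (4 * d ^ 2)) * ‖z - t0‖ := by positivity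
    refine (norm_sub_le _ _).trans ?_
    rw [add_mul]
    linarith

/-- Boundedness. -/
private theorem xd_mem (hcv : Cv phi F u v) (ht0 : ‖t0‖ = 1) {x : ℤ} {b g l c : ℂ} {C c0 : ℝ}
    (hC : 0 ≤ C) (hc0 : 0 < c0)
    (hL : ∀ z ∈ sphere (0 : ℂ) 1, z ∉ F → z ≠ t1 →
      ‖Jq phi u v t0 l z / (z ^ x * (z - g)) - c‖ ≤ C * ‖z - t0‖)
    (hW : ∀ y : UnitAddCircle, c0 * ‖e y - t0‖ ^ ((3 : ℝ) / 5) ≤ ‖pwM t0 b y‖) :
    MemLp (fun y => (Jq phi u v t0 l (e y) / (e y ^ x * (e y - g)) - c) / pwM t0 b y) ∞ mu0 := by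
  have m1 : AEMeasurable (fun y : UnitAddCircle => phi (e y) - l) mu0 :=
    (memLp_cv hcv).1.aemeasurable.sub_const l
  have m2 : AEMeasurable (fun y : UnitAddCircle => (-(conj t0 * e y)) ^ bet (u t0) (v t0) l) mu0 :=
    (eta_memLp ht0 (bet (u t0) (v t0) l)).1.aemeasurable
  have m3 : AEMeasurable (fun y : UnitAddCircle => e y ^ x * (e y - g)) mu0 := by
    have h1 : Continuous fun y : UnitAddCircle => e y ^ x :=
      PsiAux.cont_e.zpow₀ x fun y => Or.inl (PsiAux.e_ne y)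
    exact (h1.mul (PsiAux.cont_e.sub continuous_const)).measurable.aemeasurable
  have m4 : AEMeasurable (fun y : UnitAddCircle => pwM t0 b y) mu0 :=
    (pwM t0 b).continuous.measurable.aemeasurable
  refine memLp_top_of_bound
    ((((m1.div m2).div m3).sub_const c).div m4).aestronglyMeasurable (C * 2 / c0) ?_
  filter_upwards [ae_notin F, ae_notin {t1}, ae_notin {t0}] with y h1 h2 h3
  have h2' : e y ≠ t1 := fun h => h2 (Finset.mem_singleton.2 h)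
  have h3' : e y ≠ t0 := fun h => h3 (Finset.mem_singleton.2 h)
  have h4 := hL (e y) (he y) h1 h2'
  have h5 := hW y
  have hd0 : 0 < ‖e y - t0‖ := norm_pos_iff.2 (sub_ne_zero.2 h3')
  have hd2 : ‖e y - t0‖ ≤ 2 := by
    refine (norm_sub_le _ _).trans ?_
    rw [ht0, mem_sphere_zero_iff_norm.1 (he y)]
    norm_num
  obtain ⟨d, hd⟩ : ∃ d : ℝ, d = ‖e y - t0‖ := ⟨_, rfl⟩
  rw [← hd] at h4 h5 hd0 hd2
  have hp : 0 < d ^ ((3 : ℝ) / 5) := Real.rpow_pos_of_pos hd0 _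
  have h6 : d = d ^ ((3 : ℝ) / 5) * d ^ ((2 : ℝ) / 5) := by
    rw [← Real.rpow_add hd0]
    norm_num
  have h7 : d ^ ((2 : ℝ) / 5) ≤ 2 := by
    calc d ^ ((2 : ℝ) / 5) ≤ (2 : ℝ) ^ ((2 : ℝ) / 5) :=
          Real.rpow_le_rpow hd0.le hd2 (by norm_num)
      _ ≤ (2 : ℝ) ^ (1 : ℝ) := Real.rpow_le_rpow_of_exponent_le (by norm_num) (by norm_num)
      _ = 2 := Real.rpow_one 2
  rw [norm_div]
  calc ‖Jq phi u v t0 l (e y) / (e y ^ x * (e y - g)) - c‖ / ‖pwM t0 b y‖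
      ≤ C * d / (c0 * d ^ ((3 : ℝ) / 5)) := div_le_div₀ (by positivity) h4 (by positivity) h5
    _ = C * d ^ ((2 : ℝ) / 5) / c0 := by
        rw [div_eq_div_iff (by positivity) hc0.ne']
        nth_rewrite 1 [h6]
        ring
    _ ≤ C * 2 / c0 := by gcongr

private theorem xd_op {B : UnitAddCircle → ℂ} {c : ℂ} {W : CT}
    (hm : MemLp (fun y => (B y - c) / W y) ∞ mu0) (hW : ∀ᵐ y ∂mu0, W y ≠ 0) :
    MemLp B ∞ mu0 ∧ mul (algebraMap ℂ CT c) + mf (fun y => (B y - c) / W y) * mul (W * 1) =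
      mf B := by
  have m1 := memLp_mul hm (memLp_ct W)
  have m2 : MemLp (fun _ : UnitAddCircle => c) ∞ mu0 := memLp_const c
  have e1 : (fun y => (B y - c) / W y * W y) =ᵐ[mu0] fun y => B y - c := by
    filter_upwards [hW] with y hy
    exact div_mul_cancel₀ _ hy
  have m3 : MemLp (fun y => B y - c) ∞ mu0 := (memLp_congr_ae e1).1 m1
  have m4 : MemLp B ∞ mu0 := by
    have h1 := m3.add m2
    refine (memLp_congr_ae (Filter.Eventually.of_forall fun y => ?_)).1 h1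
    simp
  refine ⟨m4, ?_⟩
  have e2 : mul (algebraMap ℂ CT c) = mf fun _ => c := (mf_ct (algebraMap ℂ CT c)).symm
  rw [mul_one, ← mf_ct W, ← mf_mul hm (memLp_ct W), mf_congr e1, mf_sub m4 m2, e2]
  abel

private theorem xd_alg {D1 D2 : ℂ} (htr : (conj D1 * D2).im ≠ 0) :
    D2 ≠ 0 ∧ (I / D1 * conj (I / D2)).im ≠ 0 := by
  have hD1 : D1 ≠ 0 := by
    rintro rfl
    simp at htr
  have hD2 : D2 ≠ 0 := by
    rintro rfl
    simp at htr
  refine ⟨hD2, ?_⟩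
  have e1 : I / D1 * conj (I / D2) = (D1 * conj D2)⁻¹ := by
    rw [map_div₀, conj_I]
    have : conj D2 ≠ 0 := by simpa using hD2
    field_simp
    rw [I_sq]
    ring
  rw [e1, Complex.inv_im]
  have h1 : (D1 * conj D2).im ≠ 0 := by
    intro h2
    apply htr
    have h3 : conj D1 * D2 = conj (D1 * conj D2) := by
      rw [map_mul, conj_conj]
    rw [h3, conj_im, h2, neg_zero]
  have h4 : normSq (D1 * conj D2) ≠ 0 := by
    rw [Ne, Complex.normSq_eq_zero]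
    intro h5
    rw [h5, zero_im] at h1
    exact h1 rfl
  exact div_ne_zero (neg_ne_zero.2 h1) h4

theorem xd_sb {phi : ℂ → ℂ} {F : Finset ℂ} {u v : ℂ → ℂ} {t0 t1 q : ℂ} (h : PwC phi F u v)
    (hx : Xb phi F u v t0 t1 q) : ∃ (x : ℤ) (g : ℂ → ℂ) (ell : ℂ → CT) (C : ℂ → Op2),
      Xd phi (Gam phi F u v) q t0 t1 (I / (v t0 - u t0)) (I / tg phi t1) x
        (fun l => eta t0 (bet (u t0) (v t0) l)) (fun l y => e y - g l)
        (fun l => pwM t0 (bet (u t0) (v t0) l)) (fun _ => 1)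
        (fun l => pwP t0 (bet (u t0) (v t0) l)) (fun l => fourier 1 - algebraMap ℂ CT (g l))
        (fun l => ks t0 (bet (u t0) (v t0) l)) (fun l => en (g l))
        (fun l => kn1 t0 (bet (u t0) (v t0) l)) (fun l => kn (g l))
        (fun l => (I / (v t0 - u t0) * (l - q)).re < 0) (fun l => ‖g l‖ < 1) ell C := by
  classical
  have ht0 := h.circ t0 hx.f0
  have hne : t0 - t1 ≠ 0 := sub_ne_zero.2 fun h1 => hx.f1 (h1 ▸ hx.f0)
  obtain ⟨htg, htr⟩ := xd_alg hx.trans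
  obtain ⟨g0, goff, glim, guni⟩ := xg h hx.n1 hx.f1
  rw [hx.val] at goff glim guni
  obtain ⟨x, f, M, hM, hfc, hfM, hfW, hfU, hfe⟩ := xd_nf h hx
  obtain ⟨K, hK⟩ : ∃ K : Set ℂ, K = Gam phi F u v := ⟨_, rfl⟩
  rw [← hK] at goff glim guni ⊢
  have hqK : q ∈ K := by
    rw [hK]
    exact Or.inr (mem_iUnion₂.2 ⟨t0, hx.f0, hx.mem⟩)
  obtain ⟨a, ha⟩ : ∃ a : ℂ, a = I / tg phi t1 := ⟨_, rfl⟩
  obtain ⟨g, hg⟩ : ∃ g : ℂ → ℂ, g = fun l => if l = q then t1 else g0 l := ⟨_, rfl⟩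
  have hgK : ∀ l, l ∉ K → g l = g0 l := fun l hl => by
    rw [hg]
    exact if_neg fun h1 => hl (by rw [h1]; exact hqK)
  have hgq : g q = t1 := by
    rw [hg]
    exact if_pos rfl
  have goff' : ∀ᶠ l in 𝓝 q, l ∉ K → ‖g l‖ ≠ 1 := goff.mono fun l hl hlK => by
    rw [hgK l hlK]
    exact hl hlK
  have glim' : ∀ eps > 0, ∀ᶠ l in 𝓝 q, l ∉ K →
      ‖g l - t1 * (1 + I / tg phi t1 * (l - q))‖ ≤ eps * ‖l - q‖ := fun eps heps =>
    (glim eps heps).mono fun l hl hlK => by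
      rw [hgK l hlK]
      exact hl hlK
  obtain ⟨S, hS⟩ : ∃ S : Set ℂ, S = Kᶜ ∪ {q} := ⟨_, rfl⟩
  have hqS : q ∈ S := by
    rw [hS]
    exact Or.inr rfl
  have hKS : ∀ l, l ∉ K → l ∈ S := fun l hl => by
    rw [hS]
    exact Or.inl hl
  have hSq : ∀ l, l ∈ S → ¬ l ∉ K → l = q := fun l hl hlK => by
    rw [hS] at hl
    rcases hl with h1 | h1
    · exact absurd h1 hlK
    · exact h1
  have gS : ∀ eps > 0, ∀ᶠ l in 𝓝 q, l ∈ S → ‖g l - t1‖ ≤ eps := by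
    intro eps heps
    have h1 := glim' 1 one_pos
    have h2 : ∀ᶠ l in 𝓝 q, ‖l - q‖ < eps / (1 + ‖a‖) := by
      have h3 := Metric.ball_mem_nhds q (show 0 < eps / (1 + ‖a‖) by positivity)
      filter_upwards [h3] with l hl
      rwa [Metric.mem_ball, dist_eq_norm] at hl
    filter_upwards [h1, h2] with l hl1 hl2 hlS
    by_cases hlK : l ∉ K
    · have h3 := hl1 hlK
      rw [lt_div_iff₀ (by positivity)] at hl2
      calc ‖g l - t1‖ = ‖(g l - t1 * (1 + I / tg phi t1 * (l - q))) + t1 * (a * (l - q))‖ := by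
            rw [ha]
            congr 1
            ring
        _ ≤ ‖g l - t1 * (1 + I / tg phi t1 * (l - q))‖ + ‖t1 * (a * (l - q))‖ :=
            norm_add_le _ _
        _ ≤ 1 * ‖l - q‖ + ‖a‖ * ‖l - q‖ := by
            rw [norm_mul, norm_mul, hx.n1, one_mul]
            exact add_le_add h3 le_rfl
        _ ≤ eps := by linarith
    · rw [hSq l hlS hlK, hgq, sub_self, norm_zero]
      exact heps.le
  have uS : ∀ eps > 0, ∀ᶠ l in 𝓝 q, l ∈ S → ∀ z ∈ sphere (0 : ℂ) 1, z ∉ F → z ≠ t1 →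
      ‖(phi z - l) / (z - g l) - (phi z - q) / (z - t1)‖ ≤ eps := by
    intro eps heps
    filter_upwards [guni eps heps] with l hl hlS z hz hzF hz1
    by_cases hlK : l ∉ K
    · rw [hgK l hlK]
      exact hl hlK z hz hzF hz1
    · rw [hSq l hlS hlK, hgq, sub_self, norm_zero]
      exact heps.le
  have UU : ∀ eps > 0, ∀ᶠ l in 𝓝 q, l ∈ S → ∀ z ∈ sphere (0 : ℂ) 1, z ∉ F → z ≠ t1 →
      ‖Jq phi u v t0 l z / (z ^ x * (z - g l)) - f z‖ ≤ eps := fun eps heps =>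
    xd_U h hx hM hfM hfe uS heps
  have bS : ∀ᶠ l in 𝓝 q, l ∈ S → ∀ z ∈ sphere (0 : ℂ) 1, z ∉ F → z ≠ t1 →
      ‖Jq phi u v t0 l z / (z ^ x * (z - g l))‖ ≤ M + 1 := by
    filter_upwards [UU 1 one_pos] with l hl hlS z hz hzF hz1
    have h1 := hl hlS z hz hzF hz1
    have h2 := hfM z hz hzF
    calc ‖Jq phi u v t0 l z / (z ^ x * (z - g l))‖
        = ‖(Jq phi u v t0 l z / (z ^ x * (z - g l)) - f z) + f z‖ := by rw [sub_add_cancel]
      _ ≤ 1 + M := (norm_add_le _ _).trans (add_le_add h1 h2)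
      _ = M + 1 := add_comm _ _
  obtain ⟨C1, hC1, hLip⟩ := xd_L h hx (by linarith : (0 : ℝ) ≤ M + 1) gS bS
  obtain ⟨hv1, hv2⟩ := jb_val (u := u) (v := v) (t := t0) hx.mem hx.nu hx.nv
  have hre := bet_re hx.mem hx.nu hx.nv
  obtain ⟨c0, hc0, hW⟩ := pwM_low ht0 hre
  have hcont : ContinuousAt (bet (u t0) (v t0)) q :=
    (bet_diff hx.mem hx.nu hx.nv).self_of_nhds.continuousAt
  have hWl : ∀ᶠ l in 𝓝 q, ∀ y : UnitAddCircle, c0 * ‖e y - t0‖ ^ ((3 : ℝ) / 5) ≤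
      ‖pwM t0 (bet (u t0) (v t0) l) y‖ := hcont.tendsto.eventually hW
  have hrel : ∀ᶠ l in 𝓝 q, 0 < (bet (u t0) (v t0) l).re := by
    have h1 : ContinuousAt (fun l => (bet (u t0) (v t0) l).re) q :=
      Complex.continuous_re.continuousAt.comp hcont
    exact h1.eventually_const_lt (by
      show 0 < (bet (u t0) (v t0) q).re
      rw [hre]
      norm_num)
  obtain ⟨c, hc⟩ : ∃ c : ℂ → ℂ, c = fun l => Jv u v t0 l / (t0 ^ x * (t0 - g l)) := ⟨_, rfl⟩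
  obtain ⟨Bf, hBf⟩ : ∃ Bf : ℂ → UnitAddCircle → ℂ, Bf = fun l y =>
      Jq phi u v t0 l (e y) / (e y ^ x * (e y - g l)) := ⟨_, rfl⟩
  have hMem : ∀ᶠ l in 𝓝 q, l ∈ S →
      MemLp (fun y => (Bf l y - c l) / pwM t0 (bet (u t0) (v t0) l) y) ∞ mu0 := by
    filter_upwards [hLip, hWl] with l hl1 hl2 hlS
    rw [hBf, hc]
    exact xd_mem h.cv ht0 hC1.le hc0 (hl1 hlS) hl2
  have hWne : ∀ᶠ l in 𝓝 q, ∀ᵐ y ∂mu0, pwM t0 (bet (u t0) (v t0) l) y ≠ 0 := by
    filter_upwards [hrel] with l hl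
    filter_upwards [ae_notin {t0}] with y hy
    exact pwM_ne ht0 hl fun h1 => hy (Finset.mem_singleton.2 h1)
  have hop : ∀ᶠ l in 𝓝 q, l ∈ S → MemLp (Bf l) ∞ mu0 ∧
      mul (algebraMap ℂ CT (c l)) +
        mf (fun y => (Bf l y - c l) / pwM t0 (bet (u t0) (v t0) l) y) *
          mul (pwM t0 (bet (u t0) (v t0) l) * 1) = mf (Bf l) := by
    filter_upwards [hMem, hWne] with l hl1 hl2 hlS
    exact xd_op (hl1 hlS) hl2
  have hBq : ∀ᵐ y ∂mu0, Bf q y = f (e y) := by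
    filter_upwards [ae_notin F, ae_notin {t1}] with y h1 h2
    rw [hBf, hfe (e y) (he y) h1 fun h3 => h2 (Finset.mem_singleton.2 h3)]
    simp only
    rw [hgq]
  have ht0n : t0 ^ x ≠ 0 := zpow_ne_zero x (xd_zn (mem_sphere_zero_iff_norm.2 ht0))
  have hlimc : Tendsto c (𝓝[Kᶜ] q) (𝓝 (c q)) := by
    have hgt : Tendsto g (𝓝[Kᶜ] q) (𝓝 t1) := by
      refine Metric.tendsto_nhds.2 fun eps heps => ?_
      rw [eventually_nhdsWithin_iff]
      filter_upwards [gS (eps / 2) (by positivity)] with l hl hlK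
      rw [dist_eq_norm]
      have h1 := hl (hKS l hlK)
      linarith
    rw [hc]
    simp only
    rw [hgq]
    exact Tendsto.div (hv1.tendsto.mono_left nhdsWithin_le_nhds)
      (Tendsto.const_mul _ (tendsto_const_nhds.sub hgt)) (mul_ne_zero ht0n hne)
  have hcq : c q ≠ 0 := by
    rw [hc]
    simp only
    rw [hgq]
    exact div_ne_zero hv2 (mul_ne_zero ht0n hne)
  refine ⟨x, g, fun l => algebraMap ℂ CT (c l),
    fun l => mf (fun y => (Bf l y - c l) / pwM t0 (bet (u t0) (v t0) l) y), ?_⟩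
  refine
    { f1 := fct_s K ht0 hx.mem hx.nu hx.nv
      f2 := fct_b hx.n1 (div_ne_zero I_ne_zero htg) goff' glim'
      ne := fun h1 => hne (sub_eq_zero.2 h1)
      tr := htr
      minus := Filter.Eventually.of_forall fun l => minus_algebraMap _
      inv := ⟨algebraMap ℂ CT (c q)⁻¹, minus_algebraMap _, by
        rw [← map_mul, mul_inv_cancel₀ hcq, map_one]⟩
      cm := fun l => Cm.mf _
      lim1 := ?_
      lim2 := ?_
      unit := ?_
      eq := ?_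
      num := ?_ }
  · exact ((continuous_algebraMap ℂ CT).tendsto _).comp hlimc
  · refine mf_lim (hMem.self_of_nhds hqS) ?_ ?_
    · rw [eventually_nhdsWithin_iff]
      exact hMem.mono fun l hl hlK => hl (hKS l hlK)
    · intro eps heps
      have hL2 : ∀ l : ℂ, (∀ z ∈ sphere (0 : ℂ) 1, z ∉ F → z ≠ t1 →
          ‖Jq phi u v t0 l z / (z ^ x * (z - g l)) - Jv u v t0 l / (t0 ^ x * (t0 - g l))‖ ≤
          C1 * ‖z - t0‖) → ∀ᵐ y ∂mu0, ‖Bf l y - c l‖ ≤ C1 * ‖e y - t0‖ := by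
        intro l hl
        filter_upwards [ae_notin F, ae_notin {t1}] with y h1 h2
        rw [hBf, hc]
        exact hl (e y) (he y) h1 fun h3 => h2 (Finset.mem_singleton.2 h3)
      refine cl_lim (N := fun l y => Bf l y - c l)
        (W := fun l y => pwM t0 (bet (u t0) (v t0) l) y) (N0 := fun y => Bf q y - c q)
        (W0 := fun y => pwM t0 (bet (u t0) (v t0) q) y) (d := fun y => ‖e y - t0‖) (M := 2)
        (C := C1) hc0 (fun y => ⟨norm_nonneg _, ?_⟩) ?_ ?_ ?_ ?_ ?_ ?_ heps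
      · refine (norm_sub_le _ _).trans ?_
        rw [ht0, mem_sphere_zero_iff_norm.1 (he y)]
        norm_num
      · rw [eventually_nhdsWithin_iff]
        exact hLip.mono fun l hl hlK => hL2 l (hl (hKS l hlK))
      · exact hL2 q (hLip.self_of_nhds hqS)
      · intro ε hε
        have h1 : ∀ᶠ l in 𝓝[Kᶜ] q, ‖c l - c q‖ < ε / 2 := by
          have h2 := Metric.tendsto_nhds.1 hlimc (ε / 2) (by positivity)
          filter_upwards [h2] with l hl
          rwa [dist_eq_norm] at hl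
        have h3 : ∀ᶠ l in 𝓝[Kᶜ] q, l ∈ S → ∀ z ∈ sphere (0 : ℂ) 1, z ∉ F → z ≠ t1 →
            ‖Jq phi u v t0 l z / (z ^ x * (z - g l)) - f z‖ ≤ ε / 2 :=
          (UU (ε / 2) (by positivity)).filter_mono nhdsWithin_le_nhds
        filter_upwards [h1, h3, self_mem_nhdsWithin] with l hl1 hl2 hlK
        filter_upwards [hBq, ae_notin F, ae_notin {t1}] with y hy h4 h5
        have h6 := hl2 (hKS l hlK) (e y) (he y) h4 fun h3 => h5 (Finset.mem_singleton.2 h3)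
        rw [hy]
        have h7 : Bf l y - c l - (f (e y) - c q) = (Bf l y - f (e y)) - (c l - c q) := by ring
        rw [h7]
        have h8 : ‖Bf l y - f (e y)‖ ≤ ε / 2 := by
          rw [hBf]
          exact h6
        refine (norm_sub_le _ _).trans ?_
        linarith
      · exact (hWl.filter_mono nhdsWithin_le_nhds).mono fun l hl =>
          Filter.Eventually.of_forall hl
      · exact Filter.Eventually.of_forall hWl.self_of_nhds
      · intro ε hε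
        have h1 : ∀ᶠ l in 𝓝 q, ∀ y : UnitAddCircle, ‖pwM t0 (bet (u t0) (v t0) l) y -
            pwM t0 (bet (u t0) (v t0) q) y‖ ≤ ε * ‖e y - t0‖ ^ ((2 : ℝ) / 5) :=
          hcont.tendsto.eventually (pwM_diff ht0 hre hε)
        exact (h1.filter_mono nhdsWithin_le_nhds).mono fun l hl =>
          Filter.Eventually.of_forall hl
  · have h1 := (hop.self_of_nhds hqS).2
    have h2 : mul (algebraMap ℂ CT (c q)) +
        mf (fun y => (Bf q y - c q) / pwM t0 (bet (u t0) (v t0) q) y) *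
          mul (pwM t0 (bet (u t0) (v t0) q) * 1) = mf fun y => f (e y) := by
      rw [h1]
      exact mf_congr hBq
    show IsUnit (TM (mul (algebraMap ℂ CT (c q)) +
        mf (fun y => (Bf q y - c q) / pwM t0 (bet (u t0) (v t0) q) y) *
          mul (pwM t0 (bet (u t0) (v t0) q) * 1)))
    rw [h2]
    exact hfU
  · filter_upwards [hop, goff'] with l hl1 hl2 hlK
    obtain ⟨m1, m2⟩ := hl1 (hKS l hlK)
    have m3 : MemLp (fun y : UnitAddCircle => e y ^ x) ∞ mu0 := by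
      refine (memLp_congr_ae (Filter.Eventually.of_forall fun y => ?_)).1
        (memLp_ct (fourier x : CT))
      exact PsiAux.four_e x y
    have m4 : MemLp (fun y : UnitAddCircle => e y - g l) ∞ mu0 := by
      refine (memLp_congr_ae (Filter.Eventually.of_forall fun y => ?_)).1
        (memLp_ct (fourier 1 - algebraMap ℂ CT (g l)))
      rw [ContinuousMap.sub_apply, PsiAux.four_e, zpow_one]
      rfl
    have m5 := memLp_mul m3 (memLp_mul (eta_memLp ht0 (bet (u t0) (v t0) l)) m4)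
    show mf (fun y => phi (e y) - l) = (mul (algebraMap ℂ CT (c l)) +
        mf (fun y => (Bf l y - c l) / pwM t0 (bet (u t0) (v t0) l) y) *
          mul (pwM t0 (bet (u t0) (v t0) l) * 1)) *
        mf fun y => e y ^ x * (eta t0 (bet (u t0) (v t0) l) y * (e y - g l))
    rw [m2, ← mf_mul m1 m5]
    refine mf_congr (Filter.Eventually.of_forall fun y => ?_)
    have a1 := zpow_ne_zero x (xd_zn (he y))
    have a2 := xd_zg (he y) (hl2 hlK)
    have a3 : (-(conj t0 * e y)) ^ bet (u t0) (v t0) l ≠ 0 :=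
      (xd_pow (xd_nw ht0 (mem_sphere_zero_iff_norm.1 (he y))) (bet (u t0) (v t0) l)).1
    rw [hBf]
    unfold Jq eta
    beta_reduce
    generalize (-(conj t0 * e y)) ^ bet (u t0) (v t0) l = P at a3 ⊢
    field_simp
  · obtain ⟨δ, hδ, hnum⟩ := xd_num h hx x hfc hfW
    filter_upwards [hnum, UU δ hδ, goff'] with l hl1 hl2 hl3 hlK k1 k2 hk1 hk2
    exact hl1 (g l) (by rw [← hK]; exact hlK) (hl3 hlK) (hl2 (hKS l hlK)) k1 k2 hk1 hk2

end Pool.Agent.TBirX
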