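import Pool.Agent.TBirX.Jb
import Pool.Agent.TBirX.Pe
import Pool.Agent.TBirX.Wm
import Pool.Agent.TBirX.Cl
import Pool.Agent.TBirX.Fs

/-!
# The data at a crossing of two segments

As TBirX/Dsb.lean with two jumps: `b l z = (phi z - l) / (z ^ x eta0 eta1)`. `ell l` = the function `exp (α + γ conj z)` (`Minus`, with the inverse `exp (- α - γ conj z)`) with the values `b l (t0)`, `b l (t1)` at `t0`, `t1` (`α + γ conj t0`, `α + γ conj t1` are logarithms of the values, continuous in `l`), `|b l z - ell l z| ≤ c |z - t0| |z - t1|`;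
`C l = mf ((b l - ell l) / (pwM t0 bet0 * pwM t1 bet1))`, `cl_lim` with `d y = ‖e y - t0‖ * ‖e y - t1‖`. `num`: the numbers by `Wj`, TBirX/Wm.lean.
-/

set_option autoImplicit false

open MeasureTheory Complex Set Filter Topology Metric AddCircle
open scoped ComplexConjugate InnerProductSpace ENNReal

namespace Pool.Agent.TBirX

open Pool.Agent.TBir Pool.Agent.TBirG Pool.Agent.TBirC Pool.Agent.TBirJ Pool.Agent.TBirK
open Pool.Agent.TBirN
open Pool.Agent.TBirP (E qT)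
open Pool.Agent.TBirJ.WjA

/-! ### Exponentials -/

private noncomputable def dsE (p : ℂ × ℂ) : CT :=
  ⟨fun y => exp (p.1 + p.2 * conj (e y)), by
    have := PsiAux.cont_e
    fun_prop⟩

private theorem dsE_apply (p : ℂ × ℂ) (y : UnitAddCircle) :
    dsE p y = exp (p.1 + p.2 * conj (e y)) := rfl

private theorem dsE_cont : Continuous dsE := by
  refine ContinuousMap.continuous_of_continuous_uncurry _ ?_
  have := PsiAux.cont_e
  have h : (Function.uncurry fun (p : ℂ × ℂ) (y : UnitAddCircle) => dsE p y) =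
      fun q : (ℂ × ℂ) × UnitAddCircle => exp (q.1.1 + q.1.2 * conj (e q.2)) := by
    funext q
    rfl
  rw [h]
  fun_prop

private theorem dsE_inv (p : ℂ × ℂ) : dsE p * dsE (-p) = 1 := by
  ext y
  rw [ContinuousMap.mul_apply, dsE_apply, dsE_apply, ← Complex.exp_add, ContinuousMap.one_apply,
    Prod.fst_neg, Prod.snd_neg]
  rw [show p.1 + p.2 * conj (e y) + (-p.1 + -p.2 * conj (e y)) = 0 by ring, Complex.exp_zero]

private theorem ds_conj_e (y : UnitAddCircle) : conj (e y) = (e y)⁻¹ := by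
  rw [Complex.inv_def, Complex.normSq_eq_norm_sq, PsiAux.norm_e']
  simp

private theorem dsE_minus (p : ℂ × ℂ) : Minus (dsE p) := by
  have hb : Summable fun j : ℕ => ‖p.2 ^ j / (j.factorial : ℂ)‖ := by
    have h := Real.summable_pow_div_factorial ‖p.2‖
    refine h.congr fun j => ?_
    rw [norm_div, norm_pow, Complex.norm_natCast]
  have h1 : dsE p = algebraMap ℂ CT (exp p.1) * minusS fun j : ℕ => p.2 ^ j / (j.factorial : ℂ) := by
    ext y
    rw [ContinuousMap.mul_apply, minusS_apply hb, dsE_apply, Complex.exp_add, ds_conj_e]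
    congr 1
    rw [Complex.exp_eq_exp_ℂ, NormedSpace.exp_eq_tsum_div]
    simp only
    refine tsum_congr fun j => ?_
    rw [mul_pow]
    ring
  rw [h1]
  exact (minus_algebraMap _).mul (minus_minusS hb)

/-! ### Powers on the circle -/

private theorem ds_log {w : ℂ} (hw : ‖w‖ = 1) : ‖log w‖ ≤ Real.pi := by
  have h1 : log w = (arg w : ℂ) * I := by
    apply Complex.ext
    · rw [Complex.log_re, hw, Real.log_one]
      simp
    · rw [Complex.log_im]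
      simp
  rw [h1, norm_mul, Complex.norm_I, mul_one, Complex.norm_real, Real.norm_eq_abs]
  exact Complex.abs_arg_le_pi w

private theorem ds_exp_lip {R : ℝ} {x y : ℂ} (hx : ‖x‖ ≤ R) (hy : ‖y‖ ≤ R) :
    ‖exp x - exp y‖ ≤ 2 * Real.exp R * ‖x - y‖ := by
  have e1 : ∀ w : ℂ, ‖w‖ ≤ R → ‖exp w‖ ≤ Real.exp R := fun w hw => by
    rw [Complex.norm_exp]
    exact Real.exp_le_exp.2 ((le_abs_self _).trans ((Complex.abs_re_le_norm w).trans hw))
  rcases le_or_gt ‖x - y‖ 1 with h | h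
  · have h1 : exp x - exp y = exp y * (exp (x - y) - 1) := by
      rw [mul_sub, mul_one, ← Complex.exp_add]
      congr 2
      ring
    rw [h1, norm_mul]
    have h2 := Complex.norm_exp_sub_one_le h
    calc ‖exp y‖ * ‖exp (x - y) - 1‖ ≤ Real.exp R * (2 * ‖x - y‖) :=
          mul_le_mul (e1 y hy) h2 (norm_nonneg _) (Real.exp_pos _).le
      _ = _ := by ring
  · calc ‖exp x - exp y‖ ≤ ‖exp x‖ + ‖exp y‖ := norm_sub_le _ _
      _ ≤ Real.exp R + Real.exp R := add_le_add (e1 x hx) (e1 y hy)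
      _ ≤ _ := by nlinarith [Real.exp_pos R]

private theorem ds_w {t z : ℂ} (ht : ‖t‖ = 1) (hz : ‖z‖ = 1) : ‖-(conj t * z)‖ = 1 := by
  rw [norm_neg, norm_mul, Complex.norm_conj, ht, hz, one_mul]

private theorem ds_w0 {t z : ℂ} (ht : ‖t‖ = 1) (hz : ‖z‖ = 1) : -(conj t * z) ≠ 0 := by
  intro h
  have := ds_w ht hz
  rw [h, norm_zero] at this
  exact zero_ne_one this

private theorem ds_slit {t z : ℂ} (ht : ‖t‖ = 1) (hz : ‖z‖ = 1) (h : z ≠ t) :
    -(conj t * z) ∈ slitPlane := by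
  by_contra hcon
  rw [Complex.mem_slitPlane_iff] at hcon
  push Not at hcon
  obtain ⟨h1, h2⟩ := hcon
  obtain ⟨w, hw⟩ : ∃ w : ℂ, w = -(conj t * z) := ⟨_, rfl⟩
  rw [← hw] at h1 h2
  have h3 : ‖w‖ = 1 := by rw [hw]; exact ds_w ht hz
  have h4 : w = (w.re : ℂ) := by
    apply Complex.ext
    · simp
    · rw [h2]
      simp
  have h5 : w.re = -1 := by
    rw [h4, Complex.norm_real, Real.norm_eq_abs, abs_of_nonpos h1] at h3
    linarith
  have h6 : conj t * z = 1 := by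
    have h7 : w = -1 := by
      rw [h4, h5]
      simp
    rw [hw] at h7
    exact neg_injective (by rw [h7])
  apply h
  have h8 : t * (conj t * z) = z := by
    rw [← mul_assoc, Complex.mul_conj, Complex.normSq_eq_norm_sq, ht]
    simp
  rw [← h8, h6, mul_one]

private theorem ds_glob {f : ℂ → ℂ} {t : ℂ} (hd : DifferentiableAt ℂ f t) {B : ℝ}
    (hB : ∀ z, ‖z‖ = 1 → ‖f z‖ ≤ B) (ht : ‖t‖ = 1) :
    ∃ C > 0, ∀ z, ‖z‖ = 1 → ‖f z - f t‖ ≤ C * ‖z - t‖ := by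
  obtain ⟨C, hC⟩ := hd.isBigO_sub.bound
  obtain ⟨ρ, hρ, h⟩ := Metric.eventually_nhds_iff.1 hC
  have hB0 : 0 ≤ B := (norm_nonneg _).trans (hB t ht)
  refine ⟨|C| + 2 * B / ρ + 1, by positivity, fun z hz => ?_⟩
  rcases lt_or_ge (dist z t) ρ with h1 | h1
  · refine (h h1).trans ?_
    refine mul_le_mul_of_nonneg_right ?_ (norm_nonneg _)
    have : 0 ≤ 2 * B / ρ := by positivity
    linarith [le_abs_self C]
  · rw [dist_eq_norm] at h1
    have h2 : ‖f z - f t‖ ≤ 2 * B := (norm_sub_le _ _).trans (by linarith [hB z hz, hB t ht])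
    have h3 : 2 * B ≤ 2 * B / ρ * ‖z - t‖ := by
      rw [div_mul_eq_mul_div, le_div_iff₀ hρ]
      nlinarith
    have h4 : 0 ≤ (|C| + 1) * ‖z - t‖ := by positivity
    nlinarith

private theorem ds_pow_lip {t : ℂ} (ht : ‖t‖ = 1) (n : ℤ) :
    ∃ C > 0, ∀ z, ‖z‖ = 1 → ‖z ^ n - t ^ n‖ ≤ C * ‖z - t‖ := by
  refine ds_glob (f := fun z => z ^ n) (B := 1) ?_ (fun z hz => ?_) ht
  · refine differentiableAt_zpow.2 (Or.inl ?_)
    intro h
    rw [h, norm_zero] at ht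
    exact zero_ne_one ht
  · rw [norm_zpow, hz, one_zpow]

private theorem ds_log_lip {t t' : ℂ} (ht : ‖t‖ = 1) (ht' : ‖t'‖ = 1) (hne : t ≠ t') :
    ∃ C > 0, ∀ z, ‖z‖ = 1 → ‖log (-(conj t' * z)) - log (-(conj t' * t))‖ ≤ C * ‖z - t‖ := by
  refine ds_glob (f := fun z => log (-(conj t' * z))) (B := Real.pi) ?_ (fun z hz => ?_) ht
  · refine DifferentiableAt.clog ?_ (ds_slit ht' ht hne)
    fun_prop
  · exact ds_log (ds_w ht' hz)

private theorem ds_cpow {t z : ℂ} (ht : ‖t‖ = 1) (hz : ‖z‖ = 1) (b : ℂ) :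
    (-(conj t * z)) ^ b = exp (log (-(conj t * z)) * b) :=
  Complex.cpow_def_of_ne_zero (ds_w0 ht hz) b

private theorem ds_lb {t z b : ℂ} {M : ℝ} (ht : ‖t‖ = 1) (hz : ‖z‖ = 1) (hb : ‖b‖ ≤ M) :
    ‖log (-(conj t * z)) * b‖ ≤ Real.pi * M := by
  rw [norm_mul]
  exact mul_le_mul (ds_log (ds_w ht hz)) hb (norm_nonneg _) Real.pi_pos.le

private theorem ds_eta_bd {t z b : ℂ} {M : ℝ} (ht : ‖t‖ = 1) (hz : ‖z‖ = 1) (hb : ‖b‖ ≤ M) :
    ‖(-(conj t * z)) ^ b‖ ≤ Real.exp (Real.pi * M) := by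
  rw [ds_cpow ht hz, Complex.norm_exp]
  exact Real.exp_le_exp.2 ((le_abs_self _).trans ((Complex.abs_re_le_norm _).trans
    (ds_lb ht hz hb)))

private theorem ds_eta_uni {t z b b' : ℂ} {M : ℝ} (ht : ‖t‖ = 1) (hz : ‖z‖ = 1) (hb : ‖b‖ ≤ M)
    (hb' : ‖b'‖ ≤ M) : ‖(-(conj t * z)) ^ b - (-(conj t * z)) ^ b'‖ ≤
      2 * Real.exp (Real.pi * M) * (Real.pi * ‖b - b'‖) := by
  rw [ds_cpow ht hz, ds_cpow ht hz]
  refine (ds_exp_lip (ds_lb ht hz hb) (ds_lb ht hz hb')).trans ?_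
  refine mul_le_mul_of_nonneg_left ?_ (by positivity)
  rw [← mul_sub, norm_mul]
  exact mul_le_mul_of_nonneg_right (ds_log (ds_w ht hz)) (norm_nonneg _)

private theorem ds_eta_lip {t t' : ℂ} (ht : ‖t‖ = 1) (ht' : ‖t'‖ = 1) (hne : t ≠ t') {M : ℝ} :
    ∃ C > 0, ∀ b : ℂ, ‖b‖ ≤ M → ∀ z, ‖z‖ = 1 →
      ‖(-(conj t' * z)) ^ b - (-(conj t' * t)) ^ b‖ ≤ C * ‖z - t‖ := by
  obtain ⟨C, hC, h⟩ := ds_log_lip ht ht' hne
  refine ⟨2 * Real.exp (Real.pi * M) * (C * (|M| + 1)), by positivity, fun b hb z hz => ?_⟩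
  rw [ds_cpow ht' hz, ds_cpow ht' ht]
  have h1 : ‖log (-(conj t' * z)) * b - log (-(conj t' * t)) * b‖ ≤ C * (|M| + 1) * ‖z - t‖ := by
    rw [← sub_mul, norm_mul]
    calc ‖log (-(conj t' * z)) - log (-(conj t' * t))‖ * ‖b‖ ≤ (C * ‖z - t‖) * (|M| + 1) :=
          mul_le_mul (h z hz) (by linarith [le_abs_self M]) (norm_nonneg _) (by positivity)
      _ = C * (|M| + 1) * ‖z - t‖ := by ring
  calc _ ≤ 2 * Real.exp (Real.pi * M) * ‖log (-(conj t' * z)) * b - log (-(conj t' * t)) * b‖ :=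
        ds_exp_lip (ds_lb ht' hz hb) (ds_lb ht' ht hb)
    _ ≤ 2 * Real.exp (Real.pi * M) * (C * (|M| + 1) * ‖z - t‖) :=
        mul_le_mul_of_nonneg_left h1 (by positivity)
    _ = _ := by ring

/-! ### The symbol without the jumps -/

variable {phi : ℂ → ℂ} {F : Finset ℂ} {u v : ℂ → ℂ} {t t' t0 t1 q : ℂ}

private noncomputable def dsm (u v : ℂ → ℂ) (t' : ℂ) (x : ℤ) (l z : ℂ) : ℂ :=
  z ^ (-x) * (-(conj t' * z)) ^ (-bet (u t') (v t') l)

private noncomputable def dsB (phi u v : ℂ → ℂ) (t0 t1 : ℂ) (x : ℤ) (l z : ℂ) : ℂ :=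
  (phi z - l) * (z ^ (-x) * ((-(conj t0 * z)) ^ (-bet (u t0) (v t0) l) *
    (-(conj t1 * z)) ^ (-bet (u t1) (v t1) l)))

private theorem dsB_eq (x : ℤ) (l z : ℂ) :
    dsB phi u v t0 t1 x l z = Jq phi u v t0 l z * dsm u v t1 x l z := by
  unfold dsB Jq dsm
  rw [Complex.cpow_neg (-(conj t0 * z)) (bet (u t0) (v t0) l)]
  ring

private theorem dsB_comm (x : ℤ) (l z : ℂ) :
    dsB phi u v t0 t1 x l z = dsB phi u v t1 t0 x l z := by
  unfold dsB
  ring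

private theorem ds_bet (hq : q ∈ segment ℝ (u t) (v t)) (h1 : q ≠ u t) (h2 : q ≠ v t) :
    ContinuousAt (fun l => bet (u t) (v t) l) q :=
  (bet_diff hq h1 h2).self_of_nhds.continuousAt

private theorem ds_bet_bd (hc : ContinuousAt (fun l => bet (u t) (v t) l) q) :
    ∀ᶠ l in 𝓝 q, ‖-bet (u t) (v t) l‖ ≤ ‖bet (u t) (v t) q‖ + 1 := by
  have h1 := hc.norm.eventually_le_const (lt_add_one ‖bet (u t) (v t) q‖)
  filter_upwards [h1] with l hl
  rw [norm_neg]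
  exact hl

private theorem dsm_lip (ht : ‖t‖ = 1) (ht' : ‖t'‖ = 1) (hne : t ≠ t')
    (hc : ContinuousAt (fun l => bet (u t') (v t') l) q) (x : ℤ) :
    ∃ C > 0, ∃ M > 0, ∀ᶠ l in 𝓝 q, ∀ z, ‖z‖ = 1 →
      ‖dsm u v t' x l z - dsm u v t' x l t‖ ≤ C * ‖z - t‖ ∧ ‖dsm u v t' x l z‖ ≤ M := by
  obtain ⟨C1, hC1, e1⟩ := ds_pow_lip ht (-x)
  obtain ⟨C2, hC2, e2⟩ := ds_eta_lip ht ht' hne (M := ‖bet (u t') (v t') q‖ + 1)
  obtain ⟨M, hM⟩ : ∃ M : ℝ, M = Real.exp (Real.pi * (‖bet (u t') (v t') q‖ + 1)) := ⟨_, rfl⟩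
  have hM0 : 0 < M := by rw [hM]; exact Real.exp_pos _
  refine ⟨C1 * M + C2, by positivity, M, hM0, ?_⟩
  filter_upwards [ds_bet_bd hc] with l hl z hz
  have b1 : ‖(-(conj t' * z)) ^ (-bet (u t') (v t') l)‖ ≤ M := by
    rw [hM]
    exact ds_eta_bd ht' hz hl
  have n1 : ∀ w : ℂ, ‖w‖ = 1 → ‖w ^ (-x)‖ = 1 := fun w hw => by rw [norm_zpow, hw, one_zpow]
  refine ⟨?_, ?_⟩
  · unfold dsm
    have h1 : z ^ (-x) * (-(conj t' * z)) ^ (-bet (u t') (v t') l) -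
        t ^ (-x) * (-(conj t' * t)) ^ (-bet (u t') (v t') l) =
        (z ^ (-x) - t ^ (-x)) * (-(conj t' * z)) ^ (-bet (u t') (v t') l) +
        t ^ (-x) * ((-(conj t' * z)) ^ (-bet (u t') (v t') l) -
          (-(conj t' * t)) ^ (-bet (u t') (v t') l)) := by ring
    rw [h1]
    refine (norm_add_le _ _).trans ?_
    rw [norm_mul, norm_mul, n1 t ht, one_mul, add_mul]
    refine add_le_add ?_ (e2 _ hl z hz)
    calc _ ≤ (C1 * ‖z - t‖) * M := mul_le_mul (e1 z hz) b1 (norm_nonneg _) (by positivity)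
      _ = _ := by ring
  · unfold dsm
    rw [norm_mul, n1 z hz, one_mul]
    exact b1

private theorem dsm_uni (ht' : ‖t'‖ = 1)
    (hc : ContinuousAt (fun l => bet (u t') (v t') l) q) (x : ℤ) {eps : ℝ} (heps : 0 < eps) :
    ∀ᶠ l in 𝓝 q, ∀ z, ‖z‖ = 1 → ‖dsm u v t' x l z - dsm u v t' x q z‖ ≤ eps := by
  obtain ⟨M, hM⟩ : ∃ M : ℝ, M = 2 * Real.exp (Real.pi * (‖bet (u t') (v t') q‖ + 1)) *
    Real.pi := ⟨_, rfl⟩
  have hM0 : 0 < M := by rw [hM]; positivity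
  have h1 : ∀ᶠ l in 𝓝 q, dist (bet (u t') (v t') l) (bet (u t') (v t') q) < eps / M :=
    Metric.tendsto_nhds.1 hc _ (by positivity)
  filter_upwards [ds_bet_bd hc, h1] with l hl hl1 z hz
  unfold dsm
  rw [← mul_sub, norm_mul, norm_zpow, hz, one_zpow, one_mul]
  refine (ds_eta_uni ht' hz hl (by rw [norm_neg]; linarith)).trans ?_
  rw [dist_eq_norm, lt_div_iff₀ hM0] at hl1
  rw [neg_sub_neg, norm_sub_rev]
  calc _ = ‖bet (u t') (v t') l - bet (u t') (v t') q‖ * M := by rw [hM]; ring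
    _ ≤ eps := hl1.le

private theorem dsm_at (ht : ‖t‖ = 1) (ht' : ‖t'‖ = 1)
    (hc : ContinuousAt (fun l => bet (u t') (v t') l) q) (x : ℤ) :
    ContinuousAt (fun l => dsm u v t' x l t) q := by
  rw [Metric.continuousAt_iff']
  intro eps heps
  filter_upwards [dsm_uni ht' hc x (half_pos heps)] with l hl
  rw [dist_eq_norm]
  exact (hl t ht).trans_lt (half_lt_self heps)

private theorem dsm_ne {z : ℂ} (hz : ‖z‖ = 1) (ht' : ‖t'‖ = 1) (x : ℤ) (l : ℂ) :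
    dsm u v t' x l z ≠ 0 := by
  unfold dsm
  refine mul_ne_zero (zpow_ne_zero _ ?_) ?_
  · intro h
    rw [h, norm_zero] at hz
    exact zero_ne_one hz
  · rw [ds_cpow ht' hz]
    exact Complex.exp_ne_zero _

/-- the value at `t` -/
private noncomputable def dsv (u v : ℂ → ℂ) (t t' : ℂ) (x : ℤ) (l : ℂ) : ℂ :=
  Jv u v t l * dsm u v t' x l t

private theorem dsv_at (ht : ‖t‖ = 1) (ht' : ‖t'‖ = 1) (hq : q ∈ segment ℝ (u t) (v t))
    (h1 : q ≠ u t) (h2 : q ≠ v t) (hc : ContinuousAt (fun l => bet (u t') (v t') l) q) (x : ℤ) :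
    ContinuousAt (dsv u v t t' x) q ∧ dsv u v t t' x q ≠ 0 :=
  ⟨(jb_val hq h1 h2).1.mul (dsm_at ht ht' hc x),
    mul_ne_zero (jb_val hq h1 h2).2 (dsm_ne ht ht' x q)⟩

private theorem dsB_lip (h : PwC phi F u v) (ht : t ∈ F) (ht' : ‖t'‖ = 1) (hne : t ≠ t')
    (hq : q ∈ segment ℝ (u t) (v t)) (h1 : q ≠ u t) (h2 : q ≠ v t)
    (hc : ContinuousAt (fun l => bet (u t') (v t') l) q) (x : ℤ) :
    ∃ C > 0, ∀ᶠ l in 𝓝 q, ∀ z ∈ sphere (0 : ℂ) 1, z ∉ F →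
      ‖dsB phi u v t t' x l z - dsv u v t t' x l‖ ≤ C * ‖z - t‖ := by
  obtain ⟨C1, hC1, e1⟩ := jb_lip h ht hq h1 h2
  obtain ⟨C2, hC2, M, hM, e2⟩ := dsm_lip (h.circ t ht) ht' hne hc x
  have e3 := (jb_val hq h1 h2).1.norm.eventually_le_const (lt_add_one ‖Jv u v t q‖)
  refine ⟨C1 * M + (‖Jv u v t q‖ + 1) * C2, by positivity, ?_⟩
  filter_upwards [e1, e2, e3] with l f1 f2 f3 z hz hzF
  have hz1 : ‖z‖ = 1 := mem_sphere_zero_iff_norm.1 hz
  rw [dsB_eq]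
  unfold dsv
  have e4 : Jq phi u v t l z * dsm u v t' x l z - Jv u v t l * dsm u v t' x l t =
      (Jq phi u v t l z - Jv u v t l) * dsm u v t' x l z +
        Jv u v t l * (dsm u v t' x l z - dsm u v t' x l t) := by ring
  rw [e4]
  refine (norm_add_le _ _).trans ?_
  rw [norm_mul, norm_mul, add_mul]
  refine add_le_add ?_ ?_
  · calc _ ≤ (C1 * ‖z - t‖) * M :=
          mul_le_mul (f1 z hz hzF) (f2 z hz1).2 (norm_nonneg _) (by positivity)
      _ = _ := by ring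
  · calc _ ≤ (‖Jv u v t q‖ + 1) * (C2 * ‖z - t‖) :=
          mul_le_mul f3 (f2 z hz1).1 (norm_nonneg _) (by positivity)
      _ = _ := by ring

private theorem dsB_uni (h : PwC phi F u v) (ht : t ∈ F) (ht' : ‖t'‖ = 1) (hne : t ≠ t')
    (hq : q ∈ segment ℝ (u t) (v t)) (h1 : q ≠ u t) (h2 : q ≠ v t)
    (hc : ContinuousAt (fun l => bet (u t') (v t') l) q) (x : ℤ) {eps : ℝ} (heps : 0 < eps) :
    ∀ᶠ l in 𝓝 q, ∀ z ∈ sphere (0 : ℂ) 1, z ∉ F →
      ‖dsB phi u v t t' x l z - dsB phi u v t t' x q z‖ ≤ eps := by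
  obtain ⟨C1, hC1, e1⟩ := jb_lip h ht hq h1 h2
  obtain ⟨C2, hC2, M, hM, e2⟩ := dsm_lip (h.circ t ht) ht' hne hc x
  obtain ⟨J, hJ⟩ : ∃ J : ℝ, J = ‖Jv u v t q‖ + C1 * 2 + 1 := ⟨_, rfl⟩
  have hJ0 : 0 < J := by rw [hJ]; positivity
  have g1 := e1.self_of_nhds
  filter_upwards [e2, jb_uni h ht hq h1 h2 (show 0 < eps / (2 * M) by positivity),
    dsm_uni ht' hc x (show 0 < eps / (2 * J) by positivity)] with l f2 f3 f4 z hz hzF
  have hz1 : ‖z‖ = 1 := mem_sphere_zero_iff_norm.1 hz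
  rw [dsB_eq, dsB_eq]
  have e4 : Jq phi u v t l z * dsm u v t' x l z - Jq phi u v t q z * dsm u v t' x q z =
      (Jq phi u v t l z - Jq phi u v t q z) * dsm u v t' x l z +
        Jq phi u v t q z * (dsm u v t' x l z - dsm u v t' x q z) := by ring
  rw [e4]
  refine (norm_add_le _ _).trans ?_
  rw [norm_mul, norm_mul]
  have e5 : ‖Jq phi u v t q z‖ ≤ J := by
    have h5 := g1 z hz hzF
    have h6 : ‖z - t‖ ≤ 2 := by
      refine (norm_sub_le _ _).trans ?_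
      rw [hz1, h.circ t ht]
      norm_num
    have h7 : ‖Jq phi u v t q z‖ ≤ ‖Jv u v t q‖ + ‖Jq phi u v t q z - Jv u v t q‖ := by
      have := norm_add_le (Jv u v t q) (Jq phi u v t q z - Jv u v t q)
      rwa [add_sub_cancel] at this
    rw [hJ]
    nlinarith
  have e6 : ‖Jq phi u v t l z - Jq phi u v t q z‖ * ‖dsm u v t' x l z‖ ≤ eps / 2 := by
    calc _ ≤ eps / (2 * M) * M :=
          mul_le_mul (f3 z hz hzF) (f2 z hz1).2 (norm_nonneg _) (by positivity)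
      _ = eps / 2 := by field_simp
  have e7 : ‖Jq phi u v t q z‖ * ‖dsm u v t' x l z - dsm u v t' x q z‖ ≤ eps / 2 := by
    calc _ ≤ J * (eps / (2 * J)) :=
          mul_le_mul e5 (f4 z hz1) (norm_nonneg _) hJ0.le
      _ = eps / 2 := by field_simp
  linarith

/-! ### Continuity and one-sided limits -/

private theorem ds_eta_at {z : ℂ} (ht : ‖t‖ = 1) (hz : ‖z‖ = 1) (hne : z ≠ t) (b : ℂ) :
    ContinuousAt (fun z => (-(conj t * z)) ^ b) z := by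
  refine ContinuousAt.cpow ?_ continuousAt_const (ds_slit ht hz hne)
  fun_prop

private theorem ds_pow_at {z : ℂ} (hz : ‖z‖ = 1) (n : ℤ) : ContinuousAt (fun z : ℂ => z ^ n) z := by
  refine continuousAt_zpow₀ z n (Or.inl ?_)
  intro h
  rw [h, norm_zero] at hz
  exact zero_ne_one hz

private theorem dsm_cont {z : ℂ} (ht' : ‖t'‖ = 1) (hz : ‖z‖ = 1) (hne : z ≠ t') (x : ℤ) (l : ℂ) :
    ContinuousAt (dsm u v t' x l) z :=
  (ds_pow_at hz (-x)).mul (ds_eta_at ht' hz hne _)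

private noncomputable def dsk (u v : ℂ → ℂ) (t0 t1 : ℂ) (x : ℤ) (l z : ℂ) : ℂ :=
  z ^ (-x) * ((-(conj t0 * z)) ^ (-bet (u t0) (v t0) l) *
    (-(conj t1 * z)) ^ (-bet (u t1) (v t1) l))

private theorem dsk_cont {z : ℂ} (h0 : ‖t0‖ = 1) (h1 : ‖t1‖ = 1) (hz : ‖z‖ = 1) (n0 : z ≠ t0)
    (n1 : z ≠ t1) (x : ℤ) (l : ℂ) : ContinuousAt (dsk u v t0 t1 x l) z :=
  (ds_pow_at hz (-x)).mul ((ds_eta_at h0 hz n0 _).mul (ds_eta_at h1 hz n1 _))

private theorem dsk_ne {z : ℂ} (h0 : ‖t0‖ = 1) (h1 : ‖t1‖ = 1) (hz : ‖z‖ = 1) (x : ℤ) (l : ℂ) :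
    dsk u v t0 t1 x l z ≠ 0 := by
  unfold dsk
  refine mul_ne_zero (zpow_ne_zero _ ?_) (mul_ne_zero ?_ ?_)
  · intro h
    rw [h, norm_zero] at hz
    exact zero_ne_one hz
  · rw [ds_cpow h0 hz]
    exact Complex.exp_ne_zero _
  · rw [ds_cpow h1 hz]
    exact Complex.exp_ne_zero _

private theorem dsB_cont (h : PwC phi F u v) (h0 : t0 ∈ F) (h1 : t1 ∈ F) (x : ℤ) (l : ℂ) :
    ContinuousOn (dsB phi u v t0 t1 x l) (sphere 0 1 \ F) := by
  intro z hz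
  have hz1 : ‖z‖ = 1 := mem_sphere_zero_iff_norm.1 hz.1
  have n0 : z ≠ t0 := by rintro rfl; exact hz.2 h0
  have n1 : z ≠ t1 := by rintro rfl; exact hz.2 h1
  exact ((h.cv.cont z hz).sub continuousWithinAt_const).mul
    (dsk_cont (h.circ t0 h0) (h.circ t1 h1) hz1 n0 n1 x l).continuousWithinAt

/-- the limits at the points of `F` without `t0`, `t1` -/
private theorem dsB_lim (h : PwC phi F u v) (h0 : t0 ∈ F) (h1 : t1 ∈ F) (x : ℤ) (l : ℂ) {w : ℂ}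
    (hw : w ∈ F) (n0 : w ≠ t0) (n1 : w ≠ t1) :
    Tendsto (fun y : ℝ => dsB phi u v t0 t1 x l (w * E (-y))) (𝓝[>] 0)
      (𝓝 ((u w - l) * dsk u v t0 t1 x l w)) ∧
    Tendsto (fun y : ℝ => dsB phi u v t0 t1 x l (w * E y)) (𝓝[>] 0)
      (𝓝 ((v w - l) * dsk u v t0 t1 x l w)) := by
  have hk := dsk_cont (u := u) (v := v) (h.circ t0 h0) (h.circ t1 h1) (h.circ w hw) n0 n1 x l
  exact ⟨((h.cv.lim_left w hw).sub_const l).mul (hk.tendsto.comp (tend_L w)),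
    ((h.cv.lim_right w hw).sub_const l).mul (hk.tendsto.comp (tend_R w))⟩

/-- the limits at `t` -/
private theorem dsB_lim' (h : PwC phi F u v) (ht : t ∈ F) (ht' : ‖t'‖ = 1) (hne : t ≠ t')
    (hq : q ∈ segment ℝ (u t) (v t)) (h1 : q ≠ u t) (h2 : q ≠ v t) (x : ℤ) :
    ∀ᶠ l in 𝓝 q,
      Tendsto (fun y : ℝ => dsB phi u v t t' x l (t * E (-y))) (𝓝[>] 0) (𝓝 (dsv u v t t' x l)) ∧
      Tendsto (fun y : ℝ => dsB phi u v t t' x l (t * E y)) (𝓝[>] 0) (𝓝 (dsv u v t t' x l)) := by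
  filter_upwards [jb_tend h ht hq h1 h2] with l hl
  have hm := dsm_cont (u := u) (v := v) ht' (h.circ t ht) hne x l
  refine ⟨?_, ?_⟩
  · have := hl.1.mul (hm.tendsto.comp (tend_L t))
    refine this.congr fun y => ?_
    rw [dsB_eq]
    rfl
  · have := hl.2.mul (hm.tendsto.comp (tend_R t))
    refine this.congr fun y => ?_
    rw [dsB_eq]
    rfl

private theorem dsB_zero {z : ℂ} (x : ℤ) (l : ℂ) :
    dsB phi u v t0 t1 x l z = z ^ (-x) * dsB phi u v t0 t1 0 l z := by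
  unfold dsB
  rw [neg_zero, zpow_zero, one_mul]
  ring

/-- The normal form at `q`. -/
private theorem ds_nf (h : PwC phi F u v) (hx : Xs phi F u v t0 t1 q) :
    ∃ x : ℤ, IsUnit (TM (mf fun y => dsB phi u v t0 t1 x q (e y))) ∧
      Wj (dsB phi u v t0 t1 x q) F 0 0 := by
  classical
  obtain ⟨r, hr⟩ := exists_rad h.circ
  have hF0 := h.circ t0 hx.f0
  have hF1 := h.circ t1 hx.f1
  obtain ⟨kap, hkap⟩ : ∃ kap : ℂ → ℂ, kap = fun w => if w = t0 ∨ w = t1 then 0 else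
    Complex.log ((v w - q) / (u w - q)) := ⟨_, rfl⟩
  obtain ⟨a, ha⟩ : ∃ a : ℂ → ℂ, a = fun w => if w = t0 then dsv u v t0 t1 0 q else
    if w = t1 then dsv u v t1 t0 0 q else (u w - q) * dsk u v t0 t1 0 q w := ⟨_, rfl⟩
  obtain ⟨b, hb⟩ : ∃ b : ℂ → ℂ, b = fun w => if w = t0 then dsv u v t0 t1 0 q else
    if w = t1 then dsv u v t1 t0 0 q else (v w - q) * dsk u v t0 t1 0 q w := ⟨_, rfl⟩
  have l0 := (dsB_lim' h hx.f0 hF1 hx.ne hx.mem0 hx.nu0 hx.nv0 0).self_of_nhds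
  have l1 := (dsB_lim' h hx.f1 hF0 hx.ne.symm hx.mem1 hx.nu1 hx.nv1 0).self_of_nhds
  have c0 := ds_bet hx.mem0 hx.nu0 hx.nv0
  have c1 := ds_bet hx.mem1 hx.nu1 hx.nv1
  have v0 := (dsv_at hF0 hF1 hx.mem0 hx.nu0 hx.nv0 c1 0).2
  have v1 := (dsv_at hF1 hF0 hx.mem1 hx.nu1 hx.nv1 c0 0).2
  have l1' : Tendsto (fun y : ℝ => dsB phi u v t0 t1 0 q (t1 * E (-y))) (𝓝[>] 0)
      (𝓝 (dsv u v t1 t0 0 q)) ∧
      Tendsto (fun y : ℝ => dsB phi u v t0 t1 0 q (t1 * E y)) (𝓝[>] 0)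
      (𝓝 (dsv u v t1 t0 0 q)) :=
    ⟨l1.1.congr fun y => dsB_comm _ _ _, l1.2.congr fun y => dsB_comm _ _ _⟩
  have hk : ∀ w ∈ F, |(kap w).im| < Real.pi := by
    intro w hw
    rw [hkap]
    simp only
    split_ifs with hc
    · simpa using Real.pi_pos
    · push Not at hc
      exact log_im (hx.seg w hw hc.1 hc.2)
  obtain ⟨n, g, hg, hng⟩ := normal_form h.circ hr (psi := dsB phi u v t0 t1 0 q)
    (dsB_cont h hx.f0 hx.f1 0 q) (fun z hz hzF => by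
      have hz1 := mem_sphere_zero_iff_norm.1 hz
      exact mul_ne_zero (sub_ne_zero.2 (hx.only z hz1 hzF))
        (dsk_ne (u := u) (v := v) hF0 hF1 hz1 0 q))
    (a := a) (b := b) (kap := kap)
    (fun w hw => by
      rw [ha]
      simp only
      split_ifs with c1 c2
      · rw [c1]; exact l0.1
      · rw [c2]; exact l1'.1
      · exact (dsB_lim h hx.f0 hx.f1 0 q hw c1 c2).1)
    (fun w hw => by
      rw [hb]
      simp only
      split_ifs with c1 c2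
      · rw [c1]; exact l0.2
      · rw [c2]; exact l1'.2
      · exact (dsB_lim h hx.f0 hx.f1 0 q hw c1 c2).2)
    (fun w hw => by
      rw [ha]
      simp only
      split_ifs with c1 c2
      · exact v0
      · exact v1
      · exact mul_ne_zero (ne_seg (hx.seg w hw c1 c2)).1
          (dsk_ne hF0 hF1 (h.circ w hw) 0 q))
    (fun w hw => by
      rw [hb]
      simp only
      split_ifs with c1 c2
      · exact v0
      · exact v1
      · exact mul_ne_zero (ne_seg (hx.seg w hw c1 c2)).2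
          (dsk_ne hF0 hF1 (h.circ w hw) 0 q))
    (fun w hw => by
      rw [ha, hb, hkap]
      simp only
      by_cases c1 : w = t0
      · simp only [c1, if_true, true_or, Complex.exp_zero]
        rw [div_self v0]
      · by_cases c2 : w = t1
        · simp only [c2, if_true, if_false, or_true, Complex.exp_zero, hx.ne.symm]
          rw [div_self v1]
        · simp only [c1, c2, if_false, or_false]
          rw [mul_div_mul_right _ _ (dsk_ne hF0 hF1 (h.circ w hw) 0 q)]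
          exact Complex.exp_log (div_ne_zero (ne_seg (hx.seg w hw c1 c2)).2
            (ne_seg (hx.seg w hw c1 c2)).1))
  have key : ∀ z ∈ sphere (0 : ℂ) 1, z ∉ F → dsB phi u v t0 t1 n q z =
      exp (g z + ∑ t ∈ F, kap t * (ch r t z : ℂ)) := by
    intro z hz hzF
    rw [dsB_zero, hng z hz hzF, ← mul_assoc, ← zpow_add₀, neg_add_cancel, zpow_zero, one_mul]
    intro h0
    rw [h0, mem_sphere_zero_iff_norm, norm_zero] at hz
    exact zero_ne_one hz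
  refine ⟨n, ?_, fun z => g z + ∑ t ∈ F, kap t * (ch r t z : ℂ),
    (hg.mono sdiff_subset).add (sum_cont h.circ hr kap), fun w hw => ?_, fun z hz hzF => ?_⟩
  · have h1 := isUnit_expJ h.circ hr hg (kap := kap) hk
    rw [mf_congr (b := fun x => exp (g (e x) + ∑ t ∈ F, kap t * (ch r t (e x) : ℂ))) ?_]
    · exact h1
    · filter_upwards [ae_notin F] with y hy
      exact key (e y) (he y) hy
  · obtain ⟨c, hc1, hc2⟩ := sum_lim h.circ hr kap hw
    have hgt : ∀ f : ℝ → ℝ, Tendsto (fun x : ℝ => w * E (f x)) (𝓝[>] 0) (𝓝 w) →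
        Tendsto (fun x : ℝ => g (w * E (f x))) (𝓝[>] 0) (𝓝 (g w)) := by
      intro f hf
      refine (hg w (mem_sphere_zero_iff_norm.2 (h.circ w hw))).tendsto.comp
        (tendsto_nhdsWithin_iff.2 ⟨hf, ?_⟩)
      exact Filter.Eventually.of_forall fun x => mem_sph (h.circ w hw) _
    refine ⟨g w + (c - kap w / 2), g w + (c + kap w / 2), (hgt (fun x => -x) (tend_L w)).add hc1,
      (hgt (fun x => x) (tend_R w)).add hc2, ?_⟩
    have h1 : g w + (c + kap w / 2) - (g w + (c - kap w / 2)) = kap w := by ring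
    rw [h1]
    exact hk w hw
  · rw [sub_zero, zpow_zero, one_mul]
    exact key z hz hzF

/-- The numbers near `q`. -/
private theorem ds_wj (h : PwC phi F u v) (hx : Xs phi F u v t0 t1 q) {x : ℤ}
    (hW : Wj (dsB phi u v t0 t1 x q) F 0 0) : ∀ᶠ l in 𝓝 q, Wj (dsB phi u v t0 t1 x l) F 0 0 := by
  have hF0 := h.circ t0 hx.f0
  have hF1 := h.circ t1 hx.f1
  have c1 := ds_bet hx.mem1 hx.nu1 hx.nv1
  obtain ⟨δ, hδ, hp⟩ := wm_pert h.circ hW
  filter_upwards [dsB_uni h hx.f0 hF1 hx.ne hx.mem0 hx.nu0 hx.nv0 c1 x hδ,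
    dsB_lim' h hx.f0 hF1 hx.ne hx.mem0 hx.nu0 hx.nv0 x,
    dsB_lim' h hx.f1 hF0 hx.ne.symm hx.mem1 hx.nu1 hx.nv1 x] with l f1 f2 f3
  refine hp _ (dsB_cont h hx.f0 hx.f1 x l) (fun w hw => ?_) f1
  by_cases e1 : w = t0
  · rw [e1]
    exact ⟨_, _, f2.1, f2.2⟩
  · by_cases e2 : w = t1
    · rw [e2]
      exact ⟨_, _, f3.1.congr fun y => dsB_comm _ _ _, f3.2.congr fun y => dsB_comm _ _ _⟩
    · exact ⟨_, _, (dsB_lim h hx.f0 hx.f1 x l hw e1 e2).1, (dsB_lim h hx.f0 hx.f1 x l hw e1 e2).2⟩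

/-! ### The numbers -/

private theorem ds_cp_ne {z : ℂ} (ht : ‖t‖ = 1) (hz : ‖z‖ = 1) (b : ℂ) :
    (-(conj t * z)) ^ b ≠ 0 := by
  rw [ds_cpow ht hz]
  exact Complex.exp_ne_zero _

private theorem ds_prod {z : ℂ} (h0 : ‖t0‖ = 1) (h1 : ‖t1‖ = 1) (hz : ‖z‖ = 1) (x : ℤ) (l : ℂ) :
    dsB phi u v t0 t1 x l z * (z ^ x * ((-(conj t0 * z)) ^ bet (u t0) (v t0) l *
      (-(conj t1 * z)) ^ bet (u t1) (v t1) l)) = phi z - l := by
  have hz0 : z ≠ 0 := by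
    intro h
    rw [h, norm_zero] at hz
    exact zero_ne_one hz
  have n0 := ds_cp_ne h0 hz (bet (u t0) (v t0) l)
  have n1 := ds_cp_ne h1 hz (bet (u t1) (v t1) l)
  have n2 : z ^ x ≠ 0 := zpow_ne_zero _ hz0
  unfold dsB
  rw [Complex.cpow_neg, Complex.cpow_neg, zpow_neg]
  generalize (-(conj t0 * z)) ^ bet (u t0) (v t0) l = A at n0 ⊢
  generalize (-(conj t1 * z)) ^ bet (u t1) (v t1) l = A' at n1 ⊢
  generalize z ^ x = Z at n2 ⊢
  field_simp

private theorem ds_num (h : PwC phi F u v) (hx : Xs phi F u v t0 t1 q) {x : ℤ}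
    (hW : Wj (dsB phi u v t0 t1 x q) F 0 0) :
    ∀ᶠ l in 𝓝 q, l ∉ Gam phi F u v → ∀ k1 k2 : ℤ,
      (((I / (v t0 - u t0) * (l - q)).re < 0 ∧ k1 = 1) ∨
        (¬ (I / (v t0 - u t0) * (l - q)).re < 0 ∧ k1 = 0)) →
      (((I / (v t1 - u t1) * (l - q)).re < 0 ∧ k2 = 1) ∨
        (¬ (I / (v t1 - u t1) * (l - q)).re < 0 ∧ k2 = 0)) → Ix phi l (x + k1 + k2) := by
  have hF0 := h.circ t0 hx.f0
  have hF1 := h.circ t1 hx.f1
  have c0 := ds_bet hx.mem0 hx.nu0 hx.nv0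
  have c1 := ds_bet hx.mem1 hx.nu1 hx.nv1
  obtain ⟨cc0, CC0, -, -, b0⟩ := bet_lin hx.mem0 hx.nu0 hx.nv0
  obtain ⟨cc1, CC1, -, -, b1⟩ := bet_lin hx.mem1 hx.nu1 hx.nv1
  have v0 := dsv_at hF0 hF1 hx.mem0 hx.nu0 hx.nv0 c1 x
  have v1 := dsv_at hF1 hF0 hx.mem1 hx.nu1 hx.nv1 c0 x
  filter_upwards [ds_wj h hx hW, b0, b1,
    dsB_lim' h hx.f0 hF1 hx.ne hx.mem0 hx.nu0 hx.nv0 x,
    dsB_lim' h hx.f1 hF0 hx.ne.symm hx.mem1 hx.nu1 hx.nv1 x,
    v0.1.eventually_ne v0.2, v1.1.eventually_ne v1.2] with l w0 g0 g1 f2 f3 z0 z1 hlK k1 k2 hk1 hk2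
  have s0 : l ∉ segment ℝ (u t0) (v t0) := fun h1 =>
    hlK (Or.inr (mem_iUnion₂.2 ⟨t0, hx.f0, h1⟩))
  have s1 : l ∉ segment ℝ (u t1) (v t1) := fun h1 =>
    hlK (Or.inr (mem_iUnion₂.2 ⟨t1, hx.f1, h1⟩))
  have E0 : Wj (fun z => (-(conj t0 * z)) ^ bet (u t0) (v t0) l) F 0 k1 := by
    refine wm_eta h.circ hx.f0 ?_
    have h1 := bet_bd (u t0) (v t0) l
    have h2 := bet_ne s0
    rcases hk1 with ⟨h3, h4⟩ | ⟨h3, h4⟩
    · exact Or.inl ⟨h4, g0.1.2 h3, by linarith [h1.2]⟩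
    · refine Or.inr ⟨h4, ?_⟩
      have h5 : ¬ 1 / 2 < (bet (u t0) (v t0) l).re := fun h6 => h3 (g0.1.1 h6)
      push Not at h5
      rw [abs_lt]
      exact ⟨by linarith [h1.1], lt_of_le_of_ne h5 h2⟩
  have E1 : Wj (fun z => (-(conj t1 * z)) ^ bet (u t1) (v t1) l) F 0 k2 := by
    refine wm_eta h.circ hx.f1 ?_
    have h1 := bet_bd (u t1) (v t1) l
    have h2 := bet_ne s1
    rcases hk2 with ⟨h3, h4⟩ | ⟨h3, h4⟩
    · exact Or.inl ⟨h4, g1.1.2 h3, by linarith [h1.2]⟩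
    · refine Or.inr ⟨h4, ?_⟩
      have h5 : ¬ 1 / 2 < (bet (u t1) (v t1) l).re := fun h6 => h3 (g1.1.1 h6)
      push Not at h5
      rw [abs_lt]
      exact ⟨by linarith [h1.1], lt_of_le_of_ne h5 h2⟩
  have M1 := wm_mul h.circ E0 E1 (fun w hw => by
    have hw1 := h.circ w hw
    by_cases e1 : w = t0
    · have hc := ds_eta_at hF1 hw1 (by rw [e1]; exact hx.ne) (bet (u t1) (v t1) l)
      exact ⟨_, ds_cp_ne hF1 hw1 _, Or.inr ⟨hc.tendsto.comp (tend_L w), hc.tendsto.comp (tend_R w)⟩⟩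
    · have hc := ds_eta_at hF0 hw1 e1 (bet (u t0) (v t0) l)
      exact ⟨_, ds_cp_ne hF0 hw1 _,
        Or.inl ⟨hc.tendsto.comp (tend_L w), hc.tendsto.comp (tend_R w)⟩⟩)
  have M2 := wm_mul h.circ (wm_pow F x) M1 (fun w hw => by
    have hw1 := h.circ w hw
    have hc := ds_pow_at hw1 x
    refine ⟨w ^ x, zpow_ne_zero _ ?_,
      Or.inl ⟨hc.tendsto.comp (tend_L w), hc.tendsto.comp (tend_R w)⟩⟩
    intro h1
    rw [h1, norm_zero] at hw1
    exact zero_ne_one hw1)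
  have M3 := wm_mul h.circ w0 M2 (fun w hw => by
    have hw1 := h.circ w hw
    by_cases e1 : w = t0
    · rw [e1]
      exact ⟨_, z0, Or.inl f2⟩
    · by_cases e2 : w = t1
      · rw [e2]
        exact ⟨_, z1, Or.inl ⟨f3.1.congr fun y => dsB_comm _ _ _, f3.2.congr fun y => dsB_comm _ _ _⟩⟩
      · have hc : ContinuousAt (fun z => z ^ x * ((-(conj t0 * z)) ^ bet (u t0) (v t0) l *
            (-(conj t1 * z)) ^ bet (u t1) (v t1) l)) w :=
          (ds_pow_at hw1 x).mul ((ds_eta_at hF0 hw1 e1 _).mul (ds_eta_at hF1 hw1 e2 _))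
        refine ⟨_, ?_, Or.inr ⟨hc.tendsto.comp (tend_L w), hc.tendsto.comp (tend_R w)⟩⟩
        refine mul_ne_zero (zpow_ne_zero _ ?_) (mul_ne_zero (ds_cp_ne hF0 hw1 _)
          (ds_cp_ne hF1 hw1 _))
        intro h1
        rw [h1, norm_zero] at hw1
        exact zero_ne_one hw1)
  apply wj_ix h.cv
  obtain ⟨H, hH, hlim, hph⟩ := M3
  refine ⟨H, hH, hlim, fun z hz hzF => ?_⟩
  have h1 := hph z hz hzF
  beta_reduce at h1
  rw [ds_prod hF0 hF1 (mem_sphere_zero_iff_norm.1 hz), sub_zero] at h1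
  rw [h1]
  congr 2
  ring

/-! ### The exponential -/

private noncomputable def dsL (f : ℂ → ℂ) (q l : ℂ) : ℂ := log (f l / f q) + log (f q)

private theorem dsL_at {f : ℂ → ℂ} (hf : ContinuousAt f q) (h0 : f q ≠ 0) :
    ContinuousAt (dsL f q) q := by
  refine ContinuousAt.add (ContinuousAt.clog (hf.div_const _) ?_) continuousAt_const
  rw [div_self h0]
  exact Complex.one_mem_slitPlane

private theorem dsL_exp {f : ℂ → ℂ} (hf : ContinuousAt f q) (h0 : f q ≠ 0) :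
    ∀ᶠ l in 𝓝 q, exp (dsL f q l) = f l := by
  filter_upwards [hf.eventually_ne h0] with l hl
  unfold dsL
  rw [Complex.exp_add, Complex.exp_log (div_ne_zero hl h0), Complex.exp_log h0,
    div_mul_cancel₀ _ h0]

private noncomputable def dsp (t0 t1 : ℂ) (L0 L1 : ℂ → ℂ) (l : ℂ) : ℂ × ℂ :=
  (L0 l - (L0 l - L1 l) / (conj t0 - conj t1) * conj t0, (L0 l - L1 l) / (conj t0 - conj t1))

private theorem dsp_at {L0 L1 : ℂ → ℂ} (h0 : ContinuousAt L0 q) (h1 : ContinuousAt L1 q) :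
    ContinuousAt (dsp t0 t1 L0 L1) q := by
  unfold dsp
  exact (h0.sub (((h0.sub h1).div_const _).mul_const _)).prodMk ((h0.sub h1).div_const _)

private theorem dsp_val {L0 L1 : ℂ → ℂ} (hne : t0 ≠ t1) (l : ℂ) :
    (dsp t0 t1 L0 L1 l).1 + (dsp t0 t1 L0 L1 l).2 * conj t0 = L0 l ∧
    (dsp t0 t1 L0 L1 l).1 + (dsp t0 t1 L0 L1 l).2 * conj t1 = L1 l := by
  have h1 : conj t0 - conj t1 ≠ 0 := by
    rw [← map_sub, Ne, map_eq_zero, sub_eq_zero]
    exact hne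
  unfold dsp
  refine ⟨?_, ?_⟩
  · simp only
    ring
  · simp only
    field_simp
    ring

/-- Lipschitz condition of the exponential at `t`. -/
private theorem dsE_lip {p : ℂ → ℂ × ℂ} (hp : ContinuousAt p q) {f : ℂ → ℂ}
    (hf : ∀ᶠ l in 𝓝 q, exp ((p l).1 + (p l).2 * conj t) = f l) (ht : ‖t‖ = 1) :
    ∃ C > 0, ∀ᶠ l in 𝓝 q, ∀ z, ‖z‖ = 1 → ‖exp ((p l).1 + (p l).2 * conj z) - f l‖ ≤ C * ‖z - t‖ := by
  obtain ⟨R, hR⟩ : ∃ R : ℝ, R = ‖(p q).1‖ + 1 + (‖(p q).2‖ + 1) := ⟨_, rfl⟩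
  have e1 := hp.fst.norm.eventually_le_const (lt_add_one ‖(p q).1‖)
  have e2 := hp.snd.norm.eventually_le_const (lt_add_one ‖(p q).2‖)
  refine ⟨2 * Real.exp R * (‖(p q).2‖ + 1), by positivity, ?_⟩
  filter_upwards [hf, e1, e2] with l hl h1 h2 z hz
  have h3 : ∀ w : ℂ, ‖w‖ = 1 → ‖(p l).1 + (p l).2 * conj w‖ ≤ R := by
    intro w hw
    refine (norm_add_le _ _).trans ?_
    rw [norm_mul, Complex.norm_conj, hw, mul_one, hR]
    exact add_le_add h1 h2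
  rw [← hl]
  calc _ ≤ 2 * Real.exp R * ‖(p l).1 + (p l).2 * conj z - ((p l).1 + (p l).2 * conj t)‖ :=
        ds_exp_lip (h3 z hz) (h3 t ht)
    _ ≤ 2 * Real.exp R * ((‖(p q).2‖ + 1) * ‖z - t‖) := by
        refine mul_le_mul_of_nonneg_left ?_ (by positivity)
        rw [add_sub_add_left_eq_sub, ← mul_sub, ← map_sub, norm_mul, Complex.norm_conj]
        exact mul_le_mul_of_nonneg_right h2 (norm_nonneg _)
    _ = _ := by ring

/-! ### Bounds for the functions of a jump -/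

private theorem ds_pow_nn {a : ℝ} (ha : 0 ≤ a) (r : ℝ) : 0 ≤ a ^ r := Real.rpow_nonneg ha r

private theorem pwM_up {b0 : ℂ} (ht : ‖t‖ = 1) (hb : b0.re = 1 / 2) : ∃ C > 0,
    ∀ y : UnitAddCircle, ‖pwM t b0 y‖ ≤ C * ‖e y - t‖ ^ ((2 : ℝ) / 5) := by
  refine ⟨2 * Real.exp (Real.pi * |b0.im|), by positivity, fun y => ?_⟩
  rw [pwM_apply ht (by rw [hb]; norm_num)]
  have h1 : ‖1 - t * conj (e y)‖ = ‖e y - t‖ := by
    have h2 : e y - t = e y * (1 - t * conj (e y)) := by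
      rw [mul_sub, mul_one, ds_conj_e]
      have h3 : e y ≠ 0 := PsiAux.e_ne y
      field_simp
    rw [h2, norm_mul, PsiAux.norm_e', one_mul]
  obtain ⟨d, hd⟩ : ∃ d : ℝ, d = ‖e y - t‖ := ⟨_, rfl⟩
  have hd0 : 0 ≤ d := by rw [hd]; exact norm_nonneg _
  have hd2 : d ≤ 2 := by
    rw [hd]
    refine (norm_sub_le _ _).trans ?_
    rw [PsiAux.norm_e', ht]
    norm_num
  have h4 := Complex.norm_cpow_le (1 - t * conj (e y)) b0
  rw [h1, ← hd, hb] at h4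
  rw [← hd]
  refine h4.trans ?_
  have h5 : d ^ ((1 : ℝ) / 2) ≤ 2 * d ^ ((2 : ℝ) / 5) := by
    rcases hd0.eq_or_lt with h6 | h6
    · rw [← h6, Real.zero_rpow (by norm_num), Real.zero_rpow (by norm_num)]
      norm_num
    · have h7 : d ^ ((1 : ℝ) / 2) = d ^ ((1 : ℝ) / 10) * d ^ ((2 : ℝ) / 5) := by
        rw [← Real.rpow_add h6]
        norm_num
      rw [h7]
      refine mul_le_mul_of_nonneg_right ?_ (ds_pow_nn hd0 _)
      calc d ^ ((1 : ℝ) / 10) ≤ 2 ^ ((1 : ℝ) / 10) := Real.rpow_le_rpow hd0 hd2 (by norm_num)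
        _ ≤ 2 ^ (1 : ℝ) := Real.rpow_le_rpow_of_exponent_le (by norm_num) (by norm_num)
        _ = 2 := Real.rpow_one 2
  have h8 : -(Real.pi * |b0.im|) ≤ arg (1 - t * conj (e y)) * b0.im := by
    have h9 : |arg (1 - t * conj (e y)) * b0.im| ≤ Real.pi * |b0.im| := by
      rw [abs_mul]
      exact mul_le_mul_of_nonneg_right (Complex.abs_arg_le_pi _) (abs_nonneg _)
    linarith [neg_abs_le (arg (1 - t * conj (e y)) * b0.im)]
  rw [div_le_iff₀ (Real.exp_pos _)]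
  have h10 : 1 ≤ Real.exp (Real.pi * |b0.im|) * Real.exp (arg (1 - t * conj (e y)) * b0.im) := by
    rw [← Real.exp_add]
    exact Real.one_le_exp (by linarith)
  calc d ^ ((1 : ℝ) / 2) ≤ 2 * d ^ ((2 : ℝ) / 5) * 1 := by rw [mul_one]; exact h5
    _ ≤ 2 * d ^ ((2 : ℝ) / 5) * (Real.exp (Real.pi * |b0.im|) *
        Real.exp (arg (1 - t * conj (e y)) * b0.im)) :=
        mul_le_mul_of_nonneg_left h10 (mul_nonneg (by norm_num) (ds_pow_nn hd0 _))
    _ = _ := by ring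

/-- The lower bound for the product. -/
private theorem ds_low {b0 b1 : ℂ → ℂ} (h0 : ‖t0‖ = 1) (h1 : ‖t1‖ = 1) (c0 : ContinuousAt b0 q)
    (c1 : ContinuousAt b1 q) (r0 : (b0 q).re = 1 / 2) (r1 : (b1 q).re = 1 / 2) :
    ∃ c > 0, ∀ᶠ l in 𝓝 q, ∀ y : UnitAddCircle,
      c * (‖e y - t0‖ * ‖e y - t1‖) ^ ((3 : ℝ) / 5) ≤ ‖pwM t0 (b0 l) y * pwM t1 (b1 l) y‖ := by
  obtain ⟨a0, ha0, e0⟩ := pwM_low h0 r0
  obtain ⟨a1, ha1, e1⟩ := pwM_low h1 r1
  refine ⟨a0 * a1, by positivity, ?_⟩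
  filter_upwards [c0.tendsto.eventually e0, c1.tendsto.eventually e1] with l f0 f1 y
  rw [norm_mul, Real.mul_rpow (norm_nonneg _) (norm_nonneg _)]
  calc _ = (a0 * ‖e y - t0‖ ^ ((3 : ℝ) / 5)) * (a1 * ‖e y - t1‖ ^ ((3 : ℝ) / 5)) := by ring
    _ ≤ _ := mul_le_mul (f0 y) (f1 y) (mul_nonneg ha1.le (ds_pow_nn (norm_nonneg _) _))
        (norm_nonneg _)

/-- The difference of the products. -/
private theorem ds_diff {b0 b1 : ℂ → ℂ} (h0 : ‖t0‖ = 1) (h1 : ‖t1‖ = 1) (c0 : ContinuousAt b0 q)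
    (c1 : ContinuousAt b1 q) (r0 : (b0 q).re = 1 / 2) (r1 : (b1 q).re = 1 / 2) {eps : ℝ}
    (heps : 0 < eps) : ∀ᶠ l in 𝓝 q, ∀ y : UnitAddCircle,
      ‖pwM t0 (b0 l) y * pwM t1 (b1 l) y - pwM t0 (b0 q) y * pwM t1 (b1 q) y‖ ≤
        eps * (‖e y - t0‖ * ‖e y - t1‖) ^ ((2 : ℝ) / 5) := by
  obtain ⟨C0, hC0, u0⟩ := pwM_up h0 r0
  obtain ⟨C1, hC1, u1⟩ := pwM_up h1 r1
  have p0 : 0 < eps / (2 * (C1 + 1)) := by positivity
  have p1 : 0 < min 1 (eps / (2 * C0)) := lt_min one_pos (by positivity)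
  filter_upwards [c0.tendsto.eventually (pwM_diff h0 r0 p0),
    c1.tendsto.eventually (pwM_diff h1 r1 p1)] with l f0 f1 y
  rw [Real.mul_rpow (norm_nonneg _) (norm_nonneg _)]
  obtain ⟨A, hA⟩ : ∃ A : ℝ, A = ‖e y - t0‖ ^ ((2 : ℝ) / 5) := ⟨_, rfl⟩
  obtain ⟨B, hB⟩ : ∃ B : ℝ, B = ‖e y - t1‖ ^ ((2 : ℝ) / 5) := ⟨_, rfl⟩
  have hA0 : 0 ≤ A := by rw [hA]; exact ds_pow_nn (norm_nonneg _) _
  have hB0 : 0 ≤ B := by rw [hB]; exact ds_pow_nn (norm_nonneg _) _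
  have g0 := f0 y
  have g1 := f1 y
  have k0 := u0 y
  have k1 := u1 y
  rw [← hA] at g0 k0 ⊢
  rw [← hB] at g1 k1 ⊢
  have s1 : ‖pwM t1 (b1 l) y‖ ≤ (C1 + 1) * B := by
    have h2 : ‖pwM t1 (b1 l) y‖ ≤ ‖pwM t1 (b1 q) y‖ + ‖pwM t1 (b1 l) y - pwM t1 (b1 q) y‖ := by
      have := norm_add_le (pwM t1 (b1 q) y) (pwM t1 (b1 l) y - pwM t1 (b1 q) y)
      rwa [add_sub_cancel] at this
    have h3 : min 1 (eps / (2 * C0)) * B ≤ 1 * B :=
      mul_le_mul_of_nonneg_right (min_le_left _ _) hB0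
    linarith
  have s2 : ‖pwM t1 (b1 l) y - pwM t1 (b1 q) y‖ ≤ eps / (2 * C0) * B :=
    g1.trans (mul_le_mul_of_nonneg_right (min_le_right _ _) hB0)
  have e1 : pwM t0 (b0 l) y * pwM t1 (b1 l) y - pwM t0 (b0 q) y * pwM t1 (b1 q) y =
      (pwM t0 (b0 l) y - pwM t0 (b0 q) y) * pwM t1 (b1 l) y +
        pwM t0 (b0 q) y * (pwM t1 (b1 l) y - pwM t1 (b1 q) y) := by ring
  rw [e1]
  refine (norm_add_le _ _).trans ?_
  rw [norm_mul, norm_mul]
  have m1 : ‖pwM t0 (b0 l) y - pwM t0 (b0 q) y‖ * ‖pwM t1 (b1 l) y‖ ≤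
      (eps / (2 * (C1 + 1)) * A) * ((C1 + 1) * B) :=
    mul_le_mul g0 s1 (norm_nonneg _) (by positivity)
  have m2 : ‖pwM t0 (b0 q) y‖ * ‖pwM t1 (b1 l) y - pwM t1 (b1 q) y‖ ≤
      (C0 * A) * (eps / (2 * C0) * B) :=
    mul_le_mul k0 s2 (norm_nonneg _) (by positivity)
  have m3 : (eps / (2 * (C1 + 1)) * A) * ((C1 + 1) * B) = eps / 2 * (A * B) := by
    have : C1 + 1 ≠ 0 := by positivity
    field_simp
  have m4 : (C0 * A) * (eps / (2 * C0) * B) = eps / 2 * (A * B) := by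
    have : C0 ≠ 0 := hC0.ne'
    field_simp
  linarith

/-- Two Lipschitz conditions. -/
private theorem ds_two {N a b D C : ℝ} (hD : 0 < D) (ha : 0 ≤ a) (hb : 0 ≤ b) (hC : 0 ≤ C)
    (hab : D ≤ a + b) (h1 : N ≤ C * a) (h2 : N ≤ C * b) : N ≤ C * (2 / D) * (a * b) := by
  rcases le_total a b with h | h
  · have h3 : D ≤ 2 * b := by linarith
    have h4 : 1 ≤ 2 / D * b := by
      rw [div_mul_eq_mul_div, le_div_iff₀ hD, one_mul]
      exact h3
    calc N ≤ C * a * 1 := by rw [mul_one]; exact h1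
      _ ≤ C * a * (2 / D * b) := mul_le_mul_of_nonneg_left h4 (mul_nonneg hC ha)
      _ = _ := by ring
  · have h3 : D ≤ 2 * a := by linarith
    have h4 : 1 ≤ 2 / D * a := by
      rw [div_mul_eq_mul_div, le_div_iff₀ hD, one_mul]
      exact h3
    calc N ≤ C * b * 1 := by rw [mul_one]; exact h2
      _ ≤ C * b * (2 / D * a) := mul_le_mul_of_nonneg_left h4 (mul_nonneg hC hb)
      _ = _ := by ring

private theorem ds_mf_add {a b : UnitAddCircle → ℂ} (ha : MemLp a ∞ mu0) (hb : MemLp b ∞ mu0) :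
    mf (fun x => a x + b x) = mf a + mf b := by
  have h1 : MemLp (fun x => a x + b x) ∞ mu0 := ha.add hb
  have h2 := mf_sub h1 hb
  have h3 : (fun x => a x + b x - b x) = a := by
    funext x
    ring
  rw [h3] at h2
  rw [h2, sub_add_cancel]

private theorem ds_pow_mem (n : ℤ) : MemLp (fun y : UnitAddCircle => e y ^ n) ∞ mu0 := by
  have : (fun y : UnitAddCircle => e y ^ n) = fun y => (fourier n : CT) y := by
    funext y
    rw [PsiAux.four_e]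
  rw [this]
  exact memLp_ct _

private theorem dsB_mem (h : PwC phi F u v) (h0 : ‖t0‖ = 1) (h1 : ‖t1‖ = 1) (x : ℤ) (l : ℂ) :
    MemLp (fun y => dsB phi u v t0 t1 x l (e y)) ∞ mu0 := by
  have a1 : MemLp (fun y : UnitAddCircle => phi (e y) - l) ∞ mu0 :=
    (memLp_cv h.cv).sub (memLp_const l)
  have a3 := eta_memLp h0 (-bet (u t0) (v t0) l)
  have a4 := eta_memLp h1 (-bet (u t1) (v t1) l)
  exact memLp_mul a1 (memLp_mul (ds_pow_mem (-x)) (memLp_mul a3 a4))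

private theorem ds_quot {n w C c d : ℝ} (hn : n ≤ C * d) (hw : c * d ^ ((3 : ℝ) / 5) ≤ w)
    (hd : 0 ≤ d ∧ d ≤ 4) (hc : 0 < c) (hC : 0 ≤ C) (hw0 : 0 ≤ w) : n / w ≤ 4 * C / c := by
  have hK : 0 ≤ 4 * C / c := by positivity
  rcases hw0.eq_or_lt with h | h
  · rw [← h, div_zero]
    exact hK
  · rw [div_le_iff₀ h]
    have h1 : d ≤ 4 * d ^ ((3 : ℝ) / 5) := by
      rcases hd.1.eq_or_lt with h2 | h2
      · rw [← h2, Real.zero_rpow (by norm_num), mul_zero]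
      · have h3 : d = d ^ ((2 : ℝ) / 5) * d ^ ((3 : ℝ) / 5) := by
          rw [← Real.rpow_add h2]
          norm_num
        have h4 : d ^ ((2 : ℝ) / 5) ≤ 4 := by
          calc d ^ ((2 : ℝ) / 5) ≤ 4 ^ ((2 : ℝ) / 5) := Real.rpow_le_rpow hd.1 hd.2 (by norm_num)
            _ ≤ 4 ^ (1 : ℝ) := Real.rpow_le_rpow_of_exponent_le (by norm_num) (by norm_num)
            _ = 4 := Real.rpow_one 4
        calc d = d ^ ((2 : ℝ) / 5) * d ^ ((3 : ℝ) / 5) := h3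
          _ ≤ _ := mul_le_mul_of_nonneg_right h4 (ds_pow_nn hd.1 _)
    calc n ≤ C * d := hn
      _ ≤ C * (4 * d ^ ((3 : ℝ) / 5)) := mul_le_mul_of_nonneg_left h1 hC
      _ = 4 * C / c * (c * d ^ ((3 : ℝ) / 5)) := by field_simp
      _ ≤ _ := mul_le_mul_of_nonneg_left hw hK

theorem xd_ss {phi : ℂ → ℂ} {F : Finset ℂ} {u v : ℂ → ℂ} {t0 t1 q : ℂ} (h : PwC phi F u v)
    (hx : Xs phi F u v t0 t1 q) : ∃ (x : ℤ) (ell : ℂ → CT) (C : ℂ → Op2),
      Xd phi (Gam phi F u v) q t0 t1 (I / (v t0 - u t0)) (I / (v t1 - u t1)) x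
        (fun l => eta t0 (bet (u t0) (v t0) l)) (fun l => eta t1 (bet (u t1) (v t1) l))
        (fun l => pwM t0 (bet (u t0) (v t0) l)) (fun l => pwM t1 (bet (u t1) (v t1) l))
        (fun l => pwP t0 (bet (u t0) (v t0) l)) (fun l => pwP t1 (bet (u t1) (v t1) l))
        (fun l => ks t0 (bet (u t0) (v t0) l)) (fun l => ks t1 (bet (u t1) (v t1) l))
        (fun l => kn1 t0 (bet (u t0) (v t0) l)) (fun l => kn1 t1 (bet (u t1) (v t1) l))
        (fun l => (I / (v t0 - u t0) * (l - q)).re < 0)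
        (fun l => (I / (v t1 - u t1) * (l - q)).re < 0) ell C := by
  have hF0 := h.circ t0 hx.f0
  have hF1 := h.circ t1 hx.f1
  have c0 := ds_bet hx.mem0 hx.nu0 hx.nv0
  have c1 := ds_bet hx.mem1 hx.nu1 hx.nv1
  have r0 := bet_re hx.mem0 hx.nu0 hx.nv0
  have r1 := bet_re hx.mem1 hx.nu1 hx.nv1
  obtain ⟨x, hU, hW⟩ := ds_nf h hx
  have v0 := dsv_at hF0 hF1 hx.mem0 hx.nu0 hx.nv0 c1 x
  have v1 := dsv_at hF1 hF0 hx.mem1 hx.nu1 hx.nv1 c0 x
  obtain ⟨p, hp⟩ : ∃ p : ℂ → ℂ × ℂ, p = dsp t0 t1 (dsL (dsv u v t0 t1 x) q)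
    (dsL (dsv u v t1 t0 x) q) := ⟨_, rfl⟩
  have hpc : ContinuousAt p q := by
    rw [hp]
    exact dsp_at (dsL_at v0.1 v0.2) (dsL_at v1.1 v1.2)
  have hp0 : ∀ᶠ l in 𝓝 q, exp ((p l).1 + (p l).2 * conj t0) = dsv u v t0 t1 x l := by
    filter_upwards [dsL_exp v0.1 v0.2] with l hl
    rw [hp, (dsp_val hx.ne l).1]
    exact hl
  have hp1 : ∀ᶠ l in 𝓝 q, exp ((p l).1 + (p l).2 * conj t1) = dsv u v t1 t0 x l := by
    filter_upwards [dsL_exp v1.1 v1.2] with l hl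
    rw [hp, (dsp_val hx.ne l).2]
    exact hl
  obtain ⟨A0, hA0, a0⟩ := dsE_lip hpc hp0 hF0
  obtain ⟨A1, hA1, a1⟩ := dsE_lip hpc hp1 hF1
  obtain ⟨B0, hB0, b0⟩ := dsB_lip h hx.f0 hF1 hx.ne hx.mem0 hx.nu0 hx.nv0 c1 x
  obtain ⟨B1, hB1, b1⟩ := dsB_lip h hx.f1 hF0 hx.ne.symm hx.mem1 hx.nu1 hx.nv1 c0 x
  obtain ⟨N, hN⟩ : ∃ N : ℂ → UnitAddCircle → ℂ, N = fun l y =>
    dsB phi u v t0 t1 x l (e y) - dsE (p l) y := ⟨_, rfl⟩
  obtain ⟨W, hWd⟩ : ∃ W : ℂ → UnitAddCircle → ℂ, W = fun l y =>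
    pwM t0 (bet (u t0) (v t0) l) y * pwM t1 (bet (u t1) (v t1) l) y := ⟨_, rfl⟩
  obtain ⟨d, hd⟩ : ∃ d : UnitAddCircle → ℝ, d = fun y => ‖e y - t0‖ * ‖e y - t1‖ := ⟨_, rfl⟩
  have hd4 : ∀ y, 0 ≤ d y ∧ d y ≤ 4 := by
    intro y
    have e2 : ∀ t : ℂ, ‖t‖ = 1 → ‖e y - t‖ ≤ 2 := fun t ht => by
      refine (norm_sub_le _ _).trans ?_
      rw [PsiAux.norm_e', ht]
      norm_num
    rw [hd]
    refine ⟨by positivity, ?_⟩
    calc ‖e y - t0‖ * ‖e y - t1‖ ≤ 2 * 2 :=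
          mul_le_mul (e2 t0 hF0) (e2 t1 hF1) (norm_nonneg _) (by norm_num)
      _ = 4 := by norm_num
  have hD : 0 < ‖t0 - t1‖ := norm_pos_iff.2 (sub_ne_zero.2 hx.ne)
  obtain ⟨K, hK⟩ : ∃ K : ℝ, K = A0 + B0 + A1 + B1 := ⟨_, rfl⟩
  have hK0 : 0 ≤ K := by rw [hK]; positivity
  have hNb : ∀ᶠ l in 𝓝 q, ∀ᵐ y ∂mu0, ‖N l y‖ ≤ K * (2 / ‖t0 - t1‖) * d y := by
    filter_upwards [a0, a1, b0, b1] with l f0 f1 g0 g1
    filter_upwards [ae_notin F] with y hy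
    have hy1 := PsiAux.norm_e' y
    have s0 : ‖N l y‖ ≤ K * ‖e y - t0‖ := by
      have k1 := g0 (e y) (he y) hy
      have k2 := f0 (e y) hy1
      have k3 : ‖N l y‖ ≤ ‖dsB phi u v t0 t1 x l (e y) - dsv u v t0 t1 x l‖ +
          ‖exp ((p l).1 + (p l).2 * conj (e y)) - dsv u v t0 t1 x l‖ := by
        rw [hN]
        have := norm_sub_le (dsB phi u v t0 t1 x l (e y) - dsv u v t0 t1 x l)
          (exp ((p l).1 + (p l).2 * conj (e y)) - dsv u v t0 t1 x l)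
        rwa [sub_sub_sub_cancel_right] at this
      have k4 : 0 ≤ (A1 + B1) * ‖e y - t0‖ := by positivity
      rw [hK]
      linarith
    have s1 : ‖N l y‖ ≤ K * ‖e y - t1‖ := by
      have k1 := g1 (e y) (he y) hy
      rw [dsB_comm] at k1
      have k2 := f1 (e y) hy1
      have k3 : ‖N l y‖ ≤ ‖dsB phi u v t0 t1 x l (e y) - dsv u v t1 t0 x l‖ +
          ‖exp ((p l).1 + (p l).2 * conj (e y)) - dsv u v t1 t0 x l‖ := by
        rw [hN]
        have := norm_sub_le (dsB phi u v t0 t1 x l (e y) - dsv u v t1 t0 x l)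
          (exp ((p l).1 + (p l).2 * conj (e y)) - dsv u v t1 t0 x l)
        rwa [sub_sub_sub_cancel_right] at this
      have k4 : 0 ≤ (A0 + B0) * ‖e y - t1‖ := by positivity
      rw [hK]
      linarith
    rw [hd]
    refine ds_two hD (norm_nonneg _) (norm_nonneg _) hK0 ?_ s0 s1
    have := norm_sub_le (e y - t1) (e y - t0)
    rw [sub_sub_sub_cancel_left] at this
    linarith
  obtain ⟨c, hc, hlow⟩ := ds_low hF0 hF1 c0 c1 r0 r1
  have h2 : ∀ eps > 0, ∀ᶠ l in 𝓝 q, ∀ᵐ y ∂mu0, ‖N l y - N q y‖ ≤ eps := by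
    intro eps heps
    have hE : Tendsto (fun l => dsE (p l)) (𝓝 q) (𝓝 (dsE (p q))) :=
      (dsE_cont.continuousAt (x := p q)).tendsto.comp hpc.tendsto
    have hE2 := Metric.tendsto_nhds.1 hE (eps / 2) (half_pos heps)
    filter_upwards [dsB_uni h hx.f0 hF1 hx.ne hx.mem0 hx.nu0 hx.nv0 c1 x (half_pos heps), hE2]
      with l f1 f2
    filter_upwards [ae_notin F] with y hy
    have k1 := f1 (e y) (he y) hy
    have k2 : ‖dsE (p l) y - dsE (p q) y‖ ≤ eps / 2 := by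
      have := (dsE (p l) - dsE (p q)).norm_coe_le_norm y
      rw [dist_eq_norm] at f2
      exact this.trans f2.le
    rw [hN]
    have k3 : dsB phi u v t0 t1 x l (e y) - dsE (p l) y -
        (dsB phi u v t0 t1 x q (e y) - dsE (p q) y) =
        (dsB phi u v t0 t1 x l (e y) - dsB phi u v t0 t1 x q (e y)) -
          (dsE (p l) y - dsE (p q) y) := by ring
    simp only
    rw [k3]
    exact (norm_sub_le _ _).trans (by linarith)
  have hlow' : ∀ᶠ l in 𝓝 q, ∀ᵐ y ∂mu0, c * d y ^ ((3 : ℝ) / 5) ≤ ‖W l y‖ := by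
    filter_upwards [hlow] with l hl
    refine Filter.Eventually.of_forall fun y => ?_
    rw [hd, hWd]
    exact hl y
  have h4 : ∀ eps > 0, ∀ᶠ l in 𝓝 q, ∀ᵐ y ∂mu0, ‖W l y - W q y‖ ≤ eps * d y ^ ((2 : ℝ) / 5) := by
    intro eps heps
    filter_upwards [ds_diff hF0 hF1 c0 c1 r0 r1 heps] with l hl
    refine Filter.Eventually.of_forall fun y => ?_
    rw [hd, hWd]
    exact hl y
  have hcl : ∀ eps > 0, ∀ᶠ l in 𝓝 q, ∀ᵐ y ∂mu0, ‖N l y / W l y - N q y / W q y‖ ≤ eps :=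
    fun eps heps => cl_lim hc hd4 hNb hNb.self_of_nhds h2 hlow' hlow'.self_of_nhds h4 heps
  have hmem : ∀ᶠ l in 𝓝 q, MemLp (fun y => N l y / W l y) ∞ mu0 := by
    filter_upwards [hNb, hlow'] with l f1 f2
    have m1 : MemLp (N l) ∞ mu0 := by
      rw [hN]
      exact (dsB_mem h hF0 hF1 x l).sub (memLp_ct (dsE (p l)))
    have m2 : MemLp (W l) ∞ mu0 := by
      rw [hWd]
      exact memLp_mul (memLp_ct _) (memLp_ct _)
    refine memLp_top_of_bound (m1.1.aemeasurable.div m2.1.aemeasurable).aestronglyMeasurable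
      (4 * (K * (2 / ‖t0 - t1‖)) / c) ?_
    filter_upwards [f1, f2] with y g1 g2
    rw [norm_div]
    exact ds_quot g1 g2 (hd4 y) hc (by positivity) (norm_nonneg _)
  have re0 : ∀ᶠ l in 𝓝 q, 0 < (bet (u t0) (v t0) l).re := by
    have h1 : ContinuousAt (fun l => (bet (u t0) (v t0) l).re) q :=
      Complex.continuous_re.continuousAt.comp c0
    exact h1.eventually (lt_mem_nhds (by show 0 < (bet (u t0) (v t0) q).re; rw [r0]; norm_num))
  have re1 : ∀ᶠ l in 𝓝 q, 0 < (bet (u t1) (v t1) l).re := by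
    have h1 : ContinuousAt (fun l => (bet (u t1) (v t1) l).re) q :=
      Complex.continuous_re.continuousAt.comp c1
    exact h1.eventually (lt_mem_nhds (by show 0 < (bet (u t1) (v t1) q).re; rw [r1]; norm_num))
  have hop : ∀ᶠ l in 𝓝 q, mul (dsE (p l)) + mf (fun y => N l y / W l y) *
      mul (pwM t0 (bet (u t0) (v t0) l) * pwM t1 (bet (u t1) (v t1) l)) =
      mf (fun y => dsB phi u v t0 t1 x l (e y)) := by
    filter_upwards [hmem, re0, re1] with l m1 m2 m3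
    rw [← mf_ct, ← mf_ct, ← mf_mul m1 (memLp_ct _),
      ← ds_mf_add (memLp_ct _) (memLp_mul m1 (memLp_ct _))]
    refine mf_congr ?_
    filter_upwards [ae_notin F] with y hy
    have y0 : e y ≠ t0 := fun h1 => hy (by rw [h1]; exact hx.f0)
    have y1 : e y ≠ t1 := fun h1 => hy (by rw [h1]; exact hx.f1)
    have w0 := pwM_ne hF0 m2 y0
    have w1 := pwM_ne hF1 m3 y1
    rw [ContinuousMap.mul_apply, hN, hWd]
    simp only
    rw [div_mul_cancel₀ _ (mul_ne_zero w0 w1)]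
    ring
  refine ⟨x, fun l => dsE (p l), fun l => mf (fun y => N l y / W l y), ?_⟩
  exact
    { f1 := fct_s _ hF0 hx.mem0 hx.nu0 hx.nv0
      f2 := fct_s _ hF1 hx.mem1 hx.nu1 hx.nv1
      ne := hx.ne
      tr := by
        have ht := hx.trans
        obtain ⟨a, ha⟩ : ∃ a : ℂ, a = v t0 - u t0 := ⟨_, rfl⟩
        obtain ⟨b, hb⟩ : ∃ b : ℂ, b = v t1 - u t1 := ⟨_, rfl⟩
        rw [← ha, ← hb] at ht ⊢
        have ha0 : a ≠ 0 := by
          rintro rfl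
          simp at ht
        have hb0 : b ≠ 0 := by
          rintro rfl
          simp at ht
        have e1 : I / a * conj (I / b) = ((normSq a * normSq b : ℝ) : ℂ)⁻¹ * (conj a * b) := by
          rw [map_div₀, Complex.conj_I, Complex.ofReal_mul, Complex.normSq_eq_conj_mul_self,
            Complex.normSq_eq_conj_mul_self]
          have : conj a ≠ 0 := by rwa [Ne, map_eq_zero]
          have : conj b ≠ 0 := by rwa [Ne, map_eq_zero]
          field_simp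
          rw [Complex.I_sq]
          ring
        rw [e1, ← Complex.ofReal_inv, Complex.im_ofReal_mul]
        refine mul_ne_zero (inv_ne_zero (mul_ne_zero ?_ ?_)) ht
        · rwa [Ne, Complex.normSq_eq_zero]
        · rwa [Ne, Complex.normSq_eq_zero]
      minus := Filter.Eventually.of_forall fun l => dsE_minus _
      inv := ⟨dsE (-(p q)), dsE_minus _, dsE_inv _⟩
      cm := fun l => Cm.mf _
      lim1 := ((dsE_cont.continuousAt (x := p q)).tendsto.comp hpc.tendsto).mono_left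
        nhdsWithin_le_nhds
      lim2 := (mf_lim hmem.self_of_nhds hmem hcl).mono_left nhdsWithin_le_nhds
      unit := by
        rw [hop.self_of_nhds]
        exact hU
      eq := by
        filter_upwards [hop] with l hl _
        rw [hl]
        have m3 : MemLp (fun y : UnitAddCircle => e y ^ x * (eta t0 (bet (u t0) (v t0) l) y *
            eta t1 (bet (u t1) (v t1) l) y)) ∞ mu0 :=
          memLp_mul (ds_pow_mem x) (memLp_mul (eta_memLp hF0 _) (eta_memLp hF1 _))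
        rw [← mf_mul (dsB_mem h hF0 hF1 x l) m3]
        refine mf_congr (Filter.Eventually.of_forall fun y => ?_)
        exact (ds_prod hF0 hF1 (PsiAux.norm_e' y) x l).symm
      num := ds_num h hx hW }

end Pool.Agent.TBirX
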