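import Pool.Agent.TBirX.Def
import Pool.Agent.TBirN.Cg

/-!
# The geometry at a crossing point

As TBirN/Cg.lean: `Loc` with `K1`, `K2` the segment near `q` or the branch (`Kb`, `br_of`, `pwc_strict`); a segment is the curve `q + y (v - u)`, `|y|` small, its tangent vector is `v - u` (`branch` for this curve). `near_K`: near `q` the set `Gam` consists of the two curves (`only`, `seg` and compactness).
-/

set_option autoImplicit false

open MeasureTheory Complex Set Filter Topology Metric AddCircle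
open scoped ComplexConjugate InnerProductSpace ENNReal

namespace Pool.Agent.TBirX

open Pool.Agent.TBir Pool.Agent.TBirG Pool.Agent.TBirC Pool.Agent.TBirJ Pool.Agent.TBirK
open Pool.Agent.TBirN
open Pool.Agent.TBirP (E qT)

variable {phi : ℂ → ℂ} {F : Finset ℂ} {u v : ℂ → ℂ} {t0 t1 q : ℂ}

namespace Gs

open Pool.Agent.TBirN.Cg
open Pool.Agent.TBirP (nb_E_mem nb_E_zero nb_E_cont nb_ne nb_arg nb_arg_eq)

/-- Estimates for a curve `γ` through `q`. -/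
structure Bg (γ : ℝ → ℂ) (a b q : ℂ) (η : ℝ) : Prop where
  val : γ 0 = q
  inj : ∀ x y : ℝ, |x| < η → |y| < η → (b * (γ x - q)).re = (b * (γ y - q)).re → x = y
  sm : ∀ ε > 0, ∃ ρ > 0, ∀ x : ℝ, |x| < η → ‖γ x - q‖ < ρ →
    |(a * (γ x - q)).re| ≤ ε * |(b * (γ x - q)).re|

/-- The points of the curve `γ` with parameter less than `η`. -/
def Im (γ : ℝ → ℂ) (η : ℝ) : Set ℂ := {l | ∃ x : ℝ, |x| < η ∧ γ x = l}

theorem Bg.mono {γ : ℝ → ℂ} {a b : ℂ} {η η' : ℝ} (h : Bg γ a b q η) (hle : η' ≤ η) :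
    Bg γ a b q η' := by
  refine ⟨h.val, fun x y hx hy => h.inj x y (hx.trans_le hle) (hy.trans_le hle), ?_⟩
  intro ε hε
  obtain ⟨ρ, hρ, h1⟩ := h.sm ε hε
  exact ⟨ρ, hρ, fun x hx => h1 x (hx.trans_le hle)⟩

theorem bg_of {γ : ℝ → ℂ} {D a b : ℂ} (hγ : HasStrictDerivAt γ D 0) (ha : (a * D).re = 0)
    (hb : (b * D).re ≠ 0) (hv : γ 0 = q) : ∃ η > 0, Bg γ a b q η := by
  obtain ⟨η, hη, h1, h2⟩ := branch hγ ha hb
  simp only [hv] at h1 h2
  exact ⟨η, hη, hv, h1, h2⟩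

theorem loc_gen {γ1 γ2 : ℝ → ℂ} {a1 a2 : ℂ} {K : Set ℂ} {M kap η : ℝ}
    (htr : (a1 * conj a2).im ≠ 0) (h1 : Bg γ1 a1 a2 q η) (h2 : Bg γ2 a2 a1 q η)
    (hK : ∀ᶠ l in 𝓝 q, l ∈ K → ∃ x : ℝ, |x| < η ∧ (γ1 x = l ∨ γ2 x = l))
    (hM : ∀ x y : ℝ, ‖P a1 a2 q x y - q‖ ≤ M * max |x| |y|) (hk : 0 < kap) (hkM : kap * M < 1) :
    ∃ r0 > 0, ∀ r : ℝ, 0 < r → r ≤ r0 → Loc a1 a2 q K (Im γ1 η) (Im γ2 η) M kap r ∧
      Loc a2 a1 q K (Im γ2 η) (Im γ1 η) M kap r ∧ ∀ l ∈ K, ‖l - q‖ < r →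
        |(a1 * (l - q)).re| ≤ kap * ‖l - q‖ ∨ |(a2 * (l - q)).re| ≤ kap * ‖l - q‖ := by
  obtain ⟨ε, hε⟩ : ∃ ε, ε = min (kap / (‖a1‖ + ‖a2‖ + 1)) (1 / 2) := ⟨_, rfl⟩
  have n1 := norm_nonneg a1
  have n2 := norm_nonneg a2
  have hε0 : 0 < ε := by
    rw [hε]
    exact lt_min (by positivity) (by norm_num)
  have e1 : ε ≤ 1 / 2 := by
    rw [hε]
    exact min_le_right _ _
  have e2 : ε * (‖a1‖ + ‖a2‖ + 1) ≤ kap := by
    have h3 : ε ≤ kap / (‖a1‖ + ‖a2‖ + 1) := by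
      rw [hε]
      exact min_le_left _ _
    exact (le_div_iff₀ (by positivity)).1 h3
  obtain ⟨ρ1, hρ1, s1⟩ := h1.sm ε hε0
  obtain ⟨ρ2, hρ2, s2⟩ := h2.sm ε hε0
  rw [Metric.eventually_nhds_iff] at hK
  obtain ⟨ρ3, hρ3, hK⟩ := hK
  refine ⟨min ρ1 (min ρ2 ρ3), lt_min hρ1 (lt_min hρ2 hρ3), fun r hr hrr => ?_⟩
  have r1 : r ≤ ρ1 := hrr.trans (min_le_left _ _)
  have r2 : r ≤ ρ2 := hrr.trans ((min_le_right _ _).trans (min_le_left _ _))
  have r3 : r ≤ ρ3 := hrr.trans ((min_le_right _ _).trans (min_le_right _ _))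
  have cov : ∀ l ∈ K, ‖l - q‖ < r → l ∈ Im γ1 η ∨ l ∈ Im γ2 η := by
    intro l hl hlr
    obtain ⟨x, hx, h | h⟩ := hK (by rw [dist_eq_norm]; exact hlr.trans_le r3) hl
    · exact Or.inl ⟨x, hx, h⟩
    · exact Or.inr ⟨x, hx, h⟩
  refine ⟨⟨htr, hM, hk, hkM, cov, ?_, ?_⟩, ⟨?_, ?_, hk, hkM, fun l hl hlr => (cov l hl hlr).symm,
    ?_, ?_⟩, ?_⟩
  · rintro _ ⟨x, hx, rfl⟩ _ ⟨y, hy, rfl⟩ h
    rw [h1.inj x y hx hy h]
  · rintro _ ⟨x, hx, rfl⟩ h
    refine (s2 x hx (h.trans_le r2)).trans ?_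
    exact mul_le_mul_of_nonneg_right e1 (abs_nonneg _)
  · have h : (a2 * conj a1).im = -(a1 * conj a2).im := by
      simp only [Complex.mul_im, Complex.conj_re, Complex.conj_im]
      ring
    rw [h]
    exact neg_ne_zero.2 htr
  · intro x y
    rw [P_swap a1 a2 q y x, max_comm]
    exact hM y x
  · rintro _ ⟨x, hx, rfl⟩ _ ⟨y, hy, rfl⟩ h
    rw [h2.inj x y hx hy h]
  · rintro _ ⟨x, hx, rfl⟩ h
    refine (s1 x hx (h.trans_le r1)).trans ?_
    exact mul_le_mul_of_nonneg_right e1 (abs_nonneg _)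
  · intro l hl hlr
    have w := norm_nonneg (l - q)
    rcases cov l hl hlr with ⟨x, hx, rfl⟩ | ⟨x, hx, rfl⟩
    · left
      have h3 := s1 x hx (hlr.trans_le r1)
      have h4 := re_le a2 (γ1 x - q)
      have h5 := mul_le_mul_of_nonneg_left h4 hε0.le
      have h6 := mul_le_mul_of_nonneg_right e2 w
      have h7 : 0 ≤ ε * (‖a1‖ + 1) * ‖γ1 x - q‖ := by positivity
      nlinarith
    · right
      have h3 := s2 x hx (hlr.trans_le r2)
      have h4 := re_le a1 (γ2 x - q)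
      have h5 := mul_le_mul_of_nonneg_left h4 hε0.le
      have h6 := mul_le_mul_of_nonneg_right e2 w
      have h7 : 0 ≤ ε * (‖a2‖ + 1) * ‖γ2 x - q‖ := by positivity
      nlinarith

theorem pt_gen {γ : ℝ → ℂ} {a1 a2 : ℂ} {K K1 L1 L2 : Set ℂ} {M kap r η : ℝ}
    (h : Loc a1 a2 q K L1 L2 M kap r) (hb : Bg γ a1 a2 q η) (hη : 0 < η) (hr : 0 < r)
    (hsub : K1 ⊆ K) (hK1 : ∀ᶠ l in 𝓝 q, l ∈ K1 → ∃ x : ℝ, |x| < η ∧ γ x = l) :
    ∀ᶠ l in 𝓝[≠] q, l ∈ K1 → ∃ (A B : Set ℂ) (s : ℝ), (s = 1 ∨ s = -1) ∧ IsPreconnected A ∧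
      IsPreconnected B ∧ A ⊆ Kᶜ ∧ B ⊆ Kᶜ ∧ l ∈ closure A ∧ l ∈ closure B ∧
      (A ∩ Sx a1 a2 q kap r (-1) s).Nonempty ∧ (B ∩ Sx a1 a2 q kap r 1 s).Nonempty := by
  obtain ⟨ρ, hρ, h1⟩ := hb.sm (1 / 2) (by norm_num)
  have g2 : ∀ᶠ l in 𝓝 q, ‖l - q‖ < ρ := by
    filter_upwards [Metric.ball_mem_nhds q hρ] with l hl
    rwa [mem_ball, dist_eq_norm] at hl
  have g3 : ∀ᶠ l in 𝓝 q, M * |(a2 * (l - q)).re| < r := by
    have h2 : Tendsto (fun l : ℂ => M * |(a2 * (l - q)).re|) (𝓝 q) (𝓝 (M * |(a2 * (q - q)).re|)) :=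
      (((Complex.continuous_re.tendsto _).comp
        ((tendsto_id.sub_const q).const_mul a2)).abs).const_mul M
    rw [sub_self, mul_zero, Complex.zero_re, abs_zero, mul_zero] at h2
    exact h2.eventually_lt_const hr
  filter_upwards [nhdsWithin_le_nhds g2, nhdsWithin_le_nhds g3, nhdsWithin_le_nhds hK1,
    self_mem_nhdsWithin] with l z2 z3 z4 z5 hl
  obtain ⟨x, hx, hxl⟩ := z4 hl
  have h5 := h1 x hx (by rw [hxl]; exact z2)
  rw [hxl] at h5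
  have hX : (a2 * (l - q)).re ≠ 0 := by
    intro h0
    have h6 := hb.inj x 0 hx (by rw [abs_zero]; exact hη) (by
      rw [hxl, hb.val, sub_self, mul_zero, Complex.zero_re]
      exact h0)
    rw [h6, hb.val] at hxl
    exact z5 hxl.symm
  obtain ⟨A, B, s, k1, k2, k3, k4, k5, k6, k7, k8, k9, -, -⟩ := h.two (hsub hl) hX (by
    have := abs_pos.2 hX
    linarith) z3
  exact ⟨A, B, s, k1, k2, k3, k4, k5, k6, k7, k8, k9⟩

/-- The geometry from the two curves. -/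
theorem cs_gen {K K1 K2 : Set ℂ} {D1 D2 : ℂ} {η : ℝ} {γ1 γ2 : ℝ → ℂ} (hη : 0 < η)
    (tr : (I / D1 * conj (I / D2)).im ≠ 0) (b1 : Bg γ1 (I / D1) (I / D2) q η)
    (b2 : Bg γ2 (I / D2) (I / D1) q η)
    (hK : ∀ᶠ l in 𝓝 q, l ∈ K → ∃ x : ℝ, |x| < η ∧ (γ1 x = l ∨ γ2 x = l))
    (s1 : K1 ⊆ K) (s2 : K2 ⊆ K) (g1 : ∀ᶠ l in 𝓝 q, l ∈ K1 → ∃ x : ℝ, |x| < η ∧ γ1 x = l)
    (g2 : ∀ᶠ l in 𝓝 q, l ∈ K2 → ∃ x : ℝ, |x| < η ∧ γ2 x = l) :
    Cs K K1 K2 q (I / D1) (I / D2) := by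
  obtain ⟨a1, ha1⟩ : ∃ a, a = I / D1 := ⟨_, rfl⟩
  obtain ⟨a2, ha2⟩ : ∃ a, a = I / D2 := ⟨_, rfl⟩
  rw [← ha1, ← ha2] at tr b1 b2 ⊢
  obtain ⟨M, hMd⟩ : ∃ M, M = (‖a1‖ + ‖a2‖) / |(a1 * conj a2).im| := ⟨_, rfl⟩
  have hM0 : 0 ≤ M := by
    rw [hMd]
    positivity
  have hM : ∀ x y : ℝ, ‖P a1 a2 q x y - q‖ ≤ M * max |x| |y| := by
    intro x y
    rw [hMd]
    exact P_norm _ _ _ _ _
  refine ⟨1 / (2 * (M + 1)), by positivity, fun kap hk hkk => ?_⟩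
  have hkM : kap * M < 1 := by
    have h1 : kap * M ≤ 1 / (2 * (M + 1)) * M := mul_le_mul_of_nonneg_right hkk hM0
    have h2 : 1 / (2 * (M + 1)) * M < 1 := by
      rw [div_mul_eq_mul_div, one_mul, div_lt_one (by positivity)]
      linarith
    linarith
  obtain ⟨r0, hr0, hL⟩ := loc_gen tr b1 b2 hK hM hk hkM
  refine ⟨r0, hr0, fun r hr hrr => ?_⟩
  obtain ⟨L1, L2, hcon⟩ := hL r hr hrr
  refine ⟨?_, pt_gen L1 b1 hη hr s1 g1, ?_⟩
  · intro s1 s2 hs1 hs2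
    constructor
    · rintro l ⟨l1, l2, l3⟩ hlK
      rw [mem_ball, dist_eq_norm] at l1
      have key : ∀ s x : ℝ, (s = 1 ∨ s = -1) → s * x ≤ |x| := by
        rintro s x (rfl | rfl)
        · rw [one_mul]
          exact le_abs_self x
        · rw [neg_one_mul]
          exact neg_le_abs x
      rcases hcon l hlK l1 with h1 | h1
      · have := key s1 _ hs1 |>.trans h1
        linarith
      · have := key s2 _ hs2 |>.trans h1
        linarith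
    · obtain ⟨t, ht⟩ : ∃ t, t = r / (2 * (M + 1)) := ⟨_, rfl⟩
      have ht0 : 0 < t := by
        rw [ht]
        positivity
      have h3 : M * t < r := by
        rw [ht, mul_div_assoc', div_lt_iff₀ (by positivity)]
        nlinarith
      have hne : s2 * t ≠ 0 := by
        rcases hs2 with rfl | rfl
        · linarith
        · linarith
      have habs : |s2 * t| = t := by
        rcases hs2 with rfl | rfl
        · rw [one_mul, abs_of_pos ht0]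
        · rw [neg_one_mul, abs_neg, abs_of_pos ht0]
      refine ⟨_, L1.cone hne (by rw [habs]; exact h3) hs1 (s2 := s2) ?_⟩
      rw [habs]
      rcases hs2 with rfl | rfl
      · ring
      · ring
  · filter_upwards [pt_gen L2 b2 hη hr s2 g2] with l hl hl2
    obtain ⟨A, B, s, k1, k2, k3, k4, k5, k6, k7, k8, k9⟩ := hl hl2
    refine ⟨A, B, s, k1, k2, k3, k4, k5, k6, k7, ?_, ?_⟩
    · rw [Sx_swap]
      exact k8
    · rw [Sx_swap]
      exact k9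

/-- A segment is a curve through its point `q`. -/
theorem seg_par {a b q l : ℂ} (hq : q ∈ segment ℝ a b) (hl : l ∈ segment ℝ a b) :
    ∃ x : ℝ, |x| * ‖b - a‖ = ‖l - q‖ ∧ q + (x : ℂ) * (b - a) = l := by
  rw [segment_eq_image'] at hq hl
  obtain ⟨s, -, rfl⟩ := hq
  obtain ⟨s', -, rfl⟩ := hl
  refine ⟨s' - s, ?_, ?_⟩
  · have h1 : a + s' • (b - a) - (a + s • (b - a)) = ((s' - s : ℝ) : ℂ) * (b - a) := by
      rw [Complex.real_smul, Complex.real_smul]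
      push_cast
      ring
    rw [h1, norm_mul, Complex.norm_real, Real.norm_eq_abs]
  · simp only [Complex.real_smul]
    push_cast
    ring

theorem seg_near {a b q : ℂ} (hq : q ∈ segment ℝ a b) (hne : a ≠ b) {η : ℝ} (hη : 0 < η) :
    ∀ᶠ l in 𝓝 q, l ∈ segment ℝ a b → ∃ x : ℝ, |x| < η ∧ q + (x : ℂ) * (b - a) = l := by
  have hd : 0 < ‖b - a‖ := norm_pos_iff.2 (sub_ne_zero.2 hne.symm)
  filter_upwards [Metric.ball_mem_nhds q (mul_pos hη hd)] with l hl hls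
  rw [mem_ball, dist_eq_norm] at hl
  obtain ⟨x, h1, h2⟩ := seg_par hq hls
  exact ⟨x, by rw [← h1] at hl; exact lt_of_mul_lt_mul_right hl hd.le, h2⟩

theorem seg_der (q D : ℂ) : HasStrictDerivAt (fun x : ℝ => q + (x : ℂ) * D) D 0 := by
  have h1 : HasStrictDerivAt (fun y : ℝ => ((y : ℂ) * D)) (1 * D) 0 :=
    (Complex.ofRealCLM.hasStrictFDerivAt.hasStrictDerivAt (x := (0 : ℝ))).mul_const D
  rw [one_mul] at h1
  exact h1.const_add q

theorem seg_ne {a b q : ℂ} (hq : q ∈ segment ℝ a b) (hn : q ≠ a) : a ≠ b := by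
  rintro rfl
  rw [segment_same, mem_singleton_iff] at hq
  exact hn hq

/-- Values near `q`: for `S` containing the values near the points over `q`. -/
theorem near_val (h : PwC phi F u v) {S : Set ℂ} (hu : ∀ t ∈ F, q ≠ u t) (hv : ∀ t ∈ F, q ≠ v t)
    (hS : ∀ z0 : ℂ, ‖z0‖ = 1 → z0 ∉ F → phi z0 = q → ∀ᶠ z in 𝓝 z0, ‖z‖ = 1 → phi z ∈ S) :
    ∀ᶠ l in 𝓝 q, ∀ z ∈ sphere (0 : ℂ) 1, ‖z‖ = 1 → z ∉ F → phi z = l → l ∈ S := by
  refine (isCompact_sphere (0 : ℂ) 1).eventually_forall_of_forall_eventually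
    (P := fun l z => ‖z‖ = 1 → z ∉ F → phi z = l → l ∈ S) fun z0 hz0 => ?_
  have hz0' : ‖z0‖ = 1 := mem_sphere_zero_iff_norm.1 hz0
  by_cases hF : z0 ∈ F
  · obtain ⟨ρ, hρ, h4⟩ := SdlAux.near_FK h.cv hF (hu z0 hF) (hv z0 hF)
    exact SdcAux.far hρ h4
  · by_cases hq : phi z0 = q
    · rw [nhds_prod_eq]
      filter_upwards [(hS z0 hz0' hF hq).prod_inr (𝓝 q)] with p hp h1 _ h3
      rw [← h3]
      exact hp h1
    · obtain ⟨ρ, hρ, h4⟩ := SdlAux.near_regK h.cv hz0' hF hq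
      exact SdcAux.far hρ h4

theorem seg_closed (a b : ℂ) : IsClosed (segment ℝ a b) := by
  rw [← convexHull_pair]
  exact ((Set.toFinite {a, b}).isCompact_convexHull ℝ).isClosed

theorem near_gam {S : Set ℂ}
    (h1 : ∀ᶠ l in 𝓝 q, ∀ z ∈ sphere (0 : ℂ) 1, ‖z‖ = 1 → z ∉ F → phi z = l → l ∈ S)
    (h2 : ∀ t ∈ F, ∀ᶠ l in 𝓝 q, l ∈ segment ℝ (u t) (v t) → l ∈ S) :
    ∀ᶠ l in 𝓝 q, l ∈ Gam phi F u v → l ∈ S := by
  have g2 : ∀ᶠ l in 𝓝 q, ∀ t' ∈ F, l ∈ segment ℝ (u t') (v t') → l ∈ S := by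
    rw [Finset.eventually_all]
    exact h2
  filter_upwards [h1, g2] with l hl1 hl2 hl
  rcases hl with ⟨z, ⟨hz, hzF⟩, hzl⟩ | hl
  · exact hl1 z hz (mem_sphere_zero_iff_norm.1 hz) (fun h0 => hzF (Finset.mem_coe.2 h0)) hzl
  · obtain ⟨t', ht', hl'⟩ := mem_iUnion₂.1 hl
    exact hl2 t' ht' hl'

end Gs

open Gs Pool.Agent.TBirN.Cg
open Pool.Agent.TBirP (nb_E_mem nb_E_zero nb_E_cont nb_ne nb_arg nb_arg_eq)

private theorem gs_swap {D1 D2 : ℂ} (h : (conj D1 * D2).im ≠ 0) : (conj D2 * D1).im ≠ 0 := by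
  have h1 : (conj D2 * D1).im = -(conj D1 * D2).im := by
    simp only [Complex.mul_im, Complex.conj_re, Complex.conj_im]
    ring
  rw [h1]
  exact neg_ne_zero.2 h

theorem cs_b (h : PwC phi F u v) (hx : Xb phi F u v t0 t1 q) : ∃ r > 0,
    Cs (Gam phi F u v) (segment ℝ (u t0) (v t0)) {l | ∃ y : ℝ, |y| < r ∧ phi (t1 * E y) = l} q
      (I / (v t0 - u t0)) (I / tg phi t1) := by
  obtain ⟨x11, x21, tr⟩ := alg hx.trans
  obtain ⟨x22, x12, -⟩ := alg (gs_swap hx.trans)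
  have hne : u t0 ≠ v t0 := seg_ne hx.mem hx.nu
  obtain ⟨η1, hη1, b1⟩ := bg_of (seg_der q (v t0 - u t0)) x11 x21 (q := q)
    (by rw [ofReal_zero, zero_mul, add_zero])
  obtain ⟨η2, hη2, b2⟩ := bg_of (pwc_strict h hx.n1 hx.f1) x22 x12 (q := q)
    (by rw [nb_E_zero, mul_one, hx.val])
  have hE : ∀ᶠ x : ℝ in 𝓝 0, t1 * E x ∉ (F : Set ℂ) := by
    have h1 : Tendsto (fun x : ℝ => t1 * E x) (𝓝 0) (𝓝 (t1 * E 0)) :=
      ((continuous_const.mul nb_E_cont).tendsto 0)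
    rw [nb_E_zero, mul_one] at h1
    exact h1.eventually (F.finite_toSet.isClosed.isOpen_compl.mem_nhds
      fun h0 => hx.f1 (Finset.mem_coe.1 h0))
  obtain ⟨η3, hη3, h3⟩ := Metric.eventually_nhds_iff.1 hE
  obtain ⟨η, hη⟩ : ∃ η, η = min η1 (min η2 η3) := ⟨_, rfl⟩
  have hη0 : 0 < η := by
    rw [hη]
    exact lt_min hη1 (lt_min hη2 hη3)
  have l1 : η ≤ η1 := by
    rw [hη]
    exact min_le_left _ _
  have l2 : η ≤ η2 := by
    rw [hη]
    exact (min_le_right _ _).trans (min_le_left _ _)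
  have l3 : η ≤ η3 := by
    rw [hη]
    exact (min_le_right _ _).trans (min_le_right _ _)
  refine ⟨η, hη0, cs_gen hη0 tr (b1.mono l1) (b2.mono l2) ?_ ?_ ?_ (seg_near hx.mem hne hη0)
    (Filter.Eventually.of_forall fun l hl => hl)⟩
  · refine near_gam (S := {l | ∃ x : ℝ, |x| < η ∧
      (q + (x : ℂ) * (v t0 - u t0) = l ∨ phi (t1 * E x) = l)}) (near_val h ?_ ?_ ?_) ?_
    · intro t ht h0
      by_cases htt : t = t0
      · rw [htt] at h0
        exact hx.nu h0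
      · exact hx.seg t ht htt (by rw [h0]; exact left_mem_segment ℝ _ _)
    · intro t ht h0
      by_cases htt : t = t0
      · rw [htt] at h0
        exact hx.nv h0
      · exact hx.seg t ht htt (by rw [h0]; exact right_mem_segment ℝ _ _)
    · intro z0 hz0 hzF hzq
      rw [hx.only z0 hz0 hzF hzq]
      have g2 : ∀ᶠ z in 𝓝 t1, |arg (z / t1)| < η := by
        have := (nb_arg hx.n1).abs
        rw [abs_zero] at this
        exact this.eventually_lt_const hη0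
      filter_upwards [g2] with z hz hz1
      exact ⟨arg (z / t1), hz, Or.inr (by rw [nb_arg_eq hx.n1 (mem_sphere_zero_iff_norm.2 hz1)])⟩
    · intro t ht
      by_cases htt : t = t0
      · rw [htt]
        filter_upwards [seg_near hx.mem hne hη0] with l hl hls
        obtain ⟨x, hx1, hx2⟩ := hl hls
        exact ⟨x, hx1, Or.inl hx2⟩
      · filter_upwards [(seg_closed (u t) (v t)).isOpen_compl.mem_nhds (hx.seg t ht htt)] with l hl hls
        exact absurd hls hl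
  · intro l hl
    exact Or.inr (mem_iUnion₂.2 ⟨t0, hx.f0, hl⟩)
  · rintro _ ⟨y, hy, rfl⟩
    refine Or.inl ⟨t1 * E y, ⟨nb_E_mem hx.n1 y, ?_⟩, rfl⟩
    exact h3 (y := y) (by rw [Real.dist_eq, sub_zero]; exact hy.trans_le l3)

theorem cs_s (h : PwC phi F u v) (hx : Xs phi F u v t0 t1 q) :
    Cs (Gam phi F u v) (segment ℝ (u t0) (v t0)) (segment ℝ (u t1) (v t1)) q
      (I / (v t0 - u t0)) (I / (v t1 - u t1)) := by
  obtain ⟨x11, x21, tr⟩ := alg hx.trans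
  obtain ⟨x22, x12, -⟩ := alg (gs_swap hx.trans)
  have hne0 : u t0 ≠ v t0 := seg_ne hx.mem0 hx.nu0
  have hne1 : u t1 ≠ v t1 := seg_ne hx.mem1 hx.nu1
  obtain ⟨η1, hη1, b1⟩ := bg_of (seg_der q (v t0 - u t0)) x11 x21 (q := q)
    (by rw [ofReal_zero, zero_mul, add_zero])
  obtain ⟨η2, hη2, b2⟩ := bg_of (seg_der q (v t1 - u t1)) x22 x12 (q := q)
    (by rw [ofReal_zero, zero_mul, add_zero])
  obtain ⟨η, hη⟩ : ∃ η, η = min η1 η2 := ⟨_, rfl⟩
  have hη0 : 0 < η := by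
    rw [hη]
    exact lt_min hη1 hη2
  have l1 : η ≤ η1 := by
    rw [hη]
    exact min_le_left _ _
  have l2 : η ≤ η2 := by
    rw [hη]
    exact min_le_right _ _
  refine cs_gen hη0 tr (b1.mono l1) (b2.mono l2) ?_ ?_ ?_ (seg_near hx.mem0 hne0 hη0)
    (seg_near hx.mem1 hne1 hη0)
  · refine near_gam (S := {l | ∃ x : ℝ, |x| < η ∧
      (q + (x : ℂ) * (v t0 - u t0) = l ∨ q + (x : ℂ) * (v t1 - u t1) = l)}) (near_val h ?_ ?_ ?_) ?_
    · intro t ht h0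
      by_cases htt : t = t0
      · rw [htt] at h0
        exact hx.nu0 h0
      · by_cases htt1 : t = t1
        · rw [htt1] at h0
          exact hx.nu1 h0
        · exact hx.seg t ht htt htt1 (by rw [h0]; exact left_mem_segment ℝ _ _)
    · intro t ht h0
      by_cases htt : t = t0
      · rw [htt] at h0
        exact hx.nv0 h0
      · by_cases htt1 : t = t1
        · rw [htt1] at h0
          exact hx.nv1 h0
        · exact hx.seg t ht htt htt1 (by rw [h0]; exact right_mem_segment ℝ _ _)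
    · intro z0 hz0 hzF hzq
      exact absurd hzq (hx.only z0 hz0 hzF)
    · intro t ht
      by_cases htt : t = t0
      · rw [htt]
        filter_upwards [seg_near hx.mem0 hne0 hη0] with l hl hls
        obtain ⟨x, hx1, hx2⟩ := hl hls
        exact ⟨x, hx1, Or.inl hx2⟩
      · by_cases htt1 : t = t1
        · rw [htt1]
          filter_upwards [seg_near hx.mem1 hne1 hη0] with l hl hls
          obtain ⟨x, hx1, hx2⟩ := hl hls
          exact ⟨x, hx1, Or.inr hx2⟩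
        · filter_upwards [(seg_closed (u t) (v t)).isOpen_compl.mem_nhds (hx.seg t ht htt htt1)] with
            l hl hls
          exact absurd hls hl
  · intro l hl
    exact Or.inr (mem_iUnion₂.2 ⟨t0, hx.f0, hl⟩)
  · intro l hl
    exact Or.inr (mem_iUnion₂.2 ⟨t1, hx.f1, hl⟩)

end Pool.Agent.TBirX
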