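import Pool.Agent.TBirX.Def
import Pool.Agent.TBirN.Ld

/-!
# Constant jumps along two crossing curves

As `lc_dbl` in TBirN/Ld.lean (copy `ld_const`, `ld_key`), with `Cs` instead of `Cr`. `lk_lc`: `phi z ≠ q` for `z ≠ t` near `t`, `phi z → q` (`PwC.cv`).
-/

set_option autoImplicit false

open MeasureTheory Complex Set Filter Topology Metric AddCircle
open scoped ComplexConjugate InnerProductSpace ENNReal

namespace Pool.Agent.TBirX

open Pool.Agent.TBir Pool.Agent.TBirG Pool.Agent.TBirC Pool.Agent.TBirJ Pool.Agent.TBirK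
open Pool.Agent.TBirN
open Pool.Agent.TBirP (E qT)

/-- The number and the trace are constant on a connected set off `K`. -/
private theorem lk_const {phi : ℂ → ℂ} {K : Set ℂ} (D : Dk phi K) {P : Op} (hP2 : P * P = P)
    (hP : P * Tp phi = Tp phi * P)
    {A : Set ℂ} (hA : IsPreconnected A) (hAK : A ⊆ Kᶜ) {l0 : ℂ} (hl0 : l0 ∈ A) {n : ℕ} {tau : ℂ}
    (h1 : Ix phi l0 n) (h2 : TrJ phi P l0 n tau) : ∀ l ∈ A, Ix phi l n ∧ TrJ phi P l n tau := by
  have h3 : ∀ l ∈ A, Ix phi l n := fun l hl =>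
    Ix.of_preconnected D.hb hA (fun l hl => D.off l (hAK hl)) hl0 hl h1
  obtain ⟨tau', h4⟩ := tr_preconnectedJ D.hb hP2 hP hA h3
  have h5 : tau' = tau := ((h4 l0 hl0).unique hP h2).2
  intro l hl
  refine ⟨h3 l hl, ?_⟩
  rw [← h5]
  exact h4 l hl

private theorem lk_key {phi : ℂ → ℂ} {K : Set ℂ} {P : Op} (hP : P * Tp phi = Tp phi * P)
    {A B : Set ℂ} {q c' tA tB : ℂ} {nA nB : ℕ} (hAK : A ⊆ Kᶜ) (hBK : B ⊆ Kᶜ)
    (hqA : q ∈ closure A) (hqB : q ∈ closure B)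
    (hA : ∀ l ∈ A, Ix phi l nA ∧ TrJ phi P l nA tA)
    (hB : ∀ l ∈ B, Ix phi l nB ∧ TrJ phi P l nB tB) (hn : nA = nB + 1)
    (hJ : Jmp phi K P q c') : c' = tA - tB := by
  obtain ⟨m, tau, hev, -, -⟩ := hJ
  obtain ⟨l1, hl1, h1⟩ := ((mem_closure_iff_frequently.1 hqA).and_eventually hev).exists
  obtain ⟨l2, hl2, h2⟩ := ((mem_closure_iff_frequently.1 hqB).and_eventually hev).exists
  obtain ⟨a1, b1⟩ := hA l1 hl1
  obtain ⟨a2, b2⟩ := hB l2 hl2
  rcases h1 (hAK hl1) with ⟨h3, h4⟩ | ⟨h3, h4⟩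
  · rcases h2 (hBK hl2) with ⟨h5, h6⟩ | ⟨h5, h6⟩
    · have e1 := Ix.unique a1 h3
      have e2 := Ix.unique a2 h5
      omega
    · have e3 := (TrJ.unique hP b1 h4).2
      have e4 := (TrJ.unique hP b2 h6).2
      rw [e3, e4]
      ring
  · rcases h2 (hBK hl2) with ⟨h5, h6⟩ | ⟨h5, h6⟩
    · have e1 := Ix.unique a1 h3
      have e2 := Ix.unique a2 h5
      omega
    · have e1 := Ix.unique a1 h3
      have e2 := Ix.unique a2 h5
      omega

private theorem lk_ii_one : ii 1 = 0 := by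
  unfold ii
  rw [if_neg (by norm_num)]

private theorem lk_ii_neg : ii (-1) = 1 := by
  unfold ii
  rw [if_pos (by norm_num)]

theorem lk_of {phi : ℂ → ℂ} {K K1 K2 : Set ℂ} {q a1 a2 : ℂ} (D : Dk phi K) (hr : Rx phi K q a1 a2)
    (hc : Cs K K1 K2 q a1 a2) : Lk phi K K1 q ∧ Lk phi K K2 q := by
  obtain ⟨kap, hk, hC⟩ := hc
  obtain ⟨r0, hr0, hC⟩ := hC kap hk le_rfl
  have key : ∀ P : Op, P * P = P → P * Tp phi = Tp phi * P → ∃ c1 c2 : ℂ,
      (∀ᶠ l in 𝓝[≠] q, l ∈ K1 → ∀ c', Jmp phi K P l c' → c' = c1) ∧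
      ∀ᶠ l in 𝓝[≠] q, l ∈ K2 → ∀ c', Jmp phi K P l c' → c' = c2 := by
    intro P hP2 hP
    obtain ⟨x, r, tau, hr1, hrr, htau, hrect⟩ := hr P hP2 hP kap r0 hk hr0
      fun s1 s2 h1 h2 r hr hrr => (hC r hr hrr).1 s1 s2 h1 h2
    obtain ⟨-, hz1, hz2⟩ := hC r hr1 hrr
    refine ⟨tau (-1) 1 - tau 1 1, tau 1 (-1) - tau 1 1, ?_, ?_⟩
    · filter_upwards [hz1] with l hl hlK c' hJ
      obtain ⟨A, B, s, hs, hA, hB, hAK, hBK, hqA, hqB, ⟨lA, hlA, hlA'⟩, ⟨lB, hlB, hlB'⟩⟩ := hl hlK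
      obtain ⟨nA, hnA, iA, tA⟩ := htau (-1) s (Or.inr rfl) hs lA hlA'
      obtain ⟨nB, hnB, iB, tB⟩ := htau 1 s (Or.inl rfl) hs lB hlB'
      rw [lk_ii_neg] at hnA
      rw [lk_ii_one] at hnB
      have e := lk_key hP hAK hBK hqA hqB (lk_const D hP2 hP hA hAK hlA iA tA)
        (lk_const D hP2 hP hB hBK hlB iB tB) (by omega) hJ
      rcases hs with rfl | rfl
      · exact e
      · rw [e]
        linear_combination hrect
    · filter_upwards [hz2] with l hl hlK c' hJ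
      obtain ⟨A, B, s, hs, hA, hB, hAK, hBK, hqA, hqB, ⟨lA, hlA, hlA'⟩, ⟨lB, hlB, hlB'⟩⟩ := hl hlK
      obtain ⟨nA, hnA, iA, tA⟩ := htau s (-1) hs (Or.inr rfl) lA hlA'
      obtain ⟨nB, hnB, iB, tB⟩ := htau s 1 hs (Or.inl rfl) lB hlB'
      rw [lk_ii_neg] at hnA
      rw [lk_ii_one] at hnB
      have e := lk_key hP hAK hBK hqA hqB (lk_const D hP2 hP hA hAK hlA iA tA)
        (lk_const D hP2 hP hB hBK hlB iB tB) (by omega) hJ
      rcases hs with rfl | rfl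
      · exact e
      · rw [e]
        linear_combination hrect
  refine ⟨fun P hP2 hP => ?_, fun P hP2 hP => ?_⟩
  · obtain ⟨c1, c2, h1, -⟩ := key P hP2 hP
    exact ⟨c1, h1⟩
  · obtain ⟨c1, c2, -, h2⟩ := key P hP2 hP
    exact ⟨c2, h2⟩

private theorem lk_E_arg1 {z : ℂ} (hz : ‖z‖ = 1) : E (arg z) = z := by
  unfold E
  have := Complex.norm_mul_exp_arg_mul_I z
  rw [hz, Complex.ofReal_one, one_mul] at this
  exact this

theorem lk_lc {phi : ℂ → ℂ} {F : Finset ℂ} {u v : ℂ → ℂ} {K : Set ℂ} {t : ℂ} (h : PwC phi F u v)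
    (ht : ‖t‖ = 1) (hF : t ∉ F) (hn : ∀ᶠ z in 𝓝[≠] t, ‖z‖ = 1 → phi z ≠ phi t) {r : ℝ} (hr : 0 < r)
    (hk : Lk phi K {l | ∃ y : ℝ, |y| < r ∧ phi (t * E y) = l} (phi t)) : Lc phi K t := by
  intro P hP2 hP
  obtain ⟨k, hk⟩ := hk P hP2 hP
  refine ⟨k, ?_⟩
  have ht0 : t ≠ 0 := by
    intro h0
    rw [h0, norm_zero] at ht
    exact zero_ne_one ht
  -- continuity of `phi` along the circle
  have hopen : IsOpen ((F : Set ℂ)ᶜ) := F.finite_toSet.isClosed.isOpen_compl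
  have hcont : ContinuousWithinAt phi (sphere 0 1 \ F) t :=
    h.cv.cont t ⟨by simpa using ht, hF⟩
  have hw : ∀ᶠ l in 𝓝 (phi t), l ≠ phi t → l ∈ {l | ∃ y : ℝ, |y| < r ∧ phi (t * E y) = l} →
      ∀ c', Jmp phi K P l c' → c' = k := by
    have := eventually_nhdsWithin_iff.1 hk
    filter_upwards [this] with l hl h1 h2
    exact hl h1 h2
  have h1 : ∀ᶠ z in 𝓝 t, z ∈ sphere (0 : ℂ) 1 \ F → (phi z ≠ phi t →
      phi z ∈ {l | ∃ y : ℝ, |y| < r ∧ phi (t * E y) = l} →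
      ∀ c', Jmp phi K P (phi z) c' → c' = k) :=
    eventually_nhdsWithin_iff.1 (hcont.eventually hw)
  have h2 : ∀ᶠ z in 𝓝 t, z ∉ (F : Set ℂ) := hopen.mem_nhds hF
  have h3 : ∀ᶠ z in 𝓝 t, |arg (z / t)| < r := by
    have h4 : ContinuousAt arg (t / t) := by
      rw [div_self ht0]
      exact Complex.continuousAt_arg (by simp [Complex.slitPlane])
    have h5 : ContinuousAt (fun z : ℂ => |arg (z / t)|) t := by
      have h6 : ContinuousAt (fun z : ℂ => arg (z / t)) t :=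
        ContinuousAt.comp (f := fun z : ℂ => z / t) h4 (continuousAt_id.div_const t)
      exact h6.abs
    have h7 : |arg (t / t)| < r := by
      rw [div_self ht0, Complex.arg_one, abs_zero]
      exact hr
    exact h5.eventually (gt_mem_nhds h7)
  have hn' := eventually_nhdsWithin_iff.1 hn
  refine eventually_nhdsWithin_iff.2 ?_
  filter_upwards [h1, h2, h3, hn'] with z g1 g2 g3 g4 hz hz1 c' hJ
  refine g1 ⟨by simpa using hz1, g2⟩ (g4 hz hz1) ⟨arg (z / t), g3, ?_⟩ c' hJ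
  have h8 : ‖z / t‖ = 1 := by rw [norm_div, hz1, ht, div_one]
  rw [lk_E_arg1 h8, mul_div_cancel₀ z ht0]

end Pool.Agent.TBirX
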