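import Pool.Agent.TBirX.Def
import Pool.Agent.TBirN.Mn

/-!
# The abstract theorem

Ports of `const_ofN`, `linN`, `main_datN` (TBirN/Mn.lean) with `Cy`: `const_ofY`: one constant `c` for all points of the circle by `lc`, `sim`, connectedness; then `cov`: at a point `q` with `Lj phi K t q` the jump is `c`. `lj_self`: at a point `z` with `LinkOn phi K z {phi z} ..` there is a jump, near it all jumps are equal to it, and near `z` there are points with a jump (`sim`).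
-/

set_option autoImplicit false

open MeasureTheory Complex Set Filter Topology Metric AddCircle
open scoped ComplexConjugate InnerProductSpace ENNReal

namespace Pool.Agent.TBirX

open Pool.Agent.TBir Pool.Agent.TBirG Pool.Agent.TBirC Pool.Agent.TBirJ Pool.Agent.TBirK
open Pool.Agent.TBirN
open Pool.Agent.TBirP (E qT)

variable {phi : ℂ → ℂ} {K : Set ℂ}

/-- Points of the circle outside a finite set. -/
private theorem myy_pt {E : Set ℂ} (hE : E.Finite) {z0 : ℂ} (hz0 : ‖z0‖ = 1) {eps : ℝ}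
    (heps : 0 < eps) : ∃ z ∈ ball z0 eps, ‖z‖ = 1 ∧ z ∉ E := by
  by_contra hcon
  push Not at hcon
  have h1 : sphere (0 : ℂ) 1 ∩ ball z0 eps ⊆ E := fun z hz => hcon z hz.2 (by simpa using hz.1)
  have h2 := hE.subset h1
  have hc : Continuous fun t : ℝ => z0 * Complex.exp (t * I) := by fun_prop
  have h3 : ∀ᶠ t : ℝ in 𝓝 0, z0 * Complex.exp (t * I) ∈ ball z0 eps := by
    refine hc.continuousAt.eventually (isOpen_ball.mem_nhds ?_)
    simp [heps]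
  obtain ⟨δ, hδ, h4⟩ := Metric.eventually_nhds_iff_ball.1 h3
  have h5 : (fun t : ℝ => z0 * Complex.exp (t * I)) '' (Ioo 0 (min δ 1)) ⊆
      sphere (0 : ℂ) 1 ∩ ball z0 eps := by
    rintro _ ⟨t, ht, rfl⟩
    refine ⟨?_, h4 t ?_⟩
    · simp [hz0, Complex.norm_exp_ofReal_mul_I]
    · rw [mem_ball, dist_zero_right, Real.norm_eq_abs, abs_of_pos ht.1]
      exact ht.2.trans_le (min_le_left _ _)
  have h6 : InjOn (fun t : ℝ => z0 * Complex.exp (t * I)) (Ioo 0 (min δ 1)) := by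
    intro a ha b hb hab
    have hz : z0 ≠ 0 := by
      rintro rfl
      simp at hz0
    have h7 := mul_left_cancel₀ hz hab
    rw [Complex.exp_eq_exp_iff_exists_int] at h7
    obtain ⟨n, hn⟩ := h7
    have h8 : (a : ℂ) = b + n * (2 * Real.pi) := by
      have hI := Complex.I_ne_zero
      apply mul_right_cancel₀ hI
      rw [hn]
      ring
    have h9 : a = b + n * (2 * Real.pi) := by exact_mod_cast h8
    have ha1 : a < 1 := ha.2.trans_le (min_le_right _ _)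
    have hb1 : b < 1 := hb.2.trans_le (min_le_right _ _)
    have ha0 : 0 < a := ha.1
    have hb0 : 0 < b := hb.1
    have hpi := Real.pi_gt_three
    have h10 : n = 0 := by
      by_contra hn0
      rcases lt_or_gt_of_ne hn0 with h | h
      · have : (n : ℝ) ≤ -1 := by exact_mod_cast (show n ≤ -1 by omega)
        nlinarith
      · have : (1 : ℝ) ≤ n := by exact_mod_cast (show 1 ≤ n by omega)
        nlinarith
    rw [h9, h10]
    simp
  exact (((Set.Ioo_infinite (lt_min hδ one_pos)).image h6).mono h5) h2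


/-- The jumps on a linked set. -/
private theorem myy_link (D : Dk phi K) {P : Op} (hP2 : P * P = P) (hP : P * Tp phi = Tp phi * P)
    {t : ℂ} {S : Set ℂ} {a b : ℂ} (hL : LinkOn phi K t S a b) :
    ∃ c, (∀ q ∈ S, Jmp phi K P q c) ∧ ∃ s > 0, ∀ z1 ∈ ball t s, z1 ≠ t → ‖z1‖ = 1 →
      ∀ c', Jmp phi K P (phi z1) c' → c' = c := by
  obtain ⟨hS, haS, hbS, hsd, hlim⟩ := hL
  obtain ⟨c, hc⟩ := jmp_const hP hS fun q hq => by
    obtain ⟨m, hm, hs⟩ := hsd q hq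
    obtain ⟨k, rfl⟩ := Int.eq_ofNat_of_zero_le hm
    exact Sides.jmp D.hb D.closed D.off D.dense hP2 hP hs
  refine ⟨c, hc, ?_⟩
  obtain ⟨e1, he1, h1⟩ := Metric.eventually_nhds_iff_ball.1 (Jmp.near hP (hc a haS))
  obtain ⟨e2, he2, h2⟩ := Metric.eventually_nhds_iff_ball.1 (Jmp.near hP (hc b hbS))
  obtain ⟨s, hs, h3⟩ := hlim (min e1 e2) (lt_min he1 he2)
  refine ⟨s, hs, fun z1 hz1 hne hn1 c' hc' => ?_⟩
  rcases h3 z1 hz1 hn1 hne with h | h
  · exact h1 _ (mem_ball.2 (h.trans_le (min_le_left _ _))) c' hc'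
  · exact h2 _ (mem_ball.2 (h.trans_le (min_le_right _ _))) c' hc'

/-- Points with a jump near every point of the circle. -/
private theorem myy_near (D : Dk phi K)
    (hsim : {z : ℂ | ‖z‖ = 1 ∧ ¬ LinkOn phi K z {phi z} (phi z) (phi z)}.Finite) {P : Op} (hP2 : P * P = P) (hP : P * Tp phi = Tp phi * P)
    {z : ℂ} (hz : ‖z‖ = 1) {s : ℝ} (hs : 0 < s) :
    ∃ z2 ∈ ball z s, z2 ≠ z ∧ ‖z2‖ = 1 ∧ ∃ c', Jmp phi K P (phi z2) c' := by
  obtain ⟨z2, h1, h2, h3⟩ := myy_pt (hsim.union (Set.finite_singleton z)) hz hs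
  rw [mem_union, not_or] at h3
  refine ⟨z2, h1, fun h => h3.2 (by rw [h]; rfl), h2, ?_⟩
  have h4 : LinkOn phi K z2 {phi z2} (phi z2) (phi z2) := by
    by_contra h4
    exact h3.1 ⟨h2, h4⟩
  obtain ⟨c, hc, -⟩ := myy_link D hP2 hP h4
  exact ⟨c, hc _ rfl⟩

theorem lj_self (D : Dk phi K) (hs : {z : ℂ | ‖z‖ = 1 ∧ ¬ LinkOn phi K z {phi z} (phi z) (phi z)}.Finite)
    {z : ℂ} (hz : ‖z‖ = 1) (h : LinkOn phi K z {phi z} (phi z) (phi z)) : Lj phi K z (phi z) := by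
  intro P hP2 hP k hk
  obtain ⟨c, hc, s, hs0, h3⟩ := myy_link D hP2 hP h
  rw [eventually_nhdsWithin_iff] at hk
  obtain ⟨ρ, hρ, h4⟩ := Metric.eventually_nhds_iff_ball.1 hk
  obtain ⟨z2, hz2, hne2, hn2, c', hc'⟩ := myy_near D hs hP2 hP hz (lt_min hs0 hρ)
  have e0 := h3 z2 (ball_subset_ball (min_le_left _ _) hz2) hne2 hn2 c' hc'
  have e1 := h4 z2 (ball_subset_ball (min_le_right _ _) hz2) hne2 hn2 c' hc'
  have e2 : k = c := e1.symm.trans e0
  rw [e2]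
  exact hc _ rfl

/-- The constant, with one point where it is the jump. -/
private theorem myy_const (D : Cy phi K) {P : Op} (hP2 : P * P = P) (hP : P * Tp phi = Tp phi * P) :
    ∃ c : ℂ, {q : ℂ | q ∈ K ∧ ¬ Jmp phi K P q c}.Finite ∧ ∃ q, Jmp phi K P q c := by
  classical
  obtain ⟨V, hV⟩ : ∃ V : ℂ → Set ℂ, V = fun k => {z | ∃ ρ > 0, ∀ z1 ∈ ball z ρ, z1 ≠ z →
      ‖z1‖ = 1 → ∀ c', Jmp phi K P (phi z1) c' → c' = k} := ⟨_, rfl⟩
  have hVo : ∀ k, IsOpen (V k) := by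
    intro k
    rw [Metric.isOpen_iff, hV]
    rintro z ⟨ρ, hρ, h⟩
    refine ⟨ρ / 2, half_pos hρ, fun w hw => ?_⟩
    by_cases hwz : w = z
    · rw [hwz]
      exact ⟨ρ, hρ, h⟩
    · refine ⟨min (ρ / 2) (dist w z), lt_min (half_pos hρ) (dist_pos.2 hwz),
        fun z1 hz1 _ => h z1 ?_ ?_⟩
      · have h1 := (mem_ball.1 hz1).trans_le (min_le_left _ _)
        rw [mem_ball] at hw ⊢
        linarith [dist_triangle z1 w z]
      · rintro rfl
        have h1 := (mem_ball.1 hz1).trans_le (min_le_right _ _)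
        rw [dist_comm] at h1
        exact lt_irrefl _ h1
  have hcov0 : ∀ z ∈ sphere (0 : ℂ) 1, ∃ k, z ∈ V k := by
    intro z hz
    have hz' : ‖z‖ = 1 := by simpa using hz
    obtain ⟨k, hk⟩ := D.lc z hz' P hP2 hP
    rw [eventually_nhdsWithin_iff] at hk
    obtain ⟨s, hs, h⟩ := Metric.eventually_nhds_iff_ball.1 hk
    refine ⟨k, ?_⟩
    rw [hV]
    exact ⟨s, hs, fun z1 hz1 hne hn1 => h z1 hz1 hne hn1⟩
  have hdisj : ∀ z ∈ sphere (0 : ℂ) 1, ∀ k k', z ∈ V k → z ∈ V k' → k = k' := by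
    intro z hz k k' h0 h1
    rw [hV] at h0 h1
    obtain ⟨ρ0, hρ0, h0⟩ := h0
    obtain ⟨ρ1, hρ1, h1⟩ := h1
    obtain ⟨z2, hz2, hne2, hn2, c', hc'⟩ := myy_near D.toDk D.sim hP2 hP (by simpa using hz) (lt_min hρ0 hρ1)
    have e0 := h0 z2 (ball_subset_ball (min_le_left _ _) hz2) hne2 hn2 c' hc'
    have e1 := h1 z2 (ball_subset_ball (min_le_right _ _) hz2) hne2 hn2 c' hc'
    exact e0.symm.trans e1
  have hpre : IsPreconnected (sphere (0 : ℂ) 1) := by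
    refine isPreconnected_sphere ?_ _ _
    rw [Complex.rank_real_complex]
    norm_num
  obtain ⟨k, hk⟩ := hcov0 1 (by simp)
  have hall : sphere (0 : ℂ) 1 ⊆ V k := by
    intro z hz
    by_contra hzk
    obtain ⟨k1, hk1⟩ := hcov0 z hz
    have hne : k1 ≠ k := by
      rintro rfl
      exact hzk hk1
    obtain ⟨w, hw, hw1, hw2⟩ := hpre (V k) (⋃ k' ∈ {k' : ℂ | k' ≠ k}, V k') (hVo k)
      (isOpen_biUnion fun k' _ => hVo k') (fun w hw => by
        obtain ⟨k2, hk2⟩ := hcov0 w hw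
        by_cases h2 : k2 = k
        · left
          rw [h2] at hk2
          exact hk2
        · right
          exact mem_iUnion₂.2 ⟨k2, h2, hk2⟩)
      ⟨1, by simp, hk⟩ ⟨z, hz, mem_iUnion₂.2 ⟨k1, hne, hk1⟩⟩
    obtain ⟨k3, hk3, hw3⟩ := mem_iUnion₂.1 hw2
    exact hk3 (hdisj w hw k3 k hw3 hw1)
  refine ⟨k, ?_, ?_⟩
  · refine D.cov.subset ?_
    rintro q ⟨hqK, hq⟩
    refine ⟨hqK, ?_⟩
    rintro ⟨t, ht, hL⟩
    apply hq
    have htk := hall (show t ∈ sphere (0 : ℂ) 1 by simpa using ht)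
    rw [hV] at htk
    obtain ⟨ρ, hρ, h4⟩ := htk
    refine hL P hP2 hP k ?_
    rw [eventually_nhdsWithin_iff]
    exact Metric.eventually_nhds_iff_ball.2 ⟨ρ, hρ, fun z1 hz1 hne hn1 => h4 z1 hz1 hne hn1⟩
  · have htk := hall (show (1 : ℂ) ∈ sphere (0 : ℂ) 1 by simp)
    rw [hV] at htk
    obtain ⟨ρ, hρ, h4⟩ := htk
    obtain ⟨z2, hz2, hne2, hn2, c', hc'⟩ := myy_near D.toDk D.sim hP2 hP (show ‖(1 : ℂ)‖ = 1 by simp) hρ
    have e1 := h4 z2 hz2 hne2 hn2 c' hc'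
    rw [e1] at hc'
    exact ⟨phi z2, hc'⟩

theorem const_ofY (D : Cy phi K) {P : Op} (hP2 : P * P = P) (hP : P * Tp phi = Tp phi * P) :
    ∃ c : ℂ, {q : ℂ | q ∈ K ∧ ¬ Jmp phi K P q c}.Finite := by
  obtain ⟨c, h, -⟩ := myy_const D hP2 hP
  exact ⟨c, h⟩

private theorem myy_lin (D : Cy phi K) {P : Op} (hP2 : P * P = P) (hP : P * Tp phi = Tp phi * P) {c : ℂ}
    (hc : {q : ℂ | q ∈ K ∧ ¬ Jmp phi K P q c}.Finite) :
    ∀ l ∉ K, ∀ n : ℕ, Ix phi l n → TrJ phi P l n (c * n) := by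
  classical
  obtain ⟨Fl, hFl⟩ : ∃ Fl : ℂ → ℂ → Prop, Fl = fun q tau =>
    ∃ ρ > 0, ∀ l ∈ ball q ρ, l ∉ K → ∃ n : ℕ, Ix phi l n ∧ TrJ phi P l n (tau + c * n) := ⟨_, rfl⟩
  obtain ⟨Bad, hBad⟩ : ∃ Bad : Set ℂ, Bad = {q : ℂ | q ∈ K ∧ ¬ Jmp phi K P q c} := ⟨_, rfl⟩
  have hBf : Bad.Finite := by
    rw [hBad]
    exact hc
  have hjmp : ∀ q, Jmp phi K P q c → ∃ tau, Fl q tau := by
    rintro q ⟨m, tau, h1, -, -⟩
    obtain ⟨ρ, hρ, h2⟩ := Metric.eventually_nhds_iff_ball.1 h1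
    rw [hFl]
    refine ⟨tau - c * m, ρ, hρ, fun l hl hlK => ?_⟩
    rcases h2 l hl hlK with ⟨h4, h3⟩ | ⟨h4, h3⟩
    · refine ⟨m + 1, by exact_mod_cast h4, ?_⟩
      have h5 : tau - c * m + c * ((m + 1 : ℕ) : ℂ) = tau + c := by
        push_cast
        ring
      rw [h5]
      exact h3
    · refine ⟨m, h4, ?_⟩
      have h5 : tau - c * m + c * (m : ℂ) = tau := by ring
      rw [h5]
      exact h3
  have hoff : ∀ q ∉ K, ∀ n : ℕ, Ix phi q n → ∃ tau, Fl q tau ∧ TrJ phi P q n (tau + c * n) := by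
    intro q hqK n hn
    obtain ⟨tau, h1⟩ := exists_trJ D.hb hP2 hP hn
    obtain ⟨ρ, hρ, h2⟩ := Metric.eventually_nhds_iff_ball.1 (h1.and (Ix.nhds D.hb hn))
    have h5 : tau - c * n + c * (n : ℂ) = tau := by ring
    refine ⟨tau - c * n, ?_, ?_⟩
    · rw [hFl]
      refine ⟨ρ, hρ, fun l hl _ => ⟨n, (h2 l hl).2, ?_⟩⟩
      rw [h5]
      exact (h2 l hl).1
    · rw [h5]
      exact h1.self_of_nhds
  have hflat : ∀ q ∈ Badᶜ, ∃ tau, Fl q tau := by
    intro q hq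
    by_cases hqK : q ∈ K
    · by_cases h2 : Jmp phi K P q c
      · exact hjmp _ h2
      · exfalso
        apply hq
        rw [hBad]
        exact ⟨hqK, h2⟩
    · obtain ⟨n, hn⟩ := D.off q hqK
      obtain ⟨k, rfl⟩ := Int.eq_ofNat_of_zero_le (D.nn q n hn)
      obtain ⟨tau, h1, -⟩ := hoff q hqK k hn
      exact ⟨tau, h1⟩
  have hop : ∀ p : ℂ → Prop, IsOpen {l : ℂ | ∃ ρ > 0, ∀ μ ∈ ball l ρ, p μ} := by
    intro p
    rw [Metric.isOpen_iff]
    rintro z ⟨ρ, hρ, h⟩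
    refine ⟨ρ / 2, half_pos hρ, fun w hw => ⟨ρ / 2, half_pos hρ, fun z1 hz1 => h z1 ?_⟩⟩
    rw [mem_ball] at hw hz1 ⊢
    linarith [dist_triangle z1 w z]
  have hopFl : ∀ tau, IsOpen {q : ℂ | Fl q tau} := by
    intro tau
    rw [hFl]
    exact hop fun l => l ∉ K → ∃ n : ℕ, Ix phi l n ∧ TrJ phi P l n (tau + c * n)
  obtain ⟨V, hV⟩ : ∃ V : Set ℂ, V = {q : ℂ | Fl q 0} := ⟨_, rfl⟩
  obtain ⟨V', hV'⟩ : ∃ V' : Set ℂ, V' = ⋃ tau ∈ {tau : ℂ | tau ≠ 0}, {q : ℂ | Fl q tau} := ⟨_, rfl⟩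
  have hVo : IsOpen V := by
    rw [hV]
    exact hopFl 0
  have hVo' : IsOpen V' := by
    rw [hV']
    exact isOpen_biUnion fun tau _ => hopFl tau
  have hcov : Badᶜ ⊆ V ∪ V' := by
    intro q hq
    obtain ⟨tau, h1⟩ := hflat q hq
    by_cases h0 : tau = 0
    · left
      rw [hV]
      rw [h0] at h1
      exact h1
    · right
      rw [hV']
      exact mem_iUnion₂.2 ⟨tau, h0, h1⟩
  have hconn : IsPreconnected Badᶜ := by
    refine (hBf.countable.isPathConnected_compl_of_one_lt_rank ?_).isConnected.isPreconnected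
    rw [Complex.rank_real_complex]
    norm_num
  have hVne : (Badᶜ ∩ V).Nonempty := by
    obtain ⟨R1, hR⟩ := Ix.large D.hb
    obtain ⟨R, hR0, hRR⟩ : ∃ R : ℝ, 0 ≤ R ∧ R1 ≤ R := ⟨|R1|, abs_nonneg R1, le_abs_self R1⟩
    have h1 : IsOpen {l : ℂ | R < ‖l‖} := isOpen_lt continuous_const continuous_norm
    have h2 : {l : ℂ | R < ‖l‖}.Nonempty := by
      refine ⟨((R + 1 : ℝ) : ℂ), ?_⟩
      change R < ‖((R + 1 : ℝ) : ℂ)‖
      rw [Complex.norm_real, Real.norm_eq_abs, abs_of_nonneg (by positivity)]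
      linarith
    obtain ⟨l, hl, hl', hlK⟩ : ∃ l : ℂ, R < ‖l‖ ∧ l ∈ Badᶜ ∧ l ∉ K := by
      have h3 : IsOpen ({l : ℂ | R < ‖l‖} ∩ Kᶜ) := h1.inter D.closed.isOpen_compl
      have h4 : ({l : ℂ | R < ‖l‖} ∩ Kᶜ).Nonempty := D.dense.inter_open_nonempty _ h1 h2
      obtain ⟨l, hl, hl'⟩ := (hBf.countable.dense_compl ℝ).inter_open_nonempty _ h3 h4
      exact ⟨l, hl.1, hl', hl.2⟩
    refine ⟨l, hl', ?_⟩
    have h5 : Ix phi l ((0 : ℕ) : ℤ) := by
      have := hR l (hRR.trans_lt hl)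
      simpa using this
    obtain ⟨tau, h6, h7⟩ := hoff l hlK 0 h5
    have h8 : tau = 0 := by
      obtain ⟨a, v, -, -, h9⟩ := h7
      simpa using h9
    rw [hV]
    rw [h8] at h6
    exact h6
  have hBe : ¬ (Badᶜ ∩ V').Nonempty := by
    intro hne
    obtain ⟨q, -, hq1, hq2⟩ := hconn V V' hVo hVo' hcov hVne hne
    rw [hV, hFl] at hq1
    rw [hV', hFl] at hq2
    obtain ⟨tau, htau, hq3⟩ := mem_iUnion₂.1 hq2
    obtain ⟨ρ, hρ, h1⟩ := hq1
    obtain ⟨ρ', hρ', h2⟩ := hq3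
    obtain ⟨l, ⟨hl1, hl2⟩, hl3⟩ := D.dense.inter_open_nonempty (ball q ρ ∩ ball q ρ')
      (isOpen_ball.inter isOpen_ball) ⟨q, mem_ball_self hρ, mem_ball_self hρ'⟩
    obtain ⟨n, -, h3⟩ := h1 l hl1 hl3
    obtain ⟨n', -, h4⟩ := h2 l hl2 hl3
    obtain ⟨h5, h6⟩ := h3.unique hP h4
    rw [h5] at h6
    exact htau (add_right_cancel h6).symm
  intro l hl n hn
  have hlB : l ∈ Badᶜ := by
    intro h
    rw [hBad] at h
    exact hl h.1
  have hlV : l ∈ V := (hcov hlB).resolve_right fun h => hBe ⟨l, hlB, h⟩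
  rw [hV, hFl] at hlV
  obtain ⟨ρ, hρ, h⟩ := hlV
  obtain ⟨n', hn', ht⟩ := h l (mem_ball_self hρ) hl
  have h1 : (n : ℤ) = n' := Ix.unique hn hn'
  have h2 : n = n' := by exact_mod_cast h1
  rw [h2]
  rw [zero_add] at ht
  exact ht

/-- The constant is `0` or `1`. -/
private theorem myy_01 {P : Op} (hP2 : P * P = P)
    (hP : P * Tp phi = Tp phi * P) {c : ℂ} (hc : ∃ q, Jmp phi K P q c)
    (hlin : ∀ l ∉ K, ∀ n : ℕ, Ix phi l n → TrJ phi P l n (c * n)) : c = 0 ∨ c = 1 := by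
  obtain ⟨q, m, tau, -, hf1, hf2⟩ := hc
  obtain ⟨l, hl1, hl⟩ := hf1.exists
  obtain ⟨l', hl1', hl'⟩ := hf2.exists
  have e1 := hlin l hl (m + 1) (by push_cast; exact hl1)
  have e2 := hlin l' hl' m hl1'
  obtain ⟨k, hk, ek⟩ := trJ_bd hP2 hP e1
  obtain ⟨k', hk', ek'⟩ := trJ_bd hP2 hP e2
  have h1 : c = ((k - k' : ℤ) : ℂ) := by
    push_cast
    rw [← ek, ← ek']
    push_cast
    ring
  have h2 : (((k - k' : ℤ) * (m + 1) : ℤ) : ℂ) = ((k : ℤ) : ℂ) := by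
    push_cast at h1 ek ⊢
    rw [← h1]
    exact ek
  have h3 : (k - k' : ℤ) * (m + 1) = k := by exact_mod_cast h2
  have h4 : (k - k' : ℤ) = 0 ∨ (k - k' : ℤ) = 1 := by
    have hm : (0 : ℤ) < m + 1 := by positivity
    have hk0 : (0 : ℤ) ≤ k := by positivity
    have hk1 : (k : ℤ) ≤ m + 1 := by exact_mod_cast hk
    have h5 : 0 ≤ (k - k' : ℤ) := by
      by_contra hneg
      push Not at hneg
      nlinarith
    have h6 : (k - k' : ℤ) ≤ 1 := by
      by_contra hbig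
      push Not at hbig
      nlinarith
    omega
  rcases h4 with h4 | h4
  · left
    rw [h1, h4, Int.cast_zero]
  · right
    rw [h1, h4, Int.cast_one]

theorem main_datY (D : Cy phi K) : CompletelyIrreducible (Tp phi) := by
  rw [bir_iff]
  intro P hP2 hP
  obtain ⟨c, hc, hc2⟩ := myy_const D hP2 hP
  have hlin := myy_lin D hP2 hP hc
  have hnat : ∀ l ∉ K, ∃ n : ℕ, Ix phi l n := by
    intro l hl
    obtain ⟨n, hn⟩ := D.off l hl
    obtain ⟨m, rfl⟩ := Int.eq_ofNat_of_zero_le (D.nn l n hn)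
    exact ⟨m, hn⟩
  rcases myy_01 hP2 hP hc2 hlin with rfl | rfl
  · left
    refine zero_PK D.toDk hP ?_
    intro f l hl
    obtain ⟨n, hn⟩ := hnat l hl
    have h1 := hlin l hl n hn
    rw [zero_mul] at h1
    exact tr_zeroJ hP2 hP h1 f
  · right
    have h1 : (1 - P) * (1 - P) = 1 - P := by
      rw [mul_sub, mul_one, sub_mul, one_mul, hP2, sub_self, sub_zero]
    have h2 : (1 - P) * Tp phi = Tp phi * (1 - P) := by
      rw [sub_mul, mul_sub, hP, one_mul, mul_one]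
    have h3 : 1 - P = 0 := by
      refine zero_PK D.toDk h2 ?_
      intro f l hl
      obtain ⟨n, hn⟩ := hnat l hl
      have h4 := trJ_compl (hlin l hl n hn)
      rw [one_mul, sub_self] at h4
      exact tr_zeroJ h1 h2 h4 f
    rw [sub_eq_zero] at h3
    exact h3.symm

end Pool.Agent.TBirX
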