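import Pool.Agent.TBirX.Ss
import Pool.Agent.TBirN.Ng
import Pool.Agent.TBirK.Smk
import Pool.Agent.TBirK.Sgl

/-!
# Both signs

Port of TBirN/Ng.lean with `XCross`. A point of `Q = closure U+ ∩ closure U-` is not on a segment: `Sn` points have two sides (`seg_sides`), the crossing points are excluded by `seg` (both signs occur near a point of `Q`). Off the segments as there (`mult`, `rg_nn` for the finiteness). The spectrum: the completed curve is in the closure of the points with nonzero number (see `rgn_gam` in TBirK/RgN.lean for segments with crossing points).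
-/

set_option autoImplicit false

open MeasureTheory Complex Set Filter Topology Metric AddCircle
open scoped ComplexConjugate InnerProductSpace ENNReal

namespace Pool.Agent.TBirX

open Pool.Agent.TBir Pool.Agent.TBirG Pool.Agent.TBirC Pool.Agent.TBirJ Pool.Agent.TBirK
open Pool.Agent.TBirN
open Pool.Agent.TBirP (E qT)

private theorem nyx_perf : Preperfect (sphere (0 : ℂ) 1) := by
  refine (isPreconnected_sphere (E := ℂ) ?_ 0 1).preperfect_of_nontrivial ?_
  · rw [Complex.rank_real_complex]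
    exact Nat.one_lt_ofNat
  · refine ⟨1, ?_, -1, ?_, ?_⟩
    · rw [mem_sphere_zero_iff_norm, norm_one]
    · rw [mem_sphere_zero_iff_norm, norm_neg, norm_one]
    · norm_num

/-- The circle without a finite set is dense in the circle. -/
private theorem nyx_dense {T : Set ℂ} (hT : T.Finite) {z : ℂ} (hz : z ∈ sphere (0 : ℂ) 1) :
    z ∈ closure (sphere (0 : ℂ) 1 \ T) := by
  by_cases hzT : z ∈ T
  · have h1 : AccPt z (𝓟 (sphere (0 : ℂ) 1)) := nyx_perf z hz
    rw [accPt_iff_frequently] at h1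
    have h2 : ∀ᶠ y in 𝓝 z, y ∉ T \ {z} := by
      have h3 : IsClosed (T \ {z}) := (hT.subset sdiff_subset).isClosed
      exact h3.isOpen_compl.mem_nhds fun h4 => h4.2 rfl
    rw [mem_closure_iff_frequently]
    refine (h1.and_eventually h2).mono ?_
    rintro y ⟨⟨hyz, hy⟩, hyT⟩
    exact ⟨hy, fun h5 => hyT ⟨h5, hyz⟩⟩
  · exact subset_closure ⟨hz, hzT⟩

private theorem nyx_nonempty {U Q : Set ℂ} (o : IsOpen U) (n : U.Nonempty) (hQ : Q.Finite) :
    (U \ Q).Nonempty := by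
  obtain ⟨w, hw⟩ := n
  exact ((infinite_of_mem_nhds w (o.mem_nhds hw)).sdiff hQ).nonempty

variable {phi : ℂ → ℂ} {F : Finset ℂ} {u v : ℂ → ℂ}

/-- The points with a partner. -/
private def PP (phi : ℂ → ℂ) (F : Finset ℂ) : Set ℂ :=
  {z : ℂ | z ∈ sphere (0 : ℂ) 1 ∧ z ∉ F ∧
    ∃ z' ∈ sphere (0 : ℂ) 1, z' ∉ F ∧ phi z' = phi z ∧ z' ≠ z}

/-- Points with two sides in the weak sense. -/
private def TS (phi : ℂ → ℂ) (q : ℂ) : Prop :=
  ∃ m : ℤ, (∃ᶠ l in 𝓝 q, Ix phi l (m + 1)) ∧ ∃ᶠ l in 𝓝 q, Ix phi l m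

private theorem nyx_sm (h : RegC phi F u v) {z : ℂ} (hz : z ∈ sphere (0 : ℂ) 1) (hzF : z ∉ F)
    (hzP : z ∉ PP phi F) (hs : ∀ t ∈ F, phi z ∉ segment ℝ (u t) (v t)) :
    ∃ m : ℤ, Sides phi (Gam phi F u v) (phi z) m := by
  have hfin : (PP phi F).Finite := rg_nn h
  refine sides_reg h.toPwC (mem_sphere_zero_iff_norm.1 hz) hzF hs ?_ ?_
  · intro z' hz' hzF' hq
    by_contra hne
    exact hzP ⟨hz, hzF, z', mem_sphere_zero_iff_norm.2 hz', hzF', hq, hne⟩
  · filter_upwards [hfin.isClosed.isOpen_compl.mem_nhds hzP] with z1 h1 hz1 hz1F z' hz' hzF' hq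
    by_contra hne
    exact h1 ⟨mem_sphere_zero_iff_norm.2 hz1, hz1F, z', mem_sphere_zero_iff_norm.2 hz', hzF', hq,
      hne⟩

private theorem nyx_ts {K : Set ℂ} {q : ℂ} {m : ℤ} (h : Sides phi K q m) : TS phi q := by
  obtain ⟨A, B, -, -, hA, hB, hAc, hBc, -⟩ := h
  exact ⟨m, (mem_closure_iff_frequently.1 hAc).mono hA, (mem_closure_iff_frequently.1 hBc).mono hB⟩

/-- Near a value of the symbol there are points with two sides. -/
private theorem nyx_curve (h : RegC phi F u v) {z : ℂ} (hz : z ∈ sphere (0 : ℂ) 1) (hzF : z ∉ F)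
    {V : Set ℂ} (hV : V ∈ 𝓝 (phi z)) : ∃ q ∈ V, TS phi q := by
  have hc := h.toPwC.cv
  set B : Set ℂ := ⋃ t ∈ F, ⋃ q ∈ {q : ℂ | q ∈ segment ℝ (u t) (v t) ∧
    ((∃ z ∈ sphere (0 : ℂ) 1, z ∉ F ∧ phi z = q) ∨
      ∃ t' ∈ F, t' ≠ t ∧ q ∈ segment ℝ (u t') (v t'))},
        {z : ℂ | z ∈ sphere (0 : ℂ) 1 ∧ z ∉ F ∧ phi z = q} with hB
  have hBfin : B.Finite := by
    rw [hB]
    exact F.finite_toSet.biUnion fun t ht => (h.cross t ht).biUnion fun q _ => cv_level hc q
  have hT : ((F : Set ℂ) ∪ (PP phi F ∪ B)).Finite :=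
    F.finite_toSet.union (Set.Finite.union (rg_nn h) hBfin)
  have hd := nyx_dense hT hz
  have hcw : ContinuousWithinAt phi (sphere (0 : ℂ) 1 \ (↑F ∪ (PP phi F ∪ B))) z :=
    (hc.cont z ⟨hz, hzF⟩).mono (sdiff_subset_sdiff_right subset_union_left)
  have h1 := hcw.mem_closure_image hd
  obtain ⟨q, hqV, z1, ⟨hz1, hz1T⟩, rfl⟩ := mem_closure_iff_nhds.1 h1 V hV
  have hz1F : z1 ∉ F := fun h2 => hz1T (Or.inl h2)
  have hz1P : z1 ∉ PP phi F := fun h2 => hz1T (Or.inr (Or.inl h2))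
  obtain ⟨m, hm⟩ := nyx_sm h hz1 hz1F hz1P fun t ht hq => by
    apply hz1T
    refine Or.inr (Or.inr ?_)
    rw [hB, mem_iUnion₂]
    refine ⟨t, ht, ?_⟩
    rw [mem_iUnion₂]
    exact ⟨phi z1, ⟨hq, Or.inl ⟨z1, hz1, hz1F, rfl⟩⟩, hz1, hz1F, rfl⟩
  exact ⟨_, hqV, nyx_ts hm⟩

/-- The points of the form `q + x I w` on one side of the line. -/
private theorem nyx_side {q a w : ℂ} (hw : w ≠ 0) (hq : ((q - a) * conj w).im = 0) {V : Set ℂ}
    (hV : V ∈ 𝓝 q) (s : ℝ) : ∃ l ∈ V, ∃ x : ℝ, 0 < x ∧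
      ((l - a) * conj w).im = s * x := by
  have h1 : Tendsto (fun x : ℝ => q + (s * x : ℝ) * (I * w)) (𝓝[>] 0) (𝓝 q) := by
    have h2 : Continuous fun x : ℝ => q + (s * x : ℝ) * (I * w) := by fun_prop
    have h3 := h2.tendsto 0
    simp only [mul_zero, Complex.ofReal_zero, zero_mul, add_zero] at h3
    exact h3.mono_left nhdsWithin_le_nhds
  have h4 : ∀ᶠ x : ℝ in 𝓝[>] 0, 0 < x := eventually_mem_nhdsWithin
  obtain ⟨x, hx, hx0⟩ := ((h1.eventually_mem hV).and h4).exists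
  refine ⟨_, hx, x * Complex.normSq w, mul_pos hx0 (Complex.normSq_pos.2 hw), ?_⟩
  have h5 : (q + (s * x : ℝ) * (I * w) - a) * conj w =
      (q - a) * conj w + ((s * x : ℝ) : ℂ) * (I * (w * conj w)) := by ring
  have h6 : ((s * x : ℝ) : ℂ) * (I * (w * conj w)) =
      ((s * (x * Complex.normSq w) : ℝ) : ℂ) * I := by
    rw [Complex.mul_conj]
    push_cast
    ring
  rw [h5, Complex.add_im, hq, zero_add, h6, Complex.im_ofReal_mul, Complex.I_im, mul_one]

/-- Near every point of the completed curve there are points with two sides. -/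
private theorem nyx_gam (h : RegC phi F u v) {l : ℂ} (hl : l ∈ Gam phi F u v) {V : Set ℂ}
    (hV : V ∈ 𝓝 l) : ∃ q ∈ V, TS phi q := by
  have hc := h.toPwC.cv
  rcases hl with ⟨z, ⟨hz, hzF⟩, rfl⟩ | hl
  · exact nyx_curve h hz hzF hV
  rw [mem_iUnion₂] at hl
  obtain ⟨t, ht, hlt⟩ := hl
  by_cases hlv : l = v t
  · -- the end of the segment
    rw [hlv] at hV
    obtain ⟨V', hV'V, hV'o, hlV'⟩ := _root_.mem_nhds_iff.1 hV
    have h1 := (hc.lim_right t ht).eventually_mem (hV'o.mem_nhds hlV')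
    have h2 : ∀ᶠ x : ℝ in 𝓝[>] 0, t * E x ∉ F := by
      have h3 : Tendsto (fun x : ℝ => t * E x) (𝓝[>] 0) (𝓝 t) := by
        have h5 : Continuous fun x : ℝ => t * E x := by
          unfold E
          fun_prop
        have h6 := h5.tendsto 0
        have h7 : t * E 0 = t := by simp [E]
        rw [h7] at h6
        exact h6.mono_left nhdsWithin_le_nhds
      have h4 : ∀ᶠ y in 𝓝 t, y ∉ (F : Set ℂ) \ {t} := by
        have h5 : IsClosed ((F : Set ℂ) \ {t}) := (F.finite_toSet.subset sdiff_subset).isClosed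
        exact h5.isOpen_compl.mem_nhds fun h6 => h6.2 rfl
      have h8 : ∀ᶠ x : ℝ in 𝓝[>] 0, 0 < x := eventually_mem_nhdsWithin
      have h9 : ∀ᶠ x : ℝ in 𝓝[>] 0, x < Real.pi :=
        mem_nhdsWithin_of_mem_nhds (Iio_mem_nhds Real.pi_pos)
      filter_upwards [h3.eventually h4, h8, h9] with x hx hx0 hx1 hxF
      apply hx
      refine ⟨hxF, ?_⟩
      intro hxt
      have ht0 : t ≠ 0 := by
        intro h0
        have := h.circ t ht
        rw [h0, norm_zero] at this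
        exact zero_ne_one this
      have h10 : E x = 1 := by
        have h11 : t * E x = t * 1 := by
          rw [mul_one]
          exact hxt
        exact mul_left_cancel₀ ht0 h11
      unfold E at h10
      rw [Complex.exp_eq_one_iff] at h10
      obtain ⟨n, hn⟩ := h10
      have h12 : (x : ℂ) = ((n * (2 * Real.pi) : ℝ) : ℂ) := by
        have h13 : (x : ℂ) * I = ((n * (2 * Real.pi) : ℝ) : ℂ) * I := by
          rw [hn]
          push_cast
          ring
        exact mul_right_cancel₀ Complex.I_ne_zero h13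
      have h14 : x = n * (2 * Real.pi) := by exact_mod_cast h12
      have h15 : (0 : ℝ) < n := by
        by_contra h16
        push Not at h16
        have := mul_nonpos_of_nonpos_of_nonneg h16 (by positivity : (0 : ℝ) ≤ 2 * Real.pi)
        linarith
      have h16 : (0 : ℤ) < n := by exact_mod_cast h15
      have h17 : (1 : ℝ) ≤ n := by exact_mod_cast h16
      nlinarith [Real.pi_pos]
    obtain ⟨x, hx1, hx2⟩ := (h1.and h2).exists
    have hsph : t * E x ∈ sphere (0 : ℂ) 1 := by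
      rw [mem_sphere_zero_iff_norm, norm_mul, h.circ t ht, one_mul]
      exact Complex.norm_exp_ofReal_mul_I x
    obtain ⟨q, hq, hqT⟩ := nyx_curve h hsph hx2 (hV'o.mem_nhds hx1)
    exact ⟨q, hV'V hq, hqT⟩
  · -- an inner point of the segment
    have hsegs := hlt
    rw [segment_eq_image'] at hlt
    obtain ⟨r, ⟨hr0, hr1⟩, hr⟩ := hlt
    simp only at hr
    have hr1' : r < 1 := by
      rcases lt_or_eq_of_le hr1 with h1 | h1
      · exact h1
      · exfalso
        apply hlv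
        rw [← hr, h1, one_smul]
        ring
    have hne : v t - u t ≠ 0 := by
      intro h0
      apply hlv
      rw [← hr, h0, smul_zero, add_zero]
      exact (sub_eq_zero.1 h0).symm
    set g : ℝ → ℂ := fun y => u t + (y : ℂ) * (v t - u t) with hg
    have hgl : g r = l := by
      rw [← hr, hg]
      simp only
      rw [Complex.real_smul]
    have hginj : Function.Injective g := by
      intro y y' hy
      have h1 : (y : ℂ) * (v t - u t) = (y' : ℂ) * (v t - u t) := add_left_cancel hy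
      exact_mod_cast mul_right_cancel₀ hne h1
    have hgc : Continuous g := by
      rw [hg]
      fun_prop
    have hbad' : (g ⁻¹' {q : ℂ | q ∈ segment ℝ (u t) (v t) ∧
      ((∃ z ∈ sphere (0 : ℂ) 1, z ∉ F ∧ phi z = q) ∨
        ∃ t' ∈ F, t' ≠ t ∧ q ∈ segment ℝ (u t') (v t'))}).Finite :=
      (h.cross t ht).preimage hginj.injOn
    have hVg : g ⁻¹' V ∈ 𝓝 r := hgc.continuousAt.preimage_mem_nhds (by rw [hgl]; exact hV)
    obtain ⟨d, hd, hball⟩ := Metric.mem_nhds_iff.1 hVg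
    have hinf : (Ioo r (min 1 (r + d)) \ g ⁻¹' {q : ℂ | q ∈ segment ℝ (u t) (v t) ∧
      ((∃ z ∈ sphere (0 : ℂ) 1, z ∉ F ∧ phi z = q) ∨
        ∃ t' ∈ F, t' ≠ t ∧ q ∈ segment ℝ (u t') (v t'))}).Nonempty :=
      ((Ioo_infinite (lt_min hr1' (by linarith))).sdiff hbad').nonempty
    obtain ⟨y, ⟨hy1, hy2⟩, hyb⟩ := hinf
    have hy3 : y < 1 := lt_of_lt_of_le hy2 (min_le_left _ _)
    have hy4 : y < r + d := lt_of_lt_of_le hy2 (min_le_right _ _)
    have hyV : g y ∈ V := by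
      apply hball
      rw [mem_ball, Real.dist_eq, abs_of_pos (by linarith)]
      linarith
    have hyseg : g y ∈ segment ℝ (u t) (v t) := by
      rw [segment_eq_image']
      refine ⟨y, ⟨by linarith, hy3.le⟩, ?_⟩
      simp only
      rw [Complex.real_smul]
    have hyu : g y ≠ u t := by
      intro h0
      have h1 : (y : ℂ) * (v t - u t) = 0 := by
        have h2 : u t + (y : ℂ) * (v t - u t) = u t + 0 := by rw [add_zero]; exact h0
        exact add_left_cancel h2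
      rcases mul_eq_zero.1 h1 with h2 | h2
      · have h3 : y = 0 := by exact_mod_cast h2
        linarith
      · exact hne h2
    have hyv : g y ≠ v t := by
      intro h0
      have h1 : ((y - 1 : ℝ) : ℂ) * (v t - u t) = 0 := by
        have h2 : u t + (y : ℂ) * (v t - u t) = v t := h0
        push_cast
        linear_combination h2
      rcases mul_eq_zero.1 h1 with h2 | h2
      · have h3 : y - 1 = 0 := by exact_mod_cast h2
        linarith
      · exact hne h2
    obtain ⟨m, s, hs, hloc⟩ := seg_local hc ht hyseg hyu hyv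
      (fun z hz hzF hq => hyb ⟨hyseg, Or.inl ⟨z, hz, hzF, hq⟩⟩)
      (fun t' ht' hne' hq => hyb ⟨hyseg, Or.inr ⟨t', ht', hne', hq⟩⟩)
    have him : ((g y - u t) * conj (v t - u t)).im = 0 := by
      have h1 : (g y - u t) * conj (v t - u t) =
          ((y * Complex.normSq (v t - u t) : ℝ) : ℂ) := by
        rw [hg]
        simp only
        push_cast
        rw [← Complex.mul_conj]
        ring
      rw [h1, Complex.ofReal_im]
    refine ⟨g y, hyV, m, ?_, ?_⟩
    · rw [frequently_iff]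
      intro U hU
      obtain ⟨l', hl', x, hx, him'⟩ := nyx_side hne him
        (Filter.inter_mem hU (ball_mem_nhds _ hs)) 1
      exact ⟨l', hl'.1, (hloc l' hl'.2).1 (by rw [him', one_mul]; exact hx)⟩
    · rw [frequently_iff]
      intro U hU
      obtain ⟨l', hl', x, hx, him'⟩ := nyx_side hne him
        (Filter.inter_mem hU (ball_mem_nhds _ hs)) (-1)
      exact ⟨l', hl'.1, (hloc l' hl'.2).2 (by rw [him']; linarith)⟩

/-- The points with a positive number. -/
private def Up (phi : ℂ → ℂ) : Set ℂ := {l | ∃ n : ℤ, 0 < n ∧ Ix phi l n}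

/-- The points with a negative number. -/
private def Um (phi : ℂ → ℂ) : Set ℂ := {l | ∃ n : ℤ, n < 0 ∧ Ix phi l n}

/-- A point with two sides is not in both closures. -/
private theorem nyx_not {K : Set ℂ} (hK : Dense Kᶜ) (o1 : IsOpen (Up phi)) (o2 : IsOpen (Um phi)) {q : ℂ} {m : ℤ}
    (h : Sides phi K q m) (h1 : q ∈ closure (Up phi)) (h2 : q ∈ closure (Um phi)) : False := by
  obtain ⟨A, B, -, -, hA, hB, -, -, hev⟩ := h
  obtain ⟨V, hV, hVo, hqV⟩ := _root_.eventually_nhds_iff.1 hev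
  have key : ∀ U : Set ℂ, IsOpen U → q ∈ closure U → ∃ l ∈ U, Ix phi l (m + 1) ∨ Ix phi l m := by
    intro U hU hq
    have h3 : (V ∩ U).Nonempty := mem_closure_iff.1 hq V hVo hqV
    obtain ⟨l, ⟨hlV, hlU⟩, hlK⟩ := hK.inter_open_nonempty _ (hVo.inter hU) h3
    rcases hV l hlV hlK with h4 | h4
    · exact ⟨l, hlU, Or.inl (hA l h4)⟩
    · exact ⟨l, hlU, Or.inr (hB l h4)⟩
  obtain ⟨l, ⟨n, hn, hl⟩, h3⟩ := key _ o1 h1
  obtain ⟨l', ⟨n', hn', hl'⟩, h4⟩ := key _ o2 h2
  have h5 : 0 ≤ m := by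
    rcases h3 with h3 | h3
    · have := hl.unique h3
      omega
    · have := hl.unique h3
      omega
  rcases h4 with h4 | h4
  · have := hl'.unique h4
    omega
  · have := hl'.unique h4
    omega

theorem nx_neg {phi : ℂ → ℂ} {F : Finset ℂ} {u v : ℂ → ℂ} (h : XCross phi F u v) {l l' : ℂ}
    {n n' : ℤ} (hl : Wj phi F l n) (hn : n < 0) (hl' : Wj phi F l' n') (hn' : 0 < n') :
    ¬ BIR H2 (IsToeplitz phi) := by
  have hcv := h.toPwC.cv
  have hr : RegC phi F u v := h.toRegC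
  have hb := memLp_cv hcv
  set K := Gam phi F u v with hKdef
  have hKd : Dense Kᶜ := gam_dense hcv
  have hoff : ∀ l ∉ K, ∃ n : ℤ, Ix phi l n := fun l hl => by
    obtain ⟨n, hn⟩ := exists_wj hcv hl
    exact ⟨n, wj_ix hcv hn⟩
  have o1 : IsOpen (Up phi) := by
    rw [isOpen_iff_mem_nhds]
    rintro w ⟨k, hk, hw⟩
    filter_upwards [hw.nhds hb] with w' hw'
    exact ⟨k, hk, hw'⟩
  have o2 : IsOpen (Um phi) := by
    rw [isOpen_iff_mem_nhds]
    rintro w ⟨k, hk, hw⟩
    filter_upwards [hw.nhds hb] with w' hw'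
    exact ⟨k, hk, hw'⟩
  have n1 : (Up phi).Nonempty := ⟨l', n', hn', wj_ix hcv hl'⟩
  have n2 : (Um phi).Nonempty := ⟨l, n, hn, wj_ix hcv hl⟩
  -- points of an open set near a point of its closure, off the curve
  have hfr : ∀ U : Set ℂ, IsOpen U → ∀ q ∈ closure U, ∀ V : Set ℂ, IsOpen V → q ∈ V →
      ∃ l ∈ U, l ∈ V ∧ l ∉ K := by
    intro U hU q hcl V hV hV1
    have h3 : (V ∩ U).Nonempty := mem_closure_iff.1 hcl V hV hV1
    obtain ⟨l, ⟨hlV, hlU⟩, hlK⟩ := hKd.inter_open_nonempty _ (hV.inter hU) h3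
    exact ⟨l, hlU, hlV, hlK⟩
  have hneg : ∀ q ∈ closure (Um phi), ∃ᶠ l in 𝓝 q, ∃ n, n < 0 ∧ Wj phi F l n := by
    intro q hq
    rw [Filter.frequently_iff]
    intro V hV
    obtain ⟨V', hV'V, hV'o, hV'1⟩ := _root_.mem_nhds_iff.1 hV
    obtain ⟨l, ⟨k, hk, hl⟩, hlV, hlK⟩ := hfr _ o2 q hq V' hV'o hV'1
    obtain ⟨m, hm⟩ := exists_wj hcv hlK
    have h3 := (wj_ix hcv hm).unique hl
    exact ⟨l, hV'V hlV, m, by omega, hm⟩
  have hpos : ∀ q ∈ closure (Up phi), ∃ᶠ l in 𝓝 q, ∃ n, 0 < n ∧ Wj phi F l n := by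
    intro q hq
    rw [Filter.frequently_iff]
    intro V hV
    obtain ⟨V', hV'V, hV'o, hV'1⟩ := _root_.mem_nhds_iff.1 hV
    obtain ⟨l, ⟨k, hk, hl⟩, hlV, hlK⟩ := hfr _ o1 q hq V' hV'o hV'1
    obtain ⟨m, hm⟩ := exists_wj hcv hlK
    have h3 := (wj_ix hcv hm).unique hl
    exact ⟨l, hV'V hlV, m, by omega, hm⟩
  -- the curve is in the closure
  have hKcl : K ⊆ closure (Up phi ∪ Um phi) := by
    intro q hq
    rw [_root_.mem_closure_iff]
    intro V hVo hqV
    obtain ⟨q', hq', m, h1, h2⟩ := nyx_gam hr hq (hVo.mem_nhds hqV)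
    obtain ⟨l1, h3, h4⟩ := (h1.and_eventually (hVo.mem_nhds hq')).exists
    obtain ⟨l2, h5, h6⟩ := (h2.and_eventually (hVo.mem_nhds hq')).exists
    rcases lt_trichotomy m 0 with hm | hm | hm
    · exact ⟨l2, h6, Or.inr ⟨m, hm, h5⟩⟩
    · exact ⟨l1, h4, Or.inl ⟨m + 1, by omega, h3⟩⟩
    · exact ⟨l2, h6, Or.inl ⟨m, hm, h5⟩⟩
  have hsub : Spec phi ⊆ closure (Up phi) ∪ closure (Um phi) := by
    intro q hq
    rw [← closure_union]
    by_cases hqK : q ∈ K
    · exact hKcl hqK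
    · obtain ⟨k, hk⟩ := hoff q hqK
      rw [spec_ix hb] at hq
      refine subset_closure ?_
      rcases lt_trichotomy k 0 with h0 | h0 | h0
      · exact Or.inr ⟨k, h0, hk⟩
      · rw [h0] at hk
        exact (hq hk).elim
      · exact Or.inl ⟨k, h0, hk⟩
  have hS1 : Up phi ⊆ Spec phi := by
    rintro q ⟨k, hk, hq⟩
    rw [spec_ix hb]
    intro h0
    have := hq.unique h0
    omega
  have hS2 : Um phi ⊆ Spec phi := by
    rintro q ⟨k, hk, hq⟩
    rw [spec_ix hb]
    intro h0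
    have := hq.unique h0
    omega
  -- the common points
  have hQ : ∀ q ∈ closure (Up phi) ∩ closure (Um phi), q ∈ phi '' PP phi F ∧
      ∀ t ∈ F, q ∉ segment ℝ (u t) (v t) := by
    rintro q ⟨hq1, hq2⟩
    have hseg : ∀ t ∈ F, q ∉ segment ℝ (u t) (v t) := by
      intro t ht hqt
      rcases h.seg t ht q hqt with hS | ⟨-, hS | hS⟩
      · obtain ⟨m, hm⟩ := seg_sides hr ht hqt hS
        exact nyx_not hKd o1 o2 hm hq1 hq2
      · obtain ⟨l, ⟨n, hn0, hln⟩, h3⟩ := ((hneg q hq2).and_eventually hS).exists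
        have h4 := h3 n hln
        omega
      · obtain ⟨l, ⟨n, hn0, hln⟩, h3⟩ := ((hpos q hq1).and_eventually hS).exists
        have h4 := h3 n hln
        omega
    refine ⟨?_, hseg⟩
    by_cases hqK : q ∈ K
    · rcases hqK with ⟨z, ⟨hz, hzF⟩, rfl⟩ | hq
      · by_cases hzN : z ∈ PP phi F
        · exact ⟨z, hzN, rfl⟩
        · obtain ⟨x, hx⟩ := nyx_sm hr hz hzF hzN hseg
          exact (nyx_not hKd o1 o2 hx hq1 hq2).elim
      · rw [mem_iUnion₂] at hq
        obtain ⟨t, ht, hqt⟩ := hq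
        exact (hseg t ht hqt).elim
    · obtain ⟨k, hk⟩ := hoff q hqK
      obtain ⟨V, hV, hVo, hqV⟩ := _root_.eventually_nhds_iff.1 (hk.nhds hb)
      obtain ⟨w, hwV, ⟨i, hi, hw⟩⟩ := mem_closure_iff.1 hq1 V hVo hqV
      obtain ⟨w', hwV', ⟨j, hj, hw'⟩⟩ := mem_closure_iff.1 hq2 V hVo hqV
      have h1 := hw.unique (hV w hwV)
      have h2 := hw'.unique (hV w' hwV')
      omega
  have hfin : (closure (Up phi) ∩ closure (Um phi)).Finite :=
    ((rg_nn hr).image phi).subset fun q hq => (hQ q hq).1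
  have hne : ∀ U : Set ℂ, IsOpen U → U.Nonempty → U ⊆ Spec phi →
      ((Spec phi \ (closure (Up phi) ∩ closure (Um phi))) ∩ closure U).Nonempty := by
    intro U o n hUO
    obtain ⟨w, hw, hwQ⟩ := nyx_nonempty o n hfin
    exact ⟨w, ⟨hUO hw, hwQ⟩, subset_closure hw⟩
  refine main_discN hb hfin (fun q hq => ?_) ?_
  · obtain ⟨hq1, hq2⟩ := hq
    obtain ⟨⟨z1, ⟨hz1, hz1F, z2, hz2, hz2F, h12, hne12⟩, hz1q⟩, hseg⟩ := hQ q ⟨hq1, hq2⟩
    subst hz1q
    rcases h.mult z1 hz1 hz1F z2 hz2 hz2F (fun h3 => hne12 h3.symm) h12.symm with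
      ⟨hDt, hDp⟩ | ⟨w, hw⟩ | ⟨k, x, hNj, -⟩
    · have hD := hDp (hneg _ hq2) (hpos _ hq1)
      obtain ⟨x, g1, g2, hDb⟩ := db_of h.toPwC hD.toDt hseg
      obtain ⟨V, hV, hVo, hqV⟩ := _root_.eventually_nhds_iff.1 (db_ix hb hDb)
      have hnum : ∀ l ∈ V, l ∉ K → ∀ m : ℤ, Ix phi l m → x ≤ m ∧ m ≤ x + 2 := by
        intro l hlV hlK m hm
        have h3 := (hV l hlV hlK).unique hm
        split_ifs at h3 <;> constructor <;> omega
      obtain ⟨l1, ⟨k1, hk1, hl1⟩, hlV1, hlK1⟩ := hfr _ o2 _ hq2 V hVo hqV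
      obtain ⟨l2, ⟨k2, hk2, hl2⟩, hlV2, hlK2⟩ := hfr _ o1 _ hq1 V hVo hqV
      have h3 := hnum l1 hlV1 hlK1 k1 hl1
      have h4 := hnum l2 hlV2 hlK2 k2 hl2
      have hx : x = -1 := by omega
      subst hx
      exact lq_dp h.toPwC hD hseg hDb
    · obtain ⟨x, hx⟩ := exists_iq hcv hseg fun z hz hzF hzq => by
        obtain ⟨h3, h4⟩ := hw z hz hzF hzq
        refine ⟨h3, fun h5 => ?_⟩
        rw [h5, mul_zero, mul_zero, mul_zero, Complex.zero_re] at h4
        exact lt_irrefl _ h4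
      exact lq_reg hb (reg1_of_iq hb hx)
    · exact lq_reg hb (reg1_of_iq hb (hNj.iq hcv))
  · intro hpre
    rw [isPreconnected_closed_iff] at hpre
    obtain ⟨y, hy, hy'⟩ := hpre (closure (Up phi)) (closure (Um phi)) isClosed_closure
      isClosed_closure (sdiff_subset.trans hsub) (hne _ o1 n1 hS1) (hne _ o2 n2 hS2)
    exact hy.2 hy'

end Pool.Agent.TBirX
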