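import Pool.Agent.TBirX.Ry
import Pool.Agent.TBirX.Dsb
import Pool.Agent.TBirX.Dss
import Pool.Agent.TBirX.Gs
import Pool.Agent.TBirX.Lk
import Pool.Agent.TBirX.Ch
import Pool.Agent.TBirX.My
import Pool.Agent.TBirX.Ny
import Pool.Agent.TBirX.Ay
import Pool.Agent.TBirN.Fn

/-!
# The criterion

`xc_dat`: `Dk` is `rg_dk`. `sim`: points without partner, not on a segment (`sides_reg`; finitely many exceptions: `rg_nn`, `RegC.cross`). `lc`: `t` not in `F`, with a partner: `phi t` is not on a segment (`seg`, `only`), as in TBirN/Fn.lean (`lc_dbl`, `lc_iq`); without partner, not on a segment: `lc_link`; on the segment of `t0`: `Xb phi F u v t0 t (phi t)`, `xd_sb`, `rx_of`, `cs_b`,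
`lk_of`, `lk_lc`. `t` in `F`: `seg_lc`, the ends satisfy `Sn` because `Xb`, `Xs` exclude them. `cov`: values of simple points (`lj_self`), points of segments with `Sn` (`seg_lc`); the exceptions are finitely many. `xc_main` as `nc_main`. `nc_xc`: the class `NCross` is contained in `XCross`.
-/

set_option autoImplicit false

open MeasureTheory Complex Set Filter Topology Metric AddCircle
open scoped ComplexConjugate InnerProductSpace ENNReal

namespace Pool.Agent.TBirX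

open Pool.Agent.TBir Pool.Agent.TBirG Pool.Agent.TBirC Pool.Agent.TBirJ Pool.Agent.TBirK
open Pool.Agent.TBirN
open Pool.Agent.TBirP (E qT)

variable {phi : ℂ → ℂ} {F : Finset ℂ} {u v : ℂ → ℂ}

/-- An analytic value at a point of `F` is the one-sided limit. -/
private theorem fy_an (h : Cv phi F u v) {z : ℂ} (hz : z ∈ F) (ha : AnalyticAt ℂ phi z) :
    phi z = u z := by
  have h1 := h.lim_left z hz
  have h2 : Tendsto (fun x : ℝ => phi (z * E (-x))) (𝓝[>] 0) (𝓝 (phi z)) := by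
    have h3 : Tendsto (fun x : ℝ => z * E (-x)) (𝓝[>] 0) (𝓝 z) := by
      have h4 : Continuous fun x : ℝ => z * E (-x) := by
        unfold E
        fun_prop
      have h5 := h4.tendsto 0
      have h6 : z * E (-0) = z := by simp [E]
      rw [h6] at h5
      exact h5.mono_left nhdsWithin_le_nhds
    exact ha.continuousAt.tendsto.comp h3
  exact tendsto_nhds_unique h2 h1

private theorem fy_ix (h : Cv phi F u v) (hw : ∀ l n, Wj phi F l n → 0 ≤ n) :
    ∀ l n, Ix phi l n → 0 ≤ n := by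
  intro l n hl
  have h1 := Ix.nhds (memLp_cv h) hl
  obtain ⟨l', h2, h3⟩ := (gam_dense h).inter_nhds_nonempty h1
  obtain ⟨n', h4⟩ := exists_wj h h2
  have h3' : Ix phi l' n := h3
  rw [h3'.unique (wj_ix h h4)]
  exact hw l' n' h4

/-- The numbers of the two sides are nonnegative. -/
private theorem fy_sides {K : Set ℂ} (hnn : ∀ l n, Ix phi l n → 0 ≤ n) {q : ℂ} {m : ℤ}
    (hm : Sides phi K q m) : 0 ≤ m := by
  obtain ⟨A, B, -, -, -, hB, -, hcB, -⟩ := hm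
  obtain ⟨l, hl⟩ := closure_nonempty_iff.1 ⟨q, hcB⟩
  exact hnn l m (hB l hl)

/-- The points with a partner. -/
private def Py (phi : ℂ → ℂ) (F : Finset ℂ) : Set ℂ :=
  {z | ‖z‖ = 1 ∧ z ∉ F ∧ ∃ z' : ℂ, ‖z'‖ = 1 ∧ z' ∉ F ∧ phi z' = phi z ∧ z' ≠ z}

/-- The points whose values are on a segment. -/
private def Qy (phi : ℂ → ℂ) (F : Finset ℂ) (u v : ℂ → ℂ) : Set ℂ :=
  {z | ‖z‖ = 1 ∧ z ∉ F ∧ ∃ t ∈ F, phi z ∈ segment ℝ (u t) (v t)}

private theorem fy_mult (h : XCross phi F u v) : (Py phi F).Finite := by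
  refine (rg_nn h.toRegC).subset ?_
  rintro z ⟨hz, hzF, z', hz', hz'F, he, hne⟩
  exact ⟨mem_sphere_zero_iff_norm.2 hz, hzF, z', mem_sphere_zero_iff_norm.2 hz', hz'F, he, hne⟩

private theorem fy_qy (h : XCross phi F u v) : (Qy phi F u v).Finite := by
  have hfin : (⋃ t ∈ F, ⋃ b ∈ {q : ℂ | q ∈ segment ℝ (u t) (v t) ∧
      ((∃ z ∈ sphere (0 : ℂ) 1, z ∉ F ∧ phi z = q) ∨
        ∃ t' ∈ F, t' ≠ t ∧ q ∈ segment ℝ (u t') (v t'))},
      {z : ℂ | z ∈ sphere (0 : ℂ) 1 ∧ z ∉ F ∧ phi z = b}).Finite :=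
    F.finite_toSet.biUnion fun t ht => (h.cross t ht).biUnion fun b _ =>
      cv_level h.toRegC.toPwC.cv b
  refine hfin.subset ?_
  rintro z ⟨hz, hzF, t, ht, hs⟩
  have hzs : z ∈ sphere (0 : ℂ) 1 := mem_sphere_zero_iff_norm.2 hz
  exact mem_iUnion₂.2 ⟨t, ht, mem_iUnion₂.2 ⟨phi z, ⟨hs, Or.inl ⟨z, hzs, hzF, rfl⟩⟩, hzs, hzF, rfl⟩⟩

private theorem fy_alone {z : ℂ} (hz : ‖z‖ = 1) (hzF : z ∉ F) (hP : z ∉ Py phi F) :
    ∀ z' : ℂ, ‖z'‖ = 1 → z' ∉ F → phi z' = phi z → z' = z := by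
  intro z' hz' hz'F he
  by_contra hne
  exact hP ⟨hz, hzF, z', hz', hz'F, he, hne⟩

/-- The link at a point without partner, not on a segment. -/
private theorem fy_reg (h : XCross phi F u v) (hnn : ∀ l n, Ix phi l n → 0 ≤ n) {z : ℂ}
    (hz : ‖z‖ = 1) (hzF : z ∉ F) (hP : z ∉ Py phi F)
    (hs : ∀ t ∈ F, phi z ∉ segment ℝ (u t) (v t)) :
    LinkOn phi (Gam phi F u v) z {phi z} (phi z) (phi z) := by
  have hzsph : z ∈ sphere (0 : ℂ) 1 := mem_sphere_zero_iff_norm.2 hz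
  have hFc : ∀ᶠ z1 in 𝓝 z, z1 ∉ F :=
    F.finite_toSet.isClosed.isOpen_compl.eventually_mem (show z ∈ (F : Set ℂ)ᶜ from hzF)
  have hPc : ∀ᶠ z1 in 𝓝 z, z1 ∉ Py phi F :=
    (fy_mult h).isClosed.isOpen_compl.eventually_mem (show z ∈ (Py phi F)ᶜ from hP)
  refine ⟨isPreconnected_singleton, rfl, rfl, fun q hq => ?_, fun eps heps => ?_⟩
  · rw [mem_singleton_iff.1 hq]
    obtain ⟨m, hm⟩ := sides_reg h.toRegC.toPwC hz hzF hs (fy_alone hz hzF hP) (by
        filter_upwards [hPc] with z1 h1 h2 h3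
        exact fy_alone h2 h3 h1)
    exact ⟨m, fy_sides hnn hm, hm⟩
  · have h1 := (h.toRegC.toPwC.cv.cont z ⟨hzsph, hzF⟩).eventually (ball_mem_nhds _ heps)
    rw [eventually_nhdsWithin_iff] at h1
    obtain ⟨s, hs, h2⟩ := Metric.eventually_nhds_iff_ball.1 (h1.and hFc)
    refine ⟨s, hs, fun z1 hz1 hz1n _ => Or.inl ?_⟩
    obtain ⟨h3, h4⟩ := h2 z1 hz1
    exact h3 ⟨mem_sphere_zero_iff_norm.2 hz1n, h4⟩

private theorem fy_closed (a b : ℂ) : IsClosed (segment ℝ a b) := by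
  have h1 : IsCompact (segment ℝ a b) := by
    rw [segment_eq_image']
    exact isCompact_Icc.image (by fun_prop)
  exact h1.isClosed

private theorem fy_seg {q : ℂ} (hq : ∀ t ∈ F, q ∉ segment ℝ (u t) (v t)) :
    ∀ᶠ q' in 𝓝 q, ∀ t ∈ F, q' ∉ segment ℝ (u t) (v t) := by
  rw [Filter.eventually_all_finset]
  intro t ht
  exact (fy_closed _ _).isOpen_compl.eventually_mem (hq t ht)

/-- The value at a point with a partner is not on a segment. -/
private theorem fy_sep (h : XCross phi F u v) {t : ℂ} (hP : t ∈ Py phi F) :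
    ∀ t' ∈ F, phi t ∉ segment ℝ (u t') (v t') := by
  intro t' ht' hs
  obtain ⟨ht, htF, z', hz', hz'F, he, hne⟩ := hP
  rcases h.seg t' ht' _ hs with h1 | ⟨⟨t1, h1⟩ | ⟨t1, h1⟩, -⟩
  · exact h1.1 t ht htF rfl
  · exact hne ((h1.only z' hz' hz'F he).trans (h1.only t ht htF rfl).symm)
  · exact h1.only t ht htF rfl

/-- Analytic multiple points: the points near them are simple. -/
private theorem fy_dbl (h : XCross phi F u v) {t : ℂ} (hP : t ∈ Py phi F)
    (hder : ∀ z ∈ sphere (0 : ℂ) 1, z ∉ F → phi z = phi t →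
      AnalyticAt ℂ phi z ∧ deriv phi z ≠ 0) :
    AnalyticAt ℂ phi t ∧ ∀ᶠ z in 𝓝[≠] t, ‖z‖ = 1 → ∃ x, Sm phi z x := by
  have hsep := fy_sep h hP
  obtain ⟨ht, htF, z', hz', hz'F, he, hne⟩ := id hP
  have hts : t ∈ sphere (0 : ℂ) 1 := mem_sphere_zero_iff_norm.2 ht
  obtain ⟨ha, hd⟩ := hder t hts htF rfl
  refine ⟨ha, ?_⟩
  have h1 : ∀ᶠ z in 𝓝 t, AnalyticAt ℂ phi z := ha.eventually_analyticAt
  have h2 : ∀ᶠ z in 𝓝 t, deriv phi z ≠ 0 := ha.deriv.continuousAt.eventually_ne hd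
  have h3 : ∀ᶠ z in 𝓝 t, z ∉ F :=
    F.finite_toSet.isClosed.isOpen_compl.eventually_mem (show t ∈ (F : Set ℂ)ᶜ from htF)
  have h4 : ∀ᶠ z in 𝓝 t, z ∉ Py phi F \ {t} :=
    ((fy_mult h).subset Set.sdiff_subset).isClosed.isOpen_compl.eventually_mem
      (show t ∈ (Py phi F \ {t})ᶜ from fun h5 => h5.2 rfl)
  have h5 : ∀ᶠ z in 𝓝 t, ∀ t' ∈ F, phi z ∉ segment ℝ (u t') (v t') :=
    ha.continuousAt.tendsto.eventually (fy_seg hsep)
  rw [eventually_nhdsWithin_iff]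
  filter_upwards [h1, h2, h3, h4, h5] with z g1 g2 g3 g4 g9 g5 g6
  have g7 : z ∉ Py phi F := fun g8 => g4 ⟨g8, g5⟩
  exact exists_sm h.toRegC.toPwC.cv g6 g3 g1 g2 g9 (fy_alone g6 g3 g7)

/-- Analytic multiple points in a half plane. -/
private theorem fy_half (h : XCross phi F u v) (hnn : ∀ l n, Ix phi l n → 0 ≤ n) {t w : ℂ}
    (hP : t ∈ Py phi F) (hw : ∀ z ∈ sphere (0 : ℂ) 1, z ∉ F → phi z = phi t →
      AnalyticAt ℂ phi z ∧ 0 < (conj w * (I * (z * deriv phi z))).re) :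
    (∀ z ∈ sphere (0 : ℂ) 1, z ∉ F → phi z = phi t → AnalyticAt ℂ phi z ∧ deriv phi z ≠ 0) ∧
      ∃ x, 0 ≤ x ∧ Iq phi (phi t) x := by
  have hsep := fy_sep h hP
  have hder : ∀ z ∈ sphere (0 : ℂ) 1, z ∉ F → phi z = phi t →
      AnalyticAt ℂ phi z ∧ deriv phi z ≠ 0 := by
    intro z hz hzF hzq
    obtain ⟨h1, h2⟩ := hw z hz hzF hzq
    refine ⟨h1, fun h0 => ?_⟩
    rw [h0, mul_zero, mul_zero, mul_zero, zero_re] at h2
    exact lt_irrefl _ h2
  refine ⟨hder, ?_⟩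
  obtain ⟨x, hI⟩ := exists_iq h.toRegC.toPwC.cv hsep hder
  refine ⟨x, ?_, hI⟩
  obtain ⟨l, hl⟩ := (iq_half (memLp_cv h.toRegC.toPwC.cv) hI (w := w) (by
    intro z hz haz hzq
    have hzF : z ∉ F := by
      intro hzF
      apply hsep z hzF
      rw [← hzq, fy_an h.toRegC.toPwC.cv hzF haz]
      exact left_mem_segment ℝ _ _
    exact (hw z (mem_sphere_zero_iff_norm.2 hz) hzF hzq).2)).exists
  exact hnn l x hl

/-- The statements at the points of `F`. -/
private theorem fy_jump (h : XCross phi F u v) (D : Dk phi (Gam phi F u v)) {t : ℂ} (ht : t ∈ F) :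
    Lc phi (Gam phi F u v) t ∧ ∀ q ∈ segment ℝ (u t) (v t), Sn phi F u v t q →
      Lj phi (Gam phi F u v) t q := by
  refine seg_lc D h.toRegC ht ?_ ?_ ?_
  · rcases h.seg t ht _ (left_mem_segment ℝ (u t) (v t)) with h1 | ⟨⟨t1, h1⟩ | ⟨t1, h1⟩, -⟩
    · exact h1
    · exact absurd rfl h1.nu
    · exact absurd rfl h1.nu0
  · rcases h.seg t ht _ (right_mem_segment ℝ (u t) (v t)) with h1 | ⟨⟨t1, h1⟩ | ⟨t1, h1⟩, -⟩
    · exact h1
    · exact absurd rfl h1.nv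
    · exact absurd rfl h1.nv0
  · intro q hq hS
    rcases h.seg t ht q hq with h1 | ⟨⟨t1, h1⟩ | ⟨t1, h1⟩, -⟩
    · exact absurd h1 hS
    · obtain ⟨x, g, ell, C, hX⟩ := xd_sb h.toRegC.toPwC h1
      obtain ⟨r, -, hC⟩ := cs_b h.toRegC.toPwC h1
      exact (lk_of D (rx_of D hX) hC).1
    · obtain ⟨x, ell, C, hX⟩ := xd_ss h.toRegC.toPwC h1
      exact (lk_of D (rx_of D hX) (cs_s h.toRegC.toPwC h1)).1

/-- The jumps are constant near every point of the circle. -/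
private theorem fy_lc (h : XCross phi F u v) (hw : ∀ l n, Wj phi F l n → 0 ≤ n)
    (D : Dk phi (Gam phi F u v)) {t : ℂ} (ht : ‖t‖ = 1) : Lc phi (Gam phi F u v) t := by
  have hc := h.toRegC.toPwC.cv
  have hnn := fy_ix hc hw
  by_cases htF : t ∈ F
  · exact (fy_jump h D htF).1
  · by_cases htP : t ∈ Py phi F
    · have hsep := fy_sep h htP
      obtain ⟨-, -, z', hz', hz'F, he, hne⟩ := id htP
      have hts : t ∈ sphere (0 : ℂ) 1 := mem_sphere_zero_iff_norm.2 ht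
      rcases h.mult t hts htF z' (mem_sphere_zero_iff_norm.2 hz') hz'F hne.symm he.symm with
        ⟨hd, -⟩ | ⟨w, hw'⟩ | ⟨k, x, hN, hx, -⟩
      · obtain ⟨x, g1, g2, hD⟩ := db_of h.toRegC.toPwC hd hsep
        exact (lc_dbl D hD (cr_of h.toRegC.toPwC hd hsep)).1
      · obtain ⟨hder, x, hx, hI⟩ := fy_half h hnn htP hw'
        obtain ⟨ha, hn⟩ := fy_dbl h htP hder
        exact lc_iq D ht ha hx hI hn
      · obtain ⟨ha, hn⟩ := fy_dbl h htP fun z hz hzF hzq => hN.reg hz hzF hzq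
        exact lc_iq D ht ha (hx (Eventually.of_forall fun l n hn' => hw l n hn')) (hN.iq hc) hn
    · by_cases hs : ∃ t0 ∈ F, phi t ∈ segment ℝ (u t0) (v t0)
      · obtain ⟨t0, ht0, hs⟩ := hs
        rcases h.seg t0 ht0 _ hs with h1 | ⟨⟨t1, h1⟩ | ⟨t1, h1⟩, -⟩
        · exact absurd rfl (h1.1 t ht htF)
        · obtain rfl : t = t1 := h1.only t ht htF rfl
          obtain ⟨x, g, ell, C, hX⟩ := xd_sb h.toRegC.toPwC h1
          obtain ⟨r, hr, hC⟩ := cs_b h.toRegC.toPwC h1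
          have hFc : ∀ᶠ z1 in 𝓝 t, z1 ∉ F :=
            F.finite_toSet.isClosed.isOpen_compl.eventually_mem (show t ∈ (F : Set ℂ)ᶜ from htF)
          refine lk_lc h.toRegC.toPwC ht htF ?_ hr (lk_of D (rx_of D hX) hC).2
          rw [eventually_nhdsWithin_iff]
          filter_upwards [hFc] with z g1 g2 g3 g4
          exact g2 (fy_alone ht htF htP z g3 g1 g4)
        · exact absurd rfl (h1.only t ht htF)
      · push Not at hs
        exact lc_link D (fy_reg h hnn ht htF htP hs)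

theorem xc_dat (h : XCross phi F u v) (hw : ∀ l n, Wj phi F l n → 0 ≤ n) :
    Cy phi (Gam phi F u v) := by
  have hnn := fy_ix h.toRegC.toPwC.cv hw
  have hD := rg_dk h.toRegC hw
  have hsim : {z : ℂ | ‖z‖ = 1 ∧
      ¬ LinkOn phi (Gam phi F u v) z {phi z} (phi z) (phi z)}.Finite := by
    refine ((F.finite_toSet.union (fy_mult h)).union (fy_qy h)).subset ?_
    rintro z ⟨hz, hzl⟩
    by_contra hcon
    rw [mem_union, mem_union, not_or, not_or] at hcon
    obtain ⟨⟨h1, h2⟩, h3⟩ := hcon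
    exact hzl (fy_reg h hnn hz h1 h2 fun t ht hs => h3 ⟨hz, h1, t, ht, hs⟩)
  refine
    { toDk := hD
      sim := hsim
      lc := fun t ht => fy_lc h hw hD ht
      cov := ?_ }
  have hfin : (phi '' Py phi F ∪ ⋃ t ∈ F, {q : ℂ | q ∈ segment ℝ (u t) (v t) ∧
      ((∃ z ∈ sphere (0 : ℂ) 1, z ∉ F ∧ phi z = q) ∨
        ∃ t' ∈ F, t' ≠ t ∧ q ∈ segment ℝ (u t') (v t'))}).Finite :=
    ((fy_mult h).image phi).union (F.finite_toSet.biUnion fun t ht => h.cross t ht)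
  refine hfin.subset ?_
  rintro q ⟨hqK, hq2⟩
  by_cases hs : ∃ t ∈ F, q ∈ segment ℝ (u t) (v t)
  · right
    obtain ⟨t, ht, hs⟩ := hs
    refine mem_iUnion₂.2 ⟨t, ht, hs, ?_⟩
    by_contra hcon
    push Not at hcon
    refine hq2 ⟨t, h.toRegC.toPwC.cv.circ t ht, (fy_jump h hD ht).2 q hs ⟨?_, ?_⟩⟩
    · intro z hz hzF
      exact hcon.1 z (mem_sphere_zero_iff_norm.2 hz) hzF
    · intro t' ht' hne
      exact hcon.2 t' ht' hne
  · left
    push Not at hs
    rcases hqK with ⟨z, ⟨hz, hzF⟩, rfl⟩ | hqK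
    · have hzn : ‖z‖ = 1 := mem_sphere_zero_iff_norm.1 hz
      have hzF' : z ∉ F := hzF
      by_cases hzP : z ∈ Py phi F
      · exact ⟨z, hzP, rfl⟩
      · exact absurd ⟨z, hzn, lj_self hD hsim hzn (fy_reg h hnn hzn hzF' hzP hs)⟩ hq2
    · exfalso
      obtain ⟨t, ht, hqs⟩ := mem_iUnion₂.1 hqK
      exact hs t ht hqs

theorem xc_main (h : XCross phi F u v) : (∀ f ∈ H2, ∃! g, IsToeplitz phi f g) ∧
    (BIR H2 (IsToeplitz phi) ↔
      ¬ ∃ (l l' : ℂ) (n n' : ℤ), Wj phi F l n ∧ Wj phi F l' n' ∧ n < 0 ∧ 0 < n') := by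
  have hb := memLp_cv h.toRegC.toPwC.cv
  refine ⟨exists_unique_TM hb, ?_, ?_⟩
  · rintro hB ⟨l, l', n, n', hl, hl', hn, hn'⟩
    exact nx_neg h hl hn hl' hn' hB
  · intro hno
    rw [bir_iff_TM hb]
    change CompletelyIrreducible (Tp phi)
    by_cases hw : ∀ l n, Wj phi F l n → 0 ≤ n
    · exact main_datY (xc_dat h hw)
    · push Not at hw
      obtain ⟨l, n, hl, hn⟩ := hw
      rw [← ci_pstar hb]
      refine main_datY (xc_dat h.pstar fun l' n' h' => ?_)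
      by_contra hc
      push Not at hc
      rw [show l' = conj (conj l') from (Complex.conj_conj l').symm, wj_pstar_iff] at h'
      exact hno ⟨l, conj l', n, -n', hl, h', hn, by omega⟩

theorem nc_xc (h : NCross phi F u v) : XCross phi F u v := by
  refine
    { toPwC := h.toBCross.toPwC
      inj := h.inj
      cross := ?_
      seg := ?_
      mult := h.mult }
  · intro t ht
    convert Set.finite_empty (α := ℂ)
    rw [Set.eq_empty_iff_forall_notMem]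
    rintro q ⟨hq, ⟨z, hz, hzF, rfl⟩ | ⟨t', ht', hne, hq'⟩⟩
    · exact h.sep t ht z hz hzF hq
    · exact Set.disjoint_left.1 (h.toBCross.seg t ht t' ht' hne.symm) hq hq'
  · intro t ht q hq
    left
    refine ⟨fun z hz hzF he => ?_, fun t' ht' hne hq' => ?_⟩
    · apply h.sep t ht z (mem_sphere_zero_iff_norm.2 hz) hzF
      rw [he]
      exact hq
    · exact Set.disjoint_left.1 (h.toBCross.seg t ht t' ht' hne.symm) hq hq'

end Pool.Agent.TBirX
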