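import Pool.Agent.TBirX.Pb
import Pool.Agent.TBirK.Cvk

/-!
# The symbol without its jump

`J l z = (phi z - l) / eta`, `eta = (- conj t z) ^ bet`, `bet = bet (u t) (v t) l`, `Jl = (v t - l) * exp (I pi bet) = (u t - l) * exp (- I pi bet)` (`bet_exp`). For `z = t * E y`, `0 < y < 2 pi`: `- conj t z = E (y - pi)`, `eta = exp (I bet (y - pi))` (Lipschitz in `y`, uniformly in `l`); `phi (t * E y) - v t` is at most `K y` (`Cv.lip`, `lim_right`),
the same on the left (`y` near `2 pi`). `jb_uni`: `bet` is continuous at `q`.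
-/

set_option autoImplicit false

open MeasureTheory Complex Set Filter Topology Metric AddCircle
open scoped ComplexConjugate InnerProductSpace ENNReal

namespace Pool.Agent.TBirX

open Pool.Agent.TBir Pool.Agent.TBirG Pool.Agent.TBirC Pool.Agent.TBirJ Pool.Agent.TBirK
open Pool.Agent.TBirN
open Pool.Agent.TBirP (E qT)

variable {phi : ℂ → ℂ} {F : Finset ℂ} {u v : ℂ → ℂ} {t q : ℂ}

/-- The symbol without its jump at `t`. -/
noncomputable def Jq (phi : ℂ → ℂ) (u v : ℂ → ℂ) (t l z : ℂ) : ℂ :=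
  (phi z - l) / (-(conj t * z)) ^ bet (u t) (v t) l

/-- The value at `t`. -/
noncomputable def Jv (u v : ℂ → ℂ) (t l : ℂ) : ℂ := (v t - l) * exp (I * Real.pi * bet (u t) (v t) l)

private theorem jb_E_norm (x : ℝ) : ‖E x‖ = 1 := by
  unfold E
  exact Complex.norm_exp_ofReal_mul_I x

private theorem jb_E_cont : Continuous E := by
  unfold E
  fun_prop

private theorem jb_E_zero : E 0 = 1 := by
  unfold E
  simp

private theorem jb_E_add (x y : ℝ) : E (x + y) = E x * E y := by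
  unfold E
  rw [← Complex.exp_add]
  push_cast
  rw [add_mul]

private theorem jb_E_pi : E Real.pi = -1 := by
  unfold E
  exact Complex.exp_pi_mul_I

private theorem jb_E_sub {y : ℝ} (hy : |y| ≤ Real.pi) : 2 / Real.pi * |y| ≤ ‖E y - 1‖ := by
  have h1 : ‖E y - 1‖ = ‖2 * Real.sin (y / 2)‖ := by
    rw [← Complex.norm_exp_I_mul_ofReal_sub_one]
    unfold E
    rw [mul_comm]
  have h2 : |y / 2| ≤ Real.pi / 2 := by
    rw [abs_div, abs_of_pos (by norm_num : (0 : ℝ) < 2)]
    linarith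
  have h3 := Real.mul_abs_le_abs_sin h2
  rw [h1, Real.norm_eq_abs, abs_mul, abs_of_pos (by norm_num : (0 : ℝ) < 2)]
  rw [abs_div, abs_of_pos (by norm_num : (0 : ℝ) < 2)] at h3
  linarith

private theorem jb_conj (ht : ‖t‖ = 1) : t * conj t = 1 := by
  rw [Complex.mul_conj, Complex.normSq_eq_norm_sq, ht]
  norm_num

private theorem jb_arg {z : ℂ} (ht : ‖t‖ = 1) (hz : ‖z‖ = 1) : z = t * E (arg (conj t * z)) := by
  have h1 : ‖conj t * z‖ = 1 := by rw [norm_mul, RCLike.norm_conj, ht, hz, one_mul]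
  have h2 := Complex.norm_mul_exp_arg_mul_I (conj t * z)
  rw [h1, Complex.ofReal_one, one_mul] at h2
  unfold E
  rw [h2, ← mul_assoc, jb_conj ht, one_mul]

private theorem jb_cpow {a : ℝ} (h1 : -Real.pi < a) (h2 : a ≤ Real.pi) (b : ℂ) :
    (E a) ^ b = exp (I * a * b) := by
  unfold E
  rw [Complex.cpow_def_of_ne_zero (exp_ne_zero _),
    Complex.log_exp (by simpa using h1) (by simpa using h2)]
  congr 1
  ring

private theorem jb_rep {z : ℂ} (ht : ‖t‖ = 1) (hz : ‖z‖ = 1) (hzt : z ≠ t) :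
    ∃ y a : ℝ, z = t * E y ∧ |y| ≤ Real.pi ∧ |a| ≤ Real.pi ∧
      (∀ l, Jq phi u v t l z = (phi z - l) * exp (I * a * bet (u t) (v t) l)) ∧
      ((0 < y ∧ a = Real.pi - y) ∨ (y < 0 ∧ a = -(Real.pi + y))) := by
  have hp := Real.pi_pos
  obtain ⟨y, hy⟩ : ∃ y, y = arg (conj t * z) := ⟨_, rfl⟩
  have hz1 := jb_arg ht hz
  rw [← hy] at hz1
  have hy1 : -Real.pi < y := hy ▸ Complex.neg_pi_lt_arg _
  have hy2 : y ≤ Real.pi := hy ▸ Complex.arg_le_pi _
  have hcz : conj t * z = E y := by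
    rw [hz1, ← mul_assoc, mul_comm (conj t), jb_conj ht, one_mul]
  have key : ∀ c : ℝ, -Real.pi < c → c ≤ Real.pi → -(E y) = E c → ∀ l,
      Jq phi u v t l z = (phi z - l) * exp (I * (-c : ℝ) * bet (u t) (v t) l) := by
    intro c h1 h2 h3 l
    unfold Jq
    rw [hcz, h3, jb_cpow h1 h2, div_eq_mul_inv, ← Complex.exp_neg]
    congr 2
    push_cast
    ring
  have hy0 : y ≠ 0 := by
    intro h0
    apply hzt
    rw [hz1, h0, jb_E_zero, mul_one]
  rcases lt_or_gt_of_ne hy0 with hneg | hpos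
  · refine ⟨y, -(Real.pi + y), hz1, ?_, ?_, ?_, Or.inr ⟨hneg, rfl⟩⟩
    · rw [abs_le]
      constructor <;> linarith
    · rw [abs_le]
      constructor <;> linarith
    · refine key (Real.pi + y) (by linarith) (by linarith) ?_
      rw [jb_E_add, jb_E_pi]
      ring
  · refine ⟨y, Real.pi - y, hz1, ?_, ?_, ?_, Or.inl ⟨hpos, rfl⟩⟩
    · rw [abs_le]
      constructor <;> linarith
    · rw [abs_le]
      constructor <;> linarith
    · have h1 := key (y - Real.pi) (by linarith) (by linarith) (by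
        have h2 : E y = E (y - Real.pi) * E Real.pi := by
          rw [← jb_E_add]
          congr 1
          ring
        rw [h2, jb_E_pi]
        ring)
      intro l
      rw [h1 l]
      congr 3
      push_cast
      ring

private theorem jb_ev (ht : ‖t‖ = 1) : ∃ δ > 0, ∀ x : ℝ, x ≠ 0 → |x| < δ → t * E x ∉ F := by
  have hp := Real.pi_pos
  have h1 : (↑(F.erase t) : Set ℂ)ᶜ ∈ 𝓝 t :=
    (F.erase t).finite_toSet.isClosed.isOpen_compl.mem_nhds (by simp)
  have h2 : Tendsto (fun x : ℝ => t * E x) (𝓝 0) (𝓝 t) := by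
    have h3 : Continuous fun x : ℝ => t * E x := continuous_const.mul jb_E_cont
    have h4 := h3.tendsto 0
    rwa [jb_E_zero, mul_one] at h4
  obtain ⟨δ, hδ, hd⟩ := Metric.eventually_nhds_iff.1 (h2.eventually h1)
  refine ⟨min δ Real.pi, lt_min hδ hp, fun x hx0 hx hxF => ?_⟩
  have h5 : x ∈ {x : ℝ | t * E x ∈ (↑(F.erase t) : Set ℂ)ᶜ} := by
    refine hd ?_
    rw [Real.dist_eq, sub_zero]
    exact hx.trans_le (min_le_left _ _)
  have h6 : t * E x ≠ t := by
    intro h7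
    have ht0 : t ≠ 0 := by
      rintro rfl
      simp at ht
    have h8 : E x = 1 := mul_left_cancel₀ ht0 (h7.trans (mul_one t).symm)
    have h9 := jb_E_sub (hx.le.trans (min_le_right _ _))
    rw [h8, sub_self, norm_zero] at h9
    have h10 : 0 < |x| := abs_pos.2 hx0
    have : 0 < 2 / Real.pi * |x| := by positivity
    linarith
  exact h5 (by
    rw [Finset.mem_coe, Finset.mem_erase]
    exact ⟨h6, hxF⟩)

private theorem jb_side (h : PwC phi F u v) (ht : t ∈ F) : ∃ K : ℝ, 0 ≤ K ∧ ∃ δ > 0, ∀ y : ℝ,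
    0 < y → y < δ → ‖phi (t * E y) - v t‖ ≤ K * y ∧ ‖phi (t * E (-y)) - u t‖ ≤ K * y := by
  have ht1 := h.circ t ht
  obtain ⟨K, hK, hl⟩ := h.lip
  obtain ⟨δ, hδ, hd⟩ := jb_ev (F := F) ht1
  have hcv := h.cv
  have hth : ∀ x : ℝ, t * E x = E (arg t + x) := by
    intro x
    have h1 := Complex.norm_mul_exp_arg_mul_I t
    rw [ht1, Complex.ofReal_one, one_mul] at h1
    rw [jb_E_add]
    congr 1
    exact h1.symm
  refine ⟨K, hK, δ, hδ, fun y hy0 hy => ⟨?_, ?_⟩⟩
  · have h1 : Tendsto (fun x : ℝ => ‖phi (t * E x) - phi (t * E y)‖) (𝓝[>] 0)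
        (𝓝 ‖v t - phi (t * E y)‖) := ((hcv.lim_right t ht).sub_const _).norm
    rw [norm_sub_rev]
    refine le_of_tendsto h1 ?_
    filter_upwards [Ioo_mem_nhdsGT hy0] with x hx
    rw [hth x, hth y]
    refine (hl _ _ (by linarith [hx.2]) ?_).trans ?_
    · intro s hs
      have h2 : s = arg t + (s - arg t) := by ring
      rw [h2, ← hth]
      have h3 := hs.1
      have h4 := hs.2
      have h5 := hx.1
      refine hd _ (by linarith) ?_
      rw [abs_of_pos (by linarith)]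
      linarith
    · have h5 : |arg t + x - (arg t + y)| ≤ y := by
        rw [abs_le]
        have := hx.1
        have := hx.2
        constructor <;> linarith
      exact mul_le_mul_of_nonneg_left h5 hK
  · have h1 : Tendsto (fun x : ℝ => ‖phi (t * E (-x)) - phi (t * E (-y))‖) (𝓝[>] 0)
        (𝓝 ‖u t - phi (t * E (-y))‖) := ((hcv.lim_left t ht).sub_const _).norm
    rw [norm_sub_rev]
    refine le_of_tendsto h1 ?_
    filter_upwards [Ioo_mem_nhdsGT hy0] with x hx
    rw [hth (-x), hth (-y), norm_sub_rev]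
    refine (hl _ _ (by linarith [hx.2]) ?_).trans ?_
    · intro s hs
      have h2 : s = arg t + (s - arg t) := by ring
      rw [h2, ← hth]
      have h3 := hs.1
      have h4 := hs.2
      have h5 := hx.1
      refine hd _ (by linarith) ?_
      rw [abs_of_neg (by linarith)]
      linarith
    · have h5 : |arg t + -y - (arg t + -x)| ≤ y := by
        rw [abs_le]
        have := hx.1
        have := hx.2
        constructor <;> linarith
      exact mul_le_mul_of_nonneg_left h5 hK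

private theorem jb_bdd (h : PwC phi F u v) :
    ∃ M : ℝ, ∀ z ∈ sphere (0 : ℂ) 1, z ∉ F → ‖phi z‖ ≤ M := by
  refine IsCompact.induction_on (isCompact_sphere (0 : ℂ) 1)
    (p := fun s => ∃ M : ℝ, ∀ z ∈ s, z ∉ F → ‖phi z‖ ≤ M) ⟨0, fun z hz => absurd hz (by simp)⟩
    ?_ ?_ ?_
  · rintro s s' hss ⟨M, hM⟩
    exact ⟨M, fun z hz => hM z (hss hz)⟩
  · rintro s s' ⟨M, hM⟩ ⟨M', hM'⟩
    refine ⟨max M M', fun z hz hzF => ?_⟩
    rcases hz with hz | hz
    · exact (hM z hz hzF).trans (le_max_left _ _)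
    · exact (hM' z hz hzF).trans (le_max_right _ _)
  · intro z0 hz0
    have hz01 : ‖z0‖ = 1 := mem_sphere_zero_iff_norm.1 hz0
    by_cases hF : z0 ∈ F
    · obtain ⟨K, hK, δ, hδ, hd⟩ := jb_side h hF
      have h1 : ∀ᶠ z in 𝓝 z0, |arg (conj z0 * z)| < δ := by
        have h2 : ContinuousAt (fun z => arg (conj z0 * z)) z0 := by
          refine ContinuousAt.comp (f := fun z => conj z0 * z) (g := arg) ?_ ?_
          · refine Complex.continuousAt_arg ?_
            rw [mul_comm, jb_conj hz01]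
            simp
          · exact (continuous_const.mul continuous_id).continuousAt
        have h3 : arg (conj z0 * z0) = 0 := by
          rw [mul_comm, jb_conj hz01, Complex.arg_one]
        have h4 := h2.abs.tendsto
        rw [h3, abs_zero] at h4
        exact h4.eventually (gt_mem_nhds hδ)
      refine ⟨sphere 0 1 ∩ {z | |arg (conj z0 * z)| < δ}, ?_,
        ‖u z0‖ + ‖v z0‖ + K * δ, ?_⟩
      · exact inter_mem_nhdsWithin _ h1
      · rintro z ⟨hz, hz2⟩ hzF
        have hz1 : ‖z‖ = 1 := mem_sphere_zero_iff_norm.1 hz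
        have h5 := jb_arg hz01 hz1
        have h6 : arg (conj z0 * z) ≠ 0 := by
          intro h7
          rw [h7, jb_E_zero, mul_one] at h5
          exact hzF (h5 ▸ hF)
        have hz3 : |arg (conj z0 * z)| < δ := hz2
        rcases lt_or_gt_of_ne h6 with hneg | hpos
        · have h8 := (hd (-arg (conj z0 * z)) (by linarith) (by
            rw [abs_of_neg hneg] at hz3
            exact hz3)).2
          rw [neg_neg, ← h5] at h8
          have h9 : ‖phi z‖ ≤ ‖phi z - u z0‖ + ‖u z0‖ := by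
            have := norm_add_le (phi z - u z0) (u z0)
            rwa [sub_add_cancel] at this
          have h10 : K * -arg (conj z0 * z) ≤ K * δ := by
            refine mul_le_mul_of_nonneg_left ?_ hK
            rw [abs_of_neg hneg] at hz3
            exact hz3.le
          have := norm_nonneg (v z0)
          linarith
        · have h8 := (hd (arg (conj z0 * z)) hpos (by
            rw [abs_of_pos hpos] at hz3
            exact hz3)).1
          rw [← h5] at h8
          have h9 : ‖phi z‖ ≤ ‖phi z - v z0‖ + ‖v z0‖ := by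
            have := norm_add_le (phi z - v z0) (v z0)
            rwa [sub_add_cancel] at this
          have h10 : K * arg (conj z0 * z) ≤ K * δ := by
            refine mul_le_mul_of_nonneg_left ?_ hK
            rw [abs_of_pos hpos] at hz3
            exact hz3.le
          have := norm_nonneg (u z0)
          linarith
    · have h1 := (h.cont z0 ⟨hz0, hF⟩).norm
      have h2 : ∀ᶠ z in 𝓝[sphere 0 1 \ (F : Set ℂ)] z0, ‖phi z‖ < ‖phi z0‖ + 1 :=
        h1.tendsto.eventually (gt_mem_nhds (by linarith))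
      obtain ⟨V, hV, hzV, hV2⟩ := mem_nhdsWithin.1 h2
      refine ⟨sphere 0 1 ∩ V, inter_mem_nhdsWithin _ (hV.mem_nhds hzV), ‖phi z0‖ + 1, ?_⟩
      rintro z ⟨hz, hz2⟩ hzF
      have h3 : z ∈ {z | ‖phi z‖ < ‖phi z0‖ + 1} := hV2 ⟨hz2, hz, hzF⟩
      exact le_of_lt h3

private theorem jb_side2 (h : PwC phi F u v) (ht : t ∈ F) : ∃ K : ℝ, 0 ≤ K ∧ ∀ y : ℝ, 0 < y →
    (t * E y ∉ F → ‖phi (t * E y) - v t‖ ≤ K * y) ∧
    (t * E (-y) ∉ F → ‖phi (t * E (-y)) - u t‖ ≤ K * y) := by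
  have ht1 := h.circ t ht
  obtain ⟨K, hK, δ, hδ, hd⟩ := jb_side h ht
  obtain ⟨M, hM⟩ := jb_bdd h
  have hmem : ∀ x : ℝ, t * E x ∈ sphere (0 : ℂ) 1 := by
    intro x
    rw [mem_sphere_zero_iff_norm, norm_mul, ht1, jb_E_norm, one_mul]
  have hnu := norm_nonneg (u t)
  have hnv := norm_nonneg (v t)
  refine ⟨K + (|M| + ‖v t‖ + ‖u t‖) / δ, by positivity, fun y hy => ⟨fun hF => ?_, fun hF => ?_⟩⟩
  · rcases lt_or_ge y δ with h1 | h1
    · refine (hd y hy h1).1.trans (mul_le_mul_of_nonneg_right ?_ hy.le)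
      have : 0 ≤ (|M| + ‖v t‖ + ‖u t‖) / δ := by positivity
      linarith
    · have h2 : ‖phi (t * E y) - v t‖ ≤ |M| + ‖v t‖ :=
        (norm_sub_le _ _).trans (add_le_add_left ((hM _ (hmem y) hF).trans (le_abs_self M)) _)
      have h3 : |M| + ‖v t‖ + ‖u t‖ ≤ (|M| + ‖v t‖ + ‖u t‖) / δ * y := by
        rw [div_mul_eq_mul_div, le_div_iff₀ hδ]
        exact mul_le_mul_of_nonneg_left h1 (by positivity)
      have h4 : 0 ≤ K * y := by positivity
      rw [add_mul]
      linarith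
  · rcases lt_or_ge y δ with h1 | h1
    · refine (hd y hy h1).2.trans (mul_le_mul_of_nonneg_right ?_ hy.le)
      have : 0 ≤ (|M| + ‖v t‖ + ‖u t‖) / δ := by positivity
      linarith
    · have h2 : ‖phi (t * E (-y)) - u t‖ ≤ |M| + ‖u t‖ :=
        (norm_sub_le _ _).trans (add_le_add_left ((hM _ (hmem (-y)) hF).trans (le_abs_self M)) _)
      have h3 : |M| + ‖v t‖ + ‖u t‖ ≤ (|M| + ‖v t‖ + ‖u t‖) / δ * y := by
        rw [div_mul_eq_mul_div, le_div_iff₀ hδ]
        exact mul_le_mul_of_nonneg_left h1 (by positivity)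
      have h4 : 0 ≤ K * y := by positivity
      rw [add_mul]
      linarith

private theorem jb_cont (hq : q ∈ segment ℝ (u t) (v t)) (h1 : q ≠ u t) (h2 : q ≠ v t) :
    ContinuousAt (bet (u t) (v t)) q :=
  (bet_diff hq h1 h2).self_of_nhds.continuousAt

private theorem jb_exp_sub {w : ℂ} {G : ℝ} (hG : ‖exp w‖ ≤ G) : ‖exp w - 1‖ ≤ (G + 2) * ‖w‖ := by
  have hG0 : 0 ≤ G := (norm_nonneg _).trans hG
  rcases le_or_gt ‖w‖ 1 with h1 | h1
  · refine (Complex.norm_exp_sub_one_le h1).trans ?_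
    exact mul_le_mul_of_nonneg_right (by linarith) (norm_nonneg _)
  · have h2 : ‖exp w - 1‖ ≤ G + 1 := by
      refine (norm_sub_le _ _).trans ?_
      rw [norm_one]
      linarith
    nlinarith

private theorem jb_exp_le {w : ℂ} {B : ℝ} (h : ‖w‖ ≤ B) : ‖exp w‖ ≤ Real.exp B := by
  rw [Complex.norm_exp]
  exact Real.exp_le_exp.2 (((le_abs_self _).trans (Complex.abs_re_le_norm w)).trans h)

theorem jb_lip (h : PwC phi F u v) (ht : t ∈ F) (hq : q ∈ segment ℝ (u t) (v t)) (h1 : q ≠ u t)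
    (h2 : q ≠ v t) : ∃ C > 0, ∀ᶠ l in 𝓝 q, ∀ z ∈ sphere (0 : ℂ) 1, z ∉ F →
      ‖Jq phi u v t l z - Jv u v t l‖ ≤ C * ‖z - t‖ := by
  have ht1 := h.circ t ht
  have hp := Real.pi_pos
  obtain ⟨K, hK, hs⟩ := jb_side2 h ht
  obtain ⟨B, hB⟩ : ∃ B, B = ‖bet (u t) (v t) q‖ + 1 := ⟨_, rfl⟩
  have hB0 : 0 < B := by
    rw [hB]
    positivity
  obtain ⟨G, hG⟩ : ∃ G, G = Real.exp (Real.pi * B) := ⟨_, rfl⟩
  have hG0 : 0 < G := by
    rw [hG]
    exact Real.exp_pos _
  obtain ⟨R, hR⟩ : ∃ R, R = ‖u t‖ + ‖v t‖ + ‖q‖ + 1 := ⟨_, rfl⟩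
  have hR0 : 0 < R := by
    rw [hR]
    positivity
  refine ⟨G * (K * G + R * ((G + 2) * B)) * (Real.pi / 2), by positivity, ?_⟩
  have hev1 : ∀ᶠ l in 𝓝 q, ‖bet (u t) (v t) l‖ < B :=
    (jb_cont hq h1 h2).norm.tendsto.eventually (gt_mem_nhds (by rw [hB]; linarith))
  have hev2 : ∀ᶠ l in 𝓝 q, ‖l‖ < ‖q‖ + 1 :=
    continuous_norm.continuousAt.tendsto.eventually (gt_mem_nhds (by linarith))
  filter_upwards [hev1, hev2, isOpen_ne.mem_nhds h1, isOpen_ne.mem_nhds h2] with l hl1 hl2 hl3 hl4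
  intro z hz hzF
  have hz1 : ‖z‖ = 1 := mem_sphere_zero_iff_norm.1 hz
  have hzt : z ≠ t := by
    rintro rfl
    exact hzF ht
  obtain ⟨y, a, hzy, hy, ha, hJ, hc⟩ := jb_rep (phi := phi) (u := u) (v := v) ht1 hz1 hzt
  have hyz : |y| ≤ Real.pi / 2 * ‖z - t‖ := by
    have h3 := jb_E_sub hy
    have h4 : ‖z - t‖ = ‖E y - 1‖ := by
      rw [hzy, ← mul_sub_one, norm_mul, ht1, one_mul]
    rw [h4]
    have h5 : |y| = Real.pi / 2 * (2 / Real.pi * |y|) := by
      field_simp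
    rw [h5]
    exact mul_le_mul_of_nonneg_left h3 (by positivity)
  obtain ⟨b, hb⟩ : ∃ b, b = bet (u t) (v t) l := ⟨_, rfl⟩
  rw [← hb] at hl1
  have hwy : ‖-(I * y * b)‖ ≤ B * |y| := by
    rw [norm_neg, norm_mul, norm_mul, Complex.norm_I, one_mul, Complex.norm_real, Real.norm_eq_abs,
      mul_comm]
    exact mul_le_mul_of_nonneg_right hl1.le (abs_nonneg _)
  have hey : ‖exp (-(I * y * b))‖ ≤ G := by
    rw [hG]
    refine jb_exp_le (hwy.trans ?_)
    rw [mul_comm]
    exact mul_le_mul_of_nonneg_right hy hB0.le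
  have hey1 : ‖exp (-(I * y * b)) - 1‖ ≤ (G + 2) * B * |y| := by
    have h0 : (0 : ℝ) ≤ G + 2 := by linarith
    refine (jb_exp_sub hey).trans ?_
    calc (G + 2) * ‖-(I * y * b)‖ ≤ (G + 2) * (B * |y|) := mul_le_mul_of_nonneg_left hwy h0
      _ = (G + 2) * B * |y| := by ring
  have main : ∀ c g : ℂ, ‖c‖ ≤ ‖u t‖ + ‖v t‖ → ‖g‖ ≤ G → ‖phi z - c‖ ≤ K * |y| →
      Jq phi u v t l z = (phi z - l) * (g * exp (-(I * y * b))) → Jv u v t l = (c - l) * g →
      ‖Jq phi u v t l z - Jv u v t l‖ ≤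
        G * (K * G + R * ((G + 2) * B)) * (Real.pi / 2) * ‖z - t‖ := by
    intro c g hc hg hpc e1 e2
    have e3 : Jq phi u v t l z - Jv u v t l =
        g * ((phi z - c) * exp (-(I * y * b)) + (c - l) * (exp (-(I * y * b)) - 1)) := by
      rw [e1, e2]
      ring
    have e4 : ‖c - l‖ ≤ R := by
      refine (norm_sub_le _ _).trans ?_
      rw [hR]
      linarith
    have e5 : ‖(phi z - c) * exp (-(I * y * b)) + (c - l) * (exp (-(I * y * b)) - 1)‖ ≤
        K * |y| * G + R * ((G + 2) * B * |y|) := by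
      refine (norm_add_le _ _).trans ?_
      rw [norm_mul, norm_mul]
      refine add_le_add ?_ ?_
      · exact mul_le_mul hpc hey (norm_nonneg _) (by positivity)
      · exact mul_le_mul e4 hey1 (norm_nonneg _) hR0.le
    rw [e3, norm_mul]
    calc ‖g‖ * ‖(phi z - c) * exp (-(I * y * b)) + (c - l) * (exp (-(I * y * b)) - 1)‖
        ≤ G * (K * |y| * G + R * ((G + 2) * B * |y|)) :=
          mul_le_mul hg e5 (norm_nonneg _) hG0.le
      _ = G * (K * G + R * ((G + 2) * B)) * |y| := by ring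
      _ ≤ G * (K * G + R * ((G + 2) * B)) * (Real.pi / 2 * ‖z - t‖) :=
          mul_le_mul_of_nonneg_left hyz (by positivity)
      _ = _ := by ring
  have hgn : ∀ s : ℝ, |s| ≤ Real.pi → ‖exp (I * s * b)‖ ≤ G := by
    intro s hs
    rw [hG]
    refine jb_exp_le ?_
    rw [norm_mul, norm_mul, Complex.norm_I, one_mul, Complex.norm_real, Real.norm_eq_abs]
    exact mul_le_mul hs hl1.le (norm_nonneg _) hp.le
  rcases hc with ⟨hy0, ha'⟩ | ⟨hy0, ha'⟩
  · refine main (v t) (exp (I * Real.pi * b)) (by linarith [norm_nonneg (u t)])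
      (hgn _ (by rw [abs_of_pos hp])) ?_ ?_ ?_
    · have h5 := (hs y hy0).1 (by rw [← hzy]; exact hzF)
      rw [← hzy] at h5
      rw [abs_of_pos hy0]
      exact h5
    · rw [hJ l, ← hb, ← Complex.exp_add, ha']
      congr 2
      push_cast
      ring
    · unfold Jv
      rw [← hb]
  · refine main (u t) (exp (I * (-Real.pi : ℝ) * b)) (by linarith [norm_nonneg (v t)])
      (hgn _ (by rw [abs_neg, abs_of_pos hp])) ?_ ?_ ?_
    · have h5 := (hs (-y) (by linarith)).2 (by rw [neg_neg, ← hzy]; exact hzF)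
      rw [neg_neg, ← hzy] at h5
      rw [abs_of_neg hy0]
      exact h5
    · rw [hJ l, ← hb, ← Complex.exp_add, ha']
      congr 2
      push_cast
      ring
    · unfold Jv
      have h6 := bet_exp hl3 hl4
      rw [← hb] at h6 ⊢
      have h7 : u t - l ≠ 0 := sub_ne_zero.2 (Ne.symm hl3)
      have h8 : v t - l = exp (-(2 * Real.pi * I * b)) * (u t - l) := by
        rw [h6, div_mul_cancel₀ _ h7]
      rw [h8, mul_comm (exp _) (u t - l), mul_assoc, ← Complex.exp_add]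
      congr 2
      push_cast
      ring

theorem jb_uni (h : PwC phi F u v) (ht : t ∈ F) (hq : q ∈ segment ℝ (u t) (v t)) (h1 : q ≠ u t)
    (h2 : q ≠ v t) {eps : ℝ} (heps : 0 < eps) : ∀ᶠ l in 𝓝 q, ∀ z ∈ sphere (0 : ℂ) 1, z ∉ F →
      ‖Jq phi u v t l z - Jq phi u v t q z‖ ≤ eps := by
  have ht1 := h.circ t ht
  have hp := Real.pi_pos
  obtain ⟨M, hM⟩ := jb_bdd h
  obtain ⟨B, hB⟩ : ∃ B, B = ‖bet (u t) (v t) q‖ := ⟨_, rfl⟩
  have hB0 : 0 ≤ B := by
    rw [hB]
    positivity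
  obtain ⟨G, hG⟩ : ∃ G, G = Real.exp (Real.pi * B) := ⟨_, rfl⟩
  have hG0 : 0 < G := by
    rw [hG]
    exact Real.exp_pos _
  obtain ⟨R, hR⟩ : ∃ R, R = |M| + ‖q‖ + 1 := ⟨_, rfl⟩
  have hR0 : 0 < R := by
    rw [hR]
    positivity
  have hb := jb_cont hq h1 h2
  have hev1 : Tendsto (fun l => R * (G * (2 * (Real.pi * ‖bet (u t) (v t) l - bet (u t) (v t) q‖))) +
      ‖l - q‖ * G) (𝓝 q) (𝓝 (R * (G * (2 * (Real.pi * 0))) + 0 * G)) := by
    have e1 : Tendsto (fun l => ‖bet (u t) (v t) l - bet (u t) (v t) q‖) (𝓝 q) (𝓝 0) := by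
      have := (hb.tendsto.sub_const (bet (u t) (v t) q)).norm
      rwa [sub_self, norm_zero] at this
    have e2 : Tendsto (fun l : ℂ => ‖l - q‖) (𝓝 q) (𝓝 0) := by
      have : Tendsto (fun l : ℂ => ‖l - q‖) (𝓝 q) (𝓝 ‖q - q‖) :=
        ((continuous_id.sub continuous_const).norm).tendsto q
      rwa [sub_self, norm_zero] at this
    exact ((((e1.const_mul _).const_mul _).const_mul _).const_mul _).add (e2.mul_const _)
  have hev2 : ∀ᶠ l in 𝓝 q, R * (G * (2 * (Real.pi * ‖bet (u t) (v t) l - bet (u t) (v t) q‖))) +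
      ‖l - q‖ * G < eps := by
    refine hev1.eventually (gt_mem_nhds ?_)
    simpa using heps
  have hev3 : ∀ᶠ l in 𝓝 q, Real.pi * ‖bet (u t) (v t) l - bet (u t) (v t) q‖ < 1 := by
    have e1 : Tendsto (fun l => Real.pi * ‖bet (u t) (v t) l - bet (u t) (v t) q‖) (𝓝 q) (𝓝 0) := by
      have := ((hb.tendsto.sub_const (bet (u t) (v t) q)).norm).const_mul Real.pi
      rwa [sub_self, norm_zero, mul_zero] at this
    exact e1.eventually (gt_mem_nhds one_pos)
  have hev4 : ∀ᶠ l in 𝓝 q, ‖l‖ < ‖q‖ + 1 :=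
    continuous_norm.continuousAt.tendsto.eventually (gt_mem_nhds (by linarith))
  filter_upwards [hev2, hev3, hev4] with l hl1 hl2 hl3
  intro z hz hzF
  have hz1 : ‖z‖ = 1 := mem_sphere_zero_iff_norm.1 hz
  have hzt : z ≠ t := by
    rintro rfl
    exact hzF ht
  obtain ⟨y, a, hzy, hy, ha, hJ, hc⟩ := jb_rep (phi := phi) (u := u) (v := v) ht1 hz1 hzt
  obtain ⟨b, hbb⟩ : ∃ b, b = bet (u t) (v t) l := ⟨_, rfl⟩
  obtain ⟨b0, hb0⟩ : ∃ b0, b0 = bet (u t) (v t) q := ⟨_, rfl⟩
  rw [hJ l, hJ q]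
  rw [← hbb, ← hb0] at hl1 hl2 ⊢
  rw [← hb0] at hB
  have e1 : (phi z - l) * exp (I * a * b) - (phi z - q) * exp (I * a * b0) =
      (phi z - l) * (exp (I * a * b0) * (exp (I * a * (b - b0)) - 1)) -
        (l - q) * exp (I * a * b0) := by
    have e2 : exp (I * a * b) = exp (I * a * b0) * exp (I * a * (b - b0)) := by
      rw [← Complex.exp_add]
      congr 1
      ring
    rw [e2]
    ring
  have e3 : ‖exp (I * a * b0)‖ ≤ G := by
    rw [hG]
    refine jb_exp_le ?_
    rw [norm_mul, norm_mul, Complex.norm_I, one_mul, Complex.norm_real, Real.norm_eq_abs, ← hB]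
    exact mul_le_mul_of_nonneg_right ha hB0
  have e4 : ‖I * a * (b - b0)‖ ≤ Real.pi * ‖b - b0‖ := by
    rw [norm_mul, norm_mul, Complex.norm_I, one_mul, Complex.norm_real, Real.norm_eq_abs]
    exact mul_le_mul_of_nonneg_right ha (norm_nonneg _)
  have e5 : ‖exp (I * a * (b - b0)) - 1‖ ≤ 2 * (Real.pi * ‖b - b0‖) :=
    (Complex.norm_exp_sub_one_le (e4.trans hl2.le)).trans
      (mul_le_mul_of_nonneg_left e4 (by norm_num))
  have e6 : ‖phi z - l‖ ≤ R := by
    refine (norm_sub_le _ _).trans ?_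
    rw [hR]
    have := (hM z hz hzF).trans (le_abs_self M)
    linarith
  rw [e1]
  refine (norm_sub_le _ _).trans (le_trans ?_ hl1.le)
  rw [norm_mul, norm_mul, norm_mul]
  refine add_le_add ?_ ?_
  · exact mul_le_mul e6 (mul_le_mul e3 e5 (norm_nonneg _) hG0.le) (by positivity) hR0.le
  · exact mul_le_mul_of_nonneg_left e3 (norm_nonneg _)

theorem jb_val (hq : q ∈ segment ℝ (u t) (v t)) (h1 : q ≠ u t) (h2 : q ≠ v t) :
    ContinuousAt (Jv u v t) q ∧ Jv u v t q ≠ 0 := by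
  have hb := jb_cont hq h1 h2
  constructor
  · unfold Jv
    exact (continuousAt_const.sub continuousAt_id).mul
      (Complex.continuous_exp.continuousAt.comp (continuousAt_const.mul hb))
  · unfold Jv
    exact mul_ne_zero (sub_ne_zero.2 (Ne.symm h2)) (exp_ne_zero _)

theorem jb_tend (h : PwC phi F u v) (ht : t ∈ F) (hq : q ∈ segment ℝ (u t) (v t)) (h1 : q ≠ u t)
    (h2 : q ≠ v t) : ∀ᶠ l in 𝓝 q,
      Tendsto (fun y : ℝ => Jq phi u v t l (t * E (-y))) (𝓝[>] 0) (𝓝 (Jv u v t l)) ∧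
      Tendsto (fun y : ℝ => Jq phi u v t l (t * E y)) (𝓝[>] 0) (𝓝 (Jv u v t l)) := by
  have ht1 := h.circ t ht
  obtain ⟨C, hC, hl⟩ := jb_lip h ht hq h1 h2
  obtain ⟨δ, hδ, hd⟩ := jb_ev (F := F) ht1
  have hmem : ∀ x : ℝ, t * E x ∈ sphere (0 : ℂ) 1 := by
    intro x
    rw [mem_sphere_zero_iff_norm, norm_mul, ht1, jb_E_norm, one_mul]
  have hz : Tendsto (fun y : ℝ => C * ‖t * E y - t‖) (𝓝 0) (𝓝 0) := by
    have h3 : Continuous fun y : ℝ => C * ‖t * E y - t‖ :=
      continuous_const.mul ((continuous_const.mul jb_E_cont).sub continuous_const).norm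
    have h4 := h3.tendsto 0
    rwa [jb_E_zero, mul_one, sub_self, norm_zero, mul_zero] at h4
  have hzn : Tendsto (fun y : ℝ => C * ‖t * E (-y) - t‖) (𝓝 0) (𝓝 0) := by
    have h3 : Tendsto (fun y : ℝ => -y) (𝓝 0) (𝓝 0) := by
      have := (continuous_neg (G := ℝ)).tendsto 0
      rwa [neg_zero] at this
    exact hz.comp h3
  filter_upwards [hl] with l hl
  constructor
  · rw [tendsto_iff_norm_sub_tendsto_zero]
    refine squeeze_zero' (Eventually.of_forall fun _ => norm_nonneg _) ?_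
      (hzn.mono_left nhdsWithin_le_nhds)
    filter_upwards [Ioo_mem_nhdsGT hδ] with y hy
    refine hl _ (hmem _) (hd _ ?_ ?_)
    · have := hy.1
      linarith
    · rw [abs_neg, abs_of_pos hy.1]
      exact hy.2
  · rw [tendsto_iff_norm_sub_tendsto_zero]
    refine squeeze_zero' (Eventually.of_forall fun _ => norm_nonneg _) ?_
      (hz.mono_left nhdsWithin_le_nhds)
    filter_upwards [Ioo_mem_nhdsGT hδ] with y hy
    refine hl _ (hmem _) (hd _ hy.1.ne' ?_)
    rw [abs_of_pos hy.1]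
    exact hy.2

end Pool.Agent.TBirX
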