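import Pool.Agent.TBirX.Kp

/-!
# The norms of the vectors of a jump

`|k|` is `|1 - w| ^ (re b - 1)` up to a factor `exp (± pi |im b|)`; `∫ |1 - w| ^ (2 re b - 2)` is comparable with `∫ |θ| ^ (2 re b - 2) dθ = C / (re b - 1 / 2)` (`kap_norm`; `kap_coe`). `kap_conc`: outside a small arc around `t` the vector is bounded, inside `|psi - psi s|` is small, and the norm tends to infinity.
-/

set_option autoImplicit false

open MeasureTheory Complex Set Filter Topology Metric AddCircle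
open scoped ComplexConjugate InnerProductSpace ENNReal

namespace Pool.Agent.TBirX

open Pool.Agent.TBir Pool.Agent.TBirG Pool.Agent.TBirC Pool.Agent.TBirJ Pool.Agent.TBirK
open Pool.Agent.TBirN
open Pool.Agent.TBirP (E qT)

private theorem kn_l2sq (f : L2) : ‖f‖ ^ 2 = ∫ x, ‖(f : UnitAddCircle → ℂ) x‖ ^ 2 ∂mu0 := by
  have h := L2.inner_def (𝕜 := ℂ) f f
  rw [inner_self_eq_norm_sq_to_K] at h
  have h2 : ∀ x, inner ℂ ((f : UnitAddCircle → ℂ) x) ((f : UnitAddCircle → ℂ) x) =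
      ((‖(f : UnitAddCircle → ℂ) x‖ ^ 2 : ℝ) : ℂ) := by
    intro x
    rw [inner_self_eq_norm_sq_to_K]
    push_cast
    rfl
  simp_rw [h2] at h
  rw [integral_complex_ofReal] at h
  refine Complex.ofReal_injective (Eq.trans ?_ h)
  push_cast
  rfl

private theorem kn_int {f : L2} : Integrable (fun x => ‖(f : UnitAddCircle → ℂ) x‖ ^ 2) mu0 := by
  have h := (Lp.memLp f)
  exact h.integrable_norm_pow (by norm_num) |>.congr (by simp)

private theorem kn_norm_one_sub (x : ℝ) : ‖1 - e (x : UnitAddCircle)‖ = 2 * |Real.sin (Real.pi * x)| := by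
  have h1 : e (x : UnitAddCircle) = exp (I * ((2 * Real.pi * x : ℝ) : ℂ)) := by
    unfold e
    rw [AddCircle.toCircle_apply_mk, Circle.coe_exp]
    congr 1
    push_cast
    ring
  rw [h1, norm_sub_rev, Complex.norm_exp_I_mul_ofReal_sub_one, Real.norm_eq_abs, abs_mul]
  have h2 : 2 * Real.pi * x / 2 = Real.pi * x := by ring
  rw [h2]
  norm_num

/-- lower and upper bound for `‖1 - e x‖` -/
private theorem kn_lo {x : ℝ} (h0 : 0 ≤ x) (h1 : x ≤ 1) :
    min x (1 - x) ≤ ‖1 - e (x : UnitAddCircle)‖ := by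
  rw [kn_norm_one_sub]
  have hpi := Real.pi_pos
  have hs : 0 ≤ Real.sin (Real.pi * x) :=
    Real.sin_nonneg_of_nonneg_of_le_pi (by positivity) (by nlinarith)
  rw [abs_of_nonneg hs]
  rcases le_total x (1 / 2) with h | h
  · have := Real.mul_le_sin (x := Real.pi * x) (by positivity) (by nlinarith)
    have e1 : 2 / Real.pi * (Real.pi * x) = 2 * x := by field_simp
    rw [e1] at this
    exact (min_le_left _ _).trans (by linarith)
  · have := Real.mul_le_sin (x := Real.pi * (1 - x)) (by nlinarith) (by nlinarith)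
    have e1 : 2 / Real.pi * (Real.pi * (1 - x)) = 2 * (1 - x) := by field_simp
    have e2 : Real.pi * (1 - x) = Real.pi - Real.pi * x := by ring
    rw [e1, e2, Real.sin_pi_sub] at this
    exact (min_le_right _ _).trans (by linarith)

private theorem kn_hi {x : ℝ} (h0 : 0 ≤ x) : ‖1 - e (x : UnitAddCircle)‖ ≤ 2 * Real.pi * x := by
  rw [kn_norm_one_sub]
  have hpi := Real.pi_pos
  have h1 : |Real.sin (Real.pi * x)| ≤ |Real.pi * x| := Real.abs_sin_le_abs
  rw [abs_of_nonneg (by positivity : (0:ℝ) ≤ Real.pi * x)] at h1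
  linarith

/-- bounds for the square of the norm of a power -/
private theorem kn_pow (z b : ℂ) (M : ℝ) (hb : b.re < 1) (hM : |b.im| ≤ M) :
    Real.exp (-(2 * Real.pi * M)) * ‖z‖ ^ (2 * b.re - 2) ≤ ‖z ^ (conj b - 1)‖ ^ 2 ∧
    ‖z ^ (conj b - 1)‖ ^ 2 ≤ Real.exp (2 * Real.pi * M) * ‖z‖ ^ (2 * b.re - 2) := by
  have hre : (conj b - 1).re = b.re - 1 := by simp
  have him : (conj b - 1).im = -b.im := by simp
  by_cases hz : z = 0
  · have hne : conj b - 1 ≠ 0 := by
      intro h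
      have := congrArg Complex.re h
      rw [hre] at this
      simp at this
      linarith
    subst hz
    rw [Complex.zero_cpow hne, norm_zero, Real.zero_rpow (by linarith)]
    simp
  · have h1 := Complex.norm_cpow_of_ne_zero hz (conj b - 1)
    rw [hre, him] at h1
    have hz0 : 0 < ‖z‖ := norm_pos_iff.2 hz
    have h2 : ‖z‖ ^ (2 * b.re - 2) = (‖z‖ ^ (b.re - 1)) ^ 2 := by
      rw [← Real.rpow_natCast, ← Real.rpow_mul hz0.le]
      congr 1
      push_cast
      ring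
    have h3 : ‖z ^ (conj b - 1)‖ ^ 2 = ‖z‖ ^ (2 * b.re - 2) * Real.exp (2 * (arg z * b.im)) := by
      have e1 : Real.exp (2 * (arg z * b.im)) = (Real.exp (arg z * -b.im))⁻¹ ^ 2 := by
        rw [← Real.exp_neg, ← Real.exp_nat_mul]
        congr 1
        push_cast
        ring
      rw [h1, h2, e1, div_eq_mul_inv, mul_pow]
    have h4 : |arg z * b.im| ≤ Real.pi * M := by
      rw [abs_mul]
      exact mul_le_mul (Complex.abs_arg_le_pi z) hM (abs_nonneg _) Real.pi_pos.le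
    have h5 := abs_le.1 h4
    have h6 : 0 ≤ ‖z‖ ^ (2 * b.re - 2) := Real.rpow_nonneg hz0.le _
    rw [h3, mul_comm (‖z‖ ^ (2 * b.re - 2))]
    exact ⟨mul_le_mul_of_nonneg_right (Real.exp_le_exp.2 (by linarith)) h6,
      mul_le_mul_of_nonneg_right (Real.exp_le_exp.2 (by linarith)) h6⟩

private theorem kn_conj_e {t : ℂ} {s : UnitAddCircle} (hs : e s = t) (y : UnitAddCircle) :
    conj t * e y = e (y - s) := by
  have h1 : e (y - s) * e s = e y := by
    unfold e
    rw [← Circle.coe_mul, ← AddCircle.toCircle_add, sub_add_cancel]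
  have h2 : conj t * t = 1 := by
    rw [← hs]
    unfold e
    rw [← Circle.coe_inv_eq_conj, ← Circle.coe_mul, inv_mul_cancel, Circle.coe_one]
  calc conj t * e y = e (y - s) * (conj t * t) := by
        rw [← h1, hs]; ring
    _ = e (y - s) := by rw [h2, mul_one]

private theorem kn_ex {t : ℂ} (ht : ‖t‖ = 1) : ∃ s : UnitAddCircle, e s = t := by
  obtain ⟨x, hx⟩ := (homeomorphCircle (T := (1 : ℝ)) one_ne_zero).surjective
    ⟨t, mem_sphere_zero_iff_norm.2 ht⟩
  refine ⟨x, ?_⟩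
  rw [homeomorphCircle_apply] at hx
  unfold e
  rw [hx]

private theorem kn_vol : (volume : Measure UnitAddCircle) = mu0 := by
  have h := AddCircle.volume_eq_smul_haarAddCircle (T := (1 : ℝ))
  rw [ENNReal.ofReal_one, one_smul] at h
  exact h

/-- the integral over the circle as an integral over `[0, 1]` -/
private theorem kn_integral (F : UnitAddCircle → ℝ) :
    ∫ y, F y ∂mu0 = ∫ x in (0:ℝ)..1, F (x : UnitAddCircle) := by
  have h := UnitAddCircle.intervalIntegral_preimage 0 F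
  rw [zero_add] at h
  rw [h, kn_vol]

private theorem kn_intble {F : UnitAddCircle → ℝ} (hF : Integrable F mu0) :
    IntervalIntegrable (fun x : ℝ => F (x : UnitAddCircle)) volume 0 1 := by
  rw [intervalIntegrable_iff_integrableOn_Ioc_of_le zero_le_one]
  rw [← kn_vol] at hF
  have h := (UnitAddCircle.measurePreserving_mk 0).integrable_comp hF.aestronglyMeasurable
  rw [zero_add] at h
  exact h.2 hF

/-- the square of the modulus of the function, for `t = 1` -/
private noncomputable def kG (b : ℂ) (y : UnitAddCircle) : ℝ := ‖(1 - e y) ^ (conj b - 1)‖ ^ 2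

private theorem kG_int {b : ℂ} (hb : 1 / 2 < b.re) : Integrable (kG b) mu0 := by
  have h := kap_memLp (t := 1) (b := b) norm_one hb
  have h2 := h.integrable_norm_pow (p := 2) (by norm_num)
  refine h2.congr (Eventually.of_forall fun y => ?_)
  simp [kG]

private theorem kn_kap {t b : ℂ} (ht : ‖t‖ = 1) (hb : 1 / 2 < b.re) :
    ‖kap t b‖ ^ 2 = ∫ x in (0:ℝ)..1, kG b (x : UnitAddCircle) := by
  obtain ⟨s, hs⟩ := kn_ex ht
  have h0 : ‖kap t b‖ = ‖incl (kap t b)‖ := rfl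
  rw [h0, kn_l2sq, ← kn_integral]
  have h1 : ∫ x, ‖(incl (kap t b) : UnitAddCircle → ℂ) x‖ ^ 2 ∂mu0 = ∫ x, kG b (x - s) ∂mu0 := by
    refine integral_congr_ae ?_
    filter_upwards [kap_coe ht hb] with y hy
    rw [hy, kG, kn_conj_e hs]
  rw [h1]
  exact integral_sub_right_eq_self (kG b) s

private theorem kn_low {b : ℂ} {M : ℝ} (hb : 1 / 2 < b.re) (hb2 : b.re ≤ 3 / 4)
    (hM : |b.im| ≤ M) : Real.exp (-(2 * Real.pi * M)) * (2 * Real.pi)⁻¹ * (1 / (2 * b.re - 1)) ≤
      ∫ x in (0:ℝ)..1, kG b (x : UnitAddCircle) := by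
  obtain ⟨p, hp⟩ : ∃ p : ℝ, p = 2 * b.re - 2 := ⟨_, rfl⟩
  have hp1 : -1 < p := by linarith
  have hp0 : p ≤ 0 := by linarith
  have hpi := Real.pi_gt_three
  have h1 : ∫ x in (0:ℝ)..1, x ^ p = 1 / (2 * b.re - 1) := by
    rw [integral_rpow (Or.inl hp1), Real.one_rpow, Real.zero_rpow (by linarith)]
    rw [hp]
    congr 1
    · ring
    · ring
  have h2 : Real.exp (-(2 * Real.pi * M)) * (2 * Real.pi)⁻¹ * (1 / (2 * b.re - 1)) =
      ∫ x in (0:ℝ)..1, Real.exp (-(2 * Real.pi * M)) * (2 * Real.pi)⁻¹ * x ^ p := by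
    rw [intervalIntegral.integral_const_mul, h1]
  rw [h2]
  refine intervalIntegral.integral_mono_on_of_le_Ioo zero_le_one
    ((intervalIntegral.intervalIntegrable_rpow' hp1).const_mul _) (kn_intble (kG_int hb)) ?_
  intro x hx
  have hx0 : 0 < x := hx.1
  have hn0 : 0 < ‖1 - e (x : UnitAddCircle)‖ := by
    have := kn_lo hx0.le hx.2.le
    have h3 : 0 < min x (1 - x) := lt_min hx0 (by linarith [hx.2])
    linarith
  have h4 := (kn_pow (1 - e (x : UnitAddCircle)) b M (by linarith) hM).1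
  have h5 : (2 * Real.pi * x) ^ p ≤ ‖1 - e (x : UnitAddCircle)‖ ^ p :=
    Real.rpow_le_rpow_of_nonpos hn0 (kn_hi hx0.le) hp0
  have h6 : (2 * Real.pi * x) ^ p = (2 * Real.pi) ^ p * x ^ p :=
    Real.mul_rpow (by positivity) hx0.le
  have h7 : (2 * Real.pi)⁻¹ ≤ (2 * Real.pi) ^ p := by
    rw [← Real.rpow_neg_one]
    exact Real.rpow_le_rpow_of_exponent_le (by linarith) hp1.le
  have h8 : 0 ≤ x ^ p := Real.rpow_nonneg hx0.le _
  have h9 : 0 < Real.exp (-(2 * Real.pi * M)) := Real.exp_pos _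
  rw [← hp] at h4
  refine le_trans ?_ h4
  rw [mul_assoc]
  refine mul_le_mul_of_nonneg_left ?_ h9.le
  refine le_trans ?_ h5
  rw [h6]
  exact mul_le_mul_of_nonneg_right h7 h8

private theorem kn_up {b : ℂ} {M : ℝ} (hb : 1 / 2 < b.re) (hb2 : b.re ≤ 3 / 4)
    (hM : |b.im| ≤ M) : ∫ x in (0:ℝ)..1, kG b (x : UnitAddCircle) ≤
      Real.exp (2 * Real.pi * M) * (2 / (2 * b.re - 1)) := by
  obtain ⟨p, hp⟩ : ∃ p : ℝ, p = 2 * b.re - 2 := ⟨_, rfl⟩
  have hp1 : -1 < p := by linarith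
  have hp0 : p ≤ 0 := by linarith
  have h1 : ∫ x in (0:ℝ)..1, x ^ p = 1 / (2 * b.re - 1) := by
    rw [integral_rpow (Or.inl hp1), Real.one_rpow, Real.zero_rpow (by linarith)]
    rw [hp]
    congr 1
    · ring
    · ring
  have hi1 : IntervalIntegrable (fun x : ℝ => x ^ p) volume 0 1 :=
    intervalIntegral.intervalIntegrable_rpow' hp1
  have hi2 : IntervalIntegrable (fun x : ℝ => (1 - x) ^ p) volume 0 1 := by
    have := hi1.comp_sub_left 1
    rw [sub_zero, sub_self] at this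
    exact this.symm
  have h1' : ∫ x in (0:ℝ)..1, (1 - x) ^ p = 1 / (2 * b.re - 1) := by
    rw [intervalIntegral.integral_comp_sub_left (fun x => x ^ p) 1, sub_self, sub_zero, h1]
  have h2 : Real.exp (2 * Real.pi * M) * (2 / (2 * b.re - 1)) =
      ∫ x in (0:ℝ)..1, Real.exp (2 * Real.pi * M) * (x ^ p + (1 - x) ^ p) := by
    rw [intervalIntegral.integral_const_mul, intervalIntegral.integral_add hi1 hi2, h1, h1']
    congr 1
    ring
  rw [h2]
  refine intervalIntegral.integral_mono_on_of_le_Ioo zero_le_one (kn_intble (kG_int hb))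
    ((hi1.add hi2).const_mul _) ?_
  intro x hx
  have hx0 : 0 < x := hx.1
  have hx1 : 0 < 1 - x := by linarith [hx.2]
  have hm : 0 < min x (1 - x) := lt_min hx0 hx1
  have h4 := (kn_pow (1 - e (x : UnitAddCircle)) b M (by linarith) hM).2
  rw [← hp] at h4
  refine h4.trans (mul_le_mul_of_nonneg_left ?_ (Real.exp_pos _).le)
  have h5 : ‖1 - e (x : UnitAddCircle)‖ ^ p ≤ (min x (1 - x)) ^ p :=
    Real.rpow_le_rpow_of_nonpos hm (kn_lo hx0.le hx.2.le) hp0
  have h6 : 0 ≤ x ^ p := Real.rpow_nonneg hx0.le _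
  have h7 : 0 ≤ (1 - x) ^ p := Real.rpow_nonneg hx1.le _
  refine h5.trans ?_
  rcases min_choice x (1 - x) with h | h <;> rw [h] <;> linarith

theorem kap_norm {t : ℂ} (ht : ‖t‖ = 1) (M : ℝ) : ∃ c C : ℝ, 0 < c ∧ 0 < C ∧ ∀ b : ℂ,
    1 / 2 < b.re → b.re ≤ 3 / 4 → |b.im| ≤ M →
    c ≤ ‖kap t b‖ ^ 2 * (b.re - 1 / 2) ∧ ‖kap t b‖ ^ 2 * (b.re - 1 / 2) ≤ C := by
  have hpi := Real.pi_pos
  refine ⟨Real.exp (-(2 * Real.pi * M)) * (2 * Real.pi)⁻¹ * (1 / 2), Real.exp (2 * Real.pi * M),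
    by positivity, by positivity, fun b h1 h2 h3 => ?_⟩
  have h4 := kn_low h1 h2 h3
  have h5 := kn_up h1 h2 h3
  rw [← kn_kap ht h1] at h4 h5
  obtain ⟨d, hd⟩ : ∃ d : ℝ, d = b.re - 1 / 2 := ⟨_, rfl⟩
  have h6 : 0 < d := by linarith
  have h7 : 2 * b.re - 1 = 2 * d := by rw [hd]; ring
  rw [h7] at h4 h5
  rw [← hd]
  constructor
  · have := mul_le_mul_of_nonneg_right h4 h6.le
    refine le_trans (le_of_eq ?_) this
    field_simp
  · have := mul_le_mul_of_nonneg_right h5 h6.le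
    refine this.trans (le_of_eq ?_)
    field_simp

private theorem kn_inj {x y : UnitAddCircle} (h : e x = e y) : x = y := by
  unfold e at h
  exact AddCircle.injective_toCircle one_ne_zero (Subtype.ext h)

theorem kap_conc {t : ℂ} (ht : ‖t‖ = 1) (M : ℝ) (psi : CT) {s : UnitAddCircle} (hs : e s = t)
    {eps : ℝ} (heps : 0 < eps) : ∃ δ > 0, ∀ b : ℂ, 1 / 2 < b.re → b.re < 1 / 2 + δ → |b.im| ≤ M →
    ‖mul psi (incl (kap t b)) - psi s • incl (kap t b)‖ ≤ eps * ‖kap t b‖ := by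
  obtain ⟨c, C, hc, -, hcC⟩ := kap_norm ht M
  have hcont : Continuous fun y : UnitAddCircle => ‖psi y - psi s‖ :=
    (psi.continuous.sub continuous_const).norm
  obtain ⟨U, hU⟩ : ∃ U : Set UnitAddCircle, U = {y | ‖psi y - psi s‖ < eps / 2} := ⟨_, rfl⟩
  have hUo : IsOpen U := by rw [hU]; exact isOpen_lt hcont continuous_const
  have hsU : s ∈ U := by rw [hU]; simpa using heps
  have hce : Continuous e := by
    unfold e
    exact continuous_induced_dom.comp continuous_toCircle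
  have hK : IsCompact (Uᶜ) := hUo.isClosed_compl.isCompact
  have hh : Continuous fun y : UnitAddCircle => ‖1 - conj t * e y‖ :=
    (continuous_const.sub (continuous_const.mul hce)).norm
  obtain ⟨d0, hd0, hd0'⟩ := hK.exists_forall_le' (f := fun y : UnitAddCircle => ‖1 - conj t * e y‖)
    (a := 0) hh.continuousOn (by
      intro y hy
      have hy2 : y ≠ s := fun h => hy (h ▸ hsU)
      refine norm_pos_iff.2 fun h => hy2 ?_
      have h1 : conj t * e y = 1 := (sub_eq_zero.1 h).symm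
      have h2 : t * conj t = 1 := by
        rw [Complex.mul_conj, Complex.normSq_eq_norm_sq, ht]; simp
      apply kn_inj
      rw [hs]
      calc e y = t * conj t * e y := by rw [h2, one_mul]
        _ = t := by rw [mul_assoc, h1, mul_one])
  obtain ⟨d, hd⟩ : ∃ d : ℝ, d = min d0 1 := ⟨_, rfl⟩
  have hdpos : 0 < d := by rw [hd]; exact lt_min hd0 one_pos
  have hd1 : d ≤ 1 := by rw [hd]; exact min_le_right _ _
  have hdK : ∀ y ∈ Uᶜ, d ≤ ‖1 - conj t * e y‖ := fun y hy =>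
    (hd ▸ min_le_left _ _ : d ≤ d0).trans (hd0' y hy)
  obtain ⟨A, hA⟩ : ∃ A : ℝ, A = (2 * ‖psi‖) ^ 2 * (Real.exp (2 * Real.pi * M) * d⁻¹) := ⟨_, rfl⟩
  have hA0 : 0 ≤ A := by rw [hA]; positivity
  refine ⟨min (1 / 4) (eps ^ 2 * c / (2 * (A + 1))), lt_min (by norm_num) (by positivity),
    fun b hb1 hb2 hb3 => ?_⟩
  have hb4 : b.re ≤ 3 / 4 := by
    have := min_le_left (1 / 4) (eps ^ 2 * c / (2 * (A + 1)))
    linarith
  have hb5 : b.re - 1 / 2 < eps ^ 2 * c / (2 * (A + 1)) := by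
    have := min_le_right (1 / 4) (eps ^ 2 * c / (2 * (A + 1)))
    linarith
  obtain ⟨f, hf⟩ : ∃ f : L2, f = incl (kap t b) := ⟨_, rfl⟩
  have hnf : ‖kap t b‖ = ‖f‖ := by rw [hf]; rfl
  have hlow := (hcC b hb1 hb4 hb3).1
  rw [hnf] at hlow ⊢
  rw [← hf]
  -- the integral
  have h1 : ‖mul psi f - psi s • f‖ ^ 2 ≤ (eps / 2) ^ 2 * ‖f‖ ^ 2 + A := by
    rw [kn_l2sq (mul psi f - psi s • f), kn_l2sq f]
    have h3 : (eps / 2) ^ 2 * ∫ x, ‖(f : UnitAddCircle → ℂ) x‖ ^ 2 ∂mu0 + A =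
        ∫ x, ((eps / 2) ^ 2 * ‖(f : UnitAddCircle → ℂ) x‖ ^ 2 + A) ∂mu0 := by
      rw [integral_add (kn_int.const_mul _) (integrable_const _), integral_const_mul,
        integral_const]
      simp
    rw [h3]
    refine integral_mono_ae kn_int ((kn_int.const_mul _).add (integrable_const _)) ?_
    filter_upwards [Lp.coeFn_sub (mul psi f) (psi s • f), mul_ae psi f, Lp.coeFn_smul (psi s) f,
      hf ▸ kap_coe ht hb1] with y e1 e2 e3 e4
    have e5 : (mul psi f - psi s • f : L2) y = (psi y - psi s) * (f : UnitAddCircle → ℂ) y := by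
      rw [e1, Pi.sub_apply, e2, e3, Pi.smul_apply, smul_eq_mul, sub_mul]
    show ‖(mul psi f - psi s • f : L2) y‖ ^ 2 ≤ (eps / 2) ^ 2 * ‖(f : UnitAddCircle → ℂ) y‖ ^ 2 + A
    rw [e5, norm_mul, mul_pow]
    by_cases hy : y ∈ U
    · have h4 : ‖psi y - psi s‖ ^ 2 ≤ (eps / 2) ^ 2 := by
        rw [hU] at hy
        exact pow_le_pow_left₀ (norm_nonneg _) (le_of_lt hy) 2
      have := mul_le_mul_of_nonneg_right h4 (sq_nonneg ‖(f : UnitAddCircle → ℂ) y‖)
      linarith
    · have h4 : ‖psi y - psi s‖ ^ 2 ≤ (2 * ‖psi‖) ^ 2 := by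
        refine pow_le_pow_left₀ (norm_nonneg _) ?_ 2
        have := norm_sub_le (psi y) (psi s)
        have h5 := psi.norm_coe_le_norm y
        have h6 := psi.norm_coe_le_norm s
        linarith
      have h5 := (kn_pow (1 - conj t * e y) b M (by linarith) hb3).2
      have h6 : ‖1 - conj t * e y‖ ^ (2 * b.re - 2) ≤ d⁻¹ := by
        refine (Real.rpow_le_rpow_of_nonpos hdpos (hdK y hy) (by linarith)).trans ?_
        rw [← Real.rpow_neg_one]
        exact Real.rpow_le_rpow_of_exponent_ge hdpos hd1 (by linarith)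
      have h7 : ‖(f : UnitAddCircle → ℂ) y‖ ^ 2 ≤ Real.exp (2 * Real.pi * M) * d⁻¹ := by
        rw [e4]
        exact h5.trans (mul_le_mul_of_nonneg_left h6 (Real.exp_pos _).le)
      have h8 := mul_le_mul h4 h7 (sq_nonneg _) (sq_nonneg _)
      rw [← hA] at h8
      have h9 : 0 ≤ (eps / 2) ^ 2 * ‖(f : UnitAddCircle → ℂ) y‖ ^ 2 := by positivity
      linarith
  have h2 : A ≤ 3 / 4 * eps ^ 2 * ‖f‖ ^ 2 := by
    have h3 : 0 < b.re - 1 / 2 := by linarith
    have h4 : (b.re - 1 / 2) * (2 * (A + 1)) < eps ^ 2 * c := by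
      rwa [lt_div_iff₀ (by positivity)] at hb5
    have h5 : eps ^ 2 * c ≤ eps ^ 2 * (‖f‖ ^ 2 * (b.re - 1 / 2)) :=
      mul_le_mul_of_nonneg_left hlow (sq_nonneg _)
    have h6 : (b.re - 1 / 2) * (2 * (A + 1)) < (b.re - 1 / 2) * (eps ^ 2 * ‖f‖ ^ 2) := by
      calc _ < eps ^ 2 * c := h4
        _ ≤ eps ^ 2 * (‖f‖ ^ 2 * (b.re - 1 / 2)) := h5
        _ = _ := by ring
    have h7 := lt_of_mul_lt_mul_left h6 h3.le
    nlinarith
  have h3 : ‖mul psi f - psi s • f‖ ^ 2 ≤ (eps * ‖f‖) ^ 2 := by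
    rw [mul_pow]
    nlinarith
  exact (sq_le_sq₀ (norm_nonneg _) (by positivity)).1 h3

end Pool.Agent.TBirX
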