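import Pool.Agent.TBirX.Pw

/-!
# The vectors of a jump

`g = conj b`, `k y = (1 - w) ^ (g - 1)`, `w = conj t (e y)`; `|k|` is `|1 - w| ^ (re b - 1)` up to a factor `exp (± pi |im b|)`. `kap_coe`: `k` is the limit in `L^2` of `(1 - w) ^ g / (1 - r w)`, `r → 1`
(dominated, `|1 - w| ≤ 2 |1 - r w|`), so its negative coefficients vanish. `kap_ana`: `inner (kap t b) f = ∫ conj k * f`, `conj k = (1 - conj w) ^ (b - 1)` is differentiable in `b` with an `L^2` bound on compact sets. `kap_van`: `conj k * eta t b = (1 - conj w) ^ (b - 1) (-w) ^ b = - w (1 - w) ^ (b - 1)`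
almost everywhere, and `∫ w (1 - w) ^ (b - 1) h = 0` for `h` in the Hardy space (limit of `w (1 - w) ^ b / (1 - r w)`).
-/

set_option autoImplicit false

open MeasureTheory Complex Set Filter Topology Metric AddCircle
open scoped ComplexConjugate InnerProductSpace ENNReal

namespace Pool.Agent.TBirX

open Pool.Agent.TBir Pool.Agent.TBirG Pool.Agent.TBirC Pool.Agent.TBirJ Pool.Agent.TBirK
open Pool.Agent.TBirN
open Pool.Agent.TBirP (E qT)

private theorem kp_norm_real {x : ℝ} (h0 : 0 ≤ x) (h1 : x ≤ 1) :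
    4 * min x (1 - x) ≤ ‖1 - e (x : UnitAddCircle)‖ := by
  have h2 : ‖1 - e (x : UnitAddCircle)‖ = ‖2 * Real.sin (Real.pi * x)‖ := by
    have h3 := Complex.norm_exp_I_mul_ofReal_sub_one (2 * Real.pi * x)
    rw [show 2 * Real.pi * x / 2 = Real.pi * x by ring] at h3
    rw [← h3, norm_sub_rev]
    congr 2
    rw [e_coe, circleMap]
    simp only [zero_add, ofReal_one, one_mul]
    congr 1
    ring
  rw [h2, norm_mul, Real.norm_eq_abs, Real.norm_eq_abs, abs_two]
  have hpi := Real.pi_pos
  rcases le_total x (1 / 2) with hx | hx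
  · have h4 := Real.mul_abs_le_abs_sin (x := Real.pi * x) (by
      rw [abs_of_nonneg (by positivity)]; nlinarith)
    rw [abs_of_nonneg (show 0 ≤ Real.pi * x by positivity)] at h4
    have h5 : 2 / Real.pi * (Real.pi * x) = 2 * x := by field_simp
    rw [h5] at h4
    have h6 := min_le_left x (1 - x)
    linarith
  · have h4 := Real.mul_abs_le_abs_sin (x := Real.pi * (1 - x)) (by
      rw [abs_of_nonneg (by nlinarith)]; nlinarith)
    rw [abs_of_nonneg (show 0 ≤ Real.pi * (1 - x) by nlinarith)] at h4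
    have h5 : 2 / Real.pi * (Real.pi * (1 - x)) = 2 * (1 - x) := by field_simp
    have h7 : Real.sin (Real.pi * (1 - x)) = Real.sin (Real.pi * x) := by
      rw [show Real.pi * (1 - x) = Real.pi - Real.pi * x by ring, Real.sin_pi_sub]
    rw [h5, h7] at h4
    have h6 := min_le_right x (1 - x)
    linarith

private theorem kp_le_two (y : UnitAddCircle) : ‖1 - e y‖ ≤ 2 := by
  calc ‖1 - e y‖ ≤ ‖(1 : ℂ)‖ + ‖e y‖ := norm_sub_le _ _
    _ = 2 := by rw [norm_e, norm_one]; norm_num

private theorem kp_int0 {s : ℝ} (hs : -1 < s) :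
    Integrable (fun y : UnitAddCircle => ‖1 - e y‖ ^ s) mu0 := by
  have hm : Measurable fun y : UnitAddCircle => ‖1 - e y‖ ^ s :=
    ((continuous_const.sub continuous_e).norm).measurable.pow_const s
  rcases le_or_gt 0 s with h0 | h0
  · refine Integrable.of_bound hm.aestronglyMeasurable (2 ^ s) (Eventually.of_forall fun y => ?_)
    rw [Real.norm_eq_abs, abs_of_nonneg (by positivity)]
    exact Real.rpow_le_rpow (norm_nonneg _) (kp_le_two y) h0
  · have hv : mu0 = (volume : Measure UnitAddCircle) := by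
      rw [AddCircle.volume_eq_smul_haarAddCircle]
      simp
    rw [hv]
    have hmp := AddCircle.measurePreserving_mk (1 : ℝ) 0
    rw [← hmp.integrable_comp hm.aestronglyMeasurable]
    have h1 : IntervalIntegrable (fun x : ℝ => x ^ s) volume 0 1 :=
      intervalIntegral.intervalIntegrable_rpow' hs
    have h2 : IntervalIntegrable (fun x : ℝ => (1 - x) ^ s) volume 0 1 := by
      have := h1.comp_sub_left 1
      simp only [sub_zero, sub_self] at this
      exact this.symm
    have h3 : IntegrableOn (fun x : ℝ => 4 ^ s * (x ^ s + (1 - x) ^ s)) (Ioc 0 1) := by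
      have := (h1.add h2).const_mul (4 ^ s)
      rw [intervalIntegrable_iff_integrableOn_Ioc_of_le zero_le_one] at this
      exact this
    rw [zero_add]
    have hm2 : Measurable (QuotientAddGroup.mk : ℝ → UnitAddCircle) :=
      AddCircle.measurable_mk'
    refine Integrable.mono' h3 (hm.comp hm2).aestronglyMeasurable ?_
    refine (ae_restrict_iff' measurableSet_Ioc).2 (Eventually.of_forall fun x hx => ?_)
    simp only [Function.comp]
    rw [Real.norm_eq_abs, abs_of_nonneg (by positivity)]
    have hx0 : 0 ≤ x ^ s := Real.rpow_nonneg hx.1.le _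
    have hx1 : 0 ≤ (1 - x) ^ s := Real.rpow_nonneg (by linarith [hx.2]) _
    have h4 : (0 : ℝ) < 4 ^ s := by positivity
    rcases hx.2.lt_or_eq with h1x | h1x
    · have hmin : 0 < min x (1 - x) := lt_min hx.1 (by linarith)
      refine (Real.rpow_le_rpow_of_nonpos (by positivity) (kp_norm_real hx.1.le hx.2) h0.le).trans ?_
      rw [Real.mul_rpow (by norm_num) hmin.le]
      refine mul_le_mul_of_nonneg_left ?_ h4.le
      rcases min_choice x (1 - x) with h | h <;> rw [h] <;> linarith
    · subst h1x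
      have h5 : e ((1 : ℝ) : UnitAddCircle) = 1 := by
        rw [e_coe, circleMap]
        simp
      have h6 : ‖1 - e ((1 : ℝ) : UnitAddCircle)‖ ^ s = 0 := by
        rw [h5, sub_self, norm_zero, Real.zero_rpow h0.ne]
      rw [h6]
      positivity

private theorem kp_rot {t : ℂ} (ht : ‖t‖ = 1) :
    ∃ y0 : UnitAddCircle, ∀ y, conj t * e y = e (y - y0) := by
  obtain ⟨y0, hy0⟩ := Pool.Agent.TBir.exists_e ht
  refine ⟨y0, fun y => ?_⟩
  have h1 : e (y - y0) * e y0 = e y := by
    unfold e
    rw [← Circle.coe_mul, ← toCircle_add, sub_add_cancel]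
  have h2 : conj t * t = 1 := by
    rw [mul_comm, Complex.mul_conj, Complex.normSq_eq_norm_sq, ht]
    simp
  rw [← h1, hy0, mul_comm (e (y - y0)) t, ← mul_assoc, h2, one_mul]

private theorem kp_int {t : ℂ} (ht : ‖t‖ = 1) {s : ℝ} (hs : -1 < s) :
    Integrable (fun y : UnitAddCircle => ‖1 - conj t * e y‖ ^ s) mu0 := by
  obtain ⟨y0, h⟩ := kp_rot ht
  simp_rw [h]
  exact (kp_int0 hs).comp_sub_right y0

private theorem kp_nw {t : ℂ} (ht : ‖t‖ = 1) (y : UnitAddCircle) : ‖conj t * e y‖ = 1 := by
  rw [norm_mul, RCLike.norm_conj, ht, norm_e, one_mul]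

private theorem kp_n2 {t : ℂ} (ht : ‖t‖ = 1) (y : UnitAddCircle) : ‖1 - conj t * e y‖ ≤ 2 := by
  calc ‖1 - conj t * e y‖ ≤ ‖(1 : ℂ)‖ + ‖conj t * e y‖ := norm_sub_le _ _
    _ = 2 := by rw [kp_nw ht, norm_one]; norm_num

private theorem kp_ne {t : ℂ} (ht : ‖t‖ = 1) {y : UnitAddCircle} (hy : e y ≠ t) :
    1 - conj t * e y ≠ 0 := by
  intro h
  have h2 : t * conj t = 1 := by
    rw [Complex.mul_conj, Complex.normSq_eq_norm_sq, ht]
    simp
  have h3 : conj t * e y = 1 := (sub_eq_zero.1 h).symm
  apply hy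
  calc e y = (t * conj t) * e y := by rw [h2, one_mul]
    _ = t := by rw [mul_assoc, h3, mul_one]

private theorem kp_ae (t : ℂ) : ∀ᵐ y ∂mu0, e y ≠ t := by
  rw [ae_iff]
  refine PsiAux.null (Set.Subsingleton.finite fun a ha b hb => PsiAux.e_inj ?_)
  simp only [mem_ofPred_eq, not_not] at ha hb
  rw [ha, hb]

private theorem kp_nb (z c : ℂ) : ‖z ^ c‖ ≤ Real.exp (Real.pi * |c.im|) * ‖z‖ ^ c.re := by
  refine (Complex.norm_cpow_le z c).trans ?_
  rw [div_eq_mul_inv, ← Real.exp_neg, mul_comm]
  refine mul_le_mul_of_nonneg_right (Real.exp_le_exp.2 ?_) (by positivity)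
  calc -(arg z * c.im) ≤ |arg z * c.im| := neg_le_abs _
    _ = |arg z| * |c.im| := abs_mul _ _
    _ ≤ Real.pi * |c.im| := mul_le_mul_of_nonneg_right (Complex.abs_arg_le_pi z) (abs_nonneg _)

private theorem kp_cd (t : ℂ) : Continuous fun y : UnitAddCircle => 1 - conj t * e y :=
  continuous_const.sub (continuous_const.mul continuous_e)

private theorem kp_meas (t c : ℂ) :
    AEStronglyMeasurable (fun y : UnitAddCircle => (1 - conj t * e y) ^ c) mu0 :=
  ((kp_cd t).measurable.pow_const c).aestronglyMeasurable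

private theorem kp_mem {t c : ℂ} (ht : ‖t‖ = 1) (hc : -1 / 2 < c.re) :
    MemLp (fun y : UnitAddCircle => (1 - conj t * e y) ^ c) 2 mu0 := by
  rw [memLp_two_iff_integrable_sq_norm (kp_meas t c)]
  have h1 := (kp_int ht (s := c.re * 2) (by linarith)).const_mul
    (Real.exp (Real.pi * |c.im|) ^ 2)
  refine Integrable.mono' h1 ((kp_meas t c).norm.pow 2) (Eventually.of_forall fun y => ?_)
  rw [Real.norm_eq_abs, abs_of_nonneg (by positivity)]
  refine (pow_le_pow_left₀ (norm_nonneg _) (kp_nb _ c) 2).trans (le_of_eq ?_)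
  rw [mul_pow, Real.rpow_mul (norm_nonneg _)]
  norm_num

private theorem kp_coef {t c : ℂ} (ht : ‖t‖ = 1) (hc : -1 < c.re) {n : ℤ} (hn : n < 0) :
    fourierCoeff (fun y : UnitAddCircle => (1 - conj t * e y) ^ c) n = 0 := by
  set rr : ℕ → ℝ := fun n => 1 - 1 / ((n : ℝ) + 2) with hrr
  have hr0 : ∀ n, 0 < rr n := by
    intro n
    have : 1 / ((n : ℝ) + 2) < 1 := by
      rw [div_lt_one (by positivity)]
      linarith [(Nat.cast_nonneg n : (0 : ℝ) ≤ n)]
    rw [hrr]
    simp only
    linarith
  have hr1 : ∀ n, rr n < 1 := by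
    intro n
    have : 0 < 1 / ((n : ℝ) + 2) := by positivity
    rw [hrr]
    simp only
    linarith
  have hlim : Tendsto rr atTop (𝓝 1) := by
    have h1 : Tendsto (fun n : ℕ => 1 / ((n : ℝ) + 2)) atTop (𝓝 0) := by
      have h2 := tendsto_one_div_add_atTop_nhds_zero_nat (𝕜 := ℝ)
      have h3 := h2.comp (tendsto_add_atTop_nat 1)
      refine h3.congr fun n => ?_
      simp only [Function.comp]
      push_cast
      ring
    have h2 := h1.const_sub 1
    rwa [sub_zero] at h2
  set G : ℕ → ℂ → ℂ := fun k z => (1 - (rr k : ℂ) * (conj t * z)) ^ c with hG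
  have hslit : ∀ k, ∀ z : ℂ, ‖z‖ ≤ 1 → 1 - (rr k : ℂ) * (conj t * z) ∈ slitPlane := by
    intro k z hz
    refine Or.inl ?_
    have h1 : ((rr k : ℂ) * (conj t * z)).re ≤ rr k := by
      refine (Complex.re_le_norm _).trans ?_
      rw [norm_mul, norm_mul, RCLike.norm_conj, ht, Complex.norm_real, Real.norm_eq_abs,
        abs_of_pos (hr0 k)]
      nlinarith [hr0 k]
    rw [Complex.sub_re, Complex.one_re]
    linarith [hr1 k]
  have hGd : ∀ k, ∀ z : ℂ, ‖z‖ ≤ 1 → DifferentiableAt ℂ (G k) z := by
    intro k z hz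
    have h1 : DifferentiableAt ℂ (fun z : ℂ => 1 - (rr k : ℂ) * (conj t * z)) z := by fun_prop
    exact h1.cpow_const (hslit k z hz)
  have hGc : ∀ k, Continuous fun y : UnitAddCircle => G k (e y) := by
    intro k
    refine continuous_iff_continuousAt.2 fun y => ?_
    exact ContinuousAt.comp (f := e) (hGd k (e y) (norm_e y).le).continuousAt
      continuous_e.continuousAt
  have hz : ∀ k, fourierCoeff (fun y : UnitAddCircle => G k (e y)) n = 0 := by
    intro k
    have h1 : ContinuousOn (G k) (closedBall 0 1) := fun z hz =>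
      (hGd k z (by simpa using hz)).continuousAt.continuousWithinAt
    have h2 : DifferentiableOn ℂ (G k) (ball 0 1) := fun z hz =>
      (hGd k z (by simpa using (mem_ball.1 hz).le)).differentiableWithinAt
    exact (disc_alg h1 h2 (A := ⟨fun y => G k (e y), hGc k⟩) (fun _ => rfl)).1 n hn
  have hmain : Tendsto (fun k => fourierCoeff (fun y : UnitAddCircle => G k (e y)) n) atTop
      (𝓝 (fourierCoeff (fun y : UnitAddCircle => (1 - conj t * e y) ^ c) n)) := by
    unfold fourierCoeff
    refine tendsto_integral_of_dominated_convergence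
      (fun y => Real.exp (Real.pi * |c.im|) * (‖1 - conj t * e y‖ ^ c.re * (1 / 2) ^ c.re + 2 ^ c.re))
      ?_ ?_ ?_ ?_
    · intro k
      exact ((map_continuous (fourier (-n))).smul (hGc k)).aestronglyMeasurable
    · exact (((kp_int ht hc).mul_const _).add (integrable_const _)).const_mul _
    · intro k
      filter_upwards [kp_ae t] with y hy
      have h0 := norm_pos_iff.2 (kp_ne ht hy)
      have hfn : ‖(fourier (-n) : CT) y‖ = 1 := by
        rw [fourier_eq_e, norm_zpow, norm_e, one_zpow]
      rw [norm_smul, hfn, one_mul]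
      refine (kp_nb _ c).trans (mul_le_mul_of_nonneg_left ?_ (Real.exp_pos _).le)
      have hw := kp_nw ht y
      have hup : ‖1 - (rr k : ℂ) * (conj t * e y)‖ ≤ 2 := by
        refine (norm_sub_le _ _).trans ?_
        rw [norm_mul, hw, Complex.norm_real, Real.norm_eq_abs, abs_of_pos (hr0 k), norm_one]
        linarith [hr1 k]
      have hlo : ‖1 - conj t * e y‖ / 2 ≤ ‖1 - (rr k : ℂ) * (conj t * e y)‖ := by
        have h1 : 1 - rr k ≤ ‖1 - (rr k : ℂ) * (conj t * e y)‖ := by
          have := norm_sub_norm_le (1 : ℂ) ((rr k : ℂ) * (conj t * e y))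
          rw [norm_mul, hw, Complex.norm_real, Real.norm_eq_abs, abs_of_pos (hr0 k), norm_one,
            mul_one] at this
          exact this
        have h2 : ‖1 - conj t * e y‖ ≤ ‖1 - (rr k : ℂ) * (conj t * e y)‖ + (1 - rr k) := by
          have h3 : 1 - conj t * e y = (1 - (rr k : ℂ) * (conj t * e y)) -
              ((1 - rr k : ℝ) : ℂ) * (conj t * e y) := by
            push_cast
            ring
          rw [h3]
          refine (norm_sub_le _ _).trans (add_le_add le_rfl ?_)
          rw [norm_mul, hw, Complex.norm_real, Real.norm_eq_abs, abs_of_pos (by linarith [hr1 k]),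
            mul_one]
        linarith
      have ha : 0 ≤ ‖1 - conj t * e y‖ ^ c.re * (1 / 2) ^ c.re := by positivity
      have hb : (0 : ℝ) ≤ 2 ^ c.re := by positivity
      rcases le_or_gt 0 c.re with h | h
      · have := Real.rpow_le_rpow (norm_nonneg _) hup h
        linarith
      · have := Real.rpow_le_rpow_of_nonpos (by positivity) hlo h.le
        rw [div_eq_mul_one_div, Real.mul_rpow (norm_nonneg _) (by norm_num)] at this
        linarith
    · filter_upwards [kp_ae t] with y hy
      refine Tendsto.const_smul ?_ _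
      have h1 : Tendsto (fun k => 1 - (rr k : ℂ) * (conj t * e y)) atTop
          (𝓝 (1 - (1 : ℂ) * (conj t * e y))) := by
        have h2 : Tendsto (fun k => (rr k : ℂ)) atTop (𝓝 ((1 : ℝ) : ℂ)) :=
          (Complex.continuous_ofReal.tendsto 1).comp hlim
        rw [ofReal_one] at h2
        exact (h2.mul_const _).const_sub 1
      rw [one_mul] at h1
      have h3 : 1 - conj t * e y ∈ slitPlane := by
        rw [mem_slitPlane_iff]
        have h4 : (conj t * e y).re ≤ 1 := (Complex.re_le_norm _).trans (kp_nw ht y).le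
        by_cases h5 : (conj t * e y).re = 1
        · exfalso
          apply kp_ne ht hy
          have h6 : (conj t * e y).im = 0 := by
            have h7 := Complex.sq_norm (conj t * e y)
            rw [kp_nw ht, Complex.normSq_apply, h5] at h7
            nlinarith
          apply Complex.ext
          · simp only [Complex.sub_re, Complex.one_re, Complex.zero_re]
            linarith
          · simp only [Complex.sub_im, Complex.one_im, Complex.zero_im]
            linarith
        · left
          rw [Complex.sub_re, Complex.one_re]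
          have := lt_of_le_of_ne h4 h5
          linarith
      exact (continuousAt_cpow_const (b := c) h3).tendsto.comp h1
  have h0 : (fun k => fourierCoeff (fun y : UnitAddCircle => G k (e y)) n) = fun _ => 0 :=
    funext hz
  rw [h0] at hmain
  exact tendsto_nhds_unique hmain tendsto_const_nhds

theorem kap_memLp {t b : ℂ} (ht : ‖t‖ = 1) (hb : 1 / 2 < b.re) :
    MemLp (fun y : UnitAddCircle => (1 - conj t * e y) ^ (conj b - 1)) 2 mu0 := by
  refine kp_mem ht ?_
  rw [Complex.sub_re, Complex.conj_re, Complex.one_re]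
  linarith

private theorem kp_H2 {t c : ℂ} (ht : ‖t‖ = 1) (hc : -1 / 2 < c.re) :
    (kp_mem ht hc).toLp _ ∈ H2 := by
  intro n hn
  have h1 : fourierCoeff (((kp_mem ht hc).toLp _ : L2) : UnitAddCircle → ℂ) n =
      fourierCoeff (fun y : UnitAddCircle => (1 - conj t * e y) ^ c) n := by
    unfold fourierCoeff
    refine integral_congr_ae ?_
    filter_upwards [(kp_mem ht hc).coeFn_toLp] with y hy
    rw [hy]
  rw [h1]
  exact kp_coef ht (by linarith) hn

theorem kap_coe {t b : ℂ} (ht : ‖t‖ = 1) (hb : 1 / 2 < b.re) :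
    (incl (kap t b) : UnitAddCircle → ℂ) =ᵐ[mu0] fun y => (1 - conj t * e y) ^ (conj b - 1) := by
  have hc : -1 / 2 < (conj b - 1).re := by
    rw [Complex.sub_re, Complex.conj_re, Complex.one_re]
    linarith
  have h1 : incl (kap t b) = (kp_mem ht hc).toLp _ := by
    unfold kap
    rw [dif_pos (kap_memLp ht hb)]
    exact TpB_incl_proj (kp_H2 ht hc)
  rw [h1]
  exact (kp_mem ht hc).coeFn_toLp

private theorem kp_conj {t : ℂ} (ht : ‖t‖ = 1) {y : UnitAddCircle} (hy : e y ≠ t) (b : ℂ) :
    conj ((1 - conj t * e y) ^ (conj b - 1)) = (1 - t * conj (e y)) ^ (b - 1) := by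
  have h1 : (1 - conj t * e y).arg ≠ Real.pi := by
    intro h
    have h2 : 0 ≤ (1 - conj t * e y).re := by
      rw [Complex.sub_re, Complex.one_re]
      have := (Complex.re_le_norm (conj t * e y)).trans (kp_nw ht y).le
      linarith
    rw [Complex.arg_eq_pi_iff] at h
    linarith [h.1]
  have h3 := Complex.conj_cpow (1 - conj t * e y) (b - 1) h1
  rw [show conj b - 1 = conj (b - 1) by rw [map_sub, map_one], ← h3]
  simp

private theorem kp_alg {t b : ℂ} (ht : ‖t‖ = 1) (hb : 1 / 2 < b.re) {y : UnitAddCircle}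
    (hy : e y ≠ t) : conj ((1 - conj t * e y) ^ (conj b - 1)) * eta t b y =
      -(conj t * e y * (1 - conj t * e y) ^ (b - 1)) := by
  have hb0 : 0 < b.re := by linarith
  have h1 := pwM_eta ht hb0 hy
  rw [pwM_apply ht hb0, pwP_apply ht hb0] at h1
  have hn := kp_ne ht hy
  have hn' : 1 - t * conj (e y) ≠ 0 := by
    intro h
    apply hn
    have := congrArg conj h
    simpa using this
  have h2 : (1 - conj t * e y) = (1 - t * conj (e y)) * -(conj t * e y) := by
    have h3 : t * conj t = 1 := by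
      rw [Complex.mul_conj, Complex.normSq_eq_norm_sq, ht]
      simp
    have h4 : e y * conj (e y) = 1 := by
      rw [Complex.mul_conj, Complex.normSq_eq_norm_sq, norm_e]
      simp
    linear_combination (-(e y * conj (e y))) * h3 - h4
  rw [kp_conj ht hy, Complex.cpow_sub _ _ hn', Complex.cpow_one, Complex.cpow_sub _ _ hn,
    Complex.cpow_one, ← h1]
  generalize (1 - t * conj (e y)) ^ b = A
  rw [div_mul_eq_mul_div, div_eq_iff hn', neg_mul, mul_assoc, div_mul_eq_mul_div, mul_div_assoc',
    ← neg_div, eq_div_iff hn, h2]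
  ring

private theorem kp_nD (t : ℂ) (y : UnitAddCircle) :
    ‖1 - t * conj (e y)‖ = ‖1 - conj t * e y‖ := by
  rw [← RCLike.norm_conj (1 - t * conj (e y))]
  simp

private theorem kp_log {ε N : ℝ} (hε : 0 < ε) (h0 : 0 < N) (h2 : N ≤ 2) :
    |Real.log N| * N ^ ε ≤ 1 / ε + 2 ^ ε := by
  have h3 : (0 : ℝ) < 2 ^ ε := by positivity
  rcases le_or_gt N 1 with h | h
  · have := Real.abs_log_mul_self_rpow_lt N ε h0 h hε
    rw [abs_mul, abs_of_pos (Real.rpow_pos_of_pos h0 ε)] at this
    linarith
  · have h4 : |Real.log N| ≤ 1 := by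
      rw [abs_of_nonneg (Real.log_nonneg h.le)]
      linarith [Real.log_le_sub_one_of_pos h0]
    have h5 : N ^ ε ≤ 2 ^ ε := Real.rpow_le_rpow h0.le h2 hε.le
    have h6 : 0 < 1 / ε := by positivity
    have h7 := mul_le_mul h4 h5 (Real.rpow_nonneg h0.le _) zero_le_one
    linarith

private theorem kp_memD {t b : ℂ} (ht : ‖t‖ = 1) (hb : 1 / 2 < b.re) :
    MemLp (fun y : UnitAddCircle => (1 - t * conj (e y)) ^ (b - 1)) 2 mu0 := by
  refine (kap_memLp ht hb).mono ?_ ?_
  · exact ((continuous_const.sub (continuous_const.mul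
      (Complex.continuous_conj.comp continuous_e))).measurable.pow_const _).aestronglyMeasurable
  · filter_upwards [kp_ae t] with y hy
    rw [← kp_conj ht hy, RCLike.norm_conj]

private theorem kp_bd {t b0 b : ℂ} (ht : ‖t‖ = 1) {ε : ℝ} (hε : 0 < ε) (hb : b ∈ ball b0 ε)
    {y : UnitAddCircle} (hy : e y ≠ t) :
    ‖(1 - t * conj (e y)) ^ (b - 1) * Complex.log (1 - t * conj (e y))‖ ≤
      Real.exp (Real.pi * (|b0.im| + ε)) * 2 ^ (2 * ε) * (1 / ε + 2 ^ ε + Real.pi * 2 ^ ε) *
        ‖1 - conj t * e y‖ ^ (b0.re - 1 - 2 * ε) := by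
  set N : ℝ := ‖1 - conj t * e y‖ with hN
  have hN0 : 0 < N := norm_pos_iff.2 (kp_ne ht hy)
  have hN2 : N ≤ 2 := kp_n2 ht y
  have hd : ‖b - b0‖ < ε := by rwa [mem_ball, dist_eq_norm] at hb
  have hre : |b.re - b0.re| < ε := by
    have := Complex.abs_re_le_norm (b - b0)
    rw [Complex.sub_re] at this
    linarith
  have him : |b.im - b0.im| < ε := by
    have := Complex.abs_im_le_norm (b - b0)
    rw [Complex.sub_im] at this
    linarith
  have hre' := abs_lt.1 hre
  have h1 : ‖(1 - t * conj (e y)) ^ (b - 1)‖ ≤ Real.exp (Real.pi * (|b0.im| + ε)) *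
      (2 ^ (2 * ε) * N ^ (b0.re - 1 - 2 * ε + ε)) := by
    refine (kp_nb _ _).trans ?_
    rw [kp_nD, ← hN]
    refine mul_le_mul ?_ ?_ (by positivity) (Real.exp_pos _).le
    · refine Real.exp_le_exp.2 (mul_le_mul_of_nonneg_left ?_ Real.pi_pos.le)
      rw [Complex.sub_im, Complex.one_im, sub_zero]
      have : |b.im| ≤ |b0.im| + |b.im - b0.im| := by
        calc |b.im| = |b0.im + (b.im - b0.im)| := by ring_nf
          _ ≤ _ := abs_add_le _ _
      linarith
    · rw [Complex.sub_re, Complex.one_re]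
      have h2 : b.re - 1 = (b.re - b0.re + ε) + (b0.re - 1 - 2 * ε + ε) := by ring
      rw [h2, Real.rpow_add hN0]
      refine mul_le_mul_of_nonneg_right ?_ (by positivity)
      refine (Real.rpow_le_rpow hN0.le hN2 (by linarith)).trans ?_
      exact Real.rpow_le_rpow_of_exponent_le (by norm_num) (by linarith)
  have h3 : ‖Complex.log (1 - t * conj (e y))‖ ≤ |Real.log N| + Real.pi := by
    have h4 : Complex.log (1 - t * conj (e y)) = ((Real.log N : ℝ) : ℂ) +
        ((1 - t * conj (e y)).arg : ℂ) * I := by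
      unfold Complex.log
      rw [kp_nD]
    rw [h4]
    refine (norm_add_le _ _).trans (add_le_add ?_ ?_)
    · rw [Complex.norm_real, Real.norm_eq_abs]
    · rw [norm_mul, Complex.norm_I, mul_one, Complex.norm_real, Real.norm_eq_abs]
      exact Complex.abs_arg_le_pi _
  have h5 : N ^ ε * (|Real.log N| + Real.pi) ≤ 1 / ε + 2 ^ ε + Real.pi * 2 ^ ε := by
    have h6 := kp_log hε hN0 hN2
    have h7 : N ^ ε ≤ 2 ^ ε := Real.rpow_le_rpow hN0.le hN2 hε.le
    nlinarith [Real.pi_pos]
  rw [norm_mul]
  calc ‖(1 - t * conj (e y)) ^ (b - 1)‖ * ‖Complex.log (1 - t * conj (e y))‖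
      ≤ (Real.exp (Real.pi * (|b0.im| + ε)) * (2 ^ (2 * ε) * N ^ (b0.re - 1 - 2 * ε + ε))) *
        (|Real.log N| + Real.pi) := mul_le_mul h1 h3 (norm_nonneg _) (by positivity)
    _ = Real.exp (Real.pi * (|b0.im| + ε)) * 2 ^ (2 * ε) * (N ^ ε * (|Real.log N| + Real.pi)) *
        N ^ (b0.re - 1 - 2 * ε) := by
        rw [Real.rpow_add hN0]
        ring
    _ ≤ _ := by
        refine mul_le_mul_of_nonneg_right (mul_le_mul_of_nonneg_left h5 (by positivity))
          (by positivity)

theorem kap_ana {t : ℂ} (ht : ‖t‖ = 1) (f : Hardy) :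
    DifferentiableOn ℂ (fun b => inner ℂ (kap t b) f) {b : ℂ | 1 / 2 < b.re} := by
  intro b0 hb0
  have hb0' : 1 / 2 < b0.re := hb0
  have hop : IsOpen {b : ℂ | 1 / 2 < b.re} := isOpen_lt continuous_const Complex.continuous_re
  have heq : ∀ b ∈ {b : ℂ | 1 / 2 < b.re}, inner ℂ (kap t b) f =
      ∫ y, (1 - t * conj (e y)) ^ (b - 1) * (incl f : UnitAddCircle → ℂ) y ∂mu0 := by
    intro b hb
    have h1 : inner ℂ (kap t b) f = inner ℂ (incl (kap t b)) (incl f) := by
      rw [← TpB_inner_proj, TpB_proj_incl]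
    rw [h1, MeasureTheory.L2.inner_def]
    refine integral_congr_ae ?_
    filter_upwards [kap_coe ht hb, kp_ae t] with y h2 hy
    rw [h2]
    simp only [RCLike.inner_apply]
    rw [kp_conj ht hy, mul_comm]
  set ε : ℝ := (b0.re - 1 / 2) / 4 with hε
  have hε0 : 0 < ε := by rw [hε]; linarith
  have hσ : -1 / 2 < b0.re - 1 - 2 * ε := by rw [hε]; linarith
  have hf : MemLp (incl f : UnitAddCircle → ℂ) 2 mu0 := Lp.memLp _
  have hNm : MemLp (fun y : UnitAddCircle => ‖1 - conj t * e y‖ ^ (b0.re - 1 - 2 * ε)) 2 mu0 := by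
    have h1 := (kp_mem ht (c := ((b0.re - 1 - 2 * ε : ℝ) : ℂ)) (by
      rw [Complex.ofReal_re]; exact hσ)).norm
    refine h1.congr_norm ?_ (Eventually.of_forall fun y => ?_)
    · exact ((kp_cd t).norm.measurable.pow_const _).aestronglyMeasurable
    · rw [Complex.norm_cpow_real]
  have hkey := hasDerivAt_integral_of_dominated_loc_of_deriv_le (μ := mu0) (x₀ := b0)
    (F := fun b y => (1 - t * conj (e y)) ^ (b - 1) * (incl f : UnitAddCircle → ℂ) y)
    (F' := fun b y => ((1 - t * conj (e y)) ^ (b - 1) * Complex.log (1 - t * conj (e y))) *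
      (incl f : UnitAddCircle → ℂ) y)
    (bound := fun y => (Real.exp (Real.pi * (|b0.im| + ε)) * 2 ^ (2 * ε) *
      (1 / ε + 2 ^ ε + Real.pi * 2 ^ ε)) *
        (‖1 - conj t * e y‖ ^ (b0.re - 1 - 2 * ε) * ‖(incl f : UnitAddCircle → ℂ) y‖))
    (ball_mem_nhds b0 hε0) ?_ ?_ ?_ ?_ ?_ ?_
  · have h2 := hkey.2.differentiableAt
    refine (h2.congr_of_eventuallyEq ?_).differentiableWithinAt
    filter_upwards [hop.mem_nhds hb0] with b hb
    exact heq b hb
  · filter_upwards [hop.mem_nhds hb0] with b hb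
    exact (kp_memD ht hb).aestronglyMeasurable.mul hf.aestronglyMeasurable
  · exact (kp_memD ht hb0').integrable_mul hf
  · refine ((kp_memD ht hb0').aestronglyMeasurable.mul ?_).mul hf.aestronglyMeasurable
    exact (Complex.measurable_log.comp (continuous_const.sub (continuous_const.mul
      (Complex.continuous_conj.comp continuous_e))).measurable).aestronglyMeasurable
  · filter_upwards [kp_ae t] with y hy b hb
    rw [norm_mul]
    have := mul_le_mul_of_nonneg_right (kp_bd ht hε0 hb hy)
      (norm_nonneg ((incl f : UnitAddCircle → ℂ) y))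
    refine this.trans (le_of_eq ?_)
    ring
  · exact (hNm.integrable_mul hf.norm).const_mul _
  · filter_upwards [kp_ae t] with y hy b hb
    have hn' : 1 - t * conj (e y) ≠ 0 := by
      rw [← norm_pos_iff, kp_nD]
      exact norm_pos_iff.2 (kp_ne ht hy)
    have h1 : HasDerivAt (fun b : ℂ => b - 1) 1 b := (hasDerivAt_id b).sub_const 1
    have h2 := (h1.const_cpow (c := 1 - t * conj (e y)) (Or.inl hn')).mul_const
      ((incl f : UnitAddCircle → ℂ) y)
    rw [mul_one] at h2
    exact h2

theorem kap_van {t b : ℂ} (ht : ‖t‖ = 1) (hb : 1 / 2 < b.re) (h : Hardy) :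
    inner ℂ (kap t b) (TM (mf (eta t b)) h) = 0 := by
  have hb' : 1 / 2 < (conj b).re := by rwa [Complex.conj_re]
  have h1 : inner ℂ (kap t b) (TM (mf (eta t b)) h) =
      inner ℂ (incl (kap t b)) (mf (eta t b) (incl h)) := TpB_inner_proj _ _
  have hc : -1 / 2 < (b - 1).re := by
    rw [Complex.sub_re, Complex.one_re]
    linarith
  have hm : MemLp (fun y : UnitAddCircle => conj (conj t * e y * (1 - conj t * e y) ^ (b - 1)))
      2 mu0 := by
    refine (kp_mem ht hc).mono ?_ (Eventually.of_forall fun y => ?_)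
    · refine Complex.continuous_conj.comp_aestronglyMeasurable ?_
      exact (continuous_const.mul continuous_e).aestronglyMeasurable.mul (kp_meas t _)
    · rw [RCLike.norm_conj, norm_mul, kp_nw ht, one_mul]
  set X : L2 := hm.toLp _ with hX
  have hXc := hm.coeFn_toLp
  rw [← hX] at hXc
  have h2 : inner ℂ (incl (kap t b)) (mf (eta t b) (incl h)) = -inner ℂ X (incl h) := by
    rw [MeasureTheory.L2.inner_def, MeasureTheory.L2.inner_def, ← integral_neg]
    refine integral_congr_ae ?_
    filter_upwards [hXc, kap_coe ht hb, mf_coe (eta_memLp ht b) (incl h), kp_ae t] with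
      y h3 h4 h5 hy
    rw [h3, h4, h5]
    simp only [RCLike.inner_apply]
    rw [Complex.conj_conj]
    have h6 := kp_alg ht hb hy
    linear_combination (incl h : UnitAddCircle → ℂ) y * h6
  rw [h1, h2, neg_eq_zero]
  have h3 := (fourierBasis (T := (1 : ℝ))).hasSum_inner_mul_inner X (incl h)
  have h4 : (fun i : ℤ => inner ℂ X ((fourierBasis (T := (1 : ℝ))) i) *
      inner ℂ ((fourierBasis (T := (1 : ℝ))) i) (incl h)) = fun _ => 0 := by
    funext i
    rcases lt_or_ge i 0 with hi | hi
    · have h5 : inner ℂ ((fourierBasis (T := (1 : ℝ))) i) (incl h) = 0 := by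
        rw [← HilbertBasis.repr_apply_apply, fourierBasis_repr]
        exact h.2 i hi
      rw [h5, mul_zero]
    · have h5 : fourierCoeff (X : UnitAddCircle → ℂ) i = 0 := by
        have h6 : fourierCoeff (X : UnitAddCircle → ℂ) i = conj (conj t * fourierCoeff
            (fun y : UnitAddCircle => (1 - conj t * e y) ^ (b - 1)) (-(i + 1))) := by
          unfold fourierCoeff
          rw [← integral_const_mul, ← integral_conj]
          refine integral_congr_ae ?_
          filter_upwards [hXc] with y hy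
          have h7 : conj (e y) = (e y)⁻¹ := by
            have h8 : e y * conj (e y) = 1 := by
              rw [Complex.mul_conj, Complex.normSq_eq_norm_sq, norm_e]
              simp
            exact eq_inv_of_mul_eq_one_right h8
          rw [hy, neg_neg]
          simp only [smul_eq_mul, map_mul, Complex.conj_conj]
          rw [fourier_eq_e, fourier_eq_e, map_zpow₀, h7, inv_zpow', zpow_neg, zpow_neg,
            zpow_add₀ (e_ne_zero y), zpow_one, mul_inv]
          ring
        rw [h6, kp_coef ht (by linarith) (by omega), mul_zero, map_zero]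
      have h6 : inner ℂ X ((fourierBasis (T := (1 : ℝ))) i) = 0 := by
        rw [← inner_conj_symm, ← HilbertBasis.repr_apply_apply, fourierBasis_repr, h5, map_zero]
      rw [h6, zero_mul]
  rw [h4] at h3
  exact h3.unique hasSum_zero

end Pool.Agent.TBirX
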