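import Pool.Agent.TBirX.Def
import Pool.Agent.TBirJ.DiscA
import Pool.Agent.TBirJ.Sgk

/-!
# The functions of a jump

`w = conj t z`: `1 - w = (1 - conj w) * (-w)` on the circle, the arguments are `(θ - π) / 2`, `- (θ - π) / 2`, `θ - π` for `w = E θ`, so `pwM * eta = pwP`. `Plus`, `Minus`: `(1 - r w) ^ b` is a power series in `w`, uniformly convergent to `(1 - w) ^ b` for `r → 1` (`0 < re b`).
-/

set_option autoImplicit false

open MeasureTheory Complex Set Filter Topology Metric AddCircle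
open scoped ComplexConjugate InnerProductSpace ENNReal

namespace Pool.Agent.TBirX

open Pool.Agent.TBir Pool.Agent.TBirG Pool.Agent.TBirC Pool.Agent.TBirJ Pool.Agent.TBirK
open Pool.Agent.TBirN
open Pool.Agent.TBirP (E qT)

private theorem pw_re {t z : ℂ} (ht : ‖t‖ = 1) (hz : ‖z‖ ≤ 1) : 0 ≤ (1 - conj t * z).re := by
  have h1 : (conj t * z).re ≤ ‖conj t * z‖ := Complex.re_le_norm _
  rw [norm_mul, RCLike.norm_conj, ht, one_mul] at h1
  rw [sub_re, one_re]
  linarith

private theorem pw_tt {t : ℂ} (ht : ‖t‖ = 1) : t * conj t = 1 := by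
  rw [Complex.mul_conj, Complex.normSq_eq_norm_sq, ht]
  norm_num

private theorem pw_ne {t z : ℂ} (ht : ‖t‖ = 1) (hz : z ≠ t) : 1 - conj t * z ≠ 0 := by
  intro h
  apply hz
  linear_combination (-t) * h - z * pw_tt ht

private theorem pw_re_pos {t z : ℂ} (ht : ‖t‖ = 1) (hz : ‖z‖ ≤ 1) (hzt : z ≠ t) :
    0 < (1 - conj t * z).re := by
  rcases (pw_re ht hz).lt_or_eq with h | h
  · exact h
  · exfalso
    have h1 : (conj t * z).re = 1 := by
      rw [sub_re, one_re] at h
      linarith
    have h2 : ‖conj t * z‖ ≤ 1 := by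
      rw [norm_mul, RCLike.norm_conj, ht, one_mul]
      exact hz
    have h3 : (conj t * z).im = 0 := by
      have h4 := Complex.sq_norm_sub_sq_re (conj t * z)
      rw [h1] at h4
      nlinarith [sq_nonneg (conj t * z).im, norm_nonneg (conj t * z)]
    apply pw_ne ht hzt
    apply Complex.ext
    · rw [← h]
      rfl
    · rw [sub_im, h3]
      simp

private theorem pw_conj (t z : ℂ) : 1 - t * conj z = conj (1 - conj t * z) := by
  simp

private theorem pw_re' {t z : ℂ} (ht : ‖t‖ = 1) (hz : ‖z‖ ≤ 1) : 0 ≤ (1 - t * conj z).re := by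
  rw [pw_conj, conj_re]
  exact pw_re ht hz

private theorem pw_en (y : UnitAddCircle) : ‖e y‖ = 1 := Circle.norm_coe _

private theorem pw_ec : Continuous e := by
  unfold e
  exact continuous_subtype_val.comp AddCircle.continuous_toCircle

private theorem pw_cP {t : ℂ} (ht : ‖t‖ = 1) {X : Type*} [TopologicalSpace X] {f : X → ℂ}
    {g : X → UnitAddCircle} (hf : Continuous f) (hg : Continuous g) (hb : ∀ x, 0 < (f x).re) :
    Continuous fun x => (1 - conj t * e (g x)) ^ f x := by
  rw [continuous_iff_continuousAt]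
  intro x
  have h1 : ContinuousAt (fun p : ℂ × ℂ => p.1 ^ p.2) (1 - conj t * e (g x), f x) :=
    continuousAt_cpow_of_re_pos (Or.inl (pw_re ht (pw_en _).le)) (hb x)
  have h2 : ContinuousAt (fun x => ((1 - conj t * e (g x), f x) : ℂ × ℂ)) x := by
    have := pw_ec.comp hg
    exact ((continuous_const.sub (continuous_const.mul this)).prodMk hf).continuousAt
  exact ContinuousAt.comp (f := fun x => ((1 - conj t * e (g x), f x) : ℂ × ℂ))
    (g := fun p : ℂ × ℂ => p.1 ^ p.2) h1 h2

private theorem pw_cM {t : ℂ} (ht : ‖t‖ = 1) {X : Type*} [TopologicalSpace X] {f : X → ℂ}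
    {g : X → UnitAddCircle} (hf : Continuous f) (hg : Continuous g) (hb : ∀ x, 0 < (f x).re) :
    Continuous fun x => (1 - t * conj (e (g x))) ^ f x := by
  rw [continuous_iff_continuousAt]
  intro x
  have h1 : ContinuousAt (fun p : ℂ × ℂ => p.1 ^ p.2) (1 - t * conj (e (g x)), f x) :=
    continuousAt_cpow_of_re_pos (Or.inl (pw_re' ht (pw_en _).le)) (hb x)
  have h2 : ContinuousAt (fun x => ((1 - t * conj (e (g x)), f x) : ℂ × ℂ)) x := by
    have := Complex.continuous_conj.comp (pw_ec.comp hg)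
    exact ((continuous_const.sub (continuous_const.mul this)).prodMk hf).continuousAt
  exact ContinuousAt.comp (f := fun x => ((1 - t * conj (e (g x)), f x) : ℂ × ℂ))
    (g := fun p : ℂ × ℂ => p.1 ^ p.2) h1 h2

theorem pwP_apply {t b : ℂ} (ht : ‖t‖ = 1) (hb : 0 < b.re) (y : UnitAddCircle) :
    pwP t b y = (1 - conj t * e y) ^ b := by
  have h : Continuous (fun y : UnitAddCircle => (1 - conj t * e y) ^ b) :=
    pw_cP ht continuous_const continuous_id fun _ => hb
  unfold pwP
  rw [dif_pos h]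
  rfl

theorem pwM_apply {t b : ℂ} (ht : ‖t‖ = 1) (hb : 0 < b.re) (y : UnitAddCircle) :
    pwM t b y = (1 - t * conj (e y)) ^ b := by
  have h : Continuous (fun y : UnitAddCircle => (1 - t * conj (e y)) ^ b) :=
    pw_cM ht continuous_const continuous_id fun _ => hb
  unfold pwM
  rw [dif_pos h]
  rfl

theorem pwP_plus {t b : ℂ} (ht : ‖t‖ = 1) (hb : 0 < b.re) : Plus (pwP t b) := by
  refine (disc_alg (G := fun z => (1 - conj t * z) ^ b) ?_ ?_ (pwP_apply ht hb)).1
  · intro z hz
    rw [mem_closedBall_zero_iff] at hz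
    have h1 : ContinuousAt (fun p : ℂ × ℂ => p.1 ^ p.2) (1 - conj t * z, b) :=
      continuousAt_cpow_of_re_pos (Or.inl (pw_re ht hz)) hb
    have h2 : ContinuousAt (fun z : ℂ => ((1 - conj t * z, b) : ℂ × ℂ)) z := by fun_prop
    exact (ContinuousAt.comp (f := fun z : ℂ => ((1 - conj t * z, b) : ℂ × ℂ))
      (g := fun p : ℂ × ℂ => p.1 ^ p.2) h1 h2).continuousWithinAt
  · intro z hz
    rw [mem_ball_zero_iff] at hz
    have hzt : z ≠ t := by
      rintro rfl
      linarith
    have h2 : DifferentiableAt ℂ (fun z : ℂ => 1 - conj t * z) z := by fun_prop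
    exact (h2.cpow_const (Or.inl (pw_re_pos ht hz.le hzt))).differentiableWithinAt

private theorem pw_arg {x : ℂ} (hx : 0 ≤ x.re) : x.arg ≠ Real.pi := by
  intro h
  rw [Complex.arg_eq_pi_iff] at h
  linarith [h.1]

private theorem pwM_star {t b : ℂ} (ht : ‖t‖ = 1) (hb : 0 < b.re) :
    pwM t b = star (pwP t (conj b)) := by
  ext y
  have hb' : 0 < (conj b).re := by
    rw [conj_re]
    exact hb
  rw [pwM_apply ht hb, ContinuousMap.star_apply, pwP_apply ht hb', pw_conj]
  change _ = conj _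
  rw [cpow_conj _ _ (pw_arg (pw_re ht (pw_en y).le)), Complex.conj_conj]

theorem pwM_minus {t b : ℂ} (ht : ‖t‖ = 1) (hb : 0 < b.re) : Minus (pwM t b) := by
  rw [pwM_star ht hb]
  exact SgkAux.plus_minus (pwP_plus ht (by
    rw [conj_re]
    exact hb))

theorem pwM_eta {t b : ℂ} (ht : ‖t‖ = 1) (hb : 0 < b.re) {y : UnitAddCircle} (hy : e y ≠ t) :
    pwM t b y * eta t b y = pwP t b y := by
  rw [pwM_apply ht hb, pwP_apply ht hb]
  unfold eta
  have hy1 := pw_en y
  have h1 : 0 < (1 - conj t * e y).re := pw_re_pos ht hy1.le hy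
  have h2 : 1 - conj t * e y ≠ 0 := pw_ne ht hy
  have h3 : 1 - t * conj (e y) ≠ 0 := by
    rw [pw_conj]
    exact fun h => h2 (by rwa [map_eq_zero] at h)
  have h4 : -(conj t * e y) ≠ 0 := by
    intro h
    have h5 : ‖-(conj t * e y)‖ = 1 := by
      rw [norm_neg, norm_mul, RCLike.norm_conj, ht, hy1, one_mul]
    rw [h, norm_zero] at h5
    exact zero_ne_one h5
  have h5 : log (1 - t * conj (e y)) = conj (log (1 - conj t * e y)) := by
    rw [pw_conj, log_conj _ (pw_arg h1.le)]
  have h6 : |(log (1 - conj t * e y)).im| < Real.pi / 2 := by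
    rw [log_im, Complex.abs_arg_lt_pi_div_two_iff]
    exact Or.inl h1
  rw [abs_lt] at h6
  have h7 : exp (log (1 - conj t * e y) - conj (log (1 - conj t * e y))) = -(conj t * e y) := by
    rw [Complex.exp_sub, ← h5, exp_log h2, exp_log h3, div_eq_iff h3]
    have h8 : e y * conj (e y) = 1 := pw_tt hy1
    have h9 := pw_tt ht
    linear_combination (-(conj t * t)) * h8 - h9
  have h8 : log (-(conj t * e y)) = log (1 - conj t * e y) - conj (log (1 - conj t * e y)) := by
    rw [← h7, log_exp]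
    · rw [sub_im, conj_im]
      linarith
    · rw [sub_im, conj_im]
      linarith
  rw [cpow_def_of_ne_zero h3, cpow_def_of_ne_zero h4, cpow_def_of_ne_zero h2, ← Complex.exp_add,
    h5, h8]
  congr 1
  ring

theorem eta_memLp {t : ℂ} (ht : ‖t‖ = 1) (b : ℂ) : MemLp (eta t b) ∞ mu0 := by
  have h1 : Measurable (eta t b) := by
    unfold eta
    exact ((pw_ec.measurable.const_mul _).neg).pow_const b
  refine memLp_top_of_bound h1.aestronglyMeasurable (Real.exp (Real.pi * |b.im|))
    (ae_of_all _ fun y => ?_)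
  unfold eta
  have h4 : ‖-(conj t * e y)‖ = 1 := by
    rw [norm_neg, norm_mul, RCLike.norm_conj, ht, pw_en y, one_mul]
  have h5 : -(conj t * e y) ≠ 0 := by
    intro h
    rw [h, norm_zero] at h4
    exact zero_ne_one h4
  rw [norm_cpow_of_ne_zero h5, h4, Real.one_rpow, one_div, ← Real.exp_neg]
  apply Real.exp_le_exp.2
  calc -((-(conj t * e y)).arg * b.im) ≤ |(-(conj t * e y)).arg * b.im| := neg_le_abs _
    _ = |(-(conj t * e y)).arg| * |b.im| := abs_mul _ _
    _ ≤ Real.pi * |b.im| := by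
        gcongr
        exact Complex.abs_arg_le_pi _

theorem eta_ne {t : ℂ} (ht : ‖t‖ = 1) (b : ℂ) (y : UnitAddCircle) : eta t b y ≠ 0 := by
  unfold eta
  have h4 : ‖-(conj t * e y)‖ = 1 := by
    rw [norm_neg, norm_mul, RCLike.norm_conj, ht, pw_en y, one_mul]
  intro h
  rw [cpow_eq_zero_iff] at h
  rw [h.1, norm_zero] at h4
  exact zero_ne_one h4

private theorem pw_open : IsOpen {b : ℂ | 0 < b.re} := isOpen_lt continuous_const continuous_re

theorem pwM_tendsto {t b : ℂ} (ht : ‖t‖ = 1) (hb : 0 < b.re) : ContinuousAt (pwM t) b := by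
  have h1 : ContinuousOn (pwM t) {b : ℂ | 0 < b.re} := by
    rw [continuousOn_iff_continuous_domRestrict]
    refine ContinuousMap.continuous_of_continuous_uncurry _ ?_
    have h2 : (Function.uncurry fun (x : {b : ℂ | 0 < b.re}) (y : UnitAddCircle) =>
        ({b : ℂ | 0 < b.re}.domRestrict (pwM t) x) y) =
        fun p : {b : ℂ | 0 < b.re} × UnitAddCircle => (1 - t * conj (e p.2)) ^ (p.1 : ℂ) := by
      funext p
      exact pwM_apply ht p.1.2 p.2
    rw [h2]
    exact pw_cM ht (continuous_subtype_val.comp continuous_fst) continuous_snd fun p => p.1.2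
  exact h1.continuousAt (pw_open.mem_nhds hb)

theorem pwP_tendsto {t b : ℂ} (ht : ‖t‖ = 1) (hb : 0 < b.re) : ContinuousAt (pwP t) b := by
  have h1 : ContinuousOn (pwP t) {b : ℂ | 0 < b.re} := by
    rw [continuousOn_iff_continuous_domRestrict]
    refine ContinuousMap.continuous_of_continuous_uncurry _ ?_
    have h2 : (Function.uncurry fun (x : {b : ℂ | 0 < b.re}) (y : UnitAddCircle) =>
        ({b : ℂ | 0 < b.re}.domRestrict (pwP t) x) y) =
        fun p : {b : ℂ | 0 < b.re} × UnitAddCircle => (1 - conj t * e p.2) ^ (p.1 : ℂ) := by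
      funext p
      exact pwP_apply ht p.1.2 p.2
    rw [h2]
    exact pw_cP ht (continuous_subtype_val.comp continuous_fst) continuous_snd fun p => p.1.2
  exact h1.continuousAt (pw_open.mem_nhds hb)

theorem pwM_ne {t b : ℂ} (ht : ‖t‖ = 1) (hb : 0 < b.re) {y : UnitAddCircle} (hy : e y ≠ t) :
    pwM t b y ≠ 0 := by
  rw [pwM_apply ht hb]
  intro h
  rw [cpow_eq_zero_iff] at h
  apply pw_ne ht hy
  have h1 := h.1
  rw [pw_conj, map_eq_zero] at h1
  exact h1

end Pool.Agent.TBirX
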