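import Pool.Agent.TBirX.Def

/-!
# The range

`rg_of_ix`: the range of `T_phi - l` has codimension `n` (`exists_trJ` with `P = 0`), the functionals `a i` are linearly
independent because the matrix `a i (v j)` is invertible, and vanish on the range.
-/

set_option autoImplicit false

open MeasureTheory Complex Set Filter Topology Metric AddCircle
open scoped ComplexConjugate InnerProductSpace ENNReal

namespace Pool.Agent.TBirX

open Pool.Agent.TBir Pool.Agent.TBirG Pool.Agent.TBirC Pool.Agent.TBirJ Pool.Agent.TBirK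
open Pool.Agent.TBirN
open Pool.Agent.TBirP (E qT)

variable {phi : ℂ → ℂ}

/-- `n` functionals with an invertible matrix which vanish on a common kernel of `n` functionals with a dual basis have the
same common kernel. -/
private theorem rix_gen {H : Type*} [NormedAddCommGroup H] [NormedSpace ℂ H] {K : H → Prop} {n : ℕ}
    {a : Fin n → (H →L[ℂ] ℂ)} {v : Fin n → H}
    (hdet : (Matrix.of fun i j => a i (v j)).det ≠ 0)
    (h : ∀ g, K g → ∀ i, a i g = 0) {b : Fin n → (H →L[ℂ] ℂ)} {w : Fin n → H}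
    (hbw : ∀ i j, b i (w j) = if i = j then 1 else 0) (hK : ∀ f, K f ↔ ∀ i, b i f = 0) (g : H) :
    K g ↔ ∀ i, a i g = 0 := by
  have e1 : ∀ i f, a i f = ∑ k, a i (w k) * b k f := by
    intro i f
    have h1 : K (f - ∑ k, b k f • w k) := by
      rw [hK]
      intro j
      rw [map_sub, map_sum]
      simp only [map_smul, hbw, smul_eq_mul, mul_ite, mul_one, mul_zero, Finset.sum_ite_eq,
        Finset.mem_univ, if_true, sub_self]
    have h2 := h _ h1 i
    rw [map_sub, map_sum, sub_eq_zero] at h2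
    rw [h2]
    exact Finset.sum_congr rfl fun k _ => by rw [map_smul, smul_eq_mul, mul_comm]
  refine ⟨fun hg i => h g hg i, fun hg => (hK g).2 ?_⟩
  obtain ⟨C, hC⟩ : ∃ C : Matrix (Fin n) (Fin n) ℂ, C = Matrix.of fun i k => a i (w k) := ⟨_, rfl⟩
  have hA : (Matrix.of fun i j => a i (v j)) = C * Matrix.of fun k j => b k (v j) := by
    ext i j
    rw [Matrix.mul_apply, hC]
    exact e1 i (v j)
  have hCdet : C.det ≠ 0 := by
    intro h0
    apply hdet
    rw [hA, Matrix.det_mul, h0, zero_mul]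
  have h3 : C.mulVec (fun k => b k g) = 0 := by
    ext i
    have h4 := (e1 i g).symm.trans (hg i)
    rw [hC]
    exact h4
  have h4 := Matrix.eq_zero_of_mulVec_eq_zero hCdet h3
  exact fun k => congrFun h4 k

theorem rg_of_ix (hb : MemLp (fun x : UnitAddCircle => phi (e x)) ∞ mu0) {l0 : ℂ} {n : ℕ}
    (hI : Ix phi l0 n) {a : Fin n → (Hardy →L[ℂ] ℂ)} {v : Fin n → Hardy}
    (hdet : (Matrix.of fun i j => a i (v j)).det ≠ 0)
    (h : ∀ g, RgJ phi g l0 → ∀ i, a i g = 0) (g : Hardy) : RgJ phi g l0 ↔ ∀ i, a i g = 0 := by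
  obtain ⟨tau, ht⟩ := exists_trJ (P := (0 : Op)) hb (mul_zero 0) (by rw [zero_mul, mul_zero]) hI
  obtain ⟨b, w, hbw, hK, -⟩ := ht.self_of_nhds
  exact rix_gen (K := fun g => RgJ phi g l0) hdet h hbw hK g

end Pool.Agent.TBirX
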