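import Pool.Agent.TBirX.Tlc
import Pool.Agent.TBirX.Rix

/-!
# Functionals and vectors along a filter

`RY`: the data along a filter `f` (cones, rays): `k` active families `N j` with vectors `nv j`, concentrated at the points `e (s j)`, symbols `om j`; `m` fixed vectors `ee i` dual to `co (T Om0 _) i`. The functionals are `coL i ∘ T (Om l)` and `N j l ∘ T (om j l)`, the
vectors `ee i` and `(om0 j (s j))⁻¹ • nv j l`; the Gram matrix tends to `1`. `RY.tr`: limit of the trace, `RY.one`: one active family.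
-/

set_option autoImplicit false

open MeasureTheory Complex Set Filter Topology Metric AddCircle
open scoped ComplexConjugate InnerProductSpace ENNReal

namespace Pool.Agent.TBirX

open Pool.Agent.TBir Pool.Agent.TBirG Pool.Agent.TBirC Pool.Agent.TBirJ Pool.Agent.TBirK
open Pool.Agent.TBirN
open Pool.Agent.TBirP (E qT)

/-! ### One concentrated family -/

private theorem rg_to0 {ι : Type} {g : Filter ι} {F : ι → ℂ} (h : ∀ eps > 0, ∀ᶠ l in g, ‖F l‖ ≤ eps) :
    Tendsto F g (𝓝 0) := by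
  rw [Metric.tendsto_nhds]
  intro eps heps
  filter_upwards [h (eps / 2) (half_pos heps)] with l hl
  rw [dist_zero_right]
  linarith

private structure RgCc (g : Filter ℂ) (N : ℂ → (Hardy →L[ℂ] ℂ)) (nv : ℂ → Hardy) (s : UnitAddCircle) :
    Prop where
  rep : ∀ l u, inner ℂ (nv l) u = N l u
  unit : ∀ᶠ l in g, ‖nv l‖ = 1
  conc : ∀ (psi : CT), ∀ eps > 0, ∀ᶠ l in g, ‖mul psi (incl (nv l)) - psi s • incl (nv l)‖ ≤ eps

section
variable {g : Filter ℂ} {N N' : ℂ → (Hardy →L[ℂ] ℂ)} {nv nv' : ℂ → Hardy} {s s' : UnitAddCircle}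
  {om : ℂ → CT} {om0 : CT}

private theorem RgCc.norm (h : RgCc g N nv s) : ∀ᶠ l in g, ‖N l‖ ≤ 1 := by
  filter_upwards [h.unit] with l hl
  refine ContinuousLinearMap.opNorm_le_bound _ zero_le_one fun u => ?_
  rw [← h.rep]
  refine (norm_inner_le_norm _ _).trans ?_
  rw [hl]

private theorem RgCc.fn (h : RgCc g N nv s) (psi : CT) {eps : ℝ} (heps : 0 < eps) :
    ∀ᶠ l in g, ∀ u, ‖N l (T psi u) - psi s * N l u‖ ≤ eps * ‖u‖ := by
  filter_upwards [h.conc (star psi) eps heps] with l hl u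
  have h1 : N l (T psi u) = inner ℂ (mul (star psi) (incl (nv l))) (incl u) := by
    rw [← h.rep, TpB_apply, TpB_inner_proj, inner_mul_symbol]
  have h2 : psi s * N l u = inner ℂ ((star psi) s • incl (nv l)) (incl u) := by
    rw [← h.rep, inner_smul_left, ← TpB_inner_proj, TpB_proj_incl]
    congr 1
    show psi s = conj (conj (psi s))
    rw [Complex.conj_conj]
  rw [h1, h2, ← inner_sub_left]
  refine (norm_inner_le_norm _ _).trans ?_
  rw [TpB_norm_incl]
  exact mul_le_mul_of_nonneg_right hl (norm_nonneg _)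

private theorem RgCc.vec (h : RgCc g N nv s) (psi : CT) {eps : ℝ} (heps : 0 < eps) :
    ∀ᶠ l in g, ‖T psi (nv l) - psi s • nv l‖ ≤ eps := by
  filter_upwards [h.conc psi eps heps] with l hl
  have h1 : T psi (nv l) - psi s • nv l = proj (mul psi (incl (nv l)) - psi s • incl (nv l)) := by
    rw [map_sub, map_smul, TpB_proj_incl, TpB_apply]
  rw [h1]
  exact (TpB_norm_proj _).trans hl

private theorem RgCc.self (h : RgCc g N nv s) : ∀ᶠ l in g, N l (nv l) = 1 := by
  filter_upwards [h.unit] with l hl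
  rw [← h.rep, inner_self_eq_norm_sq_to_K, hl]
  simp

private theorem rg_sub {om : ℂ → CT} {om0 : CT} (h : Tendsto om g (𝓝 om0)) {eps : ℝ} (heps : 0 < eps) :
    ∀ᶠ l in g, ‖T (om l) - T om0‖ ≤ eps := by
  have h1 := (tendsto_iff_norm_sub_tendsto_zero.1 h).eventually_lt_const heps
  filter_upwards [h1] with l hl
  rw [← T_sub]
  exact (norm_T_le _).trans hl.le

private theorem RgCc.tf (h : RgCc g N nv s) (ho : Tendsto om g (𝓝 om0)) {eps : ℝ} (heps : 0 < eps) :
    ∀ᶠ l in g, ∀ u, ‖N l (T (om l) u) - om0 s * N l u‖ ≤ eps * ‖u‖ := by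
  filter_upwards [h.fn om0 (half_pos heps), rg_sub ho (half_pos heps), h.norm] with l h1 h2 h3 u
  have h4 : N l (T (om l) u) - om0 s * N l u = N l ((T (om l) - T om0) u) + (N l (T om0 u) - om0 s * N l u) := by
    have e1 : (T (om l) - T om0) u = T (om l) u - T om0 u := rfl
    rw [e1, map_sub]
    ring
  rw [h4]
  have h5 : ‖N l ((T (om l) - T om0) u)‖ ≤ 1 * (eps / 2 * ‖u‖) :=
    (N l).le_of_opNorm_le_of_le h3 ((T (om l) - T om0).le_of_opNorm_le h2 u)
  refine (norm_add_le _ _).trans ?_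
  have h6 := h1 u
  linarith

private theorem RgCc.tv (h : RgCc g N nv s) (ho : Tendsto om g (𝓝 om0)) {eps : ℝ} (heps : 0 < eps) :
    ∀ᶠ l in g, ‖T (om l) (nv l) - om0 s • nv l‖ ≤ eps := by
  filter_upwards [h.vec om0 (half_pos heps), rg_sub ho (half_pos heps), h.unit] with l h1 h2 h3
  have h4 : T (om l) (nv l) - om0 s • nv l = (T (om l) - T om0) (nv l) + (T om0 (nv l) - om0 s • nv l) := by
    have e1 : (T (om l) - T om0) (nv l) = T (om l) (nv l) - T om0 (nv l) := rfl
    rw [e1]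
    abel
  rw [h4]
  have h5 : ‖(T (om l) - T om0) (nv l)‖ ≤ eps / 2 * ‖nv l‖ := (T (om l) - T om0).le_of_opNorm_le h2 (nv l)
  rw [h3, mul_one] at h5
  refine (norm_add_le _ _).trans ?_
  linarith

private theorem rg_e (s : UnitAddCircle) : (fourier 1 : CT) s = e s := by
  unfold e
  rw [fourier_one]

private theorem rg_ne (s : UnitAddCircle) : ‖e s‖ = 1 := by
  unfold e
  exact Circle.norm_coe _

private theorem RgCc.cross (h : RgCc g N nv s) (h' : RgCc g N' nv' s') (hne : s ≠ s') :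
    Tendsto (fun l => N l (nv' l)) g (𝓝 0) := by
  have hd : (0 : ℝ) < ‖e s - e s'‖ := norm_pos_iff.2 (sub_ne_zero.2 fun h1 => hne (wi_e_inj h1))
  refine rg_to0 fun eps heps => ?_
  have hc : 0 < eps * ‖e s - e s'‖ / 2 := by positivity
  filter_upwards [h.fn (fourier 1) hc, h'.vec (fourier 1) hc, h.norm, h'.unit] with l h1 h2 h3 h4
  rw [rg_e] at h2
  have h5 := h1 (nv' l)
  rw [rg_e, h4, mul_one] at h5
  have h6 : (e s - e s') * N l (nv' l) = -(N l (T (fourier 1) (nv' l)) - e s * N l (nv' l)) +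
      N l (T (fourier 1) (nv' l) - e s' • nv' l) := by
    rw [map_sub, map_smul, smul_eq_mul]
    ring
  have h7 : ‖N l (T (fourier 1) (nv' l) - e s' • nv' l)‖ ≤ 1 * (eps * ‖e s - e s'‖ / 2) :=
    (N l).le_of_opNorm_le_of_le h3 h2
  have h8 : ‖e s - e s'‖ * ‖N l (nv' l)‖ ≤ eps * ‖e s - e s'‖ := by
    rw [← norm_mul, h6]
    refine (norm_add_le _ _).trans ?_
    rw [norm_neg]
    linarith
  rw [mul_comm] at h8
  exact le_of_mul_le_mul_right h8 hd

private theorem rg_orth (i : ℕ) : Orthonormal ℂ (fun k : ℕ => mono (i + k)) := by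
  rw [orthonormal_iff_ite]
  intro a b
  have h1 : inner ℂ (mono (i + a)) (mono (i + b)) = co (mono (i + b)) (i + a) := by
    rw [← coL_apply]
    rfl
  rw [h1, co_mono]
  by_cases h : a = b
  · rw [if_pos (by omega), if_pos h]
  · rw [if_neg (by omega), if_neg h]

private theorem RgCc.shift (h : RgCc g N nv s) (i k : ℕ) {eps : ℝ} (heps : 0 < eps) :
    ∀ᶠ l in g, ‖N l (mono (i + k)) - e s ^ k * N l (mono i)‖ ≤ eps := by
  induction k generalizing eps with
  | zero =>
    refine Eventually.of_forall fun l => ?_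
    rw [add_zero, pow_zero, one_mul, sub_self, norm_zero]
    exact heps.le
  | succ k ih =>
    filter_upwards [ih (half_pos heps), h.fn (fourier 1) (half_pos heps)] with l h1 h2
    have h3 := h2 (mono (i + k))
    have h4 : T (fourier 1) (mono (i + k)) = mono (i + (k + 1)) := S_mono (i + k)
    rw [h4, rg_e, norm_mono, mul_one] at h3
    have h5 : N l (mono (i + (k + 1))) - e s ^ (k + 1) * N l (mono i) =
        (N l (mono (i + (k + 1))) - e s * N l (mono (i + k))) +
          e s * (N l (mono (i + k)) - e s ^ k * N l (mono i)) := by ring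
    rw [h5]
    refine (norm_add_le _ _).trans ?_
    rw [norm_mul, rg_ne, one_mul]
    linarith

private theorem RgCc.mono0 (h : RgCc g N nv s) (i : ℕ) : Tendsto (fun l => N l (mono i)) g (𝓝 0) := by
  refine rg_to0 fun eps heps => ?_
  obtain ⟨M, hM⟩ := exists_nat_gt (4 / eps ^ 2)
  have h1 : ∀ᶠ l in g, ∀ k ∈ Finset.range M, ‖N l (mono (i + k)) - e s ^ k * N l (mono i)‖ ≤ eps / 2 :=
    (Filter.eventually_all_finset _).2 fun k _ => h.shift i k (half_pos heps)
  filter_upwards [h1, h.unit] with l h2 h3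
  by_contra hcon
  push Not at hcon
  have h4 := (rg_orth i).sum_inner_products_le (nv l) (s := Finset.range M)
  rw [h3, one_pow] at h4
  have h5 : ∀ k ∈ Finset.range M, eps ^ 2 / 4 ≤ ‖inner ℂ (mono (i + k)) (nv l)‖ ^ 2 := by
    intro k hk
    have h6 : ‖inner ℂ (mono (i + k)) (nv l)‖ = ‖N l (mono (i + k))‖ := by
      rw [← h.rep, norm_inner_symm]
    have h7 := h2 k hk
    have h8 : ‖e s ^ k * N l (mono i)‖ = ‖N l (mono i)‖ := by
      rw [norm_mul, norm_pow, rg_ne, one_pow, one_mul]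
    have h9 := norm_sub_norm_le (e s ^ k * N l (mono i)) (N l (mono (i + k)))
    rw [norm_sub_rev, h8] at h9
    rw [h6]
    nlinarith
  have h6 := Finset.sum_le_sum h5
  rw [Finset.sum_const, Finset.card_range, nsmul_eq_mul] at h6
  have h7 : (M : ℝ) * (eps ^ 2 / 4) ≤ 1 := h6.trans h4
  rw [div_lt_iff₀ (by positivity)] at hM
  linarith

private theorem RgCc.weak (h : RgCc g N nv s) (u : Hardy) : Tendsto (fun l => N l u) g (𝓝 0) := by
  rw [Metric.tendsto_nhds]
  intro eps heps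
  have h1 := (hasSum_mono u).tendsto_sum_nat
  obtain ⟨M, hM⟩ := ((Metric.tendsto_nhds.1 h1) (eps / 2) (by positivity)).exists
  obtain ⟨P, hP⟩ : ∃ P : Hardy, P = ∑ i ∈ Finset.range M, co u i • mono i := ⟨_, rfl⟩
  have h2 : Tendsto (fun l => N l P) g (𝓝 0) := by
    have h3 : Tendsto (fun l => ∑ i ∈ Finset.range M, co u i * N l (mono i)) g
        (𝓝 (∑ i ∈ Finset.range M, co u i * 0)) :=
      tendsto_finsetSum _ fun i _ => (h.mono0 i).const_mul _
    simp only [mul_zero, Finset.sum_const_zero] at h3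
    refine h3.congr fun l => ?_
    rw [hP, map_sum]
    exact Finset.sum_congr rfl fun i _ => by rw [map_smul, smul_eq_mul]
  filter_upwards [(Metric.tendsto_nhds.1 h2) (eps / 2) (by positivity), h.norm] with l hl hl1
  rw [dist_zero_right] at hl ⊢
  rw [dist_comm, dist_eq_norm, ← hP] at hM
  have h4 : N l u = N l (u - P) + N l P := by rw [← map_add, sub_add_cancel]
  have h5 : ‖N l (u - P)‖ ≤ 1 * ‖u - P‖ := (N l).le_of_opNorm_le hl1 _
  calc ‖N l u‖ ≤ ‖N l (u - P)‖ + ‖N l P‖ := by rw [h4]; exact norm_add_le _ _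
    _ < eps := by linarith

end

/-! ### The Gram matrix -/

/-- The data along a filter. -/
structure RY (phi : ℂ → ℂ) (f : Filter ℂ) (m k : ℕ) (U V : ℂ → Op) (U0 V0 : Op) (Om : ℂ → CT) (Om0 : CT)
    (ee : Fin m → Hardy) (N : Fin k → ℂ → (Hardy →L[ℂ] ℂ)) (nv : Fin k → ℂ → Hardy)
    (om : Fin k → ℂ → CT) (om0 : Fin k → CT) (s : Fin k → UnitAddCircle) : Prop where
  hb : MemLp (fun x : UnitAddCircle => phi (e x)) ∞ mu0
  hU : Tendsto U f (𝓝 U0)
  hV : Tendsto V f (𝓝 V0)
  hUV : ∀ᶠ l in f, U l * V l = 1 ∧ V l * U l = 1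
  hOm : Tendsto Om f (𝓝 Om0)
  hee : ∀ i j : Fin m, co (T Om0 (ee j)) i = if i = j then 1 else 0
  inj : Function.Injective s
  rep : ∀ j l g, inner ℂ (nv j l) g = N j l g
  unit : ∀ᶠ l in f, ∀ j, ‖nv j l‖ = 1
  conc : ∀ j (psi : CT), ∀ eps > 0, ∀ᶠ l in f,
    ‖mul psi (incl (nv j l)) - psi (s j) • incl (nv j l)‖ ≤ eps
  hom : ∀ j, Tendsto (om j) f (𝓝 (om0 j))
  nz : ∀ j, om0 j (s j) ≠ 0
  hr : ∀ᶠ l in f, ∀ g, RgJ phi g l → (∀ i : Fin m, co (T (Om l) (V l g)) i = 0) ∧
    ∀ j, N j l (T (om j l) (V l g)) = 0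
  ix : ∀ᶠ l in f, Ix phi l ((m + k : ℕ) : ℤ)

variable {phi : ℂ → ℂ} {f : Filter ℂ} {m k : ℕ} {U V : ℂ → Op} {U0 V0 : Op} {Om : ℂ → CT} {Om0 : CT}
  {ee : Fin m → Hardy} {N : Fin k → ℂ → (Hardy →L[ℂ] ℂ)} {nv : Fin k → ℂ → Hardy}
  {om : Fin k → ℂ → CT} {om0 : Fin k → CT} {s : Fin k → UnitAddCircle} {P : Op}

private noncomputable def rL (m : ℕ) {k : ℕ} (Om : ℂ → CT) (N : Fin k → ℂ → (Hardy →L[ℂ] ℂ)) (om : Fin k → ℂ → CT)
    (l : ℂ) : Fin (m + k) → (Hardy →L[ℂ] ℂ) :=
  Fin.addCases (fun i => (coL (i : ℕ)).comp (T (Om l))) (fun j => (N j l).comp (T (om j l)))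

private noncomputable def rE {m k : ℕ} (ee : Fin m → Hardy) (nv : Fin k → ℂ → Hardy) (om0 : Fin k → CT)
    (s : Fin k → UnitAddCircle) (l : ℂ) : Fin (m + k) → Hardy :=
  Fin.addCases ee (fun j => (om0 j (s j))⁻¹ • nv j l)

private theorem RY.cc (h : RY phi f m k U V U0 V0 Om Om0 ee N nv om om0 s) (j : Fin k) :
    RgCc f (N j) (nv j) (s j) :=
  ⟨h.rep j, h.unit.mono fun _ hl => hl j, h.conc j⟩

private theorem RY.tT (h : RY phi f m k U V U0 V0 Om Om0 ee N nv om om0 s) :
    Tendsto (fun l => T (Om l)) f (𝓝 (T Om0)) := by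
  obtain ⟨TL, hTL⟩ := exists_TL
  have h1 := (TL.continuous.tendsto Om0).comp h.hOm
  rw [hTL] at h1
  exact h1.congr fun l => hTL _

private theorem RY.lim (h : RY phi f m k U V U0 V0 Om Om0 ee N nv om om0 s) (i : Fin m) (u : Hardy) :
    Tendsto (fun l => co (T (Om l) u) i) f (𝓝 (co (T Om0 u) i)) := by
  have h1 : Tendsto (fun l => T (Om l) u) f (𝓝 (T Om0 u)) :=
    ((ContinuousLinearMap.apply ℂ Hardy u).continuous.tendsto (T Om0)).comp h.tT
  have h2 := ((coL (i : ℕ)).continuous.tendsto (T Om0 u)).comp h1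
  rw [coL_apply] at h2
  exact h2.congr fun l => coL_apply _ _

private theorem rg_addinj (m k : ℕ) (i : Fin m) (j : Fin k) : Fin.castAdd k i ≠ Fin.natAdd m j := by
  intro h
  have := congrArg Fin.val h
  simp only [Fin.val_castAdd, Fin.val_natAdd] at this
  have := i.isLt
  omega

private theorem RY.G (h : RY phi f m k U V U0 V0 Om Om0 ee N nv om om0 s) (i j : Fin (m + k)) :
    Tendsto (fun l => rL m Om N om l i (rE ee nv om0 s l j)) f (𝓝 (if i = j then 1 else 0)) := by
  induction i using Fin.addCases with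
  | left i =>
    induction j using Fin.addCases with
    | left j =>
      simp only [rL, rE, Fin.addCases_left, ContinuousLinearMap.comp_apply, coL_apply]
      have h1 : (Fin.castAdd k i = Fin.castAdd k j) ↔ i = j := (Fin.castAdd_injective m k).eq_iff
      simp only [h1]
      rw [← h.hee i j]
      exact h.lim i (ee j)
    | right j =>
      rw [if_neg (rg_addinj m k i j)]
      simp only [rL, rE, Fin.addCases_left, Fin.addCases_right, ContinuousLinearMap.comp_apply]
      have hc := h.cc j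
      have h1 : Tendsto (fun l => coL (i : ℕ) (T (Om l) (nv j l))) f (𝓝 0) := by
        have h2 : Tendsto (fun l => coL (i : ℕ) (nv j l)) f (𝓝 0) := by
          have h3 := (Complex.continuous_conj.tendsto 0).comp (hc.weak (mono (i : ℕ)))
          rw [map_zero] at h3
          refine h3.congr fun l => ?_
          show conj (N j l (mono (i : ℕ))) = _
          rw [← hc.rep, inner_conj_symm]
          rfl
        have h3 : Tendsto (fun l => coL (i : ℕ) (T (Om l) (nv j l) - Om0 (s j) • nv j l)) f (𝓝 0) := by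
          refine rg_to0 fun eps heps => ?_
          filter_upwards [hc.tv h.hOm heps] with l hl
          have h4 := (coL (i : ℕ)).le_of_opNorm_le_of_le (norm_coL_le (i : ℕ)) hl
          rwa [one_mul] at h4
        have h4 := h3.add (h2.const_mul (Om0 (s j)))
        rw [mul_zero, add_zero] at h4
        refine h4.congr fun l => ?_
        rw [map_sub, map_smul, smul_eq_mul]
        ring
      have h2 := h1.const_mul ((om0 j (s j))⁻¹)
      rw [mul_zero] at h2
      refine h2.congr fun l => ?_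
      rw [map_smul, map_smul, smul_eq_mul]
  | right i =>
    have hc := h.cc i
    have hu : ∀ u : Hardy, Tendsto (fun l => N i l (T (om i l) u)) f (𝓝 0) := by
      intro u
      have h3 : Tendsto (fun l => N i l (T (om i l) u) - om0 i (s i) * N i l u) f (𝓝 0) := by
        refine rg_to0 fun eps heps => ?_
        filter_upwards [hc.tf (h.hom i) (eps := eps / (‖u‖ + 1)) (by positivity)] with l hl
        refine (hl u).trans ?_
        rw [div_mul_eq_mul_div, div_le_iff₀ (by positivity)]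
        nlinarith [norm_nonneg u]
      have h4 := h3.add ((hc.weak u).const_mul (om0 i (s i)))
      rw [mul_zero, add_zero] at h4
      exact h4.congr fun l => by ring
    induction j using Fin.addCases with
    | left j =>
      rw [if_neg (rg_addinj m k j i).symm]
      simp only [rL, rE, Fin.addCases_left, Fin.addCases_right, ContinuousLinearMap.comp_apply]
      exact hu (ee j)
    | right j =>
      simp only [rL, rE, Fin.addCases_right, ContinuousLinearMap.comp_apply]
      have h1 : (Fin.natAdd m i = Fin.natAdd m j) ↔ i = j := (Fin.natAdd_injective k m).eq_iff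
      simp only [h1]
      have h2 : Tendsto (fun l => N i l (T (om i l) (nv j l)) - om0 i (s i) * N i l (nv j l)) f (𝓝 0) := by
        refine rg_to0 fun eps heps => ?_
        filter_upwards [hc.tf (h.hom i) heps, h.unit] with l hl hl1
        have h3 := hl (nv j l)
        rwa [hl1 j, mul_one] at h3
      by_cases hij : i = j
      · subst hij
        rw [if_pos rfl]
        have h3 : Tendsto (fun l => N i l (nv i l)) f (𝓝 1) :=
          tendsto_const_nhds.congr' (hc.self.mono fun l hl => hl.symm)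
        have h4 := (h2.add (h3.const_mul (om0 i (s i)))).const_mul ((om0 i (s i))⁻¹)
        rw [zero_add, mul_one, inv_mul_cancel₀ (h.nz i)] at h4
        refine h4.congr fun l => ?_
        rw [map_smul, map_smul, smul_eq_mul]
        ring
      · rw [if_neg hij]
        have h3 := hc.cross (h.cc j) (fun h5 => hij (h.inj h5))
        have h4 := (h2.add (h3.const_mul (om0 i (s i)))).const_mul ((om0 j (s j))⁻¹)
        rw [zero_add, mul_zero, mul_zero] at h4
        refine h4.congr fun l => ?_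
        rw [map_smul, map_smul, smul_eq_mul]
        ring

private theorem rg_ev {g : Filter ℂ} {om : ℂ → CT} {om0 : CT} (h : Tendsto om g (𝓝 om0)) :
    ∀ᶠ l in g, ‖T (om l)‖ ≤ ‖om0‖ + 1 := by
  filter_upwards [h.norm.eventually_lt_const (lt_add_one ‖om0‖)] with l hl
  exact (norm_T_le _).trans hl.le

private theorem RY.bd (h : RY phi f m k U V U0 V0 Om Om0 ee N nv om om0 s) : ∃ C : ℝ,
    (∀ᶠ l in f, ∀ i, ‖rL m Om N om l i‖ ≤ C) ∧ ∀ᶠ l in f, ∀ i, ‖rE ee nv om0 s l i‖ ≤ C := by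
  have s1 : 0 ≤ ∑ j, (‖om0 j‖ + 1) := Finset.sum_nonneg fun j _ => by positivity
  have s2 : 0 ≤ ∑ i, ‖ee i‖ := Finset.sum_nonneg fun j _ => by positivity
  have s3 : 0 ≤ ∑ j, ‖(om0 j (s j))⁻¹‖ := Finset.sum_nonneg fun j _ => by positivity
  have s4 : 0 ≤ ‖Om0‖ := norm_nonneg _
  refine ⟨(‖Om0‖ + 1) + ∑ j, (‖om0 j‖ + 1) + ∑ i, ‖ee i‖ + ∑ j, ‖(om0 j (s j))⁻¹‖, ?_, ?_⟩
  · have h1 : ∀ᶠ l in f, ∀ j, ‖N j l‖ ≤ 1 := eventually_all.2 fun j => (h.cc j).norm
    have h2 : ∀ᶠ l in f, ∀ j, ‖T (om j l)‖ ≤ ‖om0 j‖ + 1 := eventually_all.2 fun j => rg_ev (h.hom j)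
    filter_upwards [h1, h2, rg_ev h.hOm] with l h3 h4 h5 i
    induction i using Fin.addCases with
    | left i =>
      simp only [rL, Fin.addCases_left]
      refine (ContinuousLinearMap.opNorm_comp_le _ _).trans ?_
      have h6 : ‖coL (i : ℕ)‖ * ‖T (Om l)‖ ≤ 1 * (‖Om0‖ + 1) :=
        mul_le_mul (norm_coL_le _) h5 (norm_nonneg _) zero_le_one
      linarith
    | right j =>
      simp only [rL, Fin.addCases_right]
      refine (ContinuousLinearMap.opNorm_comp_le _ _).trans ?_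
      have h6 : ‖N j l‖ * ‖T (om j l)‖ ≤ 1 * (‖om0 j‖ + 1) :=
        mul_le_mul (h3 j) (h4 j) (norm_nonneg _) zero_le_one
      have h7 : ‖om0 j‖ + 1 ≤ ∑ j, (‖om0 j‖ + 1) :=
        Finset.single_le_sum (f := fun j => ‖om0 j‖ + 1) (fun j _ => by positivity) (Finset.mem_univ j)
      linarith
  · filter_upwards [h.unit] with l hl i
    induction i using Fin.addCases with
    | left i =>
      simp only [rE, Fin.addCases_left]
      have h7 : ‖ee i‖ ≤ ∑ i, ‖ee i‖ :=
        Finset.single_le_sum (f := fun i => ‖ee i‖) (fun j _ => norm_nonneg _) (Finset.mem_univ i)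
      linarith
    | right j =>
      simp only [rE, Fin.addCases_right]
      rw [norm_smul, hl j, mul_one]
      have h7 : ‖(om0 j (s j))⁻¹‖ ≤ ∑ j, ‖(om0 j (s j))⁻¹‖ :=
        Finset.single_le_sum (f := fun j => ‖(om0 j (s j))⁻¹‖) (fun j _ => norm_nonneg _) (Finset.mem_univ j)
      linarith

private theorem RY.r (h : RY phi f m k U V U0 V0 Om Om0 ee N nv om om0 s) :
    ∀ᶠ l in f, ∀ g, RgJ phi g l ↔ ∀ i, rL m Om N om l i (V l g) = 0 := by
  have hdet : Tendsto (fun l => (Matrix.of fun i j => rL m Om N om l i (rE ee nv om0 s l j)).det) f (𝓝 1) := by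
    have h1 : Tendsto (fun l => (Matrix.of fun i j => rL m Om N om l i (rE ee nv om0 s l j))) f
        (𝓝 (1 : Matrix (Fin (m + k)) (Fin (m + k)) ℂ)) := by
      refine tendsto_pi_nhds.2 fun i => tendsto_pi_nhds.2 fun j => ?_
      have h2 := h.G i j
      rw [← Matrix.one_apply (α := ℂ)] at h2
      exact h2
    have h2 := ((Continuous.matrix_det continuous_id).tendsto (1 : Matrix (Fin (m + k)) (Fin (m + k)) ℂ)).comp h1
    rw [id, Matrix.det_one] at h2
    exact h2
  filter_upwards [h.hr, h.ix, h.hUV, hdet.eventually_ne one_ne_zero] with l h1 h2 h3 h4 g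
  have h5 := rg_of_ix h.hb h2 (a := fun i => (rL m Om N om l i).comp (V l)) (v := fun j => U l (rE ee nv om0 s l j))
    (by
      have h6 : (Matrix.of fun i j => (rL m Om N om l i).comp (V l) (U l (rE ee nv om0 s l j))) =
          Matrix.of fun i j => rL m Om N om l i (rE ee nv om0 s l j) := by
        ext i j
        simp only [Matrix.of_apply, ContinuousLinearMap.comp_apply]
        have h7 : V l (U l (rE ee nv om0 s l j)) = (V l * U l) (rE ee nv om0 s l j) := rfl
        rw [h7, h3.2]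
        rfl
      rw [h6]
      exact h4)
    (fun g hg i => by
      obtain ⟨h7, h8⟩ := h1 g hg
      rw [ContinuousLinearMap.comp_apply]
      induction i using Fin.addCases with
      | left i =>
        simp only [rL, Fin.addCases_left, ContinuousLinearMap.comp_apply, coL_apply]
        exact h7 i
      | right j =>
        simp only [rL, Fin.addCases_right, ContinuousLinearMap.comp_apply]
        exact h8 j) g
  exact h5

/-- The limit of the traces, before the replacement of the symbols by their limits. -/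
private theorem RY.tr0 (h : RY phi f m k U V U0 V0 Om Om0 ee N nv om om0 s) (hP : P * Tp phi = Tp phi * P) {tau : ℂ}
    (ht : ∀ᶠ l in f, TrJ phi P l (m + k) tau) :
    Tendsto (fun l => ∑ i : Fin m, co (T (Om l) ((V0 * P * U0) (ee i))) i +
      ∑ j, N j l (T (om j l) ((V0 * P * U0) ((om0 j (s j))⁻¹ • nv j l)))) f (𝓝 tau) := by
  obtain ⟨C, hL, he⟩ := h.bd
  have h1 := tr_limC (L := rL m Om N om) (e0 := rE ee nv om0 s) (l := fun l => l) hP h.hU h.hV h.hUV
    hL he h.G h.r ht
  refine h1.congr fun l => ?_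
  rw [Fin.sum_univ_add]
  simp only [rL, rE, Fin.addCases_left, Fin.addCases_right, ContinuousLinearMap.comp_apply, coL_apply]

/-- Replacing a symbol by its limit. -/
private theorem RY.rep0 (h : RY phi f m k U V U0 V0 Om Om0 ee N nv om om0 s) (j : Fin k) (B : Op) {c : ℂ} :
    Tendsto (fun l => N j l (T (om j l) (B (c • nv j l))) - N j l (T (om0 j) (B (c • nv j l)))) f (𝓝 0) := by
  refine rg_to0 fun eps heps => ?_
  filter_upwards [(h.cc j).norm, h.unit,
    rg_sub (h.hom j) (eps := eps / (‖B‖ * ‖c‖ + 1)) (by positivity)] with l h1 h2 h3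
  have h4 : N j l (T (om j l) (B (c • nv j l))) - N j l (T (om0 j) (B (c • nv j l))) =
      N j l ((T (om j l) - T (om0 j)) (B (c • nv j l))) := by
    have e1 : (T (om j l) - T (om0 j)) (B (c • nv j l)) = T (om j l) (B (c • nv j l)) - T (om0 j) (B (c • nv j l)) := rfl
    rw [e1, map_sub]
  rw [h4]
  have h5 : ‖B (c • nv j l)‖ ≤ ‖B‖ * ‖c‖ := by
    refine (B.le_opNorm _).trans ?_
    rw [norm_smul, h2 j, mul_one]
  have h6 := (N j l).le_of_opNorm_le_of_le h1 ((T (om j l) - T (om0 j)).le_of_opNorm_le_of_le h3 h5)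
  refine h6.trans ?_
  rw [one_mul, div_mul_eq_mul_div, div_le_iff₀ (by positivity)]
  nlinarith

/-- The limit of the traces. -/
theorem RY.tr (h : RY phi f m k U V U0 V0 Om Om0 ee N nv om om0 s) (hP : P * Tp phi = Tp phi * P) {tau : ℂ}
    (ht : ∀ᶠ l in f, TrJ phi P l (m + k) tau) :
    Tendsto (fun l => ∑ i : Fin m, co (T Om0 ((V0 * P * U0) (ee i))) i +
      ∑ j, N j l (T (om0 j) ((V0 * P * U0) ((om0 j (s j))⁻¹ • nv j l)))) f (𝓝 tau) := by
  have h1 := h.tr0 hP ht
  have h2 : Tendsto (fun l => ∑ i : Fin m, (co (T (Om l) ((V0 * P * U0) (ee i))) i -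
      co (T Om0 ((V0 * P * U0) (ee i))) i)) f (𝓝 (∑ _i : Fin m, (0 : ℂ))) := by
    refine tendsto_finsetSum _ fun i _ => ?_
    rw [tendsto_sub_nhds_zero_iff]
    exact h.lim i _
  have h3 : Tendsto (fun l => ∑ j, (N j l (T (om j l) ((V0 * P * U0) ((om0 j (s j))⁻¹ • nv j l))) -
      N j l (T (om0 j) ((V0 * P * U0) ((om0 j (s j))⁻¹ • nv j l))))) f (𝓝 (∑ _j : Fin k, (0 : ℂ))) :=
    tendsto_finsetSum _ fun j _ => h.rep0 j _
  have h4 := h1.sub (h2.add h3)
  rw [Finset.sum_const_zero, Finset.sum_const_zero, add_zero, sub_zero] at h4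
  refine h4.congr fun l => ?_
  rw [Finset.sum_sub_distrib, Finset.sum_sub_distrib]
  ring

/-- One active family. -/
theorem RY.one {N : Fin 1 → ℂ → (Hardy →L[ℂ] ℂ)} {nv : Fin 1 → ℂ → Hardy}
    {om : Fin 1 → ℂ → CT} {om0 : Fin 1 → CT} {s : Fin 1 → UnitAddCircle}
    (h : RY phi f m 1 U V U0 V0 Om Om0 ee N nv om om0 s) (hP : P * Tp phi = Tp phi * P) {tau : ℂ}
    (ht : ∀ᶠ l in f, TrJ phi P l (m + 1) tau) :
    Tendsto (fun l => ‖(N 0 l).comp (T (om0 0) * (V0 * P * U0 -
      (tau - ∑ i : Fin m, co (T Om0 ((V0 * P * U0) (ee i))) i) • (1 : Op)))‖) f (𝓝 0) := by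
  obtain ⟨B, hB⟩ : ∃ B, B = V0 * P * U0 := ⟨_, rfl⟩
  obtain ⟨c, hc⟩ : ∃ c, c = tau - ∑ i : Fin m, co (T Om0 (B (ee i))) i := ⟨_, rfl⟩
  obtain ⟨C, hL, he⟩ := h.bd
  have h0 : ∀ j, j ≠ Fin.natAdd m (0 : Fin 1) →
      Tendsto (fun l => rL m Om N om l (Fin.natAdd m 0) ((V0 * P * U0) (rE ee nv om0 s l j))) f (𝓝 0) := by
    intro j hj
    induction j using Fin.addCases with
    | left j =>
      simp only [rL, rE, Fin.addCases_left, Fin.addCases_right, ContinuousLinearMap.comp_apply]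
      rw [← hB]
      have hcc := h.cc 0
      have h3 : Tendsto (fun l => N 0 l (T (om 0 l) (B (ee j))) - om0 0 (s 0) * N 0 l (B (ee j))) f (𝓝 0) := by
        refine rg_to0 fun eps heps => ?_
        filter_upwards [hcc.tf (h.hom 0) (eps := eps / (‖B (ee j)‖ + 1)) (by positivity)] with l hl
        refine (hl (B (ee j))).trans ?_
        rw [div_mul_eq_mul_div, div_le_iff₀ (by positivity)]
        nlinarith [norm_nonneg (B (ee j))]
      have h4 := h3.add ((hcc.weak (B (ee j))).const_mul (om0 0 (s 0)))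
      rw [mul_zero, add_zero] at h4
      exact h4.congr fun l => by ring
    | right j => exact absurd (by rw [Subsingleton.elim j 0]) hj
  have h1 := diag_limC (L := rL m Om N om) (e0 := rE ee nv om0 s) (l := fun l => l) hP h.hU h.hV h.hUV
    hL he h.G h.r (Fin.natAdd m 0) h0
  simp only [rL, rE, Fin.addCases_right] at h1
  have h2 := h.tr0 hP ht
  rw [← hB] at h1 h2 ⊢
  rw [← hc]
  -- the diagonal value
  have h3 : Tendsto (fun l => ((N 0 l).comp (T (om 0 l))) (B ((om0 0 (s 0))⁻¹ • nv 0 l)) - c) f (𝓝 0) := by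
    have h4 : Tendsto (fun l => ∑ i : Fin m, (co (T (Om l) (B (ee i))) i -
        co (T Om0 (B (ee i))) i)) f (𝓝 (∑ _i : Fin m, (0 : ℂ))) := by
      refine tendsto_finsetSum _ fun i _ => ?_
      rw [tendsto_sub_nhds_zero_iff]
      exact h.lim i _
    have h5 := (h2.sub_const tau).sub h4
    rw [Finset.sum_const_zero, sub_self, sub_zero] at h5
    refine h5.congr fun l => ?_
    rw [hc, Finset.sum_sub_distrib]
    simp only [Finset.univ_unique, Fin.default_eq_zero, Fin.isValue, Finset.sum_singleton,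
      ContinuousLinearMap.comp_apply]
    ring
  -- the replacement of the symbol
  have h4 : Tendsto (fun l => ‖T (om 0 l) - T (om0 0)‖ * (‖B‖ + ‖c‖)) f (𝓝 0) := by
    have h5 : Tendsto (fun l => ‖T (om 0 l) - T (om0 0)‖) f (𝓝 0) := by
      have h6 := tendsto_iff_norm_sub_tendsto_zero.1 (h.hom 0)
      refine squeeze_zero (fun l => norm_nonneg _) (fun l => ?_) h6
      rw [← T_sub]
      exact norm_T_le _
    have h6 := h5.mul_const (‖B‖ + ‖c‖)
    rwa [zero_mul] at h6
  have h5 : Tendsto (fun l => ‖((N 0 l).comp (T (om 0 l))).comp B -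
      (((N 0 l).comp (T (om 0 l))) (B ((om0 0 (s 0))⁻¹ • nv 0 l))) • (N 0 l).comp (T (om 0 l))‖ +
      ‖((N 0 l).comp (T (om 0 l))) (B ((om0 0 (s 0))⁻¹ • nv 0 l)) - c‖ * C +
      ‖T (om 0 l) - T (om0 0)‖ * (‖B‖ + ‖c‖)) f (𝓝 0) := by
    have h6 := (h1.add (h3.norm.mul_const C)).add h4
    rw [norm_zero, zero_mul, add_zero, add_zero] at h6
    exact h6
  refine squeeze_zero' (Eventually.of_forall fun l => norm_nonneg _) ?_ h5
  filter_upwards [hL, (h.cc 0).norm] with l hl hl1
  have hl2 := hl (Fin.natAdd m 0)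
  simp only [rL, Fin.addCases_right] at hl2
  have h6 : (N 0 l).comp (T (om0 0) * (B - c • (1 : Op))) =
      (((N 0 l).comp (T (om 0 l))).comp B -
        (((N 0 l).comp (T (om 0 l))) (B ((om0 0 (s 0))⁻¹ • nv 0 l))) • (N 0 l).comp (T (om 0 l))) +
      (((N 0 l).comp (T (om 0 l))) (B ((om0 0 (s 0))⁻¹ • nv 0 l)) - c) • (N 0 l).comp (T (om 0 l)) -
      (N 0 l).comp ((T (om 0 l) - T (om0 0)) * (B - c • (1 : Op))) := by
    ext u
    have e1 : (B - c • (1 : Op)) u = B u - c • u := rfl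
    have e2 : ∀ A : Op, (A * (B - c • (1 : Op))) u = A (B u - c • u) := fun A => rfl
    have e3 : ∀ w : Hardy, (T (om 0 l) - T (om0 0)) w = T (om 0 l) w - T (om0 0) w := fun w => rfl
    simp only [ContinuousLinearMap.comp_apply, add_apply, sub_apply, smul_apply, e2, map_sub, map_smul, smul_eq_mul]
    ring
  rw [h6]
  refine (norm_sub_le _ _).trans (add_le_add ((norm_add_le _ _).trans (add_le_add le_rfl ?_)) ?_)
  · rw [norm_smul]
    exact mul_le_mul_of_nonneg_left hl2 (norm_nonneg _)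
  · refine (ContinuousLinearMap.opNorm_comp_le _ _).trans ?_
    have h7 : ‖(T (om 0 l) - T (om0 0)) * (B - c • (1 : Op))‖ ≤ ‖T (om 0 l) - T (om0 0)‖ * (‖B‖ + ‖c‖) := by
      refine (norm_mul_le _ _).trans (mul_le_mul_of_nonneg_left ?_ (norm_nonneg _))
      refine (norm_sub_le _ _).trans (add_le_add le_rfl ?_)
      rw [norm_smul]
      have h8 : ‖(1 : Op)‖ ≤ 1 := ContinuousLinearMap.norm_id_le
      calc ‖c‖ * ‖(1 : Op)‖ ≤ ‖c‖ * 1 := mul_le_mul_of_nonneg_left h8 (norm_nonneg _)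
        _ = ‖c‖ := mul_one _
    calc ‖N 0 l‖ * ‖(T (om 0 l) - T (om0 0)) * (B - c • (1 : Op))‖
        ≤ 1 * (‖T (om 0 l) - T (om0 0)‖ * (‖B‖ + ‖c‖)) := mul_le_mul hl1 h7 (norm_nonneg _) zero_le_one
      _ = _ := one_mul _

/-- From the norm to the diagonal value: along a filter where the norm tends to zero. -/
theorem ry_val {g : Filter ℂ} {N : ℂ → (Hardy →L[ℂ] ℂ)} {nv : ℂ → Hardy} {om0 : CT} {s : UnitAddCircle} {B : Op} {c : ℂ}
    (rep : ∀ l u, inner ℂ (nv l) u = N l u) (unit : ∀ᶠ l in g, ‖nv l‖ = 1)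
    (conc : ∀ (psi : CT), ∀ eps > 0, ∀ᶠ l in g, ‖mul psi (incl (nv l)) - psi s • incl (nv l)‖ ≤ eps)
    (nz : om0 s ≠ 0) (h : Tendsto (fun l => ‖(N l).comp (T om0 * (B - c • (1 : Op)))‖) g (𝓝 0)) :
    Tendsto (fun l => N l (T om0 (B ((om0 s)⁻¹ • nv l)))) g (𝓝 c) := by
  have hc : RgCc g N nv s := ⟨rep, unit, conc⟩
  have h1 : Tendsto (fun l => (N l).comp (T om0 * (B - c • (1 : Op))) ((om0 s)⁻¹ • nv l)) g (𝓝 0) := by
    rw [tendsto_zero_iff_norm_tendsto_zero]
    have h2 := h.mul_const ‖(om0 s)⁻¹‖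
    rw [zero_mul] at h2
    refine squeeze_zero' (Eventually.of_forall fun l => norm_nonneg _) ?_ h2
    filter_upwards [unit] with l hl
    refine (ContinuousLinearMap.le_opNorm _ _).trans ?_
    rw [norm_smul, hl, mul_one]
  have h2 : Tendsto (fun l => c * ((om0 s)⁻¹ * N l (T om0 (nv l)))) g (𝓝 (c * ((om0 s)⁻¹ * om0 s))) := by
    refine Tendsto.const_mul _ (Tendsto.const_mul _ ?_)
    have h3 : Tendsto (fun l => N l (T om0 (nv l)) - om0 s * N l (nv l)) g (𝓝 0) := by
      refine rg_to0 fun eps heps => ?_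
      filter_upwards [hc.fn om0 heps, unit] with l hl hl1
      have h3 := hl (nv l)
      rwa [hl1, mul_one] at h3
    have h4 : Tendsto (fun l => N l (nv l)) g (𝓝 1) :=
      tendsto_const_nhds.congr' (hc.self.mono fun l hl => hl.symm)
    have h5 := h3.add (h4.const_mul (om0 s))
    rw [zero_add, mul_one] at h5
    exact h5.congr fun l => by ring
  have h3 := h1.add h2
  rw [zero_add, inv_mul_cancel₀ nz, mul_one] at h3
  refine h3.congr fun l => ?_
  have e1 : (N l).comp (T om0 * (B - c • (1 : Op))) ((om0 s)⁻¹ • nv l) =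
      N l (T om0 (B ((om0 s)⁻¹ • nv l) - c • ((om0 s)⁻¹ • nv l))) := rfl
  rw [e1]
  simp only [map_sub, map_smul, smul_eq_mul]
  ring

end Pool.Agent.TBirX
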