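import Pool.Agent.TBirX.Yu
import Pool.Agent.TBirJ.Sgk
import Pool.Agent.TBir.Stmt

/-!
# Dual vectors at a crossing point

The functionals `coL i ∘ T Ω`, `i < m`, `Ω = o1 q * o2 q`, are linearly independent: a combination which vanishes is a polynomial `p` with `T (star Ω) p = 0`, `star Ω * p` is analytic (`Ω` is `Minus`), so `star Ω * p = 0` almost everywhere, and `Ω ≠ 0` except at `t1`, `t2` (`nz`).
-/

set_option autoImplicit false

open MeasureTheory Complex Set Filter Topology Metric AddCircle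
open scoped ComplexConjugate InnerProductSpace ENNReal

namespace Pool.Agent.TBirX

open Pool.Agent.TBir Pool.Agent.TBirG Pool.Agent.TBirC Pool.Agent.TBirJ Pool.Agent.TBirK
open Pool.Agent.TBirN
open Pool.Agent.TBirP (E qT)

variable {phi : ℂ → ℂ} {K : Set ℂ} {q t1 t2 a1 a2 : ℂ} {x : ℤ} {m1 m2 : ℂ → UnitAddCircle → ℂ}
  {o1 o2 p1 p2 : ℂ → CT} {N1 N2 : ℂ → (Hardy →L[ℂ] ℂ)} {n1 n2 : ℂ → Hardy} {i1 i2 : ℂ → Prop}
  {ell : ℂ → CT} {C : ℂ → Op2}

private theorem ryd_ae (t : ℂ) : ∀ᵐ y : UnitAddCircle ∂mu0, e y ≠ t := by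
  classical
  filter_upwards [SgkAux.ae_F ({t} : Finset ℂ)] with y hy h
  exact hy (Finset.mem_singleton.2 h)

/-- A polynomial whose product with the conjugate of `om` has no part of nonnegative index is zero. -/
private theorem ryd_inj {om : CT} (h4 : Minus om) {t1 t2 : ℂ}
    (hnz : ∀ y, e y ≠ t1 → e y ≠ t2 → om y ≠ 0) {p : Hardy} (hp : T (star om) p = 0) : p = 0 := by
  have hs : Plus (star om) := by
    intro n hn
    rw [fourierCoeff_star, h4 (-n) (by omega), map_zero]
  have h1 : mul (star om) (incl p) = 0 := by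
    rw [← incl_T hs, hp, map_zero]
  have h2 := mul_ae (star om) (incl p)
  rw [h1] at h2
  have h3 : incl p = 0 := by
    rw [Lp.eq_zero_iff_ae_eq_zero]
    filter_upwards [h2, Lp.coeFn_zero ℂ 2 (haarAddCircle (T := (1 : ℝ))), ryd_ae t1, ryd_ae t2]
      with y g1 g2 g3 g4
    rw [g2, Pi.zero_apply] at g1
    have h5 : star (om y) ≠ 0 := star_ne_zero.2 (hnz y g3 g4)
    rcases mul_eq_zero.1 g1.symm with h6 | h6
    · exact absurd h6 h5
    · exact h6
  exact incl_inj (h3.trans (map_zero incl).symm)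

theorem xd_dual (h : Xd phi K q t1 t2 a1 a2 x m1 m2 o1 o2 p1 p2 N1 N2 n1 n2 i1 i2 ell C) (m : ℕ) :
    ∃ ee : Fin m → Hardy, ∀ i j : Fin m,
      co (T (o1 q * o2 q) (ee j)) i = if i = j then 1 else 0 := by
  classical
  obtain ⟨om, hom⟩ : ∃ om : CT, om = o1 q * o2 q := ⟨_, rfl⟩
  rw [← hom]
  have h4 : Minus om := by
    rw [hom]
    exact h.f1.minus.self_of_nhds.mul h.f2.minus.self_of_nhds
  have hnz : ∀ y, e y ≠ t1 → e y ≠ t2 → om y ≠ 0 := by
    intro y h1 h2
    rw [hom, ContinuousMap.mul_apply]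
    exact mul_ne_zero (h.f1.nz y h1) (h.f2.nz y h2)
  obtain ⟨Φ, hΦ⟩ : ∃ Φ : Hardy →ₗ[ℂ] (Fin m → ℂ), ∀ f i, Φ f i = co (T om f) i := by
    refine ⟨LinearMap.pi fun i : Fin m => ((coL i).comp (T om)).toLinearMap, fun f i => ?_⟩
    rw [LinearMap.pi_apply]
    exact coL_apply _ _
  have hr : LinearMap.range Φ = ⊤ := by
    by_contra hne
    obtain ⟨g, hg0, hg⟩ := Submodule.exists_le_ker_of_lt_top (LinearMap.range Φ)
      (lt_top_iff_ne_top.2 hne)
    apply hg0
    obtain ⟨c, hc⟩ : ∃ c : Fin m → ℂ, c = fun i => g fun j => if i = j then 1 else 0 := ⟨_, rfl⟩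
    have hgw : ∀ w : Fin m → ℂ, g w = ∑ i, w i * c i := by
      intro w
      rw [LinearMap.pi_apply_eq_sum_univ g w, hc]
      rfl
    obtain ⟨p, hp⟩ : ∃ p : Hardy, p = ∑ i : Fin m, conj (c i) • mono i := ⟨_, rfl⟩
    have h5 : ∀ f : Hardy, inner ℂ (T (star om) p) f = 0 := by
      intro f
      have h6 : g (Φ f) = 0 := hg (LinearMap.mem_range_self Φ f)
      rw [hgw] at h6
      rw [← adjoint_T, ContinuousLinearMap.adjoint_inner_left, hp, sum_inner, ← h6]
      refine Finset.sum_congr rfl fun i _ => ?_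
      rw [inner_smul_left, Complex.conj_conj, hΦ, ← coL_apply, mul_comm]
      rfl
    have h7 : T (star om) p = 0 := by
      have := h5 (T (star om) p)
      rwa [inner_self_eq_zero] at this
    have h8 : p = 0 := ryd_inj h4 hnz h7
    have h9 : ∀ i : Fin m, c i = 0 := by
      intro i
      have h10 : coL i p = conj (c i) := by
        rw [hp, map_sum, Finset.sum_eq_single i]
        · rw [map_smul, coL_apply, co_mono, if_pos rfl, smul_eq_mul, mul_one]
        · intro j _ hj
          rw [map_smul, coL_apply, co_mono, if_neg fun h => hj (Fin.ext h.symm), smul_zero]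
        · intro hi
          exact absurd (Finset.mem_univ i) hi
      rw [h8, map_zero] at h10
      have h11 := congrArg conj h10
      rw [map_zero, Complex.conj_conj] at h11
      exact h11.symm
    refine LinearMap.ext fun w => ?_
    rw [hgw, LinearMap.zero_apply]
    exact Finset.sum_eq_zero fun i _ => by rw [h9, mul_zero]
  have hex : ∀ j : Fin m, ∃ f : Hardy, Φ f = fun i => if i = j then 1 else 0 := by
    intro j
    have h1 : (fun i : Fin m => if i = j then (1 : ℂ) else 0) ∈ LinearMap.range Φ := by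
      rw [hr]
      exact Submodule.mem_top
    exact h1
  choose ee hee using hex
  refine ⟨ee, fun i j => ?_⟩
  rw [← hΦ, hee]

end Pool.Agent.TBirX
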