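import Pool.Agent.TBirX.Yu
import Pool.Agent.TBirJ.Ixb
import Pool.Agent.TBir.Idx

/-!
# The factorisation at a crossing point

`Ω l = o1 l * o2 l` (`Minus`), `M l = mf (z ^ x m1 m2)`, `U l = T (ell l) + TM (C l) * T (Ω l)`, so `Tp phi - l = U l * TM (M l)` for `0 ≤ x` (`TM_plus`, `TM_minus`, `mul (Ω l) * M l = mul (fourier x * p1 l * p2 l)`). `U q` is a unit (`y_unit`), `U l → U q`, `V l` the inverse.
If `f = (Tp phi - l) h` then `V l f = TM (M l) h`, and `T (Ω l) * TM (M l) = T (fourier x * p1 * p2)`, `T (o2 l) * TM (M l) = TM (mf (m1 l)) * T (fourier x * p2 l)`, `T (o1 l) * TM (M l) = TM (mf (m2 l)) * T (fourier x * p1 l)` and `van`.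
-/

set_option autoImplicit false

open MeasureTheory Complex Set Filter Topology Metric AddCircle
open scoped ComplexConjugate InnerProductSpace ENNReal

namespace Pool.Agent.TBirX

open Pool.Agent.TBir Pool.Agent.TBirG Pool.Agent.TBirC Pool.Agent.TBirJ Pool.Agent.TBirK
open Pool.Agent.TBirN
open Pool.Agent.TBirP (E qT)

variable {phi : ℂ → ℂ} {K : Set ℂ} {q t1 t2 a1 a2 : ℂ} {x : ℤ} {m1 m2 : ℂ → UnitAddCircle → ℂ}
  {o1 o2 p1 p2 : ℂ → CT} {N1 N2 : ℂ → (Hardy →L[ℂ] ℂ)} {n1 n2 : ℂ → Hardy} {i1 i2 : ℂ → Prop}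
  {ell : ℂ → CT} {C : ℂ → Op2}

private theorem ryf_four (n : ℤ) (y : UnitAddCircle) : (fourier n : CT) y = e y ^ n := fourier_eq_e n y

/-- The algebra of the factorisation. -/
private theorem ryf_alg {n1 n2 : UnitAddCircle → ℂ} {u1 u2 v1 v2 : CT} (h1 : MemLp n1 ∞ mu0)
    (h2 : MemLp n2 ∞ mu0) (g1 : ∀ᵐ y ∂mu0, u1 y * n1 y = v1 y) (g2 : ∀ᵐ y ∂mu0, u2 y * n2 y = v2 y)
    (x : ℤ) : mul (u1 * u2) * mf (fun y => e y ^ x * (n1 y * n2 y)) = mul (fourier x * (v1 * v2)) ∧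
      mul u2 * mf (fun y => e y ^ x * (n1 y * n2 y)) = mf n1 * mul (fourier x * v2) ∧
      mul u1 * mf (fun y => e y ^ x * (n1 y * n2 y)) = mf n2 * mul (fourier x * v1) := by
  have hM : MemLp (fun y => e y ^ x * (n1 y * n2 y)) ∞ mu0 := by
    have := memLp_mul (memLp_ct (fourier x)) (memLp_mul h1 h2)
    simpa only [ryf_four] using this
  refine ⟨?_, ?_, ?_⟩
  · rw [← mf_ct (u1 * u2), ← mf_mul (memLp_ct _) hM, ← mf_ct (fourier x * (v1 * v2))]
    refine mf_congr ?_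
    filter_upwards [g1, g2] with y h3 h4
    simp only [ContinuousMap.mul_apply, ryf_four]
    rw [← h3, ← h4]
    ring
  · rw [← mf_ct u2, ← mf_mul (memLp_ct _) hM, ← mf_ct (fourier x * v2),
      ← mf_mul h1 (memLp_ct _)]
    refine mf_congr ?_
    filter_upwards [g2] with y h4
    simp only [ContinuousMap.mul_apply, ryf_four]
    rw [← h4]
    ring
  · rw [← mf_ct u1, ← mf_mul (memLp_ct _) hM, ← mf_ct (fourier x * v1),
      ← mf_mul h2 (memLp_ct _)]
    refine mf_congr ?_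
    filter_upwards [g1] with y h4
    simp only [ContinuousMap.mul_apply, ryf_four]
    rw [← h4]
    ring

private theorem ryf_co0 (n : ℕ) : ∀ (u : Hardy) (i : ℕ), i < n → co (T (fourier (n : ℤ)) u) i = 0 := by
  induction n with
  | zero => exact fun u i hi => absurd hi (Nat.not_lt_zero i)
  | succ n ih =>
    intro u i hi
    have h1 : (fourier ((n + 1 : ℕ) : ℤ) : CT) = fourier 1 * fourier (n : ℤ) := by
      ext y
      rw [ContinuousMap.mul_apply, ← fourier_add]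
      push_cast
      rw [add_comm]
    have h2 : T (fourier ((n + 1 : ℕ) : ℤ)) u = S (T (fourier (n : ℤ)) u) := by
      rw [h1, T_mul_right _ (plus_fourier (Int.natCast_nonneg n))]
      rfl
    rw [h2]
    rcases i with _ | i
    · exact co_S_zero _
    · rw [co_S_succ]
      exact ih u i (by omega)

private theorem ryf_co {w : CT} (hw : Plus w) (n : ℕ) (g : Hardy) {i : ℕ} (hi : i < n) :
    co (T (fourier (n : ℤ) * w) g) i = 0 := by
  rw [T_mul_right _ hw]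
  exact ryf_co0 n (T w g) i hi

theorem xd_fac (hb : MemLp (fun x : UnitAddCircle => phi (e x)) ∞ mu0)
    (h : Xd phi K q t1 t2 a1 a2 x m1 m2 o1 o2 p1 p2 N1 N2 n1 n2 i1 i2 ell C) (hx : 0 ≤ x) :
    ∃ (U V : ℂ → Op) (U0 V0 : Op), Tendsto U (𝓝[Kᶜ] q) (𝓝 U0) ∧ Tendsto V (𝓝[Kᶜ] q) (𝓝 V0) ∧
      ∀ᶠ l in 𝓝 q, l ∉ K → (U l * V l = 1 ∧ V l * U l = 1) ∧ ∀ f : Hardy, RgJ phi f l →
        (∀ i : ℕ, (i : ℤ) < x → co (T (o1 l * o2 l) (V l f)) i = 0) ∧
        (i1 l → N1 l (T (o2 l) (V l f)) = 0) ∧ (i2 l → N2 l (T (o1 l) (V l f)) = 0) := by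
  classical
  obtain ⟨n, rfl⟩ := Int.eq_ofNat_of_zero_le hx
  obtain ⟨U, hUd⟩ : ∃ U : ℂ → Op, U = fun l => T (ell l) + TM (C l) * T (o1 l * o2 l) := ⟨_, rfl⟩
  have hu0 : IsUnit (U q) := by
    obtain ⟨ell', h1, h2⟩ := h.inv
    rw [hUd]
    exact y_unit (h.cm q) h.minus.self_of_nhds h1 h2
      (h.f1.minus.self_of_nhds.mul h.f2.minus.self_of_nhds) h.unit
  have hT : Continuous T := by
    have h1 : LipschitzWith 1 T := LipschitzWith.of_dist_le_mul fun a b => by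
      rw [dist_eq_norm, dist_eq_norm, ← T_sub, NNReal.coe_one, one_mul]
      exact norm_T_le _
    exact h1.continuous
  have hTM : Continuous TM := by
    have h1 : LipschitzWith 1 TM := LipschitzWith.of_dist_le_mul fun a b => by
      rw [dist_eq_norm, dist_eq_norm, ← TM_sub, NNReal.coe_one, one_mul]
      exact norm_TM_le _
    exact h1.continuous
  have hU : Tendsto U (𝓝[Kᶜ] q) (𝓝 (U q)) := by
    rw [hUd]
    refine ((hT.tendsto _).comp h.lim1).add (((hTM.tendsto _).comp h.lim2).mul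
      ((hT.tendsto _).comp ?_))
    exact (h.f1.lim.mul h.f2.lim).mono_left nhdsWithin_le_nhds
  have hV : Tendsto (fun l => Ring.inverse (U l)) (𝓝[Kᶜ] q) (𝓝 (Ring.inverse (U q))) := by
    obtain ⟨V, hV⟩ := hu0
    have h3 : ContinuousAt Ring.inverse (V : Op) := NormedRing.inverse_continuousAt V
    rw [hV] at h3
    exact h3.tendsto.comp hU
  refine ⟨U, fun l => Ring.inverse (U l), U q, Ring.inverse (U q), hU, hV, ?_⟩
  have hun : ∀ᶠ l in 𝓝 q, l ∉ K → IsUnit (U l) := by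
    have h1 : ∀ᶠ A in 𝓝 (U q), IsUnit A := Units.isOpen.mem_nhds hu0
    have h2 := hU.eventually h1
    rw [eventually_nhdsWithin_iff] at h2
    exact h2
  filter_upwards [hun, h.minus, h.f1.minus, h.f2.minus, h.f1.plus, h.f2.plus, h.f1.bm, h.f2.bm,
    h.f1.om, h.f2.om, h.f1.van, h.f2.van, h.eq] with l c1 c2 c3 c4 c5 c6 c7 c8 c9 c10 c11 c12 c13 hl
  have hunit := c1 hl
  have h9 := Ring.mul_inverse_cancel _ hunit
  have h10 := Ring.inverse_mul_cancel _ hunit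
  refine ⟨⟨h9, h10⟩, ?_⟩
  obtain ⟨d1, d2, d3⟩ := ryf_alg (c7 hl) (c8 hl) (c9 hl) (c10 hl) (n : ℤ)
  obtain ⟨M, hM⟩ : ∃ M : Op2, M = mf (fun y => e y ^ (n : ℤ) * (m1 l y * m2 l y)) := ⟨_, rfl⟩
  have c13' := c13 hl
  rw [← hM] at d1 d2 d3 c13'
  have hp12 : Plus (p1 l * p2 l) := c5.mul c6
  have hpn : Plus (fourier (n : ℤ) : CT) := plus_fourier (by omega)
  have hOm : T (o1 l * o2 l) * TM M = T (fourier (n : ℤ) * (p1 l * p2 l)) := by
    rw [← TM_minus _ (c3.mul c4), d1, TM_mul]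
  have hO2 : T (o2 l) * TM M = TM (mf (m1 l)) * T (fourier (n : ℤ) * p2 l) := by
    rw [← TM_minus _ c4, d2, TM_plus _ (hpn.mul c6)]
  have hO1 : T (o1 l) * TM M = TM (mf (m2 l)) * T (fourier (n : ℤ) * p1 l) := by
    rw [← TM_minus _ c3, d3, TM_plus _ (hpn.mul c5)]
  have hfac : Tp phi - l • (1 : Op) = U l * TM M := by
    rw [← IxAux.tp_sub hb, c13', hUd]
    simp only
    rw [add_mul, mul_assoc (C l), d1, TM_add, TM_minus _ c2, TM_plus _ (hpn.mul hp12), add_mul,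
      mul_assoc (TM (C l)), hOm]
  intro f hf
  obtain ⟨g, hg⟩ := hf
  have hVf : Ring.inverse (U l) f = TM M g := by
    rw [← hg, hfac]
    calc Ring.inverse (U l) ((U l * TM M) g) = (Ring.inverse (U l) * U l) (TM M g) := rfl
      _ = TM M g := by rw [h10]; rfl
  rw [hVf]
  refine ⟨fun i hi => ?_, fun hi => ?_, fun hi => ?_⟩
  · have h1 : T (o1 l * o2 l) (TM M g) = (T (o1 l * o2 l) * TM M) g := rfl
    rw [h1, hOm]
    exact ryf_co hp12 n g (by exact_mod_cast hi)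
  · have h1 : T (o2 l) (TM M g) = (T (o2 l) * TM M) g := rfl
    rw [h1, hO2]
    exact c11 hl hi _
  · have h1 : T (o1 l) (TM M g) = (T (o1 l) * TM M) g := rfl
    rw [h1, hO1]
    exact c12 hl hi _

end Pool.Agent.TBirX
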