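import Pool.Agent.TBirX.Rg
import Pool.Agent.TBirX.Ryf
import Pool.Agent.TBirX.Ryd
import Pool.Agent.TBirJ.Trj

/-!
# The rectangle rule at a crossing point

`0 ≤ x`: `D.nn` in the cone with the signs `1 1` (`num`, `side`). `U`, `V` and the vanishing of the functionals on the range: `xd_fac`; dual vectors: `xd_dual`; the limits of the traces: `RY.tr`, `RY.one`. In the cones `Sx ..` (convex, off `K`) the traces are constant (`tr_preconnectedJ`). With `B = V0 P U0`, `Th = sum co i (T Ω (B (ee i)))`: `tau 1 1 = Th`; the norms of `(N1 l).comp (T (o2 q) * (B - c1))`,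
`c1 = tau (-1) 1 - Th`, tend to `0` in the cone with the signs `-1 1`, by `tc` also along a ray in the cone with the signs `-1 -1`; so the diagonal values tend to `c1` there (`ry_val`), the same for `N2`, and `tau (-1) (-1) = Th + c1 + c2`.
-/

set_option autoImplicit false

open MeasureTheory Complex Set Filter Topology Metric AddCircle
open scoped ComplexConjugate InnerProductSpace ENNReal

namespace Pool.Agent.TBirX

open Pool.Agent.TBir Pool.Agent.TBirG Pool.Agent.TBirC Pool.Agent.TBirJ Pool.Agent.TBirK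
open Pool.Agent.TBirN
open Pool.Agent.TBirP (E qT)

variable {phi : ℂ → ℂ} {K : Set ℂ} {q t1 t2 a1 a2 : ℂ} {x : ℤ} {m1 m2 : ℂ → UnitAddCircle → ℂ}
  {o1 o2 p1 p2 : ℂ → CT} {N1 N2 : ℂ → (Hardy →L[ℂ] ℂ)} {n1 n2 : ℂ → Hardy} {i1 i2 : ℂ → Prop}
  {ell : ℂ → CT} {C : ℂ → Op2}

/-! ### Cones -/

private theorem sx_conv (a1 a2 q : ℂ) {kap : ℝ} (hk : 0 < kap) (r s1 s2 : ℝ) :
    Convex ℝ (Sx a1 a2 q kap r s1 s2) := by
  intro l hl l' hl' u v hu hv huv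
  obtain ⟨h1, h2, h3⟩ := hl
  obtain ⟨h1', h2', h3'⟩ := hl'
  have e0 : u • l + v • l' - q = (u : ℂ) * (l - q) + (v : ℂ) * (l' - q) := by
    have : q = ((u : ℂ) + (v : ℂ)) * q := by
      rw [← Complex.ofReal_add, huv, Complex.ofReal_one, one_mul]
    rw [Complex.real_smul, Complex.real_smul]
    nth_rewrite 1 [this]
    ring
  have e1 : ‖u • l + v • l' - q‖ ≤ u * ‖l - q‖ + v * ‖l' - q‖ := by
    rw [e0]
    refine (norm_add_le _ _).trans ?_
    rw [norm_mul, norm_mul, Complex.norm_real, Complex.norm_real, Real.norm_of_nonneg hu,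
      Real.norm_of_nonneg hv]
  have e2 : ∀ a : ℂ, (a * (u • l + v • l' - q)).re = u * (a * (l - q)).re + v * (a * (l' - q)).re := by
    intro a
    rw [e0, mul_add, Complex.add_re, mul_left_comm, mul_left_comm a (v : ℂ), Complex.re_ofReal_mul,
      Complex.re_ofReal_mul]
  have hpos : 0 < u ∨ 0 < v := by
    by_contra hcon
    push Not at hcon
    linarith [hcon.1, hcon.2]
  have key : ∀ x y x' y' : ℝ, x < y → x' < y' → u * x + v * x' < u * y + v * y' := by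
    intro x y x' y' hx hx'
    rcases hpos with h | h
    · have h4 := mul_lt_mul_of_pos_left hx h
      have h5 := mul_le_mul_of_nonneg_left hx'.le hv
      linarith
    · have h4 := mul_le_mul_of_nonneg_left hx.le hu
      have h5 := mul_lt_mul_of_pos_left hx' h
      linarith
  rw [mem_ball, dist_eq_norm] at h1 h1'
  refine ⟨?_, ?_, ?_⟩
  · rw [mem_ball, dist_eq_norm]
    have h4 := key _ _ _ _ h1 h1'
    have h5 : u * r + v * r = r := by rw [← add_mul, huv, one_mul]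
    linarith
  · rw [e2]
    have h4 := key _ _ _ _ h2 h2'
    have h5 := mul_le_mul_of_nonneg_left e1 hk.le
    nlinarith
  · rw [e2]
    have h4 := key _ _ _ _ h3 h3'
    have h5 := mul_le_mul_of_nonneg_left e1 hk.le
    nlinarith

private theorem sx_mono (a1 a2 q : ℂ) (kap : ℝ) {r r' : ℝ} (h : r ≤ r') (s1 s2 : ℝ) :
    Sx a1 a2 q kap r s1 s2 ⊆ Sx a1 a2 q kap r' s1 s2 :=
  fun _ hl => ⟨ball_subset_ball h hl.1, hl.2⟩

/-- Rays in a cone. -/
private theorem sx_ray {a1 a2 q : ℂ} {kap r0 s1 s2 : ℝ} (hk : 0 < kap)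
    (hne : (Sx a1 a2 q kap r0 s1 s2).Nonempty) {r : ℝ} (hr : 0 < r) : ∃ (η : ℂ) (ρ : ℝ), 0 < ρ ∧
      0 < s1 * (a1 * η).re ∧ 0 < s2 * (a2 * η).re ∧
      ∀ᶠ s : ℝ in 𝓝[>] 0, ∀ η' ∈ ball η ρ, q + s * η' ∈ Sx a1 a2 q kap r s1 s2 := by
  obtain ⟨l, -, h1, h2⟩ := hne
  have hO : IsOpen {η : ℂ | kap * ‖η‖ < s1 * (a1 * η).re ∧ kap * ‖η‖ < s2 * (a2 * η).re} := by
    have c1 : Continuous fun η : ℂ => kap * ‖η‖ := continuous_const.mul continuous_norm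
    have c2 : ∀ (s : ℝ) (a : ℂ), Continuous fun η : ℂ => s * (a * η).re := fun s a =>
      continuous_const.mul (Complex.continuous_re.comp (continuous_const.mul continuous_id))
    exact (isOpen_lt c1 (c2 s1 a1)).inter (isOpen_lt c1 (c2 s2 a2))
  obtain ⟨ρ, hρ, h3⟩ := Metric.isOpen_iff.1 hO (l - q) ⟨h1, h2⟩
  have h0 : 0 ≤ kap * ‖l - q‖ := by positivity
  refine ⟨l - q, ρ, hρ, h0.trans_lt h1, h0.trans_lt h2, ?_⟩
  have h4 : ∀ᶠ s : ℝ in 𝓝[>] 0, s * (‖l - q‖ + ρ) < r := by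
    have h5 : Tendsto (fun s : ℝ => s * (‖l - q‖ + ρ)) (𝓝[>] 0) (𝓝 (0 * (‖l - q‖ + ρ))) :=
      (tendsto_id.mono_left nhdsWithin_le_nhds).mul_const _
    rw [zero_mul] at h5
    exact h5.eventually_lt_const hr
  filter_upwards [h4, self_mem_nhdsWithin] with s h5 hs η' hη'
  have hs0 : 0 < s := hs
  obtain ⟨h6, h7⟩ := h3 hη'
  have h8 : ‖(s : ℂ) * η'‖ = s * ‖η'‖ := by
    rw [norm_mul, Complex.norm_real, Real.norm_of_nonneg hs0.le]
  have h9 : ‖η'‖ ≤ ‖l - q‖ + ρ := by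
    rw [mem_ball, dist_eq_norm] at hη'
    have h10 : η' = (l - q) + (η' - (l - q)) := by ring
    rw [h10]
    exact (norm_add_le _ _).trans (by linarith)
  have h10 : ∀ a : ℂ, (a * ((s : ℂ) * η')).re = s * (a * η').re := by
    intro a
    rw [mul_left_comm, Complex.re_ofReal_mul]
  refine ⟨?_, ?_, ?_⟩
  · rw [mem_ball, dist_eq_norm, add_sub_cancel_left, h8]
    exact (mul_le_mul_of_nonneg_left h9 hs0.le).trans_lt h5
  · rw [add_sub_cancel_left, h8, h10]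
    have := mul_lt_mul_of_pos_left h6 hs0
    nlinarith
  · rw [add_sub_cancel_left, h8, h10]
    have := mul_lt_mul_of_pos_left h7 hs0
    nlinarith

theorem rx_of (D : Dk phi K) (h : Xd phi K q t1 t2 a1 a2 x m1 m2 o1 o2 p1 p2 N1 N2 n1 n2 i1 i2 ell C) :
    Rx phi K q a1 a2 := by
  classical
  intro P hP2 hP kap r0 hk hr0 hS
  have hpp : ((1 : ℝ) = 1 ∨ (1 : ℝ) = -1) := Or.inl rfl
  have hmm : ((-1 : ℝ) = 1 ∨ (-1 : ℝ) = -1) := Or.inr rfl
  have h11 : ¬ ((1 : ℝ) = -1) := by norm_num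
  -- facts near the point
  have e0 : ∀ᶠ l in 𝓝 q, l ∉ K → ∀ s1 s2 : ℝ, (s1 = 1 ∨ s1 = -1) → (s2 = 1 ∨ s2 = -1) →
      kap * ‖l - q‖ < s1 * (a1 * (l - q)).re → kap * ‖l - q‖ < s2 * (a2 * (l - q)).re →
      (i1 l ↔ s1 = -1) ∧ (i2 l ↔ s2 = -1) := by
    filter_upwards [h.f1.fam.side kap hk, h.f2.fam.side kap hk] with l h1 h2 hl s1 s2 hs1 hs2 h3 h4
    obtain ⟨h5, h6⟩ := h1 hl
    obtain ⟨h7, h8⟩ := h2 hl
    constructor
    · rcases hs1 with rfl | rfl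
      · rw [one_mul] at h3
        exact ⟨fun hh => absurd hh (h5 h3), fun hh => absurd hh h11⟩
      · rw [neg_one_mul] at h3
        exact ⟨fun _ => rfl, fun _ => h6 h3⟩
    · rcases hs2 with rfl | rfl
      · rw [one_mul] at h4
        exact ⟨fun hh => absurd hh (h7 h4), fun hh => absurd hh h11⟩
      · rw [neg_one_mul] at h4
        exact ⟨fun _ => rfl, fun _ => h8 h4⟩
  have e1 : ∀ᶠ l in 𝓝 q, l ∉ K → ∀ s1 s2 : ℝ, (s1 = 1 ∨ s1 = -1) → (s2 = 1 ∨ s2 = -1) →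
      kap * ‖l - q‖ < s1 * (a1 * (l - q)).re → kap * ‖l - q‖ < s2 * (a2 * (l - q)).re →
      Ix phi l (x + (if s1 = -1 then 1 else 0) + if s2 = -1 then 1 else 0) := by
    filter_upwards [e0, h.num] with l h1 h2 hl s1 s2 hs1 hs2 h3 h4
    obtain ⟨h5, h6⟩ := h1 hl s1 s2 hs1 hs2 h3 h4
    refine h2 hl _ _ ?_ ?_
    · by_cases hh : s1 = -1
      · exact Or.inl ⟨h5.2 hh, if_pos hh⟩
      · exact Or.inr ⟨fun hi => hh (h5.1 hi), if_neg hh⟩
    · by_cases hh : s2 = -1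
      · exact Or.inl ⟨h6.2 hh, if_pos hh⟩
      · exact Or.inr ⟨fun hi => hh (h6.1 hi), if_neg hh⟩
  have hx : 0 ≤ x := by
    obtain ⟨ρ, hρ, hev⟩ := Metric.eventually_nhds_iff_ball.1 e1
    have hr : 0 < min r0 ρ := lt_min hr0 hρ
    obtain ⟨h1, l, hl⟩ := hS 1 1 hpp hpp (min r0 ρ) hr (min_le_left _ _)
    have h2 := hev l (ball_subset_ball (min_le_right _ _) hl.1) (h1 hl) 1 1 hpp hpp hl.2.1 hl.2.2
    simp only [h11, if_false, add_zero] at h2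
    exact D.nn _ _ h2
  obtain ⟨m, hm⟩ : ∃ m : ℕ, (m : ℤ) = x := ⟨x.toNat, Int.toNat_of_nonneg hx⟩
  obtain ⟨U, V, U0, V0, hU, hV, hfac⟩ := xd_fac D.hb h hx
  obtain ⟨ee, hee⟩ := xd_dual h m
  obtain ⟨y1, hy1⟩ := Pool.Agent.TBir.exists_e h.f1.fam.n
  obtain ⟨y2, hy2⟩ := Pool.Agent.TBir.exists_e h.f2.fam.n
  obtain ⟨ρ, hρ, hev⟩ := Metric.eventually_nhds_iff_ball.1
    (e0.and (e1.and (hfac.and (h.f1.fam.unit.and h.f2.fam.unit))))
  obtain ⟨r, hrdef⟩ : ∃ r, r = min r0 ρ := ⟨_, rfl⟩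
  have hr : 0 < r := by rw [hrdef]; exact lt_min hr0 hρ
  have hrr : r ≤ r0 := by rw [hrdef]; exact min_le_left _ _
  have hrρ : r ≤ ρ := by rw [hrdef]; exact min_le_right _ _
  have hSK : ∀ s1 s2 : ℝ, (s1 = 1 ∨ s1 = -1) → (s2 = 1 ∨ s2 = -1) →
      Sx a1 a2 q kap r s1 s2 ⊆ Kᶜ := fun s1 s2 h1 h2 => (hS s1 s2 h1 h2 r hr hrr).1
  have hi : ∀ i : ℕ, (i : ℤ) < x ↔ i < m := by
    intro i
    rw [← hm]
    exact Nat.cast_lt
  have hfacts : ∀ s1 s2 : ℝ, (s1 = 1 ∨ s1 = -1) → (s2 = 1 ∨ s2 = -1) →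
      ∀ l ∈ Sx a1 a2 q kap r s1 s2,
        Ix phi l (x + (if s1 = -1 then 1 else 0) + if s2 = -1 then 1 else 0) ∧
        ((i1 l ↔ s1 = -1) ∧ (i2 l ↔ s2 = -1)) ∧ (U l * V l = 1 ∧ V l * U l = 1) ∧
        (∀ f : Hardy, RgJ phi f l → (∀ i : Fin m, co (T (o1 l * o2 l) (V l f)) i = 0) ∧
        (i1 l → N1 l (T (o2 l) (V l f)) = 0) ∧ (i2 l → N2 l (T (o1 l) (V l f)) = 0)) ∧
        (i1 l → ‖n1 l‖ = 1) ∧ (i2 l → ‖n2 l‖ = 1) := by
    intro s1 s2 h1 h2 l hl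
    have h3 : l ∈ ball q ρ := ball_subset_ball hrρ hl.1
    have h4 : l ∉ K := hSK s1 s2 h1 h2 hl
    obtain ⟨h5, h6, h7, h8, h9⟩ := hev l h3
    obtain ⟨h10, h11⟩ := h7 h4
    refine ⟨h6 h4 s1 s2 h1 h2 hl.2.1 hl.2.2, h5 h4 s1 s2 h1 h2 hl.2.1 hl.2.2, h10, ?_,
      h8 h4, h9 h4⟩
    intro f hf
    obtain ⟨h12, h13, h14⟩ := h11 f hf
    exact ⟨fun i => h12 i ((hi i).2 i.2), h13, h14⟩
  have hcell : ∀ s1 s2 : ℝ, ∃ t : ℂ, (s1 = 1 ∨ s1 = -1) → (s2 = 1 ∨ s2 = -1) →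
      ∀ l ∈ Sx a1 a2 q kap r s1 s2,
        Ix phi l ((m + (if s1 = -1 then 1 else 0) + (if s2 = -1 then 1 else 0) : ℕ) : ℤ) ∧
        TrJ phi P l (m + (if s1 = -1 then 1 else 0) + (if s2 = -1 then 1 else 0)) t := by
    intro s1 s2
    by_cases h12 : (s1 = 1 ∨ s1 = -1) ∧ (s2 = 1 ∨ s2 = -1)
    · have h3 : ∀ l ∈ Sx a1 a2 q kap r s1 s2,
          Ix phi l ((m + (if s1 = -1 then 1 else 0) + (if s2 = -1 then 1 else 0) : ℕ) : ℤ) := by
        intro l hl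
        obtain ⟨h4, -⟩ := hfacts s1 s2 h12.1 h12.2 l hl
        rw [← hm] at h4
        push_cast
        exact h4
      obtain ⟨t, ht⟩ := tr_preconnectedJ D.hb hP2 hP (sx_conv a1 a2 q hk r s1 s2).isPreconnected h3
      exact ⟨t, fun _ _ l hl => ⟨h3 l hl, ht l hl⟩⟩
    · exact ⟨0, fun h1 h2 => absurd ⟨h1, h2⟩ h12⟩
  choose tau htau using hcell
  refine ⟨x, r, tau, hr, hrr, ?_, ?_⟩
  · intro s1 s2 h1 h2 l hl
    refine ⟨_, ?_, htau s1 s2 h1 h2 l hl⟩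
    push_cast
    rw [hm]
    have hii : ∀ s : ℝ, (s = 1 ∨ s = -1) → (if s = -1 then (1 : ℤ) else 0) = ii s := by
      rintro s (rfl | rfl)
      · unfold ii
        norm_num
      · unfold ii
        norm_num
    rw [hii s1 h1, hii s2 h2]
  obtain ⟨B, hB⟩ : ∃ B, B = V0 * P * U0 := ⟨_, rfl⟩
  obtain ⟨Th, hTh⟩ : ∃ Th : ℂ, Th = ∑ i : Fin m, co (T (o1 q * o2 q) (B (ee i))) i := ⟨_, rfl⟩
  have hnz1 : o2 q y1 ≠ 0 := h.f2.nz y1 (by rw [hy1]; exact h.ne)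
  have hnz2 : o1 q y2 ≠ 0 := h.f1.nz y2 (by rw [hy2]; exact h.ne.symm)
  have hy12 : y1 ≠ y2 := by
    intro hh
    apply h.ne
    rw [← hy1, ← hy2, hh]
  -- the filters
  have hmonoF : ∀ s1 s2 : ℝ, (s1 = 1 ∨ s1 = -1) → (s2 = 1 ∨ s2 = -1) →
      𝓝[Sx a1 a2 q kap r s1 s2] q ≤ 𝓝[Kᶜ] q := fun s1 s2 h1 h2 =>
    nhdsWithin_mono _ (hSK s1 s2 h1 h2)
  have hmonoN : ∀ s1 s2 : ℝ, 𝓝[Sx a1 a2 q kap r s1 s2] q ≤ 𝓝 q := fun s1 s2 => nhdsWithin_le_nhds
  have hUV : ∀ s1 s2 : ℝ, (s1 = 1 ∨ s1 = -1) → (s2 = 1 ∨ s2 = -1) →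
      ∀ᶠ l in 𝓝[Sx a1 a2 q kap r s1 s2] q, U l * V l = 1 ∧ V l * U l = 1 := by
    intro s1 s2 h1 h2
    filter_upwards [self_mem_nhdsWithin] with l hl
    exact (hfacts s1 s2 h1 h2 l hl).2.2.1
  have hO : Tendsto (fun l => o1 l * o2 l) (𝓝 q) (𝓝 (o1 q * o2 q)) := h.f1.lim.mul h.f2.lim
  have hIx : ∀ s1 s2 : ℝ, (s1 = 1 ∨ s1 = -1) → (s2 = 1 ∨ s2 = -1) →
      ∀ᶠ l in 𝓝[Sx a1 a2 q kap r s1 s2] q,
        Ix phi l ((m + (if s1 = -1 then 1 else 0) + (if s2 = -1 then 1 else 0) : ℕ) : ℤ) := by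
    intro s1 s2 h1 h2
    filter_upwards [self_mem_nhdsWithin] with l hl
    exact (htau s1 s2 h1 h2 l hl).1
  have I11 := hIx 1 1 hpp hpp
  have I21 := hIx (-1) 1 hmm hpp
  have I12 := hIx 1 (-1) hpp hmm
  have I22 := hIx (-1) (-1) hmm hmm
  simp only [h11, if_false, if_true, add_zero] at I11 I21 I12 I22
  have conc1 : ∀ s2 : ℝ, (s2 = 1 ∨ s2 = -1) → ∀ (psi : CT), ∀ eps > 0,
      ∀ᶠ l in 𝓝[Sx a1 a2 q kap r (-1) s2] q,
      ‖mul psi (incl (n1 l)) - psi y1 • incl (n1 l)‖ ≤ eps := by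
    intro s2 hs2 psi eps heps
    filter_upwards [(hmonoN (-1) s2) (h.f1.fam.conc psi y1 hy1 eps heps), self_mem_nhdsWithin]
      with l h1 hl
    exact h1 (hSK (-1) s2 hmm hs2 hl) ((hfacts (-1) s2 hmm hs2 l hl).2.1.1.2 rfl)
  have conc2 : ∀ s1 : ℝ, (s1 = 1 ∨ s1 = -1) → ∀ (psi : CT), ∀ eps > 0,
      ∀ᶠ l in 𝓝[Sx a1 a2 q kap r s1 (-1)] q,
      ‖mul psi (incl (n2 l)) - psi y2 • incl (n2 l)‖ ≤ eps := by
    intro s1 hs1 psi eps heps
    filter_upwards [(hmonoN s1 (-1)) (h.f2.fam.conc psi y2 hy2 eps heps), self_mem_nhdsWithin]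
      with l h1 hl
    exact h1 (hSK s1 (-1) hs1 hmm hl) ((hfacts s1 (-1) hs1 hmm l hl).2.1.2.2 rfl)
  have unit1 : ∀ s2 : ℝ, (s2 = 1 ∨ s2 = -1) → ∀ᶠ l in 𝓝[Sx a1 a2 q kap r (-1) s2] q,
      ‖n1 l‖ = 1 := by
    intro s2 hs2
    filter_upwards [self_mem_nhdsWithin] with l hl
    obtain ⟨-, ⟨h3, h4⟩, -, -, h5, h6⟩ := hfacts (-1) s2 hmm hs2 l hl
    exact h5 (h3.2 rfl)
  have unit2 : ∀ s1 : ℝ, (s1 = 1 ∨ s1 = -1) → ∀ᶠ l in 𝓝[Sx a1 a2 q kap r s1 (-1)] q,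
      ‖n2 l‖ = 1 := by
    intro s1 hs1
    filter_upwards [self_mem_nhdsWithin] with l hl
    obtain ⟨-, ⟨h3, h4⟩, -, -, h5, h6⟩ := hfacts s1 (-1) hs1 hmm l hl
    exact h6 (h4.2 rfl)
  have R11 : RY phi (𝓝[Sx a1 a2 q kap r 1 1] q) m 0 U V U0 V0 (fun l => o1 l * o2 l)
      (o1 q * o2 q) ee (fun j => j.elim0) (fun j => j.elim0) (fun j => j.elim0)
      (fun j => j.elim0) (fun j => j.elim0) :=
    { hb := D.hb
      hU := hU.mono_left (hmonoF 1 1 hpp hpp)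
      hV := hV.mono_left (hmonoF 1 1 hpp hpp)
      hUV := hUV 1 1 hpp hpp
      hOm := hO.mono_left (hmonoN _ _)
      hee := hee
      inj := fun j => j.elim0
      rep := fun j => j.elim0
      unit := Eventually.of_forall fun l j => j.elim0
      conc := fun j => j.elim0
      hom := fun j => j.elim0
      nz := fun j => j.elim0
      hr := by
        filter_upwards [self_mem_nhdsWithin] with l hl g hg
        obtain ⟨-, -, -, h5, -⟩ := hfacts 1 1 hpp hpp l hl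
        exact ⟨(h5 g hg).1, fun j => j.elim0⟩
      ix := I11 }
  have R21 : RY phi (𝓝[Sx a1 a2 q kap r (-1) 1] q) m 1 U V U0 V0 (fun l => o1 l * o2 l)
      (o1 q * o2 q) ee (fun _ => N1) (fun _ => n1) (fun _ => o2) (fun _ => o2 q)
      (fun _ => y1) :=
    { hb := D.hb
      hU := hU.mono_left (hmonoF (-1) 1 hmm hpp)
      hV := hV.mono_left (hmonoF (-1) 1 hmm hpp)
      hUV := hUV (-1) 1 hmm hpp
      hOm := hO.mono_left (hmonoN _ _)
      hee := hee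
      inj := fun i j _ => Subsingleton.elim i j
      rep := fun _ => h.f1.fam.rep
      unit := (unit1 1 hpp).mono fun l hl _ => hl
      conc := fun _ => conc1 1 hpp
      hom := fun _ => h.f2.lim.mono_left (hmonoN _ _)
      nz := fun _ => hnz1
      hr := by
        filter_upwards [self_mem_nhdsWithin] with l hl g hg
        obtain ⟨-, ⟨h3, h4⟩, -, h5, -⟩ := hfacts (-1) 1 hmm hpp l hl
        obtain ⟨h6, h7, h8⟩ := h5 g hg
        exact ⟨h6, fun _ => h7 (h3.2 rfl)⟩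
      ix := I21 }
  have R12 : RY phi (𝓝[Sx a1 a2 q kap r 1 (-1)] q) m 1 U V U0 V0 (fun l => o1 l * o2 l)
      (o1 q * o2 q) ee (fun _ => N2) (fun _ => n2) (fun _ => o1) (fun _ => o1 q)
      (fun _ => y2) :=
    { hb := D.hb
      hU := hU.mono_left (hmonoF 1 (-1) hpp hmm)
      hV := hV.mono_left (hmonoF 1 (-1) hpp hmm)
      hUV := hUV 1 (-1) hpp hmm
      hOm := hO.mono_left (hmonoN _ _)
      hee := hee
      inj := fun i j _ => Subsingleton.elim i j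
      rep := fun _ => h.f2.fam.rep
      unit := (unit2 1 hpp).mono fun l hl _ => hl
      conc := fun _ => conc2 1 hpp
      hom := fun _ => h.f1.lim.mono_left (hmonoN _ _)
      nz := fun _ => hnz2
      hr := by
        filter_upwards [self_mem_nhdsWithin] with l hl g hg
        obtain ⟨-, ⟨h3, h4⟩, -, h5, -⟩ := hfacts 1 (-1) hpp hmm l hl
        obtain ⟨h6, h7, h8⟩ := h5 g hg
        exact ⟨h6, fun _ => h8 (h4.2 rfl)⟩
      ix := I12 }
  have R22 : RY phi (𝓝[Sx a1 a2 q kap r (-1) (-1)] q) m 2 U V U0 V0 (fun l => o1 l * o2 l)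
      (o1 q * o2 q) ee ![N1, N2] ![n1, n2] ![o2, o1] ![o2 q, o1 q] ![y1, y2] :=
    { hb := D.hb
      hU := hU.mono_left (hmonoF (-1) (-1) hmm hmm)
      hV := hV.mono_left (hmonoF (-1) (-1) hmm hmm)
      hUV := hUV (-1) (-1) hmm hmm
      hOm := hO.mono_left (hmonoN _ _)
      hee := hee
      inj := by
        intro i j hij
        fin_cases i <;> fin_cases j
        · rfl
        · exact absurd hij hy12
        · exact absurd hij.symm hy12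
        · rfl
      rep := by
        intro j
        fin_cases j
        · exact h.f1.fam.rep
        · exact h.f2.fam.rep
      unit := by
        filter_upwards [unit1 (-1) hmm, unit2 (-1) hmm] with l hl1 hl2 j
        fin_cases j
        · exact hl1
        · exact hl2
      conc := by
        intro j
        fin_cases j
        · exact conc1 (-1) hmm
        · exact conc2 (-1) hmm
      hom := by
        intro j
        fin_cases j
        · exact h.f2.lim.mono_left (hmonoN _ _)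
        · exact h.f1.lim.mono_left (hmonoN _ _)
      nz := by
        intro j
        fin_cases j
        · exact hnz1
        · exact hnz2
      hr := by
        filter_upwards [self_mem_nhdsWithin] with l hl g hg
        obtain ⟨-, ⟨h3, h4⟩, -, h5, -⟩ := hfacts (-1) (-1) hmm hmm l hl
        obtain ⟨h6, h7, h8⟩ := h5 g hg
        refine ⟨h6, fun j => ?_⟩
        fin_cases j
        · exact h7 (h3.2 rfl)
        · exact h8 (h4.2 rfl)
      ix := I22 }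
  -- rays
  obtain ⟨η11, ρ11, hρ11, -, -, y11⟩ := sx_ray hk (hS 1 1 hpp hpp r0 hr0 le_rfl).2 hr
  obtain ⟨η21, ρ21, hρ21, p21, -, y21⟩ := sx_ray hk (hS (-1) 1 hmm hpp r0 hr0 le_rfl).2 hr
  obtain ⟨η12, ρ12, hρ12, -, p12, y12⟩ := sx_ray hk (hS 1 (-1) hpp hmm r0 hr0 le_rfl).2 hr
  obtain ⟨η, ρ22, hρ22, p1, p2, y22⟩ := sx_ray hk (hS (-1) (-1) hmm hmm r0 hr0 le_rfl).2 hr
  have hray : ∀ (s1 s2 : ℝ) (η : ℂ) (ρ : ℝ), 0 < ρ →
      (∀ᶠ s : ℝ in 𝓝[>] 0, ∀ η' ∈ ball η ρ, q + s * η' ∈ Sx a1 a2 q kap r s1 s2) →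
      Tendsto (fun s : ℝ => q + (s : ℂ) * η) (𝓝[>] 0) (𝓝[Sx a1 a2 q kap r s1 s2] q) := by
    intro s1 s2 η ρ hρ hy
    refine tendsto_nhdsWithin_iff.2 ⟨?_, ?_⟩
    · have h1 : Tendsto (fun s : ℝ => q + (s : ℂ) * η) (𝓝[>] 0) (𝓝 (q + ((0 : ℝ) : ℂ) * η)) := by
        refine Tendsto.mono_left ?_ nhdsWithin_le_nhds
        exact Continuous.tendsto (by fun_prop) 0
      rw [Complex.ofReal_zero, zero_mul, add_zero] at h1
      exact h1
    · filter_upwards [hy] with s hs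
      exact hs η (mem_ball_self hρ)
  have hTr : ∀ s1 s2 : ℝ, (s1 = 1 ∨ s1 = -1) → (s2 = 1 ∨ s2 = -1) →
      ∀ᶠ l in 𝓝[Sx a1 a2 q kap r s1 s2] q,
        TrJ phi P l (m + (if s1 = -1 then 1 else 0) + (if s2 = -1 then 1 else 0)) (tau s1 s2) := by
    intro s1 s2 h1 h2
    filter_upwards [self_mem_nhdsWithin] with l hl
    exact (htau s1 s2 h1 h2 l hl).2
  have T11 := hTr 1 1 hpp hpp
  have T21 := hTr (-1) 1 hmm hpp
  have T12 := hTr 1 (-1) hpp hmm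
  have T22 := hTr (-1) (-1) hmm hmm
  simp only [h11, if_false, if_true, add_zero] at T11 T21 T12 T22
  have E11 : tau 1 1 = Th := by
    have h1 := (R11.tr hP T11).comp (hray 1 1 η11 ρ11 hρ11 y11)
    rw [← hB] at h1
    have h2 : Tendsto (fun _ : ℝ => Th) (𝓝[>] 0) (𝓝 (tau 1 1)) := by
      refine h1.congr fun s => ?_
      simp only [Function.comp_apply, Finset.univ_eq_empty, Finset.sum_empty, add_zero]
      exact hTh.symm
    exact (tendsto_nhds_unique h2 tendsto_const_nhds)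
  have O1 := R21.one hP T21
  have O2 := R12.one hP T12
  rw [← hB, ← hTh] at O1 O2
  have hKη : ∀ᶠ s : ℝ in 𝓝[>] 0, q + s * η ∉ K := by
    filter_upwards [y22] with s hs
    exact hSK (-1) (-1) hmm hmm (hs η (mem_ball_self hρ22))
  have L1 := h.f1.fam.tc _ _ η21 ρ21 (hSK (-1) 1 hmm hpp) hρ21 (by linarith) y21 O1
    η (by linarith) hKη
  have L2 := h.f2.fam.tc _ _ η12 ρ12 (hSK 1 (-1) hpp hmm) hρ12 (by linarith) y12 O2
    η (by linarith) hKη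
  -- the filter of the ray
  obtain ⟨g, hg⟩ : ∃ g : Filter ℂ, g = map (fun s : ℝ => q + (s : ℂ) * η) (𝓝[>] 0) := ⟨_, rfl⟩
  have hgne : g.NeBot := by
    rw [hg]
    exact map_neBot
  have hgle : g ≤ 𝓝[Sx a1 a2 q kap r (-1) (-1)] q := by
    rw [hg]
    exact hray (-1) (-1) η ρ22 hρ22 y22
  have M1 : Tendsto (fun l => ‖(N1 l).comp (T (o2 q) * (B - (tau (-1) 1 - Th) • (1 : Op)))‖) g
      (𝓝 0) := by
    rw [hg]
    exact tendsto_map'_iff.2 L1
  have M2 : Tendsto (fun l => ‖(N2 l).comp (T (o1 q) * (B - (tau 1 (-1) - Th) • (1 : Op)))‖) g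
      (𝓝 0) := by
    rw [hg]
    exact tendsto_map'_iff.2 L2
  have V1 := ry_val h.f1.fam.rep ((unit1 (-1) hmm).filter_mono hgle)
    (fun psi eps heps => (conc1 (-1) hmm psi eps heps).filter_mono hgle) hnz1 M1
  have V2 := ry_val h.f2.fam.rep ((unit2 (-1) hmm).filter_mono hgle)
    (fun psi eps heps => (conc2 (-1) hmm psi eps heps).filter_mono hgle) hnz2 M2
  have V3 := (R22.tr hP T22).mono_left hgle
  rw [← hB, ← hTh] at V3
  simp only [Fin.sum_univ_two, Matrix.cons_val_zero, Matrix.cons_val_one] at V3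
  have E22 := tendsto_nhds_unique V3 ((V1.add V2).const_add Th)
  rw [E22, E11]
  ring

end Pool.Agent.TBirX
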