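import Pool.Agent.TBirX.Def
import Pool.Agent.TBirN.Sb
import Pool.Agent.TBirK.RgR

/-!
# The sides of the points of the segments

Port of TBirN/Sb.lean with `RegC` and `Sn phi F u v t q` in place of `BCross`: near `q` there are only the segment and, if `q` is an end, the curve near `t`; the set of `RegC.cross` is finite and does not contain `q`, so near `q` the curve does not meet the segment; the curve is simple near `t` (`rg_nn`).
-/

set_option autoImplicit false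

open MeasureTheory Complex Set Filter Topology Metric AddCircle
open scoped ComplexConjugate InnerProductSpace ENNReal

namespace Pool.Agent.TBirX

open Pool.Agent.TBir Pool.Agent.TBirG Pool.Agent.TBirC Pool.Agent.TBirJ Pool.Agent.TBirK
open Pool.Agent.TBirN
open Pool.Agent.TBirP (E qT)

open SdcAux SdaAux SdlAux
open Pool.Agent.TBirP (nb_E_mem nb_E_zero nb_E_cont nb_ne nb_arg nb_arg_eq)

section Ss

variable {phi : ℂ → ℂ} {F : Finset ℂ} {u v : ℂ → ℂ} {q t : ℂ}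

/-- near `q` all points of the segment have the property -/
private theorem ss_near (h : RegC phi F u v) (ht : t ∈ F) (hn : Sn phi F u v t q) :
    ∃ ε : ℝ, 0 < ε ∧ ∀ l ∈ ball q ε, l ∈ segment ℝ (u t) (v t) → Sn phi F u v t l := by
  have h1 := h.cross t ht
  have h2 : q ∉ {q : ℂ | q ∈ segment ℝ (u t) (v t) ∧
      ((∃ z ∈ sphere (0 : ℂ) 1, z ∉ F ∧ phi z = q) ∨
        ∃ t' ∈ F, t' ≠ t ∧ q ∈ segment ℝ (u t') (v t'))} := by
    rintro ⟨-, ⟨z, hz, hzF, he⟩ | ⟨t', ht', hne, hq'⟩⟩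
    · exact hn.1 z (mem_sphere_zero_iff_norm.1 hz) hzF he
    · exact hn.2 t' ht' hne hq'
  have h3 := h1.isClosed.isOpen_compl.mem_nhds h2
  obtain ⟨ε, hε, h4⟩ := Metric.mem_nhds_iff.1 h3
  refine ⟨ε, hε, fun l hl hls => ⟨fun z hz hzF he => ?_, fun t' ht' hne hl' => ?_⟩⟩
  · exact h4 hl ⟨hls, Or.inl ⟨z, mem_sphere_zero_iff_norm.2 hz, hzF, he⟩⟩
  · exact h4 hl ⟨hls, Or.inr ⟨t', ht', hne, hl'⟩⟩

/-- the curve is simple near `t` -/
private theorem ss_simple (h : RegC phi F u v) (ht : t ∈ F) : ∀ᶠ z in 𝓝 t, ‖z‖ = 1 → z ∉ F →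
    ∀ z' : ℂ, ‖z'‖ = 1 → z' ∉ F → phi z' = phi z → z' = z := by
  have h1 := rg_nn h
  have h2 : t ∉ {z : ℂ | z ∈ sphere (0 : ℂ) 1 ∧ z ∉ F ∧
      ∃ z' ∈ sphere (0 : ℂ) 1, z' ∉ F ∧ phi z' = phi z ∧ z' ≠ z} := fun h0 => h0.2.1 ht
  filter_upwards [h1.isClosed.isOpen_compl.mem_nhds h2] with z hz hz1 hzF z' hz' hz'F he
  by_contra hne
  exact hz ⟨mem_sphere_zero_iff_norm.2 hz1, hzF, z', mem_sphere_zero_iff_norm.2 hz', hz'F, he,
    hne⟩

private theorem ss_loc (h : RegC phi F u v) (ht : t ∈ F) (hq : q ∈ segment ℝ (u t) (v t))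
    (hn : Sn phi F u v t q) (h1 : q ≠ u t) (h2 : q ≠ v t) : ∃ (m : ℤ) (s : ℝ), 0 < s ∧ ∀ l ∈ ball q s,
      (0 < ((l - u t) * conj (v t - u t)).im → Ix phi l (m + 1)) ∧
      (((l - u t) * conj (v t - u t)).im < 0 → Ix phi l m) := by
  refine TBirK.seg_local h.toPwC.cv ht hq h1 h2 ?_ ?_
  · intro z hz hzF he
    exact hn.1 z (mem_sphere_zero_iff_norm.1 hz) hzF he
  · intro t' ht' hne
    exact hn.2 t' ht' hne


/-- points off the curve on both sides of a point of the open segment -/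
private theorem ss_key (h : RegC phi F u v) (ht : t ∈ F) (hne : u t ≠ v t) {τ : ℝ} (h0 : 0 < τ)
    (h1 : τ < 1) (hn : Sn phi F u v t (u t + τ * (v t - u t))) {N : Set ℂ} (hN : N ∈ 𝓝 (u t + τ * (v t - u t))) :
    ∃ (m : ℤ) (l1 l2 : ℂ), l1 ∈ N ∧ l2 ∈ N ∧ l1 ∉ Gam phi F u v ∧
      l2 ∉ Gam phi F u v ∧ Ix phi l1 (m + 1) ∧ Ix phi l2 m := by
  have hP := h.toPwC.cv
  have hseg : u t + τ * (v t - u t) ∈ segment ℝ (u t) (v t) := mem_seg.2 ⟨τ, h0.le, h1.le, rfl⟩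
  obtain ⟨e1, e2⟩ := ne_seg hne h0 h1
  obtain ⟨m, s, hs, hl⟩ := ss_loc h ht hseg hn e1 e2
  have g2 : ∀ᶠ l in 𝓝 (u t + τ * (v t - u t)), ∀ t' ∈ F, t' ≠ t →
      l ∉ segment ℝ (u t') (v t') := by
    rw [Finset.eventually_all]
    intro t' ht'
    by_cases hne' : t' = t
    · exact Filter.Eventually.of_forall fun _ h0 => absurd hne' h0
    · filter_upwards [(closed_seg (u t') (v t')).isOpen_compl.mem_nhds
        (hn.2 t' ht' hne')] with l hl _
      exact hl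
  obtain ⟨l1, hl1, l2, hl2, f1, f2⟩ := near_line (u t) (v t - u t) (sub_ne_zero.2 hne.symm) τ
    (inter_mem hN (inter_mem (Metric.ball_mem_nhds _ hs) g2))
  have i1 := (hl l1 hl1.2.1).1 f1
  have i2 := (hl l2 hl2.2.1).2 f2
  have hK : ∀ l n, Ix phi l n → ((l - u t) * conj (v t - u t)).im ≠ 0 →
      (∀ t' ∈ F, t' ≠ t → l ∉ segment ℝ (u t') (v t')) → l ∉ Gam phi F u v := by
    rintro l n hl1 hl0 hl2 (⟨z, ⟨hz, hzF⟩, hzl⟩ | hl)
    · exact ne_valK hP hl1 (mem_sphere_zero_iff_norm.1 hz)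
        (fun h0 => hzF (Finset.mem_coe.2 h0)) hzl
    · obtain ⟨t', ht', hl'⟩ := mem_iUnion₂.1 hl
      by_cases hne' : t' = t
      · subst hne'
        obtain ⟨σ, -, -, rfl⟩ := mem_seg.1 hl'
        rw [lf_eq, Complex.ofReal_im, zero_mul] at hl0
        exact hl0 rfl
      · exact hl2 t' ht' hne' hl'
  exact ⟨m, l1, l2, hl1.1, hl2.1, hK l1 _ i1 f1.ne' hl1.2.2, hK l2 _ i2 f2.ne hl2.2.2, i1, i2⟩


private theorem ss_open (h : RegC phi F u v) (ht : t ∈ F) (hq : q ∈ segment ℝ (u t) (v t))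
    (hn : Sn phi F u v t q) (h1 : q ≠ u t) (h2 : q ≠ v t) : ∃ m : ℤ, Sides phi (Gam phi F u v) q m := by
  obtain ⟨m, s, hs, hl⟩ := ss_loc h ht hq hn h1 h2
  obtain ⟨τ, h3, h4, rfl⟩ := mem_seg.1 hq
  have hne : u t ≠ v t := by
    intro h0
    apply h1
    rw [h0, sub_self, mul_zero, add_zero]
  have hD : v t - u t ≠ 0 := sub_ne_zero.2 hne.symm
  have hns : 0 < normSq (v t - u t) := Complex.normSq_pos.2 hD
  have h3' : 0 < τ := by
    rcases h3.eq_or_lt with h0 | h0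
    · exfalso
      apply h1
      rw [← h0, ofReal_zero, zero_mul, add_zero]
    · exact h0
  have h4' : τ < 1 := by
    rcases h4.eq_or_lt with h0 | h0
    · exfalso
      apply h2
      rw [h0, ofReal_one, one_mul]
      ring
    · exact h0
  refine ⟨m, ball (u t + τ * (v t - u t)) s ∩ {l | 0 < ((l - u t) * conj (v t - u t)).im},
    ball (u t + τ * (v t - u t)) s ∩ {l | ((l - u t) * conj (v t - u t)).im < 0},
    ((convex_ball _ _).inter (conv_pos _ _)).isPreconnected,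
    ((convex_ball _ _).inter (conv_neg _ _)).isPreconnected,
    fun l hl' => (hl l hl'.1).1 hl'.2, fun l hl' => (hl l hl'.1).2 hl'.2, ?_, ?_, ?_⟩
  · rw [mem_closure_iff_nhds]
    intro N hN
    obtain ⟨l1, hl1, l2, hl2, f1, f2⟩ := near_line (u t) (v t - u t) hD τ
      (inter_mem hN (Metric.ball_mem_nhds _ hs))
    exact ⟨l1, hl1.1, hl1.2, f1⟩
  · rw [mem_closure_iff_nhds]
    intro N hN
    obtain ⟨l1, hl1, l2, hl2, f1, f2⟩ := near_line (u t) (v t - u t) hD τ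
      (inter_mem hN (Metric.ball_mem_nhds _ hs))
    exact ⟨l2, hl2.1, hl2.2, f2⟩
  · have g1 : Tendsto (fun l : ℂ => ((l - u t) / (v t - u t)).re)
        (𝓝 (u t + τ * (v t - u t))) (𝓝 τ) := by
      have g2 : Continuous fun l : ℂ => ((l - u t) / (v t - u t)).re := by fun_prop
      have g3 := g2.tendsto (u t + τ * (v t - u t))
      rwa [add_sub_cancel_left, mul_div_cancel_right₀ _ hD, ofReal_re] at g3
    filter_upwards [g1.eventually_const_lt h3', g1.eventually_lt_const h4',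
      Metric.ball_mem_nhds _ hs] with l a1 a2 a3 hlK
    rcases lt_trichotomy ((l - u t) * conj (v t - u t)).im 0 with a4 | a4 | a4
    · exact Or.inr ⟨a3, a4⟩
    · exfalso
      apply hlK
      refine Or.inr (mem_biUnion (Finset.mem_coe.2 ht) ?_)
      have a5 : l = u t + ((l - u t) / (v t - u t)) * (v t - u t) := by
        rw [div_mul_cancel₀ _ hD]
        ring
      have a6 := a4
      rw [a5, lf_eq] at a6
      have a7 : ((l - u t) / (v t - u t)).im = 0 := by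
        rcases mul_eq_zero.1 a6 with a8 | a8
        · exact a8
        · exact absurd a8 hns.ne'
      have a8 : ((((l - u t) / (v t - u t)).re : ℝ) : ℂ) = (l - u t) / (v t - u t) := by
        apply Complex.ext
        · rw [ofReal_re]
        · rw [ofReal_im, a7]
      refine mem_seg.2 ⟨_, a1.le, a2.le, ?_⟩
      rw [a8]
      exact a5
    · exact Or.inl ⟨a3, a4⟩


/-- one end of a segment; `s = 1` or `s = -1` is the side -/
private theorem ss_end (h : RegC phi F u v) (ht : t ∈ F) {q w : ℂ} {s : ℝ}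
    (hSn : Sn phi F u v t q)
    (hs' : s = 1 ∨ s = -1)
    (hq : Tendsto (fun x : ℝ => phi (t * E (s * x))) (𝓝[>] 0) (𝓝 q)) (hqw : q ≠ w)
    (hcase : (q = u t ∧ w = v t) ∨ (q = v t ∧ w = u t))
    (hoth : Tendsto (fun x : ℝ => phi (t * E (-s * x))) (𝓝[>] 0) (𝓝 w)) :
    ∃ m : ℤ, Sides phi (Gam phi F u v) q m := by
  classical
  have hpi := Real.pi_gt_three
  have hP : Cv phi F u v := h.toPwC.cv
  have hs : s * s = 1 := by
    rcases hs' with rfl | rfl
    · norm_num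
    · norm_num
  have hn : ‖t‖ = 1 := hP.circ t ht
  have ht0 : t ≠ 0 := nb_ne hn
  have hs0 : s ≠ 0 := by
    rintro rfl
    rw [mul_zero] at hs
    exact zero_ne_one hs
  have hsabs : |s| = 1 := by
    have h1 : |s| * |s| = 1 := by rw [← abs_mul, hs, abs_one]
    nlinarith [abs_nonneg s]
  have hsegeq : segment ℝ (u t) (v t) = segment ℝ q w := by
    rcases hcase with ⟨rfl, rfl⟩ | ⟨rfl, rfl⟩
    · rfl
    · exact segment_symm ℝ _ _
  have huv : u t ≠ v t := by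
    rcases hcase with ⟨rfl, rfl⟩ | ⟨rfl, rfl⟩
    · exact hqw
    · exact hqw.symm
  have hqseg : q ∈ segment ℝ (u t) (v t) := by rw [hsegeq]; exact left_mem_segment ℝ _ _
  have hD : w - q ≠ 0 := sub_ne_zero.2 hqw.symm
  have hDn : 0 < ‖w - q‖ := norm_pos_iff.2 hD
  obtain ⟨k1, d1, hd1, c1, z1, m1, a1⟩ := arcK hP hn hs' hq
  obtain ⟨k2, hk2⟩ : ∃ k2 : ℝ → ℂ, ∀ y, k2 y = q + y * (w - q) := ⟨_, fun _ => rfl⟩
  have c2 : Continuous k2 := by
    have h1 : Continuous fun y : ℝ => q + (y : ℂ) * (w - q) := by fun_prop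
    exact h1.congr fun y => (hk2 y).symm
  have z2 : k2 0 = q := by rw [hk2, ofReal_zero, zero_mul, add_zero]
  have n2 : ∀ y : ℝ, 0 ≤ y → ‖k2 y - q‖ = y * ‖w - q‖ := by
    intro y hy
    rw [hk2, add_sub_cancel_left, norm_mul, Complex.norm_real, Real.norm_of_nonneg hy]
  have m2 : StrictMonoOn (fun x => ‖k2 x - q‖) (Icc 0 1) := by
    intro x hx y hy hxy
    simp only
    rw [n2 x hx.1, n2 y hy.1]
    exact mul_lt_mul_of_pos_right hxy hDn
  have htend : Tendsto (fun x : ℝ => t * E x) (𝓝 0) (𝓝 t) := by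
    have h1 : Continuous fun x : ℝ => t * E x := continuous_const.mul nb_E_cont
    have := h1.tendsto 0
    rwa [nb_E_zero, mul_one] at this
  obtain ⟨r, hr, hr1, hrF⟩ : ∃ r : ℝ, 0 < r ∧ r ≤ 1 ∧ ∀ x : ℝ, |x| ≤ r → x ≠ 0 →
      t * E x ∉ F := by
    have g1 : ∀ᶠ z in 𝓝 t, z ∉ (F : Set ℂ) \ {t} := by
      have : ((F : Set ℂ) \ {t})ᶜ ∈ 𝓝 t :=
        (F.finite_toSet.subset sdiff_subset).isClosed.isOpen_compl.mem_nhds fun h3 => h3.2 rfl
      exact this
    have g2 := htend.eventually g1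
    rw [Metric.eventually_nhds_iff] at g2
    obtain ⟨ε, hε, g3⟩ := g2
    refine ⟨min (ε / 2) 1, by positivity, min_le_right _ _, fun x hx hx0 h0 => ?_⟩
    have hx1 : |x| ≤ ε / 2 := hx.trans (min_le_left _ _)
    have hx2 : |x| ≤ 1 := hx.trans (min_le_right _ _)
    exact g3 (y := x) (by rw [Real.dist_eq, sub_zero]; linarith)
      ⟨Finset.mem_coe.2 h0, tE_ne hn hx0 (by linarith)⟩
  obtain ⟨ε, hε, hSne⟩ := ss_near h ht hSn
  obtain ⟨d, hd, hdd1, hdr, hdε⟩ : ∃ d : ℝ, 0 < d ∧ d ≤ d1 ∧ d ≤ r ∧ d * ‖w - q‖ < ε := by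
    refine ⟨min (min d1 r) (ε / (2 * ‖w - q‖)), by positivity,
      (min_le_left _ _).trans (min_le_left _ _), (min_le_left _ _).trans (min_le_right _ _), ?_⟩
    calc min (min d1 r) (ε / (2 * ‖w - q‖)) * ‖w - q‖ ≤ ε / (2 * ‖w - q‖) * ‖w - q‖ :=
          mul_le_mul_of_nonneg_right (min_le_right _ _) hDn.le
      _ = ε / 2 := by field_simp
      _ < ε := half_lt_self hε
  have hdone : d ≤ 1 := hdr.trans hr1
  have i1 : Icc 0 d ⊆ Icc 0 d1 := Icc_subset_Icc_right hdd1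
  have i2 : Icc 0 d ⊆ Icc 0 1 := Icc_subset_Icc_right hdone
  have habs : ∀ x : ℝ, 0 < x → |s * x| = x := by
    intro x hx
    rw [abs_mul, hsabs, one_mul, abs_of_pos hx]
  have hsx : ∀ x : ℝ, 0 < x → s * x ≠ 0 := fun x hx => mul_ne_zero hs0 hx.ne'
  have a1' : ∀ x ∈ Ioc 0 d, k1 x = phi (t * E (s * x)) := fun x hx =>
    a1 x ⟨hx.1, hx.2.trans hdd1⟩
  have hF1 : ∀ x ∈ Ioc 0 d, t * E (s * x) ∉ F := fun x hx =>
    hrF _ (by rw [habs x hx.1]; exact hx.2.trans hdr) (hsx x hx.1)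
  have hk2seg : ∀ y ∈ Icc 0 d, k2 y ∈ segment ℝ (u t) (v t) := by
    intro y hy
    rw [hsegeq, hk2]
    exact mem_seg.2 ⟨y, hy.1, hy.2.trans hdone, rfl⟩
  have hsegK : segment ℝ (u t) (v t) ⊆ Gam phi F u v := fun l hl =>
    Or.inr (mem_biUnion (Finset.mem_coe.2 ht) hl)
  have hdis : ∀ x ∈ Icc 0 d, ∀ y ∈ Icc 0 d, k1 x = k2 y → x = 0 ∧ y = 0 := by
    intro x hx y hy hxy
    rcases hx.1.eq_or_lt with hx0 | hx0
    · refine ⟨hx0.symm, ?_⟩
      apply m2.injOn (i2 hy) ⟨le_rfl, zero_le_one⟩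
      simp only
      rw [← hxy, ← hx0, z1, z2]
    · exfalso
      have h1 : k2 y ∈ ball q ε := by
        rw [Metric.mem_ball, dist_eq_norm, n2 y hy.1]
        exact (mul_le_mul_of_nonneg_right hy.2 hDn.le).trans_lt hdε
      refine (hSne _ h1 (hk2seg y hy)).1 _ (mem_sphere_zero_iff_norm.1 (nb_E_mem hn (s * x)))
        (hF1 x ⟨hx0, hx.2⟩) ?_
      rw [← a1' x ⟨hx0, hx.2⟩, hxy]
  -- the curve near `q`
  have hK : ∀ᶠ l in 𝓝 q, l ∈ Gam phi F u v ↔ l ∈ k1 '' Icc 0 d ∪ k2 '' Icc 0 d := by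
    have g1 : ∀ᶠ l in 𝓝 q, ∀ z ∈ sphere (0 : ℂ) 1, ‖z‖ = 1 → z ∉ F → phi z = l →
        l ∈ k1 '' Icc 0 d ∪ k2 '' Icc 0 d := by
      refine (isCompact_sphere (0 : ℂ) 1).eventually_forall_of_forall_eventually
        (P := fun l z => ‖z‖ = 1 → z ∉ F → phi z = l → l ∈ k1 '' Icc 0 d ∪ k2 '' Icc 0 d)
        fun z0 hz0 => ?_
      have hz0' : ‖z0‖ = 1 := mem_sphere_zero_iff_norm.1 hz0
      by_cases hF : z0 ∈ F
      · by_cases htz : z0 = t
        · rw [htz]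
          have g2 : ∀ᶠ z in 𝓝 t, |arg (z / t)| < d := by
            have := (nb_arg hn).abs
            rw [abs_zero] at this
            exact this.eventually_lt_const hd
          have hwq : 0 < ‖w - q‖ / 2 := half_pos hDn
          have g3 := (hoth.sub_const q).norm.eventually_const_lt (half_lt_self hDn)
          rw [eventually_nhdsWithin_iff] at g3
          have g4 : Tendsto (fun z : ℂ => -s * arg (z / t)) (𝓝 t) (𝓝 0) := by
            have := (nb_arg hn).const_mul (-s)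
            rwa [mul_zero] at this
          have g5 : ∀ᶠ l in 𝓝 q, l ∈ ball q (‖w - q‖ / 2) := Metric.ball_mem_nhds q hwq
          rw [nhds_prod_eq]
          filter_upwards [g2.prod_inr (𝓝 q), (g4.eventually g3).prod_inr (𝓝 q),
            g5.prod_inl (𝓝 t)] with p hp hp' hpb h1 h2 h3
          have h4 := nb_arg_eq hn (mem_sphere_zero_iff_norm.2 h1)
          have h5 : arg (p.2 / t) ≠ 0 := by
            intro h0
            rw [h0, nb_E_zero, mul_one] at h4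
            rw [← h4] at h2
            exact h2 ht
          have h6 : s * arg (p.2 / t) ≠ 0 := mul_ne_zero hs0 h5
          rcases lt_or_gt_of_ne h6 with h7 | h7
          · exfalso
            have h8 := hp' (mem_Ioi.2 (by linarith))
            have h9 : -s * (-s * arg (p.2 / t)) = arg (p.2 / t) := by
              linear_combination (arg (p.2 / t)) * hs
            rw [h9, h4, h3] at h8
            have h10 : ‖p.1 - q‖ < ‖w - q‖ / 2 := by
              rw [← dist_eq_norm]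
              exact hpb
            linarith
          · have h8 : s * arg (p.2 / t) ≤ d := by
              have h9 : |s * arg (p.2 / t)| = |arg (p.2 / t)| := by rw [abs_mul, hsabs, one_mul]
              rw [abs_of_pos h7] at h9
              rw [h9]
              exact hp.le
            refine Or.inl ⟨s * arg (p.2 / t), ⟨h7.le, h8⟩, ?_⟩
            have h9 : s * (s * arg (p.2 / t)) = arg (p.2 / t) := by
              linear_combination (arg (p.2 / t)) * hs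
            rw [a1' _ ⟨h7, h8⟩, h9, h4, h3]
        · have h2 : q ≠ u z0 := fun h0 =>
            hSn.2 z0 hF htz (by rw [h0]; exact left_mem_segment ℝ _ _)
          have h3 : q ≠ v z0 := fun h0 =>
            hSn.2 z0 hF htz (by rw [h0]; exact right_mem_segment ℝ _ _)
          obtain ⟨ρ, hρ, h4⟩ := near_FK hP hF h2 h3
          exact far hρ h4
      · have h1 : phi z0 ≠ q := hSn.1 z0 hz0' hF
        obtain ⟨ρ, hρ, h4⟩ := near_regK hP hz0' hF h1
        exact far hρ h4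
    have g2 : ∀ᶠ l in 𝓝 q, ∀ t' ∈ F, t' ≠ t → l ∉ segment ℝ (u t') (v t') := by
      rw [Finset.eventually_all]
      intro t' ht'
      by_cases hne : t' = t
      · exact Filter.Eventually.of_forall fun _ h0 => absurd hne h0
      · filter_upwards [(closed_seg (u t') (v t')).isOpen_compl.mem_nhds
          (hSn.2 t' ht' hne)] with l hl _
        exact hl
    have g3 : ∀ᶠ l in 𝓝 q, l ∈ ball q (d * ‖w - q‖) :=
      Metric.ball_mem_nhds q (mul_pos hd hDn)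
    filter_upwards [g1, g2, g3] with l hl1 hl2 hl3
    constructor
    · rintro (⟨z, ⟨hz, hzF⟩, hzl⟩ | hl)
      · exact hl1 z hz (mem_sphere_zero_iff_norm.1 hz) (fun h0 => hzF (Finset.mem_coe.2 h0)) hzl
      · obtain ⟨t', ht', hl'⟩ := mem_iUnion₂.1 hl
        by_cases hne : t' = t
        · rw [hne, hsegeq] at hl'
          obtain ⟨y, hy0, hy1, hy⟩ := mem_seg.1 hl'
          have h1 : l = k2 y := by rw [hy, hk2]
          have h2 : y * ‖w - q‖ < d * ‖w - q‖ := by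
            rw [← n2 y hy0, ← h1, ← dist_eq_norm]
            exact hl3
          have h3 : y < d := lt_of_mul_lt_mul_right h2 hDn.le
          exact Or.inr ⟨y, ⟨hy0, h3.le⟩, h1.symm⟩
        · exact absurd hl' (hl2 t' ht' hne)
    · rintro (⟨x, hx, rfl⟩ | ⟨x, hx, rfl⟩)
      · rcases hx.1.eq_or_lt with hx0 | hx0
        · rw [← hx0, z1]
          exact hsegK hqseg
        · rw [a1' x ⟨hx0, hx.2⟩]
          exact Or.inl ⟨_, ⟨nb_E_mem hn _, fun h0 => hF1 x ⟨hx0, hx.2⟩ (Finset.mem_coe.1 h0)⟩, rfl⟩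
      · exact hsegK (hk2seg x hx)
  obtain ⟨A, B, hA, hB, hAK, hBK, hcov⟩ := two_radial hd (c1.mono i1) c2.continuousOn z1 z2
    (m1.mono i1) (m2.mono i2) hdis hK
  have hb := memLp_cv hP
  have hix : ∀ l ∉ Gam phi F u v, ∃ n : ℤ, Ix phi l n := fun l hl => by
    obtain ⟨n, hn'⟩ := TBirK.exists_wj hP hl
    exact ⟨n, TBirK.wj_ix hP hn'⟩
  refine sides_of_key hb hix hA hB hAK hBK hcov fun N hN => ?_
  obtain ⟨N', hN', hN'o, hqN'⟩ := _root_.mem_nhds_iff.1 hN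
  have h1 : Tendsto k2 (𝓝[>] 0) (𝓝 q) := by
    have h2 := c2.tendsto 0
    rw [z2] at h2
    exact h2.mono_left nhdsWithin_le_nhds
  have h4 : ∀ᶠ x : ℝ in 𝓝[>] 0, k2 x ∈ N' := h1.eventually (hN'o.mem_nhds hqN')
  have h4' : ∀ᶠ x : ℝ in 𝓝[>] 0, k2 x ∈ ball q ε := h1.eventually (Metric.ball_mem_nhds q hε)
  have h5 : ∀ᶠ x : ℝ in 𝓝[>] 0, x ∈ Ioo 0 1 := Ioo_mem_nhdsGT one_pos
  obtain ⟨y, hy1, hy1', hy2⟩ := (h4.and (h4'.and h5)).exists
  obtain ⟨τ, hτ0, hτ1, hτ⟩ : ∃ τ : ℝ, 0 < τ ∧ τ < 1 ∧ k2 y = u t + τ * (v t - u t) := by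
    rcases hcase with ⟨rfl, rfl⟩ | ⟨rfl, rfl⟩
    · exact ⟨y, hy2.1, hy2.2, hk2 y⟩
    · refine ⟨1 - y, by linarith [hy2.2], by linarith [hy2.1], ?_⟩
      rw [hk2]
      push_cast
      ring
  have h6 : N ∈ 𝓝 (u t + τ * (v t - u t)) := by
    rw [← hτ]
    exact Filter.mem_of_superset (hN'o.mem_nhds hy1) hN'
  refine ss_key h ht huv hτ0 hτ1 ?_ h6
  rw [← hτ]
  refine hSne _ hy1' ?_
  rw [hτ]
  exact mem_seg.2 ⟨τ, hτ0.le, hτ1.le, rfl⟩


private theorem ss_left (h : RegC phi F u v) (ht : t ∈ F) (hne : u t ≠ v t)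
    (hn : Sn phi F u v t (u t)) :
    ∃ m : ℤ, Sides phi (Gam phi F u v) (u t) m := by
  refine ss_end h ht (s := -1) hn (Or.inr rfl) ?_ hne (Or.inl ⟨rfl, rfl⟩) ?_
  · simpa only [neg_one_mul] using h.toPwC.cv.lim_left t ht
  · simpa only [neg_neg, one_mul] using h.toPwC.cv.lim_right t ht

private theorem ss_right (h : RegC phi F u v) (ht : t ∈ F) (hne : u t ≠ v t)
    (hn : Sn phi F u v t (v t)) :
    ∃ m : ℤ, Sides phi (Gam phi F u v) (v t) m := by
  refine ss_end h ht (s := 1) hn (Or.inl rfl) ?_ hne.symm (Or.inr ⟨rfl, rfl⟩) ?_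
  · simpa only [one_mul] using h.toPwC.cv.lim_right t ht
  · simpa only [neg_one_mul] using h.toPwC.cv.lim_left t ht


private theorem ss_corner (h : RegC phi F u v)
    (ht : t ∈ F) (he : u t = v t) (hSn : Sn phi F u v t (u t)) : ∃ m : ℤ, Sides phi (Gam phi F u v) (u t) m := by
  classical
  have hpi := Real.pi_gt_three
  have hP : Cv phi F u v := h.toPwC.cv
  have hn : ‖t‖ = 1 := hP.circ t ht
  have ht0 : t ≠ 0 := nb_ne hn
  have hqseg : u t ∈ segment ℝ (u t) (v t) := left_mem_segment ℝ _ _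
  obtain ⟨k1, d1, hd1, c1, z1, m1, a1⟩ := arcK hP hn (Or.inr rfl) (h.left t ht).1
  obtain ⟨k2, d2, hd2, c2, z2, m2, a2⟩ := arcK hP hn (Or.inl rfl) (h.right t ht).1
  rw [← he] at z2 m2
  have htend : Tendsto (fun x : ℝ => t * E x) (𝓝 0) (𝓝 t) := by
    have h1 : Continuous fun x : ℝ => t * E x := continuous_const.mul nb_E_cont
    have := h1.tendsto 0
    rwa [nb_E_zero, mul_one] at this
  -- small arguments
  obtain ⟨r, hr, hr1, hrF'⟩ : ∃ r : ℝ, 0 < r ∧ r ≤ 1 ∧ ∀ x : ℝ, |x| ≤ r → x ≠ 0 →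
      (t * E x ∉ F ∧ ∀ z' : ℂ, ‖z'‖ = 1 → z' ∉ F → phi z' = phi (t * E x) → z' = t * E x) ∧
      ∀ᶠ z in 𝓝 (t * E x), ‖z‖ = 1 → z ∉ F →
        ∀ z' : ℂ, ‖z'‖ = 1 → z' ∉ F → phi z' = phi z → z' = z := by
    have g1 : ∀ᶠ z in 𝓝 t, z ∉ (F : Set ℂ) \ {t} := by
      have : ((F : Set ℂ) \ {t})ᶜ ∈ 𝓝 t :=
        (F.finite_toSet.subset sdiff_subset).isClosed.isOpen_compl.mem_nhds fun h3 => h3.2 rfl
      exact this
    have g2 := htend.eventually (g1.and (ss_simple h ht).eventually_nhds)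
    rw [Metric.eventually_nhds_iff] at g2
    obtain ⟨ε, hε, g3⟩ := g2
    refine ⟨min (ε / 2) 1, by positivity, min_le_right _ _, fun x hx hx0 => ?_⟩
    have hx1 : |x| ≤ ε / 2 := hx.trans (min_le_left _ _)
    have hx2 : |x| ≤ 1 := hx.trans (min_le_right _ _)
    obtain ⟨g4, g5⟩ := g3 (y := x) (by rw [Real.dist_eq, sub_zero]; linarith)
    have g6 : t * E x ≠ t := tE_ne hn hx0 (by linarith)
    have g7 : t * E x ∉ F := fun h0 => g4 ⟨Finset.mem_coe.2 h0, g6⟩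
    exact ⟨⟨g7, g5.self_of_nhds (mem_sphere_zero_iff_norm.1 (nb_E_mem hn x)) g7⟩, g5⟩
  have hrF : ∀ x : ℝ, |x| ≤ r → x ≠ 0 → t * E x ∉ F ∧
      ∀ z' : ℂ, ‖z'‖ = 1 → z' ∉ F → phi z' = phi (t * E x) → z' = t * E x :=
    fun x hx hx0 => (hrF' x hx hx0).1
  obtain ⟨d, hd, hdd1, hdd2, hdr⟩ : ∃ d : ℝ, 0 < d ∧ d ≤ d1 ∧ d ≤ d2 ∧ d ≤ r := by
    refine ⟨min d1 (min d2 r), by positivity, min_le_left _ _, ?_, ?_⟩
    · exact (min_le_right _ _).trans (min_le_left _ _)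
    · exact (min_le_right _ _).trans (min_le_right _ _)
  have i1 : Icc 0 d ⊆ Icc 0 d1 := Icc_subset_Icc_right hdd1
  have i2 : Icc 0 d ⊆ Icc 0 d2 := Icc_subset_Icc_right hdd2
  have a1' : ∀ x ∈ Ioc 0 d, k1 x = phi (t * E (-x)) := by
    intro x hx
    rw [a1 x ⟨hx.1, hx.2.trans hdd1⟩, neg_one_mul]
  have a2' : ∀ x ∈ Ioc 0 d, k2 x = phi (t * E x) := by
    intro x hx
    rw [a2 x ⟨hx.1, hx.2.trans hdd2⟩, one_mul]
  have hmem : ∀ x : ℝ, |x| ≤ r → x ≠ 0 → phi (t * E x) ∈ Gam phi F u v := fun x hx hx0 =>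
    Or.inl ⟨_, ⟨nb_E_mem hn x, (hrF x hx hx0).1⟩, rfl⟩
  have hqK : u t ∈ Gam phi F u v := Or.inr (mem_biUnion (Finset.mem_coe.2 ht) hqseg)
  have hdis : ∀ x ∈ Icc 0 d, ∀ y ∈ Icc 0 d, k1 x = k2 y → x = 0 ∧ y = 0 := by
    intro x hx y hy hxy
    have h01 : (0 : ℝ) ∈ Icc 0 d1 := ⟨le_rfl, hd1.le⟩
    have h02 : (0 : ℝ) ∈ Icc 0 d2 := ⟨le_rfl, hd2.le⟩
    rcases hx.1.eq_or_lt with hx0 | hx0
    · refine ⟨hx0.symm, ?_⟩
      apply m2.injOn (i2 hy) h02
      simp only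
      rw [← hxy, ← hx0, z1, z2]
    · rcases hy.1.eq_or_lt with hy0 | hy0
      · exfalso
        have h1 : x = 0 := by
          apply m1.injOn (i1 hx) h01
          simp only
          rw [hxy, ← hy0, z1, z2]
        exact hx0.ne' h1
      · exfalso
        rw [a1' x ⟨hx0, hx.2⟩, a2' y ⟨hy0, hy.2⟩] at hxy
        have h1 := hrF (-x) (by rw [abs_neg, abs_of_pos hx0]; exact hx.2.trans hdr) (by linarith)
        have h2 := hrF y (by rw [abs_of_pos hy0]; exact hy.2.trans hdr) hy0.ne'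
        have h3 := h1.2 _ (mem_sphere_zero_iff_norm.1 (nb_E_mem hn y)) h2.1 hxy.symm
        exact E_inj hn (by linarith) (by linarith [hx.2, hy.2]) h3
  have hoth : ∀ᶠ l in 𝓝 (u t), ∀ t' ∈ F, t' ≠ t → l ∉ segment ℝ (u t') (v t') := by
    rw [Finset.eventually_all]
    intro t' ht'
    by_cases hne : t' = t
    · exact Filter.Eventually.of_forall fun _ h0 => absurd hne h0
    · filter_upwards [(closed_seg (u t') (v t')).isOpen_compl.mem_nhds
        (hSn.2 t' ht' hne)] with l hl _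
      exact hl
  -- the curve near `q`
  have hK : ∀ᶠ l in 𝓝 (u t), l ∈ Gam phi F u v ↔ l ∈ k1 '' Icc 0 d ∪ k2 '' Icc 0 d := by
    have g1 : ∀ᶠ l in 𝓝 (u t), ∀ z ∈ sphere (0 : ℂ) 1, ‖z‖ = 1 → z ∉ F → phi z = l →
        l ∈ k1 '' Icc 0 d ∪ k2 '' Icc 0 d := by
      refine (isCompact_sphere (0 : ℂ) 1).eventually_forall_of_forall_eventually
        (P := fun l z => ‖z‖ = 1 → z ∉ F → phi z = l → l ∈ k1 '' Icc 0 d ∪ k2 '' Icc 0 d)
        fun z0 hz0 => ?_
      have hz0' : ‖z0‖ = 1 := mem_sphere_zero_iff_norm.1 hz0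
      by_cases hF : z0 ∈ F
      · by_cases htz : z0 = t
        · subst htz
          have g2 : ∀ᶠ z in 𝓝 z0, |arg (z / z0)| < d := by
            have := (nb_arg hn).abs
            rw [abs_zero] at this
            exact this.eventually_lt_const hd
          rw [nhds_prod_eq]
          filter_upwards [g2.prod_inr (𝓝 (u z0))] with p hp h1 h2 h3
          have h4 := nb_arg_eq hn (mem_sphere_zero_iff_norm.2 h1)
          have h5 : arg (p.2 / z0) ≠ 0 := by
            intro h0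
            rw [h0, nb_E_zero, mul_one] at h4
            rw [← h4] at h2
            exact h2 hF
          rcases lt_or_gt_of_ne h5 with h6 | h6
          · rw [abs_of_neg h6] at hp
            refine Or.inl ⟨-arg (p.2 / z0), ⟨by linarith, hp.le⟩, ?_⟩
            rw [a1' _ ⟨by linarith, hp.le⟩, neg_neg, h4, h3]
          · rw [abs_of_pos h6] at hp
            refine Or.inr ⟨arg (p.2 / z0), ⟨h6.le, hp.le⟩, ?_⟩
            rw [a2' _ ⟨h6, hp.le⟩, h4, h3]
        · have h2 : u t ≠ u z0 := fun h0 =>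
            hSn.2 z0 hF htz (by rw [h0]; exact left_mem_segment ℝ _ _)
          have h3 : u t ≠ v z0 := fun h0 =>
            hSn.2 z0 hF htz (by rw [h0]; exact right_mem_segment ℝ _ _)
          obtain ⟨ρ, hρ, h4⟩ := near_FK hP hF h2 h3
          exact far hρ h4
      · have h1 : phi z0 ≠ u t := hSn.1 z0 hz0' hF
        obtain ⟨ρ, hρ, h4⟩ := near_regK hP hz0' hF h1
        exact far hρ h4
    filter_upwards [g1, hoth] with l hl1 hl2
    constructor
    · rintro (⟨z, ⟨hz, hzF⟩, hzl⟩ | hl)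
      · exact hl1 z hz (mem_sphere_zero_iff_norm.1 hz) (fun h0 => hzF (Finset.mem_coe.2 h0)) hzl
      · obtain ⟨t', ht', hl'⟩ := mem_iUnion₂.1 hl
        by_cases hne : t' = t
        · subst hne
          rw [← he, segment_same, mem_singleton_iff] at hl'
          rw [hl']
          exact Or.inl ⟨0, ⟨le_rfl, hd.le⟩, z1⟩
        · exact absurd hl' (hl2 t' ht' hne)
    · rintro (⟨x, hx, rfl⟩ | ⟨x, hx, rfl⟩)
      · rcases hx.1.eq_or_lt with hx0 | hx0
        · rw [← hx0, z1]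
          exact hqK
        · rw [a1' x ⟨hx0, hx.2⟩]
          exact hmem _ (by rw [abs_neg, abs_of_pos hx0]; exact hx.2.trans hdr) (by linarith)
      · rcases hx.1.eq_or_lt with hx0 | hx0
        · rw [← hx0, z2]
          exact hqK
        · rw [a2' x ⟨hx0, hx.2⟩]
          exact hmem _ (by rw [abs_of_pos hx0]; exact hx.2.trans hdr) hx0.ne'
  -- the indices
  have hb := memLp_cv hP
  have hix : ∀ l ∉ Gam phi F u v, ∃ n : ℤ, Ix phi l n := fun l hl => by
    obtain ⟨n, hn'⟩ := TBirK.exists_wj hP hl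
    exact ⟨n, TBirK.wj_ix hP hn'⟩
  have hkey : ∀ N ∈ 𝓝 (u t), ∃ (m : ℤ) (l1 l2 : ℂ), l1 ∈ N ∧ l2 ∈ N ∧ l1 ∉ Gam phi F u v ∧
      l2 ∉ Gam phi F u v ∧ Ix phi l1 (m + 1) ∧ Ix phi l2 m := by
    intro N hN
    have h1 : Tendsto k2 (𝓝[>] 0) (𝓝 (u t)) := by
      have h2 := (c2.mono i2) 0 ⟨le_rfl, hd.le⟩
      have h3 : Tendsto k2 (𝓝[Icc 0 d] 0) (𝓝 (k2 0)) := h2
      rw [z2] at h3
      refine h3.mono_left ?_
      rw [← nhdsWithin_Ioc_eq_nhdsGT hd]
      exact nhdsWithin_mono _ Ioc_subset_Icc_self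
    obtain ⟨N', hN', hN'o, hqN'⟩ := _root_.mem_nhds_iff.1 hN
    have h4 : ∀ᶠ x : ℝ in 𝓝[>] 0, k2 x ∈ N' := h1.eventually (hN'o.mem_nhds hqN')
    have h4' := h1.eventually hoth
    have h5 : ∀ᶠ x : ℝ in 𝓝[>] 0, x ∈ Ioc 0 d := by
      exact Ioc_mem_nhdsGT hd
    obtain ⟨x, hx1, hx1', hx2⟩ := (h4.and (h4'.and h5)).exists
    have hxr : |x| ≤ r := by rw [abs_of_pos hx2.1]; exact hx2.2.trans hdr
    obtain ⟨w, hw⟩ : ∃ w, w = t * E x := ⟨_, rfl⟩
    have hwm : w ∈ sphere (0 : ℂ) 1 := by rw [hw]; exact nb_E_mem hn x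
    obtain ⟨hwF, hwu⟩ := hrF x hxr hx2.1.ne'
    rw [← hw] at hwF hwu
    rw [a2' x hx2, ← hw] at hx1 hx1'
    have hws : ∀ t' ∈ F, phi w ∉ segment ℝ (u t') (v t') := by
      intro t' ht'
      by_cases hne : t' = t
      · rw [hne, ← he, segment_same, mem_singleton_iff]
        exact hSn.1 w (mem_sphere_zero_iff_norm.1 hwm) hwF
      · exact hx1' t' ht' hne
    have hwn := (hrF' x hxr hx2.1.ne').2
    rw [← hw] at hwn
    obtain ⟨m, A', B', -, -, hA', hB', hcA, hcB, -⟩ :=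
      sides_reg h.toPwC (mem_sphere_zero_iff_norm.1 hwm) hwF hws hwu hwn
    have h6 : ∀ᶠ l in 𝓝 (phi w), ∀ t' ∈ F, l ∉ segment ℝ (u t') (v t') := by
      rw [Finset.eventually_all]
      intro t' ht'
      have h2 : IsClosed (segment ℝ (u t') (v t')) := by
        rw [← convexHull_pair]
        exact ((Set.toFinite {u t', v t'}).isCompact_convexHull ℝ).isClosed
      exact h2.isOpen_compl.mem_nhds (hws t' ht')
    have h7 : N' ∩ {l | ∀ t' ∈ F, l ∉ segment ℝ (u t') (v t')} ∈ 𝓝 (phi w) :=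
      inter_mem (hN'o.mem_nhds hx1) h6
    have h8 : ∀ l n, Ix phi l n → (∀ t' ∈ F, l ∉ segment ℝ (u t') (v t')) →
        l ∉ Gam phi F u v := by
      rintro l n hl1 hl2 (⟨z, ⟨hz, hzF⟩, hzl⟩ | hl)
      · exact ne_valK hP hl1 (mem_sphere_zero_iff_norm.1 hz)
          (fun h0 => hzF (Finset.mem_coe.2 h0)) hzl
      · obtain ⟨t', ht', hl'⟩ := mem_iUnion₂.1 hl
        exact hl2 t' ht' hl'
    obtain ⟨l1, ⟨hl1, hl1s⟩, hl1'⟩ := mem_closure_iff_nhds.1 hcA _ h7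
    obtain ⟨l2, ⟨hl2, hl2s⟩, hl2'⟩ := mem_closure_iff_nhds.1 hcB _ h7
    exact ⟨m, l1, l2, hN' hl1, hN' hl2, h8 l1 _ (hA' l1 hl1') hl1s, h8 l2 _ (hB' l2 hl2') hl2s,
      hA' l1 hl1', hB' l2 hl2'⟩
  exact sides_two hb hix hd (c1.mono i1) (c2.mono i2) z1 z2 (m1.mono i1) (m2.mono i2) hdis hK hkey

end Ss

theorem seg_sides {phi : ℂ → ℂ} {F : Finset ℂ} {u v : ℂ → ℂ} {t q : ℂ} (h : RegC phi F u v)
    (ht : t ∈ F) (hq : q ∈ segment ℝ (u t) (v t)) (hn : Sn phi F u v t q) :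
    ∃ m : ℤ, Sides phi (Gam phi F u v) q m := by
  by_cases he : u t = v t
  · rw [he, segment_same] at hq
    have h0 : q = u t := by rw [mem_singleton_iff.1 hq, he]
    subst h0
    exact ss_corner h ht he hn
  · by_cases h1 : q = u t
    · subst h1
      exact ss_left h ht he hn
    · by_cases h2 : q = v t
      · subst h2
        exact ss_right h ht he hn
      · exact ss_open h ht hq hn h1 h2

end Pool.Agent.TBirX
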