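import Pool.Agent.TBirX.Def
import Pool.Agent.TBirN.Tl

/-!
# Limits of traces, with constants

`tr_limC`, `diag_limC`: as `tr_lim`, `diag_lim` in TBirN/Tl.lean with the bounds `C` instead of `1` (copy the private lemmas). `rg_of_ix`: the range of `T_phi - l` has codimension `n` (`exists_trJ` or the factorisation in TBirJ/Trj.lean), the functionals `a i` are linearly independent because the matrix
`a i (v j)` is invertible, and vanish on the range.
-/

set_option autoImplicit false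

open MeasureTheory Complex Set Filter Topology Metric AddCircle
open scoped ComplexConjugate InnerProductSpace ENNReal

namespace Pool.Agent.TBirX

open Pool.Agent.TBir Pool.Agent.TBirG Pool.Agent.TBirC Pool.Agent.TBirJ Pool.Agent.TBirK
open Pool.Agent.TBirN
open Pool.Agent.TBirP (E qT)

section

variable {H : Type*} [NormedAddCommGroup H] [NormedSpace ℂ H] {n : ℕ}

private theorem tlc_rep {L : Fin n → (H →L[ℂ] ℂ)} {e0 : Fin n → H} {A : H →L[ℂ] H}
    (hA : ∀ f, (∀ i, L i f = 0) → ∀ i, L i (A f) = 0) {G' : Matrix (Fin n) (Fin n) ℂ}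
    (hGG : (Matrix.of fun i j => L i (e0 j)) * G' = 1) (i : Fin n) (f : H) :
    L i (A f) = ∑ m, (∑ j, L i (A (e0 j)) * G' j m) * L m f := by
  have h1 : ∀ i', L i' (f - ∑ j, (∑ m, G' j m * L m f) • e0 j) = 0 := by
    intro i'
    rw [map_sub, map_sum]
    simp only [map_smul, smul_eq_mul]
    have h2 : ∑ j, (∑ m, G' j m * L m f) * L i' (e0 j) =
        ∑ m, ((Matrix.of fun i j => L i (e0 j)) * G') i' m * L m f := by
      simp only [Matrix.mul_apply, Finset.sum_mul, Matrix.of_apply]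
      rw [Finset.sum_comm]
      refine Finset.sum_congr rfl fun m _ => Finset.sum_congr rfl fun j _ => ?_
      ring
    rw [h2, hGG]
    simp [Matrix.one_apply]
  have h2 := hA _ h1 i
  rw [map_sub, map_sub, map_sum, map_sum, sub_eq_zero] at h2
  rw [h2]
  simp only [map_smul, smul_eq_mul, Finset.sum_mul]
  rw [Finset.sum_comm]
  refine Finset.sum_congr rfl fun m _ => Finset.sum_congr rfl fun j _ => ?_
  ring

private theorem tlc_core {C : ℝ} {ι : Type} {f : Filter ι} {A : ι → (H →L[ℂ] H)} {B : H →L[ℂ] H}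
    {L : ι → Fin n → (H →L[ℂ] ℂ)} {e0 : ι → Fin n → H} (hAB : Tendsto A f (𝓝 B))
    (hL : ∀ᶠ k in f, ∀ i, ‖L k i‖ ≤ C) (he : ∀ᶠ k in f, ∀ i, ‖e0 k i‖ ≤ C)
    (hG : ∀ i j, Tendsto (fun k => L k i (e0 k j)) f (𝓝 (if i = j then 1 else 0))) :
    ∃ G' : ι → Matrix (Fin n) (Fin n) ℂ,
      (∀ᶠ k in f, (Matrix.of fun i j => L k i (e0 k j)) * G' k = 1) ∧
      ∀ i m, Tendsto (fun k => (∑ j, L k i (A k (e0 k j)) * G' k j m) - L k i (B (e0 k m))) f
        (𝓝 0) := by
  let G : ι → Matrix (Fin n) (Fin n) ℂ := fun k => Matrix.of fun i j => L k i (e0 k j)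
  have hG1 : Tendsto G f (𝓝 1) := by
    refine tendsto_pi_nhds.2 fun i => tendsto_pi_nhds.2 fun j => ?_
    have := hG i j
    rw [← Matrix.one_apply] at this
    exact this
  have hdet : Tendsto (fun k => (G k).det) f (𝓝 1) := by
    have h1 : Continuous (fun M : Matrix (Fin n) (Fin n) ℂ => M.det) := continuous_id.matrix_det
    have h2 := (h1.tendsto 1).comp hG1
    rw [Matrix.det_one] at h2
    exact h2
  have hadj : Tendsto (fun k => (G k).adjugate) f (𝓝 1) := by
    have h1 : Continuous (fun M : Matrix (Fin n) (Fin n) ℂ => M.adjugate) :=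
      continuous_id.matrix_adjugate
    have h2 := (h1.tendsto 1).comp hG1
    rw [Matrix.adjugate_one] at h2
    exact h2
  have hinv : Tendsto (fun k => (G k).det⁻¹ • (G k).adjugate) f (𝓝 1) := by
    have h1 := (hdet.inv₀ one_ne_zero).smul hadj
    rw [inv_one, one_smul] at h1
    exact h1
  refine ⟨fun k => (G k).det⁻¹ • (G k).adjugate, ?_, ?_⟩
  · filter_upwards [hdet.eventually_ne one_ne_zero] with k hk
    show G k * ((G k).det⁻¹ • (G k).adjugate) = 1
    rw [Matrix.mul_smul, Matrix.mul_adjugate, smul_smul, inv_mul_cancel₀ hk, one_smul]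
  · intro i m
    have hj : ∀ j, Tendsto (fun k => ((G k).det⁻¹ • (G k).adjugate) j m -
        (1 : Matrix (Fin n) (Fin n) ℂ) j m) f (𝓝 0) := by
      intro j
      have h1 := ((tendsto_pi_nhds.1 ((tendsto_pi_nhds.1 hinv) j)) m).sub_const
        ((1 : Matrix (Fin n) (Fin n) ℂ) j m)
      rw [sub_self] at h1
      exact h1
    have hb : ∀ᶠ k in f, ‖A k‖ ≤ ‖B‖ + 1 := by
      have h1 := hAB.norm
      exact h1.eventually_le_const (by linarith) 
    have hd : Tendsto (fun k => ‖A k - B‖) f (𝓝 0) := by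
      have h1 := (hAB.sub_const B).norm
      rw [sub_self, norm_zero] at h1
      exact h1
    have hS : Tendsto (fun k => (C * ((‖B‖ + 1) * C)) *
        (∑ j, ‖((G k).det⁻¹ • (G k).adjugate) j m -
        (1 : Matrix (Fin n) (Fin n) ℂ) j m‖) + C * (‖A k - B‖ * C)) f (𝓝 0) := by
      have h1 : Tendsto (fun k => ∑ j, ‖((G k).det⁻¹ • (G k).adjugate) j m -
        (1 : Matrix (Fin n) (Fin n) ℂ) j m‖) f (𝓝 (∑ j : Fin n, (0 : ℝ))) := by
        refine tendsto_finsetSum _ fun j _ => ?_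
        have := (hj j).norm
        rw [norm_zero] at this
        exact this
      have h2 := (h1.const_mul (C * ((‖B‖ + 1) * C))).add ((hd.mul_const C).const_mul C)
      simpa using h2
    refine squeeze_zero_norm' ?_ hS
    filter_upwards [hL, he, hb] with k h1 h2 h3
    have e1 : (∑ j, L k i (A k (e0 k j)) * ((G k).det⁻¹ • (G k).adjugate) j m) - L k i (B (e0 k m))
        = (∑ j, L k i (A k (e0 k j)) * (((G k).det⁻¹ • (G k).adjugate) j m -
          (1 : Matrix (Fin n) (Fin n) ℂ) j m)) + L k i ((A k - B) (e0 k m)) := by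
      simp only [mul_sub, Finset.sum_sub_distrib]
      have e2 : ∑ j, L k i (A k (e0 k j)) * (1 : Matrix (Fin n) (Fin n) ℂ) j m =
          L k i (A k (e0 k m)) := by
        simp [Matrix.one_apply]
      rw [e2, sub_apply, map_sub]
      ring
    rw [e1]
    have hC0 : 0 ≤ C := (norm_nonneg _).trans (h1 i)
    have hLn : ∀ x : H, ‖L k i x‖ ≤ C * ‖x‖ := fun x => by
      refine ((L k i).le_opNorm x).trans ?_
      exact mul_le_mul_of_nonneg_right (h1 i) (norm_nonneg _)
    have hAn : ∀ (X : H →L[ℂ] H) j, ‖X (e0 k j)‖ ≤ ‖X‖ * C := fun X j => by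
      refine (X.le_opNorm _).trans ?_
      exact mul_le_mul_of_nonneg_left (h2 j) (norm_nonneg _)
    have hLA : ∀ (X : H →L[ℂ] H) j, ‖L k i (X (e0 k j))‖ ≤ C * (‖X‖ * C) := fun X j =>
      (hLn _).trans (mul_le_mul_of_nonneg_left (hAn X j) hC0)
    refine (norm_add_le _ _).trans (add_le_add ?_ (hLA _ _))
    refine (norm_sum_le _ _).trans ?_
    rw [Finset.mul_sum]
    refine Finset.sum_le_sum fun j _ => ?_
    rw [norm_mul]
    exact mul_le_mul_of_nonneg_right ((hLA _ _).trans (mul_le_mul_of_nonneg_left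
      (mul_le_mul_of_nonneg_right h3 hC0) hC0)) (norm_nonneg _)

end

variable {phi : ℂ → ℂ} {P : Op} {ι : Type} {f : Filter ι} {n : ℕ} {l : ι → ℂ} {U V : ι → Op}
  {U0 V0 : Op} {L : ι → Fin n → (Hardy →L[ℂ] ℂ)} {e0 : ι → Fin n → Hardy} {C : ℝ}

private theorem tlc_rg (hP : P * Tp phi = Tp phi * P) {l0 : ℂ} {f : Hardy} (h : RgJ phi f l0) :
    RgJ phi (P f) l0 := by
  obtain ⟨g, rfl⟩ := h
  refine ⟨P g, ?_⟩
  have h1 : P (Tp phi g) = Tp phi (P g) := congrArg (fun A : Op => A g) hP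
  show Tp phi (P g) - l0 • P g = P (Tp phi g - l0 • g)
  rw [map_sub, map_smul, h1]

private theorem tlc_inv (hP : P * Tp phi = Tp phi * P) {l0 : ℂ} {U1 V1 : Op}
    {L1 : Fin n → (Hardy →L[ℂ] ℂ)} (hVU : V1 * U1 = 1)
    (hr : ∀ g, RgJ phi g l0 ↔ ∀ i, L1 i (V1 g) = 0) (f : Hardy) (hf : ∀ i, L1 i f = 0) (i : Fin n) :
    L1 i ((V1 * P * U1) f) = 0 := by
  have e1 : ∀ x : Hardy, V1 (U1 x) = x := fun x => congrArg (fun A : Op => A x) hVU
  have h1 : RgJ phi (U1 f) l0 := by
    rw [hr]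
    intro j
    rw [e1]
    exact hf j
  exact (hr _).1 (tlc_rg hP h1) i

theorem tr_limC (hP : P * Tp phi = Tp phi * P) (hU : Tendsto U f (𝓝 U0)) (hV : Tendsto V f (𝓝 V0))
    (hUV : ∀ᶠ k in f, U k * V k = 1 ∧ V k * U k = 1) (hL : ∀ᶠ k in f, ∀ i, ‖L k i‖ ≤ C)
    (he : ∀ᶠ k in f, ∀ i, ‖e0 k i‖ ≤ C)
    (hG : ∀ i j, Tendsto (fun k => L k i (e0 k j)) f (𝓝 (if i = j then 1 else 0)))
    (hr : ∀ᶠ k in f, ∀ g, RgJ phi g (l k) ↔ ∀ i, L k i (V k g) = 0) {tau : ℂ}
    (ht : ∀ᶠ k in f, TrJ phi P (l k) n tau) :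
    Tendsto (fun k => ∑ i, L k i ((V0 * P * U0) (e0 k i))) f (𝓝 tau) := by
  have hA : Tendsto (fun k => V k * P * U k) f (𝓝 (V0 * P * U0)) := (hV.mul_const P).mul hU
  obtain ⟨G', hG1, hG2⟩ := tlc_core hA hL he hG
  have h0 : Tendsto (fun k => (∑ i, L k i ((V0 * P * U0) (e0 k i))) - tau) f (𝓝 0) := by
    have h1 : Tendsto (fun k => -∑ i, ((∑ j, L k i ((V k * P * U k) (e0 k j)) * G' k j i) -
        L k i ((V0 * P * U0) (e0 k i)))) f (𝓝 (-∑ i : Fin n, (0 : ℂ))) :=
      (tendsto_finsetSum _ fun i _ => hG2 i i).neg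
    rw [Finset.sum_const_zero, neg_zero] at h1
    refine h1.congr' ?_
    filter_upwards [hUV, hr, ht, hG1] with k h2 h3 h4 h5
    have e1 : ∀ x : Hardy, V k (U k x) = x := fun x => congrArg (fun A : Op => A x) h2.2
    have h6 : TrJ phi P (l k) n
        (∑ i, ∑ j, L k i ((V k * P * U k) (e0 k j)) * G' k j i) := by
      have hd : ∀ i j, L k i (∑ m, G' k m j • e0 k m) = if i = j then 1 else 0 := by
        intro i j
        rw [map_sum]
        simp only [map_smul, smul_eq_mul]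
        rw [← Matrix.one_apply, ← h5, Matrix.mul_apply]
        refine Finset.sum_congr rfl fun m _ => ?_
        rw [Matrix.of_apply, mul_comm]
      refine ⟨fun i => (L k i).comp (V k), fun i => U k (∑ m, G' k m i • e0 k m), ?_, h3, ?_⟩
      · intro i j
        show L k i (V k (U k (∑ m, G' k m j • e0 k m))) = _
        rw [e1]
        exact hd i j
      · refine Finset.sum_congr rfl fun i _ => ?_
        show _ = L k i ((V k * P * U k) (∑ m, G' k m i • e0 k m))
        rw [map_sum, map_sum]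
        refine Finset.sum_congr rfl fun j _ => ?_
        rw [map_smul, map_smul, smul_eq_mul, mul_comm]
    have h7 := (TrJ.unique hP h4 h6).2
    rw [h7, Finset.sum_sub_distrib]
    ring
  have h1 := h0.add_const tau
  rw [zero_add] at h1
  refine h1.congr fun k => ?_
  ring

theorem diag_limC (hP : P * Tp phi = Tp phi * P) (hU : Tendsto U f (𝓝 U0))
    (hV : Tendsto V f (𝓝 V0)) (hUV : ∀ᶠ k in f, U k * V k = 1 ∧ V k * U k = 1)
    (hL : ∀ᶠ k in f, ∀ i, ‖L k i‖ ≤ C) (he : ∀ᶠ k in f, ∀ i, ‖e0 k i‖ ≤ C)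
    (hG : ∀ i j, Tendsto (fun k => L k i (e0 k j)) f (𝓝 (if i = j then 1 else 0)))
    (hr : ∀ᶠ k in f, ∀ g, RgJ phi g (l k) ↔ ∀ i, L k i (V k g) = 0) (i0 : Fin n)
    (h0 : ∀ j, j ≠ i0 → Tendsto (fun k => L k i0 ((V0 * P * U0) (e0 k j))) f (𝓝 0)) :
    Tendsto (fun k => ‖(L k i0).comp (V0 * P * U0) -
      (L k i0 ((V0 * P * U0) (e0 k i0))) • L k i0‖) f (𝓝 0) := by
  have hA : Tendsto (fun k => V k * P * U k) f (𝓝 (V0 * P * U0)) := (hV.mul_const P).mul hU
  obtain ⟨G', hG1, hG2⟩ := tlc_core hA hL he hG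
  have hm : ∀ m, Tendsto (fun k => (∑ j, L k i0 ((V k * P * U k) (e0 k j)) * G' k j m) -
      if m = i0 then L k i0 ((V0 * P * U0) (e0 k i0)) else 0) f (𝓝 0) := by
    intro m
    by_cases h : m = i0
    · subst h
      simp only [if_true]
      exact hG2 m m
    · simp only [if_neg h, sub_zero]
      have h1 := (hG2 i0 m).add (h0 m h)
      rw [add_zero] at h1
      refine h1.congr fun k => ?_
      ring
  have hS : Tendsto (fun k => C * ‖V0 * P * U0 - V k * P * U k‖ +
      (∑ m, ‖(∑ j, L k i0 ((V k * P * U k) (e0 k j)) * G' k j m) -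
      if m = i0 then L k i0 ((V0 * P * U0) (e0 k i0)) else 0‖) * C) f (𝓝 0) := by
    have h1 := (hA.const_sub (V0 * P * U0)).norm
    rw [sub_self, norm_zero] at h1
    have h2 : Tendsto (fun k => ∑ m, ‖(∑ j, L k i0 ((V k * P * U k) (e0 k j)) * G' k j m) -
        if m = i0 then L k i0 ((V0 * P * U0) (e0 k i0)) else 0‖) f
        (𝓝 (∑ m : Fin n, (0 : ℝ))) := by
      refine tendsto_finsetSum _ fun m _ => ?_
      have := (hm m).norm
      rw [norm_zero] at this
      exact this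
    rw [Finset.sum_const_zero] at h2
    have h3 := (h1.const_mul C).add (h2.mul_const C)
    rw [mul_zero, zero_mul, add_zero] at h3
    exact h3
  refine squeeze_zero' (Eventually.of_forall fun k => norm_nonneg _) ?_ hS
  filter_upwards [hUV, hL, hr, hG1] with k h2 h3 h4 h5
  have h6 := tlc_rep (A := V k * P * U k) (fun x hx i => tlc_inv hP h2.2 h4 x hx i) h5 i0
  have hC0 : 0 ≤ C := (norm_nonneg _).trans (h3 i0)
  have hLn : ∀ i x, ‖L k i x‖ ≤ C * ‖x‖ := fun i x => by
    refine ((L k i).le_opNorm x).trans ?_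
    exact mul_le_mul_of_nonneg_right (h3 i) (norm_nonneg _)
  refine ContinuousLinearMap.opNorm_le_bound _
    (add_nonneg (mul_nonneg hC0 (norm_nonneg _))
      (mul_nonneg (Finset.sum_nonneg fun m _ => norm_nonneg _) hC0)) fun x => ?_
  have e1 : ((L k i0).comp (V0 * P * U0) -
      (L k i0 ((V0 * P * U0) (e0 k i0))) • L k i0) x =
      L k i0 ((V0 * P * U0 - V k * P * U k) x) +
      ∑ m, ((∑ j, L k i0 ((V k * P * U k) (e0 k j)) * G' k j m) -
      if m = i0 then L k i0 ((V0 * P * U0) (e0 k i0)) else 0) * L k m x := by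
    have e2 : ∑ m, (if m = i0 then L k i0 ((V0 * P * U0) (e0 k i0)) else 0) * L k m x =
        L k i0 ((V0 * P * U0) (e0 k i0)) * L k i0 x := by
      simp
    simp only [sub_mul, Finset.sum_sub_distrib]
    rw [← h6 x, e2]
    show L k i0 ((V0 * P * U0) x) - L k i0 ((V0 * P * U0) (e0 k i0)) * L k i0 x =
      L k i0 ((V0 * P * U0) x - (V k * P * U k) x) + _
    rw [map_sub]
    ring
  rw [e1, add_mul, Finset.sum_mul, Finset.sum_mul]
  refine (norm_add_le _ _).trans (add_le_add ?_ ?_)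
  · exact ((hLn _ _).trans (mul_le_mul_of_nonneg_left
      (ContinuousLinearMap.le_opNorm _ _) hC0)).trans_eq (mul_assoc _ _ _).symm
  · refine (norm_sum_le _ _).trans (Finset.sum_le_sum fun m _ => ?_)
    rw [norm_mul]
    exact (mul_le_mul_of_nonneg_left (hLn _ _) (norm_nonneg _)).trans_eq (mul_assoc _ _ _).symm

end Pool.Agent.TBirX
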