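import Pool.Agent.TBirX.Def
import Pool.Agent.TBirC.Grw

/-!
# The operator `T ell + TM C * T om`

Let `Y = T ell + TM C * T om`, `B = mul ell + C * mul om`. As `om` is conjugate analytic and `C` commutes with the multiplications, `TM B = T ell + T om * TM C`. `T ell` is a unit with inverse `T ell'`, and `T ell`, `T ell'`, `T om` commute.
With `x = T om`, `y = TM C * T ell'` we have `TM B = (1 + x * y) * T ell` and `Y = (1 + y * x) * T ell`; and `1 + y * x` is a unit if `1 + x * y` is one (the inverse is `1 - y * u * x`, `u` the inverse of `1 + x * y`).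
-/

set_option autoImplicit false

open MeasureTheory Complex Set Filter Topology Metric AddCircle
open scoped ComplexConjugate InnerProductSpace ENNReal

namespace Pool.Agent.TBirX

open Pool.Agent.TBir Pool.Agent.TBirG Pool.Agent.TBirC Pool.Agent.TBirJ Pool.Agent.TBirK
open Pool.Agent.TBirN
open Pool.Agent.TBirP (E qT)

private theorem unit_swap {R : Type*} [Ring R] {x y : R} (h : IsUnit (1 + x * y)) :
    IsUnit (1 + y * x) := by
  obtain ⟨u, hu⟩ := h
  have h1 : (1 + x * y) * ((u⁻¹ : Rˣ) : R) = 1 := by rw [← hu]; exact u.mul_inv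
  have h2 : ((u⁻¹ : Rˣ) : R) * (1 + x * y) = 1 := by rw [← hu]; exact u.inv_mul
  generalize ((u⁻¹ : Rˣ) : R) = v at h1 h2
  refine ⟨⟨1 + y * x, 1 - y * v * x, ?_, ?_⟩, rfl⟩
  · calc (1 + y * x) * (1 - y * v * x) = 1 + y * x - y * ((1 + x * y) * v) * x := by noncomm_ring
      _ = 1 := by rw [h1, mul_one]; abel
  · calc (1 - y * v * x) * (1 + y * x) = 1 + y * x - y * (v * (1 + x * y)) * x := by noncomm_ring
      _ = 1 := by rw [h2, mul_one]; abel

theorem y_unit {C : Op2} {ell ell' om : CT} (hC : Cm C) (h1 : Minus ell) (h2 : Minus ell')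
    (h3 : ell * ell' = 1) (h4 : Minus om) (hU : IsUnit (TM (mul ell + C * mul om))) :
    IsUnit (T ell + TM C * T om) := by
  have e1 : T ell * T ell' = 1 := by rw [← T_mul_left h1, h3, T_one]
  have e2 : T ell' * T ell = 1 := by rw [← T_mul_left h2, mul_comm, h3, T_one]
  have e3 : T om * T ell' = T ell' * T om := by
    rw [← T_mul_left h4, ← T_mul_left h2, mul_comm]
  have e4 : TM (mul ell + C * mul om) = (1 + T om * (TM C * T ell')) * T ell := by
    rw [TM_add, TM_mul, hC om, TM_minus _ h4, add_mul, one_mul, mul_assoc, mul_assoc, e2, mul_one]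
  have e5 : T ell + TM C * T om = (1 + TM C * T ell' * T om) * T ell := by
    rw [mul_assoc (TM C), ← e3, add_mul, one_mul, mul_assoc, mul_assoc, e2, mul_one]
  have hu : IsUnit (T ell) := ⟨⟨T ell, T ell', e1, e2⟩, rfl⟩
  have h5 : IsUnit (1 + T om * (TM C * T ell')) := by
    rw [e4] at hU
    obtain ⟨w, hw⟩ := hu
    rw [← hw] at hU
    exact (Units.isUnit_mul_units _ w).1 hU
  rw [e5]
  exact (unit_swap h5).mul hu

end Pool.Agent.TBirX
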